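import Pool.Agent.Lib.MP_329f2d_lc.H38G2

/-!
Generic extensions: the axioms, regularity, names for functions, lifting of embeddings.
-/

open ZFSet

set_option synthInstance.maxSize 100000
set_option linter.unusedSectionVars false

namespace Pool.Agent.Lib.MP_329f2d_lc

theorem rank_val_le (G τ : V) : rank (val G τ) ≤ rank τ := by
  induction τ using name_wf.induction with
  | _ τ ih =>
    refine rank_le_iff.2 fun y hy => ?_
    obtain ⟨σ, p, -, h, rfl⟩ := (mem_val _ _ _).1 hy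
    exact (ih σ (left_mem_sUnion h)).trans_lt ((rank_lt_of_mem (left_mem_sUnion h)).trans_le
      ((rank_sUnion_le _).trans (rank_sUnion_le _)))

theorem exists_names {K : Set V} {G : V} {Γ : Type} {v : Γ → V} (hv : ∀ i, v i ∈ Ext K G) :
    ∃ u : Γ → V, (∀ i, u i ∈ K) ∧ v = fun i => val G (u i) := by
  choose u h1 h2 using hv
  exact ⟨u, h1, funext fun i => (h2 i).symm⟩

theorem exists_name {K : Set V} (hK : ZFm K ∅) {P : V} (hP : P ∈ K) {S : V → V → Prop}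
    (hS : Cls2 K S) {a : V} (ha : a ∈ K) : ∃ τ ∈ K, ∀ G, Filt P G → ∀ x,
      x ∈ val G τ ↔ ∃ σ ∈ a, ∃ p ∈ G, S σ p ∧ x = val G σ := by
  refine ⟨_, hS.sep hK (tm2 (K := ZF) (t := fun _ a P => prod a (⋃₀ ⋃₀ P)) hK ha hP),
    fun G hG x => ?_⟩
  rw [mem_val]
  constructor
  · rintro ⟨σ, p, hp, h, e⟩
    exact ⟨σ, (pair_mem_prod.1 (mem_sep.1 h).1).1, p, hp, by simpa using (mem_sep.1 h).2, e⟩
  · rintro ⟨σ, hσ, p, hp, h, e⟩
    exact ⟨σ, p, hp, mem_sep.2 ⟨pair_mem_prod.2 ⟨hσ, left_mem_sUnion (hG.cond hp)⟩,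
      by simpa using h⟩, e⟩

section

variable {K : Set V} {P G : V} (hK : ZFm K ∅) (hP : P ∈ K) (hPo : Po P) (hG : Generic K P G)
include hK hP

theorem chk_mem {x : V} (hx : x ∈ K) : chk P x ∈ K :=
  tm2 (K := ZF) (t := fun _ P x => chk P x) hK hP hx

theorem opn_mem {σ τ : V} (hσ : σ ∈ K) (hτ : τ ∈ K) : opn P σ τ ∈ K :=
  tm3 (K := ZF) (t := fun _ P x y => opn P x y) hK hP hσ hτ

theorem nmG_mem : nmG P ∈ K := tm1 (K := ZF) (t := fun _ P => nmG P) hK hP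

include hPo hG

theorem pair_mem_val_iff {σ τ ρ : V} (hσ : σ ∈ K) (hτ : τ ∈ K) (hρ : ρ ∈ K) :
    pair (val G σ) (val G τ) ∈ val G ρ ↔ ∃ p ∈ G, FM P p (opn P σ τ) ρ := by
  rw [← val_opn hG.1, val_mem_iff hK hP hPo hG (opn_mem hK hP hσ hτ) hρ]

theorem subset_ext : K ⊆ Ext K G := fun x hx => ⟨_, chk_mem hK hP hx, val_chk hG.1 x⟩

theorem self_mem_ext : G ∈ Ext K G := ⟨_, nmG_mem hK hP, val_nmG hG.1⟩

theorem ext_zfm : ZFm (Ext K G) ∅ where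
  trans := by
    rintro _ ⟨τ, hτ, rfl⟩ y hy
    obtain ⟨σ, p, -, h, rfl⟩ := (mem_val _ _ _).1 hy
    exact ⟨σ, hK.left hτ h, rfl⟩
  omega := subset_ext hK hP hPo hG hK.omega
  pair := by
    rintro _ ⟨σ, hσ, rfl⟩ _ ⟨τ, hτ, rfl⟩
    exact ⟨_, tm3 (K := ZF) (t := fun _ P x y => upn P x y) hK hP hσ hτ, val_upn hG.1 _ _⟩
  union := by
    rintro _ ⟨τ, hτ, rfl⟩
    obtain ⟨ρ, hρ, h⟩ := exists_name hK hP (S := fun ρ r => ∃ π s t, pair π s ∈ τ ∧ pair ρ t ∈ π ∧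
      pair r s ∈ P ∧ pair r t ∈ P) (cls2 (K := ZF) (S := fun _ P τ z => ∃ π s t, pair π s ∈ τ ∧
        pair (fst z) t ∈ π ∧ pair (snd z) s ∈ P ∧ pair (snd z) t ∈ P) hK hP hτ)
      (hK.fld (hK.union _ (hK.fld hτ)))
    refine ⟨ρ, hρ, ZFSet.ext fun x => ?_⟩
    rw [h G hG.1, mem_sUnion]
    constructor
    · rintro ⟨σ, -, r, hr, ⟨π, s, t, a, b, c, d⟩, rfl⟩
      exact ⟨_, (mem_val _ _ _).2 ⟨π, s, hG.1.up hr c, a, rfl⟩,
        (mem_val _ _ _).2 ⟨σ, t, hG.1.up hr d, b, rfl⟩⟩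
    · rintro ⟨y, hy, hx⟩
      obtain ⟨π, s, hs, a, rfl⟩ := (mem_val _ _ _).1 hy
      obtain ⟨σ, t, ht, b, rfl⟩ := (mem_val _ _ _).1 hx
      obtain ⟨r, hr, c, d⟩ := hG.1.meet hs ht
      exact ⟨σ, left_mem_sUnion (y := t) (mem_sUnion.2 ⟨π, left_mem_sUnion a, b⟩), r, hr,
        ⟨π, s, t, a, b, c, d⟩, rfl⟩
  sep := by
    rintro φ v hv _ ⟨τ, hτ, rfl⟩
    obtain ⟨u, hu, rfl⟩ := exists_names hv
    obtain ⟨ρ, hρ, h⟩ := exists_name hK hP (S := fun π r => (∃ s, pair π s ∈ τ ∧ pair r s ∈ P) ∧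
      Frc K P φ r (cons π u)) (Df.cls (K := ZF) (Γ := Option (Option ℕ)) (fun W v z =>
        (∃ s, pair (fst z) s ∈ v (some none) ∧ pair (snd z) s ∈ v none) ∧
        Frc W (v none) φ (snd z) (cons (fst z) fun i => v (some (some i)))) hK hK.empty
        (v := fun o => o.elim P fun o => o.elim τ u)
        (by rintro (_ | _ | i); exacts [hP, hτ, hu i])) (hK.fld hτ)
    refine ⟨_, ⟨ρ, hρ, rfl⟩, fun x => ?_⟩
    rw [h G hG.1]
    constructor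
    · rintro ⟨π, hπ, r, hr, ⟨⟨s, a, b⟩, c⟩, rfl⟩
      refine ⟨(mem_val _ _ _).2 ⟨π, s, hG.1.up hr b, a, rfl⟩, ?_⟩
      rw [← val_cons, truth hK hP hPo hG φ (cons_mem (hK.left hτ a) hu)]
      exact ⟨r, hr, c⟩
    · rintro ⟨hx, hs⟩
      obtain ⟨π, s, hs', a, rfl⟩ := (mem_val _ _ _).1 hx
      rw [← val_cons, truth hK hP hPo hG φ (cons_mem (hK.left hτ a) hu)] at hs
      obtain ⟨q, hq, c⟩ := hs
      obtain ⟨r, hr, d, e⟩ := hG.1.meet hs' hq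
      exact ⟨π, left_mem_sUnion a, r, hr, ⟨⟨s, a, d⟩, c.mono hPo e⟩, rfl⟩
  coll := by
    rintro φ v hv _ ⟨τ, hτ, rfl⟩ H
    obtain ⟨u, hu, rfl⟩ := exists_names hv
    obtain ⟨b, hb, hb'⟩ := Df.coll (K := ZF) (Γ := Option ℕ) (fun W v z ρ =>
      (∃ ρ' ∈ W, Frc W (v none) φ (snd z) (cons ρ' (cons (fst z) fun i => v (some i)))) →
        Frc W (v none) φ (snd z) (cons ρ (cons (fst z) fun i => v (some i)))) hK
      (v := fun o => o.elim P u) (by rintro (_ | i); exacts [hP, hu i])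
      (tm2 (K := ZF) (t := fun _ τ P => prod (⋃₀ ⋃₀ τ) (⋃₀ ⋃₀ P)) hK hτ hP) fun z _ => by
        by_cases hz : ∃ ρ' ∈ K, Frc K P φ (snd z) (cons ρ' (cons (fst z) u))
        · obtain ⟨ρ, h1, h2⟩ := hz
          exact ⟨ρ, h1, fun _ => h2⟩
        · exact ⟨∅, hK.empty, fun h => absurd h hz⟩
    refine ⟨_, ⟨_, tm2 (K := ZF) (t := fun _ b P => prod b (⋃₀ ⋃₀ P)) hK hb hP, rfl⟩,
      fun x hx => ?_⟩
    obtain ⟨_, ⟨ρ', hρ', rfl⟩, hs⟩ := H x hx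
    obtain ⟨π, s, -, a, rfl⟩ := (mem_val _ _ _).1 hx
    have hπ := hK.left hτ a
    rw [← val_cons, ← val_cons, truth hK hP hPo hG φ (cons_mem hρ' (cons_mem hπ hu))] at hs
    obtain ⟨q, hq, c⟩ := hs
    obtain ⟨ρ, hρ, d⟩ := hb' (pair π q)
      (pair_mem_prod.2 ⟨left_mem_sUnion a, left_mem_sUnion (hG.1.cond hq)⟩)
    simp only [fst_pair, snd_pair] at d
    refine ⟨val G ρ, ?_, ?_⟩
    · rw [val_prod hG.1]; exact mem_img.2 ⟨ρ, hρ, rfl⟩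
    · rw [← val_cons, ← val_cons,
        truth hK hP hPo hG φ (cons_mem (hK.mem hρ hb) (cons_mem hπ hu))]
      exact ⟨q, hq, d ⟨ρ', hρ', c⟩⟩

theorem ext_ord : ∀ α ∈ Ext K G, IsOrdinal α → α ∈ K := by
  rintro _ ⟨τ, hτ, rfl⟩ ho
  have h1 : rk τ ∈ K := tm1 (K := ZF) (t := fun _ x => rk x) hK hτ
  have h2 : val G τ ⊆ rk τ := (ho.rank_le_iff_subset (isOrdinal_rk τ)).1 (by
    rw [rank_rk]; exact rank_val_le G τ)
  rcases (ho.subset_iff_eq_or_mem (isOrdinal_rk τ)).1 h2 with e | e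
  exacts [e ▸ h1, hK.mem e h1]

open Classical in
theorem ext_zfcm (h : ZFCm K ∅) : ZFCm (Ext K G) ∅ := by
  have hW := ext_zfm hK hP hPo hG
  have hs := subset_ext hK hP hPo hG
  refine ⟨hW, ?_⟩
  rintro _ ⟨τ, hτ, rfl⟩
  rcases eq_empty_or_nonempty (val G τ) with e | ⟨a, ha⟩
  · refine ⟨∅, hW.empty, isOrdinal_empty, ∅, hW.empty, ?_⟩
    rw [e]
    exact ⟨⟨empty_subset _, fun _ h => absurd h (notMem_empty _)⟩,
      fun _ h => absurd h (notMem_empty _)⟩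
  · obtain ⟨α, hα, ho, f, hf, hf'⟩ := h.2 _ (hK.fld hτ)
    have hτ' : val G τ ∈ Ext K G := ⟨τ, hτ, rfl⟩
    refine ⟨α, hs hα, ho, _, tm5 (K := ZF) (t := fun _ G f x a α =>
      graph (fun ξ => if val G (ap f ξ) ∈ x then val G (ap f ξ) else a) α) hW
      (self_mem_ext hK hP hPo hG) (hs hf) hτ' (hW.mem ha hτ') (hs hα),
      onto_graph (fun ξ _ => by split_ifs with h1; exacts [h1, ha]) fun y hy => ?_⟩
    obtain ⟨σ, p, -, h1, rfl⟩ := (mem_val _ _ _).1 hy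
    obtain ⟨ξ, hξ, rfl⟩ := hf'.ap (left_mem_sUnion h1)
    exact ⟨ξ, hξ, if_pos hy⟩

theorem ext_zfc (h : ZFC K) : ZFC (Ext K G) := by
  refine ⟨ext_zfcm hK hP hPo hG h.1, ?_⟩
  rintro _ ⟨τ, hτ, rfl⟩
  have ha := tm2 (K := ZF) (t := fun _ τ P => prod (⋃₀ ⋃₀ τ) (⋃₀ ⋃₀ P)) hK hτ hP
  obtain ⟨b, hb, hb'⟩ := h.2 _ ha
  refine ⟨_, ⟨_, tm2 (K := ZF) (t := fun _ b P => prod b (⋃₀ ⋃₀ P)) hK hb hP, rfl⟩, ?_⟩
  rintro _ ⟨σ, hσ, rfl⟩ hz
  rw [val_prod hG.1]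
  refine mem_img.2 ⟨_, hb' _ ((cls2 (K := ZF) (S := fun _ P σ z => FM P (snd z) (fst z) σ)
    hK hP hσ).sep hK ha) fun _ h => (mem_sep.1 h).1, ZFSet.ext fun x => ?_⟩
  rw [mem_val]
  constructor
  · rintro ⟨π, p, hp, h1, rfl⟩
    refine (val_mem_iff hK hP hPo hG (hK.left ha (mem_sep.1 h1).1) hσ).2 ⟨p, hp, ?_⟩
    simpa using (mem_sep.1 h1).2
  · intro hx
    obtain ⟨π, s, -, h1, rfl⟩ := (mem_val _ _ _).1 (hz hx)
    obtain ⟨p, hp, h2⟩ := (val_mem_iff hK hP hPo hG (hK.left hτ h1) hσ).1 hx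
    exact ⟨π, p, hp, mem_sep.2 ⟨pair_mem_prod.2 ⟨left_mem_sUnion h1,
      left_mem_sUnion (hG.1.cond hp)⟩, by simpa using h2⟩, rfl⟩

open Classical in
theorem reg_ext (h : ZFCm K ∅) {N : V} (hN : N ∈ K) (hZ : ZFm N ∅) (hPN : P ∈ N) (hr : Reg K N) :
    Reg (Ext K G) (ExtV N G) := by
  rintro x0 hx0 _ ⟨f, hf, rfl⟩ hF
  obtain ⟨x, hx, rfl⟩ := mem_ExtV.1 hx0
  have hNK : ∀ y ∈ N, y ∈ K := fun y hy => hK.mem hy hN
  have ha : prod (⋃₀ ⋃₀ x) (⋃₀ ⋃₀ P) ∈ (N : Set V) :=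
    tm2 (K := ZF) (t := fun _ τ P => prod (⋃₀ ⋃₀ τ) (⋃₀ ⋃₀ P)) hZ hx hPN
  obtain ⟨g, hg, -, -, hg'⟩ := Cls2.choice h (R := fun z τ => τ ∈ N ∧
    ((∃ τ' ∈ N, FM P (snd z) (opn P (fst z) τ') f) → FM P (snd z) (opn P (fst z) τ) f))
    (cls3 (K := ZF) (S := fun _ N P f y => snd y ∈ N ∧
      ((∃ τ' ∈ N, FM P (snd (fst y)) (opn P (fst (fst y)) τ') f) →
        FM P (snd (fst y)) (opn P (fst (fst y)) (snd y)) f)) hK hN hP hf) (hNK _ ha) fun z _ => by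
      by_cases hz : ∃ τ' ∈ N, FM P (snd z) (opn P (fst z) τ') f
      · obtain ⟨ρ, h1, h2⟩ := hz
        exact ⟨ρ, hNK _ h1, h1, fun _ => h2⟩
      · exact ⟨∅, hK.empty, hZ.empty, fun h => absurd h hz⟩
  obtain ⟨r, hr1, hr2⟩ := hr _ ha _ (tm4 (K := ZF) (t := fun _ P f g a => graph (fun z =>
    if FM P (snd z) (opn P (fst z) (ap g z)) f then pair (ap g z) (snd z) else ∅) a) hK hP hf hg
    (hNK _ ha)) (isFunc_graph fun z hz => by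
      split_ifs
      · exact hZ.opair (hg' z hz).1 (tm1 (K := ZF) (t := fun _ z => snd z) hZ (hZ.mem hz ha))
      · exact hZ.empty)
  have key : ∀ ξ y, pair ξ y ∈ val G f → y ∈ val G r := by
    intro ξ y hy
    obtain ⟨h1, h2⟩ := pair_mem_prod.1 (hF.1 hy)
    obtain ⟨π, s, -, h3, rfl⟩ := (mem_val _ _ _).1 h1
    obtain ⟨τ', h4, rfl⟩ := mem_ExtV.1 h2
    have hπ := hK.left (hNK _ hx) h3
    obtain ⟨p, hp, h5⟩ := (pair_mem_val_iff hK hP hPo hG hπ (hNK _ h4) hf).1 hy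
    have hz : pair π p ∈ prod (⋃₀ ⋃₀ x) (⋃₀ ⋃₀ P) :=
      pair_mem_prod.2 ⟨left_mem_sUnion h3, left_mem_sUnion (hG.1.cond hp)⟩
    obtain ⟨h6, h7⟩ := hg' _ hz
    simp only [fst_pair, snd_pair] at h7
    have h8 := h7 ⟨τ', h4, h5⟩
    have h9 := (pair_mem_val_iff hK hP hPo hG hπ (hNK _ h6) hf).2 ⟨p, hp, h8⟩
    refine (mem_val _ _ _).2 ⟨ap g (pair π p), p, hp, ?_, (hF.2 _ h1).unique hy h9⟩
    have := (isFunc_ap hr2.1 hz).2
    rw [ap_graph hz] at this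
    simpa [h8] using this
  refine ⟨val G r, mem_ExtV.2 ⟨r, hr1, rfl⟩, ⟨fun z hz => ?_, hF.2⟩, fun y hy => ?_⟩
  · obtain ⟨ξ, h1, y, -, rfl⟩ := mem_prod.1 (hF.1 hz)
    exact pair_mem_prod.2 ⟨h1, key ξ y hz⟩
  · obtain ⟨τ, p, hp, h1, rfl⟩ := (mem_val _ _ _).1 hy
    obtain ⟨z, hz, h2⟩ := hr2.2 _ h1
    have h3 := (pair_mem_graph.1 h2).2
    split_ifs at h3 with h4
    · obtain ⟨e1, e2⟩ := pair_inj.1 h3
      rw [e1, e2] at h4
      have h5 := (pair_mem_val_iff hK hP hPo hG (tm1 (K := ZF) (t := fun _ z => fst z) hK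
        (hK.mem hz (hNK _ ha))) (hK.left (hNK _ hr1) h1) hf).2 ⟨p, hp, h4⟩
      exact ⟨_, (pair_mem_prod.1 (hF.1 h5)).1, h5⟩
    · exact absurd (h3 ▸ (by simp [pair] : ({τ} : V) ∈ pair τ p)) (notMem_empty _)

set_option linter.unusedVariables false in
/-- Names for partly defined functions. -/
theorem exists_funNm (hc : K.Countable) {a b f : V} (ha : a ∈ K) (hb : b ∈ K) (hf : f ∈ Ext K G)
    (h1 : ∀ x y y', pair x y ∈ f → pair x y' ∈ f → y = y') :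
    ∃ F ∈ K, FunNm P F a b ∧
      ∀ x ∈ a, ∀ y ∈ b, pair x y ∈ f ↔ ∃ r ∈ G, In3 F r x y := by
  obtain ⟨f, hf, rfl⟩ := hf
  let S : V → V → V → Prop := fun r x y => pair r r ∈ P ∧ FM P r (opn P (chk P x) (chk P y)) f ∧
    ∀ y' ∈ b, ∀ r', pair r' r ∈ P → FM P r' (opn P (chk P x) (chk P y')) f → y' = y
  have hF := (cls3 (K := ZF) (S := fun _ P f b z => pair (fst z) (fst z) ∈ P ∧
    FM P (fst z) (opn P (chk P (fst (snd z))) (chk P (snd (snd z)))) f ∧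
    ∀ y' ∈ b, ∀ r', pair r' (fst z) ∈ P → FM P r' (opn P (chk P (fst (snd z))) (chk P y')) f →
      y' = snd (snd z)) hK hP hf hb).sep hK
    (tm3 (K := ZF) (t := fun _ P a b => prod (⋃₀ ⋃₀ P) (prod a b)) hK hP ha hb)
  set F := ZFSet.sep _ (prod (⋃₀ ⋃₀ P) (prod a b)) with hFd
  have hI : ∀ r x y, In3 F r x y ↔ x ∈ a ∧ y ∈ b ∧ S r x y := by
    intro r x y
    simp only [In3, hFd, mem_sep, pair_mem_prod, fst_pair, snd_pair]
    exact ⟨fun h => ⟨h.1.2.1, h.1.2.2, h.2⟩, fun h => ⟨⟨left_mem_sUnion h.2.2.1, h.1, h.2.1⟩, h.2.2⟩⟩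
  have hv : ∀ x ∈ a, ∀ y ∈ b, pair x y ∈ val G f ↔
      ∃ p ∈ G, FM P p (opn P (chk P x) (chk P y)) f := fun x hx y hy => by
    rw [← pair_mem_val_iff hK hP hPo hG (chk_mem hK hP (hK.mem hx ha)) (chk_mem hK hP (hK.mem hy hb))
      hf, val_chk hG.1, val_chk hG.1]
  refine ⟨F, hF, ⟨fun z hz => ?_, fun r r' x y h hr => ?_, fun r x y y' h h' => ?_⟩,
    fun x hx y hy => ⟨fun h => ?_, fun ⟨r, hr, h⟩ => ?_⟩⟩
  · obtain ⟨r, -, w, hw, rfl⟩ := mem_prod.1 (mem_sep.1 hz).1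
    obtain ⟨x, hx, y, hy, rfl⟩ := mem_prod.1 hw
    exact ⟨r, x, hx, y, hy, rfl, ((hI r x y).1 hz).2.2.1⟩
  · rw [hI] at h ⊢
    exact ⟨h.1, h.2.1, hPo.left hr, h.2.2.2.1.mono hPo hr,
      fun y' hy' r'' h' => h.2.2.2.2 y' hy' r'' (hPo.trans h' hr)⟩
  · rw [hI] at h h'
    exact h'.2.2.2.2 y h.2.1 r h.2.2.1 h.2.2.2.1
  · obtain ⟨p, hp, h2⟩ := (hv x hx y hy).1 h
    obtain ⟨r, hr, h3, h4⟩ := Generic.meet hK hP hPo hG (cls5 (K := ZF) (S := fun _ P f b x y r =>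
      (∀ y' ∈ b, ∀ r', pair r' r ∈ P → FM P r' (opn P (chk P x) (chk P y')) f → y' = y) ∨
      ∃ y' ∈ b, y' ≠ y ∧ FM P r (opn P (chk P x) (chk P y')) f) hK hP hf hb (hK.mem hx ha)
      (hK.mem hy hb)) hp fun q hq => by
        by_cases hc : ∀ y' ∈ b, ∀ r', pair r' q ∈ P →
            FM P r' (opn P (chk P x) (chk P y')) f → y' = y
        · exact ⟨q, hPo.left hq, .inl hc⟩
        · push Not at hc
          obtain ⟨y', a1, r', a2, a3, a4⟩ := hc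
          exact ⟨r', a2, .inr ⟨y', a1, a4, a3⟩⟩
    rcases h4 with h4 | ⟨y', a1, a2, a3⟩
    · exact ⟨r, hr, (hI _ _ _).2 ⟨hx, hy, hPo.left h3, h2.mono hPo h3, h4⟩⟩
    · exact absurd (h1 x y' y ((hv x hx y' a1).2 ⟨r, hr, a3⟩) h) a2
  · exact (hv x hx y hy).2 ⟨r, hr, ((hI _ _ _).1 h).2.2.2.1⟩

theorem lift_emb {M : Set V} {P' H : V} {m : V → V → Prop} (hM : ZFm M ∅) (hP' : Po P')
    (hH : Generic M P' H) (h : Emb M K m) (hm : m P' P) (hHG : ∀ x ∈ H, ∀ y, m x y → y ∈ G) :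
    Emb (Ext M H) (Ext K G) fun x y => ∃ σ τ, m σ τ ∧ x = val H σ ∧ y = val G τ := by
  have hPM := (h.dom _ _ hm).1
  refine ⟨fun φ v w hvw => ?_, ?_, ?_⟩
  · choose σ τ h1 h2 h3 using hvw
    obtain rfl : v = fun i => val H (σ i) := funext h2
    obtain rfl : w = fun i => val G (τ i) := funext h3
    have key : ∀ φ, Sat (Ext M H) ∅ φ (fun i => val H (σ i)) →
        Sat (Ext K G) ∅ φ fun i => val G (τ i) := by
      intro φ hs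
      obtain ⟨p', hp', hf⟩ := (truth hM hPM hP' hH φ fun i => (h.dom _ _ (h1 i)).1).1 hs
      obtain ⟨p, hp⟩ := h.total p' (Generic.mem hM hPM hH hp')
      refine (truth hK hP hPo hG φ fun i => (h.dom _ _ (h1 i)).2).2 ⟨p, hHG _ hp' _ hp, ?_⟩
      exact (PE.iff (K := ZF) (fun W (v : Option (Option ℕ) → V) =>
        Frc W (v none) φ (v (some none)) fun i => v (some (some i))) h.pe hM hK h.dom hm
        (v := fun o => o.elim P' fun o => o.elim p' σ) (w := fun o => o.elim P fun o => o.elim p τ)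
        (by rintro (_ | _ | i); exacts [hm, hp, h1 i])).1 hf
    exact ⟨key φ, fun hs => by_contra fun hn => key (.neg φ) hn hs⟩
  · rintro _ _ ⟨σ, τ, h1, rfl, rfl⟩
    exact ⟨⟨σ, (h.dom _ _ h1).1, rfl⟩, τ, (h.dom _ _ h1).2, rfl⟩
  · rintro _ ⟨σ, hσ, rfl⟩
    obtain ⟨τ, h1⟩ := h.total σ hσ
    exact ⟨_, σ, τ, h1, rfl, rfl⟩

end

/-- The forcing theorem for definable predicates. -/
theorem Df.forced {Γ : Type} [Countable Γ] (Φ : Set V → (Γ → V) → Prop) [h : Df ZF Φ] {K : Set V}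
    (hK : ZFm K ∅) {P : V} (hP : P ∈ K) (hPo : Po P) {v : Γ → V} (hv : ∀ i, v i ∈ K) :
    ∃ S : V → Prop, Cls K S ∧ (∀ p q, S p → pair q p ∈ P → S q) ∧
      ∀ G, Generic K P G → (Φ (Ext K G) (fun i => val G (v i)) ↔ ∃ p ∈ G, S p) := by
  obtain ⟨e, u, hu, rfl⟩ := exists_env hK.empty v hv
  obtain ⟨φ, hφ⟩ := h.ex e
  refine ⟨fun p => Frc K P φ p u, cls_Frc hK hP φ hu, fun p q h1 h2 => h1.mono hPo h2,
    fun G hG => ?_⟩
  rw [← truth hK hP hPo hG φ hu]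
  exact hφ _ (ext_zfm hK hP hPo hG) (fun i => val G (u i)) fun i => ⟨_, hu i, rfl⟩

/-- What is true is forced. -/
theorem Df.forced_of_true {Γ : Type} [Countable Γ] (Φ : Set V → (Γ → V) → Prop) [Df ZF Φ]
    {K : Set V} (hK : ZFm K ∅) {P G : V} (hP : P ∈ K) (hPo : Po P) (hG : Generic K P G)
    {v : Γ → V} (hv : ∀ i, v i ∈ K) (h : Φ (Ext K G) fun i => val G (v i)) :
    ∃ p ∈ G, ∀ G', Generic K P G' → p ∈ G' → Φ (Ext K G') fun i => val G' (v i) := by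
  obtain ⟨S, -, -, h2⟩ := Df.forced Φ hK hP hPo hv
  obtain ⟨p, hp, h3⟩ := (h2 G hG).1 h
  exact ⟨p, hp, fun G' hG' hp' => (h2 G' hG').2 ⟨p, hp', h3⟩⟩

end Pool.Agent.Lib.MP_329f2d_lc
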