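import Pool.Agent.Lib.MP_329f2d_lc.H58Tm

/-!
Relativised satisfaction, substitution, the recursion theorem, natural numbers, rank,
transitive closure, values of names, and choice.
-/

open ZFSet

namespace Pool.Agent.Lib.MP_329f2d_lc

variable {K : Set V → Prop} {Γ Δ : Type} {W A : Set V}

/-- An assignment all of whose values are definable terms. -/
class Env (K : Set V → Prop) {Γ : Type} (E : Set V → (Γ → V) → ℕ → V) : Prop where
  tm : ∀ i, Tm K fun W v => E W v i

instance env_var (f : ℕ → Γ) : Env K fun _ (v : Γ → V) i => v (f i) := ⟨fun _ => inferInstance⟩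

instance env_id : Env K fun _ (v : ℕ → V) => v := ⟨fun _ => inferInstance⟩

instance env_const (t : Set V → (Γ → V) → V) [h : Tm K t] : Env K fun W v _ => t W v :=
  ⟨fun _ => h⟩

instance env_cons (t : Set V → (Γ → V) → V) [h : Tm K t] (E : Set V → (Γ → V) → ℕ → V)
    [h' : Env K E] : Env K fun W v => cons (t W v) (E W v) :=
  ⟨fun i => by cases i; exacts [h, h'.tm _]⟩

instance env_ren (E : Set V → (Γ → V) → ℕ → V) [h : Env K E] (f : Γ → Δ) :
    Env K fun W (v : Δ → V) => E W fun i => v (f i) :=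
  ⟨fun i => have := h.tm i; tm_ren (fun W v => E W v i) f⟩

instance df_Sat (φ : Fml) : ∀ {Γ : Type} (C D : Set V → (Γ → V) → Set V) [Dc K C] [Dc K D]
    (E : Set V → (Γ → V) → ℕ → V) [Env K E],
    Df K fun W v => Sat (C W v) (D W v) φ (E W v) := by
  induction φ with
  | mem i j =>
    intro Γ C D _ _ E h
    have := h.tm i; have := h.tm j
    exact df_mem (fun W v => E W v i) fun W v => E W v j
  | eq i j =>
    intro Γ C D _ _ E h
    have := h.tm i; have := h.tm j
    exact df_eq (fun W v => E W v i) fun W v => E W v j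
  | pred i =>
    intro Γ C D _ _ E h
    have := h.tm i
    exact df_memC (fun W v => E W v i) D
  | neg φ ih => intro Γ C D _ _ E h; unfold Sat; have := ih C D E; infer_instance
  | and φ ψ ih ih' =>
    intro Γ C D _ _ E h; unfold Sat; have := ih C D E; have := ih' C D E; infer_instance
  | ex φ ih =>
    intro Γ C D _ _ E h
    unfold Sat
    have := ih (fun W (v : Option Γ → V) => C W fun i => v (some i))
      (fun W v => D W fun i => v (some i)) fun W v => cons (v none) (E W fun i => v (some i))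
    infer_instance

theorem Df.substN_aux (Δ : Type) [Finite Δ] : ∀ (Γ : Type) (P : Set V → (Δ ⊕ Γ → V) → Prop)
    (_ : Df K P) (a : Δ → Set V → (Γ → V) → V) (_ : ∀ d, Tm K (a d)),
    Df K fun W v => P W (Sum.elim (fun d => a d W v) v) := by
  induction Δ using Finite.induction_empty_option with
  | @of_equiv α β e ih =>
    intro Γ P h a ha
    have := ih Γ _ (h.ren (Sum.map e.symm id)) (fun d => a (e d)) fun _ => ha _
    convert this using 4 with W v
    ext1 i
    cases i <;> simp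
  | h_empty =>
    intro Γ P h a _
    convert h.ren (Sum.elim PEmpty.elim id) using 4 with W v
    ext1 i
    rcases i with i | i
    exacts [i.elim, rfl]
  | @h_option α _ ih =>
    intro Γ P h a ha
    have := ih (Option Γ) _ (h.ren (Sum.elim (fun o : Option α => o.elim (.inr none) .inl)
      fun i => .inr (some i))) (fun d W v => a (some d) W fun i => v (some i))
      fun d => have := ha (some d); inferInstance
    have h0 := ha none
    have h1 : Df K fun W (v : Option Γ → V) => (fun W (v : Γ → V) x => P W (Sum.elim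
        (fun o : Option α => o.elim x fun d => a (some d) W v) v)) W (fun i => v (some i))
        (v none) := by
      convert this using 4 with W v
      ext1 i
      rcases i with (_ | i) | i <;> rfl
    have h2 := Df.subst (K := K) (fun W (v : Γ → V) x => P W (Sum.elim
        (fun o : Option α => o.elim x fun d => a (some d) W v) v)) (a none)
    convert h2 using 4 with W v
    ext1 i
    rcases i with (_ | i) | i <;> rfl

/-- Simultaneous substitution of terms for finitely many variables. -/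
theorem Df.substN [Finite Δ] {P : Set V → (Δ → V) → Prop} (h : Df K P)
    (a : Δ → Set V → (Γ → V) → V) (ha : ∀ d, Tm K (a d)) :
    Df K fun W v => P W fun d => a d W v :=
  Df.substN_aux Δ Γ _ (h.ren Sum.inl) a ha

theorem Tm.substN [Finite Δ] {t : Set V → (Δ → V) → V} (h : Tm K t)
    (a : Δ → Set V → (Γ → V) → V) (ha : ∀ d, Tm K (a d)) :
    Tm K fun W v => t W fun d => a d W v :=
  ⟨fun W hW v hv => h.mem W hW _ fun d => (ha d).mem W hW v hv,
    h.df.substN (fun o W (v : Option Γ → V) => o.elim (v none) fun d => a d W fun i => v (some i))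
      (by rintro (_ | d); exacts [tm_var _, have := ha d; tm_ren (a d) some])⟩

theorem Tm.subst (F : Set V → (Γ → V) → V → V)
    [h : Tm K fun W (v : Option Γ → V) => F W (fun i => v (some i)) (v none)]
    (t : Set V → (Γ → V) → V) [h' : Tm K t] : Tm K fun W v => F W v (t W v) :=
  ⟨fun W hW v hv => h.mem W hW (fun o => o.elim (t W v) v)
      (by rintro (_ | i); exacts [h'.mem W hW v hv, hv i]),
    have : Tm K fun W (v : Option (Option Γ) → V) =>
        F W (fun i => v (some (some i))) (v none) :=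
      tm_ren (fun W (v : Option Γ → V) => F W (fun i => v (some i)) (v none)) (Option.map some)
    Df.subst (fun W (v : Option Γ → V) x => v none = F W (fun i => v (some i)) x)
      fun W v => t W fun i => v (some i)⟩

theorem Tm.app1 {F : Set V → V → V} (h : Tm K fun W (v : Option Empty → V) => F W (v none))
    (s : Set V → (Γ → V) → V) [hs : Tm K s] : Tm K fun W v => F W (s W v) :=
  h.substN (fun _ => s) fun _ => hs

theorem Tm.app2 {F : Set V → V → V → V}
    (h : Tm K fun W (v : Option Unit → V) => F W (v (some ())) (v none))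
    (s t : Set V → (Γ → V) → V) [hs : Tm K s] [ht : Tm K t] :
    Tm K fun W v => F W (s W v) (t W v) :=
  h.substN (fun o => o.elim t fun _ => s) (by rintro (_ | _); exacts [ht, hs])

theorem Tm.app3 {F : Set V → V → V → V → V}
    (h : Tm K fun W (v : Option Bool → V) => F W (v (some false)) (v (some true)) (v none))
    (r s t : Set V → (Γ → V) → V) [hr : Tm K r] [hs : Tm K s] [ht : Tm K t] :
    Tm K fun W v => F W (r W v) (s W v) (t W v) :=
  h.substN (fun o => o.elim t fun b => cond b s r) (by rintro (_ | _ | _); exacts [ht, hr, hs])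

/-- `R` is a binary relation definable over `W` with parameters. -/
abbrev Cls2 (W : Set V) (R : V → V → Prop) : Prop := Cls W fun z => R (fst z) (snd z)

theorem Cls.congr {S T : V → Prop} (h : Cls W S) (e : ∀ x ∈ W, T x ↔ S x) : Cls W T := by
  obtain ⟨φ, p, hp, h⟩ := h
  exact ⟨φ, p, hp, fun x hx => (e x hx).trans (h x hx)⟩

theorem Cls2.coll (hW : ZF W) {R : V → V → Prop} (h : Cls2 W R) {a : V} (ha : a ∈ W)
    (H : ∀ x ∈ a, ∃ y ∈ W, R x y) : ∃ b ∈ W, ∀ x ∈ a, ∃ y ∈ b, R x y := by
  obtain ⟨φ, p, hp, h⟩ := h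
  have key : ∀ x ∈ a, ∀ y ∈ W, R x y ↔ Sat W ∅ φ (cons (pair x y) p) := fun x hx y hy => by
    simpa using h _ (hW.opair (hW.mem hx ha) hy)
  obtain ⟨b, hb, hb'⟩ := Df.coll (K := ZF) (fun W v x y => Sat W ∅ φ (cons (pair x y) v)) hW hp ha
    fun x hx => (H x hx).imp fun y hy => ⟨hy.1, (key x hx y hy.1).1 hy.2⟩
  exact ⟨b, hb, fun x hx => (hb' x hx).imp fun y hy =>
    ⟨hy.1, (key x hx y (hW.mem hy.1 hb)).2 hy.2⟩⟩

variable [hK : Cl K]

set_option linter.unusedVariables false

theorem cls0 {S : Set V → V → Prop}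
    [Df K fun W (v : Option ℕ → V) => S W (v none)] (hW : K W) :
    Cls W (S W) :=
  Df.cls (K := K) (fun W (v : ℕ → V) => S W) hW (hK.zf W hW).empty
    (v := fun _ => ∅) (fun _ => (hK.zf W hW).empty)

theorem tm0 {t : Set V → V} [hT : Tm K fun W (v : ℕ → V) => t W]
    (hW : K W) : t W ∈ W :=
  hT.mem W hW (fun _ => ∅) (fun _ => (hK.zf W hW).empty)

theorem cls1 {S : Set V → V → V → Prop}
    [Df K fun W (v : Option ℕ → V) => S W (v (some 0)) (v none)] (hW : K W) {a : V} (ha : a ∈ W) :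
    Cls W (S W a) :=
  Df.cls (K := K) (fun W (v : ℕ → V) => S W (v 0)) hW (hK.zf W hW).empty
    (v := cons a (fun _ => ∅)) (cons_mem ha (fun _ => (hK.zf W hW).empty))

theorem tm1 {t : Set V → V → V} [hT : Tm K fun W (v : ℕ → V) => t W (v 0)]
    (hW : K W) {a : V} (ha : a ∈ W) : t W a ∈ W :=
  hT.mem W hW (cons a (fun _ => ∅)) (cons_mem ha (fun _ => (hK.zf W hW).empty))

theorem cls2 {S : Set V → V → V → V → Prop}
    [Df K fun W (v : Option ℕ → V) => S W (v (some 0)) (v (some 1)) (v none)] (hW : K W) {a b : V} (ha : a ∈ W) (hb : b ∈ W) :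
    Cls W (S W a b) :=
  Df.cls (K := K) (fun W (v : ℕ → V) => S W (v 0) (v 1)) hW (hK.zf W hW).empty
    (v := cons a (cons b (fun _ => ∅))) (cons_mem ha (cons_mem hb (fun _ => (hK.zf W hW).empty)))

theorem tm2 {t : Set V → V → V → V} [hT : Tm K fun W (v : ℕ → V) => t W (v 0) (v 1)]
    (hW : K W) {a b : V} (ha : a ∈ W) (hb : b ∈ W) : t W a b ∈ W :=
  hT.mem W hW (cons a (cons b (fun _ => ∅))) (cons_mem ha (cons_mem hb (fun _ => (hK.zf W hW).empty)))

theorem cls3 {S : Set V → V → V → V → V → Prop}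
    [Df K fun W (v : Option ℕ → V) => S W (v (some 0)) (v (some 1)) (v (some 2)) (v none)] (hW : K W) {a b c : V} (ha : a ∈ W) (hb : b ∈ W) (hc : c ∈ W) :
    Cls W (S W a b c) :=
  Df.cls (K := K) (fun W (v : ℕ → V) => S W (v 0) (v 1) (v 2)) hW (hK.zf W hW).empty
    (v := cons a (cons b (cons c (fun _ => ∅)))) (cons_mem ha (cons_mem hb (cons_mem hc (fun _ => (hK.zf W hW).empty))))

theorem tm3 {t : Set V → V → V → V → V} [hT : Tm K fun W (v : ℕ → V) => t W (v 0) (v 1) (v 2)]
    (hW : K W) {a b c : V} (ha : a ∈ W) (hb : b ∈ W) (hc : c ∈ W) : t W a b c ∈ W :=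
  hT.mem W hW (cons a (cons b (cons c (fun _ => ∅)))) (cons_mem ha (cons_mem hb (cons_mem hc (fun _ => (hK.zf W hW).empty))))

theorem cls4 {S : Set V → V → V → V → V → V → Prop}
    [Df K fun W (v : Option ℕ → V) => S W (v (some 0)) (v (some 1)) (v (some 2)) (v (some 3)) (v none)] (hW : K W) {a b c d : V} (ha : a ∈ W) (hb : b ∈ W) (hc : c ∈ W) (hd : d ∈ W) :
    Cls W (S W a b c d) :=
  Df.cls (K := K) (fun W (v : ℕ → V) => S W (v 0) (v 1) (v 2) (v 3)) hW (hK.zf W hW).empty
    (v := cons a (cons b (cons c (cons d (fun _ => ∅))))) (cons_mem ha (cons_mem hb (cons_mem hc (cons_mem hd (fun _ => (hK.zf W hW).empty)))))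

theorem tm4 {t : Set V → V → V → V → V → V} [hT : Tm K fun W (v : ℕ → V) => t W (v 0) (v 1) (v 2) (v 3)]
    (hW : K W) {a b c d : V} (ha : a ∈ W) (hb : b ∈ W) (hc : c ∈ W) (hd : d ∈ W) : t W a b c d ∈ W :=
  hT.mem W hW (cons a (cons b (cons c (cons d (fun _ => ∅))))) (cons_mem ha (cons_mem hb (cons_mem hc (cons_mem hd (fun _ => (hK.zf W hW).empty)))))

theorem cls5 {S : Set V → V → V → V → V → V → V → Prop}
    [Df K fun W (v : Option ℕ → V) => S W (v (some 0)) (v (some 1)) (v (some 2)) (v (some 3)) (v (some 4)) (v none)] (hW : K W) {a b c d e : V} (ha : a ∈ W) (hb : b ∈ W) (hc : c ∈ W) (hd : d ∈ W) (he : e ∈ W) :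
    Cls W (S W a b c d e) :=
  Df.cls (K := K) (fun W (v : ℕ → V) => S W (v 0) (v 1) (v 2) (v 3) (v 4)) hW (hK.zf W hW).empty
    (v := cons a (cons b (cons c (cons d (cons e (fun _ => ∅)))))) (cons_mem ha (cons_mem hb (cons_mem hc (cons_mem hd (cons_mem he (fun _ => (hK.zf W hW).empty))))))

theorem tm5 {t : Set V → V → V → V → V → V → V} [hT : Tm K fun W (v : ℕ → V) => t W (v 0) (v 1) (v 2) (v 3) (v 4)]
    (hW : K W) {a b c d e : V} (ha : a ∈ W) (hb : b ∈ W) (hc : c ∈ W) (hd : d ∈ W) (he : e ∈ W) : t W a b c d e ∈ W :=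
  hT.mem W hW (cons a (cons b (cons c (cons d (cons e (fun _ => ∅)))))) (cons_mem ha (cons_mem hb (cons_mem hc (cons_mem hd (cons_mem he (fun _ => (hK.zf W hW).empty))))))

theorem cls6 {S : Set V → V → V → V → V → V → V → V → Prop}
    [Df K fun W (v : Option ℕ → V) => S W (v (some 0)) (v (some 1)) (v (some 2)) (v (some 3)) (v (some 4)) (v (some 5)) (v none)] (hW : K W) {a b c d e f : V} (ha : a ∈ W) (hb : b ∈ W) (hc : c ∈ W) (hd : d ∈ W) (he : e ∈ W) (hf : f ∈ W) :
    Cls W (S W a b c d e f) :=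
  Df.cls (K := K) (fun W (v : ℕ → V) => S W (v 0) (v 1) (v 2) (v 3) (v 4) (v 5)) hW (hK.zf W hW).empty
    (v := cons a (cons b (cons c (cons d (cons e (cons f (fun _ => ∅))))))) (cons_mem ha (cons_mem hb (cons_mem hc (cons_mem hd (cons_mem he (cons_mem hf (fun _ => (hK.zf W hW).empty)))))))

theorem tm6 {t : Set V → V → V → V → V → V → V → V} [hT : Tm K fun W (v : ℕ → V) => t W (v 0) (v 1) (v 2) (v 3) (v 4) (v 5)]
    (hW : K W) {a b c d e f : V} (ha : a ∈ W) (hb : b ∈ W) (hc : c ∈ W) (hd : d ∈ W) (he : e ∈ W) (hf : f ∈ W) : t W a b c d e f ∈ W :=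
  hT.mem W hW (cons a (cons b (cons c (cons d (cons e (cons f (fun _ => ∅))))))) (cons_mem ha (cons_mem hb (cons_mem hc (cons_mem hd (cons_mem he (cons_mem hf (fun _ => (hK.zf W hW).empty)))))))

theorem cls7 {S : Set V → V → V → V → V → V → V → V → V → Prop}
    [Df K fun W (v : Option ℕ → V) => S W (v (some 0)) (v (some 1)) (v (some 2)) (v (some 3)) (v (some 4)) (v (some 5)) (v (some 6)) (v none)] (hW : K W) {a b c d e f g : V} (ha : a ∈ W) (hb : b ∈ W) (hc : c ∈ W) (hd : d ∈ W) (he : e ∈ W) (hf : f ∈ W) (hg : g ∈ W) :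
    Cls W (S W a b c d e f g) :=
  Df.cls (K := K) (fun W (v : ℕ → V) => S W (v 0) (v 1) (v 2) (v 3) (v 4) (v 5) (v 6)) hW (hK.zf W hW).empty
    (v := cons a (cons b (cons c (cons d (cons e (cons f (cons g (fun _ => ∅)))))))) (cons_mem ha (cons_mem hb (cons_mem hc (cons_mem hd (cons_mem he (cons_mem hf (cons_mem hg (fun _ => (hK.zf W hW).empty))))))))

theorem tm7 {t : Set V → V → V → V → V → V → V → V → V} [hT : Tm K fun W (v : ℕ → V) => t W (v 0) (v 1) (v 2) (v 3) (v 4) (v 5) (v 6)]
    (hW : K W) {a b c d e f g : V} (ha : a ∈ W) (hb : b ∈ W) (hc : c ∈ W) (hd : d ∈ W) (he : e ∈ W) (hf : f ∈ W) (hg : g ∈ W) : t W a b c d e f g ∈ W :=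
  hT.mem W hW (cons a (cons b (cons c (cons d (cons e (cons f (cons g (fun _ => ∅)))))))) (cons_mem ha (cons_mem hb (cons_mem hc (cons_mem hd (cons_mem he (cons_mem hf (cons_mem hg (fun _ => (hK.zf W hW).empty))))))))

theorem cls8 {S : Set V → V → V → V → V → V → V → V → V → V → Prop}
    [Df K fun W (v : Option ℕ → V) => S W (v (some 0)) (v (some 1)) (v (some 2)) (v (some 3)) (v (some 4)) (v (some 5)) (v (some 6)) (v (some 7)) (v none)] (hW : K W) {a b c d e f g i : V} (ha : a ∈ W) (hb : b ∈ W) (hc : c ∈ W) (hd : d ∈ W) (he : e ∈ W) (hf : f ∈ W) (hg : g ∈ W) (hi : i ∈ W) :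
    Cls W (S W a b c d e f g i) :=
  Df.cls (K := K) (fun W (v : ℕ → V) => S W (v 0) (v 1) (v 2) (v 3) (v 4) (v 5) (v 6) (v 7)) hW (hK.zf W hW).empty
    (v := cons a (cons b (cons c (cons d (cons e (cons f (cons g (cons i (fun _ => ∅))))))))) (cons_mem ha (cons_mem hb (cons_mem hc (cons_mem hd (cons_mem he (cons_mem hf (cons_mem hg (cons_mem hi (fun _ => (hK.zf W hW).empty)))))))))

theorem tm8 {t : Set V → V → V → V → V → V → V → V → V → V} [hT : Tm K fun W (v : ℕ → V) => t W (v 0) (v 1) (v 2) (v 3) (v 4) (v 5) (v 6) (v 7)]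
    (hW : K W) {a b c d e f g i : V} (ha : a ∈ W) (hb : b ∈ W) (hc : c ∈ W) (hd : d ∈ W) (he : e ∈ W) (hf : f ∈ W) (hg : g ∈ W) (hi : i ∈ W) : t W a b c d e f g i ∈ W :=
  hT.mem W hW (cons a (cons b (cons c (cons d (cons e (cons f (cons g (cons i (fun _ => ∅))))))))) (cons_mem ha (cons_mem hb (cons_mem hc (cons_mem hd (cons_mem he (cons_mem hf (cons_mem hg (cons_mem hi (fun _ => (hK.zf W hW).empty)))))))))

theorem cls9 {S : Set V → V → V → V → V → V → V → V → V → V → V → Prop}
    [Df K fun W (v : Option ℕ → V) => S W (v (some 0)) (v (some 1)) (v (some 2)) (v (some 3)) (v (some 4)) (v (some 5)) (v (some 6)) (v (some 7)) (v (some 8)) (v none)] (hW : K W) {a b c d e f g i j : V} (ha : a ∈ W) (hb : b ∈ W) (hc : c ∈ W) (hd : d ∈ W) (he : e ∈ W) (hf : f ∈ W) (hg : g ∈ W) (hi : i ∈ W) (hj : j ∈ W) :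
    Cls W (S W a b c d e f g i j) :=
  Df.cls (K := K) (fun W (v : ℕ → V) => S W (v 0) (v 1) (v 2) (v 3) (v 4) (v 5) (v 6) (v 7) (v 8)) hW (hK.zf W hW).empty
    (v := cons a (cons b (cons c (cons d (cons e (cons f (cons g (cons i (cons j (fun _ => ∅)))))))))) (cons_mem ha (cons_mem hb (cons_mem hc (cons_mem hd (cons_mem he (cons_mem hf (cons_mem hg (cons_mem hi (cons_mem hj (fun _ => (hK.zf W hW).empty))))))))))

theorem tm9 {t : Set V → V → V → V → V → V → V → V → V → V → V} [hT : Tm K fun W (v : ℕ → V) => t W (v 0) (v 1) (v 2) (v 3) (v 4) (v 5) (v 6) (v 7) (v 8)]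
    (hW : K W) {a b c d e f g i j : V} (ha : a ∈ W) (hb : b ∈ W) (hc : c ∈ W) (hd : d ∈ W) (he : e ∈ W) (hf : f ∈ W) (hg : g ∈ W) (hi : i ∈ W) (hj : j ∈ W) : t W a b c d e f g i j ∈ W :=
  hT.mem W hW (cons a (cons b (cons c (cons d (cons e (cons f (cons g (cons i (cons j (fun _ => ∅)))))))))) (cons_mem ha (cons_mem hb (cons_mem hc (cons_mem hd (cons_mem he (cons_mem hf (cons_mem hg (cons_mem hi (cons_mem hj (fun _ => (hK.zf W hW).empty))))))))))

theorem Tm.recur [Countable Γ] (F pre : Set V → (Γ → V) → V → V)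
    (step : Set V → (Γ → V) → V → V → V)
    [hp : Tm K fun W (v : Option Γ → V) => pre W (fun i => v (some i)) (v none)]
    [hs : Tm K fun W (v : Option (Option Γ) → V) =>
      step W (fun i => v (some (some i))) (v (some none)) (v none)]
    (wf : ∀ W, K W → ∀ v : Γ → V, (∀ i, v i ∈ W) → WellFounded fun y x => x ∈ W ∧ y ∈ pre W v x)
    (hF : ∀ W, K W → ∀ v : Γ → V, (∀ i, v i ∈ W) → ∀ x ∈ W,
      F W v x = step W v x (graph (F W v) (pre W v x))) :
    Tm K fun W (v : Option Γ → V) => F W (fun i => v (some i)) (v none) := by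
  have ipre : ∀ {Δ : Type} (f : Γ → Δ) (a : Set V → (Δ → V) → V) [Tm K a],
      Tm K fun W v => pre W (fun i => v (f i)) (a W v) := fun f a _ =>
    have : Tm K fun W (v : Option _ → V) => pre W (fun i => v (some (f i))) (v none) :=
      tm_ren (fun W (v : Option Γ → V) => pre W (fun i => v (some i)) (v none)) (Option.map f)
    Tm.subst (fun W v x => pre W (fun i => v (f i)) x) a
  have istep : ∀ {Δ : Type} (f : Γ → Δ) (a b : Set V → (Δ → V) → V) [Tm K a] [Tm K b],
      Tm K fun W v => step W (fun i => v (f i)) (a W v) (b W v) := fun f a b _ _ =>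
    have : Tm K fun W (v : Option (Option _) → V) =>
        step W (fun i => v (some (some (f i)))) (v (some none)) (v none) :=
      tm_ren (fun W (v : Option (Option Γ) → V) =>
        step W (fun i => v (some (some i))) (v (some none)) (v none)) (Option.map (Option.map f))
    have := Tm.subst (K := K) (fun W (v : Option _ → V) y =>
      step W (fun i => v (some (f i))) (v none) y) fun W v => b W fun i => v (some i)
    Tm.subst (fun W v x => step W (fun i => v (f i)) x (b W v)) a
  let Good : Set V → (Γ → V) → V → Prop := fun W v f => Fn f ∧ ∀ x ∈ dom f,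
    pre W v x ⊆ dom f ∧ ap f x = step W v x (graph (ap f) (pre W v x))
  have igood : ∀ {Δ : Type} [Countable Δ] (f : Γ → Δ) (a : Set V → (Δ → V) → V) [Tm K a],
      Df K fun W v => Good W (fun i => v (f i)) (a W v) := fun f a _ => by
    simp only [Good]; infer_instance
  have hA : ∀ W, K W → ∀ v : Γ → V, (∀ i, v i ∈ W) → ∀ f ∈ W, Good W v f →
      ∀ x, x ∈ dom f → ap f x = F W v x := by
    intro W hW v hv f hf hg x
    induction x using (wf W hW v hv).induction with
    | _ x ih =>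
      intro hx
      have hxW := (hK.zf W hW).mem hx (tm1 (t := fun _ f => dom f) hW hf)
      rw [(hg.2 x hx).2, hF W hW v hv x hxW,
        graph_congr fun y hy => ih y ⟨hxW, hy⟩ ((hg.2 x hx).1 hy)]
  have hB : ∀ W, K W → ∀ v : Γ → V, (∀ i, v i ∈ W) → ∀ x, x ∈ W →
      ∃ f ∈ W, Good W v f ∧ x ∈ dom f := by
    intro W hW v hv x
    have hz := hK.zf W hW
    induction x using (wf W hW v hv).induction with
    | _ x ih =>
      intro hx
      have hpre : pre W v x ∈ W :=
        hp.mem W hW (fun o => o.elim x v) (by rintro (_ | i); exacts [hx, hv i])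
      obtain ⟨b, hb, hb'⟩ := Df.coll (K := K) (fun W v y f => Good W v f ∧ y ∈ dom f) hW hv hpre
        fun y hy => ih y ⟨hx, hy⟩ (hz.mem hy hpre)
      have hc := (Df.cls (K := K) (fun W v f => Good W v f) hW hz.empty hv).sep hz hb
      set c := ZFSet.sep (Good W v) b with hcdef
      have hu : ∀ y ∈ dom (⋃₀ c), ap (⋃₀ c) y = F W v y := by
        intro y hy
        obtain ⟨z, hz'⟩ := mem_dom.1 hy
        have key : ∀ z, pair y z ∈ (⋃₀ c : V) → z = F W v y := fun z hz' => by
          obtain ⟨f, hf, hf'⟩ := mem_sUnion.1 hz'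
          have hg := (mem_sep.1 hf).2
          rw [← hg.1.ap_eq hf', hA W hW v hv f (hz.mem hf hc) hg y (mem_dom.2 ⟨z, hf'⟩)]
        exact ap_eq (key z hz' ▸ hz') key
      have hsub : ∀ f ∈ c, dom f ⊆ dom (⋃₀ c) := fun f hf y hy => by
        obtain ⟨z, hz'⟩ := mem_dom.1 hy
        exact mem_dom.2 ⟨z, mem_sUnion.2 ⟨f, hf, hz'⟩⟩
      have h1 : pre W v x ⊆ dom (⋃₀ c) := fun y hy => by
        obtain ⟨f, hf, hg, hy'⟩ := hb' y hy
        exact hsub f (mem_sep.2 ⟨hf, hg⟩) hy'
      have h2 : ∀ d ∈ W, d ⊆ dom (⋃₀ c) → graph (F W v) d ∈ W := fun d hd hd' => by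
        rw [← graph_congr fun y hy => hu y (hd' hy)]
        exact tm2 (t := fun _ c d => graph (ap (⋃₀ c)) d) hW hc hd
      have h3 : F W v x ∈ W := by
        rw [hF W hW v hv x hx]
        exact hs.mem W hW (fun o => o.elim (graph (F W v) (pre W v x)) fun o => o.elim x v)
          (by rintro (_ | _ | i); exacts [h2 _ hpre h1, hx, hv i])
      have hd : dom (⋃₀ c) ∈ W := tm1 (t := fun _ c => dom (⋃₀ c)) hW hc
      have h4 : graph (F W v) (insert x (dom (⋃₀ c))) =
          insert (pair x (F W v x)) (graph (F W v) (dom (⋃₀ c))) := by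
        ext z
        rw [mem_insert_iff, mem_graph, mem_graph]
        constructor
        · rintro ⟨y, hy, e⟩
          rcases mem_insert_iff.1 hy with rfl | hy
          exacts [.inl e.symm, .inr ⟨y, hy, e⟩]
        · rintro (rfl | ⟨y, hy, e⟩)
          exacts [⟨x, mem_insert _ _, rfl⟩, ⟨y, mem_insert_of_mem _ hy, e⟩]
      have h5 : ∀ y ∈ insert x (dom (⋃₀ c)), pre W v y ⊆ insert x (dom (⋃₀ c)) := by
        intro y hy z hz'
        refine mem_insert_of_mem _ ?_
        rcases mem_insert_iff.1 hy with rfl | hy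
        · exact h1 hz'
        · obtain ⟨u, hu⟩ := mem_dom.1 hy
          obtain ⟨f, hf, hf'⟩ := mem_sUnion.1 hu
          exact hsub f hf (((mem_sep.1 hf).2.2 y (mem_dom.2 ⟨u, hf'⟩)).1 hz')
      refine ⟨graph (F W v) (insert x (dom (⋃₀ c))), h4 ▸ hz.insert (hz.opair hx h3)
        (h2 _ hd fun _ h => h), ⟨fn_graph _ _, fun y hy => ?_⟩, by simp⟩
      rw [dom_graph] at hy ⊢
      refine ⟨h5 y hy, ?_⟩
      rw [ap_graph hy, hF W hW v hv y (hz.mem hy (hz.insert hx hd)),
        graph_congr fun z hz' => ap_graph (h5 y hy hz')]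
  refine ⟨fun W hW v hv => ?_, Df.of_iff (Q := fun W (v : Option (Option Γ) → V) =>
    ∃ f ∈ W, Good W (fun i => v (some (some i))) f ∧ v (some none) ∈ dom f ∧
      v none = ap f (v (some none))) fun W hW v hv => ⟨fun e => ?_, ?_⟩⟩
  · obtain ⟨f, hf, hg, hx⟩ := hB W hW _ (fun i => hv (some i)) _ (hv none)
    rw [← hA W hW _ (fun i => hv (some i)) f hf hg _ hx]
    exact tm2 (t := fun _ f x => ap f x) hW hf (hv none)
  · obtain ⟨f, hf, hg, hx⟩ := hB W hW _ (fun i => hv (some (some i))) _ (hv (some none))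
    exact ⟨f, hf, hg, hx, e.trans (hA W hW _ (fun i => hv (some (some i))) f hf hg _ hx).symm⟩
  · rintro ⟨f, hf, hg, hx, e⟩
    exact e.trans (hA W hW _ (fun i => hv (some (some i))) f hf hg _ hx)

end Pool.Agent.Lib.MP_329f2d_lc
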