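import Pool.Agent.Lib.MP_329f2d_lc.H59Defs

/-! The unfolding equation of `Sat`, generated once for all later files. -/

namespace Pool.Agent.Lib.MP_329f2d_lc

theorem sat_unfold_once : True := (fun _ => trivial) @Sat.eq_def

end Pool.Agent.Lib.MP_329f2d_lc
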