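import Pool.Agent.Lib.MP_329f2d_lc.H85Card
import Pool.Agent.Lib.MP_329f2d_lc.SatEq

/-! Small embeddings from a supercompact cardinal. -/

namespace Pool.Agent.Lib.MP_329f2d_lc

open ZFSet Cardinal Filter

namespace H85

/-- A code for formulas. -/
def code : Fml → ℕ
  | .mem i j => Nat.pair 0 (Nat.pair i j)
  | .eq i j => Nat.pair 1 (Nat.pair i j)
  | .pred i => Nat.pair 2 i
  | .neg φ => Nat.pair 3 (code φ)
  | .and φ ψ => Nat.pair 4 (Nat.pair (code φ) (code ψ))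
  | .ex φ => Nat.pair 5 (code φ)

theorem code_inj : Function.Injective code := by
  intro φ
  induction φ <;> intro ψ h <;> cases ψ <;> simp_all [code, Nat.pair_eq_pair] <;> grind

theorem sat_congr (K A : Set V) (φ : Fml) :
    ∃ n, ∀ v w : ℕ → V, (∀ i < n, v i = w i) → (Sat K A φ v ↔ Sat K A φ w) := by
  induction φ with
  | mem i j => exact ⟨i + j + 1, fun v w h => by rw [Sat, Sat, h i (by omega), h j (by omega)]⟩
  | eq i j => exact ⟨i + j + 1, fun v w h => by rw [Sat, Sat, h i (by omega), h j (by omega)]⟩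
  | pred i => exact ⟨i + 1, fun v w h => by rw [Sat, Sat, h i (by omega)]⟩
  | neg φ ih => exact ih.imp fun n H v w h => not_congr (H v w h)
  | and φ ψ ih ih' =>
    obtain ⟨n, H⟩ := ih
    obtain ⟨m, H'⟩ := ih'
    exact ⟨n + m, fun v w h => and_congr (H v w fun i _ => h i (by omega))
      (H' v w fun i _ => h i (by omega))⟩
  | ex φ ih =>
    refine ih.imp fun n H v w h => exists_congr fun x => and_congr_right fun _ => H _ _ ?_
    rintro (_ | i) hi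
    exacts [rfl, h i (by omega)]

theorem sub_of_sk {K X : Set V} (h : X ⊆ K) (H : ∀ (φ : Fml) (l : List V), (∀ y ∈ l, y ∈ X) →
    (∃ y ∈ K, Sat K ∅ φ (cons y (l.getD · ∅))) → ∃ y ∈ X, Sat K ∅ φ (cons y (l.getD · ∅))) :
    Sub X K := by
  refine ⟨fun φ v w hv => ?_, fun x y hx => ⟨hx.1, hx.2 ▸ h hx.1⟩, fun x hx => ⟨x, hx, rfl⟩⟩
  obtain rfl : w = v := funext fun i => (hv i).2
  replace hv := fun i => (hv i).1
  induction φ generalizing w with
  | neg φ ih => exact not_congr (ih w hv)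
  | and φ ψ ih ih' => exact and_congr (ih w hv) (ih' w hv)
  | ex φ ih =>
    have h1 : ∀ x ∈ X, ∀ i, cons x w i ∈ X := by
      rintro x hx (_ | i)
      exacts [hx, hv i]
    obtain ⟨n, hn⟩ := sat_congr K ∅ φ
    have h2 : ∀ x, Sat K ∅ φ (cons x w) ↔ Sat K ∅ φ (cons x (((List.range n).map w).getD · ∅)) :=
      fun x => hn _ _ (by
        rintro (_ | i) hi
        · rfl
        · simp [cons, show i < n by omega])
    refine ⟨fun ⟨x, hx, h3⟩ => ⟨x, h hx, (ih _ (h1 x hx)).1 h3⟩, fun ⟨x, hx, h3⟩ => ?_⟩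
    obtain ⟨y, hy, h4⟩ := H φ ((List.range n).map w) (by simpa using fun i _ => hv i)
      ⟨x, hx, (h2 x).1 h3⟩
    exact ⟨y, hy, (ih _ (h1 y hy)).2 ((h2 y).2 h4)⟩
  | _ => rfl

theorem exists_col (X : Set V) : ∃ π, Col X π := by
  let π : V → V := mem_wf.fix fun x ih => range fun y : {y : x // y.1 ∈ X} => ih y.1.1 y.1.2
  refine ⟨π, fun x z => ?_⟩
  rw [show π x = range fun y : {y : x // y.1 ∈ X} => π y.1.1 from mem_wf.fix_eq _ x, mem_range]
  exact ⟨fun ⟨y, h⟩ => ⟨_, y.1.2, y.2, h.symm⟩, fun ⟨y, h1, h2, h⟩ => ⟨⟨⟨y, h1⟩, h2⟩, h.symm⟩⟩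

/-- A fine normal `k`-complete ultrafilter on the small subsets of `K`. -/
structure Nice (k : Cardinal.{0}) (K : Set V) (F : Ultrafilter (Set V)) : Prop where
  inf : ℵ₀ < k
  small : ∀ᶠ X : Set V in F, X ⊆ K ∧ ∃ x : V, X = x ∧ card x < k
  fine : ∀ y ∈ K, ∀ᶠ X : Set V in F, y ∈ X
  comp : ∀ {ι : Type}, #ι < k → ∀ P : ι → Set V → Prop, (∀ i, ∀ᶠ X : Set V in F, P i X) →
    ∀ᶠ X : Set V in F, ∀ i, P i X
  norm : ∀ f : Set V → V, (∀ᶠ X : Set V in F, f X ∈ X) → ∃ y ∈ K, ∀ᶠ X : Set V in F, f X = y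

theorem exists_nice {k : Cardinal.{0}} (hk : Supercompact k) (K : V) : ∃ F, Nice k K F := by
  obtain ⟨U, h1, h2, h3, h4⟩ := hk.2 (Shrink K)
  have e : ∀ {P : Set V → Prop}, (∀ᶠ X in (U.map fun X => el K '' X : Ultrafilter (Set V)), P X) ↔
      ∀ᶠ X : Set (Shrink K) in U, P (el K '' X) := Iff.rfl
  replace h1 : ∀ᶠ X : Set (Shrink K) in U, #X < k := h1
  refine ⟨U.map fun X => el K '' X, hk.1, e.2 (h1.mono fun X hX => ⟨?_,
    range fun i : X => el K i, by ext; simp, (card_le _ fun _ => mem_range.1).trans_lt hX⟩),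
    fun y hy => e.2 ?_, fun hι P H => e.2 ((eventually_cardinal_forall hι).2 fun i => e.1 (H i)),
    fun f hf => ?_⟩
  · rintro _ ⟨i, -, rfl⟩
    exact el_mem K i
  · obtain ⟨i, rfl⟩ := exists_el hy
    exact Filter.mem_of_superset (h3 i) fun X hX => ⟨i, hX, rfl⟩
  · obtain ⟨X₀, i₀, -⟩ := (e.1 hf).exists
    have : Nonempty (Shrink K) := ⟨i₀⟩
    obtain ⟨g, hg⟩ := (e.1 hf).choice
    obtain ⟨i, hi⟩ := h4 g (hg.mono fun X h => h.1)
    exact ⟨_, el_mem K i, e.2 ((hg.and hi).mono fun X h => h.1.2.symm.trans (congrArg _ h.2))⟩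

namespace Nice

variable {k : Cardinal.{0}} {K : Set V} {F : Ultrafilter (Set V)} (h : Nice k K F)
include h

theorem ball {a : V} (ha : card a < k) {P : V → Set V → Prop} (H : ∀ y ∈ a, ∀ᶠ X : Set V in F, P y X) :
    ∀ᶠ X : Set V in F, ∀ y ∈ a, P y X :=
  (h.comp ha _ fun i => H _ (el_mem a i)).mono fun _ hX _ hy => (exists_el hy).elim fun i e =>
    e ▸ hX i

theorem nat {P : ℕ → Set V → Prop} (H : ∀ n, ∀ᶠ X : Set V in F, P n X) : ∀ᶠ X : Set V in F, ∀ n, P n X :=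
  h.comp (mk_nat ▸ h.inf) _ H

theorem diag {P : V → Set V → Prop} (H : ∀ y ∈ K, ∀ᶠ X : Set V in F, P y X) :
    ∀ᶠ X : Set V in F, ∀ y ∈ X, P y X := by
  by_contra h0
  obtain ⟨f, hf⟩ := ((Ultrafilter.eventually_not.2 h0).mono fun X hX => by
    push Not at hX; exact hX).choice
  obtain ⟨y, h1, h2⟩ := h.norm f (hf.mono fun _ h => h.1)
  obtain ⟨X, ⟨x1, x2⟩, x3⟩ := ((hf.and h2).and (H y h1)).exists
  exact x1.2 (x2 ▸ x3)

theorem list {P : List V → Set V → Prop} (H : ∀ l, (∀ y ∈ l, y ∈ K) → ∀ᶠ X : Set V in F, P l X) :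
    ∀ᶠ X : Set V in F, ∀ l, (∀ y ∈ l, y ∈ X) → P l X := by
  refine (h.nat (P := fun n X => ∀ l, l.length = n → (∀ y ∈ l, y ∈ X) → P l X) fun n => ?_).mono
    fun X hX l => hX _ l rfl
  induction n generalizing P with
  | zero => exact (H [] (by simp)).mono fun X hX l hl _ => List.length_eq_zero_iff.1 hl ▸ hX
  | succ n ih =>
    filter_upwards [h.diag fun y hy => ih (P := fun l => P (y :: l)) fun l hl =>
      H _ (List.forall_mem_cons.2 ⟨hy, hl⟩)] with X hX l h1 h2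
    obtain _ | ⟨y, l⟩ := l
    · simp at h1
    exact hX y (List.forall_mem_cons.1 h2).1 l (by simpa using h1) (List.forall_mem_cons.1 h2).2

theorem wit {p : V → Prop} : ∀ᶠ X : Set V in F, (∃ y ∈ K, p y) → ∃ y ∈ X, p y := by
  by_cases H : ∃ y ∈ K, p y
  · obtain ⟨y, h1, h2⟩ := H
    exact (h.fine y h1).mono fun X hX _ => ⟨y, hX, h2⟩
  · exact .of_forall fun _ h => (H h).elim

theorem sk (Ψ : ℕ → List V → V → Prop) : ∀ᶠ X : Set V in F, Sk K X Ψ :=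
  h.nat fun _ => h.list fun _ _ => h.wit

theorem sub : ∀ᶠ X : Set V in F, Sub X K := by
  filter_upwards [h.small, h.sk fun n l y => ∃ φ, code φ = n ∧ Sat K ∅ φ (cons y (l.getD · ∅))]
    with X h1 h2
  refine sub_of_sk h1.1 fun φ l hl ⟨y, y1, y2⟩ => ?_
  obtain ⟨z, z1, ψ, z2, z3⟩ := h2 _ l hl ⟨y, y1, φ, rfl, y2⟩
  exact ⟨z, z1, code_inj z2 ▸ z3⟩

theorem subsets (hS : Sup K) : ∀ᶠ X : Set V in F, ∀ a ∈ X, ∀ b : Set V, (∀ z ∈ b, z ∈ a) →
    ∃ c ∈ X, ∀ z ∈ X, z ∈ c ↔ z ∈ b := by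
  refine h.diag fun a ha => by_contra fun h0 => ?_
  obtain ⟨b, hb⟩ := ((Ultrafilter.eventually_not.2 h0).mono fun X hX => not_forall.1 hX).choice
  obtain ⟨X, ⟨x1, x2⟩, x3⟩ := ((hb.and (h.fine _ (hS a ha (a.sep fun y => ∀ᶠ X : Set V in F, y ∈ b X)
    fun _ h => (mem_sep.1 h).1))).and (h.diag (P := fun y X => y ∈ b X ↔ ∀ᶠ X : Set V in F, y ∈ b X)
      fun y _ => by
        by_cases h : ∀ᶠ X : Set V in F, y ∈ b X
        · exact h.mono fun X hX => iff_of_true hX h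
        · exact (Ultrafilter.eventually_not.2 h).mono fun X hX => iff_of_false hX h)).exists
  exact x1 fun h1 => ⟨_, x2, fun z hz => mem_sep.trans
    ⟨fun h => (x3 z hz).2 h.2, fun h => ⟨h1 z h, (x3 z hz).1 h⟩⟩⟩

variable (hk : k.IsInaccessible) (hV : ∀ y : V, rank y < k.ord → y ∈ K)
include hk hV

theorem init : ∀ᶠ X : Set V in F, ∀ y ∈ X, rank y < k.ord → ∀ z : V, rank z ≤ rank y + 1 → z ∈ X := by
  refine h.diag fun y _ => eventually_imp_distrib_left.2 fun hy => ?_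
  have hl := isSuccLimit_ord hk.1.le
  have h1 := hl.add_one_lt (hl.add_one_lt hy)
  exact (h.ball (a := vonNeumann (rank y + 1 + 1)) (card_lt_of_rank hk (by simpa using h1))
    fun z hz => h.fine z (hV z ((mem_vonNeumann.1 hz).trans h1))).mono fun X hX z hz =>
      hX z (mem_vonNeumann.2 (Order.lt_add_one_iff.2 hz))

theorem bound : ∀ᶠ X : Set V in F, ∀ a ∈ X, rank a < k.ord → ∀ f : V → V,
    (∀ x ∈ a, f x ∈ X ∧ rank (f x) < k.ord) →
    ∃ b ∈ X, rank b < k.ord ∧ ∀ x ∈ a, rank (f x) < rank b := by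
  refine h.diag fun a _ => eventually_imp_distrib_left.2 fun ha => by_contra fun h0 => ?_
  obtain ⟨f, hf⟩ := ((Ultrafilter.eventually_not.2 h0).mono fun X hX => not_forall.1 hX).choice
  replace hf := hf.mono fun X hX => Classical.not_imp.1 hX
  choose! y y1 y2 using fun x (hx : x ∈ a) => h.norm (f · x) (hf.mono fun X hX => (hX.1 x hx).1)
  obtain ⟨β, b1, b2⟩ := exists_bound hk.isRegular (card_lt_of_rank hk ha) (f := fun x => rank (y x))
    fun x hx => (hf.and (y2 x hx)).exists.elim fun X hX => hX.2 ▸ (hX.1.1 x hx).2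
  obtain ⟨X, ⟨x1, x2⟩, x3⟩ := ((hf.and (h.ball (card_lt_of_rank hk ha) y2)).and
    (h.fine β.toZFSet (hV _ (by simpa using b1)))).exists
  exact x1.2 ⟨_, x3, by simpa using b1, fun x hx => by simpa [x2 x hx] using b2 x hx⟩

end Nice

end H85

open H85

theorem small_emb {k : Cardinal.{0}} (hk : Supercompact k) (K : V) (hK : ZFm K ∅) (hS : Sup K)
    (hV : vonNeumann k.ord ∈ K) (T : Set V) (hT : T.Countable) (hTK : T ⊆ K)
    (Ψ : ℕ → List V → V → Prop) :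
    ∃ (X : Set V) (π : V → V) (ζ : Ordinal.{0}), T ⊆ X ∧ X ⊆ K ∧ Sub X K ∧ Sk K X Ψ ∧ Col X π ∧
      ζ < k.ord ∧ Inacc ζ ∧ (∀ y : V, rank y < ζ ↔ y ∈ X ∧ rank y < k.ord) ∧ Sup (π '' X) ∧
      (∀ y ∈ X, rank (π y) < k.ord) ∧
      (∀ y ∈ X, ∀ y' ∈ X, rank (π y) < rank (π y') ↔ rank y < rank y') ∧
      ∀ y ∈ X, vonNeumann (rank y) ∈ X → ∀ z : V, rank z < rank (π y) → z ∈ π '' X := by
  obtain ⟨F, h⟩ := exists_nice hk K
  have hi := hk.isInaccessible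
  replace hV : ∀ y : V, rank y < k.ord → y ∈ (K : Set V) := fun y hy =>
    hK.trans _ hV y (mem_vonNeumann.2 hy)
  obtain ⟨t, ht⟩ := (hT.insert omega).exists_eq_range (Set.insert_nonempty _ _)
  have h1 := h.nat fun n => h.fine (t n) (Set.insert_subset hK.omega hTK (ht.ge ⟨n, rfl⟩))
  have h2 := h.diag fun y _ => h.diag fun y' (hy : y' ∈ (K : Set V)) =>
    (h.wit (p := fun z => z ∈ y' ∧ rank y ≤ rank z)).mono fun X hX (H : rank y < rank y') =>
      hX ((lt_rank_iff.1 H).imp fun z hz => ⟨hK.trans _ hy z hz.1, hz⟩)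
  obtain ⟨X, x1, x2, ⟨x3, x, rfl, x4⟩, x5, x6, x7, x8, x9, x0⟩ := (h1.and (h2.and (h.small.and
    (h.sub.and ((h.sk Ψ).and ((h.subsets hS).and ((h.init hi hV).and ((h.bound hi hV).and
    (h.fine (Ordinal.omega 1).toZFSet (hV _ (by simpa using hk.inacc.om))))))))))).exists
  obtain ⟨π, hπ⟩ := H85.exists_col (x : Set V)
  have hζ : ∀ y : V, rank y < rank (x.sep (rank · < k.ord)) ↔ y ∈ (x : Set V) ∧ rank y < k.ord :=
    fun y => ⟨fun H => (lt_rank_iff.1 H).elim fun z hz => ⟨x8 z (mem_sep.1 hz.1).1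
      (mem_sep.1 hz.1).2 y (hz.2.trans le_self_add), hz.2.trans_lt (mem_sep.1 hz.1).2⟩,
      fun H => rank_lt_of_mem (mem_sep.2 H)⟩
  have hζ' : rank (x.sep (rank · < k.ord)) < k.ord := rank_lt_ord hi.isRegular
    ((card_mono fun _ h => (mem_sep.1 h).1).trans_lt x4) fun _ h => (mem_sep.1 h).2
  generalize rank (x.sep (rank · < k.ord)) = ζ at hζ hζ'
  have ho : Ordinal.omega 1 < ζ := by simpa using (hζ _).2 ⟨x0, by simpa using hk.inacc.om⟩
  have hsup : Sup (π '' x) := by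
    rintro _ ⟨a, ha, rfl⟩ y hy
    obtain ⟨c, c1, c2⟩ := x7 a ha {z | z ∈ a ∧ π z ∈ y} fun z hz => hz.1
    refine ⟨c, c1, ZFSet.ext fun z => (hπ c z).trans ⟨?_, fun hz => ?_⟩⟩
    · rintro ⟨w, w1, w2, rfl⟩
      exact ((c2 w w2).1 w1).2
    · obtain ⟨w, w1, w2, rfl⟩ := (hπ a z).1 (hy hz)
      exact ⟨w, (c2 w w2).2 ⟨w1, hz⟩, w2, rfl⟩
  have hle : ∀ y : V, y ∈ (x : Set V) → ∀ y' ∈ (x : Set V), rank y ≤ rank y' →
      rank (π y) ≤ rank (π y') := fun y => inductionOn y fun y ih hy y' hy' H =>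
    rank_le_iff.2 fun z hz => by
      obtain ⟨w, w1, w2, rfl⟩ := (hπ y z).1 hz
      obtain ⟨u, u1, u2, u3⟩ := x2 w w2 y' hy' ((rank_lt_of_mem w1).trans_le H)
      exact (ih w w1 w2 u u1 u3).trans_lt (rank_lt_of_mem ((hπ y' _).2 ⟨u, u2, u1, rfl⟩))
  have hlt : ∀ y ∈ (x : Set V), ∀ y' ∈ (x : Set V), rank (π y) < rank (π y') ↔ rank y < rank y' :=
    fun y hy y' hy' => ⟨fun H => not_le.1 fun H' => (hle y' hy' y hy H').not_gt H, fun H => by
      obtain ⟨u, u1, u2, u3⟩ := x2 y hy y' hy' H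
      exact (hle y hy u u1 u3).trans_lt (rank_lt_of_mem ((hπ y' _).2 ⟨u, u2, u1, rfl⟩))⟩
  refine ⟨x, π, ζ, fun y hy => ?_, x3, x5, x6, hπ, hζ', ⟨ho, ⟨not_isMin_of_lt ho,
    Order.isSuccPrelimit_of_succ_lt fun β hβ => ?_⟩, fun a ha f hf => ?_⟩, hζ, hsup,
    fun y _ => inductionOn (p := fun y => rank (π y) < k.ord) y fun y ih => ?_, hlt,
    fun y hy hy' z => inductionOn z fun z ih hz => hsup _ ⟨_, hy', rfl⟩ z fun w hw => ?_⟩
  · obtain ⟨n, rfl⟩ := ht.le (Set.mem_insert_of_mem _ hy)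
    exact x1 n
  · have h3 := (hζ β.toZFSet).1 (by simpa using hβ)
    simpa using (hζ (β + 1).toZFSet).2 ⟨x8 _ h3.1 h3.2 _ (by simp), by
      simpa using (isSuccLimit_ord hi.1.le).add_one_lt (hβ.trans hζ')⟩
  · obtain ⟨b, b1, b2, b3⟩ := x9 a ((hζ a).1 ha).1 ((hζ a).1 ha).2 f fun y hy => (hζ _).1 (hf y hy)
    exact ⟨_, (hζ b).2 ⟨b1, b2⟩, b3⟩
  · refine rank_lt_ord hi.isRegular ((card_le (fun i => π (el x i)) fun z hz => ?_).trans_lt x4)
      fun z hz => ?_ <;> obtain ⟨w, w1, w2, rfl⟩ := (hπ y z).1 hz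
    · exact (exists_el w2).imp fun i => congrArg π
    · exact ih w w1
  · obtain ⟨u, u1, rfl⟩ := ih w hw ((rank_lt_of_mem hw).trans hz)
    exact (hπ _ _).2 ⟨u, mem_vonNeumann.2 ((hlt u u1 y hy).1 ((rank_lt_of_mem hw).trans hz)), u1, rfl⟩

end Pool.Agent.Lib.MP_329f2d_lc
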