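import Pool.Agent.Lib.MP_329f2d_lc.H55Loc
import Pool.Agent.Lib.MP_329f2d_lc.H58Rec
import Pool.Agent.Lib.MP_329f2d_lc.H85Emb

/-! Model theory of transitive classes: hulls, collapses, transfer of the axioms. -/

namespace Pool.Agent.Lib.MP_329f2d_lc

open ZFSet Cardinal

set_option synthInstance.maxSize 4000

namespace H55

theorem pe_iff {C : Set V → Prop} (P : Set V → (ℕ → V) → Prop) [hP : Df C P] {M K : Set V}
    {m : V → V → Prop} (h : PE M K m) (hM : C M) (hK : C K) (hd : ∀ x y, m x y → x ∈ M ∧ y ∈ K)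
    {v w : ℕ → V} (hvw : ∀ i, m (v i) (w i)) : P M v ↔ P K w := by
  obtain ⟨φ, hφ⟩ := hP.ex id
  exact (hφ M hM v fun i => (hd _ _ (hvw i)).1).trans
    ((h φ v w hvw).trans (hφ K hK w fun i => (hd _ _ (hvw i)).2).symm)

theorem cons_rel {m : V → V → Prop} {x y : V} {v w : ℕ → V} (h : m x y) (hvw : ∀ i, m (v i) (w i)) :
    ∀ i, m (cons x v i) (cons y w i)
  | 0 => h
  | i + 1 => hvw i

theorem exists_onto (a : V) : ∃ α, IsOrdinal α ∧ ∃ f, Onto f α a := by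
  obtain ⟨e⟩ : Nonempty (Shrink (card a).ord.toZFSet ≃ Shrink a) :=
    Cardinal.eq.1 ((Ordinal.card_toZFSet _).trans (card_ord _))
  refine ⟨_, isOrdinal_toZFSet (card a).ord, range fun i => pair (H85.el _ i) (H85.el a (e i)),
    ⟨fun z hz => ?_, fun z hz => ?_⟩, fun y hy => ?_⟩
  · obtain ⟨i, rfl⟩ := mem_range.1 hz
    exact pair_mem_prod.2 ⟨H85.el_mem _ _, H85.el_mem _ _⟩
  · obtain ⟨i, rfl⟩ := H85.exists_el hz
    refine ⟨_, mem_range_self i, fun y hy => ?_⟩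
    obtain ⟨j, hj⟩ := mem_range.1 hy
    rw [← (pair_inj.1 hj).2, H85.el_inj _ (pair_inj.1 hj).1]
  · obtain ⟨i, rfl⟩ := H85.exists_el hy
    exact ⟨_, H85.el_mem _ (e.symm i), mem_range.2 ⟨e.symm i, by rw [e.apply_symm_apply]⟩⟩

theorem exists_sk (K T : Set V) (hT : T ⊆ K) (hne : T.Nonempty) (c : Cardinal.{1}) (hc : ℵ₀ ≤ c)
    (hTc : #T ≤ c) (Ψ : ℕ → List V → V → Prop) :
    ∃ X : Set V, T ⊆ X ∧ X ⊆ K ∧ #X ≤ c ∧ Sk K X Ψ := by
  have : ∀ k l, ∃ y ∈ K, (∃ y ∈ K, Ψ k l y) → Ψ k l y := fun k l => by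
    by_cases h : ∃ y ∈ K, Ψ k l y
    · obtain ⟨y, h1, h2⟩ := h
      exact ⟨y, h1, fun _ => h2⟩
    · exact ⟨_, hT hne.some_mem, fun h' => (h h').elim⟩
  choose g g1 g2 using this
  let X : ℕ → Set V := fun n => Nat.rec T
    (fun _ Y => Y ∪ Set.range fun p : ℕ × List ↥Y => g p.1 (p.2.map Subtype.val)) n
  have hs : ∀ n, X (n + 1) = X n ∪ Set.range
    fun p : ℕ × List ↥(X n) => g p.1 (p.2.map Subtype.val) := fun _ => rfl
  have hm : Monotone X := monotone_nat_of_le_succ fun n => Set.subset_union_left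
  have hK : ∀ n, X n ⊆ K := fun n => by
    induction n with
    | zero => exact hT
    | succ n ih =>
      rintro y (hy | ⟨p, rfl⟩)
      exacts [ih hy, g1 _ _]
  have hX : ∀ n, #↥(X n) ≤ c := fun n => by
    induction n with
    | zero => exact hTc
    | succ n ih =>
      rw [hs]
      refine (mk_union_le _ _).trans (add_le_of_le hc ih (mk_range_le.trans ?_))
      rw [mk_prod, mk_nat, lift_aleph0, lift_uzero]
      exact mul_le_of_le hc hc ((mk_list_le_max _).trans (max_le hc ih))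
  refine ⟨⋃ n, X n, Set.subset_iUnion X 0, Set.iUnion_subset hK, ?_, fun k l hl H => ?_⟩
  · have := mk_iUnion_le_lift X
    rw [mk_nat, lift_aleph0, lift_uzero] at this
    exact this.trans (mul_le_of_le hc hc (ciSup_le' fun n => by rw [lift_uzero]; exact hX n))
  · have : ∃ n, ∀ y ∈ l, y ∈ X n := by
      clear H
      induction l with
      | nil => exact ⟨0, by simp⟩
      | cons a l ih =>
        obtain ⟨n, hn⟩ := ih fun y hy => hl y (List.mem_cons_of_mem _ hy)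
        obtain ⟨m, hm'⟩ := Set.mem_iUnion.1 (hl a List.mem_cons_self)
        exact ⟨max n m, List.forall_mem_cons.2 ⟨hm (le_max_right n m) hm',
          fun y hy => hm (le_max_left n m) (hn y hy)⟩⟩
    obtain ⟨n, hn⟩ := this
    refine ⟨g k l, Set.mem_iUnion.2 ⟨n + 1, Or.inr ⟨(k, l.attachWith _ hn), ?_⟩⟩, g2 k l H⟩
    simp

theorem eq_omega {o : V} (h0 : ∅ ∈ o) (h1 : ∀ n ∈ o, insert n n ∈ o)
    (h2 : ∀ n ∈ o, n = ∅ ∨ ∃ k ∈ o, n = insert k k) : o = omega := by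
  ext x
  constructor
  · induction x using ZFSet.inductionOn with
    | _ x ih =>
      intro hx
      rcases h2 x hx with rfl | ⟨k, hk, rfl⟩
      exacts [omega_zero, omega_succ (ih k (mem_insert _ _) hk)]
  · intro hx
    obtain ⟨n, rfl⟩ := H85.mem_omega.1 hx
    clear hx
    induction n with
    | zero => exact h0
    | succ n ih => exact h1 _ ih

theorem omega_cases {n : V} (h : n ∈ omega) : n = ∅ ∨ ∃ k ∈ omega, n = insert k k := by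
  obtain ⟨n, rfl⟩ := H85.mem_omega.1 h
  cases n with
  | zero => exact .inl rfl
  | succ n => exact .inr ⟨_, H85.mem_omega.2 ⟨n, rfl⟩, rfl⟩

theorem sat_nopred (φ : Fml) : ∃ ψ, ∀ (K A : Set V) (v : ℕ → V), Sat K ∅ φ v ↔ Sat K A ψ v := by
  induction φ with
  | mem i j => exact ⟨.mem i j, fun _ _ _ => Iff.rfl⟩
  | eq i j => exact ⟨.eq i j, fun _ _ _ => Iff.rfl⟩
  | pred i => exact ⟨.neg (.eq i i), fun _ _ _ => by simp [Sat]⟩
  | neg φ ih => exact ih.elim fun ψ h => ⟨.neg ψ, fun K A v => not_congr (h K A v)⟩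
  | and φ φ' ih ih' =>
    exact ih.elim fun ψ h => ih'.elim fun ψ' h' =>
      ⟨.and ψ ψ', fun K A v => and_congr (h K A v) (h' K A v)⟩
  | ex φ ih =>
    exact ih.elim fun ψ h => ⟨.ex ψ, fun K A v => exists_congr fun x =>
      and_congr_right fun _ => h K A _⟩

theorem sat_pred (φ : Fml) : ∀ (e : ℕ → ℕ) (k : ℕ), ∃ ψ, ∀ (K : Set V) (u : ℕ → V),
    Sat K (u k) φ (fun i => u (e i)) ↔ Sat K ∅ ψ u := by
  induction φ with
  | mem i j => exact fun e _ => ⟨.mem (e i) (e j), fun _ _ => Iff.rfl⟩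
  | eq i j => exact fun e _ => ⟨.eq (e i) (e j), fun _ _ => Iff.rfl⟩
  | pred i => exact fun e k => ⟨.mem (e i) k, fun _ _ => Iff.rfl⟩
  | neg φ ih => exact fun e k => (ih e k).elim fun ψ h => ⟨.neg ψ, fun K u => not_congr (h K u)⟩
  | and φ φ' ih ih' =>
    exact fun e k => (ih e k).elim fun ψ h => (ih' e k).elim fun ψ' h' =>
      ⟨.and ψ ψ', fun K u => and_congr (h K u) (h' K u)⟩
  | ex φ ih =>
    intro e k
    obtain ⟨ψ, h⟩ := ih (fun i => Nat.casesOn i 0 fun j => e j + 1) (k + 1)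
    refine ⟨.ex ψ, fun K u => exists_congr fun x => and_congr_right fun _ => ?_⟩
    rw [← h K (cons x u)]
    refine iff_of_eq (congrArg _ (funext ?_))
    rintro (_ | i) <;> rfl

end H55

open H55

theorem zfc_univ : ZFC Set.univ := by
  refine ⟨⟨⟨fun _ _ _ _ => trivial, trivial, fun _ _ _ _ => trivial, fun _ _ => trivial,
    fun φ v _ a _ => ⟨a.sep _, trivial, fun _ => mem_sep⟩, fun φ v _ a _ H => ?_⟩, fun a _ => ?_⟩,
    fun a _ => ⟨powerset a, trivial, fun z _ hz => mem_powerset.2 hz⟩⟩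
  · choose y _ y2 using fun i : a => H i.1 i.2
    exact ⟨range y, trivial, fun x hx => ⟨_, mem_range_self ⟨x, hx⟩, y2 ⟨x, hx⟩⟩⟩
  · obtain ⟨α, h, f, hf⟩ := exists_onto a
    exact ⟨α, trivial, h, f, trivial, hf⟩

theorem exists_hull (K T : Set V) (hT : T ⊆ K) (hne : T.Nonempty) (c : Cardinal.{1}) (hc : ℵ₀ ≤ c)
    (hTc : #T ≤ c) (Ψ : ℕ → List V → V → Prop) :
    ∃ X : Set V, T ⊆ X ∧ X ⊆ K ∧ #X ≤ c ∧ Sub X K ∧ Sk K X Ψ := by
  obtain ⟨X, h1, h2, h3, h4⟩ := exists_sk K T hT hne c hc hTc fun n l y =>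
    (∃ k, n = 2 * k ∧ Ψ k l y) ∨ ∃ φ, n = 2 * H85.code φ + 1 ∧ Sat K ∅ φ (cons y (l.getD · ∅))
  refine ⟨X, h1, h2, h3, H85.sub_of_sk h2 fun φ l hl ⟨y, y1, y2⟩ => ?_, fun k l hl ⟨y, y1, y2⟩ => ?_⟩
  · obtain ⟨z, z1, ⟨k, z2, -⟩ | ⟨ψ, z2, z3⟩⟩ := h4 _ l hl ⟨y, y1, .inr ⟨φ, rfl, y2⟩⟩
    · omega
    · exact ⟨z, z1, H85.code_inj (show H85.code ψ = H85.code φ by omega) ▸ z3⟩
  · obtain ⟨z, z1, ⟨j, z2, z3⟩ | ⟨ψ, z2, -⟩⟩ := h4 _ l hl ⟨y, y1, .inl ⟨k, rfl, y2⟩⟩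
    · exact ⟨z, z1, (show j = k by omega) ▸ z3⟩
    · omega

theorem exists_col (X : Set V) : ∃ π, Col X π := H85.exists_col X

/-- The collapse of a small elementary substructure of a transitive class. -/
theorem col_emb {K X : Set V} {π : V → V} (hK : ∀ x ∈ K, ∀ y ∈ x, y ∈ K) (hX : Sub X K)
    (hπ : Col X π) : (∀ x ∈ π '' X, ∀ y ∈ x, y ∈ π '' X) ∧ Set.InjOn π X ∧
      Emb (π '' X) K fun a y => y ∈ X ∧ a = π y := by
  have hXK : ∀ x ∈ X, x ∈ K := fun x hx => (hX.dom x x ⟨hx, rfl⟩).2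
  have hsub : ∀ x ∈ X, ∀ y ∈ X, (∀ z ∈ X, z ∈ x → z ∈ y) → x ⊆ y := by
    intro x hx y hy H z hz
    by_contra hz'
    obtain ⟨u, u1, u2, u3⟩ := (hX.pe (.ex (.and (.mem 0 1) (.neg (.mem 0 2))))
      (cons x fun _ => y) (cons x fun _ => y) (by rintro (_ | i); exacts [⟨hx, rfl⟩, ⟨hy, rfl⟩])).2
      ⟨z, hK x (hXK x hx) z hz, hz, hz'⟩
    exact u3 (H u u1 u2)
  have hinj : ∀ x, x ∈ X → ∀ y ∈ X, π x = π y → x = y := by
    intro x
    induction x using ZFSet.inductionOn with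
    | _ x ih =>
      intro hx y hy e
      refine subset_antisymm (hsub x hx y hy fun z hz h1 => ?_) (hsub y hy x hx fun z hz h1 => ?_)
      · obtain ⟨w, w1, w2, w3⟩ := (hπ y _).1 (e ▸ (hπ x _).2 ⟨z, h1, hz, rfl⟩)
        rwa [ih z h1 hz w w2 w3]
      · obtain ⟨w, w1, w2, w3⟩ := (hπ x _).1 (e ▸ (hπ y _).2 ⟨z, h1, hz, rfl⟩)
        rwa [← ih w w1 w2 z hz w3.symm]
  have hiso : ∀ (φ : Fml) (w : ℕ → V), (∀ i, w i ∈ X) →
      (Sat (π '' X) ∅ φ (fun i => π (w i)) ↔ Sat X ∅ φ w) := by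
    intro φ
    induction φ with
    | mem i j =>
      refine fun w hw => (hπ _ _).trans ⟨fun ⟨y, y1, y2, y3⟩ => ?_, fun h => ⟨_, h, hw i, rfl⟩⟩
      exact show w i ∈ w j from hinj _ (hw i) y y2 y3 ▸ y1
    | eq i j => exact fun w hw => ⟨hinj _ (hw i) _ (hw j), congrArg π⟩
    | pred i => exact fun _ _ => Iff.rfl
    | neg φ ih => exact fun w hw => not_congr (ih w hw)
    | and φ ψ ih ih' => exact fun w hw => and_congr (ih w hw) (ih' w hw)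
    | ex φ ih =>
      intro w hw
      have e : ∀ x, (cons (π x) fun i => π (w i)) = fun i => π (cons x w i) := fun x =>
        funext (by rintro (_ | i) <;> rfl)
      constructor
      · rintro ⟨_, ⟨x, hx, rfl⟩, h⟩
        exact ⟨x, hx, (ih _ (cons_mem hx hw)).1 (e x ▸ h)⟩
      · rintro ⟨x, hx, h⟩
        exact ⟨_, ⟨x, hx, rfl⟩, e x ▸ (ih _ (cons_mem hx hw)).2 h⟩
  refine ⟨?_, fun x hx y hy => hinj x hx y hy, fun φ v w hvw => ?_, ?_, ?_⟩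
  · rintro _ ⟨x, -, rfl⟩ y hy
    obtain ⟨z, -, z2, rfl⟩ := (hπ x y).1 hy
    exact ⟨z, z2, rfl⟩
  · obtain rfl : v = fun i => π (w i) := funext fun i => (hvw i).2
    exact (hiso φ w fun i => (hvw i).1).trans (hX.pe φ w w fun i => ⟨(hvw i).1, rfl⟩)
  · rintro _ y ⟨hy, rfl⟩
    exact ⟨⟨y, hy, rfl⟩, hXK y hy⟩
  · rintro _ ⟨y, hy, rfl⟩
    exact ⟨y, hy, rfl⟩

theorem col_fix {X T : Set V} {π : V → V} (hπ : Col X π) (hT : ∀ x ∈ T, ∀ y ∈ x, y ∈ T)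
    (h : T ⊆ X) : ∀ x : V, (∀ y ∈ x, y ∈ T) → π x = x := by
  intro x
  induction x using ZFSet.inductionOn with
  | _ x ih =>
    intro hx
    ext z
    refine (hπ x z).trans ⟨?_, fun hz => ⟨z, hz, h (hx z hz), (ih z hz (hT z (hx z hz))).symm⟩⟩
    rintro ⟨y, hy, -, rfl⟩
    rwa [ih y hy (hT y (hx y hy))]

theorem Emb.env {M K : Set V} {m : V → V → Prop} (h : Emb M K m) {v : ℕ → V} (hv : ∀ i, v i ∈ M) :
    ∃ w : ℕ → V, (∀ i, m (v i) (w i)) ∧ ∀ i, w i ∈ K := by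
  choose w hw using fun i => h.total _ (hv i)
  exact ⟨w, hw, fun i => (h.dom _ _ (hw i)).2⟩

theorem Emb.zfm {M K : Set V} {m : V → V → Prop} (h : Emb M K m) (hM : ∀ x ∈ M, ∀ y ∈ x, y ∈ M)
    (hne : M.Nonempty) (hK : ZFm K ∅) : ZFm M ∅ := by
  have hM' : Trs M := hM
  have hK' : Trs K := hK.trans
  have ext : ∀ a ∈ M, ∀ b : V, (∀ z ∈ b, z ∈ M) → (∀ z ∈ M, z ∈ a ↔ z ∈ b) → a = b :=
    fun a ha b hb H => ZFSet.ext fun z =>
      ⟨fun hz => (H z (hM a ha z hz)).1 hz, fun hz => (H z (hb z hz)).2 hz⟩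
  refine ⟨hM, ?_, fun x hx y hy => ?_, fun x hx => ?_, fun φ v hv a ha => ?_,
    fun φ v hv a ha H => ?_⟩
  · obtain ⟨w, hw, -⟩ := h.env (v := fun _ => hne.some) fun _ => hne.some_mem
    obtain ⟨o, ho, ⟨e, e1, e2⟩, o1, o2⟩ := (pe_iff (C := Trs) (fun W _ => ∃ o ∈ W,
      (∃ e ∈ o, ∀ z ∈ e, False) ∧ (∀ n ∈ o, ∃ s ∈ o, ∀ z ∈ W, z ∈ s ↔ z = n ∨ z ∈ n) ∧
      ∀ n ∈ o, (∀ z ∈ n, False) ∨ ∃ k ∈ o, ∀ z ∈ W, z ∈ n ↔ z = k ∨ z ∈ k) h.pe hM' hK' h.dom hw).2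
      ⟨omega, hK.omega, ⟨∅, omega_zero, fun z hz => notMem_empty z hz⟩,
        fun n hn => ⟨_, omega_succ hn, fun z _ => mem_insert_iff⟩, fun n hn =>
        (omega_cases hn).imp (fun (e : n = ∅) z hz => notMem_empty z (e ▸ hz))
          fun ⟨k, hk, e⟩ => ⟨k, hk, fun z _ => e ▸ mem_insert_iff⟩⟩
    have hi : ∀ n ∈ o, ∀ s ∈ o, (∀ z ∈ M, z ∈ s ↔ z = n ∨ z ∈ n) → s = insert n n :=
      fun n hn s hs H => ext s (hM o ho s hs) _ (fun z hz => (mem_insert_iff.1 hz).elim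
        (fun e => e ▸ hM o ho n hn) (hM n (hM o ho n hn) z))
        fun z hz => (H z hz).trans mem_insert_iff.symm
    rw [← eq_omega (o := o) ((eq_empty e).2 e2 ▸ e1)
      (fun n hn => (o1 n hn).elim fun s hs => hi n hn s hs.1 hs.2 ▸ hs.1)
      fun n hn => (o2 n hn).imp (eq_empty n).2 fun ⟨k, k1, k2⟩ => ⟨k, k1, hi k k1 n hn k2⟩]
    exact ho
  · obtain ⟨w, hw, hw'⟩ := h.env (cons_mem hx fun _ => hy)
    obtain ⟨p, hp, H⟩ := (pe_iff (C := Trs) (fun W v => ∃ p ∈ W, ∀ z ∈ W, z ∈ p ↔ z = v 0 ∨ z = v 1)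
      h.pe hM' hK' h.dom hw).2 ⟨_, hK.pair _ (hw' 0) _ (hw' 1), fun z _ => mem_pair⟩
    rw [← ext p hp {x, y} (fun z hz => (mem_pair.1 hz).elim (· ▸ hx) (· ▸ hy))
      fun z hz => (H z hz).trans mem_pair.symm]
    exact hp
  · obtain ⟨w, hw, hw'⟩ := h.env (v := fun _ => x) fun _ => hx
    obtain ⟨p, hp, H⟩ := (pe_iff (C := Trs) (fun W v => ∃ p ∈ W, ∀ z ∈ W, z ∈ p ↔ ∃ y ∈ v 0, z ∈ y)
      h.pe hM' hK' h.dom hw).2 ⟨_, hK.union _ (hw' 0), fun z _ => mem_sUnion⟩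
    rw [← ext p hp (⋃₀ x) (fun z hz => (mem_sUnion.1 hz).elim fun y hy =>
      hM y (hM x hx y hy.1) z hy.2) fun z hz => (H z hz).trans mem_sUnion.symm]
    exact hp
  · obtain ⟨w, hw, hw'⟩ := h.env (cons_mem ha hv)
    obtain ⟨b, hb, H⟩ := hK.sep φ (fun i => w i.succ) (fun i => hw' _) _ (hw' 0)
    obtain ⟨p, hp, H⟩ := (pe_iff (C := Trs) (fun W v => ∃ p ∈ W, ∀ z ∈ W, z ∈ p ↔ z ∈ v 0 ∧
      Sat W ∅ φ (cons z fun i => v i.succ)) h.pe hM' hK' h.dom hw).2 ⟨b, hb, fun z _ => H z⟩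
    exact ⟨p, hp, fun x => ⟨fun hx => (H x (hM p hp x hx)).1 hx,
      fun hx => (H x (hM a ha x hx.1)).2 hx⟩⟩
  · obtain ⟨w, hw, hw'⟩ := h.env (cons_mem ha hv)
    exact (pe_iff (C := Trs) (fun W v => (∀ x ∈ v 0, ∃ y ∈ W,
      Sat W ∅ φ (cons y (cons x fun i => v i.succ))) → ∃ b ∈ W, ∀ x ∈ v 0, ∃ y ∈ b,
      Sat W ∅ φ (cons y (cons x fun i => v i.succ))) h.pe hM' hK' h.dom hw).2
      (hK.coll φ (fun i => w i.succ) (fun i => hw' _) _ (hw' 0)) H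

theorem Emb.zfcm {M K : Set V} {m : V → V → Prop} (h : Emb M K m) (hM : ∀ x ∈ M, ∀ y ∈ x, y ∈ M)
    (hne : M.Nonempty) (hK : ZFCm K ∅) : ZFCm M ∅ := by
  refine ⟨h.zfm hM hne hK.1, fun a ha => ?_⟩
  obtain ⟨w, hw, hw'⟩ := h.env (v := fun _ => a) fun _ => ha
  exact (pe_iff (C := ZF) (fun W v => ∃ α ∈ W, IsOrdinal α ∧ ∃ f ∈ W, Onto f α (v 0)) h.pe
    (h.zfm hM hne hK.1) hK.1 h.dom hw).2 (hK.2 _ (hw' 0))

theorem Emb.zfc {M K : Set V} {m : V → V → Prop} (h : Emb M K m) (hM : ∀ x ∈ M, ∀ y ∈ x, y ∈ M)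
    (hne : M.Nonempty) (hK : ZFC K) : ZFC M := by
  refine ⟨h.zfcm hM hne hK.1, fun a ha => ?_⟩
  obtain ⟨w, hw, hw'⟩ := h.env (v := fun _ => a) fun _ => ha
  exact (pe_iff (C := Trs) (fun W v => ∃ p ∈ W, ∀ z ∈ W, z ⊆ v 0 → z ∈ p) h.pe
    hM hK.1.1.trans h.dom hw).2 (hK.2 _ (hw' 0))

/-- An elementary map restricts to an elementary map between a set and its image. -/
theorem PE.restrict {M K : Set V} {m : V → V → Prop} (h : PE M K m) (hM : ZFm M ∅) (hK : ZFm K ∅)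
    (hd : ∀ x y, m x y → x ∈ M ∧ y ∈ K) {a b : V} (hab : m a b) :
    PE a b fun x y => m x y ∧ x ∈ a := fun φ _ _ hvw =>
  pe_iff (C := Trs) (fun _ v => Sat (v 0) ∅ φ fun i => v i.succ) h hM.trans hK.trans hd
    (cons_rel hab fun i => (hvw i).1)

theorem zfcm_pred {N : Set V} {A : V} (h : ZFCm N ∅) (hA : A ∈ N) : ZFCm N A := by
  refine ⟨⟨h.1.trans, h.1.omega, h.1.pair, h.1.union, fun φ v hv a ha => ?_,
    fun φ v hv a ha H => ?_⟩, h.2⟩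
  · exact ⟨_, (Df.cls (K := ZF) (fun W (u : ℕ → V) x => Sat W (u 0) φ (cons x fun i => u i.succ))
      h.1 h.1.empty (cons_mem hA hv)).sep h.1 ha, fun _ => mem_sep⟩
  · exact Df.coll (K := ZF) (fun W (u : ℕ → V) x y =>
      Sat W (u 0) φ (cons y (cons x fun i => u i.succ))) h.1 (cons_mem hA hv) ha H

theorem Elem.emb {σ M B N A : V} (h : Elem σ M B N A) : Emb M N fun x y => pair x y ∈ σ := by
  refine ⟨fun φ v w hvw => ?_, fun x y hxy => pair_mem_prod.1 (h.1.1 hxy),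
    fun x hx => (h.1.2 x hx).exists⟩
  obtain ⟨ψ, hψ⟩ := sat_nopred φ
  rw [hψ M B, hψ N A]
  exact h.2 ψ v w hvw

theorem elem_of_emb {σ M B N A : V} (h : Emb M N fun x y => pair x y ∈ σ)
    (hσ : ∀ z ∈ σ, ∃ x y, z = pair x y) (hB : pair B A ∈ σ) : Elem σ M B N A := by
  refine ⟨⟨fun z hz => ?_, fun x hx => ?_⟩, fun φ v w hvw => ?_⟩
  · obtain ⟨x, y, rfl⟩ := hσ z hz
    exact pair_mem_prod.2 (h.dom x y hz)
  · obtain ⟨y, hy⟩ := h.total x hx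
    exact ⟨y, hy, fun y' hy' => h.pe.loc_unique hy' hy⟩
  · obtain ⟨ψ, hψ⟩ := sat_pred φ (· + 1) 0
    exact (hψ M (cons B v)).trans ((h.pe ψ _ _
      (cons_rel (m := fun x y => pair x y ∈ σ) hB hvw)).trans (hψ N (cons A w)).symm)

end Pool.Agent.Lib.MP_329f2d_lc
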