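import Pool.Agent.Lib.MP_329f2d_lc.H59Defs

/-! Internal notions shared by the modules of the proof (not part of the statement). -/

namespace Pool.Agent.Lib.MP_329f2d_lc

open ZFSet

/-- The relation `m` is a (not necessarily total) elementary map from `(M, ∈)` to `(N, ∈)`. -/
def PE (M N : Set V) (m : V → V → Prop) : Prop :=
  ∀ (φ : Fml) (v w : ℕ → V), (∀ i, m (v i) (w i)) → (Sat M ∅ φ v ↔ Sat N ∅ φ w)

/-- `m` is a total elementary map from `M` into `N`. -/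
structure Emb (M N : Set V) (m : V → V → Prop) : Prop where
  pe : PE M N m
  dom : ∀ x y, m x y → x ∈ M ∧ y ∈ N
  total : ∀ x ∈ M, ∃ y, m x y

/-- `X` is an elementary substructure of `K`. -/
def Sub (X K : Set V) : Prop := Emb X K fun x y => x ∈ X ∧ y = x

/-- A ternary relation coded by a set. -/
def In3 (R r x y : V) : Prop := pair r (pair x y) ∈ R

/-- The generic extension of a set model, as a set. -/
noncomputable def ExtV (M G : V) : V := range fun τ : M => val G τ.1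

/-- The rank as a set. -/
noncomputable def rk (x : V) : V := (rank x).toZFSet

/-- `N` is a model of ZFC without Power Set and of `V = L[A]`. -/
def LA (N : Set V) (A : V) : Prop :=
  ZFCm N ∅ ∧ A ∈ N ∧ ∀ x ∈ N, ∃ α ∈ N, IsOrdinal α ∧ x ∈ Lh ∅ A α

/-- `N` is regular in `K`. -/
def Reg (K : Set V) (N : V) : Prop :=
  ∀ x ∈ N, ∀ f ∈ K, IsFunc x N f → ∃ r ∈ N, Onto f x r

/-- `K` is closed under subsets. -/
def Sup (K : Set V) : Prop := ∀ x ∈ K, ∀ y : V, y ⊆ x → y ∈ K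

/-- Below the condition `c` of `P`, the relation `R` (read `R r x y` as: `r` decides the value at
`x` to be `y`) is a name for an elementary embedding of `M` into `N` that maps `H` into the generic
filter. -/
structure Nm (P c : V) (R : V → V → V → Prop) (M N H : Set V) : Prop where
  mono : ∀ r r' x y, R r x y → pair r' r ∈ P → R r' x y
  dom : ∀ r x y, R r x y → pair r r ∈ P ∧ x ∈ M ∧ y ∈ N
  total : ∀ r, pair r c ∈ P → ∀ x ∈ M, ∃ r' y, pair r' r ∈ P ∧ R r' x y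
  pe : ∀ r, pair r c ∈ P → PE M N (R r)
  gen : ∀ r, pair r c ∈ P → ∀ x ∈ H, ∀ y, R r x y →
    ∀ r₁, pair r₁ r ∈ P → ∃ r₂, pair r₂ r₁ ∈ P ∧ pair r₂ y ∈ P

/-- `E` is a second step over (an open part of) `P`: its conditions are pairs `(p, s)`. -/
structure ExtOf (P E : V) : Prop where
  po : Po E
  fst : ∀ e, pair e e ∈ E → ∃ p s, e = pair p s ∧ pair p p ∈ P
  le : ∀ p s p' s', pair (pair p s) (pair p' s') ∈ E → pair p p' ∈ P
  res : ∀ p s r, pair (pair p s) (pair p s) ∈ E → pair r p ∈ P → pair (pair r s) (pair p s) ∈ E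

/-- `H` is the filter on `P` induced by the filter `H'` on a second step. -/
def Proj (P H' H : V) : Prop := ∀ p, p ∈ H ↔ ∃ p' s, pair p' s ∈ H' ∧ pair p' p ∈ P

/-- The second step `E` is subcomplete relative to `P` (without the hull clause), for models `N`
of rank below `ρ` that include `h` and for embeddings with `u` in their range. -/
def RelSub (K : Set V) (w P E h u ρ : V) : Prop :=
  ∀ N ∈ K, rk N ∈ ρ → h ⊆ N → ∀ A, LA N A →
  ∀ M ∈ K, Ctbl K M → ZFCm M ∅ → ∀ P' ∈ M, ∀ E' ∈ M, ∀ H' ∈ K, ∀ H ∈ K,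
    Generic M E' H' → Proj P' H' H → Full w (ExtV M H) →
  ∀ c, (∃ s₀, pair (pair c s₀) (pair c s₀) ∈ E) → ∀ R ∈ K,
    (∀ z ∈ R, ∃ r x y, z = pair r (pair x y)) → Nm P c (In3 R) M N H →
  ∀ u' A' s' s, In3 R c P' P → In3 R c E' E → In3 R c u' u → In3 R c A' A → In3 R c s' s →
  ∃ p t, pair (pair p t) (pair p t) ∈ E ∧ pair p c ∈ P ∧ ∃ R' ∈ K,
    (∀ z ∈ R', ∃ r x y, z = pair r (pair x y)) ∧ Nm E (pair p t) (In3 R') M N H' ∧
    In3 R' (pair p t) s' s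

/-- Below `p₀`, the set `H` is a `P`-name for a filter on the quotient `E / G` that meets the dense
sets `D i`, `i ∈ w`. -/
structure FiltNm (w P E D H p₀ : V) : Prop where
  dom : ∀ z ∈ H, ∃ r p s, z = pair r (pair p s) ∧ pair (pair p s) (pair p s) ∈ E ∧ pair r p ∈ P
  mono : ∀ r r' e, pair r e ∈ H → pair r' r ∈ P → pair r' e ∈ H
  dir : ∀ r e e', pair r e ∈ H → pair r e' ∈ H →
    ∃ r' e'', pair r' r ∈ P ∧ pair r' e'' ∈ H ∧ pair e'' e ∈ E ∧ pair e'' e' ∈ E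
  meets : ∀ i ∈ w, ∀ r, pair r p₀ ∈ P →
    ∃ r' d e, pair r' r ∈ P ∧ pair i d ∈ D ∧ e ∈ d ∧ pair r' e ∈ H

/-- `x` is a counterexample to the forcing axiom over `P`, in the sense of `K`. -/
def Cx (K : Set V) (w P x : V) : Prop :=
  ∃ E D h u ρ, x = pair E (pair D (pair h (pair u ρ))) ∧ ExtOf P E ∧
    (∀ i ∈ w, ∃ d, pair i d ∈ D) ∧ (∀ i d, pair i d ∈ D → Dense E d) ∧
    IsTransitive h ∧ omega ∈ h ∧ P ∈ h ∧ E ∈ h ∧ u ∈ h ∧
    IsOrdinal ρ ∧ ρ ≠ ∅ ∧ (¬ ∃ f ∈ K, Onto f h ρ) ∧ RelSub K w P E h u ρ ∧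
    ¬ ∃ H ∈ K, ∃ p₀ s₀, pair (pair p₀ s₀) (pair p₀ s₀) ∈ E ∧ FiltNm w P E D H p₀

/-- `F` is a `P`-name for a partly defined function from `a` to `b`. -/
structure FunNm (P F a b : V) : Prop where
  dom : ∀ z ∈ F, ∃ r, ∃ x ∈ a, ∃ y ∈ b, z = pair r (pair x y) ∧ pair r r ∈ P
  mono : ∀ r r' x y, In3 F r x y → pair r' r ∈ P → In3 F r' x y
  uniq : ∀ r x y y', In3 F r x y → In3 F r x y' → y = y'

/-- What the final forcing `P` satisfies in the ground model `K`.  `In3 Lv r α t`: `r` forces that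
the `α`-th level of the tree is `t`.  `In3 Nd r a (α, x)`: `r` forces that the `a`-th branch
meets `α` in `x`. -/
structure Pkg (K : Set V) (w P I Lv Nd : V) : Prop where
  po : Po P
  om : Om1 K w
  pres : ∀ F ∈ K, FunNm P F omega w → ∀ c, pair c c ∈ P →
    ∃ c', pair c' c ∈ P ∧ ∃ δ ∈ w, ∀ r n ξ, pair r c' ∈ P → In3 F r n ξ → ξ ∈ δ
  bdd : ∀ F ∈ K, FunNm P F w I → ∃ a ∈ I, ∀ r ξ, ¬ In3 F r ξ a
  nocx : ∀ x ∈ K, ¬ Cx K w P x
  lv_dom : ∀ r α t, In3 Lv r α t →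
    pair r r ∈ P ∧ α ∈ w ∧ t ≠ ∅ ∧ Ctbl K t ∧ ∀ x ∈ t, x ⊆ α
  lv_mono : ∀ r r' α t, In3 Lv r α t → pair r' r ∈ P → In3 Lv r' α t
  lv_coh : ∀ r α t α' t', In3 Lv r α t → In3 Lv r α' t' → α ⊆ α' →
    ∀ s, s ∈ t ↔ ∃ x ∈ t', s = x ∩ α
  nd_dom : ∀ r a z, In3 Nd r a z → pair r r ∈ P ∧ ∃ α ∈ w, ∃ x, x ⊆ α ∧ z = pair α x
  nd_mono : ∀ r r' a z, In3 Nd r a z → pair r' r ∈ P → In3 Nd r' a z
  nd_coh : ∀ r a α x α' x', In3 Nd r a (pair α x) → In3 Nd r a (pair α' x') → α ⊆ α' →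
    x = x' ∩ α
  nd_total : ∀ a ∈ I, ∀ α ∈ w, ∀ r, pair r r ∈ P →
    ∃ r' x t, pair r' r ∈ P ∧ In3 Nd r' a (pair α x) ∧ In3 Lv r' α t ∧ x ∈ t
  nd_ne : ∀ a ∈ I, ∀ a' ∈ I, a ≠ a' → ∀ r, pair r r ∈ P →
    ∃ r' α x x', pair r' r ∈ P ∧ In3 Nd r' a (pair α x) ∧ In3 Nd r' a' (pair α x') ∧ x ≠ x'

/-- The real `ω₁`. -/
noncomputable def w1 : V := (Ordinal.omega 1).toZFSet

/-- `X` contains witnesses from `K` for the predicates `Ψ k`. -/
def Sk (K X : Set V) (Ψ : ℕ → List V → V → Prop) : Prop :=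
  ∀ k l, (∀ y ∈ l, y ∈ X) → (∃ y ∈ K, Ψ k l y) → ∃ y ∈ X, Ψ k l y

/-- `π` is the Mostowski collapse of `X`. -/
def Col (X : Set V) (π : V → V) : Prop := ∀ x z, z ∈ π x ↔ ∃ y ∈ x, y ∈ X ∧ z = π y

/-- `V_ζ` is a universe. -/
structure Inacc (ζ : Ordinal.{0}) : Prop where
  om : Ordinal.omega 1 < ζ
  lim : Order.IsSuccLimit ζ
  im : ∀ a : V, rank a < ζ → ∀ f : V → V, (∀ x ∈ a, rank (f x) < ζ) →
    ∃ β < ζ, ∀ x ∈ a, rank (f x) < β

end Pool.Agent.Lib.MP_329f2d_lc
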