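import Pool.Agent.Lib.MP_329f2d_lc.H2Th
import Pool.Agent.Lib.MP_329f2d_lc.H59Defs2

/-!
The constructible hierarchy: basic facts, the inner model theorem, condensation, coding.
-/

open ZFSet

namespace Pool.Agent.Lib.MP_329f2d_lc

variable {K : Set V} {x A X y α β γ : V} {Γ : Type}

theorem exists_nopred (φ : Fml) : ∃ ψ : Fml, ∀ C D v, Sat C D ψ v ↔ Sat C ∅ φ v := by
  induction φ with
  | mem i j => exact ⟨.mem i j, fun _ _ _ => Iff.rfl⟩
  | eq i j => exact ⟨.eq i j, fun _ _ _ => Iff.rfl⟩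
  | pred i => exact ⟨.neg (.eq i i), fun _ _ _ => by simp [Sat]⟩
  | neg φ ih => exact let ⟨ψ, h⟩ := ih; ⟨.neg ψ, fun _ _ _ => not_congr (h _ _ _)⟩
  | and φ φ' ih ih' =>
    exact let ⟨ψ, h⟩ := ih; let ⟨ψ', h'⟩ := ih'
      ⟨.and ψ ψ', fun _ _ _ => and_congr (h _ _ _) (h' _ _ _)⟩
  | ex φ ih =>
    exact let ⟨ψ, h⟩ := ih
      ⟨.ex ψ, fun _ _ _ => exists_congr fun _ => and_congr_right fun _ => h _ _ _⟩

theorem empty_mem_Def : ∅ ∈ Def A X :=
  mem_Def.2 ⟨empty_subset _, .neg (.eq 0 0), fun _ => ∅, fun _ => .inr rfl, by simp [Sat]⟩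

theorem self_mem_Def : X ∈ Def A X :=
  mem_Def.2 ⟨fun _ h => h, .eq 0 0, fun _ => ∅, fun _ => .inr rfl, by simp +contextual [Sat]⟩

theorem inter_mem_Def : X ∩ A ∈ Def A X :=
  mem_Def.2 ⟨fun _ h => (mem_inter.1 h).1, .pred 0, fun _ => ∅, fun _ => .inr rfl,
    by simp +contextual [Sat]⟩

theorem sub_Def (ht : IsTransitive X) : X ⊆ Def A X := fun y hy =>
  mem_Def.2 ⟨ht y hy, .mem 0 1, fun _ => y, fun _ => .inl hy, fun _ _ => Iff.rfl⟩

theorem trs_empty (ht : IsTransitive X) (y : V) : y ∈ X → ∅ ∈ X := by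
  induction y using ZFSet.inductionOn with
  | _ y ih =>
    intro hy
    rcases eq_empty_or_nonempty y with rfl | ⟨z, hz⟩
    exacts [hy, ih z hz (ht y hy hz)]

/-- Absolutely definable subsets of a transitive set. -/
theorem sep_mem_Def [Countable Γ] (S : (Γ → V) → V → Prop)
    [Df Trs fun _ (v : Option Γ → V) => S (fun i => v (some i)) (v none)] (ht : IsTransitive X)
    {v : Γ → V} (hv : ∀ i, v i ∈ X) : ZFSet.sep (S v) X ∈ Def A X := by
  rcases eq_empty_or_nonempty X with rfl | ⟨z, hz⟩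
  · rw [sep_empty]; exact empty_mem_Def
  obtain ⟨φ, p, hp, h⟩ := Df.cls (K := Trs) (W := X) (fun _ => S) (fun a ha _ hb => ht a ha hb)
    (trs_empty ht z hz) hv
  obtain ⟨ψ, hψ⟩ := exists_nopred φ
  exact mem_Def.2 ⟨fun _ h => (mem_sep.1 h).1, ψ, p, fun i => .inl (hp i), fun z hz => by
    rw [mem_sep, and_iff_right hz, hψ, h z hz]⟩

theorem Def_sub_Lh (h : β ∈ α) : Def A (Lh x A β) ⊆ Lh x A α := fun _ hz =>
  (mem_Lh _ _ _ _).2 (.inr ⟨β, h, hz⟩)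

theorem sub_Lh : x ⊆ Lh x A α := fun _ hz => (mem_Lh _ _ _ _).2 (.inl hz)

theorem Lh_mono (h : α ⊆ β) : Lh x A α ⊆ Lh x A β := fun _ hz =>
  ((mem_Lh _ _ _ _).1 hz).elim (sub_Lh ·) fun ⟨_, hγ, hz⟩ => Def_sub_Lh (h hγ) hz

theorem Lh_trans (ht : IsTransitive x) (A α : V) : IsTransitive (Lh x A α) := by
  induction α using ZFSet.inductionOn with
  | _ α ih =>
    intro z hz w hw
    rcases (mem_Lh _ _ _ _).1 hz with hz | ⟨β, hβ, hz⟩
    · exact sub_Lh (ht z hz hw)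
    · exact Def_sub_Lh hβ (sub_Def (ih β hβ) ((mem_Def.1 hz).1 hw))

theorem ord_mem_Def (ht : IsTransitive x) (α : V) : IsOrdinal α → α ∈ Def A (Lh x A α) := by
  induction α using ZFSet.inductionOn with
  | _ α ih =>
    intro hα
    have h1 := sep_mem_Def (A := A) (Γ := Empty) (fun _ z => IsOrdinal z) (Lh_trans ht A α)
      (v := Empty.elim) (·.elim)
    have h2 : IsOrdinal (ZFSet.sep IsOrdinal (Lh x A α)) :=
      isOrdinal_iff_forall_mem_isOrdinal.2 ⟨fun z hz w hw => mem_sep.2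
        ⟨Lh_trans ht A α z (mem_sep.1 hz).1 hw, (mem_sep.1 hz).2.mem hw⟩,
        fun z hz => (mem_sep.1 hz).2⟩
    rcases (hα.subset_iff_eq_or_mem h2).1 fun β hβ => mem_sep.2
      ⟨Def_sub_Lh hβ (ih β hβ (hα.mem hβ)), hα.mem hβ⟩ with e | h
    · rw [← e] at h1; exact h1
    · exact sub_Def (Lh_trans ht A α) (mem_sep.1 h).1

/-- The class `L(x)[A]` of the model `K`. -/
def LC (K : Set V) (x A : V) : Set V := {z | ∃ α ∈ K, IsOrdinal α ∧ z ∈ Lh x A α}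

theorem LC_sub (hK : ZFm K ∅) (hx : x ∈ K) (hA : A ∈ K) : LC K x A ⊆ K :=
  fun _ ⟨_, hα, _, hz⟩ => hK.mem hz (lh_mem hK hx hA hα)

instance dc_LC {K : Set V → Prop} [hK : Cl K] [Countable Γ] (s t : Set V → (Γ → V) → V)
    [hs : Tm K s] [ht : Tm K t] : Dc K fun W v => LC W (s W v) (t W v) :=
  ⟨fun W hW v hv => LC_sub (hK.zf W hW) (hs.mem W hW v hv) (ht.mem W hW v hv),
    inferInstanceAs (Df K fun W (v : Option Γ → V) => ∃ α ∈ W, IsOrdinal α ∧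
      v none ∈ Lh (s W fun i => v (some i)) (t W fun i => v (some i)) α)⟩

theorem mem_LC_of_Def (hK : ZFm K ∅) (hα : α ∈ K) (ho : IsOrdinal α) (h : y ∈ Def A (Lh x A α)) :
    y ∈ LC K x A :=
  ⟨_, hK.insert hα hα, isOrdinal_succ ho, Def_sub_Lh (mem_insert _ _) h⟩

theorem ord_mem_LC (hK : ZFm K ∅) (ht : IsTransitive x) (hα : α ∈ K) (ho : IsOrdinal α) :
    α ∈ LC K x A :=
  mem_LC_of_Def hK hα ho (ord_mem_Def ht α ho)

theorem sub_LC (hK : ZFm K ∅) (h : y ∈ x) : y ∈ LC K x A :=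
  ⟨∅, hK.empty, isOrdinal_empty, sub_Lh h⟩

theorem ord_max (hα : α ∈ K) (ho : IsOrdinal α) (hβ : β ∈ K) (ho' : IsOrdinal β) :
    ∃ γ ∈ K, IsOrdinal γ ∧ α ⊆ γ ∧ β ⊆ γ :=
  (ho.subset_total ho').elim (fun h => ⟨β, hβ, ho', h, fun _ h => h⟩)
    fun h => ⟨α, hα, ho, fun _ h => h, h⟩

theorem LC.common {z w : V} (hz : z ∈ LC K x A) (hw : w ∈ LC K x A) :
    ∃ α ∈ K, IsOrdinal α ∧ z ∈ Lh x A α ∧ w ∈ Lh x A α :=
  let ⟨_, hα, ho, hz⟩ := hz
  let ⟨_, hβ, ho', hw⟩ := hw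
  let ⟨γ, hγ, ho'', h, h'⟩ := ord_max hα ho hβ ho'
  ⟨γ, hγ, ho'', Lh_mono h hz, Lh_mono h' hw⟩

theorem ord_sUnion (h : ∀ z ∈ y, IsOrdinal z) : IsOrdinal (⋃₀ y : V) :=
  isOrdinal_iff_forall_mem_isOrdinal.2 ⟨IsTransitive.sUnion' fun z hz => (h z hz).isTransitive,
    fun _ hw => let ⟨z, hz, hw⟩ := mem_sUnion.1 hw; (h z hz).mem hw⟩

/-- Almost universality. -/
theorem LC.bound (hK : ZFm K ∅) (hx : x ∈ K) (hA : A ∈ K) {b : V} (hb : b ∈ K) :
    ∃ β ∈ K, IsOrdinal β ∧ ∀ z ∈ b, z ∈ LC K x A → z ∈ Lh x A β := by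
  obtain ⟨c, hc, h⟩ := Df.coll (K := ZF) (fun W (v : ℕ → V) z α => IsOrdinal α ∧
    (z ∈ LC W (v 0) (v 1) → z ∈ Lh (v 0) (v 1) α)) hK (v := cons x fun _ => A)
    (cons_mem hx fun _ => hA) hb fun z _ => by
      by_cases h : z ∈ LC K x A
      · obtain ⟨α, hα, ho, hz⟩ := h
        exact ⟨α, hα, ho, fun _ => hz⟩
      · exact ⟨∅, hK.empty, isOrdinal_empty, fun h' => (h h').elim⟩
  refine ⟨⋃₀ ZFSet.sep IsOrdinal c, tm1 (K := ZF) (t := fun _ c => ⋃₀ ZFSet.sep IsOrdinal c) hK hc,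
    ord_sUnion fun z hz => (mem_sep.1 hz).2, fun z hz hz' => ?_⟩
  obtain ⟨α, hα, ho, h⟩ := h z hz
  exact Lh_mono (fun _ h => mem_sUnion.2 ⟨α, mem_sep.2 ⟨hα, ho⟩, h⟩) (h hz')

/-- Satisfaction with all quantifiers bounded. -/
def BSat : Fml → (ℕ → V) → (List Bool → V) → Prop
  | .mem i j, v, _ => v i ∈ v j
  | .eq i j, v, _ => v i = v j
  | .pred _, _, _ => False
  | .neg φ, v, b => ¬ BSat φ v b
  | .and φ ψ, v, b => BSat φ v (fun l => b (false :: l)) ∧ BSat ψ v fun l => b (true :: l)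
  | .ex φ, v, b => ∃ x ∈ b [], BSat φ (cons x v) fun l => b (true :: l)

theorem df_BSat (φ : Fml) : ∀ {Γ : Type} (E : Set V → (Γ → V) → ℕ → V) [Env Trs E]
    (f : List Bool → Γ), Df Trs fun W v => BSat φ (E W v) fun l => v (f l) := by
  induction φ with
  | mem i j =>
    intro Γ E h f
    have := h.tm i; have := h.tm j
    exact df_mem (fun W v => E W v i) fun W v => E W v j
  | eq i j =>
    intro Γ E h f
    have := h.tm i; have := h.tm j
    exact df_eq (fun W v => E W v i) fun W v => E W v j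
  | pred i => intro Γ E h f; exact df_false
  | neg φ ih => intro Γ E h f; unfold BSat; have := ih E f; infer_instance
  | and φ ψ ih ih' =>
    intro Γ E h f
    unfold BSat
    have := ih E fun l => f (false :: l); have := ih' E fun l => f (true :: l); infer_instance
  | ex φ ih =>
    intro Γ E h f
    unfold BSat
    have := ih (fun W (v : Option Γ → V) => cons (v none) (E W fun i => v (some i)))
      fun l => some (f (true :: l))
    infer_instance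

theorem LC.refl (hK : ZFm K ∅) (hx : x ∈ K) (hA : A ∈ K) (φ : Fml) : ∀ α ∈ K, IsOrdinal α →
    ∃ β ∈ K, IsOrdinal β ∧ ∃ b : List Bool → V, (∀ l, b l ∈ Lh x A β) ∧
      ∀ v : ℕ → V, (∀ i, v i ∈ Lh x A α) → (Sat (LC K x A) ∅ φ v ↔ BSat φ v b) := by
  have h0 : ∅ ∈ Lh x A (insert ∅ ∅) := Def_sub_Lh (mem_insert _ _) empty_mem_Def
  have h1 := hK.insert hK.empty hK.empty
  have h2 := isOrdinal_succ isOrdinal_empty
  induction φ with
  | mem i j => exact fun _ _ _ => ⟨_, h1, h2, fun _ => ∅, fun _ => h0, fun _ _ => Iff.rfl⟩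
  | eq i j => exact fun _ _ _ => ⟨_, h1, h2, fun _ => ∅, fun _ => h0, fun _ _ => Iff.rfl⟩
  | pred i => exact fun _ _ _ => ⟨_, h1, h2, fun _ => ∅, fun _ => h0, fun _ _ => Iff.rfl⟩
  | neg φ ih =>
    intro α hα ho
    obtain ⟨β, hβ, ho', b, hb, h⟩ := ih α hα ho
    exact ⟨β, hβ, ho', b, hb, fun v hv => not_congr (h v hv)⟩
  | and φ ψ ih ih' =>
    intro α hα ho
    obtain ⟨β, hβ, ho', b, hb, h⟩ := ih α hα ho
    obtain ⟨β', hβ', ho'', b', hb', h'⟩ := ih' α hα ho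
    obtain ⟨γ, hγ, hoγ, s, s'⟩ := ord_max hβ ho' hβ' ho''
    refine ⟨γ, hγ, hoγ, fun l => if l.headI then b' l.tail else b l.tail, fun l => ?_,
      fun v hv => and_congr (h v hv) (h' v hv)⟩
    dsimp only
    split_ifs
    exacts [Lh_mono s' (hb' _), Lh_mono s (hb _)]
  | ex φ ih =>
    intro α hα ho
    obtain ⟨c, hc, hc'⟩ := Df.coll (K := ZF) (fun W (v : ℕ → V) l y =>
      (∃ z ∈ LC W (v 0) (v 1), Sat (LC W (v 0) (v 1)) ∅ φ (cons z (env l))) →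
        y ∈ LC W (v 0) (v 1) ∧ Sat (LC W (v 0) (v 1)) ∅ φ (cons y (env l))) hK
      (v := cons x fun _ => A) (cons_mem hx fun _ => hA)
      (tm1 (K := ZF) (t := fun _ a => Lst a) hK (lh_mem hK hx hA hα)) fun l _ => by
        by_cases h : ∃ z ∈ LC K x A, Sat (LC K x A) ∅ φ (cons z (env l))
        · obtain ⟨z, hz⟩ := h
          exact ⟨z, LC_sub hK hx hA hz.1, fun _ => hz⟩
        · exact ⟨∅, hK.empty, fun h' => (h h').elim⟩
    obtain ⟨δ, hδ, hoδ, hc''⟩ := LC.bound hK hx hA hc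
    obtain ⟨α', hα', ho', s, s'⟩ := ord_max hα ho hδ hoδ
    obtain ⟨β, hβ, hoβ, b, hb, h⟩ := ih α' hα' ho'
    obtain ⟨γ, hγ, hoγ, t, t'⟩ := ord_max hβ hoβ (hK.insert hα' hα') (isOrdinal_succ ho')
    refine ⟨γ, hγ, hoγ, fun l => if l = [] then Lh x A α' else b l.tail, fun l => ?_,
      fun v hv => ⟨fun ⟨z, hz, hz'⟩ => ?_, fun ⟨z, hz, hz'⟩ => ⟨z, ⟨α', hα', ho', hz⟩,
        (h _ (cons_mem (W := Lh x A α') hz fun i => Lh_mono s (hv i))).2 hz'⟩⟩⟩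
    · dsimp only
      split_ifs
      exacts [Def_sub_Lh (t' (mem_insert _ _)) self_mem_Def, Lh_mono t (hb _)]
    · obtain ⟨n, hn⟩ := Sat_bound φ
      obtain ⟨l, hl, e⟩ := exists_lst n v hv
      have key : ∀ z, Sat (LC K x A) ∅ φ (cons z (env l)) ↔ Sat (LC K x A) ∅ φ (cons z v) :=
        fun z => hn _ _ _ _ fun i hi => by
          cases i with
          | zero => rfl
          | succ i => rw [cons_succ, cons_succ, e, min_eq_left (by omega)]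
      obtain ⟨w, hw, hw'⟩ := hc' l hl
      obtain ⟨hw1, hw2⟩ := hw' ⟨z, hz, (key z).2 hz'⟩
      have hw3 := Lh_mono s' (hc'' w hw hw1)
      exact ⟨w, hw3, (h _ (cons_mem (W := Lh x A α') hw3 fun i => Lh_mono s (hv i))).1
        ((key w).1 hw2)⟩

/-- The inner model theorem, for the class. -/
theorem zfm_LC (hK : ZFm K ∅) (hx : x ∈ K) (ht : IsTransitive x) (hA : A ∈ K) :
    ZFm (LC K x A) ∅ where
  trans := fun z ⟨α, hα, ho, hz⟩ _ hw => ⟨α, hα, ho, Lh_trans ht A α z hz hw⟩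
  omega := ord_mem_LC hK ht hK.omega ord_omega2
  pair := fun z hz w hw => by
    obtain ⟨α, hα, ho, hz, hw⟩ := LC.common hz hw
    have := sep_mem_Def (A := A) (fun (v : ℕ → V) u => u = v 0 ∨ u = v 1) (Lh_trans ht A α)
      (v := cons z fun _ => w) (cons_mem (W := Lh x A α) hz fun _ => hw)
    convert mem_LC_of_Def hK hα ho this using 1
    ext u
    simp only [mem_pair, mem_sep, cons_zero, cons_succ]
    exact ⟨fun h => ⟨h.elim (· ▸ hz) (· ▸ hw), h⟩, fun h => h.2⟩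
  union := fun z ⟨α, hα, ho, hz⟩ => by
    have := sep_mem_Def (A := A) (fun (v : ℕ → V) u => ∃ w ∈ v 0, u ∈ w) (Lh_trans ht A α)
      (v := fun _ => z) fun _ => hz
    convert mem_LC_of_Def hK hα ho this using 1
    ext u
    simp only [mem_sUnion, mem_sep]
    exact ⟨fun ⟨w, hw, h⟩ => ⟨Lh_trans ht A α _ (Lh_trans ht A α _ hz hw) h, w, hw, h⟩,
      fun h => h.2⟩
  sep := fun φ v hv a ha => by
    obtain ⟨n, hn⟩ := Sat_bound φ
    have : ∀ n : ℕ, ∃ α ∈ K, IsOrdinal α ∧ a ∈ Lh x A α ∧ ∀ i < n, v i ∈ Lh x A α := fun n => by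
      induction n with
      | zero => exact let ⟨α, hα, ho, h⟩ := ha; ⟨α, hα, ho, h, fun _ h => absurd h (by omega)⟩
      | succ n ih =>
        obtain ⟨α, hα, ho, h, h'⟩ := ih
        obtain ⟨β, hβ, ho', h''⟩ := hv n
        obtain ⟨γ, hγ, hoγ, s, s'⟩ := ord_max hα ho hβ ho'
        exact ⟨γ, hγ, hoγ, Lh_mono s h, fun i hi => (Nat.lt_succ_iff_lt_or_eq.1 hi).elim
          (fun hi => Lh_mono s (h' i hi)) (· ▸ Lh_mono s' h'')⟩
    obtain ⟨α, hα, ho, ha', hv'⟩ := this n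
    obtain ⟨β, hβ, ho', b, hb, h⟩ := LC.refl hK hx hA φ α hα ho
    obtain ⟨γ, hγ, hoγ, s, s'⟩ := ord_max hα ho hβ ho'
    have hw : ∀ i, (if i < n then v i else a) ∈ Lh x A α := fun i => by
      split_ifs with hi; exacts [hv' i hi, ha']
    have : Env Trs fun _ (u : Option (ℕ ⊕ List Bool) → V) i => u (some (.inl (i + 1))) :=
      env_var _
    have := df_BSat φ (fun _ (u : Option (ℕ ⊕ List Bool) → V) =>
      cons (u none) fun i => u (some (.inl (i + 1)))) fun l => some (.inr l)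
    have := sep_mem_Def (A := A) (fun (u : ℕ ⊕ List Bool → V) z => z ∈ u (.inl 0) ∧
      BSat φ (cons z fun i => u (.inl (i + 1))) fun l => u (.inr l)) (Lh_trans ht A γ)
      (v := Sum.elim (cons a fun i => if i < n then v i else a) b) (by
        rintro (i | l)
        exacts [Lh_mono s (cons_mem (W := Lh x A α) ha' hw i), Lh_mono s' (hb l)])
    refine ⟨_, mem_LC_of_Def hK hγ hoγ this, fun z => ?_⟩
    rw [mem_sep, and_iff_right_of_imp fun hz => Lh_trans ht A γ _ (Lh_mono s ha') hz.1]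
    refine and_congr_right fun hz => ?_
    refine (h _ (cons_mem (W := Lh x A α) (Lh_trans ht A α _ ha' hz) hw)).symm.trans
      (hn _ _ _ _ fun i hi => ?_)
    cases i with
    | zero => rfl
    | succ i => exact if_pos (by omega)
  coll := fun φ v hv a ha H => by
    obtain ⟨c, hc, hc'⟩ := Df.coll (K := ZF) (fun W (u : ℕ → V) z y => y ∈ LC W (u 0) (u 1) ∧
      Sat (LC W (u 0) (u 1)) ∅ φ (cons y (cons z fun i => u (i + 2)))) hK
      (v := cons x (cons A v)) (cons_mem hx (cons_mem hA fun i => LC_sub hK hx hA (hv i)))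
      (LC_sub hK hx hA ha) fun z hz => (H z hz).imp fun y hy => ⟨LC_sub hK hx hA hy.1, hy⟩
    obtain ⟨β, hβ, ho, h⟩ := LC.bound hK hx hA hc
    exact ⟨_, mem_LC_of_Def hK hβ ho self_mem_Def, fun z hz =>
      (hc' z hz).imp fun y hy => ⟨h y hy.1 hy.2.1, hy.2.2⟩⟩

theorem coe_Lh (hK : ZFm K ∅) (hγ : ∀ α, α ∈ γ ↔ α ∈ K ∧ IsOrdinal α) :
    (Lh x A γ : Set V) = LC K x A := by
  ext z
  refine ⟨fun hz => ((mem_Lh _ _ _ _).1 hz).elim (sub_LC hK) fun ⟨β, hβ, hz⟩ =>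
    mem_LC_of_Def hK ((hγ β).1 hβ).1 ((hγ β).1 hβ).2 hz, fun ⟨α, hα, ho, hz⟩ => ?_⟩
  exact Lh_mono (fun β hβ => (hγ β).2 ⟨hK.mem hβ hα, ho.mem hβ⟩) hz

/-- The inner model theorem. -/
theorem zfm_Lh {K : Set V} (hK : ZFm K ∅) {x A γ : V} (hx : x ∈ K) (ht : IsTransitive x)
    (hA : A ∈ K) (hγ : ∀ α, α ∈ γ ↔ α ∈ K ∧ IsOrdinal α) : ZFm (Lh x A γ) ∅ :=
  coe_Lh hK hγ ▸ zfm_LC hK hx ht hA

theorem LA.eq_LC (h : LA K A) : LC K ∅ A = K :=
  (LC_sub h.1.1 h.1.1.empty h.2.1).antisymm h.2.2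

/-- Condensation. -/
theorem LA.eq_Lh {N A τ : V} (h : LA N A) (hτ : ∀ α, α ∈ τ ↔ α ∈ N ∧ IsOrdinal α) :
    N = Lh ∅ A τ :=
  SetLike.coe_injective ((coe_Lh h.1.1 hτ).trans h.eq_LC).symm

theorem Df.pe2 {P : Set V → (ℕ → V) → Prop} (h : Df ZF P) {M K : Set V} {m : V → V → Prop}
    (hp : PE M K m) (hM : ZFm M ∅) (hK : ZFm K ∅) (hd : ∀ x y, m x y → x ∈ M ∧ y ∈ K)
    {v w : ℕ → V} (hv : ∀ i, m (v i) (w i)) : P M v ↔ P K w :=
  let ⟨φ, hφ⟩ := h.ex id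
  (hφ M hM v fun i => (hd _ _ (hv i)).1).trans
    ((hp φ v w hv).trans (hφ K hK w fun i => (hd _ _ (hv i)).2).symm)

theorem la_transfer {M K : Set V} {m : V → V → Prop} (h : PE M K m) (hM : ZFCm M ∅)
    (hK : ZFCm K ∅) (hd : ∀ x y, m x y → x ∈ M ∧ y ∈ K) {A' A : V} (hA : m A' A) :
    LA M A' ↔ LA K A :=
  and_congr (iff_of_true hM hK) (and_congr (iff_of_true (hd _ _ hA).1 (hd _ _ hA).2)
    (Df.pe2 (P := fun W v => ∀ z ∈ W, z ∈ LC W ∅ (v 0)) inferInstance h hM.1 hK.1 hd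
      (v := fun _ => A') (w := fun _ => A) fun _ => hA))

/-- The transitive closure of `{x}`. -/
noncomputable def tcl2 : V → V :=
  wrec (pre := fun x => x) mem_wf fun x g => insert x (⋃₀ ran g)

theorem mem_tcl2 {z : V} : z ∈ tcl2 x ↔ z = x ∨ ∃ y ∈ x, z ∈ tcl2 y := by
  rw [tcl2, wrec_eq, ran_graph]
  simp only [mem_insert_iff, mem_sUnion, mem_img]
  exact or_congr_right ⟨fun ⟨_, ⟨y, hy, rfl⟩, h⟩ => ⟨y, hy, h⟩,
    fun ⟨y, hy, h⟩ => ⟨_, ⟨y, hy, rfl⟩, h⟩⟩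

theorem tcl2_trans (x : V) : IsTransitive (tcl2 x) := by
  induction x using ZFSet.inductionOn with
  | _ x ih =>
    intro z hz w hw
    rcases mem_tcl2.1 hz with rfl | ⟨y, hy, hz⟩
    · exact mem_tcl2.2 (.inr ⟨w, hw, mem_tcl2.2 (.inl rfl)⟩)
    · exact mem_tcl2.2 (.inr ⟨y, hy, ih y hy z hz hw⟩)

instance tm_tcl2 {K : Set V → Prop} [Cl K] (s : Set V → (Γ → V) → V) [Tm K s] :
    Tm K fun W v => tcl2 (s W v) :=
  Tm.app1 (F := fun _ => tcl2)
    (tm_wrec (pre := fun x => x) mem_wf fun _ x g => insert x (⋃₀ ran g)) s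

/-- Coding a set into a predicate. -/
theorem exists_code {K : Set V} (hK : ZFCm K ∅) {x : V} (hx : x ∈ K) :
    ∃ A ∈ K, ∃ α ∈ K, IsOrdinal α ∧ x ∈ Lh ∅ A α ∧ A ∈ Lh ∅ A α := by
  have hz := hK.1
  have ht : tcl2 x ∈ K := tm1 (K := ZF) (t := fun _ x => tcl2 x) hz hx
  obtain ⟨δ, hδ, ho, e, he, hf, hs⟩ := hK.2 _ ht
  have hA : ZFSet.sep (fun p => snd p ∈ ap e (fst p)) (prod δ (tcl2 x)) ∈ K :=
    tm3 (K := ZF) (t := fun _ e δ t => ZFSet.sep (fun p => snd p ∈ ap e (fst p)) (prod δ t)) hz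
      he hδ ht
  generalize hAe : ZFSet.sep (fun p => snd p ∈ ap e (fst p)) (prod δ (tcl2 x)) = A at hA
  have hL := zfm_LC hz hz.empty isTransitive_empty hA
  have hδL : ∀ ξ ∈ δ, ξ ∈ LC K ∅ A := fun ξ hξ =>
    ord_mem_LC hz isTransitive_empty (hz.mem hξ hδ) (ho.mem hξ)
  have key : ∀ y, y ∈ tcl2 x → y ∈ LC K ∅ A := fun y => by
    induction y using ZFSet.inductionOn with
    | _ y ih =>
      intro hy
      obtain ⟨ξ, hξ, hp⟩ := hs y hy
      have hey : ap e ξ = y := ap_eq hp fun z hz => (hf.2 ξ hξ).unique hz hp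
      obtain ⟨β, hβ, hoβ, hb⟩ := LC.bound hz hz.empty hA
        (tm2 (K := ZF) (t := fun _ ξ y => img (fun z => pair ξ z) y) hz (hz.mem hξ hδ)
          (hz.mem hy ht))
      have := tm2 (K := ZF) (t := fun _ ξ c => ZFSet.sep (fun z => pair ξ z ∈ c) (ran c)) hL
        (hδL ξ hξ) (mem_LC_of_Def hz hβ hoβ inter_mem_Def)
      convert this using 1
      ext z
      rw [mem_sep, mem_ran, and_iff_right_of_imp fun h => ⟨ξ, h⟩, mem_inter]
      refine ⟨fun h => ⟨hb _ (mem_img.2 ⟨z, h, rfl⟩) (hL.opair (hδL ξ hξ)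
        (ih z h (tcl2_trans x y hy h))), ?_⟩, fun h => ?_⟩
      · rw [← hAe, mem_sep, fst_pair, snd_pair, hey]
        exact ⟨pair_mem_prod.2 ⟨hξ, tcl2_trans x y hy h⟩, h⟩
      · have := h.2
        rw [← hAe, mem_sep, fst_pair, snd_pair, hey] at this
        exact this.2
  obtain ⟨β, hβ, hoβ, hb⟩ := LC.bound hz hz.empty hA hA
  have hAL : A ∈ LC K ∅ A := by
    convert mem_LC_of_Def hz hβ hoβ inter_mem_Def using 1
    ext p
    rw [mem_inter, and_iff_right_of_imp fun hp => hb p hp ?_]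
    rw [← hAe] at hp
    obtain ⟨ξ, hξ, z, hz', rfl⟩ := mem_prod.1 (mem_sep.1 hp).1
    exact hL.opair (hδL ξ hξ) (key z hz')
  exact ⟨A, hA, LC.common (key x (mem_tcl2.2 (.inl rfl))) hAL⟩

end Pool.Agent.Lib.MP_329f2d_lc
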