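import Pool.Agent.Lib.MP_329f2d_lc.H58Rec

/-!
Coded satisfaction for set structures; `Def` and the constructible hierarchy are definable terms.
-/

open ZFSet

namespace Pool.Agent.Lib.MP_329f2d_lc

variable {K : Set V → Prop} {Γ : Type}

/-- Recursion along a set-like well-founded relation. -/
noncomputable def wrec {pre : V → V} (wf : WellFounded fun y x => y ∈ pre x) (step : V → V → V) :
    V → V :=
  wf.fix fun x ih => step x (range fun y : pre x => pair y.1 (ih y.1 y.2))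

theorem wrec_eq {pre : V → V} (wf : WellFounded fun y x => y ∈ pre x) (step : V → V → V) (x : V) :
    wrec wf step x = step x (graph (wrec wf step) (pre x)) := by
  rw [wrec, WellFounded.fix_eq]; rfl

theorem tm_wrec [Cl K] [Countable Γ] {pre : V → V} (wf : WellFounded fun y x => y ∈ pre x)
    (step : (Γ → V) → V → V → V) [Tm K fun _ (v : Option Γ → V) => pre (v none)]
    [Tm K fun _ (v : Option (Option Γ) → V) =>
      step (fun i => v (some (some i))) (v (some none)) (v none)] :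
    Tm K fun _ (v : Option Γ → V) => wrec wf (step fun i => v (some i)) (v none) :=
  Tm.recur (fun _ v => wrec wf (step v)) (fun _ _ => pre) (fun _ => step)
    (fun _ _ _ _ => Subrelation.wf (fun h => h.2) wf) fun _ _ _ _ x _ => wrec_eq wf _ x

theorem omega_ind2 {p : V → Prop} (h0 : p ∅) (hs : ∀ n, p n → p (insert n n)) :
    ∀ n ∈ (omega : V), p n := by
  have key : ∀ k : ℕ, p (ZFSet.mk (PSet.ofNat k)) := fun k => by
    induction k with
    | zero => exact h0
    | succ k ih => exact hs _ ih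
  intro n
  refine Quotient.inductionOn n ?_
  rintro x ⟨⟨k⟩, h⟩
  show p (ZFSet.mk x)
  rw [ZFSet.sound h]
  exact key k

theorem omega_trans2 : ∀ n ∈ (omega : V), n ⊆ omega := fun n hn =>
  (omega_ind2 (p := fun n => n ∈ (omega : V) ∧ n ⊆ omega)
    ⟨omega_zero, fun _ h => (notMem_empty _ h).elim⟩
    (fun _ h => ⟨omega_succ h.1, fun _ hy => (mem_insert_iff.1 hy).elim (· ▸ h.1) (h.2 ·)⟩) n hn).2

theorem ord_omega2 : IsOrdinal (omega : V) :=
  isOrdinal_iff_forall_mem_isOrdinal.2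
    ⟨omega_trans2, omega_ind2 isOrdinal_empty fun _ => isOrdinal_succ⟩

theorem mem_omega2 (x : V) : x ∈ (omega : V) ↔
    IsTransitive x ∧ ∀ y ∈ insert x x, y = ∅ ∨ ∃ z ∈ y, y = insert z z := by
  constructor
  · intro hx
    refine ⟨(ord_omega2.mem hx).isTransitive, fun y hy => ?_⟩
    exact omega_ind2 (p := fun y => y = ∅ ∨ ∃ z ∈ y, y = insert z z) (.inl rfl)
      (fun n _ => .inr ⟨n, mem_insert _ _, rfl⟩) y (omega_trans2 _ (omega_succ hx) hy)
  · rintro ⟨ht, h⟩
    have : ∀ y, y ∈ insert x x → y ∈ (omega : V) := fun y => by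
      induction y using ZFSet.inductionOn with
      | _ y ih =>
        intro hy
        rcases h y hy with rfl | ⟨z, hz, e⟩
        · exact omega_zero
        · rw [e]
          refine omega_succ (ih z hz (mem_insert_of_mem _ ?_))
          rcases mem_insert_iff.1 hy with rfl | hy
          exacts [hz, ht y hy hz]
    exact this x (mem_insert _ _)

theorem tm_omega2 [hK : Cl K] : Tm K fun _ (_ : Γ → V) => (omega : V) :=
  Tm.of_mem _ (fun _ _ x => IsTransitive x ∧ ∀ y ∈ insert x x, y = ∅ ∨ ∃ z ∈ y, y = insert z z)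
    (fun W hW _ _ => (hK.zf W hW).omega) fun _ _ _ _ x _ => mem_omega2 x

attribute [local instance] tm_omega2

/-- Stages of an inductive definition. -/
noncomputable def stg (G : V → V) : V → V :=
  wrec (pre := fun x => x) mem_wf fun _ g => ⋃₀ img G (ran g)

theorem mem_stg {G : V → V} {n x : V} : x ∈ stg G n ↔ ∃ m ∈ n, x ∈ G (stg G m) := by
  rw [stg, wrec_eq, ran_graph]
  simp only [mem_sUnion, mem_img]
  exact ⟨fun ⟨_, ⟨_, ⟨m, hm, rfl⟩, rfl⟩, h⟩ => ⟨m, hm, h⟩,
    fun ⟨m, hm, h⟩ => ⟨_, ⟨_, ⟨m, hm, rfl⟩, rfl⟩, h⟩⟩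

theorem stg_ind {G : V → V} {p : V → Prop} (h : ∀ s : V, (∀ x ∈ s, p x) → ∀ x ∈ G s, p x)
    (n : V) : ∀ x ∈ stg G n, p x := by
  induction n using ZFSet.inductionOn with
  | _ n ih =>
    intro x hx
    obtain ⟨m, hm, hx⟩ := mem_stg.1 hx
    exact h _ (ih m hm) x hx

theorem stg_mono {G : V → V} {m n : V} (h : m ⊆ n) : stg G m ⊆ stg G n := fun _ hx =>
  let ⟨k, hk, hx⟩ := mem_stg.1 hx
  mem_stg.2 ⟨k, h hk, hx⟩

theorem exists_stg {G : V → V} {x y : V} (hx : x ∈ stg G omega) (hy : y ∈ stg G omega) :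
    ∃ n ∈ (omega : V), x ∈ stg G n ∧ y ∈ stg G n := by
  obtain ⟨m, hm, hx⟩ := mem_stg.1 hx
  obtain ⟨n, hn, hy⟩ := mem_stg.1 hy
  rcases (ord_omega2.mem (omega_succ hm)).subset_total (ord_omega2.mem (omega_succ hn)) with h | h
  · exact ⟨_, omega_succ hn, mem_stg.2 ⟨m, h (mem_insert _ _), hx⟩,
      mem_stg.2 ⟨n, mem_insert _ _, hy⟩⟩
  · exact ⟨_, omega_succ hm, mem_stg.2 ⟨m, mem_insert _ _, hx⟩,
      mem_stg.2 ⟨n, h (mem_insert _ _), hy⟩⟩

/-- Codes: the closure of `{∅}` under pairs. -/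
noncomputable def Cd : V := stg (fun s => insert ∅ (prod s s)) omega

/-- Nonempty lists with entries in `Y`. -/
noncomputable def Lst (Y : V) : V := stg (fun s => prod Y (insert ∅ s)) omega

theorem empty_mem_Cd : ∅ ∈ Cd := mem_stg.2 ⟨∅, omega_zero, mem_insert _ _⟩

theorem pair_mem_Cd {x y : V} (hx : x ∈ Cd) (hy : y ∈ Cd) : pair x y ∈ Cd :=
  let ⟨n, hn, hx, hy⟩ := exists_stg hx hy
  mem_stg.2 ⟨n, hn, mem_insert_of_mem _ (pair_mem_prod.2 ⟨hx, hy⟩)⟩

theorem Cd_ind {p : V → Prop} (h0 : p ∅) (h : ∀ x y, p x → p y → p (pair x y)) :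
    ∀ c ∈ Cd, p c :=
  stg_ind (fun s hs x hx => by
    rcases mem_insert_iff.1 hx with rfl | hx
    · exact h0
    · obtain ⟨a, ha, b, hb, rfl⟩ := mem_prod.1 hx
      exact h _ _ (hs a ha) (hs b hb)) _

theorem single_mem_Lst {Y y : V} (hy : y ∈ Y) : pair y ∅ ∈ Lst Y :=
  mem_stg.2 ⟨∅, omega_zero, pair_mem_prod.2 ⟨hy, mem_insert _ _⟩⟩

theorem pair_mem_Lst {Y y l : V} (hy : y ∈ Y) (hl : l ∈ Lst Y) : pair y l ∈ Lst Y :=
  let ⟨n, hn, hl, _⟩ := exists_stg hl hl
  mem_stg.2 ⟨n, hn, pair_mem_prod.2 ⟨hy, mem_insert_of_mem _ hl⟩⟩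

theorem Lst_ind {Y : V} {p : V → Prop} (h0 : ∀ y ∈ Y, p (pair y ∅))
    (h : ∀ y ∈ Y, ∀ l, p l → p (pair y l)) : ∀ l ∈ Lst Y, p l :=
  stg_ind (fun s hs x hx => by
    obtain ⟨a, ha, b, hb, rfl⟩ := mem_prod.1 hx
    rcases mem_insert_iff.1 hb with rfl | hb
    exacts [h0 a ha, h a ha b (hs b hb)]) _

theorem pair_ne_empty2 (x y : V) : pair x y ≠ ∅ := fun h =>
  notMem_empty ({x} : V) (h ▸ by simp [pair])

theorem Lst_ne {Y l : V} (hl : l ∈ Lst Y) : l ≠ ∅ :=
  Lst_ind (p := fun l => l ≠ ∅) (fun _ _ => pair_ne_empty2 _ _) (fun _ _ _ _ => pair_ne_empty2 _ _)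
    l hl

open Classical in
/-- The tail of a list; lists with one entry are fixed. -/
noncomputable def tl (l : V) : V := if snd l = ∅ then l else snd l

/-- The assignment coded by a list; the last entry is repeated. -/
noncomputable def env (l : V) (i : ℕ) : V := fst (tl^[i] l)

theorem env_pair {l : V} (hl : l ≠ ∅) (x : V) : env (pair x l) = cons x (env l) := by
  funext i
  cases i with
  | zero => simp [env]
  | succ i => simp [env, tl, hl]

theorem env_single (x : V) (i : ℕ) : env (pair x ∅) i = x := by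
  rw [env, Function.iterate_fixed (by simp [tl]), fst_pair]

theorem env_mem {Y l : V} (hl : l ∈ Lst Y) : ∀ i, env l i ∈ Y :=
  (Lst_ind (p := fun l => l ≠ ∅ ∧ ∀ i, env l i ∈ Y)
    (fun y hy => ⟨pair_ne_empty2 _ _, fun i => by rwa [env_single]⟩)
    (fun y hy l h => ⟨pair_ne_empty2 _ _, by
      rw [env_pair h.1]; exact cons_mem (W := Y) hy h.2⟩) l hl).2

theorem exists_lst {Y : V} (n : ℕ) : ∀ v : ℕ → V, (∀ i, v i ∈ Y) →
    ∃ l ∈ Lst Y, ∀ i, env l i = v (min i n) := by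
  induction n with
  | zero => exact fun v hv => ⟨_, single_mem_Lst (hv 0), fun i => by simp [env_single]⟩
  | succ n ih =>
    intro v hv
    obtain ⟨l, hl, h⟩ := ih (fun i => v (i + 1)) fun i => hv _
    refine ⟨_, pair_mem_Lst (hv 0) hl, fun i => ?_⟩
    rw [env_pair (Lst_ne hl)]
    cases i with
    | zero => simp
    | succ i => simp [h, Nat.succ_min_succ]

theorem Sat_bound (φ : Fml) : ∃ n : ℕ, ∀ (C D : Set V) (v w : ℕ → V), (∀ i < n, v i = w i) →
    (Sat C D φ v ↔ Sat C D φ w) := by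
  induction φ with
  | mem i j => exact ⟨i + j + 1, fun C D v w h => by
      simp only [Sat, h i (by omega), h j (by omega)]⟩
  | eq i j => exact ⟨i + j + 1, fun C D v w h => by
      simp only [Sat, h i (by omega), h j (by omega)]⟩
  | pred i => exact ⟨i + 1, fun C D v w h => by simp only [Sat, h i (by omega)]⟩
  | neg φ ih => exact ih.imp fun n H C D v w h => not_congr (H C D v w h)
  | and φ ψ ih ih' =>
    obtain ⟨n, H⟩ := ih
    obtain ⟨m, H'⟩ := ih'
    exact ⟨n + m, fun C D v w h => and_congr (H C D v w fun i hi => h i (by omega))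
      (H' C D v w fun i hi => h i (by omega))⟩
  | ex φ ih =>
    refine ih.imp fun n H C D v w h => exists_congr fun x => and_congr_right fun _ =>
      H C D _ _ fun i hi => ?_
    cases i with
    | zero => rfl
    | succ i => exact h i (by omega)

theorem wf3 : WellFounded fun y x : V => y ∈ (⋃₀ ⋃₀ ⋃₀ x : V) := by
  refine Subrelation.wf (r := InvImage (· < ·) rank) ?_ (InvImage.wf _ Ordinal.lt_wf)
  intro σ τ h
  exact (rank_lt_of_mem h).trans_le
    ((rank_sUnion_le _).trans ((rank_sUnion_le _).trans (rank_sUnion_le _)))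

theorem mem3_left (t a b : V) : a ∈ (⋃₀ ⋃₀ ⋃₀ pair t (pair a b) : V) :=
  left_mem_sUnion (y := b) (by simp [pair])

theorem mem3_right (t a b : V) : b ∈ (⋃₀ ⋃₀ ⋃₀ pair t (pair a b) : V) :=
  right_mem_sUnion (x := a) (by simp [pair])

/-- `c` is a triple. -/
def Shp (c : V) : Prop := c = pair (fst c) (pair (fst (snd c)) (snd (snd c)))

theorem shp_pair (t a b : V) : Shp (pair t (pair a b)) := by simp [Shp]

open Classical in
/-- Iterated tail, along a code. -/
noncomputable def drp (l : V) : V → V :=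
  wrec wf3 fun i g => if Shp i then tl (ap g (fst (snd i))) else l

/-- Entry of a list, along a code. -/
noncomputable def nth (l i : V) : V := fst (drp l i)

theorem drp_pair (l t a b : V) : drp l (pair t (pair a b)) = tl (drp l a) := by
  rw [drp, wrec_eq, if_pos (shp_pair _ _ _), snd_pair, fst_pair, ap_graph (mem3_left _ _ _)]

theorem exists_nth (i : V) : ∃ n, ∀ l, nth l i = env l n := by
  suffices ∃ n, ∀ l, drp l i = tl^[n] l from this.imp fun n h l => by rw [nth, env, h]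
  induction i using wf3.induction with
  | _ i ih =>
    by_cases h : Shp i
    · rw [h] at ih ⊢
      obtain ⟨n, hn⟩ := ih _ (mem3_left _ _ _)
      exact ⟨n + 1, fun l => by rw [drp_pair, hn, Function.iterate_succ_apply']⟩
    · exact ⟨0, fun l => by rw [drp, wrec_eq, if_neg h]; rfl⟩

theorem exists_idx (n : ℕ) : ∃ i ∈ Cd, ∀ l, nth l i = env l n := by
  suffices ∃ i ∈ Cd, ∀ l, drp l i = tl^[n] l from
    this.imp fun i h => ⟨h.1, fun l => by rw [nth, env, h.2]⟩
  induction n with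
  | zero => exact ⟨∅, empty_mem_Cd, fun l => by
      rw [drp, wrec_eq, if_neg fun h : Shp ∅ => pair_ne_empty2 _ _ (Eq.symm h)]; rfl⟩
  | succ n ih =>
    obtain ⟨i, hi, h⟩ := ih
    exact ⟨_, pair_mem_Cd empty_mem_Cd (pair_mem_Cd hi empty_mem_Cd), fun l => by
      rw [drp_pair, h, Function.iterate_succ_apply']⟩

/-- Tags. -/
noncomputable def tg : ℕ → V
  | 0 => ∅
  | n + 1 => pair ∅ (tg n)

theorem tg_mem : ∀ n, tg n ∈ Cd
  | 0 => empty_mem_Cd
  | n + 1 => pair_mem_Cd empty_mem_Cd (tg_mem n)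

theorem tg_inj : ∀ m n, tg m = tg n ↔ m = n
  | 0, 0 => by simp
  | 0, n + 1 => iff_of_false (pair_ne_empty2 _ _).symm (by omega)
  | m + 1, 0 => iff_of_false (pair_ne_empty2 _ _) (by omega)
  | m + 1, n + 1 => by simp [tg, tg_inj m n]

/-- The clauses of the truth definition. -/
def TrC (X A t a b Ta Tb l : V) : Prop :=
  (t = tg 0 ∧ nth l a ∈ nth l b) ∨ (t = tg 1 ∧ nth l a = nth l b) ∨ (t = tg 2 ∧ nth l a ∈ A) ∨
    (t = tg 3 ∧ ¬ (l ∈ Ta ∧ l ∈ Tb)) ∨ (t = tg 4 ∧ ∃ x ∈ X, pair x l ∈ Ta)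

/-- The lists that satisfy the formula with code `c` in `(X, ∈, A)`. -/
noncomputable def Tr (X A : V) : V → V :=
  wrec wf3 fun c g => ZFSet.sep (fun l => Shp c ∧ TrC X A (fst c) (fst (snd c)) (snd (snd c))
    (ap g (fst (snd c))) (ap g (snd (snd c))) l) (Lst (insert ∅ X))

theorem mem_Tr {X A t a b l : V} : l ∈ Tr X A (pair t (pair a b)) ↔
    l ∈ Lst (insert ∅ X) ∧ TrC X A t a b (Tr X A a) (Tr X A b) l := by
  rw [Tr, wrec_eq, mem_sep, snd_pair, fst_pair, fst_pair, snd_pair, ap_graph (mem3_left _ _ _),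
    ap_graph (mem3_right _ _ _), and_iff_right (shp_pair _ _ _)]

/-- `c` is a code of `φ`. -/
def Codes (c : V) (φ : Fml) : Prop :=
  ∀ X A l : V, l ∈ Tr X A c ↔ l ∈ Lst (insert ∅ X) ∧ Sat X A φ (env l)

theorem Codes.nand {a b : V} {φ ψ : Fml} (h : Codes a φ) (h' : Codes b ψ) :
    Codes (pair (tg 3) (pair a b)) (.neg (.and φ ψ)) := fun X A l => by
  rw [mem_Tr]
  exact and_congr_right fun hl => by simp [TrC, tg_inj, h X A l, h' X A l, hl, Sat]

theorem Codes.ex {a : V} {φ : Fml} (h : Codes a φ) (b : V) :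
    Codes (pair (tg 4) (pair a b)) (.ex φ) := fun X A l => by
  rw [mem_Tr]
  refine and_congr_right fun hl => ?_
  simp only [TrC, tg_inj, Sat, OfNat.ofNat_ne_zero, OfNat.ofNat_ne_one,
    Nat.succ_ne_self, false_and, false_or, true_and, Nat.reduceEqDiff]
  refine exists_congr fun x => and_congr_right fun hx => ?_
  rw [h, env_pair (Lst_ne hl), and_iff_right (pair_mem_Lst (mem_insert_of_mem _ hx) hl)]

theorem Codes.congr {a : V} {φ ψ : Fml} (h : Codes a φ)
    (e : ∀ C D v, Sat C D φ v ↔ Sat C D ψ v) : Codes a ψ := fun X A l => by rw [h, e]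

theorem exists_code_of (φ : Fml) : ∃ c ∈ Cd, Codes c φ := by
  induction φ with
  | mem i j =>
    obtain ⟨a, ha, h⟩ := exists_idx i
    obtain ⟨b, hb, h'⟩ := exists_idx j
    exact ⟨_, pair_mem_Cd (tg_mem 0) (pair_mem_Cd ha hb), fun X A l => by
      simp [mem_Tr, TrC, tg_inj, h, h', Sat]⟩
  | eq i j =>
    obtain ⟨a, ha, h⟩ := exists_idx i
    obtain ⟨b, hb, h'⟩ := exists_idx j
    exact ⟨_, pair_mem_Cd (tg_mem 1) (pair_mem_Cd ha hb), fun X A l => by
      simp [mem_Tr, TrC, tg_inj, h, h', Sat]⟩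
  | pred i =>
    obtain ⟨a, ha, h⟩ := exists_idx i
    exact ⟨_, pair_mem_Cd (tg_mem 2) (pair_mem_Cd ha ha), fun X A l => by
      simp [mem_Tr, TrC, tg_inj, h, Sat]⟩
  | neg φ ih =>
    obtain ⟨a, ha, h⟩ := ih
    exact ⟨_, pair_mem_Cd (tg_mem 3) (pair_mem_Cd ha ha),
      (h.nand h).congr fun _ _ _ => by simp [Sat]⟩
  | and φ ψ ih ih' =>
    obtain ⟨a, ha, h⟩ := ih
    obtain ⟨b, hb, h'⟩ := ih'
    have hc := pair_mem_Cd (tg_mem 3) (pair_mem_Cd ha hb)
    exact ⟨_, pair_mem_Cd (tg_mem 3) (pair_mem_Cd hc hc),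
      ((h.nand h').nand (h.nand h')).congr fun _ _ _ => by simp [Sat]⟩
  | ex φ ih =>
    obtain ⟨a, ha, h⟩ := ih
    exact ⟨_, pair_mem_Cd (tg_mem 4) (pair_mem_Cd ha ha), h.ex a⟩

theorem exists_fml (c : V) : ∃ φ, Codes c φ := by
  induction c using wf3.induction with
  | _ c ih =>
    by_cases h : Shp c
    · rw [h] at ih ⊢
      generalize fst (snd c) = a, snd (snd c) = b, fst c = t at ih ⊢
      obtain ⟨φ, hφ⟩ := ih _ (mem3_left _ _ _)
      obtain ⟨ψ, hψ⟩ := ih _ (mem3_right _ _ _)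
      obtain ⟨i, hi⟩ := exists_nth a
      obtain ⟨j, hj⟩ := exists_nth b
      by_cases h0 : t = tg 0
      · exact ⟨.mem i j, fun X A l => by simp [mem_Tr, TrC, h0, tg_inj, hi, hj, Sat]⟩
      by_cases h1 : t = tg 1
      · exact ⟨.eq i j, fun X A l => by simp [mem_Tr, TrC, h1, tg_inj, hi, hj, Sat]⟩
      by_cases h2 : t = tg 2
      · exact ⟨.pred i, fun X A l => by simp [mem_Tr, TrC, h2, tg_inj, hi, Sat]⟩
      by_cases h3 : t = tg 3
      · exact ⟨_, h3 ▸ hφ.nand hψ⟩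
      by_cases h4 : t = tg 4
      · exact ⟨_, h4 ▸ hφ.ex b⟩
      exact ⟨.neg (.eq 0 0), fun X A l => by simp [mem_Tr, TrC, h0, h1, h2, h3, h4, Sat]⟩
    · exact ⟨.neg (.eq 0 0), fun X A l => by rw [Tr, wrec_eq]; simp [h, Sat]⟩

theorem mem_Def {A X y : V} : y ∈ Def A X ↔ y ⊆ X ∧ ∃ (φ : Fml) (v : ℕ → V),
    (∀ i, v i ∈ X ∨ v i = ∅) ∧ ∀ z ∈ X, z ∈ y ↔ Sat X A φ (cons z v) := by
  rw [Def, mem_sep, mem_powerset]

/-- The subset of `X` defined by the code `c` with parameter list `l`. -/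
noncomputable def dv (A X c l : V) : V := ZFSet.sep (fun x => pair x l ∈ Tr X A c) X

theorem mem_Def_iff {A X y : V} :
    y ∈ Def A X ↔ ∃ c ∈ Cd, ∃ l ∈ Lst (insert ∅ X), dv A X c l = y := by
  rw [mem_Def]
  constructor
  · rintro ⟨hy, φ, v, hv, h⟩
    obtain ⟨c, hc, hφ⟩ := exists_code_of φ
    obtain ⟨n, hn⟩ := Sat_bound φ
    obtain ⟨l, hl, e⟩ := exists_lst (Y := insert ∅ X) n v fun i => mem_insert_iff.2 (hv i).symm
    refine ⟨c, hc, l, hl, ZFSet.ext fun z => ?_⟩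
    rw [dv, mem_sep, ← and_iff_right_of_imp (@hy z)]
    refine and_congr_right fun hz => ?_
    rw [hφ, and_iff_right (pair_mem_Lst (mem_insert_of_mem _ hz) hl), env_pair (Lst_ne hl), h z hz]
    refine hn _ _ _ _ fun i hi => ?_
    cases i with
    | zero => rfl
    | succ i => rw [cons_succ, cons_succ, e, min_eq_left (by omega)]
  · rintro ⟨c, -, l, hl, rfl⟩
    obtain ⟨φ, hφ⟩ := exists_fml c
    refine ⟨fun z hz => (mem_sep.1 hz).1, φ, env l,
      fun i => (mem_insert_iff.1 (env_mem hl i)).symm, fun z hz => ?_⟩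
    rw [dv, mem_sep, and_iff_right hz, hφ,
      and_iff_right (pair_mem_Lst (mem_insert_of_mem _ hz) hl), env_pair (Lst_ne hl)]

theorem mem_Lh (x A α z : V) : z ∈ Lh x A α ↔ z ∈ x ∨ ∃ β ∈ α, z ∈ Def A (Lh x A β) := by
  rw [Lh, WellFounded.fix_eq, mem_union, ZFSet.mem_iUnion]
  exact or_congr_right ⟨fun ⟨β, h⟩ => ⟨β.1, β.2, h⟩, fun ⟨β, hβ, h⟩ => ⟨⟨β, hβ⟩, h⟩⟩

section Terms

variable [hK : Cl K] [Countable Γ] (q r s t : Set V → (Γ → V) → V) [Tm K q] [Tm K r] [Tm K s]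
  [Tm K t]

omit [Countable Γ] in
instance tm_Cd : Tm K fun _ (_ : Γ → V) => Cd :=
  Tm.app1 (F := fun _ => stg fun s => insert ∅ (prod s s))
    (tm_wrec (pre := fun x => x) mem_wf fun _ _ g => ⋃₀ img (fun s => insert ∅ (prod s s)) (ran g)) _

omit [Countable Γ] in
instance tm_Lst : Tm K fun W v => Lst (s W v) :=
  Tm.app2 (F := fun _ Y => stg fun s => prod Y (insert ∅ s))
    (tm_wrec (pre := fun x => x) mem_wf fun (v : Unit → V) _ g =>
      ⋃₀ img (fun s => prod (v ()) (insert ∅ s)) (ran g)) s _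

instance tm_tl : Tm K fun W v => tl (s W v) := by unfold tl; infer_instance

instance env_env : Env K fun W v => env (s W v) :=
  ⟨fun i => by
    have : Tm K fun W v => tl^[i] (s W v) := by
      induction i with
      | zero => assumption
      | succ i ih => simp only [Function.iterate_succ_apply']; infer_instance
    unfold env; infer_instance⟩

instance df_Shp : Df K fun W v => Shp (s W v) := by unfold Shp; infer_instance

open Classical in
instance tm_nth : Tm K fun W v => nth (s W v) (t W v) :=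
  have : Tm K fun W v => drp (s W v) (t W v) :=
    Tm.app2 (F := fun _ => drp) (tm_wrec wf3 fun (v : Unit → V) i g =>
      if Shp i then tl (ap g (fst (snd i))) else v ()) s t
  by unfold nth; infer_instance

omit [Countable Γ] in
instance tm_tg : ∀ n, Tm K fun _ (_ : Γ → V) => tg n
  | 0 => tm_empty
  | n + 1 => have := tm_tg n; by unfold tg; infer_instance

instance df_TrC (a b c d : Set V → (Γ → V) → V) [Tm K a] [Tm K b] [Tm K c] [Tm K d] :
    Df K fun W v => TrC (q W v) (r W v) (s W v) (t W v) (a W v) (b W v) (c W v) (d W v) := by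
  unfold TrC; infer_instance

omit [Countable Γ] in
instance tm_Tr : Tm K fun W v => Tr (r W v) (s W v) (t W v) :=
  Tm.app3 (F := fun _ => Tr) (tm_wrec wf3 fun (v : Bool → V) c g =>
    ZFSet.sep (fun l => Shp c ∧ TrC (v false) (v true) (fst c) (fst (snd c)) (snd (snd c))
      (ap g (fst (snd c))) (ap g (snd (snd c))) l) (Lst (insert ∅ (v false)))) r s t

instance tm_dv : Tm K fun W v => dv (q W v) (r W v) (s W v) (t W v) := by
  unfold dv; infer_instance

instance tm_Def : Tm K fun W v => Def (s W v) (t W v) :=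
  Tm.of_eq (t := fun W v => img (fun z => dv (s W v) (t W v) (fst z) (snd z))
    (prod Cd (Lst (insert ∅ (t W v))))) fun _ _ _ _ => by
      ext y
      simp only [mem_Def_iff, mem_img, mem_prod]
      exact ⟨fun ⟨c, hc, l, hl, e⟩ => ⟨_, ⟨c, hc, l, hl, rfl⟩, by simpa using e⟩,
        fun ⟨_, ⟨c, hc, l, hl, rfl⟩, e⟩ => ⟨c, hc, l, hl, by simpa using e⟩⟩

omit [Countable Γ] in
instance tm_Lh : Tm K fun W v => Lh (r W v) (s W v) (t W v) :=
  Tm.app3 (F := fun _ => Lh) (Tm.recur (fun _ (v : Bool → V) => Lh (v false) (v true))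
    (fun _ _ α => α) (fun _ v _ g => v false ∪ ⋃₀ img (Def (v true)) (ran g))
    (fun _ _ _ _ => Subrelation.wf (fun h => h.2) mem_wf) fun _ _ v _ α _ => by
      ext z
      rw [mem_Lh, ran_graph]
      simp only [mem_union, mem_sUnion, mem_img]
      exact or_congr_right ⟨fun ⟨β, hβ, h⟩ => ⟨_, ⟨_, ⟨β, hβ, rfl⟩, rfl⟩, h⟩,
        fun ⟨_, ⟨_, ⟨β, hβ, rfl⟩, rfl⟩, h⟩ => ⟨β, hβ, h⟩⟩) r s t

end Terms

theorem lh_mem {K : Set V} (hK : ZFm K ∅) {x A α : V} (hx : x ∈ K) (hA : A ∈ K) (hα : α ∈ K) :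
    Lh x A α ∈ K :=
  tm3 (K := ZF) (t := fun _ x A α => Lh x A α) hK hx hA hα

end Pool.Agent.Lib.MP_329f2d_lc
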