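import Pool.Agent.Lib.MP_329f2d_lc.H58Rec
import Pool.Agent.Lib.MP_329f2d_lc.H59Defs2

/-!
Natural numbers, recursion on rank, iteration, transitive closure, rank, values of names,
transfer along elementary maps, and choice.
-/

open ZFSet

namespace Pool.Agent.Lib.MP_329f2d_lc

variable {K : Set V → Prop} {Γ Δ : Type} {W A : Set V}

/-- The finite von Neumann ordinals. -/
noncomputable def nat (k : ℕ) : V := ZFSet.mk (PSet.ofNat k)

theorem nat_zero : nat 0 = ∅ := rfl

theorem nat_succ (k : ℕ) : nat (k + 1) = insert (nat k) (nat k) := rfl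

theorem mem_nat {y : V} {k : ℕ} : y ∈ nat k ↔ ∃ j, j < k ∧ y = nat j := by
  induction k with
  | zero => simp [nat_zero]
  | succ k ih =>
    rw [nat_succ, mem_insert_iff, ih]
    constructor
    · rintro (h | ⟨j, hj, h⟩)
      exacts [⟨k, Nat.lt_succ_self k, h⟩, ⟨j, Nat.lt_succ_of_lt hj, h⟩]
    · rintro ⟨j, hj, h⟩
      rcases Nat.lt_succ_iff_lt_or_eq.mp hj with h' | h'
      exacts [Or.inr ⟨j, h', h⟩, Or.inl (h' ▸ h)]

@[simp] theorem nat_inj {j k : ℕ} : nat j = nat k ↔ j = k := by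
  refine ⟨fun h => ?_, congrArg nat⟩
  rcases lt_trichotomy j k with h' | h' | h'
  · have : nat j ∈ nat k := mem_nat.mpr ⟨j, h', rfl⟩
    exact absurd (h ▸ this) (mem_irrefl _)
  · exact h'
  · have : nat k ∈ nat j := mem_nat.mpr ⟨k, h', rfl⟩
    exact absurd (h ▸ this) (mem_irrefl _)

@[simp] theorem nat_mem_nat {j k : ℕ} : nat j ∈ nat k ↔ j < k :=
  mem_nat.trans ⟨fun ⟨_, h, e⟩ => nat_inj.1 e ▸ h, fun h => ⟨j, h, rfl⟩⟩

theorem mem_omega {y : V} : y ∈ omega ↔ ∃ k, y = nat k := by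
  induction y using Quotient.inductionOn with
  | h y =>
    change ZFSet.mk y ∈ ZFSet.mk PSet.omega ↔ _
    rw [mk_mem_iff]
    exact ⟨fun ⟨⟨k⟩, hk⟩ => ⟨k, ZFSet.sound hk⟩, fun ⟨k, hk⟩ => ⟨⟨k⟩, ZFSet.exact hk⟩⟩

@[simp] theorem nat_mem_omega (k : ℕ) : nat k ∈ omega := mem_omega.2 ⟨k, rfl⟩

theorem forall_omega {P : V → Prop} : (∀ n ∈ omega, P n) ↔ ∀ k, P (nat k) :=
  ⟨fun h k => h _ (nat_mem_omega k), fun h _ hn => by obtain ⟨k, rfl⟩ := mem_omega.1 hn; exact h k⟩

theorem exists_omega {P : V → Prop} : (∃ n ∈ omega, P n) ↔ ∃ k, P (nat k) :=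
  ⟨fun ⟨_, hn, h⟩ => by obtain ⟨k, rfl⟩ := mem_omega.1 hn; exact ⟨k, h⟩,
    fun ⟨k, h⟩ => ⟨_, nat_mem_omega k, h⟩⟩

theorem isOrdinal_nat : ∀ k, IsOrdinal (nat k)
  | 0 => isOrdinal_empty
  | k + 1 => isOrdinal_succ (isOrdinal_nat k)

theorem isOrdinal_omega : IsOrdinal (omega : V) :=
  isOrdinal_iff_forall_mem_isOrdinal.2 ⟨fun x hx y h => by
    obtain ⟨k, rfl⟩ := mem_omega.1 hx
    obtain ⟨j, _, rfl⟩ := mem_nat.1 h; simp, forall_omega.2 isOrdinal_nat⟩

theorem sUnion_succ {x : V} (h : IsTransitive x) : ⋃₀ (insert x x) = x := by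
  ext z
  simp only [mem_sUnion, mem_insert_iff]
  exact ⟨fun ⟨y, hy, hz⟩ => hy.elim (fun e => e ▸ hz) fun hy => h y hy hz, fun hz => ⟨x, .inl rfl, hz⟩⟩

@[simp] theorem sUnion_nat_succ (k : ℕ) : ⋃₀ (nat (k + 1)) = nat k :=
  sUnion_succ (isOrdinal_nat k).isTransitive

theorem nat_succ_ne (k : ℕ) : nat (k + 1) ≠ ∅ := fun h => by
  simpa using nat_inj.1 (h.trans nat_zero.symm)

theorem empty_mem_of_ord {w : V} (h : IsOrdinal w) (h0 : w ≠ ∅) : ∅ ∈ w :=
  (isOrdinal_empty.mem_or_subset h).resolve_right fun h' => h0 (by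
    ext z; exact iff_of_false (fun hz => notMem_empty _ (h' hz)) (notMem_empty _))

theorem succ_mem_of_ord {w n m : V} (h : IsOrdinal w) (hm : m ∈ w) (hn : n ∈ m) : insert n n ∈ w :=
  (isOrdinal_succ ((h.mem hm).mem hn)).mem_of_subset_of_mem h (fun z hz => by
    rcases mem_insert_iff.1 hz with rfl | hz
    exacts [hn, (h.mem hm).mem_trans hz hn]) hm

/-- A bounded description of `ω`. -/
def IsOm (w : V) : Prop :=
  IsOrdinal w ∧ (∃ n, n ∈ w) ∧ (∀ n ∈ w, ∃ m ∈ w, n ∈ m) ∧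
    ∀ n ∈ w, (∀ z, z ∉ n) ∨ ∃ m ∈ n, ∀ z ∈ n, z = m ∨ z ∈ m

theorem isOm_iff {w : V} : IsOm w ↔ w = omega := by
  constructor
  · rintro ⟨h1, ⟨n, hn⟩, h3, h4⟩
    ext x
    constructor
    · induction x using ZFSet.inductionOn with
      | _ x ih =>
        intro hx
        rcases h4 x hx with h | ⟨m, hm, h⟩
        · rw [(eq_empty x).2 h]; exact omega_zero
        · convert omega_succ (ih m hm (h1.mem_trans hm hx))
          ext z
          rw [mem_insert_iff]
          exact ⟨h z, fun hz => hz.elim (fun e => e ▸ hm) fun hz => (h1.mem hx).mem_trans hz hm⟩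
    · revert x
      refine forall_omega.2 fun k => ?_
      induction k with
      | zero => exact empty_mem_of_ord h1 fun e => notMem_empty n (e ▸ hn)
      | succ k ih => obtain ⟨m, hm, h⟩ := h3 _ ih; exact succ_mem_of_ord h1 hm h
  · rintro rfl
    refine ⟨isOrdinal_omega, ⟨_, omega_zero⟩, fun n hn => ⟨_, omega_succ hn, mem_insert _ _⟩,
      forall_omega.2 ?_⟩
    rintro (_ | k)
    exacts [.inl notMem_empty, .inr ⟨nat k, by simp, fun z hz => mem_insert_iff.1 hz⟩]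

instance df_IsOm [ClT K] (s : Set V → (Γ → V) → V) [Tm K s] : Df K fun W v => IsOm (s W v) := by
  unfold IsOm; infer_instance

/-- Recursion on rank. -/
noncomputable def rrec (pre : V → V) (step : V → V → V) : V → V :=
  (InvImage.wf rank Ordinal.lt_wf).fix fun x ih =>
    step x (range fun y : {y : pre x // rank y.1 < rank x} => pair y.1.1 (ih y.1.1 y.2))

theorem rrec_eq {pre : V → V} {step : V → V → V} {x : V} (h : ∀ y ∈ pre x, rank y < rank x) :
    rrec pre step x = step x (graph (rrec pre step) (pre x)) := by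
  rw [rrec, WellFounded.fix_eq]
  congr 1
  ext z
  rw [mem_range, mem_graph]
  exact ⟨fun ⟨y, e⟩ => ⟨y.1.1, y.1.2, e⟩, fun ⟨y, hy, e⟩ => ⟨⟨⟨y, hy⟩, h y hy⟩, e⟩⟩

open Classical in
/-- Iteration along `ω`. -/
noncomputable def itr (f : V → V) (a : V) : V → V :=
  rrec id fun n g => if n = ∅ then a else f (ap g (⋃₀ n))

@[simp] theorem itr_nat (f : V → V) (a : V) (k : ℕ) : itr f a (nat k) = f^[k] a := by
  induction k with
  | zero => rw [itr, rrec_eq fun _ => rank_lt_of_mem]; simp [nat_zero]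
  | succ k ih =>
    rw [itr, rrec_eq fun _ => rank_lt_of_mem, if_neg (nat_succ_ne k), sUnion_nat_succ,
      ap_graph (by simp), Function.iterate_succ_apply']
    exact congrArg f ih

/-- The union of all finite iterates. -/
noncomputable def clo (f : V → V) (a : V) : V := ⋃₀ img (itr f a) omega

theorem mem_clo {f : V → V} {a x : V} : x ∈ clo f a ↔ ∃ k, x ∈ f^[k] a := by
  simp only [clo, mem_sUnion, mem_img]
  exact ⟨fun ⟨_, ⟨_, hn, e⟩, h⟩ => by obtain ⟨k, rfl⟩ := mem_omega.1 hn; exact ⟨k, by simpa [← e] using h⟩,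
    fun ⟨k, h⟩ => ⟨_, ⟨_, nat_mem_omega k, itr_nat f a k⟩, h⟩⟩

/-- The transitive closure. -/
noncomputable def tc (x : V) : V := clo sUnion x

theorem subset_tc (x : V) : x ⊆ tc x := fun _ h => mem_clo.2 ⟨0, h⟩

theorem tc_trans (x : V) : IsTransitive (tc x) := fun y hy z hz => by
  obtain ⟨k, hk⟩ := mem_clo.1 hy
  exact mem_clo.2 ⟨k + 1, by rw [Function.iterate_succ_apply']; exact mem_sUnion.2 ⟨y, hk, hz⟩⟩

theorem tc_induction {x : V} {P : V → Prop} (h0 : ∀ y ∈ x, P y) (h1 : ∀ y, P y → ∀ z ∈ y, P z) :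
    ∀ y ∈ tc x, P y := by
  intro y hy
  obtain ⟨k, hk⟩ := mem_clo.1 hy
  induction k generalizing y with
  | zero => exact h0 y hk
  | succ k ih =>
    rw [Function.iterate_succ_apply'] at hk
    obtain ⟨u, hu, hk⟩ := mem_sUnion.1 hk
    exact h1 u (ih u (mem_clo.2 ⟨k, hu⟩) hu) y hk

theorem tc_subset {x t : V} (ht : IsTransitive t) (h : x ⊆ t) : tc x ⊆ t := fun y hy =>
  tc_induction (P := (· ∈ t)) (fun _ hy => h hy) (fun y hy _ hz => ht y hy hz) y hy

theorem rank_lt_of_mem_tc {x : V} : ∀ y ∈ tc x, rank y < rank x :=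
  tc_induction (fun _ => rank_lt_of_mem) fun _ h _ hz => (rank_lt_of_mem hz).trans h

theorem rk_eq (x : V) : rk x = ⋃₀ img (fun y => insert (rk y) (rk y)) x := by
  ext z
  simp only [rk, mem_sUnion, mem_img, ← Ordinal.toZFSet_add_one, Ordinal.mem_toZFSet_iff]
  constructor
  · rintro ⟨a, ha, rfl⟩
    obtain ⟨y, hy, h⟩ := lt_rank_iff.1 ha
    exact ⟨_, ⟨y, hy, rfl⟩, Ordinal.mem_toZFSet_iff.2 ⟨a, Order.lt_add_one_iff.2 h, rfl⟩⟩
  · rintro ⟨_, ⟨y, hy, rfl⟩, h⟩
    obtain ⟨a, ha, rfl⟩ := Ordinal.mem_toZFSet_iff.1 h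
    exact ⟨a, (Order.lt_add_one_iff.1 ha).trans_lt (rank_lt_of_mem hy), rfl⟩

theorem isOrdinal_rk (x : V) : IsOrdinal (rk x) := isOrdinal_toZFSet _

@[simp] theorem rank_rk (x : V) : rank (rk x) = rank x := Ordinal.rank_toZFSet _

theorem rk_mem_iff {x ρ : V} (h : IsOrdinal ρ) : rk x ∈ ρ ↔ rank x < rank ρ := by
  rw [← (isOrdinal_rk x).rank_lt_iff_mem h, rank_rk]

theorem mem_val (G τ x : V) : x ∈ val G τ ↔ ∃ σ p, p ∈ G ∧ pair σ p ∈ τ ∧ x = val G σ := by
  rw [val, WellFounded.fix_eq, mem_range]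
  exact ⟨fun ⟨⟨σ, p, hp, h⟩, e⟩ => ⟨σ.1, p, hp, h, e.symm⟩,
    fun ⟨σ, p, hp, h, e⟩ => ⟨⟨⟨σ, left_mem_sUnion h⟩, p, hp, h⟩, e.symm⟩⟩

theorem mem_ExtV {M G x : V} : x ∈ ExtV M G ↔ ∃ τ ∈ M, val G τ = x := by simp [ExtV]

theorem coe_ExtV (M G : V) : (ExtV M G : Set V) = Ext M G := Set.ext fun _ => mem_ExtV

/-- Transfer of a definable predicate along an elementary map. -/
theorem PE.iff [Countable Γ] (P : Set V → (Γ → V) → Prop) [h : Df K P] {M N : Set V}
    {m : V → V → Prop} (hm : PE M N m) (hM : K M) (hN : K N) (hd : ∀ x y, m x y → x ∈ M ∧ y ∈ N)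
    {a b : V} (hab : m a b) {v w : Γ → V} (hvw : ∀ i, m (v i) (w i)) : P M v ↔ P N w := by
  obtain ⟨e, he⟩ := exists_injective_nat Γ
  obtain ⟨φ, hφ⟩ := h.ex e
  have key : ∀ n, m (Function.extend e v (fun _ => a) n) (Function.extend e w (fun _ => b) n) := by
    intro n
    by_cases hn : ∃ i, e i = n
    · obtain ⟨i, rfl⟩ := hn
      rw [he.extend_apply, he.extend_apply]; exact hvw i
    · rw [Function.extend_apply' _ _ _ hn, Function.extend_apply' _ _ _ hn]; exact hab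
  have h1 := hφ M hM _ fun n => (hd _ _ (key n)).1
  have h2 := hφ N hN _ fun n => (hd _ _ (key n)).2
  simp only [he.extend_apply] at h1 h2
  exact h1.trans ((hm φ _ _ key).trans h2.symm)

theorem cons_rel {m : V → V → Prop} {a b : V} {v w : ℕ → V} (h : m a b) (h' : ∀ i, m (v i) (w i)) :
    ∀ i, m (cons a v i) (cons b w i)
  | 0 => h
  | n + 1 => h' n

theorem PE.uniq {M N : Set V} {m : V → V → Prop} (h : PE M N m) {x x' y y' : V} (h1 : m x y)
    (h2 : m x' y') : x = x' ↔ y = y' :=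
  h (.eq 0 1) (cons x fun _ => x') (cons y fun _ => y') (cons_rel h1 fun _ => h2)

theorem PE.mem_iff {M N : Set V} {m : V → V → Prop} (h : PE M N m) {x x' y y' : V} (h1 : m x y)
    (h2 : m x' y') : x ∈ x' ↔ y ∈ y' :=
  h (.mem 0 1) (cons x fun _ => x') (cons y fun _ => y') (cons_rel h1 fun _ => h2)

/-- A total elementary map commutes with definable terms. -/
theorem Emb.tm [Countable Γ] (t : Set V → (Γ → V) → V) [h : Tm K t] {M N : Set V}
    {m : V → V → Prop} (hm : Emb M N m) (hM : K M) (hN : K N)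
    {v w : Γ → V} (hvw : ∀ i, m (v i) (w i)) : m (t M v) (t N w) := by
  obtain ⟨y, hy⟩ := hm.total _ (h.mem M hM v fun i => (hm.dom _ _ (hvw i)).1)
  have := h.df
  have := (PE.iff (K := K) (fun W (v : Option Γ → V) => v none = t W fun i => v (some i)) hm.pe hM hN
    hm.dom hy (v := fun o => o.elim (t M v) v) (w := fun o => o.elim y w)
    (by rintro (_ | i); exacts [hy, hvw i])).1 rfl
  exact (show y = t N w from this) ▸ hy

section Nary

set_option linter.unusedVariables false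

variable {M N : Set V} {m : V → V → Prop}

theorem pe0 (P : Set V → Prop) [Df K fun W (v : ℕ → V) => P W] (hm : PE M N m)
    (hM : K M) (hN : K N) (hD : ∀ x y, m x y → x ∈ M ∧ y ∈ N) {a a' : V} (ha : m a a') :
    P M ↔ P N :=
  PE.iff (K := K) (fun W (v : ℕ → V) => P W) hm hM hN hD ha
    (v := fun _ => a) (w := fun _ => a') (fun _ => ha)

theorem emb0 (t : Set V → V) [Tm K fun W (v : ℕ → V) => t W] (hm : Emb M N m)
    (hM : K M) (hN : K N) {a a' : V} (ha : m a a') : m (t M) (t N) :=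
  Emb.tm (K := K) (fun W (v : ℕ → V) => t W) hm hM hN
    (v := fun _ => a) (w := fun _ => a') (fun _ => ha)

theorem pe1 (P : Set V → V → Prop) [Df K fun W (v : ℕ → V) => P W (v 0)] (hm : PE M N m)
    (hM : K M) (hN : K N) (hD : ∀ x y, m x y → x ∈ M ∧ y ∈ N) {a a' : V} (ha : m a a') :
    P M a ↔ P N a' :=
  PE.iff (K := K) (fun W (v : ℕ → V) => P W (v 0)) hm hM hN hD ha
    (v := cons a (fun _ => a)) (w := cons a' (fun _ => a')) (cons_rel ha (fun _ => ha))

theorem emb1 (t : Set V → V → V) [Tm K fun W (v : ℕ → V) => t W (v 0)] (hm : Emb M N m)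
    (hM : K M) (hN : K N) {a a' : V} (ha : m a a') : m (t M a) (t N a') :=
  Emb.tm (K := K) (fun W (v : ℕ → V) => t W (v 0)) hm hM hN
    (v := cons a (fun _ => a)) (w := cons a' (fun _ => a')) (cons_rel ha (fun _ => ha))

theorem pe2 (P : Set V → V → V → Prop) [Df K fun W (v : ℕ → V) => P W (v 0) (v 1)] (hm : PE M N m)
    (hM : K M) (hN : K N) (hD : ∀ x y, m x y → x ∈ M ∧ y ∈ N) {a a' b b' : V} (ha : m a a') (hb : m b b') :
    P M a b ↔ P N a' b' :=
  PE.iff (K := K) (fun W (v : ℕ → V) => P W (v 0) (v 1)) hm hM hN hD ha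
    (v := cons a (cons b (fun _ => a))) (w := cons a' (cons b' (fun _ => a'))) (cons_rel ha (cons_rel hb (fun _ => ha)))

theorem emb2 (t : Set V → V → V → V) [Tm K fun W (v : ℕ → V) => t W (v 0) (v 1)] (hm : Emb M N m)
    (hM : K M) (hN : K N) {a a' b b' : V} (ha : m a a') (hb : m b b') : m (t M a b) (t N a' b') :=
  Emb.tm (K := K) (fun W (v : ℕ → V) => t W (v 0) (v 1)) hm hM hN
    (v := cons a (cons b (fun _ => a))) (w := cons a' (cons b' (fun _ => a'))) (cons_rel ha (cons_rel hb (fun _ => ha)))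

theorem pe3 (P : Set V → V → V → V → Prop) [Df K fun W (v : ℕ → V) => P W (v 0) (v 1) (v 2)] (hm : PE M N m)
    (hM : K M) (hN : K N) (hD : ∀ x y, m x y → x ∈ M ∧ y ∈ N) {a a' b b' c c' : V} (ha : m a a') (hb : m b b') (hc : m c c') :
    P M a b c ↔ P N a' b' c' :=
  PE.iff (K := K) (fun W (v : ℕ → V) => P W (v 0) (v 1) (v 2)) hm hM hN hD ha
    (v := cons a (cons b (cons c (fun _ => a)))) (w := cons a' (cons b' (cons c' (fun _ => a')))) (cons_rel ha (cons_rel hb (cons_rel hc (fun _ => ha))))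

theorem emb3 (t : Set V → V → V → V → V) [Tm K fun W (v : ℕ → V) => t W (v 0) (v 1) (v 2)] (hm : Emb M N m)
    (hM : K M) (hN : K N) {a a' b b' c c' : V} (ha : m a a') (hb : m b b') (hc : m c c') : m (t M a b c) (t N a' b' c') :=
  Emb.tm (K := K) (fun W (v : ℕ → V) => t W (v 0) (v 1) (v 2)) hm hM hN
    (v := cons a (cons b (cons c (fun _ => a)))) (w := cons a' (cons b' (cons c' (fun _ => a')))) (cons_rel ha (cons_rel hb (cons_rel hc (fun _ => ha))))

theorem pe4 (P : Set V → V → V → V → V → Prop) [Df K fun W (v : ℕ → V) => P W (v 0) (v 1) (v 2) (v 3)] (hm : PE M N m)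
    (hM : K M) (hN : K N) (hD : ∀ x y, m x y → x ∈ M ∧ y ∈ N) {a a' b b' c c' d d' : V} (ha : m a a') (hb : m b b') (hc : m c c') (hd : m d d') :
    P M a b c d ↔ P N a' b' c' d' :=
  PE.iff (K := K) (fun W (v : ℕ → V) => P W (v 0) (v 1) (v 2) (v 3)) hm hM hN hD ha
    (v := cons a (cons b (cons c (cons d (fun _ => a))))) (w := cons a' (cons b' (cons c' (cons d' (fun _ => a'))))) (cons_rel ha (cons_rel hb (cons_rel hc (cons_rel hd (fun _ => ha)))))

theorem emb4 (t : Set V → V → V → V → V → V) [Tm K fun W (v : ℕ → V) => t W (v 0) (v 1) (v 2) (v 3)] (hm : Emb M N m)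
    (hM : K M) (hN : K N) {a a' b b' c c' d d' : V} (ha : m a a') (hb : m b b') (hc : m c c') (hd : m d d') : m (t M a b c d) (t N a' b' c' d') :=
  Emb.tm (K := K) (fun W (v : ℕ → V) => t W (v 0) (v 1) (v 2) (v 3)) hm hM hN
    (v := cons a (cons b (cons c (cons d (fun _ => a))))) (w := cons a' (cons b' (cons c' (cons d' (fun _ => a'))))) (cons_rel ha (cons_rel hb (cons_rel hc (cons_rel hd (fun _ => ha)))))

theorem pe5 (P : Set V → V → V → V → V → V → Prop) [Df K fun W (v : ℕ → V) => P W (v 0) (v 1) (v 2) (v 3) (v 4)] (hm : PE M N m)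
    (hM : K M) (hN : K N) (hD : ∀ x y, m x y → x ∈ M ∧ y ∈ N) {a a' b b' c c' d d' e e' : V} (ha : m a a') (hb : m b b') (hc : m c c') (hd : m d d') (he : m e e') :
    P M a b c d e ↔ P N a' b' c' d' e' :=
  PE.iff (K := K) (fun W (v : ℕ → V) => P W (v 0) (v 1) (v 2) (v 3) (v 4)) hm hM hN hD ha
    (v := cons a (cons b (cons c (cons d (cons e (fun _ => a)))))) (w := cons a' (cons b' (cons c' (cons d' (cons e' (fun _ => a')))))) (cons_rel ha (cons_rel hb (cons_rel hc (cons_rel hd (cons_rel he (fun _ => ha))))))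

theorem emb5 (t : Set V → V → V → V → V → V → V) [Tm K fun W (v : ℕ → V) => t W (v 0) (v 1) (v 2) (v 3) (v 4)] (hm : Emb M N m)
    (hM : K M) (hN : K N) {a a' b b' c c' d d' e e' : V} (ha : m a a') (hb : m b b') (hc : m c c') (hd : m d d') (he : m e e') : m (t M a b c d e) (t N a' b' c' d' e') :=
  Emb.tm (K := K) (fun W (v : ℕ → V) => t W (v 0) (v 1) (v 2) (v 3) (v 4)) hm hM hN
    (v := cons a (cons b (cons c (cons d (cons e (fun _ => a)))))) (w := cons a' (cons b' (cons c' (cons d' (cons e' (fun _ => a')))))) (cons_rel ha (cons_rel hb (cons_rel hc (cons_rel hd (cons_rel he (fun _ => ha))))))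

theorem pe6 (P : Set V → V → V → V → V → V → V → Prop) [Df K fun W (v : ℕ → V) => P W (v 0) (v 1) (v 2) (v 3) (v 4) (v 5)] (hm : PE M N m)
    (hM : K M) (hN : K N) (hD : ∀ x y, m x y → x ∈ M ∧ y ∈ N) {a a' b b' c c' d d' e e' f f' : V} (ha : m a a') (hb : m b b') (hc : m c c') (hd : m d d') (he : m e e') (hf : m f f') :
    P M a b c d e f ↔ P N a' b' c' d' e' f' :=
  PE.iff (K := K) (fun W (v : ℕ → V) => P W (v 0) (v 1) (v 2) (v 3) (v 4) (v 5)) hm hM hN hD ha
    (v := cons a (cons b (cons c (cons d (cons e (cons f (fun _ => a))))))) (w := cons a' (cons b' (cons c' (cons d' (cons e' (cons f' (fun _ => a'))))))) (cons_rel ha (cons_rel hb (cons_rel hc (cons_rel hd (cons_rel he (cons_rel hf (fun _ => ha)))))))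

theorem emb6 (t : Set V → V → V → V → V → V → V → V) [Tm K fun W (v : ℕ → V) => t W (v 0) (v 1) (v 2) (v 3) (v 4) (v 5)] (hm : Emb M N m)
    (hM : K M) (hN : K N) {a a' b b' c c' d d' e e' f f' : V} (ha : m a a') (hb : m b b') (hc : m c c') (hd : m d d') (he : m e e') (hf : m f f') : m (t M a b c d e f) (t N a' b' c' d' e' f') :=
  Emb.tm (K := K) (fun W (v : ℕ → V) => t W (v 0) (v 1) (v 2) (v 3) (v 4) (v 5)) hm hM hN
    (v := cons a (cons b (cons c (cons d (cons e (cons f (fun _ => a))))))) (w := cons a' (cons b' (cons c' (cons d' (cons e' (cons f' (fun _ => a'))))))) (cons_rel ha (cons_rel hb (cons_rel hc (cons_rel hd (cons_rel he (cons_rel hf (fun _ => ha)))))))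

theorem pe7 (P : Set V → V → V → V → V → V → V → V → Prop) [Df K fun W (v : ℕ → V) => P W (v 0) (v 1) (v 2) (v 3) (v 4) (v 5) (v 6)] (hm : PE M N m)
    (hM : K M) (hN : K N) (hD : ∀ x y, m x y → x ∈ M ∧ y ∈ N) {a a' b b' c c' d d' e e' f f' g g' : V} (ha : m a a') (hb : m b b') (hc : m c c') (hd : m d d') (he : m e e') (hf : m f f') (hg : m g g') :
    P M a b c d e f g ↔ P N a' b' c' d' e' f' g' :=
  PE.iff (K := K) (fun W (v : ℕ → V) => P W (v 0) (v 1) (v 2) (v 3) (v 4) (v 5) (v 6)) hm hM hN hD ha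
    (v := cons a (cons b (cons c (cons d (cons e (cons f (cons g (fun _ => a)))))))) (w := cons a' (cons b' (cons c' (cons d' (cons e' (cons f' (cons g' (fun _ => a')))))))) (cons_rel ha (cons_rel hb (cons_rel hc (cons_rel hd (cons_rel he (cons_rel hf (cons_rel hg (fun _ => ha))))))))

theorem emb7 (t : Set V → V → V → V → V → V → V → V → V) [Tm K fun W (v : ℕ → V) => t W (v 0) (v 1) (v 2) (v 3) (v 4) (v 5) (v 6)] (hm : Emb M N m)
    (hM : K M) (hN : K N) {a a' b b' c c' d d' e e' f f' g g' : V} (ha : m a a') (hb : m b b') (hc : m c c') (hd : m d d') (he : m e e') (hf : m f f') (hg : m g g') : m (t M a b c d e f g) (t N a' b' c' d' e' f' g') :=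
  Emb.tm (K := K) (fun W (v : ℕ → V) => t W (v 0) (v 1) (v 2) (v 3) (v 4) (v 5) (v 6)) hm hM hN
    (v := cons a (cons b (cons c (cons d (cons e (cons f (cons g (fun _ => a)))))))) (w := cons a' (cons b' (cons c' (cons d' (cons e' (cons f' (cons g' (fun _ => a')))))))) (cons_rel ha (cons_rel hb (cons_rel hc (cons_rel hd (cons_rel he (cons_rel hf (cons_rel hg (fun _ => ha))))))))

theorem pe8 (P : Set V → V → V → V → V → V → V → V → V → Prop) [Df K fun W (v : ℕ → V) => P W (v 0) (v 1) (v 2) (v 3) (v 4) (v 5) (v 6) (v 7)] (hm : PE M N m)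
    (hM : K M) (hN : K N) (hD : ∀ x y, m x y → x ∈ M ∧ y ∈ N) {a a' b b' c c' d d' e e' f f' g g' i i' : V} (ha : m a a') (hb : m b b') (hc : m c c') (hd : m d d') (he : m e e') (hf : m f f') (hg : m g g') (hi : m i i') :
    P M a b c d e f g i ↔ P N a' b' c' d' e' f' g' i' :=
  PE.iff (K := K) (fun W (v : ℕ → V) => P W (v 0) (v 1) (v 2) (v 3) (v 4) (v 5) (v 6) (v 7)) hm hM hN hD ha
    (v := cons a (cons b (cons c (cons d (cons e (cons f (cons g (cons i (fun _ => a))))))))) (w := cons a' (cons b' (cons c' (cons d' (cons e' (cons f' (cons g' (cons i' (fun _ => a'))))))))) (cons_rel ha (cons_rel hb (cons_rel hc (cons_rel hd (cons_rel he (cons_rel hf (cons_rel hg (cons_rel hi (fun _ => ha)))))))))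

theorem emb8 (t : Set V → V → V → V → V → V → V → V → V → V) [Tm K fun W (v : ℕ → V) => t W (v 0) (v 1) (v 2) (v 3) (v 4) (v 5) (v 6) (v 7)] (hm : Emb M N m)
    (hM : K M) (hN : K N) {a a' b b' c c' d d' e e' f f' g g' i i' : V} (ha : m a a') (hb : m b b') (hc : m c c') (hd : m d d') (he : m e e') (hf : m f f') (hg : m g g') (hi : m i i') : m (t M a b c d e f g i) (t N a' b' c' d' e' f' g' i') :=
  Emb.tm (K := K) (fun W (v : ℕ → V) => t W (v 0) (v 1) (v 2) (v 3) (v 4) (v 5) (v 6) (v 7)) hm hM hN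
    (v := cons a (cons b (cons c (cons d (cons e (cons f (cons g (cons i (fun _ => a))))))))) (w := cons a' (cons b' (cons c' (cons d' (cons e' (cons f' (cons g' (cons i' (fun _ => a'))))))))) (cons_rel ha (cons_rel hb (cons_rel hc (cons_rel hd (cons_rel he (cons_rel hf (cons_rel hg (cons_rel hi (fun _ => ha)))))))))

theorem pe9 (P : Set V → V → V → V → V → V → V → V → V → V → Prop) [Df K fun W (v : ℕ → V) => P W (v 0) (v 1) (v 2) (v 3) (v 4) (v 5) (v 6) (v 7) (v 8)] (hm : PE M N m)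
    (hM : K M) (hN : K N) (hD : ∀ x y, m x y → x ∈ M ∧ y ∈ N) {a a' b b' c c' d d' e e' f f' g g' i i' j j' : V} (ha : m a a') (hb : m b b') (hc : m c c') (hd : m d d') (he : m e e') (hf : m f f') (hg : m g g') (hi : m i i') (hj : m j j') :
    P M a b c d e f g i j ↔ P N a' b' c' d' e' f' g' i' j' :=
  PE.iff (K := K) (fun W (v : ℕ → V) => P W (v 0) (v 1) (v 2) (v 3) (v 4) (v 5) (v 6) (v 7) (v 8)) hm hM hN hD ha
    (v := cons a (cons b (cons c (cons d (cons e (cons f (cons g (cons i (cons j (fun _ => a)))))))))) (w := cons a' (cons b' (cons c' (cons d' (cons e' (cons f' (cons g' (cons i' (cons j' (fun _ => a')))))))))) (cons_rel ha (cons_rel hb (cons_rel hc (cons_rel hd (cons_rel he (cons_rel hf (cons_rel hg (cons_rel hi (cons_rel hj (fun _ => ha))))))))))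

theorem emb9 (t : Set V → V → V → V → V → V → V → V → V → V → V) [Tm K fun W (v : ℕ → V) => t W (v 0) (v 1) (v 2) (v 3) (v 4) (v 5) (v 6) (v 7) (v 8)] (hm : Emb M N m)
    (hM : K M) (hN : K N) {a a' b b' c c' d d' e e' f f' g g' i i' j j' : V} (ha : m a a') (hb : m b b') (hc : m c c') (hd : m d d') (he : m e e') (hf : m f f') (hg : m g g') (hi : m i i') (hj : m j j') : m (t M a b c d e f g i j) (t N a' b' c' d' e' f' g' i' j') :=
  Emb.tm (K := K) (fun W (v : ℕ → V) => t W (v 0) (v 1) (v 2) (v 3) (v 4) (v 5) (v 6) (v 7) (v 8)) hm hM hN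
    (v := cons a (cons b (cons c (cons d (cons e (cons f (cons g (cons i (cons j (fun _ => a)))))))))) (w := cons a' (cons b' (cons c' (cons d' (cons e' (cons f' (cons g' (cons i' (cons j' (fun _ => a')))))))))) (cons_rel ha (cons_rel hb (cons_rel hc (cons_rel hd (cons_rel he (cons_rel hf (cons_rel hg (cons_rel hi (cons_rel hj (fun _ => ha))))))))))

end Nary

variable [hK : Cl K]

instance tm_omega : Tm K fun _ (_ : Γ → V) => omega :=
  ⟨fun W hW _ _ => (hK.zf W hW).omega,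
    Df.of_iff (Q := fun _ v => IsOm (v none)) fun _ _ _ _ => isOm_iff.symm⟩

instance tm_nat : ∀ k : ℕ, Tm K fun _ (_ : Γ → V) => nat k
  | 0 => tm_empty
  | k + 1 => have := tm_nat k; tm_insert (fun _ _ => nat k) fun _ _ => nat k

variable [Countable Γ]

theorem tm_rrec (pre : Set V → (Γ → V) → V → V) (step : Set V → (Γ → V) → V → V → V)
    [Tm K fun W (v : Option Γ → V) => pre W (fun i => v (some i)) (v none)]
    [Tm K fun W (v : Option (Option Γ) → V) =>
      step W (fun i => v (some (some i))) (v (some none)) (v none)]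
    (h : ∀ W v x, ∀ y ∈ pre W v x, rank y < rank x) (t : Set V → (Γ → V) → V) [Tm K t] :
    Tm K fun W v => rrec (pre W v) (step W v) (t W v) :=
  have := Tm.recur (K := K) (fun W v => rrec (pre W v) (step W v)) pre step
    (fun W _ v _ => Subrelation.wf (fun hx => h W v _ _ hx.2) (InvImage.wf rank Ordinal.lt_wf))
    fun W _ v _ x _ => rrec_eq (h W v x)
  Tm.subst (fun W v => rrec (pre W v) (step W v)) t

/-- Recursion on membership. -/
theorem Tm.memRec (F : Set V → (Γ → V) → V → V) (step : Set V → (Γ → V) → V → V → V)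
    [Tm K fun W (v : Option (Option Γ) → V) =>
      step W (fun i => v (some (some i))) (v (some none)) (v none)]
    (h : ∀ W v x, F W v x = step W v x (graph (F W v) x)) (t : Set V → (Γ → V) → V) [Tm K t] :
    Tm K fun W v => F W v (t W v) :=
  have := Tm.recur (K := K) F (fun _ _ x => x) step
    (fun _ _ _ _ => Subrelation.wf (fun hx => hx.2) mem_wf) fun W _ v _ x _ => h W v x
  Tm.subst F t

section Terms

variable (s t : Set V → (Γ → V) → V) [hs : Tm K s] [ht : Tm K t]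

open Classical in
instance tm_itr (f : Set V → (Γ → V) → V → V)
    [Tm K fun W (v : Option Γ → V) => f W (fun i => v (some i)) (v none)] :
    Tm K fun W v => itr (f W v) (s W v) (t W v) :=
  have : Tm K fun W (v : Option (Option (Option Γ)) → V) =>
      f W (fun i => v (some (some (some i)))) (v none) :=
    tm_ren (fun W (v : Option Γ → V) => f W (fun i => v (some i)) (v none))
      (Option.map fun i => some (some i))
  have := Tm.subst (K := K) (fun W (v : Option (Option Γ) → V) x =>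
    f W (fun i => v (some (some i))) x) fun _ v => ap (v none) (⋃₀ v (some none))
  tm_rrec (fun _ _ x => x) (fun W v n g => if n = ∅ then s W v else f W v (ap g (⋃₀ n)))
    (fun _ _ _ _ => rank_lt_of_mem) t

instance tm_clo (f : Set V → (Γ → V) → V → V)
    [Tm K fun W (v : Option Γ → V) => f W (fun i => v (some i)) (v none)] :
    Tm K fun W v => clo (f W v) (s W v) :=
  have : Tm K fun W (v : Option (Option Γ) → V) => f W (fun i => v (some (some i))) (v none) :=
    tm_ren (fun W (v : Option Γ → V) => f W (fun i => v (some i)) (v none)) (Option.map some)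
  have := tm_itr (K := K) (fun W (v : Option Γ → V) => s W fun i => v (some i)) (fun _ v => v none)
    fun W v x => f W (fun i => v (some i)) x
  by unfold clo; infer_instance

instance tm_tc : Tm K fun W v => tc (s W v) := tm_clo s fun _ _ x => ⋃₀ x

instance tm_rk : Tm K fun W v => rk (s W v) :=
  Tm.memRec (fun _ _ => rk) (fun _ _ x g => ⋃₀ img (fun y => insert (ap g y) (ap g y)) x)
    (fun _ _ x => (rk_eq x).trans (congrArg _ (img_congr fun y hy => by rw [ap_graph hy]))) s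

instance tm_val : Tm K fun W v => val (s W v) (t W v) :=
  have := Tm.recur (K := K) (fun W v => val (s W v)) (fun _ _ τ => ⋃₀ ⋃₀ τ)
    (fun W v τ g => img (ap g) (ZFSet.sep (fun σ => ∃ p ∈ s W v, pair σ p ∈ τ) (⋃₀ ⋃₀ τ)))
    (fun _ _ _ _ => Subrelation.wf (fun hx => hx.2) name_wf) fun W _ v _ τ _ => by
      ext x
      simp only [mem_val, mem_img, mem_sep]
      exact ⟨fun ⟨σ, p, hp, h, e⟩ => ⟨σ, ⟨left_mem_sUnion h, p, hp, h⟩,
        (ap_graph (left_mem_sUnion h)).trans e.symm⟩,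
        fun ⟨σ, ⟨h0, p, hp, h⟩, e⟩ => ⟨σ, p, hp, h, e.symm.trans (ap_graph h0)⟩⟩
  Tm.subst (fun W v => val (s W v)) t

instance tm_ExtV : Tm K fun W v => ExtV (s W v) (t W v) :=
  inferInstanceAs (Tm K fun W v => img (fun τ => val (t W v) τ) (s W v))

instance dc_Ext (C : Set V → (Γ → V) → Set V) [hC : Dc K C] : Dc K fun W v => Ext (C W v) (t W v) :=
  ⟨fun W hW v hv _ ⟨_, hτ, e⟩ =>
      e ▸ tm2 (t := fun _ G τ => val G τ) hW (ht.mem W hW v hv) (hC.sub W hW v hv _ hτ),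
    inferInstanceAs (Df K fun W (v : Option Γ → V) => ∃ τ ∈ C W fun i => v (some i),
      val (t W fun i => v (some i)) τ = v none)⟩

end Terms

omit hK in
theorem val_mem {K : Set V} (hK : ZFm K ∅) {G τ : V} (hG : G ∈ K) (hτ : τ ∈ K) : val G τ ∈ K :=
  tm2 (K := ZF) (t := fun _ G τ => val G τ) hK hG hτ

section Notions

set_option synthInstance.maxSize 100000

variable (r s t u : Set V → (Γ → V) → V) [Tm K r] [Tm K s] [Tm K t] [Tm K u]
  (C : Set V → (Γ → V) → Set V) [Dc K C]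

instance df_Po : Df K fun W v => Po (s W v) := by unfold Po; infer_instance
instance df_Dense : Df K fun W v => Dense (s W v) (t W v) := by unfold Dense; infer_instance
instance df_Filt : Df K fun W v => Filt (s W v) (t W v) := by unfold Filt; infer_instance
instance df_Generic : Df K fun W v => Generic (C W v) (s W v) (t W v) := by
  unfold Generic; infer_instance
instance df_Ctbl : Df K fun W v => Ctbl (C W v) (s W v) := by unfold Ctbl; infer_instance
instance df_Om1 : Df K fun W v => Om1 (C W v) (s W v) := by unfold Om1; infer_instance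
instance df_Card : Df K fun W v => Card (C W v) (s W v) := by unfold Card; infer_instance
instance df_InH : Df K fun W v => InH (C W v) (s W v) (t W v) := by unfold InH; infer_instance
instance df_Delta : Df K fun W v => Delta (C W v) (s W v) (t W v) := by
  unfold Delta; infer_instance
instance df_In3 : Df K fun W v => In3 (r W v) (s W v) (t W v) (u W v) := by
  unfold In3; infer_instance
instance df_Reg : Df K fun W v => Reg (C W v) (s W v) := by unfold Reg; infer_instance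
instance df_Proj : Df K fun W v => Proj (r W v) (s W v) (t W v) := by unfold Proj; infer_instance

omit [Countable Γ] in
instance bd_In3 (a b c : Set V → (Γ → V) → V → V)
    [Oc fun W v x => pair (a W v x) (pair (b W v x) (c W v x))] :
    Bd K fun W v x => In3 (r W v) (a W v x) (b W v x) (c W v x) :=
  bd_pair_mem a (fun W v x => pair (b W v x) (c W v x)) r

instance df_ExtOf : Df K fun W v => ExtOf (s W v) (t W v) :=
  Df.of_iff (Q := fun W v => Po (t W v) ∧
    (∀ e, pair e e ∈ t W v → ∃ p q, e = pair p q ∧ pair p p ∈ s W v) ∧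
    (∀ p q p' q', pair (pair p q) (pair p' q') ∈ t W v → pair p p' ∈ s W v) ∧
    ∀ p q r, pair (pair p q) (pair p q) ∈ t W v → pair r p ∈ s W v →
      pair (pair r q) (pair p q) ∈ t W v)
    fun _ _ _ _ => ⟨fun h => ⟨h.1, h.2, h.3, h.4⟩, fun h => ⟨h.1, h.2.1, h.2.2.1, h.2.2.2⟩⟩

instance df_FunNm : Df K fun W v => FunNm (r W v) (s W v) (t W v) (u W v) :=
  Df.of_iff (Q := fun W v =>
    (∀ z ∈ s W v, ∃ p, ∃ x ∈ t W v, ∃ y ∈ u W v, z = pair p (pair x y) ∧ pair p p ∈ r W v) ∧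
    (∀ p p' x y, In3 (s W v) p x y → pair p' p ∈ r W v → In3 (s W v) p' x y) ∧
    ∀ p x y y', In3 (s W v) p x y → In3 (s W v) p x y' → y = y')
    fun _ _ _ _ => ⟨fun h => ⟨h.1, h.2, h.3⟩, fun h => ⟨h.1, h.2.1, h.2.2⟩⟩

instance df_FiltNm (a b : Set V → (Γ → V) → V) [Tm K a] [Tm K b] :
    Df K fun W v => FiltNm (r W v) (s W v) (t W v) (u W v) (a W v) (b W v) :=
  Df.of_iff (Q := fun W v =>
    (∀ z ∈ a W v, ∃ q p x, z = pair q (pair p x) ∧ pair (pair p x) (pair p x) ∈ t W v ∧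
      pair q p ∈ s W v) ∧
    (∀ q q' e, pair q e ∈ a W v → pair q' q ∈ s W v → pair q' e ∈ a W v) ∧
    (∀ q e e', pair q e ∈ a W v → pair q e' ∈ a W v → ∃ q' e'', pair q' q ∈ s W v ∧
      pair q' e'' ∈ a W v ∧ pair e'' e ∈ t W v ∧ pair e'' e' ∈ t W v) ∧
    ∀ i ∈ r W v, ∀ q, pair q (b W v) ∈ s W v →
      ∃ q' d e, pair q' q ∈ s W v ∧ pair i d ∈ u W v ∧ e ∈ d ∧ pair q' e ∈ a W v)
    fun _ _ _ _ => ⟨fun h => ⟨h.1, h.2, h.3, h.4⟩, fun h => ⟨h.1, h.2.1, h.2.2.1, h.2.2.2⟩⟩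

end Notions

/-- Transitive models of ZFC without power set. -/
def ZC (W : Set V) : Prop := ZFCm W ∅

instance : Cl ZC := ⟨fun _ h => h.1⟩

theorem Onto.fn {f a b : V} (h : Onto f a b) : Fn f := fun x y z hy hz => by
  obtain ⟨u, hu, _, _, e⟩ := mem_prod.1 (h.1.1 hy)
  obtain ⟨rfl, -⟩ := pair_inj.1 e
  exact (h.1.2 x hu).unique hy hz

theorem isFunc_graph {f : V → V} {a b : V} (h : ∀ x ∈ a, f x ∈ b) : IsFunc a b (graph f a) :=
  ⟨fun _ hz => by
    obtain ⟨x, hx, rfl⟩ := mem_graph.1 hz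
    exact pair_mem_prod.2 ⟨hx, h x hx⟩,
   fun x hx => ⟨f x, pair_mem_graph.2 ⟨hx, rfl⟩, fun _ hy => (pair_mem_graph.1 hy).2.symm⟩⟩

theorem onto_graph {f : V → V} {a b : V} (h : ∀ x ∈ a, f x ∈ b) (h' : ∀ y ∈ b, ∃ x ∈ a, f x = y) :
    Onto (graph f a) a b :=
  ⟨isFunc_graph h, fun y hy => (h' y hy).imp fun _ hx => ⟨hx.1, pair_mem_graph.2 hx⟩⟩

theorem isFunc_ap {f a b x : V} (h : IsFunc a b f) (hx : x ∈ a) :
    pair x (ap f x) ∈ f ∧ ap f x ∈ b := by
  obtain ⟨y, hy, hu⟩ := h.2 x hx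
  rw [ap_eq hy hu]
  exact ⟨hy, (pair_mem_prod.1 (h.1 hy)).2⟩

theorem isFunc_ap_eq {f a b x y : V} (h : IsFunc a b f) (hy : pair x y ∈ f) : ap f x = y :=
  ap_eq hy fun _ hz => (h.2 x (pair_mem_prod.1 (h.1 hy)).1).unique hz hy

theorem Onto.ap {f a b y : V} (h : Onto f a b) (hy : y ∈ b) : ∃ x ∈ a, ap f x = y :=
  (h.2 y hy).imp fun _ hx => ⟨hx.1, isFunc_ap_eq h.1 hx.2⟩

/-- The least element of a nonempty class of ordinals. -/
theorem exists_least {α : V} (hα : IsOrdinal α) {P : V → Prop} (h : ∃ x ∈ α, P x) :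
    ∃ x ∈ α, P x ∧ ∀ y ∈ α, P y → x ⊆ y := by
  obtain ⟨x, hx, hm⟩ := mem_wf.has_min {x | x ∈ α ∧ P x} h
  exact ⟨x, hx.1, hx.2, fun y hy hp =>
    ((hα.mem hy).notMem_iff_subset (hα.mem hx.1)).1 (hm y ⟨hy, hp⟩)⟩

/-- Choice for relations definable with parameters. -/
theorem Cls2.choice (hW : ZC W) {R : V → V → Prop} (h : Cls2 W R) {a : V} (ha : a ∈ W)
    (H : ∀ x ∈ a, ∃ y ∈ W, R x y) : ∃ f ∈ W, Fn f ∧ dom f = a ∧ ∀ x ∈ a, R x (ap f x) := by
  obtain ⟨b, hb, hb'⟩ := h.coll hW.1 ha H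
  obtain ⟨α, -, hα, e, he, hoe⟩ := hW.2 b hb
  have hr := h.sep hW.1 (tm2 (K := ZC) (t := fun _ a b => prod a b) hW ha hb)
  set r := ZFSet.sep (fun z => R (fst z) (snd z)) (prod a b)
  let g : V → V → V → V := fun r e x =>
    ap e (⋃₀ ZFSet.sep (fun ξ => pair x (ap e ξ) ∈ r ∧ ∀ η ∈ dom e, pair x (ap e η) ∈ r → ξ ⊆ η) (dom e))
  refine ⟨graph (g r e) a, tm3 (K := ZC) (t := fun _ r e a => graph (g r e) a) hW hr he ha,
    fn_graph _ _, dom_graph _ _, fun x hx => ?_⟩
  have hd : dom e = α := by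
    ext ξ
    exact mem_dom.trans ⟨fun ⟨_, h⟩ => (pair_mem_prod.1 (hoe.1.1 h)).1, fun h => ⟨_, (isFunc_ap hoe.1 h).1⟩⟩
  obtain ⟨ξ, hξ, h1, h2⟩ := exists_least hα (P := fun ξ => pair x (ap e ξ) ∈ r) (by
    obtain ⟨y, hy, hR⟩ := hb' x hx
    obtain ⟨ξ, hξ, rfl⟩ := hoe.ap hy
    exact ⟨ξ, hξ, mem_sep.2 ⟨pair_mem_prod.2 ⟨hx, hy⟩, by simpa using hR⟩⟩)
  have : ZFSet.sep (fun ξ => pair x (ap e ξ) ∈ r ∧ ∀ η ∈ α, pair x (ap e η) ∈ r → ξ ⊆ η) α = {ξ} := by
    ext η
    simp only [mem_sep, mem_singleton]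
    exact ⟨fun h => ZFSet.ext fun z => ⟨fun hz => h.2.2 ξ hξ h1 hz, fun hz => h2 η h.1 h.2.1 hz⟩,
      fun e => e ▸ ⟨hξ, h1, h2⟩⟩
  rw [ap_graph hx]
  simp only [g, hd, this, sUnion_singleton]
  simpa using (mem_sep.1 h1).2

end Pool.Agent.Lib.MP_329f2d_lc
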