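import Pool.Agent.Lib.MP_329f2d_lc.H2L
import Pool.Agent.Lib.MP_329f2d_lc.H58Nat

/-!
Choice in `L[A]`: a definable enumeration of `L[A]` by the ordinals.
-/

open ZFSet

namespace Pool.Agent.Lib.MP_329f2d_lc

namespace H2

variable {K : Set V → Prop} {Γ : Type} {W : Set V} {x y z a b A : V}

/-- The canonical order of pairs of ordinals. -/
def Lt (y z : V) : Prop :=
  fst y ∪ snd y ∈ fst z ∪ snd z ∨
    (fst y ∪ snd y = fst z ∪ snd z ∧ (fst y ∈ fst z ∨ (fst y = fst z ∧ snd y ∈ snd z)))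

/-- The predecessors in the canonical order. -/
noncomputable def gpre (z : V) : V :=
  ZFSet.sep (fun y => Lt y z) (prod (insert (fst z ∪ snd z) (fst z ∪ snd z))
    (insert (fst z ∪ snd z) (fst z ∪ snd z)))

theorem wfG : WellFounded fun y z => y ∈ gpre z := by
  refine Subrelation.wf (r := InvImage (Prod.Lex (· ∈ ·) (Prod.Lex (· ∈ ·) (· ∈ ·)))
    fun z : V => (fst z ∪ snd z, fst z, snd z)) ?_
    (InvImage.wf _ (mem_wf.prod_lex (mem_wf.prod_lex mem_wf)))
  intro y z h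
  simp only [InvImage, Prod.lex_def]
  exact (mem_sep.1 h).2

/-- Pairs of ordinals. -/
def OP (z : V) : Prop := IsOrdinal (fst z) ∧ IsOrdinal (snd z) ∧ z = pair (fst z) (snd z)

theorem op_pair (ha : IsOrdinal a) (hb : IsOrdinal b) : OP (pair a b) := by simp [OP, ha, hb]

theorem ord_union (ha : IsOrdinal a) (hb : IsOrdinal b) : IsOrdinal (a ∪ b) :=
  ord_sUnion fun _ h => (mem_pair.1 h).elim (· ▸ ha) (· ▸ hb)

theorem OP.mx (h : OP z) : IsOrdinal (fst z ∪ snd z) := ord_union h.1 h.2.1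

theorem mem_gpre (hz : OP z) : y ∈ gpre z ↔ OP y ∧ Lt y z := by
  have hs := isOrdinal_succ hz.mx
  rw [gpre, mem_sep]
  refine and_congr_left fun h => ⟨fun h' => ?_, fun h' => ?_⟩
  · obtain ⟨a, ha, b, hb, rfl⟩ := mem_prod.1 h'
    exact op_pair (hs.mem ha) (hs.mem hb)
  · have : fst y ∪ snd y ∈ insert (fst z ∪ snd z) (fst z ∪ snd z) :=
      mem_insert_iff.2 (h.symm.imp_left And.left)
    rw [h'.2.2]
    exact pair_mem_prod.2 ⟨h'.1.mem_of_subset_of_mem hs (fun _ h => mem_union.2 (.inl h)) this,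
      h'.2.1.mem_of_subset_of_mem hs (fun _ h => mem_union.2 (.inr h)) this⟩

theorem Lt.trans (hz : OP z) (h : Lt x y) (h' : Lt y z) : Lt x z := by
  rcases h' with h' | ⟨e', h'⟩
  · exact .inl (h.elim (hz.mx.mem_trans · h') fun h => h.1 ▸ h')
  rcases h with h | ⟨e, h⟩
  · exact .inl (e' ▸ h)
  refine .inr ⟨e.trans e', ?_⟩
  rcases h' with h' | ⟨f', h'⟩
  · exact .inl (h.elim (hz.1.mem_trans · h') fun h => h.1 ▸ h')
  rcases h with h | ⟨f, h⟩
  · exact .inl (f' ▸ h)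
  exact .inr ⟨f.trans f', hz.2.1.mem_trans h h'⟩

theorem Lt.tri (hy : OP y) (hz : OP z) : Lt y z ∨ y = z ∨ Lt z y := by
  rcases hy.mx.mem_trichotomous hz.mx with h | h | h
  · exact .inl (.inl h)
  · rcases hy.1.mem_trichotomous hz.1 with h1 | h1 | h1
    · exact .inl (.inr ⟨h, .inl h1⟩)
    · rcases hy.2.1.mem_trichotomous hz.2.1 with h2 | h2 | h2
      · exact .inl (.inr ⟨h, .inr ⟨h1, h2⟩⟩)
      · exact .inr (.inl (by rw [hy.2.2, hz.2.2, h1, h2]))
      · exact .inr (.inr (.inr ⟨h.symm, .inr ⟨h1.symm, h2⟩⟩))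
    · exact .inr (.inr (.inr ⟨h.symm, .inl h1⟩))
  · exact .inr (.inr (.inl h))

/-- The position in the canonical order. -/
noncomputable def J : V → V := wrec wfG fun _ g => ran g

theorem mem_J : x ∈ J z ↔ ∃ y ∈ gpre z, J y = x := by
  rw [J, wrec_eq, ran_graph, mem_img]

theorem J_mem (hy : OP y) (hz : OP z) (h : Lt y z) : J y ∈ J z :=
  mem_J.2 ⟨y, (mem_gpre hz).2 ⟨hy, h⟩, rfl⟩

theorem J_ord (z : V) : OP z → IsOrdinal (J z) := by
  induction z using wfG.induction with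
  | _ z ih =>
    intro hz
    refine isOrdinal_iff_forall_mem_isOrdinal.2 ⟨fun w hw u hu => ?_, fun w hw => ?_⟩
    · obtain ⟨y, hy, rfl⟩ := mem_J.1 hw
      obtain ⟨x, hx, rfl⟩ := mem_J.1 hu
      have hy' := (mem_gpre hz).1 hy
      have hx' := (mem_gpre hy'.1).1 hx
      exact J_mem hx'.1 hz (hx'.2.trans hz hy'.2)
    · obtain ⟨y, hy, rfl⟩ := mem_J.1 hw
      exact ih y hy ((mem_gpre hz).1 hy).1

theorem J_inj (hy : OP y) (hz : OP z) (h : J y = J z) : y = z := by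
  rcases Lt.tri hy hz with h' | h' | h'
  · exact absurd (h ▸ J_mem hy hz h') (mem_irrefl _)
  · exact h'
  · exact absurd (h ▸ J_mem hz hy h') (mem_irrefl _)

theorem sub_J (z : V) : OP z → fst z ⊆ J z ∧ snd z ⊆ J z := by
  induction z using wfG.induction with
  | _ z ih =>
    intro hz
    refine ⟨fun a ha => ?_, fun b hb => ?_⟩
    · have h1 := op_pair (hz.1.mem ha) hz.2.1
      have h2 : Lt (pair a (snd z)) z := by
        have := (h1.mx.subset_iff_eq_or_mem hz.mx).1 fun u hu => by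
          simp only [fst_pair, snd_pair, mem_union] at hu ⊢
          exact hu.imp_left (hz.1.mem_trans · ha)
        exact this.symm.imp_right fun e => ⟨e, .inl (by rwa [fst_pair])⟩
      have := (ih _ ((mem_gpre hz).2 ⟨h1, h2⟩) h1).1
      rw [fst_pair] at this
      exact (hz.1.mem ha).mem_of_subset_of_mem (J_ord z hz) this (J_mem h1 hz h2)
    · have h1 := op_pair hz.1 (hz.2.1.mem hb)
      have h2 : Lt (pair (fst z) b) z := by
        have := (h1.mx.subset_iff_eq_or_mem hz.mx).1 fun u hu => by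
          simp only [fst_pair, snd_pair, mem_union] at hu ⊢
          exact hu.imp_right (hz.2.1.mem_trans · hb)
        exact this.symm.imp_right fun e => ⟨e, .inr ⟨fst_pair _ _, by rwa [snd_pair]⟩⟩
      have := (ih _ ((mem_gpre hz).2 ⟨h1, h2⟩) h1).2
      rw [snd_pair] at this
      exact (hz.2.1.mem hb).mem_of_subset_of_mem (J_ord z hz) this (J_mem h1 hz h2)

/-- Pairing of ordinals. -/
noncomputable def cd (z : V) : V := insert (J z) (J z)

/-- The inverse of the pairing. -/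
noncomputable def dc (ξ : V) : V := ⋃₀ ZFSet.sep (fun z => cd z = ξ) (prod ξ ξ)

theorem cd_ord (ha : IsOrdinal a) (hb : IsOrdinal b) : IsOrdinal (cd (pair a b)) :=
  isOrdinal_succ (J_ord _ (op_pair ha hb))

theorem mem_cd (ha : IsOrdinal a) (hb : IsOrdinal b) :
    a ∈ cd (pair a b) ∧ b ∈ cd (pair a b) := by
  have := sub_J _ (op_pair ha hb)
  rw [fst_pair, snd_pair] at this
  exact ⟨ha.mem_of_subset_of_mem (cd_ord ha hb) this.1 (mem_insert _ _),
    hb.mem_of_subset_of_mem (cd_ord ha hb) this.2 (mem_insert _ _)⟩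

theorem dc_cd (ha : IsOrdinal a) (hb : IsOrdinal b) : dc (cd (pair a b)) = pair a b := by
  have : ZFSet.sep (fun z => cd z = cd (pair a b)) (prod (cd (pair a b)) (cd (pair a b))) =
      {pair a b} := by
    ext z
    rw [mem_sep, mem_singleton]
    refine ⟨fun ⟨h, e⟩ => ?_, fun e => by
      rw [e]; exact ⟨pair_mem_prod.2 (mem_cd ha hb), rfl⟩⟩
    obtain ⟨c, hc, d, hd, rfl⟩ := mem_prod.1 h
    refine J_inj (op_pair ((cd_ord ha hb).mem hc) ((cd_ord ha hb).mem hd)) (op_pair ha hb) ?_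
    have h1 : J (pair c d) ∈ cd (pair a b) := e ▸ mem_insert _ _
    have h2 : J (pair a b) ∈ cd (pair c d) := e ▸ mem_insert _ _
    exact (mem_insert_iff.1 h1).elim id fun h1 =>
      (mem_insert_iff.1 h2).elim Eq.symm fun h2 => absurd h2 (mem_asymm h1)
  rw [dc, this, sUnion_singleton]

open Classical in
/-- One step of the enumeration. -/
noncomputable def stp (A i c u v w : V) : V :=
  if i = ∅ then c else if i = insert ∅ ∅ then pair u v
    else dv A (Lh ∅ A (fst w)) (fst (snd w)) (snd (snd w))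

/-- The enumeration of `L[A]`. -/
noncomputable def en (A : V) : V → V :=
  wrec (pre := fun x => x) mem_wf fun ξ g => stp A (fst (dc ξ)) (snd (dc ξ))
    (ap g (fst (dc (snd (dc ξ))))) (ap g (snd (dc (snd (dc ξ))))) (ap g (snd (dc ξ)))

section

variable [Cl K] [Countable Γ] (s t : Set V → (Γ → V) → V) [Tm K s] [Tm K t]

instance df_Lt : Df K fun W v => Lt (s W v) (t W v) := by unfold Lt; infer_instance

instance tm_gpre : Tm K fun W v => gpre (s W v) := by unfold gpre; infer_instance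

omit [Countable Γ] in
instance tm_J : Tm K fun W v => J (s W v) :=
  Tm.app1 (F := fun _ => J) (tm_wrec wfG fun _ _ g => ran g) s

omit [Countable Γ] in
instance tm_cd : Tm K fun W v => cd (s W v) := by unfold cd; infer_instance

instance tm_dc : Tm K fun W v => dc (s W v) := by unfold dc; infer_instance

instance tm_stp (a b c d : Set V → (Γ → V) → V) [Tm K a] [Tm K b] [Tm K c] [Tm K d] :
    Tm K fun W v => stp (s W v) (t W v) (a W v) (b W v) (c W v) (d W v) := by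
  unfold stp; infer_instance

omit [Countable Γ] in
instance tm_en : Tm K fun W v => en (s W v) (t W v) :=
  Tm.app2 (F := fun _ => en) (tm_wrec (pre := fun x => x) mem_wf fun (v : Unit → V) ξ g =>
    stp (v ()) (fst (dc ξ)) (snd (dc ξ)) (ap g (fst (dc (snd (dc ξ)))))
      (ap g (snd (dc (snd (dc ξ))))) (ap g (snd (dc ξ)))) s t

end

/-- The sets enumerated by ordinals of `W`. -/
def RG (W : Set V) (A y : V) : Prop := ∃ ξ ∈ W, IsOrdinal ξ ∧ en A ξ = y

theorem cd_mem (hW : ZFm W ∅) (ha : a ∈ W) (hb : b ∈ W) : cd (pair a b) ∈ W :=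
  tm2 (K := ZF) (t := fun _ a b => cd (pair a b)) hW ha hb

theorem succ_ne (x : V) : insert x x ≠ ∅ := fun h => notMem_empty x (h ▸ mem_insert x x)

theorem succ_ne2 (x : V) : insert x x ≠ x := fun h =>
  mem_irrefl x ((congrArg (x ∈ ·) h).mp (mem_insert x x))

theorem RG.ord (hW : ZFm W ∅) (ha : a ∈ W) (ho : IsOrdinal a) : RG W A a :=
  ⟨_, cd_mem hW hW.empty ha, cd_ord isOrdinal_empty ho, by
    rw [en, wrec_eq, dc_cd isOrdinal_empty ho, fst_pair, snd_pair, stp, if_pos rfl]⟩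

theorem RG.pair (hW : ZFm W ∅) (hx : RG W A x) (hy : RG W A y) : RG W A (pair x y) := by
  obtain ⟨a, ha, ho, rfl⟩ := hx
  obtain ⟨b, hb, ho', rfl⟩ := hy
  have h1 := isOrdinal_succ isOrdinal_empty
  have h2 := cd_ord ho ho'
  have h3 := cd_ord h1 h2
  refine ⟨_, cd_mem hW (hW.insert hW.empty hW.empty) (cd_mem hW ha hb), h3, ?_⟩
  rw [en, wrec_eq, dc_cd h1 h2, fst_pair, snd_pair, stp, if_neg (succ_ne _), if_pos rfl, dc_cd ho ho',
    fst_pair, snd_pair, ap_graph (h3.mem_trans (mem_cd ho ho').1 (mem_cd h1 h2).2),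
    ap_graph (h3.mem_trans (mem_cd ho ho').2 (mem_cd h1 h2).2)]

theorem RG.dv (hW : ZFm W ∅) (hx : RG W A (ZFSet.pair x (ZFSet.pair y z))) :
    RG W A (dv A (Lh ∅ A x) y z) := by
  obtain ⟨a, ha, ho, e⟩ := hx
  have h0 := hW.insert hW.empty hW.empty
  have h1 := isOrdinal_succ (isOrdinal_succ isOrdinal_empty)
  refine ⟨_, cd_mem hW (hW.insert h0 h0) ha, cd_ord h1 ho, ?_⟩
  rw [en, wrec_eq, dc_cd h1 ho, fst_pair, snd_pair, stp,
    if_neg (succ_ne _),
    if_neg (succ_ne2 _),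
    ap_graph (mem_cd h1 ho).2, ← en, e, fst_pair, snd_pair, fst_pair, snd_pair]

theorem RG.lh (hW : ZFm W ∅) (α : V) : α ∈ W → IsOrdinal α → ∀ z ∈ Lh ∅ A α, RG W A z := by
  induction α using ZFSet.inductionOn with
  | _ α ih =>
    intro hα ho z hz
    obtain ⟨β, hβ, hz⟩ := ((mem_Lh _ _ _ _).1 hz).resolve_left (notMem_empty _)
    obtain ⟨c, hc, l, hl, rfl⟩ := mem_Def_iff.1 hz
    have h0 : RG W A ∅ := RG.ord hW hW.empty isOrdinal_empty
    have h1 : ∀ y ∈ insert ∅ (Lh ∅ A β), RG W A y := fun y hy =>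
      (mem_insert_iff.1 hy).elim (· ▸ h0) (ih β hβ (hW.mem hβ hα) (ho.mem hβ) y)
    exact RG.dv hW ((RG.ord hW (hW.mem hβ hα) (ho.mem hβ)).pair hW
      ((Cd_ind h0 (fun _ _ => RG.pair hW) c hc).pair hW
        (Lst_ind (fun y hy => (h1 y hy).pair hW h0) (fun y hy _ => (h1 y hy).pair hW) l hl)))

end H2

open H2 in
/-- `V = L[A]` implies Choice. -/
theorem zfcm_of_LC {W : Set V} {A : V} (hW : ZFm W ∅) (hA : A ∈ W) (h : W ⊆ LC W ∅ A) :
    ZFCm W ∅ := by
  classical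
  refine ⟨hW, fun a ha => ?_⟩
  rcases eq_empty_or_nonempty a with rfl | ⟨y, hy⟩
  · exact ⟨∅, ha, isOrdinal_empty, _, tm1 (K := ZF) (t := fun _ a => graph (fun x => x) a) hW ha,
      onto_graph (fun _ h => h) fun y h => ⟨y, h, rfl⟩⟩
  obtain ⟨c, hc, hc'⟩ := Df.coll (K := ZF) (fun _ (v : ℕ → V) z ξ => IsOrdinal ξ ∧ en (v 0) ξ = z)
    hW (v := fun _ => A) (fun _ => hA) ha fun z hz =>
      let ⟨α, hα, ho, hz⟩ := h (hW.mem hz ha)
      RG.lh hW α hα ho z hz
  have h1 : (⋃₀ ZFSet.sep IsOrdinal c : V) ∈ W :=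
    tm1 (K := ZF) (t := fun _ c => ⋃₀ ZFSet.sep IsOrdinal c) hW hc
  have h2 : IsOrdinal (⋃₀ ZFSet.sep IsOrdinal c : V) := ord_sUnion fun z hz => (mem_sep.1 hz).2
  refine ⟨_, hW.insert h1 h1, isOrdinal_succ h2, _, tm4 (K := ZF) (t := fun _ A a y β =>
    graph (fun ξ => if en A ξ ∈ a then en A ξ else y) β) hW hA ha (hW.mem hy ha) (hW.insert h1 h1),
    onto_graph (fun ξ _ => by split_ifs <;> assumption) fun z hz => ?_⟩
  obtain ⟨ξ, hξ, ho, rfl⟩ := hc' z hz
  exact ⟨ξ, ho.mem_of_subset_of_mem (isOrdinal_succ h2)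
    (fun _ h => mem_sUnion.2 ⟨ξ, mem_sep.2 ⟨hξ, ho⟩, h⟩) (mem_insert _ _), if_pos hz⟩

theorem la_LC {K : Set V} (hK : ZFm K ∅) {A : V} (hA : A ∈ LC K ∅ A) (hAK : A ∈ K) :
    LA (LC K ∅ A) A :=
  have h : LC K ∅ A ⊆ LC (LC K ∅ A) ∅ A := fun _ ⟨α, hα, ho, hz⟩ =>
    ⟨α, ord_mem_LC hK isTransitive_empty hα ho, ho, hz⟩
  ⟨zfcm_of_LC (zfm_LC hK hK.empty isTransitive_empty hAK) hA h, hA, h⟩

theorem la_Lh {K : Set V} (hK : ZFm K ∅) {A γ : V} (hA : A ∈ Lh ∅ A γ) (hAK : A ∈ K)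
    (hγ : ∀ α, α ∈ γ ↔ α ∈ K ∧ IsOrdinal α) : LA (Lh ∅ A γ) A :=
  coe_Lh hK hγ ▸ la_LC hK (coe_Lh hK hγ ▸ hA) hAK

end Pool.Agent.Lib.MP_329f2d_lc
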