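import Pool.Agent.Lib.MP_329f2d_lc.H35L
import Pool.Agent.Lib.MP_329f2d_lc.H2W
import Pool.Agent.Lib.MP_329f2d_lc.H55Mod

/-!
Every set is included in a model of `V = L[A]` that is regular in a larger model.
-/

open ZFSet Cardinal

namespace Pool.Agent.Lib.MP_329f2d_lc

open H35

theorem exists_LA (x : V) : ∃ N A N₂ : V, x ⊆ N ∧ LA N A ∧ N ∈ N₂ ∧ ZFCm N₂ ∅ ∧ Reg N₂ N := by
  obtain ⟨A, -, α, -, ho, hx, hA⟩ := exists_code zfc_univ.1 (Set.mem_univ x)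
  obtain ⟨t, ht, hAt⟩ := exists_trans ({A, α} : V)
  set c := Order.succ (max ℵ₀ (card t)) with hcdef
  have hc : c.IsRegular := isRegular_succ (le_max_left _ _)
  have hc0 : ℵ₀ < c := (le_max_left _ _).trans_lt (Order.lt_succ _)
  have htc : card t < c := (le_max_right _ _).trans_lt (Order.lt_succ _)
  obtain ⟨K, hK, hKZ⟩ := zfcm_H hc hc0
  obtain ⟨K₂, hK₂, hKZ₂⟩ := zfcm_H (isRegular_succ hc0.le) (hc0.trans (Order.lt_succ c))
  have hγ := ord_mem_H hc0.le hK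
  have hγ₂ := ord_mem_H (hc0.le.trans (Order.le_succ c)) hK₂
  set γ := c.ord.toZFSet
  set γ₂ := (Order.succ c).ord.toZFSet
  have hγo : IsOrdinal γ := isOrdinal_toZFSet _
  have hγo₂ : IsOrdinal γ₂ := isOrdinal_toZFSet _
  have hγγ : γ ∈ γ₂ := Ordinal.toZFSet_mem_toZFSet_iff.2 (ord_lt_ord.2 (Order.lt_succ c))
  have hAK : A ∈ K := (hK A).2 ⟨t, ht, ht _ hAt (by simp), htc⟩
  have hαK : α ∈ K := (hK α).2 ⟨t, ht, ht _ hAt (by simp), htc⟩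
  have hAK₂ : A ∈ K₂ := (hK₂ A).2 ⟨t, ht, ht _ hAt (by simp), htc.trans (Order.lt_succ c)⟩
  have hα : Lh ∅ A α ⊆ Lh ∅ A γ := Lh_le _ _ (hγo.subset_of_mem ((hγ α).2 ⟨hαK, ho⟩))
  have hN := la_Lh hKZ.1 (hα hA) hAK hγ
  have hsub : Lh ∅ A γ ⊆ Lh ∅ A γ₂ := Lh_le _ _ (hγo₂.subset_of_mem hγγ)
  have hN₂ := la_Lh hKZ₂.1 (hsub (hα hA)) hAK₂ hγ₂
  have hNK : (Lh ∅ A γ : Set V) ⊆ K := Lh_subset hKZ.1 hKZ.1.empty hAK fun β hβ => ((hγ β).1 hβ).1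
  set N := Lh ∅ A γ
  set N₂ := Lh ∅ A γ₂
  have hz := hN₂.1.1
  refine ⟨N, A, N₂, trans_Lh isTransitive_empty _ _ _ (hα hx), hN,
    lh_mem hz hz.empty hN₂.2.1 (ord_subset_Lh isTransitive_empty A hγo₂ hγγ), hN₂.1,
    fun y hy f hf hF => ?_⟩
  have hrN : ran f ⊆ N := fun z hz => by
    obtain ⟨u, hu⟩ := mem_ran.1 hz
    exact (pair_mem_prod.1 (hF.1 hu)).2
  have hOnto : Onto f y (ran f) := ⟨⟨fun z hz => by
    obtain ⟨a, ha, b, -, rfl⟩ := mem_prod.1 (hF.1 hz)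
    exact pair_mem_prod.2 ⟨ha, mem_ran.2 ⟨a, hz⟩⟩, hF.2⟩, fun z hz => by
    obtain ⟨u, hu⟩ := mem_ran.1 hz
    exact ⟨u, (pair_mem_prod.1 (hF.1 hu)).1, hu⟩⟩
  refine ⟨ran f, ?_, hOnto⟩
  have hr₂ : ran f ∈ N₂ := tm1 (K := ZF) (t := fun _ f => ran f) hz hf
  have hcr : card (ran f) < c := by
    obtain ⟨s, hs, hys, hl⟩ := (hK y).1 (hNK hy)
    refine lt_of_le_of_lt ?_ ((card_mono (hs y hys)).trans_lt hl)
    have e : ran f = img (ap f) y := by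
      ext z
      rw [mem_img]
      refine ⟨fun h => ?_, ?_⟩
      · obtain ⟨u, hu, h'⟩ := hOnto.2 z h
        exact ⟨u, hu, ap_eq h' fun w hw => (hF.2 u hu).unique hw h'⟩
      · rintro ⟨u, hu, rfl⟩
        obtain ⟨w, hw, hw'⟩ := hF.2 u hu
        exact mem_ran.2 ⟨u, by rwa [ap_eq hw hw']⟩
    have := lift_card_range_le (f := fun u : y => ap f u)
    rw [cardinalMk_coe_sort] at this
    rw [e]
    simpa [img] using this
  have hrK : ran f ∈ K := mem_H hc hK (fun z h => hNK (hrN h)) hcr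
  obtain ⟨s, hs, hrs, hl⟩ := (hK _).1 (hKZ.1.pair _ hrK _ hAK)
  have hTt : IsTransitive (s ∩ N₂) := hs.inter (isTransitive_of hz)
  have hrT : ran f ∈ s ∩ N₂ := mem_inter.2 ⟨hs _ hrs (by simp), hr₂⟩
  have hAT : A ∈ s ∩ N₂ := mem_inter.2 ⟨hs _ hrs (by simp), hN₂.2.1⟩
  have hTc : card (s ∩ N₂) < c := (card_mono fun z h => (mem_inter.1 h).1).trans_lt hl
  obtain ⟨X, hTX, hXN, hXc, hX, -⟩ := exists_hull N₂ (s ∩ N₂ : V) (fun z h => (mem_inter.1 h).2)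
    ⟨A, hAT⟩ (lift.{1} (max ℵ₀ (card (s ∩ N₂)))) (aleph0_le_lift.2 (le_max_left _ _))
    (by rw [show #((s ∩ N₂ : V) : Set V) = #(s ∩ N₂ : V) from rfl, cardinalMk_coe_sort]
        exact lift_le.2 (le_max_right _ _)) fun _ _ _ => True
  obtain ⟨π, hπ⟩ := exists_col X
  obtain ⟨hMt, -, hE⟩ := col_emb hz.trans hX hπ
  have hfix := col_fix hπ (fun u hu w hw => hTt u hu hw) hTX
  have hM := hE.zfcm hMt ⟨_, A, hTX hAT, rfl⟩ hN₂.1
  have hLM : LA (π '' X) A := (la_transfer hE.pe hM hN₂.1 hE.dom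
    ⟨hTX hAT, (hfix A fun w hw => hTt A hAT hw).symm⟩).2 hN₂
  obtain ⟨β, hβ, hβo, hrβ⟩ := hLM.2.2 (ran f) ⟨_, hTX hrT, hfix _ fun w hw => hTt _ hrT hw⟩
  have hβc : card β < c := by
    have h1 : #(β : Set V) ≤ #(π '' X) := mk_le_mk_of_subset fun w hw => hMt β hβ w hw
    have h2 := (h1.trans mk_image_le).trans hXc
    rw [show #(β : Set V) = #β from rfl, cardinalMk_coe_sort] at h2
    exact (lift_le.1 h2).trans_lt (max_lt hc0 hTc)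
  have hβγ : β ∈ γ := (hγ β).2 ⟨(hK β).2 ⟨insert β β, (isOrdinal_succ hβo).isTransitive,
    mem_insert _ _, card_insert_lt hc0.le hβc⟩, hβo⟩
  exact Lh_le _ _ (hγo.subset_of_mem hβγ) hrβ

end Pool.Agent.Lib.MP_329f2d_lc
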