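import Pool.Agent.Lib.MP_329f2d_lc.H58Rec
import Pool.Agent.Lib.MP_329f2d_lc.H59Defs2

/-! Cardinals of a transitive model of ZFC. -/

open ZFSet

set_option synthInstance.maxSize 4000

namespace Pool.Agent.Lib.MP_329f2d_lc

namespace H42

variable {W : Set V} {f g a b c : V}

theorem onto_graph {F : V → V} (h1 : ∀ x ∈ a, F x ∈ b) (h2 : ∀ y ∈ b, ∃ x ∈ a, F x = y) :
    Onto (graph F a) a b := by
  refine ⟨⟨fun z hz => ?_, fun x hx => ⟨F x, pair_mem_graph.2 ⟨hx, rfl⟩, fun y hy =>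
    (pair_mem_graph.1 hy).2.symm⟩⟩, fun y hy => ?_⟩
  · obtain ⟨x, hx, rfl⟩ := mem_graph.1 hz
    exact pair_mem_prod.2 ⟨hx, h1 x hx⟩
  · obtain ⟨x, hx, e⟩ := h2 y hy
    exact ⟨x, hx, pair_mem_graph.2 ⟨hx, e⟩⟩

theorem onto_ap_eq (h : Onto f a b) {x y : V} (hx : pair x y ∈ f) : ap f x = y := by
  obtain ⟨w, -, hw⟩ := h.1.2 x (pair_mem_prod.1 (h.1.1 hx)).1
  exact ap_eq hx fun z hz => (hw z hz).trans (hw y hx).symm

theorem onto_pair (h : Onto f a b) {x : V} (hx : x ∈ a) : pair x (ap f x) ∈ f := by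
  obtain ⟨w, hw, -⟩ := h.1.2 x hx
  rwa [onto_ap_eq h hw]

theorem onto_mem (h : Onto f a b) {x : V} (hx : x ∈ a) : ap f x ∈ b :=
  (pair_mem_prod.1 (h.1.1 (onto_pair h hx))).2

theorem onto_surj (h : Onto f a b) {y : V} (hy : y ∈ b) : ∃ x ∈ a, ap f x = y :=
  (h.2 y hy).imp fun _ hx => ⟨hx.1, onto_ap_eq h hx.2⟩

theorem onto_empty (h : Onto f ∅ b) : b = ∅ :=
  (eq_empty b).2 fun y hy => by
    obtain ⟨x, hx, -⟩ := h.2 y hy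
    exact notMem_empty x hx

theorem comp (hW : ZF W) (ha : a ∈ W) (h1 : ∃ f ∈ W, Onto f a b) (h2 : ∃ g ∈ W, Onto g b c) :
    ∃ h ∈ W, Onto h a c := by
  obtain ⟨f, hf, h1⟩ := h1
  obtain ⟨g, hg, h2⟩ := h2
  refine ⟨graph (fun x => ap g (ap f x)) a,
    tm3 (K := ZF) (t := fun _ f g a => graph (fun x => ap g (ap f x)) a) hW hf hg ha,
    onto_graph (fun x hx => onto_mem h2 (onto_mem h1 hx)) fun z hz => ?_⟩
  obtain ⟨y, hy, rfl⟩ := onto_surj h2 hz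
  obtain ⟨x, hx, rfl⟩ := onto_surj h1 hy
  exact ⟨x, hx, rfl⟩

open Classical in
theorem onto_sub (hW : ZF W) (ha : a ∈ W) (hb : b ∈ W) (h : b ⊆ a) (h0 : b ≠ ∅) :
    ∃ f ∈ W, Onto f a b := by
  obtain ⟨y, hy⟩ : ∃ y, y ∈ b := by
    by_contra hn
    exact h0 ((eq_empty b).2 fun y hy => hn ⟨y, hy⟩)
  refine ⟨graph (fun x => if x ∈ b then x else y) a,
    tm3 (K := ZF) (t := fun _ b y a => graph (fun x => if x ∈ b then x else y) a) hW hb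
      (hW.mem hy hb) ha, onto_graph (fun x _ => ?_) fun z hz => ⟨z, h hz, if_pos hz⟩⟩
  split_ifs with hx
  exacts [hx, hy]

theorem exists_trans (hW : ZF W) (x : V) : x ∈ W → ∃ t ∈ W, IsTransitive t ∧ x ∈ t := by
  induction x using ZFSet.inductionOn with
  | _ x ih =>
    intro hx
    obtain ⟨b, hb, hb'⟩ := Df.coll (K := ZF) (Γ := Empty) (fun _ _ y t => IsTransitive t ∧ y ∈ t)
      hW (v := Empty.elim) (fun i => i.elim) hx fun y hy => ih y hy (hW.mem hy hx)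
    refine ⟨insert x (⋃₀ ZFSet.sep IsTransitive b),
      tm2 (K := ZF) (t := fun _ x b => insert x (⋃₀ ZFSet.sep IsTransitive b)) hW hx hb,
      fun y hy z hz => mem_insert_of_mem _ ?_, mem_insert _ _⟩
    rcases mem_insert_iff.1 hy with rfl | hy
    · obtain ⟨t, ht, h1, h2⟩ := hb' z hz
      exact mem_sUnion.2 ⟨t, mem_sep.2 ⟨ht, h1⟩, h2⟩
    · obtain ⟨t, ht, h1⟩ := mem_sUnion.1 hy
      exact mem_sUnion.2 ⟨t, ht, (mem_sep.1 ht).2 y h1 hz⟩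

theorem cantor (h : ZFC W) (ha : a ∈ W) :
    ∃ γ ∈ W, IsOrdinal γ ∧ γ ≠ ∅ ∧ ¬ ∃ g ∈ W, Onto g a γ := by
  have hW : ZF W := h.1.1
  obtain ⟨p, hp, hp'⟩ := h.2 a ha
  obtain ⟨γ, hγ, ho, f, hf, hf'⟩ := h.1.2 p hp
  refine ⟨γ, hγ, ho, ?_, fun hg => ?_⟩
  · rintro rfl
    have := hp' ∅ hW.empty (empty_subset _)
    rw [onto_empty hf'] at this
    exact notMem_empty _ this
  · obtain ⟨g, hg, hg'⟩ := comp hW ha hg ⟨f, hf, hf'⟩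
    obtain ⟨x, hx, e⟩ := onto_surj hg' (hp' (ZFSet.sep (fun x => x ∉ ap g x) a)
      (tm2 (K := ZF) (t := fun _ g a => ZFSet.sep (fun x => x ∉ ap g x) a) hW hg ha)
      fun _ hy => (mem_sep.1 hy).1)
    have : x ∈ ap g x ↔ x ∉ ap g x := by
      conv_lhs => rw [e, mem_sep]
      exact and_iff_right hx
    exact iff_not_self this

theorem code_unique {α t t' f' : V} (ht : IsTransitive t) (ht' : IsTransitive t')
    (h : Onto f α t) (h' : Onto f' α t')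
    (e : ∀ ξ ∈ α, ∀ η ∈ α, ap f ξ ∈ ap f η ↔ ap f' ξ ∈ ap f' η) (y : V) :
    ∀ η ∈ α, ap f η = y → ap f' η = y := by
  induction y using ZFSet.inductionOn with
  | _ y ih =>
    rintro η hη rfl
    ext z
    constructor
    · intro hz
      obtain ⟨ξ, hξ, rfl⟩ := onto_surj h' (ht' _ (onto_mem h' hη) hz)
      have := (e ξ hξ η hη).2 hz
      rwa [ih _ this ξ hξ rfl]
    · intro hz
      obtain ⟨ξ, hξ, rfl⟩ := onto_surj h (ht _ (onto_mem h hη) hz)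
      rw [← ih _ hz ξ hξ rfl]
      exact (e ξ hξ η hη).1 hz

end H42

open H42

theorem ZFC.exists_card {W : Set V} (h : ZFC W) {α : V} (hα : α ∈ W) (ho : IsOrdinal α) :
    ∃ θ, Card W θ ∧ α ∈ θ ∧ ¬ ∃ f ∈ W, Onto f α θ := by
  have hW : ZF W := h.1.1
  have hβ : insert α α ∈ W := hW.insert hα hα
  obtain ⟨θ, ⟨h1, h2, h3, h4⟩, hmin⟩ := mem_wf.has_min
    {γ : V | γ ∈ W ∧ IsOrdinal γ ∧ γ ≠ ∅ ∧ ¬ ∃ g ∈ W, Onto g (insert α α) γ} (cantor h hβ)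
  refine ⟨θ, ⟨h1, h2, fun δ hδ hf => h4 (comp hW hβ ?_ hf)⟩, ?_, fun hf => h4 (comp hW hβ ?_ hf)⟩
  · by_contra hn
    refine hmin δ ⟨hW.mem hδ h1, h2.mem hδ, ?_, hn⟩ hδ
    rintro rfl
    obtain ⟨f, -, hf⟩ := hf
    exact h3 (onto_empty hf)
  · by_contra hn
    exact h4 (onto_sub hW hβ h1
      (fun _ hx => mem_insert_of_mem _ ((ho.notMem_iff_subset h2).1 hn hx)) h3)
  · refine onto_sub hW hβ hα (fun _ hx => mem_insert_of_mem _ hx) ?_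
    rintro rfl
    obtain ⟨f, -, hf⟩ := hf
    exact h3 (onto_empty hf)

theorem ZFC.hartogs {W : Set V} (h : ZFC W) {a : V} (ha : a ∈ W) :
    ∃ ρ ∈ W, IsOrdinal ρ ∧ ρ ≠ ∅ ∧ ¬ ∃ f ∈ W, Onto f a ρ := cantor h ha

theorem ZFC.exists_inH {W : Set V} (h : ZFC W) {α x : V} (hα : α ∈ W) (ho : IsOrdinal α)
    (hx : x ∈ W) : ∃ θ, Card W θ ∧ α ∈ θ ∧ InH W θ x := by
  obtain ⟨t, ht, ht', hxt⟩ := H42.exists_trans h.1.1 x hx
  obtain ⟨γ, hγ, ho', hf⟩ := h.1.2 t ht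
  rcases ho.subset_total ho' with h1 | h1
  · obtain ⟨θ, hθ, h2, -⟩ := h.exists_card hγ ho'
    exact ⟨θ, hθ, ho.mem_of_subset_of_mem hθ.2.1 h1 h2, t, ht, ht', hxt, γ, h2, hf⟩
  · obtain ⟨θ, hθ, h2, -⟩ := h.exists_card hα ho
    exact ⟨θ, hθ, h2, t, ht, ht', hxt, γ, ho'.mem_of_subset_of_mem hθ.2.1 h1 h2, hf⟩

theorem ZFC.inH_bound {W : Set V} (h : ZFC W) {θ : V} (hθ : Card W θ) :
    ∃ Z ∈ W, ∀ x, InH W θ x → x ∈ Z := by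
  have hW : ZF W := h.1.1
  obtain ⟨p, hp, hp'⟩ := h.2 _ (tm1 (K := ZF) (t := fun _ θ => prod θ θ) hW hθ.1)
  let C : Set V → V → V → Prop := fun W z y => ∃ t ∈ W, IsTransitive t ∧ ∃ f ∈ W,
    Onto f (fst z) t ∧ y = ap f (fst (snd z)) ∧
      ∀ ξ ∈ fst z, ∀ η ∈ fst z, (pair ξ η ∈ snd (snd z) ↔ ap f ξ ∈ ap f η)
  obtain ⟨Z, hZ, hZ'⟩ := Df.coll (K := ZF) (Γ := Empty)
    (fun W _ z y => (∃ y' ∈ W, C W z y') → C W z y) hW (v := Empty.elim) (fun i => i.elim)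
    (tm2 (K := ZF) (t := fun _ θ p => prod θ (prod θ p)) hW hθ.1 hp) fun z _ => by
      by_cases hz : ∃ y' ∈ W, C W z y'
      · obtain ⟨y, h1, h2⟩ := hz
        exact ⟨y, h1, fun _ => h2⟩
      · exact ⟨∅, hW.empty, fun h => absurd h hz⟩
  refine ⟨Z, hZ, ?_⟩
  rintro x ⟨t, ht, ht', hx, α, hα, f, hf, hf'⟩
  obtain ⟨η, hη, rfl⟩ := onto_surj hf' hx
  have hs := hθ.2.1.subset_of_mem hα
  have hr : ZFSet.sep (fun z => ap f (fst z) ∈ ap f (snd z)) (prod θ θ) ∈ W :=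
    tm2 (K := ZF) (t := fun _ f θ => ZFSet.sep (fun z => ap f (fst z) ∈ ap f (snd z)) (prod θ θ))
      hW hf hθ.1
  have hr' : ∀ ξ ∈ α, ∀ ζ ∈ α, pair ξ ζ ∈ ZFSet.sep (fun z => ap f (fst z) ∈ ap f (snd z))
      (prod θ θ) ↔ ap f ξ ∈ ap f ζ := fun ξ hξ ζ hζ => by
    simp [mem_sep, hs hξ, hs hζ]
  obtain ⟨y, hy, hy'⟩ := hZ' (pair α (pair η _)) (pair_mem_prod.2 ⟨hα, pair_mem_prod.2
    ⟨hs hη, hp' _ hr fun _ hz => (mem_sep.1 hz).1⟩⟩)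
  simp only [C, fst_pair, snd_pair] at hy'
  obtain ⟨t', -, h1, f', -, h2, rfl, h3⟩ :=
    hy' ⟨_, hW.mem hx ht, t, ht, ht', f, hf, hf', rfl, hr'⟩
  rwa [← code_unique ht' h1 hf' h2 (fun ξ hξ ζ hζ => (hr' ξ hξ ζ hζ).symm.trans (h3 ξ hξ ζ hζ))
    _ η hη rfl]

theorem Om1.unique {W : Set V} (_h : ZFm W ∅) {w w' : V} (h1 : Om1 W w) (h2 : Om1 W w') :
    w = w' := by
  rcases h1.2.1.mem_trichotomous h2.2.1 with h | h | h
  exacts [absurd (h2.2.2.2 _ h) h1.2.2.1, h, absurd (h1.2.2.2 _ h) h2.2.2.1]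

theorem exists_ords {W : Set V} (h : ZFm W ∅) {N : V} (hN : N ∈ W) (ht : IsTransitive N) :
    ∃ τ ∈ W, IsOrdinal τ ∧ ∀ α, α ∈ τ ↔ α ∈ (N : Set V) ∧ IsOrdinal α :=
  ⟨ZFSet.sep IsOrdinal N, tm1 (K := ZF) (t := fun _ N => ZFSet.sep IsOrdinal N) h hN,
    isOrdinal_iff_forall_mem_isOrdinal.2 ⟨fun _ hx _ hy => mem_sep.2
      ⟨ht _ (mem_sep.1 hx).1 hy, (mem_sep.1 hx).2.mem hy⟩, fun _ hx => (mem_sep.1 hx).2⟩,
    fun _ => mem_sep⟩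

end Pool.Agent.Lib.MP_329f2d_lc
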