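import Pool.Agent.Lib.MP_329f2d_lc.H58Nat
import Pool.Agent.Lib.MP_329f2d_lc.H42Card

/-!
Generic extensions of countable sets are countable.
-/

open ZFSet

namespace Pool.Agent.Lib.MP_329f2d_lc

theorem Ctbl.extV {W : Set V} (h : ZFm W ∅) {M H : V} (_hM : M ∈ W) (hH : H ∈ W) (hc : Ctbl W M) :
    Ctbl W (ExtV M H) := by
  have e : ∀ z, z ∈ ExtV M H ↔ ∃ τ ∈ M, val H τ = z := fun z => by simp [ExtV]
  rcases hc with rfl | ⟨f, hf, hf'⟩
  · exact .inl ((eq_empty _).2 fun z hz => by simpa using (e z).1 hz)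
  · refine .inr ⟨graph (fun n => val H (ap f n)) omega,
      tm3 (K := ZF) (t := fun _ H f a => graph (fun n => val H (ap f n)) a) h hH hf h.omega,
      H42.onto_graph (fun n hn => (e _).2 ⟨_, H42.onto_mem hf' hn, rfl⟩) fun z hz => ?_⟩
    obtain ⟨τ, hτ, rfl⟩ := (e z).1 hz
    obtain ⟨n, hn, rfl⟩ := H42.onto_surj hf' hτ
    exact ⟨n, hn, rfl⟩

end Pool.Agent.Lib.MP_329f2d_lc
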