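import Pool.Agent.Lib.MP_329f2d_lc.H35L
import Pool.Agent.Lib.MP_329f2d_lc.H2W
import Pool.Agent.Lib.MP_329f2d_lc.H38G3

/-!
Generic extensions of models of `V = L[A]`, and fullness.
-/

open ZFSet Cardinal

namespace Pool.Agent.Lib.MP_329f2d_lc

open H35

theorem LA.ext {M A P H : V} (h : LA M A) (hP : P ∈ M) (hPo : Po P)
    (hH : Generic M P H) : ∃ B, LA (Ext M H) B := by
  have hM := h.1.1
  have hK := ext_zfcm hM hP hPo hH h.1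
  have hs := subset_ext hM hP hPo hH
  obtain ⟨B, hB, α, hα, ho, h1, h2⟩ :=
    exists_code hK (hK.1.pair A (hs h.2.1) H (self_mem_ext hM hP hPo hH))
  have hγ : ∀ β, β ∈ ZFSet.sep IsOrdinal M ↔ β ∈ Ext M H ∧ IsOrdinal β := fun β =>
    mem_sep.trans ⟨fun h => ⟨hs h.1, h.2⟩, fun h => ⟨ext_ord hM hP hPo hH β h.1 h.2, h.2⟩⟩
  have hL := zfm_Lh hK.1 hK.1.empty isTransitive_empty hB hγ
  have hsub : Lh ∅ B α ⊆ Lh ∅ B (ZFSet.sep IsOrdinal M) :=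
    Lh_le _ _ fun β hβ => (hγ β).2 ⟨hK.1.mem hβ hα, ho.mem hβ⟩
  have hAH := hsub h1
  have hML : (M : Set V) ⊆ Lh ∅ B (ZFSet.sep IsOrdinal M) :=
    H35.LA.subset h hL (hL.mem (by simp) hAH) fun β hβ hβo =>
      ord_subset_Lh isTransitive_empty B (isOrdinal_ords (isTransitive_of hM))
        (mem_sep.2 ⟨hβ, hβo⟩)
  refine ⟨B, hK, hB, ?_⟩
  rintro _ ⟨τ, hτ, rfl⟩
  have := val_mem hL (G := H) (hL.mem (by simp) hAH) (hML hτ)
  rcases (mem_Lh _ _ _ _).1 this with h' | ⟨β, hβ, h'⟩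
  · exact absurd h' (notMem_empty _)
  · obtain ⟨h3, h4⟩ := (hγ β).1 hβ
    exact ⟨insert β β, hK.1.insert h3 h3, isOrdinal_succ h4, mem_succ_of_mem_Def h'⟩

theorem full_ext {M₂ M A P H : V} (h₂ : ZFCm M₂ ∅) (hc : (M₂ : Set V).Countable) (hM : M ∈ M₂)
    (hL : LA M A) (hr : Reg M₂ M) (hP : P ∈ M) (hPo : Po P) (hH : Generic M₂ P H) :
    Full w1 (ExtV M H) := by
  have hZ := hL.1.1
  have hP₂ : P ∈ M₂ := h₂.1.mem hP hM
  have hH' : Generic M P H := ⟨hH.1, fun D hD => hH.2 D (h₂.1.mem hD hM)⟩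
  have hK := ext_zfcm h₂.1 hP₂ hPo hH h₂
  have hs := subset_ext h₂.1 hP₂ hPo hH
  obtain ⟨B, hB⟩ := hL.ext hP hPo hH'
  rw [← coe_ExtV] at hB
  set N := ExtV M H with hN
  have hNt := isTransitive_of hB.1.1
  have hτ : ∀ β, β ∈ ZFSet.sep IsOrdinal M ↔ β ∈ N ∧ IsOrdinal β := fun β => by
    have e : β ∈ N ↔ β ∈ Ext M H := by rw [← coe_ExtV]; rfl
    rw [e]
    exact mem_sep.trans ⟨fun h => ⟨subset_ext hZ hP hPo hH' h.1, h.2⟩,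
      fun h => ⟨ext_ord hZ hP hPo hH' β h.1 h.2, h.2⟩⟩
  have hNe := hB.eq_Lh hτ
  set τ := ZFSet.sep IsOrdinal M
  have hτ₂ : τ ∈ M₂ := (cls0 (K := ZF) (S := fun _ x => IsOrdinal x) h₂.1).sep h₂.1 hM
  have hτo : IsOrdinal τ := isOrdinal_ords (isTransitive_of hZ)
  have hγ : ∀ β, β ∈ ZFSet.sep IsOrdinal M₂ ↔ β ∈ Ext M₂ H ∧ IsOrdinal β := fun β =>
    mem_sep.trans ⟨fun h => ⟨hs h.1, h.2⟩, fun h => ⟨ext_ord h₂.1 hP₂ hPo hH β h.1 h.2, h.2⟩⟩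
  have hγo : IsOrdinal (ZFSet.sep IsOrdinal M₂) := isOrdinal_ords (isTransitive_of h₂.1)
  set γ := ZFSet.sep IsOrdinal M₂
  have hτγ : τ ∈ γ := mem_sep.2 ⟨hτ₂, hτo⟩
  have hBK : B ∈ Ext M₂ H := by
    have : B ∈ Ext M H := coe_ExtV M H ▸ hB.2.1
    obtain ⟨σ, hσ, e⟩ := this
    exact ⟨σ, h₂.1.mem hσ hM, e⟩
  have hNK : N ∈ Ext M₂ H := hNe ▸ lh_mem hK.1 hK.1.empty hBK (hs hτ₂)
  have hBL : B ∈ Lh ∅ B γ := Lh_le _ _ (hγo.subset_of_mem hτγ) (hNe ▸ hB.2.1)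
  have hLA := la_Lh hK.1 hBL hBK hγ
  have hit : IsTransitive (insert N N) := fun y hy z hz => mem_insert_of_mem _ (by
    rcases mem_insert_iff.1 hy with rfl | hy
    exacts [hz, hNt y hy hz])
  have hL' := zfm_Lh hK.1 (hK.1.insert hNK hNK) hit hK.1.empty hγ
  have hγL := ord_subset_Lh isTransitive_empty B hγo
  have hNL : N ∈ Lh ∅ B γ := by
    have := lh_mem hLA.1.1 hLA.1.1.empty hBL (hγL hτγ)
    rwa [← hNe] at this
  have e : Lh (insert N N) ∅ γ = Lh ∅ B γ := by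
    ext z
    exact ⟨fun hz => Lh_subset hLA.1.1 (hLA.1.1.insert hNL hNL) hLA.1.1.empty
        (fun β hβ => hγL hβ) hz,
      fun hz => Lh_subset hL' hL'.empty ((mem_Lh _ _ _ _).2 (.inl (mem_insert_of_mem _ hB.2.1)))
        (fun β hβ => ord_subset_Lh hit ∅ hγo hβ) hz⟩
  refine ⟨hB.1, γ, ?_, hγo, e ▸ hLA.1, fun x hx f hf => reg_ext h₂.1 hP₂ hPo hH h₂ hM hZ hP hr x hx f
    (Lh_subset hK.1 hK.1.empty hBK (fun β hβ => ((hγ β).1 hβ).1) (e ▸ hf))⟩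
  have hcγ : (γ : Set V).Countable := hc.mono fun z hz => (mem_sep.1 hz).1
  have h1 : card γ ≤ ℵ₀ := by
    have := le_aleph0_iff_set_countable.2 hcγ
    rw [show #(γ : Set V) = #γ from rfl, cardinalMk_coe_sort] at this
    exact lift_le_aleph0.1 this
  show γ ∈ w1
  rw [← hγo.toZFSet_rank_eq] at h1 ⊢
  rw [Ordinal.card_toZFSet] at h1
  refine Ordinal.toZFSet_mem_toZFSet_iff.2 ?_
  rw [← ord_aleph, lt_ord]
  exact h1.trans_lt aleph0_lt_aleph_one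

end Pool.Agent.Lib.MP_329f2d_lc
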