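import Pool.Agent.Lib.MP_329f2d_lc.H2L

/-!
Basic facts on the constructible hierarchy; restriction of elementary maps to inner models.
-/

open ZFSet Cardinal

namespace Pool.Agent.Lib.MP_329f2d_lc

namespace H35

/-- The formula obtained by reading the predicate as empty. -/
def noPred : Fml → Fml
  | .mem i j => .mem i j
  | .eq i j => .eq i j
  | .pred i => .neg (.eq i i)
  | .neg φ => .neg (noPred φ)
  | .and φ ψ => .and (noPred φ) (noPred ψ)
  | .ex φ => .ex (noPred φ)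

theorem sat_noPred (X A : Set V) (φ : Fml) : ∀ v, Sat X A (noPred φ) v ↔ Sat X ∅ φ v := by
  induction φ with
  | mem i j => exact fun _ => Iff.rfl
  | eq i j => exact fun _ => Iff.rfl
  | pred i => intro v; simp [noPred, Sat]
  | neg φ ih => exact fun v => not_congr (ih v)
  | and φ ψ ih ih' => exact fun v => and_congr (ih v) (ih' v)
  | ex φ ih => exact fun v => exists_congr fun x => and_congr_right fun _ => ih _

theorem subset_of_mem_Def {A X y : V} (h : y ∈ Def A X) : y ⊆ X :=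
  mem_powerset.1 (mem_sep.1 h).1

theorem self_Def (A X : V) : X ∈ Def A X :=
  mem_sep.2 ⟨mem_powerset.2 fun _ h => h, .eq 0 0, fun _ => ∅, fun _ => .inr rfl,
    fun _ hz => iff_of_true hz rfl⟩

theorem mem_Def_of_mem {A X y : V} (hX : IsTransitive X) (h : y ∈ X) : y ∈ Def A X :=
  mem_sep.2 ⟨mem_powerset.2 (hX y h), .mem 0 1, fun _ => y, fun _ => .inl h, fun _ _ => Iff.rfl⟩

theorem empty_mem {X z : V} (hX : IsTransitive X) (h : z ∈ X) : (∅ : V) ∈ X := by
  obtain ⟨y, hy, e⟩ := regularity X fun e => notMem_empty z (e ▸ h)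
  have : y = ∅ := by
    rw [← e]
    ext w
    exact ⟨fun hw => mem_inter.2 ⟨hX y hy hw, hw⟩, fun hw => (mem_inter.1 hw).2⟩
  exact this ▸ hy

theorem ords_mem_Def (A : V) {X : V} (hX : IsTransitive X) : ZFSet.sep IsOrdinal X ∈ Def A X := by
  have h : Df Trs fun _ (v : ℕ → V) => IsOrdinal (v 0) := inferInstance
  obtain ⟨φ, hφ⟩ := h.ex id
  refine mem_sep.2 ⟨mem_powerset.2 fun _ h => (mem_sep.1 h).1, noPred φ, fun _ => ∅,
    fun _ => .inr rfl, fun z hz => ?_⟩
  rw [sat_noPred, mem_sep, and_iff_right hz]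
  exact hφ X (fun x hx y hy => hX x hx hy) (cons z fun _ => ∅)
    (cons_mem hz fun _ => empty_mem hX hz)

theorem isOrdinal_ords {X : V} (hX : IsTransitive X) : IsOrdinal (ZFSet.sep IsOrdinal X) :=
  isOrdinal_iff_forall_mem_isOrdinal.2 ⟨fun y hy _ hz =>
    mem_sep.2 ⟨hX y (mem_sep.1 hy).1 hz, (mem_sep.1 hy).2.mem hz⟩, fun _ hy => (mem_sep.1 hy).2⟩

theorem trans_Lh {x : V} (hx : IsTransitive x) (A α : V) : IsTransitive (Lh x A α) := by
  induction α using ZFSet.inductionOn with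
  | _ α ih =>
    intro z hz w hw
    rcases (mem_Lh x A α z).1 hz with h | ⟨β, hβ, h⟩
    · exact (mem_Lh x A α w).2 (.inl (hx z h hw))
    · exact (mem_Lh x A α w).2 (.inr ⟨β, hβ, mem_Def_of_mem (ih β hβ) (subset_of_mem_Def h hw)⟩)

theorem Lh_le (x A : V) {α γ : V} (h : α ⊆ γ) : Lh x A α ⊆ Lh x A γ := fun z hz =>
  (mem_Lh x A γ z).2 (((mem_Lh x A α z).1 hz).imp_right fun ⟨β, hβ, h'⟩ => ⟨β, h hβ, h'⟩)

theorem ord_subset_Lh {x : V} (hx : IsTransitive x) (A : V) {α : V} (hα : IsOrdinal α) :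
    α ⊆ Lh x A α := by
  induction α using ZFSet.inductionOn with
  | _ α ih =>
    intro β hβ
    have h1 := trans_Lh hx A β
    have h2 : ZFSet.sep IsOrdinal (Lh x A β) ∈ Lh x A α :=
      (mem_Lh x A α _).2 (.inr ⟨β, hβ, ords_mem_Def A h1⟩)
    have h3 : β ⊆ ZFSet.sep IsOrdinal (Lh x A β) := fun z hz =>
      mem_sep.2 ⟨ih β hβ (hα.mem hβ) hz, (hα.mem hβ).mem hz⟩
    rcases ((hα.mem hβ).subset_iff_eq_or_mem (isOrdinal_ords h1)).1 h3 with e | h
    · rwa [e]
    · exact trans_Lh hx A α _ h2 h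

theorem mem_succ_of_mem_Def {x A β z : V} (h : z ∈ Def A (Lh x A β)) :
    z ∈ Lh x A (insert β β) := (mem_Lh _ _ _ _).2 (.inr ⟨β, mem_insert _ _, h⟩)

/-- A model that contains the data and the stages includes the hierarchy. -/
theorem Lh_subset {K : Set V} (hK : ZFm K ∅) {x A γ : V} (hx : x ∈ K) (hA : A ∈ K)
    (hγ : ∀ β ∈ γ, β ∈ K) : (Lh x A γ : Set V) ⊆ K := fun z hz => by
  rcases (mem_Lh x A γ z).1 hz with h | ⟨β, hβ, h⟩
  · exact hK.mem h hx
  · exact hK.mem (mem_succ_of_mem_Def h)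
      (lh_mem hK hx hA (hK.insert (hγ β hβ) (hγ β hβ)))

theorem LA.subset {M K : Set V} {A : V} (h : LA M A) (hK : ZFm K ∅) (hA : A ∈ K)
    (ho : ∀ α ∈ M, IsOrdinal α → α ∈ K) : M ⊆ K := fun x hx => by
  obtain ⟨α, hα, ho', h'⟩ := h.2.2 x hx
  exact hK.mem h' (lh_mem hK hK.empty hA (ho α hα ho'))

theorem isTransitive_of {M : V} {A : Set V} (h : ZFm M A) : IsTransitive M :=
  fun x hx y hy => h.trans x hx y hy

/-- Transfer of definable notions along elementary maps. -/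
theorem transfer {M N : Set V} {m : V → V → Prop} (h : PE M N m) (hM : ZFm M ∅) (hN : ZFm N ∅)
    (hd : ∀ x y, m x y → x ∈ M ∧ y ∈ N) (P : Set V → (ℕ → V) → Prop) [hP : Df ZF P]
    {v w : ℕ → V} (hvw : ∀ i, m (v i) (w i)) : P M v ↔ P N w := by
  obtain ⟨φ, hφ⟩ := hP.ex id
  exact (hφ M hM v fun i => (hd _ _ (hvw i)).1).trans
    ((h φ v w hvw).trans (hφ N hN w fun i => (hd _ _ (hvw i)).2).symm)

theorem rel_cons {m : V → V → Prop} {a b : V} {v w : ℕ → V} (h : m a b)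
    (h' : ∀ i, m (v i) (w i)) : ∀ i, m (cons a v i) (cons b w i)
  | 0 => h
  | n + 1 => h' n

/-- The inner model `L[A]` of `W`. -/
def InL (W : Set V) (A : V) : Set V := {x | x ∈ W ∧ ∃ α ∈ W, IsOrdinal α ∧ x ∈ Lh ∅ A α}

theorem eq_InL {M M' : Set V} {A : V} (hM : LA M A) (h1 : M ⊆ M')
    (o1 : ∀ α ∈ M', IsOrdinal α → α ∈ M) : M = InL M' A := by
  ext x
  refine ⟨fun hx => ⟨h1 hx, ?_⟩, fun ⟨_, α, hα, ho, hx⟩ => ?_⟩
  · obtain ⟨α, hα, h⟩ := hM.2.2 x hx
    exact ⟨α, h1 hα, h⟩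
  · exact hM.1.1.mem hx (lh_mem hM.1.1 hM.1.1.empty hM.2.1 (o1 α hα ho))

end H35

open H35

/-- An elementary map between two models restricts to their inner models `L[A]`. -/
theorem Emb.restrict_L {M N M' N' : Set V} {m : V → V → Prop} {A' A : V} (h : Emb M' N' m)
    (hM' : ZFm M' ∅) (hN' : ZFm N' ∅) (hM : LA M A') (hN : LA N A) (h1 : M ⊆ M') (h2 : N ⊆ N')
    (o1 : ∀ α ∈ M', IsOrdinal α → α ∈ M) (o2 : ∀ α ∈ N', IsOrdinal α → α ∈ N) (hA : m A' A) :
    Emb M N fun x y => m x y ∧ x ∈ M := by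
  have e1 := eq_InL hM h1 o1
  have e2 := eq_InL hN h2 o2
  have hD : ∀ {Γ : Type} [Countable Γ] (t : Set V → (Γ → V) → V) [Tm ZF t],
      Dc ZF fun W v => InL W (t W v) := fun t _ => by unfold InL; infer_instance
  refine ⟨fun φ v w hvw => ?_, fun x y hxy => ⟨hxy.2, ?_⟩, fun x hx => ?_⟩
  · have := hD (Γ := ℕ) fun _ v => v 0
    have hS : Df ZF fun W (v : ℕ → V) => Sat (InL W (v 0)) ∅ φ fun i => v (i + 1) :=
      df_Sat φ (fun W v => InL W (v 0)) (fun _ _ => ∅) fun _ v i => v (i + 1)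
    have := transfer h.pe hM' hN' h.dom _ (hP := hS) (v := cons A' v) (w := cons A w)
      (rel_cons hA fun i => (hvw i).1)
    rw [e1, e2]
    exact this
  · have := hD (Γ := ℕ) fun _ v => v 0
    have hS : Df ZF fun W (v : ℕ → V) => v 1 ∈ InL W (v 0) :=
      df_memC (fun _ v => v 1) fun W v => InL W (v 0)
    have := transfer h.pe hM' hN' h.dom _ (hP := hS) (v := cons A' fun _ => x)
      (w := cons A fun _ => y) (rel_cons hA fun _ => hxy.1)
    rw [e2]
    exact this.1 (by have := hxy.2; rwa [e1] at this)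
  · obtain ⟨y, hy⟩ := h.total x (h1 hx)
    exact ⟨y, hy, hx⟩

namespace H35

theorem exists_trans (x : V) : ∃ t : V, IsTransitive t ∧ x ∈ t :=
  ⟨vonNeumann (Order.succ (rank x)), isTransitive_vonNeumann _,
    mem_vonNeumann.2 (Order.lt_succ _)⟩

theorem card_insert_lt {c : Cardinal.{0}} (hc : ℵ₀ ≤ c) {x y : V} (h : card y < c) :
    card (insert x y) < c :=
  card_insert_le.trans_lt (add_lt_of_lt hc h (one_lt_aleph0.trans_le hc))

/-- The ordinals of hereditary size below `c`. -/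
theorem ord_mem_H {c : Cardinal.{0}} (hc : ℵ₀ ≤ c) {K : V}
    (hK : ∀ x, x ∈ K ↔ ∃ t, IsTransitive t ∧ x ∈ t ∧ card t < c) (β : V) :
    β ∈ c.ord.toZFSet ↔ β ∈ K ∧ IsOrdinal β := by
  constructor
  · intro h
    have ho := (isOrdinal_toZFSet _).mem h
    refine ⟨(hK β).2 ⟨insert β β, (isOrdinal_succ ho).isTransitive, mem_insert _ _,
      card_insert_lt hc ?_⟩, ho⟩
    obtain ⟨a, ha, rfl⟩ := Ordinal.mem_toZFSet_iff.1 h
    rwa [Ordinal.card_toZFSet, ← lt_ord]
  · rintro ⟨h, ho⟩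
    obtain ⟨t, ht, hβ, hl⟩ := (hK β).1 h
    have := (card_mono (ht β hβ)).trans_lt hl
    rw [← ho.toZFSet_rank_eq] at this ⊢
    rwa [Ordinal.toZFSet_mem_toZFSet_iff, lt_ord, ← Ordinal.card_toZFSet]

/-- A small set of sets of small hereditary size has small hereditary size. -/
theorem mem_H {c : Cardinal.{0}} (hc : c.IsRegular) {K : V}
    (hK : ∀ x, x ∈ K ↔ ∃ t, IsTransitive t ∧ x ∈ t ∧ card t < c) {r : V} (h : r ⊆ K)
    (hr : card r < c) : r ∈ K := by
  choose t ht hy hl using fun y : r => (hK y.1).1 (h y.2)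
  have hu : IsTransitive (ZFSet.iUnion t) := IsTransitive.iUnion ht
  have hs : r ⊆ ZFSet.iUnion t := fun y hy' => mem_iUnion.2 ⟨⟨y, hy'⟩, hy _⟩
  refine (hK r).2 ⟨insert r (ZFSet.iUnion t), fun y hy z hz => mem_insert_of_mem _ ?_,
    mem_insert _ _, card_insert_lt hc.aleph0_le ?_⟩
  · rcases mem_insert_iff.1 hy with rfl | hy
    exacts [hs hz, hu y hy hz]
  · have h1 := lift_card_iUnion_le_sum_card (f := t)
    have h2 : sum (fun i => lift.{1} (card (t i))) < lift.{1} c :=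
      sum_lt_of_isRegular hc.lift (by rw [cardinalMk_coe_sort]; exact lift_lt.2 hr)
        fun i => lift_lt.2 (hl i)
    have h3 : sum (fun i => card (t i)) = sum fun i => lift.{1} (card (t i)) := by
      have := lift_sum.{1, 0, 1} fun i => card (t i)
      rwa [lift_id] at this
    exact lift_lt.1 (h1.trans_lt (h3 ▸ h2))

end H35

end Pool.Agent.Lib.MP_329f2d_lc
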