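import Pool.Agent.Lib.MP_329f2d_lc.H58Nat
import Pool.Agent.Lib.MP_329f2d_lc.H2Th

/-!
Definability of the notions that quantify over formulas, and transfer and absoluteness of `Cx`
and `Pkg`.
-/

open ZFSet

namespace Pool.Agent.Lib.MP_329f2d_lc

variable {K : Set V → Prop} {Γ : Type}

set_option synthInstance.maxSize 100000

theorem Lst_mono {X Y : V} (h : X ⊆ Y) : ∀ l ∈ Lst X, l ∈ Lst Y :=
  Lst_ind (fun _ hy => single_mem_Lst (h hy)) fun _ hy _ hl => pair_mem_Lst (h hy) hl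

theorem Codes.tr {c X A l : V} {φ : Fml} (h : Codes c φ) (hl : l ∈ Lst X) :
    l ∈ Tr X A c ↔ Sat X A φ (env l) :=
  (h X A l).trans (and_iff_right (Lst_mono (fun _ => mem_insert_of_mem _) l hl))

theorem Codes.tr1 {c X A l x : V} {φ : Fml} (h : Codes c φ) (hl : l ∈ Lst X) (hx : x ∈ X) :
    pair x l ∈ Tr X A c ↔ Sat X A φ (cons x (env l)) := by
  rw [h.tr (pair_mem_Lst hx hl), env_pair (Lst_ne hl)]

theorem Codes.tr2 {c X A l x y : V} {φ : Fml} (h : Codes c φ) (hl : l ∈ Lst X) (hx : x ∈ X)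
    (hy : y ∈ X) : pair y (pair x l) ∈ Tr X A c ↔ Sat X A φ (cons y (cons x (env l))) := by
  rw [h.tr1 (pair_mem_Lst hx hl) hy, env_pair (Lst_ne hl)]

theorem exists_env_lst {X : V} (φ : Fml) {v : ℕ → V} (hv : ∀ i, v i ∈ X) : ∃ l ∈ Lst X,
    ∀ C D : Set V, (∀ x, Sat C D φ (cons x (env l)) ↔ Sat C D φ (cons x v)) ∧
      ∀ x y, Sat C D φ (cons y (cons x (env l))) ↔ Sat C D φ (cons y (cons x v)) := by
  obtain ⟨n, hn⟩ := Sat_bound φ
  obtain ⟨l, hl, e⟩ := exists_lst n v hv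
  refine ⟨l, hl, fun C D => ⟨fun x => hn _ _ _ _ ?_, fun x y => hn _ _ _ _ ?_⟩⟩
  · rintro (_ | i) hi
    exacts [rfl, by rw [cons_succ, cons_succ, e, min_eq_left (by omega)]]
  · rintro (_ | _ | i) hi
    exacts [rfl, rfl, by simp only [cons_succ]; rw [e, min_eq_left (by omega)]]

/-- Elementarity of a relation between set structures, in coded form. -/
def PEc (M B N A : V) (m : V → V → Prop) : Prop :=
  ∀ c ∈ Cd, ∀ l ∈ Lst M, ∀ l' ∈ Lst N, (∀ i ∈ Cd, m (nth l i) (nth l' i)) →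
    (l ∈ Tr M B c ↔ l' ∈ Tr N A c)

theorem pec_iff {M B N A : V} {m : V → V → Prop} (hd : ∀ x y, m x y → x ∈ M ∧ y ∈ N) :
    PEc M B N A m ↔ ∀ (φ : Fml) (v w : ℕ → V), (∀ i, m (v i) (w i)) →
      (Sat M B φ v ↔ Sat N A φ w) := by
  constructor
  · intro h φ v w hvw
    obtain ⟨c, hc, hφ⟩ := exists_code_of φ
    obtain ⟨n, hn⟩ := Sat_bound φ
    obtain ⟨l, hl, e⟩ := exists_lst n v fun i => (hd _ _ (hvw i)).1
    obtain ⟨l', hl', e'⟩ := exists_lst n w fun i => (hd _ _ (hvw i)).2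
    have := h c hc l hl l' hl' fun i _ => by
      obtain ⟨k, hk⟩ := exists_nth i
      rw [hk, hk, e, e']; exact hvw _
    rw [hφ.tr hl, hφ.tr hl'] at this
    exact (hn _ _ _ _ fun i hi => by rw [e, min_eq_left hi.le]).trans
      (this.trans (hn _ _ _ _ fun i hi => by rw [e', min_eq_left hi.le]))
  · intro h c _ l hl l' hl' H
    obtain ⟨φ, hφ⟩ := exists_fml c
    rw [hφ.tr hl, hφ.tr hl']
    refine h φ _ _ fun n => ?_
    obtain ⟨i, hi, e⟩ := exists_idx n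
    rw [← e, ← e]; exact H i hi

theorem pe_iff_pec {M N : V} {m : V → V → Prop} (hd : ∀ x y, m x y → x ∈ M ∧ y ∈ N) :
    PE M N m ↔ PEc M ∅ N ∅ m := by
  rw [pec_iff hd, PE, ZFSet.coe_empty]

theorem zfm_iff {X A : V} : ZFm X A ↔ IsTransitive X ∧ omega ∈ X ∧
    (∀ x ∈ X, ∀ y ∈ X, ({x, y} : V) ∈ X) ∧ (∀ x ∈ X, (⋃₀ x : V) ∈ X) ∧
    (∀ c ∈ Cd, ∀ l ∈ Lst X, ∀ a ∈ X, ∃ b ∈ X, ∀ x, x ∈ b ↔ x ∈ a ∧ pair x l ∈ Tr X A c) ∧
    ∀ c ∈ Cd, ∀ l ∈ Lst X, ∀ a ∈ X, (∀ x ∈ a, ∃ y ∈ X, pair y (pair x l) ∈ Tr X A c) →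
      ∃ b ∈ X, ∀ x ∈ a, ∃ y ∈ b, pair y (pair x l) ∈ Tr X A c := by
  constructor
  · intro h
    refine ⟨fun x hx y hy => h.trans x hx y hy, h.omega, h.pair, h.union, fun c _ l hl a ha => ?_,
      fun c _ l hl a ha H => ?_⟩
    · obtain ⟨φ, hφ⟩ := exists_fml c
      obtain ⟨b, hb, hb'⟩ := h.sep φ _ (env_mem hl) a ha
      exact ⟨b, hb, fun x => (hb' x).trans
        (and_congr_right fun hx => (hφ.tr1 hl (h.mem hx ha)).symm)⟩
    · obtain ⟨φ, hφ⟩ := exists_fml c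
      obtain ⟨b, hb, hb'⟩ := h.coll φ _ (env_mem hl) a ha fun x hx => (H x hx).imp fun y hy =>
        ⟨hy.1, (hφ.tr2 hl (h.mem hx ha) hy.1).1 hy.2⟩
      exact ⟨b, hb, fun x hx => (hb' x hx).imp fun y hy =>
        ⟨hy.1, (hφ.tr2 hl (h.mem hx ha) (h.mem hy.1 hb)).2 hy.2⟩⟩
  · rintro ⟨ht, ho, hp, hu, hs, hc⟩
    refine ⟨fun x hx y hy => ht x hx hy, ho, hp, hu, fun φ v hv a ha => ?_, fun φ v hv a ha H => ?_⟩
    · obtain ⟨c, hc, hφ⟩ := exists_code_of φ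
      obtain ⟨l, hl, e⟩ := exists_env_lst φ hv
      obtain ⟨b, hb, hb'⟩ := hs c hc l hl a ha
      exact ⟨b, hb, fun x => (hb' x).trans (and_congr_right fun hx =>
        (hφ.tr1 hl (ht a ha hx)).trans ((e _ _).1 x))⟩
    · obtain ⟨c, hc', hφ⟩ := exists_code_of φ
      obtain ⟨l, hl, e⟩ := exists_env_lst φ hv
      obtain ⟨b, hb, hb'⟩ := hc c hc' l hl a ha fun x hx => (H x hx).imp fun y hy =>
        ⟨hy.1, (hφ.tr2 hl (ht a ha hx) hy.1).2 (((e _ _).2 x y).2 hy.2)⟩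
      exact ⟨b, hb, fun x hx => (hb' x hx).imp fun y hy =>
        ⟨hy.1, ((e _ _).2 x y).1 ((hφ.tr2 hl (ht a ha hx) (ht b hb hy.1)).1 hy.2)⟩⟩

instance (priority := low) bd_ex2 (B : Set V → (Γ → V) → V → V → Prop)
    [h1 : ∀ x, Bd K fun W v y => B W v x y]
    [h2 : Bd K fun W (v : Option Γ → V) x => B W (fun i => v (some i)) x (v none)] :
    Bd K fun W v x => ∃ y, B W v x y :=
  ⟨fun W hW v hv x ⟨y, H⟩ => h2.bd W hW (fun o => o.elim y v)
    (by rintro (_ | i); exacts [(h1 x).bd W hW v hv y H, hv i]) x H⟩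

variable [hK : Cl K] [Countable Γ]

section Inst

variable (q r s t u : Set V → (Γ → V) → V) [Tm K q] [Tm K r] [Tm K s] [Tm K t] [Tm K u]
  (C : Set V → (Γ → V) → Set V) [Dc K C]

omit hK [Countable Γ] in
theorem Df.app2 (m : Set V → (Γ → V) → V → V → Prop)
    [h : Df K fun W (v : Option (Option Γ) → V) =>
      m W (fun i => v (some (some i))) (v (some none)) (v none)] {Δ : Type} (f : Γ → Δ)
    (a b : Set V → (Δ → V) → V) [Tm K a] [Tm K b] :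
    Df K fun W v => m W (fun i => v (f i)) (a W v) (b W v) :=
  have : Df K fun W (v : Option (Option Δ) → V) =>
      m W (fun i => v (some (some (f i)))) (v (some none)) (v none) :=
    h.ren (Option.map (Option.map f))
  Df.subst2 (fun W v x y => m W (fun i => v (f i)) x y) a b

instance df_PEc (m : Set V → (Γ → V) → V → V → Prop)
    [Df K fun W (v : Option (Option Γ) → V) =>
      m W (fun i => v (some (some i))) (v (some none)) (v none)] :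
    Df K fun W v => PEc (q W v) (r W v) (s W v) (t W v) (m W v) := by
  have := @Df.app2 K Γ m _
  unfold PEc; infer_instance

instance df_Emb (m : Set V → (Γ → V) → V → V → Prop)
    [Df K fun W (v : Option (Option Γ) → V) =>
      m W (fun i => v (some (some i))) (v (some none)) (v none)]
    [h1 : ∀ y, Bd K fun W v x => m W v x y] [h2 : ∀ x, Bd K fun W v y => m W v x y] :
    Df K fun W v => Emb (s W v) (t W v) (m W v) := by
  have := @Df.app2 K Γ m _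
  refine Df.of_iff (Q := fun W v => PEc (s W v) ∅ (t W v) ∅ (m W v) ∧
    (∀ x ∈ W, ∀ y ∈ W, m W v x y → x ∈ s W v ∧ y ∈ t W v) ∧ ∀ x ∈ s W v, ∃ y ∈ W, m W v x y)
    fun W hW v hv => ⟨fun h => ⟨(pe_iff_pec h.dom).1 h.pe, fun x _ y _ => h.dom x y,
      fun x hx => (h.total x hx).imp fun y hy => ⟨(h2 x).bd W hW v hv y hy, hy⟩⟩, fun h => ?_⟩
  have hd : ∀ x y, m W v x y → x ∈ s W v ∧ y ∈ t W v := fun x y H =>
    h.2.1 x ((h1 y).bd W hW v hv x H) y ((h2 x).bd W hW v hv y H) H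
  exact ⟨(pe_iff_pec hd).2 h.1, hd, fun x hx => (h.2.2 x hx).imp fun _ hy => hy.2⟩

instance df_Elem : Df K fun W v => Elem (q W v) (r W v) (s W v) (t W v) (u W v) :=
  Df.of_iff (Q := fun W v => IsFunc (r W v) (t W v) (q W v) ∧
    PEc (r W v) (s W v) (t W v) (u W v) fun x y => pair x y ∈ q W v) fun _ _ _ _ =>
    and_congr_right fun h => (pec_iff fun _ _ H => pair_mem_prod.1 (h.1 H)).symm

instance df_ZFm : Df K fun W v => ZFm (s W v) (t W v) :=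
  Df.of_iff fun _ _ _ _ => zfm_iff

instance df_ZFm0 : Df K fun W v => ZFm (s W v) ∅ :=
  Df.of_iff (Q := fun W v => ZFm (s W v) (∅ : V)) fun _ _ _ _ => by rw [ZFSet.coe_empty]

instance df_ZFCm : Df K fun W v => ZFCm (s W v) (t W v) := by unfold ZFCm; infer_instance

instance df_ZFCm0 : Df K fun W v => ZFCm (s W v) ∅ := by unfold ZFCm; infer_instance

instance df_ZFC : Df K fun W v => ZFC (s W v) := by unfold ZFC; infer_instance

instance df_LA : Df K fun W v => LA (s W v) (t W v) := by unfold LA; infer_instance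

omit [Countable Γ] in
instance bd_LA : Bd K fun W v x => LA (s W v) x :=
  ⟨fun W hW v hv _ h => (hK.zf W hW).mem h.2.1 (Tm.mem (K := K) (t := s) W hW v hv)⟩

instance df_Full : Df K fun W v => Full (C W v) (s W v) := by unfold Full; infer_instance

instance df_Nm (a : Set V → (Γ → V) → V) [Tm K a] :
    Df K fun W v => Nm (q W v) (r W v) (In3 (s W v)) (t W v) (u W v) (a W v) :=
  Df.of_iff (Q := fun W v =>
    (∀ p x y, In3 (s W v) p x y → pair p p ∈ q W v ∧ x ∈ t W v ∧ y ∈ u W v) ∧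
    (∀ p p' x y, In3 (s W v) p x y → pair p' p ∈ q W v → In3 (s W v) p' x y) ∧
    (∀ p, pair p (r W v) ∈ q W v → ∀ x ∈ t W v, ∃ p' y, pair p' p ∈ q W v ∧ In3 (s W v) p' x y) ∧
    (∀ p, pair p (r W v) ∈ q W v → PEc (t W v) ∅ (u W v) ∅ (In3 (s W v) p)) ∧
    ∀ p, pair p (r W v) ∈ q W v → ∀ x ∈ a W v, ∀ y, In3 (s W v) p x y →
      ∀ p₁, pair p₁ p ∈ q W v → ∃ p₂, pair p₂ p₁ ∈ q W v ∧ pair p₂ y ∈ q W v)
    fun _ _ _ _ => ⟨fun h => ⟨h.dom, h.mono, h.total,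
      fun p hp => (pe_iff_pec fun x y H => (h.dom p x y H).2).1 (h.pe p hp), h.gen⟩,
      fun h => ⟨h.2.1, h.1, h.2.2.1,
        fun p hp => (pe_iff_pec fun x y H => (h.1 p x y H).2).2 (h.2.2.2.1 p hp), h.2.2.2.2⟩⟩

instance df_RelSub (a : Set V → (Γ → V) → V) [Tm K a] :
    Df K fun W v => RelSub (C W v) (q W v) (r W v) (s W v) (t W v) (u W v) (a W v) := by
  unfold RelSub; infer_instance

instance df_Cx : Df K fun W v => Cx (C W v) (r W v) (s W v) (t W v) := by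
  unfold Cx; infer_instance

instance df_Pkg : Df K fun W v => Pkg (C W v) (q W v) (r W v) (s W v) (t W v) (u W v) :=
  Df.of_iff (Q := fun W v => Po (r W v) ∧ Om1 (C W v) (q W v) ∧
    (∀ F ∈ C W v, FunNm (r W v) F omega (q W v) → ∀ c, pair c c ∈ r W v →
      ∃ c', pair c' c ∈ r W v ∧ ∃ δ ∈ q W v, ∀ p n ξ, pair p c' ∈ r W v → In3 F p n ξ → ξ ∈ δ) ∧
    (∀ F ∈ C W v, FunNm (r W v) F (q W v) (s W v) → ∃ a ∈ s W v, ∀ p ξ, ¬ In3 F p ξ a) ∧
    (∀ x ∈ C W v, ¬ Cx (C W v) (q W v) (r W v) x) ∧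
    (∀ p α x, In3 (t W v) p α x →
      pair p p ∈ r W v ∧ α ∈ q W v ∧ x ≠ ∅ ∧ Ctbl (C W v) x ∧ ∀ y ∈ x, y ⊆ α) ∧
    (∀ p p' α x, In3 (t W v) p α x → pair p' p ∈ r W v → In3 (t W v) p' α x) ∧
    (∀ p α x α' x', In3 (t W v) p α x → In3 (t W v) p α' x' → α ⊆ α' →
      ∀ z, z ∈ x ↔ ∃ y ∈ x', z = y ∩ α) ∧
    (∀ p a z, In3 (u W v) p a z → pair p p ∈ r W v ∧ ∃ α ∈ q W v, ∃ x, x ⊆ α ∧ z = pair α x) ∧
    (∀ p p' a z, In3 (u W v) p a z → pair p' p ∈ r W v → In3 (u W v) p' a z) ∧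
    (∀ p a α x α' x', In3 (u W v) p a (pair α x) → In3 (u W v) p a (pair α' x') → α ⊆ α' →
      x = x' ∩ α) ∧
    (∀ a ∈ s W v, ∀ α ∈ q W v, ∀ p, pair p p ∈ r W v → ∃ p' x y, pair p' p ∈ r W v ∧
      In3 (u W v) p' a (pair α x) ∧ In3 (t W v) p' α y ∧ x ∈ y) ∧
    ∀ a ∈ s W v, ∀ a' ∈ s W v, a ≠ a' → ∀ p, pair p p ∈ r W v → ∃ p' α x x', pair p' p ∈ r W v ∧
      In3 (u W v) p' a (pair α x) ∧ In3 (u W v) p' a' (pair α x') ∧ x ≠ x')
    fun _ _ _ _ => ⟨fun h => ⟨h.1, h.2, h.3, h.4, h.5, h.6, h.7, h.8, h.9, h.10, h.11, h.12, h.13⟩,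
      fun ⟨h1, h2, h3, h4, h5, h6, h7, h8, h9, h10, h11, h12, h13⟩ =>
        ⟨h1, h2, h3, h4, h5, h6, h7, h8, h9, h10, h11, h12, h13⟩⟩

end Inst

omit hK

theorem cx_transfer {M K : Set V} {m : V → V → Prop} (h : PE M K m) (hM : ZFm M ∅) (hK : ZFm K ∅)
    (hd : ∀ x y, m x y → x ∈ M ∧ y ∈ K) {w' w P' P x' x : V} (hw : m w' w) (hP : m P' P)
    (hx : m x' x) : Cx M w' P' x' ↔ Cx K w P x :=
  pe3 (K := ZF) (fun W w P x => Cx W w P x) h hM hK hd hw hP hx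

theorem pkg_transfer {M K : Set V} {m : V → V → Prop} (h : PE M K m) (hM : ZFm M ∅) (hK : ZFm K ∅)
    (hd : ∀ x y, m x y → x ∈ M ∧ y ∈ K) {w' w P' P I' I L' L N' N : V} (hw : m w' w) (hP : m P' P)
    (hI : m I' I) (hL : m L' L) (hN : m N' N) : Pkg M w' P' I' L' N' ↔ Pkg K w P I L N :=
  pe5 (K := ZF) (fun W w P I L N => Pkg W w P I L N) h hM hK hd hw hP hI hL hN

theorem exists_rank_eq {t : V} (ht : IsTransitive t) {o : Ordinal} (h : o < rank t) :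
    ∃ y ∈ t, rank y = o := by
  obtain ⟨y, ⟨hy, h1⟩, hm⟩ := mem_wf.has_min {y | y ∈ t ∧ o ≤ rank y} (lt_rank_iff.1 h)
  refine ⟨y, hy, (h1.eq_or_lt.resolve_right fun h2 => ?_).symm⟩
  obtain ⟨z, hz, h3⟩ := lt_rank_iff.1 h2
  exact hm z ⟨ht y hy hz, h3⟩ hz

theorem Ctbl.countable {W : Set V} {x : V} (h : Ctbl W x) : (x : Set V).Countable := by
  rcases h with rfl | ⟨f, -, hf⟩
  · simp
  · refine (Set.countable_range fun k => ap f (nat k)).mono fun y hy => ?_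
    obtain ⟨n, hn, e⟩ := hf.ap hy
    obtain ⟨k, rfl⟩ := mem_omega.1 hn
    exact ⟨k, e⟩

theorem rank_lt_omega1 {t : V} (ht : IsTransitive t) (hc : (t : Set V).Countable) :
    rank t < Ordinal.omega 1 := by
  have : (Set.Iio (rank t)).Countable :=
    (hc.image rank).mono fun o ho => exists_rank_eq ht ho
  rw [← Cardinal.le_aleph0_iff_set_countable, Cardinal.mk_Iio_ordinal, Cardinal.lift_le_aleph0] at this
  rw [← Cardinal.ord_aleph, Cardinal.lt_ord]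
  exact this.trans_lt Cardinal.aleph0_lt_aleph_one

theorem Sup.onto {K : Set V} (hK : ZFm K ∅) (hS : Sup K) {a b : V} (ha : a ∈ K) (hb : b ∈ K) :
    (∃ f ∈ K, Onto f a b) ↔ ∃ f ∈ Set.univ, Onto f a b :=
  ⟨fun ⟨f, _, h⟩ => ⟨f, trivial, h⟩, fun ⟨f, _, h⟩ =>
    ⟨f, hS _ (tm2 (K := ZF) (t := fun _ a b => prod a b) hK ha hb) f h.1.1, h⟩⟩

theorem nm_mem_sup {K : Set V} (hK : ZFm K ∅) (hS : Sup K) {P c R M N : V} {H : Set V} (hP : P ∈ K)
    (hM : M ∈ K) (hN : N ∈ K) (hR : ∀ z ∈ R, ∃ r x y, z = pair r (pair x y))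
    (h : Nm P c (In3 R) M N H) : R ∈ K :=
  hS _ (tm3 (K := ZF) (t := fun _ P M N => prod (dom P) (prod M N)) hK hP hM hN) R fun z hz => by
    obtain ⟨r, x, y, rfl⟩ := hR z hz
    have := h.dom r x y hz
    exact pair_mem_prod.2 ⟨mem_dom.2 ⟨_, this.1⟩, pair_mem_prod.2 this.2⟩

theorem relSub_abs {K : Set V} (hK : ZFm K ∅) (hS : Sup K) {w P E h u ρ : V} (hP : P ∈ K)
    (hE : E ∈ K) (hρ : IsOrdinal ρ) (h1 : ∀ y : V, rank y < Ordinal.omega 1 → y ∈ K)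
    (h2 : ∀ y : V, rank y < rank ρ → y ∈ K) :
    RelSub K w P E h u ρ ↔ RelSub Set.univ w P E h u ρ := by
  constructor
  · intro H N _ hN hh A hA M _ hc hZ P' hP' E' hE' H' _ H₀ _ hG hp hF c hc' R _ hR hNm u' A' s' s
      a1 a2 a3 a4 a5
    have hNK := h2 N ((rk_mem_iff hρ).1 hN)
    have hMK := h1 M (rank_lt_omega1 (fun x hx y hy => hZ.1.trans x hx y hy) hc.countable)
    obtain ⟨p, t, b1, b2, R', _, b3⟩ := H N hNK hN hh A hA M hMK
      (hc.imp id (hS.onto hK hK.omega hMK).2) hZ P' hP' E' hE'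
      H' (hS M hMK H' fun p hp => mem_of_pair_left (W := M) hZ.1.trans (hZ.1.mem (hG.1.2.1 p hp) hE'))
      H₀ (hS M hMK H₀ fun p hq => by
        obtain ⟨_, _, _, h⟩ := (hp p).1 hq
        exact mem_of_pair_right (W := M) hZ.1.trans (hZ.1.mem h hP'))
      hG hp hF c hc' R (nm_mem_sup hK hS hP hMK hNK hR hNm) hR hNm u' A' s' s a1 a2 a3 a4 a5
    exact ⟨p, t, b1, b2, R', trivial, b3⟩
  · intro H N hNK hN hh A hA M hMK hc hZ P' hP' E' hE' H' _ H₀ _ hG hp hF c hc' R _ hR hNm u' A' s' s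
      a1 a2 a3 a4 a5
    obtain ⟨p, t, b1, b2, R', _, b3⟩ := H N trivial hN hh A hA M trivial
      (hc.imp id (hS.onto hK hK.omega hMK).1) hZ P' hP' E' hE' H' trivial H₀ trivial
      hG hp hF c hc' R trivial hR hNm u' A' s' s a1 a2 a3 a4 a5
    exact ⟨p, t, b1, b2, R', nm_mem_sup hK hS hE hMK hNK b3.1 b3.2.1, b3⟩

theorem cx_abs {K : Set V} (hK : ZFm K ∅) (hS : Sup K) {P x : V} (hP : P ∈ K) (hx : x ∈ K)
    (h1 : ∀ y : V, rank y < Ordinal.omega 1 → y ∈ K) (h2 : ∀ y : V, rank y < rank x → y ∈ K) :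
    Cx K w1 P x ↔ Cx Set.univ w1 P x := by
  refine exists₅_congr fun E D h u ρ => and_congr_right fun e => ?_
  subst e
  have hE := mem_of_pair_left hK.trans hx
  have h3 := mem_of_pair_right hK.trans (mem_of_pair_right hK.trans hx)
  have hh := mem_of_pair_left hK.trans h3
  have hρ := mem_of_pair_right hK.trans (mem_of_pair_right hK.trans h3)
  have lt : ∀ a b : V, rank b < rank (pair a b) := fun a b =>
    (rank_lt_of_mem (show b ∈ ({a, b} : V) by simp)).trans (rank_lt_of_mem (by simp [pair]))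
  iterate 8 refine and_congr_right fun _ => ?_
  refine and_congr_right fun ho => and_congr_right fun _ => and_congr
    (not_congr (hS.onto hK hh hρ)) (and_congr (relSub_abs hK hS hP hE ho h1 fun y hy => h2 y
      (hy.trans ((lt _ _).trans ((lt _ _).trans ((lt _ _).trans (lt _ _)))))) (not_congr ?_))
  refine exists_congr fun H => ⟨fun h => ⟨trivial, h.2⟩, fun h => ⟨?_, h.2⟩⟩
  obtain ⟨-, _, _, -, h⟩ := h
  refine hS _ (tm2 (K := ZF) (t := fun _ P E => prod (dom P) (dom E)) hK hP hE) H fun z hz => ?_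
  obtain ⟨r, p, s, rfl, a, b⟩ := h.dom z hz
  exact pair_mem_prod.2 ⟨mem_dom.2 ⟨_, b⟩, mem_dom.2 ⟨_, a⟩⟩

end Pool.Agent.Lib.MP_329f2d_lc
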