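import Pool.Agent.Lib.MP_329f2d_lc.H38G3
import Pool.Agent.Lib.MP_329f2d_lc.H58Set

/-!
Names for elementary embeddings.
-/

open ZFSet

namespace Pool.Agent.Lib.MP_329f2d_lc

theorem Filt.exists_bound {P G c : V} (hPo : Po P) (hG : Filt P G) (hc : c ∈ G) {r : ℕ → V}
    (hr : ∀ i, r i ∈ G) (n : ℕ) : ∃ q ∈ G, pair q c ∈ P ∧ ∀ i < n, pair q (r i) ∈ P := by
  induction n with
  | zero => exact ⟨c, hc, hG.cond hc, fun _ h => absurd h (Nat.not_lt_zero _)⟩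
  | succ n ih =>
    obtain ⟨q, h1, h2, h3⟩ := ih
    obtain ⟨q', a1, a2, a3⟩ := hG.meet h1 (hr n)
    refine ⟨q', a1, hPo.trans a2 h2, fun i hi => ?_⟩
    rcases Nat.lt_succ_iff_lt_or_eq.1 hi with h | rfl
    exacts [hPo.trans a2 (h3 i h), a3]

theorem Nm.emb {K : Set V} (hK : ZFm K ∅) {P G c R M N H : V} (hP : P ∈ K) (hPo : Po P)
    (hG : Generic K P G) (hc : c ∈ G) (hR : R ∈ K) (hM : M ∈ K) (hN : N ∈ K)
    (h : Nm P c (In3 R) M N H) :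
    Emb M N (fun x y => ∃ r ∈ G, In3 R r x y) ∧
      ∀ x ∈ H, ∀ y, (∃ r ∈ G, In3 R r x y) → y ∈ G := by
  refine ⟨⟨fun φ v w hvw => ?_, fun x y ⟨r, _, hr⟩ => (h.dom r x y hr).2, fun x hx => ?_⟩,
    fun x hx y ⟨r, hr, hxy⟩ => ?_⟩
  · choose r h1 h2 using hvw
    obtain ⟨n, hn⟩ := Sat_bound φ
    obtain ⟨q, -, a2, a3⟩ := hG.1.exists_bound hPo hc h1 (n + 1)
    rw [hn M ∅ v (fun i => v (min i n)) fun i hi => by rw [min_eq_left hi.le],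
      hn N ∅ w (fun i => w (min i n)) fun i hi => by rw [min_eq_left hi.le]]
    exact h.pe q a2 φ _ _ fun i => h.mono _ _ _ _ (h2 _) (a3 _ (Nat.lt_succ_of_le (min_le_right _ _)))
  · obtain ⟨r, h1, -, y, h2⟩ := Generic.meet hK hP hPo hG
      (cls2 (K := ZF) (S := fun _ R x r => ∃ y, In3 R r x y) hK hR (hK.mem hx hM)) hc
      fun q hq => (h.total q hq x hx).imp fun r' ⟨y, a, b⟩ => ⟨a, y, b⟩
    exact ⟨y, r, h1, h2⟩
  · obtain ⟨q, a1, a2, a3⟩ := hG.1.meet hr hc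
    obtain ⟨r', h1, -, h2⟩ := Generic.meet hK hP hPo hG
      (cls2 (K := ZF) (S := fun _ P y r => pair r y ∈ P) hK hP (hK.mem (h.dom r x y hxy).2.2 hN)) a1
      (h.gen q a3 x hx y (h.mono _ _ _ _ hxy a2))
    exact hG.1.up h1 h2

theorem exists_Nm {K : Set V} (hc : K.Countable) (hK : ZFm K ∅) {E G σ M N H s' s e₁ : V}
    (hE : E ∈ K) (hPo : Po E) (hG : Generic K E G) (hσ : σ ∈ Ext K G) (hM : M ∈ K) (hN : N ∈ K)
    (hH : H ∈ K) (h : Emb M N fun x y => pair x y ∈ σ ∧ x ∈ (M : Set V))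
    (h1 : ∀ x ∈ H, ∀ y, pair x y ∈ σ → y ∈ G) (h2 : pair s' s ∈ σ) (h3 : s' ∈ M) (h4 : e₁ ∈ G) :
    ∃ e, pair e e₁ ∈ E ∧ ∃ R ∈ K, (∀ z ∈ R, ∃ r x y, z = pair r (pair x y)) ∧
      Nm E e (In3 R) M N H ∧ In3 R e s' s := by
  obtain ⟨τ, hτ, rfl⟩ := hσ
  have d : Df ZF fun _ (v : ℕ → V) => Emb (v 1) (v 2) (fun x y => pair x y ∈ v 0 ∧ x ∈ (v 1 : Set V)) ∧
      ∀ x ∈ v 3, ∀ y, pair x y ∈ v 0 → y ∈ v 4 := by
    set_option synthInstance.maxSize 4000 in infer_instance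
  obtain ⟨p, hp, hp'⟩ := Df.forced_of_true (hK := hK) hE hPo hG
    (v := cons τ (cons (chk E M) (cons (chk E N) (cons (chk E H) fun _ => nmG E))))
    (cons_mem hτ (cons_mem (chk_mem hK hE hM) (cons_mem (chk_mem hK hE hN)
      (cons_mem (chk_mem hK hE hH) fun _ => nmG_mem hK hE))))
    (Φ := fun _ (v : ℕ → V) => Emb (v 1) (v 2) (fun x y => pair x y ∈ v 0 ∧ x ∈ (v 1 : Set V)) ∧
      ∀ x ∈ v 3, ∀ y, pair x y ∈ v 0 → y ∈ v 4) (by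
      simpa only [cons, val_chk hG.1, val_nmG hG.1] using And.intro h h1)
  have hp'' : ∀ G', Generic K E G' → p ∈ G' →
      Emb M N (fun x y => pair x y ∈ val G' τ ∧ x ∈ (M : Set V)) ∧
        ∀ x ∈ H, ∀ y, pair x y ∈ val G' τ → y ∈ G' := fun G' a b => by
    simpa only [cons, val_chk a.1, val_nmG a.1] using hp' G' a b
  have key : ∀ G', Generic K E G' → ∀ x ∈ M, ∀ y ∈ N, pair x y ∈ val G' τ ↔
      ∃ r ∈ G', FM E r (opn E (chk E x) (chk E y)) τ := fun G' a x hx y hy => by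
    rw [← pair_mem_val_iff hK hE hPo a (chk_mem hK hE (hK.mem hx hM)) (chk_mem hK hE (hK.mem hy hN))
      hτ, val_chk a.1, val_chk a.1]
  have hR := (cls2 (K := ZF) (S := fun _ E τ z => pair (fst z) (fst z) ∈ E ∧
    FM E (fst z) (opn E (chk E (fst (snd z))) (chk E (snd (snd z)))) τ) hK hE hτ).sep hK
    (tm3 (K := ZF) (t := fun _ E M N => prod (⋃₀ ⋃₀ E) (prod M N)) hK hE hM hN)
  set R := ZFSet.sep (fun z => pair (fst z) (fst z) ∈ E ∧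
    FM E (fst z) (opn E (chk E (fst (snd z))) (chk E (snd (snd z)))) τ)
    (prod (⋃₀ ⋃₀ E) (prod M N)) with hRdef
  have hR' : ∀ r x y, In3 R r x y ↔ pair r r ∈ E ∧ x ∈ M ∧ y ∈ N ∧
      FM E r (opn E (chk E x) (chk E y)) τ := fun r x y => by
    simp only [In3, hRdef, mem_sep, pair_mem_prod, fst_pair, snd_pair]
    exact ⟨fun a => ⟨a.2.1, a.1.2.1, a.1.2.2, a.2.2⟩,
      fun a => ⟨⟨left_mem_sUnion a.1, a.2.1, a.2.2.1⟩, a.1, a.2.2.2⟩⟩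
  have hs : s ∈ N := (h.dom _ _ ⟨h2, h3⟩).2
  obtain ⟨r₀, b1, b2⟩ := (key G hG s' h3 s hs).1 h2
  obtain ⟨q, c1, c2, c3⟩ := hG.1.meet hp b1
  obtain ⟨e, -, c5, c6⟩ := hG.1.meet c1 h4
  have gen : ∀ r, pair r e ∈ E → ∃ G', Generic K E G' ∧ r ∈ G' ∧ p ∈ G' := fun r hr => by
    obtain ⟨G', a, b⟩ := exists_generic hc hPo (hPo.left hr)
    exact ⟨G', a, b, a.1.up b (hPo.trans hr (hPo.trans c5 c2))⟩
  have val : ∀ {G' r x y}, Generic K E G' → r ∈ G' → In3 R r x y →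
      pair x y ∈ val G' τ ∧ x ∈ (M : Set V) := fun a b c => by
    obtain ⟨-, c1, c2, c3⟩ := (hR' _ _ _).1 c
    exact ⟨(key _ a _ c1 _ c2).2 ⟨_, b, c3⟩, c1⟩
  refine ⟨e, c6, R, hR, fun z hz => ?_, ⟨fun r r' x y a b => ?_, fun r x y a => ?_,
    fun r hr x hx => ?_, fun r hr φ v w hvw => ?_, fun r hr x hx y a r₁ b => ?_⟩,
    (hR' _ _ _).2 ⟨hPo.left c6, h3, hs, b2.mono hPo (hPo.trans c5 c3)⟩⟩
  · obtain ⟨r, -, _, hu, rfl⟩ := mem_prod.1 (mem_sep.1 hz).1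
    obtain ⟨x, -, y, -, rfl⟩ := mem_prod.1 hu
    exact ⟨r, x, y, rfl⟩
  · rw [hR'] at a ⊢
    exact ⟨hPo.left b, a.2.1, a.2.2.1, a.2.2.2.mono hPo b⟩
  · rw [hR'] at a
    exact ⟨a.1, a.2.1, a.2.2.1⟩
  · obtain ⟨G', a1, a2, a3⟩ := gen r hr
    obtain ⟨y, hy⟩ := (hp'' G' a1 a3).1.total x hx
    have hyN := ((hp'' G' a1 a3).1.dom _ _ hy).2
    obtain ⟨r₁, a4, a5⟩ := (key G' a1 x hx y hyN).1 hy.1
    obtain ⟨r', -, a7, a8⟩ := a1.1.meet a2 a4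
    exact ⟨r', y, a7, (hR' _ _ _).2 ⟨hPo.left a7, hx, hyN, a5.mono hPo a8⟩⟩
  · obtain ⟨G', a1, a2, a3⟩ := gen r hr
    exact (hp'' G' a1 a3).1.pe φ v w fun i => val a1 a2 (hvw i)
  · obtain ⟨G', a1, a2, a3⟩ := gen r₁ (hPo.trans b hr)
    obtain ⟨r₂, -, a5, a6⟩ := a1.1.meet a2
      ((hp'' G' a1 a3).2 x hx y (val a1 (a1.1.up a2 b) a).1)
    exact ⟨r₂, a5, a6⟩

end Pool.Agent.Lib.MP_329f2d_lc
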