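import Pool.Agent.Lib.MP_329f2d_lc.H85Rk
import Pool.Agent.Lib.MP_329f2d_lc.H58Set

/-! The generic tree and its branches in the iteration. -/

namespace Pool.Agent.Lib.MP_329f2d_lc.It

open ZFSet Order

variable {R : O → V} {κ : O}

theorem meets_cl {r e e' : V} (hr : Po r) (h : Meets (cl r e) (cl r e')) :
    ∃ d, pair d e ∈ r ∧ pair d e' ∈ r := by
  obtain ⟨d, h1, h2⟩ := h
  obtain ⟨d₁, a1, a2⟩ := exists_le_of_mem_cl hr h1
  obtain ⟨d₂, b1, b2⟩ := exists_le_of_mem_cl hr ((ro_cl hr e').down hr h2 a1)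
  exact ⟨d₂, hr.trans b1 a2, b2⟩

theorem Sys.force_up {β a b : O} (h : Sys R β) (hab : a ≤ b) (hb : b < β) {r e : V}
    (hr : RO (R b) r) (he : e ∈ pr R a b r) : Pos (R b) (r ∩ up R a b (cl (R a) e)) := by
  have h0 := h.po' hab hb
  have h1 := h.pr_ro hab hb r
  have h4 := pos_cl h0 (h1.cond h0 he)
  exact ((h.meets_iff hab hb hr h4.1).1 (h4.meets (h1.cl_sub h0 he))).symm.pos (h.po hb) hr
    (h.up_ro hab hb h4.1)

theorem TC.raise {α t α' : V} (h : TC α t) (h' : α' ∈ w1) (hs : α ⊆ α') :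
    pair (pair α' t) (pair α t) ∈ Tr0 :=
  mem_Tr0.2 ⟨⟨h', h.2.1, h.2.2.1, fun x hx => sub_trans (h.2.2.2 x hx) hs⟩, h, hs,
    (mem_Tr0.1 h.cond).2.2.2⟩

theorem TC.cut {α t α' : V} (h : TC α' t) (h' : α ∈ w1) (hs : α ⊆ α') :
    pair (pair α' t) (pair α (img (fun z => z ∩ α) t)) ∈ Tr0 := by
  refine mem_Tr0.2 ⟨h, ⟨h', fun e => ?_, (h.2.2.1.image fun z => z ∩ α).mono fun z hz => ?_,
    fun x hx => ?_⟩, hs, fun s => mem_img.trans ⟨fun ⟨x, a, b⟩ => ⟨x, a, b.symm⟩,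
      fun ⟨x, a, b⟩ => ⟨x, a, b.symm⟩⟩⟩
  · obtain e' | ⟨x, hx⟩ := eq_empty_or_nonempty t
    · exact h.2.1 e'
    · exact notMem_empty _ (e ▸ mem_img.2 ⟨x, hx, rfl⟩)
  · exact mem_img.1 hz
  · obtain ⟨y, -, rfl⟩ := mem_img.1 hx
    exact inter_sub_right _ _

theorem succ_mem_w1 {α : V} (h : α ∈ w1) : insert α α ∈ w1 := by
  obtain ⟨o, ho, rfl⟩ := Ordinal.mem_toZFSet_iff.1 h
  rw [← Ordinal.toZFSet_add_one]
  exact Ordinal.toZFSet_mem_toZFSet_iff.2 ((Cardinal.isSuccLimit_omega 1).succ_lt ho)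

theorem TC.split {α t : V} (h : TC α t) :
    pair (pair (insert α α) (t ∪ img (insert α) t)) (pair α t) ∈ Tr0 := by
  have hs : α ⊆ insert α α := fun _ hz => mem_insert_of_mem _ hz
  have e : ∀ x ∈ t, insert α x ∩ α = x := fun x hx => ZFSet.ext fun z => by
    rw [mem_inter, mem_insert_iff]
    refine ⟨fun H => H.1.resolve_left fun e => ?_, fun H => ⟨Or.inr H, h.2.2.2 x hx H⟩⟩
    exact mem_irrefl _ (e ▸ H.2)
  refine mem_Tr0.2 ⟨⟨succ_mem_w1 h.1, fun e => ?_,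
    (h.2.2.1.union (h.2.2.1.image (insert α))).mono fun z hz => ?_, fun x hx => ?_⟩, h, hs,
    fun s => ⟨fun H => ⟨s, mem_union.2 (Or.inl H), (inter_of_sub (h.2.2.2 s H)).symm⟩, ?_⟩⟩
  · obtain e' | ⟨x, hx⟩ := eq_empty_or_nonempty t
    · exact h.2.1 e'
    · exact notMem_empty _ (e ▸ mem_union.2 (Or.inl hx))
  · exact (mem_union.1 hz).imp_right fun H => mem_img.1 H
  · rcases mem_union.1 hx with H | H
    · exact sub_trans (h.2.2.2 x H) hs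
    · obtain ⟨y, hy, rfl⟩ := mem_img.1 H
      exact fun z hz => mem_insert_iff.2 ((mem_insert_iff.1 hz).imp_right fun H => h.2.2.2 y hy H)
  · rintro ⟨x, hx, rfl⟩
    rcases mem_union.1 hx with H | H
    · rwa [inter_of_sub (h.2.2.2 x H)]
    · obtain ⟨y, hy, rfl⟩ := mem_img.1 H
      rwa [e y hy]

theorem tc_coh {α t α' t' : V} (_h : TC α t) (_h' : TC α' t') (hs : α ⊆ α')
    (hm : Meets (cl Tr0 (pair α t)) (cl Tr0 (pair α' t'))) :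
    ∀ s, s ∈ t ↔ ∃ x ∈ t', s = x ∩ α := by
  obtain ⟨d, h1, h2⟩ := meets_cl po_Tr0 hm
  obtain ⟨β, u, rfl, -⟩ := cond_Tr0 (po_Tr0.left h1)
  obtain ⟨-, -, -, a⟩ := mem_Tr0.1 h1
  obtain ⟨-, -, -, b⟩ := mem_Tr0.1 h2
  intro s
  rw [a]
  constructor
  · rintro ⟨y, hy, rfl⟩
    exact ⟨_, (b _).2 ⟨y, hy, rfl⟩, (inter_inter hs).symm⟩
  · rintro ⟨x, hx, rfl⟩
    obtain ⟨y, hy, rfl⟩ := (b x).1 hx
    exact ⟨y, hy, inter_inter hs⟩

theorem TN.of {a : O} {p α x : V} (h : TN R a p (pair α x)) :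
    ∃ t, x ∈ t ∧ TC α t ∧ p ⊆ up R 0 a (cl Tr0 (pair α t)) := by
  obtain ⟨-, _, _, t, e, h⟩ := h
  obtain ⟨rfl, rfl⟩ := pair_inj.1 e
  exact ⟨t, h⟩

namespace Iter

variable (H : Iter κ R)
include H

theorem force_lev {a : O} {p e : V} (hp : Pos (R a) p) (he : e ∈ pr R 0 a p) :
    Pos (R a) (p ∩ up R 0 a (cl Tr0 e)) := by
  have := (H.sys _).force_up (zero_le (a := a)) (lt_succ a) hp.1 he
  rwa [H.zero] at this

theorem down0 {a : O} {p e e' : V} (he : e ∈ pr R 0 a p) (h : pair e' e ∈ Tr0) :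
    e' ∈ pr R 0 a p :=
  ((H.sys _).pr_ro (zero_le (a := a)) (lt_succ a) p).down (H.lev 0).po he (by rwa [H.zero])

/-- A forced level can be extended to any height, compatibly with the condition. -/
theorem lev_ext {a : O} {p α₁ t₁ α : V} (hp : Pos (R a) p)
    (hs : p ⊆ up R 0 a (cl Tr0 (pair α₁ t₁))) (hα : α ∈ w1) :
    ∃ α₂ t₂, pair (pair α₂ t₂) (pair α₁ t₁) ∈ Tr0 ∧ α ⊆ α₂ ∧ pair α₂ t₂ ∈ pr R 0 a p := by
  have h := H.sys (succ a)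
  have h1 : pr R 0 a p ⊆ cl Tr0 (pair α₁ t₁) :=
    (h.gc (zero_le (a := a)) (lt_succ a) hp.1 (by rw [H.zero]; exact ro_cl po_Tr0 _)).2 hs
  obtain ⟨d, hd⟩ := (h.pr_pos (zero_le (a := a)) (lt_succ a) hp).2
  obtain ⟨d', a1, a2⟩ := exists_le_of_mem_cl po_Tr0 (h1 hd)
  obtain ⟨β, u, rfl, a3⟩ := cond_Tr0 (po_Tr0.left a1)
  rcases (w1_ord.mem hα).subset_total (w1_ord.mem a3.1) with h2 | h2
  · exact ⟨β, u, a2, h2, H.down0 hd a1⟩
  · exact ⟨α, u, po_Tr0.trans (a3.raise hα h2) a2, sub_rfl,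
      H.down0 hd (po_Tr0.trans (a3.raise hα h2) a1)⟩

variable {a : O} (ha : ¬ IsSuccLimit a)
include ha

theorem extT : ExtOf (PP (R a)) (ET R a) := by
  have := H.ext a
  rwa [Stp, if_neg ha] at this

theorem sucT : SucSpec R a (ET R a) := by
  have := H.sucSpec a
  rwa [Stp, if_neg ha] at this

theorem skT_le {p n p' n' : V} (h : TN R a p n) (h' : TN R a p' n') (hs : p ⊆ p') (hn : NLe n n') :
    pair (sk R a p n) (sk R a p' n') ∈ R (succ a) :=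
  sk_le (H.sys _) (H.extT ha) (H.sucT ha) (mem_ET.2 ⟨h, h', hs, hn⟩)

theorem cond_skT {e : V} (he : pair e e ∈ R (succ a)) :
    ∃ p α x, TN R a p (pair α x) ∧ e = sk R a p (pair α x) := by
  obtain ⟨p, n, h1, rfl⟩ := cond_sk (H.sys _) (H.extT ha) (H.sucT ha) he
  have h2 := cond_ET.1 h1
  obtain ⟨-, α, x, t, rfl, -⟩ := id h2
  exact ⟨p, α, x, h2, rfl⟩

theorem cl_sk_sub {p n : V} (h : TN R a p n) :
    cl (R (succ a)) (sk R a p n) ⊆ up R a (succ a) p :=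
  ((H.sys _).up_ro (le_succ a) (lt_succ _) h.1.1).cl_sub (H.lev _).po (mem_up.2
    ⟨H.skT_le ha h h sub_rfl h.nle, by
      rw [rho_lt (lt_succ a), co_sk_self (H.sys _) h.1]⟩)

theorem up_sk_sub {b : O} (hb : succ a ≤ b) {p n : V} (h : TN R a p n) :
    up R (succ a) b (cl (R (succ a)) (sk R a p n)) ⊆ up R a b p := by
  rw [← (H.sys _).up_up hb (lt_succ b) (le_succ a) h.1.1]
  exact up_mono (H.cl_sk_sub ha h)

theorem node_ext {α e : V} (hα : α ∈ w1)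
    (he : pair e e ∈ R (succ a)) : ∃ p α' x, TN R a p (pair α' x) ∧ α ⊆ α' ∧
      pair (sk R a p (pair α' x)) e ∈ R (succ a) := by
  obtain ⟨p, α₁, x₁, h1, rfl⟩ := H.cond_skT ha he
  obtain ⟨t₁, h2, -, h4⟩ := h1.of
  obtain ⟨α₂, t₂, a1, a2, a3⟩ := H.lev_ext h1.1 h4 hα
  obtain ⟨b1, -, b2, b3⟩ := mem_Tr0.1 a1
  obtain ⟨x, hx, e⟩ := (b3 _).1 h2
  have h5 : TN R a (p ∩ up R 0 a (cl Tr0 (pair α₂ t₂))) (pair α₂ x) :=
    ⟨H.force_lev h1.1 a3, _, _, _, rfl, hx, b1, inter_sub_right _ _⟩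
  exact ⟨_, α₂, x, h5, a2, H.skT_le ha h5 h1 (inter_sub_left _ _) (nle_iff.2 ⟨b2, e⟩)⟩

theorem node_coh {p α x p' α' x' : V}
    (h : TN R a p (pair α x)) (h' : TN R a p' (pair α' x'))
    (hm : Meets (cl (R (succ a)) (sk R a p (pair α x))) (cl (R (succ a)) (sk R a p' (pair α' x')))) :
    ∃ y, x = y ∩ α ∧ x' = y ∩ α' := by
  obtain ⟨d, h1, h2⟩ := meets_cl (H.lev _).po hm
  obtain ⟨q, m, a1, rfl⟩ := le_sk' (H.sys _) (H.extT ha) (H.sucT ha) h.1 h1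
  obtain ⟨q', m', a2, e⟩ := le_sk' (H.sys _) (H.extT ha) (H.sucT ha) h'.1 h2
  rw [mem_ET] at a1 a2
  obtain ⟨rfl, rfl⟩ := sk_inj (H.sys _) a1.1.1 a2.1.1 e
  obtain ⟨-, β, y, -, rfl, -⟩ := a1.1
  exact ⟨y, (nle_iff.1 a1.2.2.2).2, (nle_iff.1 a2.2.2.2).2⟩

omit ha in
/-- Every node lies on one of the generic branches. -/
theorem fresh (hκ : Inacc κ) {α t x r : V} (ht : TC α t) (hx : x ∈ t)
    (hr : Pos (R κ) r) (hs : r ⊆ up R 0 κ (cl Tr0 (pair α t))) :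
    ∃ a < κ, ¬ IsSuccLimit a ∧ ∃ p r', TN R a p (pair α x) ∧ Pos (R κ) r' ∧ r' ⊆ r ∧
      r' ⊆ up R (succ a) κ (cl (R (succ a)) (sk R a p (pair α x))) := by
  obtain ⟨y, q, -, h1, h2, h3⟩ := H.exists_up hκ hr 0 hκ.lim.bot_lt
  have h := H.sys (succ κ)
  have h4 := hκ.lim.succ_lt h1
  have h5 := hκ.lim.succ_lt h4
  have ha := not_isSuccLimit_succ y
  have hp := h.up_pos (le_succ y) (h4.trans (lt_succ κ)) h2
  have h0 : RO (R 0) (cl Tr0 (pair α t)) := by rw [H.zero]; exact ro_cl po_Tr0 _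
  have e : up R (succ y) κ (up R y (succ y) q) = up R y κ q :=
    h.up_up h4.le (lt_succ κ) (le_succ y) h2.1
  have h6 : TN R (succ y) (up R y (succ y) q) (pair α x) := by
    refine ⟨hp, α, x, t, rfl, hx, ht, h.sub_of_up_sub h4.le (lt_succ κ) hp.1
      (h.up_ro zero_le (h4.trans (lt_succ κ)) h0) ?_⟩
    rw [e, h.up_up h4.le (lt_succ κ) zero_le h0]
    exact sub_trans h3 hs
  refine ⟨succ y, h4, ha, _, _, h6, h.up_pos h5.le (lt_succ κ)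
    (pos_cl (H.lev _).po (H.skT_le ha h6 h6 sub_rfl h6.nle)), ?_, sub_rfl⟩
  exact sub_trans (H.up_sk_sub ha h5.le h6) (e ▸ h3)

/-- The node of a branch and the level of the tree at a given height are decided densely. -/
theorem nd_tot {b : O} (hb : succ a ≤ b) {α r : V} (hα : α ∈ w1) (hr : Pos (R b) r) :
    ∃ r' x t p, Pos (R b) r' ∧ r' ⊆ r ∧ TN R a p (pair α x) ∧
      r' ⊆ up R (succ a) b (cl (R (succ a)) (sk R a p (pair α x))) ∧ TC α t ∧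
      r' ⊆ up R 0 b (cl Tr0 (pair α t)) ∧ x ∈ t := by
  have h := H.sys (succ b)
  have h1 := h.pr_pos hb (lt_succ b) hr
  obtain ⟨e, he⟩ := h1.2
  obtain ⟨p, α', x, a1, a2, a3⟩ := H.node_ext ha hα (h1.1.cond (H.lev _).po he)
  obtain ⟨t, b1, b2, b3⟩ := a1.of
  have h2 := b2.cut hα a2
  have h3 := sub_trans b3 (up_mono (cl_mono po_Tr0 h2))
  have h4 : x ∩ α ∈ img (fun z => z ∩ α) t := mem_img.2 ⟨x, b1, rfl⟩
  have h5 : TN R a p (pair α (x ∩ α)) := ⟨a1.1, _, _, _, rfl, h4, (mem_Tr0.1 h2).2.1, h3⟩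
  refine ⟨_, _, _, p, h.force_up hb (lt_succ b) hr.1 (h1.1.down (H.lev _).po he a3),
    inter_sub_left _ _, h5, sub_trans (inter_sub_right _ _) (up_mono (cl_mono (H.lev _).po
      (H.skT_le ha a1 h5 sub_rfl (nle_iff.2 ⟨a2, rfl⟩)))), (mem_Tr0.1 h2).2.1,
    sub_trans (inter_sub_right _ _) (sub_trans (H.up_sk_sub ha hb a1) ?_), h4⟩
  rw [← h.up_up ((le_succ a).trans hb) (lt_succ b) (zero_le (a := a))
    (by rw [H.zero]; exact ro_cl po_Tr0 _)]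
  exact up_mono h3

/-- Two generic branches are forced to be different. -/
theorem nd_sep {a' b : O} (ha' : ¬ IsSuccLimit a') (hl : a < a') (hb : succ a' ≤ b) {r : V}
    (hr : Pos (R b) r) : ∃ r' α x x' p p', Pos (R b) r' ∧ r' ⊆ r ∧ TN R a p (pair α x) ∧
      r' ⊆ up R (succ a) b (cl (R (succ a)) (sk R a p (pair α x))) ∧ TN R a' p' (pair α x') ∧
      r' ⊆ up R (succ a') b (cl (R (succ a')) (sk R a' p' (pair α x'))) ∧ x ≠ x' := by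
  have h := H.sys (succ b)
  have l1 : succ a ≤ a' := succ_le_of_lt hl
  have l2 : a' ≤ b := (le_succ a').trans hb
  have l3 : a' < succ b := l2.trans_lt (lt_succ b)
  have r0 : ∀ e, RO (R 0) (cl Tr0 e) := fun e => by rw [H.zero]; exact ro_cl po_Tr0 _
  have h1 := h.pr_pos hb (lt_succ b) hr
  obtain ⟨e, he⟩ := h1.2
  obtain ⟨p', α₁, x₁, a1, rfl⟩ := H.cond_skT ha' (h1.1.cond (H.lev _).po he)
  obtain ⟨t₁, a2, a3, a4⟩ := a1.of
  have h2 := h.pr_pos l1 l3 a1.1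
  obtain ⟨e₁, he₁⟩ := h2.2
  obtain ⟨p, α₂, x₂, b1, rfl⟩ := H.cond_skT ha (h2.1.cond (H.lev _).po he₁)
  obtain ⟨t₂, b2, -, b4⟩ := b1.of
  obtain ⟨α₃, t₃, c1, c2, c3⟩ := H.lev_ext b1.1 b4 a3.1
  obtain ⟨c4, -, c5, c6⟩ := mem_Tr0.1 c1
  obtain ⟨x₃, c7, c8⟩ := (c6 _).1 b2
  have d1 := c4.split
  have d2 := (mem_Tr0.1 d1).1
  have d3 := (mem_Tr0.1 d1).2.2.1
  have d4 : TN R a (p ∩ up R 0 a (cl Tr0 (pair (insert α₃ α₃) (t₃ ∪ img (insert α₃) t₃))))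
      (pair (insert α₃ α₃) x₃) :=
    ⟨H.force_lev b1.1 (H.down0 c3 d1), _, _, _, rfl, mem_union.2 (Or.inl c7), d2,
      inter_sub_right _ _⟩
  have d5 := h.force_up l1 l3 a1.1.1 (h2.1.down (H.lev _).po he₁
    (H.skT_le ha d4 b1 (inter_sub_left _ _) (nle_iff.2 ⟨sub_trans c5 d3, c8⟩)))
  have d6 := sub_trans (inter_sub_right p' _) (sub_trans (H.up_sk_sub ha l1 d4)
    (up_mono (inter_sub_right _ _)))
  rw [h.up_up hl.le l3 (zero_le (a := a)) (r0 _)] at d6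
  obtain ⟨y, f1, f2⟩ := (tc_coh a3 c4 c2 (h.meets_of_up (zero_le (a := a')) l3
    ((d5.meets (sub_trans d6 (up_mono (cl_mono po_Tr0 d1)))).mono
      (sub_trans (inter_sub_left _ _) a4) sub_rfl)) x₁).1 a2
  have f3 : TN R a' _ (pair (insert α₃ α₃) (insert α₃ y)) :=
    ⟨d5, _, _, _, rfl, mem_union.2 (Or.inr (mem_img.2 ⟨y, f1, rfl⟩)), d2, d6⟩
  have f4 : x₁ = insert α₃ y ∩ α₁ := by
    rw [f2]
    refine ZFSet.ext fun z => ?_
    rw [mem_inter, mem_inter, mem_insert_iff]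
    refine and_congr_left fun hz => ⟨Or.inr, fun H => H.resolve_left fun e => ?_⟩
    exact mem_irrefl _ (c2 (e ▸ hz))
  refine ⟨_, _, _, _, _, _, h.force_up hb (lt_succ b) hr.1 (h1.1.down (H.lev _).po he
    (H.skT_le ha' f3 a1 (inter_sub_left _ _) (nle_iff.2 ⟨sub_trans c2 d3, f4⟩))),
    inter_sub_left _ _, d4, sub_trans (inter_sub_right _ _) (sub_trans (H.up_sk_sub ha' hb f3) ?_),
    f3, inter_sub_right _ _, fun e => ?_⟩
  · rw [← h.up_up l2 (lt_succ b) l1 (ro_cl (H.lev _).po _)]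
    exact up_mono (inter_sub_right _ _)
  · exact mem_irrefl _ (c4.2.2.2 _ c7 (e ▸ mem_insert α₃ y))

end Iter

/-- The stages that add a branch. -/
noncomputable def II (κ : O) : V := κ.toZFSet.sep fun a => ¬ IsSuccLimit (rank a)

theorem mem_II {a : V} : a ∈ II κ ↔ ∃ b < κ, ¬ IsSuccLimit b ∧ b.toZFSet = a := by
  rw [II, mem_sep, Ordinal.mem_toZFSet_iff]
  constructor
  · rintro ⟨⟨b, h1, rfl⟩, h2⟩
    exact ⟨b, h1, by rwa [Ordinal.rank_toZFSet] at h2, rfl⟩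
  · rintro ⟨b, h1, h2, rfl⟩
    exact ⟨⟨b, h1, rfl⟩, by rwa [Ordinal.rank_toZFSet]⟩

theorem ctbl_univ {x : V} (h : (x : Set V).Countable) : Ctbl Set.univ x := by
  obtain e | hx := eq_empty_or_nonempty x
  · exact Or.inl e
  obtain ⟨g, hg⟩ := h.exists_eq_range hx
  have e : ∀ k, Function.invFun nat (nat k) = k :=
    Function.leftInverse_invFun fun _ _ => nat_inj.1
  refine Or.inr ⟨_, trivial, onto_graph (f := fun n => g (Function.invFun nat n))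
    (fun n _ => ?_) fun y hy => ?_⟩
  · exact (hg ▸ Set.mem_range_self _ : g (Function.invFun nat n) ∈ (x : Set V))
  · obtain ⟨k, rfl⟩ : y ∈ Set.range g := hg ▸ (hy : y ∈ (x : Set V))
    exact ⟨nat k, nat_mem_omega k, by rw [e]⟩

theorem om1_univ : Om1 Set.univ w1 := by
  refine ⟨trivial, w1_ord, fun h => ?_, fun α hα => ctbl_univ ?_⟩
  · have := rank_lt_omega1 w1_ord.isTransitive h.countable
    rw [w1, Ordinal.rank_toZFSet] at this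
    exact lt_irrefl _ this
  · obtain ⟨o, ho, rfl⟩ := Ordinal.mem_toZFSet_iff.1 hα
    rw [Ordinal.coe_toZFSet]
    refine Set.Countable.image ?_ _
    rw [← Cardinal.le_aleph0_iff_set_countable, Cardinal.mk_Iio_ordinal, Cardinal.lift_le_aleph0,
      ← Cardinal.lt_aleph_one_iff]
    exact Cardinal.lt_omega_iff_card_lt.1 ho

/-- The name for the levels of the tree. -/
noncomputable def LvN (R : O → V) (κ : O) : V :=
  (prod (powerset (fld (R κ))) (prod w1 (powerset (powerset w1)))).sep fun z => ∃ r α t,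
    z = pair r (pair α t) ∧ Pos (R κ) r ∧ TC α t ∧ r ⊆ up R 0 κ (cl Tr0 (pair α t))

theorem in3_LvN {r α t : V} : In3 (LvN R κ) r α t ↔
    Pos (R κ) r ∧ TC α t ∧ r ⊆ up R 0 κ (cl Tr0 (pair α t)) := by
  rw [In3, LvN, mem_sep]
  constructor
  · rintro ⟨-, _, _, _, e, h⟩
    simp only [pair_inj] at e
    obtain ⟨rfl, rfl, rfl⟩ := e
    exact h
  · exact fun h => ⟨pair_mem_prod.2 ⟨h.1.mem_pow, h.2.1.mem⟩, _, _, _, rfl, h⟩

/-- The name for the nodes of the branches. -/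
noncomputable def NdN (R : O → V) (κ : O) : V :=
  (prod (powerset (fld (R κ))) (prod (II κ) (prod w1 (powerset w1)))).sep fun z => ∃ r a n,
    z = pair r (pair a n) ∧ a ∈ II κ ∧ Pos (R κ) r ∧ ∃ p, TN R (rank a) p n ∧
      r ⊆ up R (succ (rank a)) κ (cl (R (succ (rank a))) (sk R (rank a) p n))

theorem in3_NdN {r a n : V} : In3 (NdN R κ) r a n ↔
    a ∈ II κ ∧ Pos (R κ) r ∧ ∃ p, TN R (rank a) p n ∧
      r ⊆ up R (succ (rank a)) κ (cl (R (succ (rank a))) (sk R (rank a) p n)) := by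
  rw [In3, NdN, mem_sep]
  constructor
  · rintro ⟨-, _, _, _, e, h⟩
    simp only [pair_inj] at e
    obtain ⟨rfl, rfl, rfl⟩ := e
    exact h
  · exact fun h => ⟨pair_mem_prod.2 ⟨h.2.1.mem_pow, pair_mem_prod.2
      ⟨h.1, let ⟨_, h1, _⟩ := h.2.2; h1.bd.2⟩⟩, _, _, _, rfl, h⟩

/-- The tree part of the package. -/
theorem Iter.pkg (H : Iter κ R) (hκ : Inacc κ)
    (pres : ∀ F, FunNm (PP (R κ)) F omega w1 → ∀ c, pair c c ∈ PP (R κ) →
      ∃ c', pair c' c ∈ PP (R κ) ∧ ∃ δ ∈ w1, ∀ r n ξ, pair r c' ∈ PP (R κ) → In3 F r n ξ → ξ ∈ δ)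
    (bdd : ∀ F, FunNm (PP (R κ)) F w1 (II κ) → ∃ a ∈ II κ, ∀ r ξ, ¬ In3 F r ξ a)
    (nocx : ∀ x, ¬ Cx Set.univ w1 (PP (R κ)) x) :
    ∃ L N, Pkg Set.univ w1 (PP (R κ)) (II κ) L N := by
  have hp := (H.lev κ).po
  have h := H.sys (succ κ)
  have hI : ∀ a ∈ II κ, ¬ IsSuccLimit (rank a) ∧ succ (rank a) ≤ κ := fun a ha => by
    obtain ⟨b, h1, h2, rfl⟩ := mem_II.1 ha
    rw [Ordinal.rank_toZFSet]
    exact ⟨h2, succ_le_of_lt h1⟩
  have key : ∀ a ∈ II κ, ∀ a' ∈ II κ, rank a < rank a' → ∀ r, pair r r ∈ PP (R κ) →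
      ∃ r' α x x', pair r' r ∈ PP (R κ) ∧ In3 (NdN R κ) r' a (pair α x) ∧
        In3 (NdN R κ) r' a' (pair α x') ∧ x ≠ x' := fun a ha a' ha' hl r hr => by
    rw [cond_PP hp] at hr
    obtain ⟨r', α, x, x', p, p', a1, a2, a3, a4, a5, a6, a7⟩ :=
      H.nd_sep (hI a ha).1 (hI a' ha').1 hl (hI a' ha').2 hr
    exact ⟨r', α, x, x', (mem_PP hp).2 ⟨a1, hr, a2⟩, in3_NdN.2 ⟨ha, a1, p, a3, a4⟩,
      in3_NdN.2 ⟨ha', a1, p', a5, a6⟩, a7⟩
  refine ⟨LvN R κ, NdN R κ, po_PP hp, om1_univ, fun F _ => pres F, fun F _ => bdd F,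
    fun x _ => nocx x, fun r α t h1 => ?_, fun r r' α t h1 h2 => ?_,
    fun r α t α' t' h1 h2 hs => ?_, fun r a z h1 => ?_, fun r r' a z h1 h2 => ?_,
    fun r a α x α' x' h1 h2 hs => ?_, fun a ha α hα r hr => ?_, fun a ha a' ha' hne r hr => ?_⟩
  · obtain ⟨a1, a2, -⟩ := in3_LvN.1 h1
    exact ⟨(cond_PP hp).2 a1, a2.1, a2.2.1, ctbl_univ a2.2.2.1, a2.2.2.2⟩
  · obtain ⟨-, a2, a3⟩ := in3_LvN.1 h1
    rw [mem_PP hp] at h2
    exact in3_LvN.2 ⟨h2.1, a2, sub_trans h2.2.2 a3⟩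
  · obtain ⟨a1, a2, a3⟩ := in3_LvN.1 h1
    obtain ⟨-, b2, b3⟩ := in3_LvN.1 h2
    exact tc_coh a2 b2 hs (h.meets_of_up (zero_le (a := κ)) (lt_succ κ) ((a1.meets b3).mono a3 sub_rfl))
  · obtain ⟨-, a1, p, ⟨-, α, x, t, e, a2, a3, -⟩, -⟩ := in3_NdN.1 h1
    exact ⟨(cond_PP hp).2 a1, α, a3.1, x, a3.2.2.2 x a2, e⟩
  · obtain ⟨a0, -, p, a2, a3⟩ := in3_NdN.1 h1
    rw [mem_PP hp] at h2
    exact in3_NdN.2 ⟨a0, h2.1, p, a2, sub_trans h2.2.2 a3⟩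
  · obtain ⟨a0, a1, p, a2, a3⟩ := in3_NdN.1 h1
    obtain ⟨-, -, p', b2, b3⟩ := in3_NdN.1 h2
    obtain ⟨y, rfl, rfl⟩ := H.node_coh (hI a a0).1 a2 b2
      (h.meets_of_up (hI a a0).2 (lt_succ κ) ((a1.meets b3).mono a3 sub_rfl))
    exact (inter_inter hs).symm
  · rw [cond_PP hp] at hr
    obtain ⟨r', x, t, p, a1, a2, a3, a4, a5, a6, a7⟩ := H.nd_tot (hI a ha).1 (hI a ha).2 hα hr
    exact ⟨r', x, t, (mem_PP hp).2 ⟨a1, hr, a2⟩, in3_NdN.2 ⟨ha, a1, p, a3, a4⟩,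
      in3_LvN.2 ⟨a1, a5, a6⟩, a7⟩
  · rcases lt_trichotomy (rank a) (rank a') with hl | hl | hl
    · exact key a ha a' ha' hl r hr
    · obtain ⟨b, -, -, rfl⟩ := mem_II.1 ha
      obtain ⟨b', -, -, rfl⟩ := mem_II.1 ha'
      rw [Ordinal.rank_toZFSet, Ordinal.rank_toZFSet] at hl
      exact absurd (hl ▸ rfl) hne
    · obtain ⟨r', α, x, x', a1, a2, a3, a4⟩ := key a' ha' a ha hl r hr
      exact ⟨r', α, x', x, a1, a3, a2, a4.symm⟩

end Pool.Agent.Lib.MP_329f2d_lc.It
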