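import Pool.Agent.Lib.MP_329f2d_lc.H55Rf
import Pool.Agent.Lib.MP_329f2d_lc.H5Tree
import Pool.Agent.Lib.MP_329f2d_lc.H58Set
import Pool.Agent.Lib.MP_329f2d_lc.H55Mod

/-!
No counterexample survives the iteration; the chain condition.
-/

namespace Pool.Agent.Lib.MP_329f2d_lc.It

open ZFSet Order

variable {R : O → V}

/-- The collapse of an elementary substructure commutes with pairs. -/
structure Good (X : Set V) (π : V → V) : Prop where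
  pair : ∀ a ∈ X, ∀ b ∈ X, pair a b ∈ X ∧ π (pair a b) = pair (π a) (π b)
  fst : ∀ z ∈ X, fst z ∈ X ∧ π (fst z) = fst (π z)
  snd : ∀ z ∈ X, snd z ∈ X ∧ π (snd z) = snd (π z)
  mem : ∀ a ∈ X, ∀ b ∈ X, π a ∈ π b ↔ a ∈ b

theorem good_of {K X : Set V} {π : V → V} (hK : ZFm K ∅) (hM : ZFm (π '' X) ∅)
    (hE : Emb (π '' X) K fun a y => y ∈ X ∧ a = π y) : Good X π :=
  ⟨fun a ha b hb => (emb2 (K := ZF) (fun _ a b => pair a b) hE hM hK (a := π a) (b := π b)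
      ⟨ha, rfl⟩ ⟨hb, rfl⟩).imp_right Eq.symm,
    fun z hz => (emb1 (K := ZF) (fun _ a => fst a) hE hM hK (a := π z) ⟨hz, rfl⟩).imp_right Eq.symm,
    fun z hz => (emb1 (K := ZF) (fun _ a => snd a) hE hM hK (a := π z) ⟨hz, rfl⟩).imp_right Eq.symm,
    fun _ ha _ hb => hE.pe.mem_iff ⟨ha, rfl⟩ ⟨hb, rfl⟩⟩

theorem Good.le {X : Set V} {π : V → V} (h : Good X π) {E p s p' s' : V} (hE : E ∈ X) (hp : p ∈ X)
    (hs : s ∈ X) (hp' : p' ∈ X) (hs' : s' ∈ X) :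
    ZFSet.pair (ZFSet.pair (π p) (π s)) (ZFSet.pair (π p') (π s')) ∈ π E ↔
      ZFSet.pair (ZFSet.pair p s) (ZFSet.pair p' s') ∈ E := by
  obtain ⟨a1, a2⟩ := h.pair p hp s hs
  obtain ⟨b1, b2⟩ := h.pair p' hp' s' hs'
  obtain ⟨c1, c2⟩ := h.pair _ a1 _ b1
  rw [← a2, ← b2, ← c2, h.mem _ c1 _ hE]

theorem Good.lift {X : Set V} {π : V → V} (h : Good X π) (hπ : Col X π) {E p s e : V}
    (H : ZFSet.pair (ZFSet.pair p s) e ∈ π E) : ∃ p₀ ∈ X, ∃ s₀ ∈ X, p = π p₀ ∧ s = π s₀ := by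
  obtain ⟨z, -, hz, e⟩ := (hπ _ _).1 H
  obtain ⟨a1, a2⟩ := h.fst z hz
  refine ⟨_, (h.fst _ a1).1, _, (h.snd _ a1).1, ?_, ?_⟩
  · rw [(h.fst _ a1).2, a2, ← e, fst_pair, fst_pair]
  · rw [(h.snd _ a1).2, a2, ← e, fst_pair, snd_pair]

theorem rank_lt_of_mem_w1 {i : V} (h : i ∈ w1) : rank i < Ordinal.omega 1 :=
  (rank_lt_of_mem h).trans_eq (Ordinal.rank_toZFSet _)

theorem Iter.bdd {k : Cardinal.{0}} (hk : Supercompact k) (H : Iter k.ord R) (F : V)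
    (hF : FunNm (PP (R k.ord)) F w1 (II k.ord)) : ∃ a ∈ II k.ord, ∀ r ξ, ¬ In3 F r ξ a := by
  obtain ⟨K, X, π, ζ, hK, -, -, -, hFX, -, hPX, hXK, hX, hS, hπ, hζ, hI, hXζ, -, -, -, -, -, -,
    hup, hsurj⟩ := H.reflect hk F fun _ l z => ∃ q ξ, l = [q, ξ] ∧
      pair (fst z) q ∈ PP (R k.ord) ∧ (In3 F (fst z) ξ (snd z) ∨
        ∀ U b, pair U (fst z) ∈ PP (R k.ord) → ¬ In3 F U ξ b)
  obtain ⟨hMt, -, hE⟩ := col_emb hK.trans hX hπ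
  have hG := good_of hK (hE.zfm hMt ⟨_, F, hFX, rfl⟩ hK) hE
  have hs := H.sys (succ k.ord)
  have hκ := lt_succ k.ord
  have hp := hs.po hκ
  have hlt : succ ζ < k.ord := hk.inacc.lim.succ_lt hζ
  refine ⟨(succ ζ).toZFSet, mem_sep.2 ⟨Ordinal.toZFSet_mem_toZFSet_iff.2 hlt, by
    rw [Ordinal.rank_toZFSet]; exact not_isSuccLimit_succ ζ⟩, fun r ξ hr => ?_⟩
  obtain ⟨_, _, hξ, _, -, e, hrr⟩ := hF.dom _ hr
  simp only [pair_inj] at e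
  obtain ⟨rfl, rfl, rfl⟩ := e
  have hrp := (cond_PP hp).1 hrr
  obtain ⟨q, hqX, hq, hq'⟩ := hsurj _ (hs.pr_pos hζ.le hκ hrp)
  have hξX : ξ ∈ X := ((hXζ ξ).1 ((rank_lt_of_mem_w1 hξ).trans hI.om)).1
  obtain ⟨z, hz, _, _, e, h1, h2⟩ := hS 0 [q, ξ] (by simp [hqX, hξX]) (by
    by_cases h : ∃ U b, pair U q ∈ PP (R k.ord) ∧ In3 F U ξ b
    · obtain ⟨U, b, h1, h2⟩ := h
      exact ⟨pair U b, hK.opair (hK.mem (left_mem_sUnion h2) (hK.union _ (hK.union _ (hXK hFX))))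
        (mem_of_pair_right hK.trans (mem_of_pair_right hK.trans (hK.mem h2 (hXK hFX)))),
        q, ξ, rfl, by simpa using h1, .inl (by simpa using h2)⟩
    · exact ⟨pair q q, hK.opair (hXK hqX) (hXK hqX), q, ξ, rfl,
        by simpa using (cond_PP hp).2 hq,
        .inr fun U b h1 h2 => h ⟨U, b, by simpa using h1, h2⟩⟩)
  obtain ⟨rfl, rfl⟩ : q = _ ∧ ξ = _ := by simpa using e
  obtain ⟨hU, -, hUq⟩ := (mem_PP hp).1 h1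
  obtain ⟨a1, a2⟩ := hup _ (hG.fst z hz).1 hU
  have a3 : π (fst z) ⊆ pr R ζ k.ord r := fun w hw => by
    obtain ⟨y, b1, b2, rfl⟩ := (hπ _ _).1 hw
    exact hq' ▸ (hπ _ _).2 ⟨y, hUq b1, b2, rfl⟩
  have a4 := (((hs.meets_iff hζ.le hκ hrp.1 a1.1).1 (a1.meets a3)).mono a2 sub_rfl).pos hp hU.1 hrp.1
  have a5 := hF.mono _ _ _ _ hr ((mem_PP hp).2 ⟨a4, hrp, inter_sub_right _ _⟩)
  have a6 := (mem_PP hp).2 ⟨a4, hU, inter_sub_left _ _⟩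
  rcases h2 with h2 | h2
  · have a7 := hF.uniq _ _ _ _ a5 (hF.mono _ _ _ _ h2 a6)
    have := (hXζ (succ ζ).toZFSet).2 ⟨a7 ▸ (hG.snd z hz).1, by rwa [Ordinal.rank_toZFSet]⟩
    rw [Ordinal.rank_toZFSet] at this
    exact (lt_succ ζ).not_gt this
  · exact h2 _ _ a6 a5

theorem Iter.nocx {k : Cardinal.{0}} (hk : Supercompact k) (H : Iter k.ord R) (x : V) :
    ¬ Cx Set.univ w1 (PP (R k.ord)) x := by
  intro hx₁
  obtain ⟨x, hx, hmin⟩ := (InvImage.wf rank Ordinal.lt_wf).has_min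
    {x | Cx Set.univ w1 (PP (R k.ord)) x} ⟨x, hx₁⟩
  obtain ⟨E, D, h, u, ρ, hxe, hE, hD, hD', -, -, -, -, -, -, -, -, -, hno⟩ := id hx
  obtain ⟨K, X, π, ζ, hK, hSK, hK1, hK2, hxX, hVX, hPX, hXK, hX, hS, hπ, hζ, hI, hXζ, hSM, hrk, hrk',
    hV, hfix, hPπ, hup, -⟩ := H.reflect hk x fun _ l e => ∃ i e₀, l = [i, e₀] ∧
      pair e e₀ ∈ E ∧ ∃ d, pair i d ∈ D ∧ e ∈ d
  obtain ⟨hMt, -, hEm⟩ := col_emb hK.trans hX hπ
  have hM := hEm.zfm hMt ⟨_, x, hxX, rfl⟩ hK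
  have hG := good_of hK hM hEm
  have hs := H.sys (succ k.ord)
  have hκ := lt_succ k.ord
  have hp := hs.po hκ
  have hlt : succ ζ < k.ord := hk.inacc.lim.succ_lt hζ
  have hw : rank w1 < ζ := (Ordinal.rank_toZFSet _).trans_lt hI.om
  have hK0 : ∀ y : V, rank y < Ordinal.omega 1 → y ∈ K := fun y hy =>
    hK2 y (hy.trans (hI.om.trans hζ)).le
  have hM0 : ∀ y : V, rank y < Ordinal.omega 1 → y ∈ π '' X := fun y hy =>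
    ⟨y, ((hXζ y).1 (hy.trans hI.om)).1, hfix y (hy.trans hI.om)⟩
  have key : ∀ y ∈ X, rank y ≤ rank x →
      (Cx Set.univ w1 (PP (R ζ)) (π y) ↔ Cx Set.univ w1 (PP (R k.ord)) y) := fun y hy hle => by
    rw [← cx_abs hK hSK (hXK hPX) (hXK hy) hK0 fun z hz => hK1 z (hz.le.trans hle),
      ← cx_abs hM hSM ⟨_, hPX, hPπ⟩ ⟨y, hy, rfl⟩ hM0 fun z hz => hV x hxX hVX z
        (hz.trans_le (not_lt.1 fun h' => hle.not_gt ((hrk' x hxX y hy).1 h')))]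
    exact cx_transfer hEm.pe hM hK hEm.dom ⟨((hXζ _).1 hw).1, (hfix _ hw).symm⟩ ⟨hPX, hPπ.symm⟩
      ⟨hy, rfl⟩
  have hC : π x ∈ CxSet k.ord (PP (R ζ)) := mem_CxSet.2 ⟨hrk x hxX, (key x hxX le_rfl).2 hx,
    fun x' hx' => not_lt.1 fun hl => by
      obtain ⟨y, hy, rfl⟩ := hV x hxX hVX x' hl
      have := (hrk' y hy x hxX).1 hl
      exact hmin y ((key y hy this.le).1 hx') this⟩
  have hEx : fst x = E := by rw [hxe, fst_pair]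
  have hEX : E ∈ X := hEx ▸ (hG.fst x hxX).1
  have hE' : fst (π x) = π E := by rw [← hEx, (hG.fst x hxX).2]
  have hX' : ExtOf (PP (R ζ)) (π E) := hE' ▸ extOf_of_mem_CxSet hC
  have hs' := H.sys (succ ζ)
  have hSt : Stp R k.ord ζ = EL (PP (R ζ)) (CxSet k.ord (PP (R ζ))) := if_pos hI.lim
  have hx1 := H.ext ζ
  have hx2 := H.sucSpec ζ
  have hpζ := hs'.po (lt_succ ζ)
  have hp1 : Po (R (succ ζ)) := hs.po (hlt.trans hκ)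
  set ι : V → V → V := fun p s => sk R ζ (π p) (pair (π x) (π s)) with hι
  have posE : ∀ {p s}, pair (pair p s) (pair p s) ∈ E → Pos (R k.ord) p := fun h =>
    (cond_PP hp).1 (hE.le _ _ _ _ h)
  have i1 : ∀ {p s p' s'}, p ∈ X → s ∈ X → p' ∈ X → s' ∈ X → pair (pair p s) (pair p' s') ∈ E →
      pair (ι p s) (ι p' s') ∈ R (succ ζ) := fun {p s p' s'} a1 a2 a3 a4 a5 => by
    have b := (hG.le hEX a1 a2 a3 a4).2 a5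
    have b' := hX'.le _ _ _ _ b
    refine sk_le hs' hx1 hx2 ?_
    rw [hSt, mem_EL]
    exact ⟨⟨(po_PP hpζ).left b', .inr ⟨_, hC, _, rfl, hE' ▸ hX'.po.left b⟩⟩,
      ⟨(po_PP hpζ).right b', .inr ⟨_, hC, _, rfl, hE' ▸ hX'.po.right b⟩⟩, b',
      .inr ⟨_, _, _, rfl, rfl, hE' ▸ b⟩⟩
  have i2 : ∀ {p' s' e}, p' ∈ X → s' ∈ X → pair (pair p' s') (pair p' s') ∈ E →
      pair e (ι p' s') ∈ R (succ ζ) →
      ∃ p ∈ X, ∃ s ∈ X, e = ι p s ∧ pair (pair p s) (pair p' s') ∈ E := fun {p' s' e} a1 a2 a3 a4 => by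
    obtain ⟨p, t, b1, rfl⟩ := le_sk' hs' hx1 hx2 (hup _ a1 (posE a3)).1 a4
    rw [hSt, mem_EL] at b1
    obtain b2 | ⟨_, s, _, rfl, b2, b3⟩ := b1.2.2.2
    · exact absurd b2 (pair_ne_empty _ _)
    obtain ⟨rfl, rfl⟩ := pair_inj.1 b2
    rw [hE'] at b3
    obtain ⟨p, c1, s, c2, rfl, rfl⟩ := hG.lift hπ b3
    exact ⟨p, c1, s, c2, rfl, (hG.le hEX c1 c2 a1 a2).1 b3⟩
  have i3 : ∀ {p s p' s'}, p ∈ X → s ∈ X → p' ∈ X → s' ∈ X → pair (pair p s) (pair p s) ∈ E →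
      pair (pair p' s') (pair p' s') ∈ E → pair (ι p s) (ι p' s') ∈ R (succ ζ) →
      pair (pair p s) (pair p' s') ∈ E := fun {p s p' s'} a1 a2 a3 a4 a5 a6 a7 => by
    obtain ⟨p₁, b1, s₁, b2, b3, b4⟩ := i2 a3 a4 a6 a7
    obtain ⟨c1, c2⟩ := sk_inj hs' (hup _ a1 (posE a5)).1 (hup _ b1 (posE (hE.po.left b4))).1 b3
    rw [← hG.le hEX a1 a2 a3 a4, c1, (pair_inj.1 c2).2, hG.le hEX b1 b2 a3 a4]
    exact b4
  set J : V → V → V := fun p s => up R (succ ζ) k.ord (cl (R (succ ζ)) (ι p s)) with hJ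
  have j1 : ∀ {p s}, p ∈ X → s ∈ X → pair (pair p s) (pair p s) ∈ E →
      Pos (R k.ord) (J p s) ∧ J p s ⊆ p := fun {p s} a1 a2 a3 => by
    have b := i1 a1 a2 a1 a2 a3
    obtain ⟨b1, b2⟩ := hup _ a1 (posE a3)
    refine ⟨hs.up_pos hlt.le hκ (pos_cl hp1 b), sub_trans ?_ b2⟩
    rw [← hs.up_up hlt.le hκ (le_succ ζ) b1.1]
    refine up_mono ((hs.up_ro (le_succ ζ) (hlt.trans hκ) b1.1).cl_sub hp1 (mem_up.2 ⟨b, ?_⟩))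
    rw [rho_lt (lt_succ ζ), co_sk_self hs' b1]
  have j2 : ∀ {r p s}, Pos (R k.ord) r → ι p s ∈ pr R (succ ζ) k.ord r →
      Pos (R k.ord) (r ∩ J p s) := fun {r p s} a1 a2 => by
    have b := (hs.pr_ro hlt.le hκ r).cond hp1 a2
    exact ((hs.meets_iff hlt.le hκ a1.1 (ro_cl hp1 _)).1
      ⟨_, mem_cl_of_le hp1 b, a2⟩).symm.pos hp a1.1 (hs.up_ro hlt.le hκ (ro_cl hp1 _))
  have j3 : ∀ {r p s d}, Pos (R k.ord) r → p ∈ X → s ∈ X → pair (pair p s) (pair p s) ∈ E →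
      r ⊆ J p s → d ∈ pr R (succ ζ) k.ord r → ∃ p' ∈ X, ∃ s' ∈ X,
        pair (pair p' s') (pair p s) ∈ E ∧ pair (ι p' s') d ∈ R (succ ζ) ∧
        ι p' s' ∈ pr R (succ ζ) k.ord r := fun {r p s d} a1 a2 a3 a4 a5 a6 => by
    obtain ⟨d', b1, b2⟩ := exists_le_of_mem_cl hp1
      ((hs.gc hlt.le hκ a1.1 (ro_cl hp1 _)).2 a5 a6)
    obtain ⟨p', c1, s', c2, rfl, c3⟩ := i2 a2 a3 a4 b2
    exact ⟨p', c1, s', c2, c3, b1, (hs.pr_ro hlt.le hκ r).down hp1 a6 b1⟩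
  set Hn : V := (prod (fld (PP (R k.ord))) (fld E)).sep fun z => ∃ r p s, z = pair r (pair p s) ∧
    p ∈ X ∧ s ∈ X ∧ r ⊆ J p s with hHn
  have hH' : ∀ {z}, z ∈ Hn ↔ ∃ r p s, z = pair r (pair p s) ∧ Pos (R k.ord) r ∧
      pair (pair p s) (pair p s) ∈ E ∧ p ∈ X ∧ s ∈ X ∧ r ⊆ J p s := fun {z} => by
    rw [hHn, mem_sep]
    constructor
    · rintro ⟨a1, r, p, s, rfl, a2⟩
      rw [pair_mem_prod, mem_fld, mem_fld, cond_PP hp] at a1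
      exact ⟨r, p, s, rfl, a1.1, a1.2, a2⟩
    · rintro ⟨r, p, s, rfl, a1, a2, a3⟩
      exact ⟨pair_mem_prod.2 ⟨mem_fld.2 ((cond_PP hp).2 a1), mem_fld.2 a2⟩, r, p, s, rfl, a3⟩
  have hH : ∀ {r e}, pair r e ∈ Hn → ∃ p s, e = pair p s ∧ Pos (R k.ord) r ∧
      pair (pair p s) (pair p s) ∈ E ∧ p ∈ X ∧ s ∈ X ∧ r ⊆ J p s := fun h => by
    obtain ⟨_, p, s, e, h'⟩ := hH'.1 h
    obtain ⟨rfl, rfl⟩ := pair_inj.1 e
    exact ⟨p, s, rfl, h'⟩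
  obtain ⟨e₁, he₁⟩ := exists_cond hX'.po
  obtain ⟨_, _, rfl, -⟩ := hX'.fst e₁ he₁
  obtain ⟨p₁, hp₁, s₁, hs₁, rfl, rfl⟩ := hG.lift hπ he₁
  rw [hG.le hEX hp₁ hs₁ hp₁ hs₁] at he₁
  obtain ⟨k1, k2⟩ := j1 hp₁ hs₁ he₁
  refine hno ⟨Hn, trivial, J p₁ s₁, s₁,
    hE.po.left (hE.res _ _ _ he₁ ((mem_PP hp).2 ⟨k1, posE he₁, k2⟩)), fun z hz => ?_,
    fun r r' e a1 a2 => ?_, fun r e e' a1 a2 => ?_, fun i hi r hr => ?_⟩
  · obtain ⟨r, p, s, rfl, a1, a2, a3, a4, a5⟩ := hH'.1 hz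
    exact ⟨r, p, s, rfl, a2, (mem_PP hp).2 ⟨a1, posE a2, sub_trans a5 (j1 a3 a4 a2).2⟩⟩
  · obtain ⟨p, s, rfl, -, b2, b3, b4, b5⟩ := hH a1
    rw [mem_PP hp] at a2
    exact hH'.2 ⟨r', p, s, rfl, a2.1, b2, b3, b4, sub_trans a2.2.2 b5⟩
  · obtain ⟨p, s, rfl, b1, b2, b3, b4, b5⟩ := hH a1
    obtain ⟨p', s', rfl, -, c2, c3, c4, c5⟩ := hH a2
    obtain ⟨d, hd⟩ := (hs.pr_pos hlt.le hκ b1).2
    obtain ⟨p₂, d1, s₂, d2, d3, -, d5⟩ := j3 b1 b3 b4 b2 b5 hd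
    obtain ⟨p₃, e1, s₃, e2, e3, e4, e5⟩ := j3 b1 c3 c4 c2 c5 d5
    have f := j2 b1 e5
    exact ⟨_, pair p₃ s₃, (mem_PP hp).2 ⟨f, b1, inter_sub_left _ _⟩,
      hH'.2 ⟨_, p₃, s₃, rfl, f, hE.po.left e3, e1, e2, inter_sub_right _ _⟩,
      hE.po.trans (i3 e1 e2 d1 d2 (hE.po.left e3) (hE.po.left d3) e4) d3, e3⟩
  · obtain ⟨b1, -, b5⟩ := (mem_PP hp).1 hr
    obtain ⟨d, hd⟩ := (hs.pr_pos hlt.le hκ b1).2
    obtain ⟨p₂, d1, s₂, d2, d3, -, d5⟩ := j3 b1 hp₁ hs₁ he₁ b5 hd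
    have hiX : i ∈ X := ((hXζ i).1 ((rank_lt_of_mem_w1 hi).trans hI.om)).1
    obtain ⟨e, he, _, _, e0, e1, d', e2, e3⟩ := hS 0 [i, pair p₂ s₂]
      (by simp [hiX, (hG.pair _ d1 _ d2).1]) (by
        obtain ⟨d', a1⟩ := hD i hi
        obtain ⟨e, a2, a3⟩ := (hD' i d' a1).2 _ (hE.po.left d3)
        exact ⟨e, mem_of_pair_left hK.trans (hK.mem a3 (hXK hEX)), _, _, rfl, a3, d', a1, a2⟩)
    obtain ⟨rfl, rfl⟩ : i = _ ∧ pair p₂ s₂ = _ := by simpa using e0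
    obtain ⟨p₃, s₃, rfl, -⟩ := hE.fst e (hE.po.left e1)
    have f1 : p₃ ∈ X := by simpa using (hG.fst _ he).1
    have f2 : s₃ ∈ X := by simpa using (hG.snd _ he).1
    have f := j2 b1 ((hs.pr_ro hlt.le hκ r).down hp1 d5 (i1 f1 f2 d1 d2 e1))
    exact ⟨_, d', pair p₃ s₃, (mem_PP hp).2 ⟨f, b1, inter_sub_left _ _⟩, e2, e3,
      hH'.2 ⟨_, p₃, s₃, rfl, f, hE.po.left e1, f1, f2, inter_sub_right _ _⟩⟩

end Pool.Agent.Lib.MP_329f2d_lc.It
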