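import Pool.Agent.Lib.MP_329f2d_lc.H35E
import Pool.Agent.Lib.MP_329f2d_lc.H35A

/-!
A countable full model below a given set.
-/

open ZFSet Cardinal

namespace Pool.Agent.Lib.MP_329f2d_lc

open H35

theorem exists_setup (x : V) (T : Set V) (hT : T.Countable) (hTx : T ⊆ x)
    (Ψ : ℕ → List V → V → Prop) :
    ∃ (N A M : V) (X : Set V) (s : V → V), x ⊆ N ∧ LA N A ∧ A ∈ X ∧ T ⊆ X ∧ X.Countable ∧
      Sk x X Ψ ∧ Sub (X ∩ N) N ∧ (M : Set V).Countable ∧ ZFCm M ∅ ∧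
      Emb M N (fun a y => a ∈ M ∧ y = s a) ∧ (∀ a ∈ M, s a ∈ X) ∧
      (∀ y ∈ X, y ∈ N → ∃ a ∈ M, s a = y) ∧
      ∀ P ∈ M, Po (s P) → ∀ H, Filt P H → (∀ D ∈ X, Dense (s P) D → ∃ p ∈ H, s p ∈ D) →
        Generic M P H ∧ Full w1 (ExtV M H) := by
  obtain ⟨N, A, N₂, hx, hN, hNN, hZ₂, hr⟩ := exists_LA x
  have hz := hZ₂.1
  have hNs : ∀ y ∈ N, y ∈ N₂ := fun y hy => hz.mem hy hNN
  obtain ⟨X, hTX, hXN, hXc, hX, hS⟩ := exists_hull N₂ (insert A (insert N T))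
    (Set.insert_subset (hNs A hN.2.1) (Set.insert_subset hNN fun y hy => hNs y (hx (hTx hy))))
    (Set.insert_nonempty _ _) ℵ₀ le_rfl
    (le_aleph0_iff_set_countable.2 ((hT.insert _).insert _)) fun k l y => y ∈ x ∧ Ψ k l y
  have hXc' : X.Countable := le_aleph0_iff_set_countable.1 hXc
  have hAX : A ∈ X := hTX (Set.mem_insert _ _)
  have hNX : N ∈ X := hTX (Set.mem_insert_of_mem _ (Set.mem_insert _ _))
  obtain ⟨π, hπ⟩ := exists_col X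
  obtain ⟨hMt, hinj, hE⟩ := col_emb hz.trans hX hπ
  obtain ⟨M₂, hM₂⟩ : ∃ M₂ : V, (M₂ : Set V) = π '' X := ⟨img π (ZFSet.sep (· ∈ X) N₂), by
    ext z
    exact mem_img.trans ⟨fun ⟨y, hy, e⟩ => ⟨y, (mem_sep.1 hy).2, e⟩,
      fun ⟨y, hy, e⟩ => ⟨y, mem_sep.2 ⟨hXN hy, hy⟩, e⟩⟩⟩
  have hZM₂ := hE.zfcm hMt ⟨_, A, hAX, rfl⟩ hZ₂
  have hc₂ : (π '' X).Countable := hXc'.image π
  have hMM : π N ∈ π '' X := ⟨N, hNX, rfl⟩
  have hR := hE.pe.restrict hZM₂.1 hz hE.dom (a := π N) (b := N) ⟨hNX, rfl⟩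
  set s := Function.invFunOn π X
  have hsπ : ∀ y ∈ X, s (π y) = y := fun y hy => hinj.leftInvOn_invFunOn hy
  have hM : ∀ a ∈ π N, s a ∈ N ∧ s a ∈ X ∧ a = π (s a) := fun a ha => by
    obtain ⟨y, h1, h2, rfl⟩ := (hπ N a).1 ha
    rw [hsπ y h2]
    exact ⟨h1, h2, rfl⟩
  have hπM : ∀ y ∈ X, y ∈ N → π y ∈ π N := fun y h1 h2 => (hπ N _).2 ⟨y, h2, h1, rfl⟩
  have hEM : Emb (π N) N fun a y => a ∈ π N ∧ y = s a :=
    ⟨fun φ v w hvw => hR φ v w fun i => by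
      obtain ⟨h1, h2⟩ := hvw i
      rw [h2]
      exact ⟨(hM _ h1).2, h1⟩,
    fun a y h => ⟨h.1, h.2 ▸ (hM a h.1).1⟩, fun a ha => ⟨s a, ha, rfl⟩⟩
  have hMtr : ∀ a ∈ (π N : Set V), ∀ b ∈ a, b ∈ (π N : Set V) := fun a ha b hb => by
    obtain ⟨y, h1, -, rfl⟩ := (hπ N a).1 ha
    obtain ⟨z, h3, h4, rfl⟩ := (hπ y b).1 hb
    exact hπM z h4 (hN.1.1.mem h3 h1)
  have hAM := hπM A hAX hN.2.1
  have hZM := hEM.zfcm hMtr ⟨_, hAM⟩ hN.1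
  have hLM : LA (π N) (π A) :=
    (la_transfer hEM.pe hZM hN.1 hEM.dom ⟨hAM, (hsπ A hAX).symm⟩).2 hN
  have hsub : ∀ φ (v : ℕ → V), (∀ i, v i ∈ X ∩ N) → (Sat (X ∩ N) ∅ φ v ↔ Sat N ∅ φ v) := by
    intro φ
    induction φ with
    | mem i j => exact fun _ _ => Iff.rfl
    | eq i j => exact fun _ _ => Iff.rfl
    | pred i => exact fun _ _ => Iff.rfl
    | neg φ ih => exact fun v hv => not_congr (ih v hv)
    | and φ ψ ih ih' => exact fun v hv => and_congr (ih v hv) (ih' v hv)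
    | ex φ ih =>
      intro v hv
      refine ⟨fun ⟨y, hy, h⟩ => ⟨y, hy.2, (ih _ (cons_mem hy hv)).1 h⟩, fun h => ?_⟩
      have h1 : ∀ i, π (v i) ∈ π N ∧ v i = s (π (v i)) := fun i =>
        ⟨hπM _ (hv i).1 (hv i).2, (hsπ _ (hv i).1).symm⟩
      obtain ⟨a, ha, h2⟩ := (hEM.pe (.ex φ) (fun i => π (v i)) v h1).2 h
      have h3 : s a ∈ X ∩ N := ⟨(hM a ha).2.1, (hM a ha).1⟩
      exact ⟨s a, h3, (ih _ (cons_mem h3 hv)).2
        ((hEM.pe φ _ _ (rel_cons (m := fun a y => a ∈ π N ∧ y = s a) ⟨ha, rfl⟩ h1)).1 h2)⟩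
  refine ⟨N, A, π N, X, s, hx, hN, hAX,
    fun y hy => hTX (Set.mem_insert_of_mem _ (Set.mem_insert_of_mem _ hy)), hXc',
    fun k l hl ⟨y, hy, h⟩ => ?_, ⟨fun φ v w hvw => ?_, fun a y h => ⟨h.1, h.2 ▸ h.1.2⟩,
      fun a ha => ⟨a, ha, rfl⟩⟩, hc₂.mono fun a ha => hMt _ hMM a ha, hZM, hEM,
    fun a ha => (hM a ha).2.1, fun y h1 h2 => ⟨π y, hπM y h1 h2, hsπ y h1⟩,
    fun P hP hPo H hF hD => ?_⟩
  · obtain ⟨z, hz, h'⟩ := hS k l hl ⟨y, hNs y (hx hy), hy, h⟩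
    exact ⟨z, hz, h'.2⟩
  · obtain rfl : w = v := funext fun i => (hvw i).2
    exact hsub φ w fun i => (hvw i).1
  · have hsP : s P ∈ X ∧ P = π (s P) := (hM P hP).2
    have d1 : Df ZF fun _ (v : ℕ → V) => Po (v 0) :=
      @df_and _ _ _ _ inferInstance (@df_and _ _ _ _ inferInstance inferInstance)
    have d2 : Df ZF fun _ (v : ℕ → V) => Dense (v 0) (v 1) := by unfold Dense; infer_instance
    have d3 : Df ZF fun W (v : ℕ → V) => Reg W (v 0) := by unfold Reg; infer_instance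
    have hPo' : Po P := (transfer hE.pe hZM₂.1 hz hE.dom _ (hP := d1) (v := fun _ => P)
      (w := fun _ => s P) fun _ => hsP).2 hPo
    have hr' : Reg (π '' X) (π N) := (transfer hE.pe hZM₂.1 hz hE.dom _ (hP := d3)
      (v := fun _ => π N) (w := fun _ => N) fun _ => ⟨hNX, rfl⟩).2 hr
    have hG : Generic (π '' X) P H := by
      refine ⟨hF, ?_⟩
      rintro _ ⟨D, hDX, rfl⟩ hd
      obtain ⟨p, hp, hp'⟩ := hD D hDX ((transfer hE.pe hZM₂.1 hz hE.dom _ (hP := d2)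
        (v := cons P fun _ => π D) (w := cons (s P) fun _ => D)
        (rel_cons (m := fun a y => y ∈ X ∧ a = π y) hsP fun _ => ⟨hDX, rfl⟩)).1 hd)
      have hpM : p ∈ π N := mem_of_pair_left hMtr (hMtr _ hP _ (hF.2.1 p hp))
      exact ⟨p, hp, (hπ D p).2 ⟨s p, hp', (hM p hpM).2⟩⟩
    refine ⟨⟨hF, fun D hD => hG.2 D (hMt _ hMM D hD)⟩, ?_⟩
    rw [← hM₂] at hZM₂ hc₂ hMM hr' hG
    exact full_ext hZM₂ hc₂ hMM hLM hr' hP hPo' hG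

end Pool.Agent.Lib.MP_329f2d_lc
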