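import Pool.Agent.Lib.MP_329f2d_lc.H85B
import Pool.Agent.Lib.MP_329f2d_lc.H38G3
import Pool.Agent.Lib.MP_329f2d_lc.H55Mod
import Pool.Agent.Lib.MP_329f2d_lc.H58Set

/-! From the package in the universe to a countable transitive model. -/

namespace Pool.Agent.Lib.MP_329f2d_lc

open ZFSet Cardinal

theorem genExt {K : Set V} (hK : ZFC K) (hc : K.Countable) {P G : V} (hPo : Po P) (hP : P ∈ K)
    (hG : Generic K P G) : GenExt K (Ext K G) P G :=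
  ⟨hK.1.1, ext_zfm hK.1.1 hP hPo hG, hP, hG, subset_ext hK.1.1 hP hPo hG,
    self_mem_ext hK.1.1 hP hPo hG, fun _ ha _ hb _ hf => exists_funNm hK.1.1 hP hPo hG hc ha hb hf⟩

theorem Pkg.om1 {K : Set V} (hK : ZFC K) (hc : K.Countable) {w P I L N G : V} (h : Pkg K w P I L N)
    (hP : P ∈ K) (hG : Generic K P G) : Om1 (Ext K G) w := (genExt hK hc h.po hP hG).om1 h

theorem Pkg.kurepa {K : Set V} (hK : ZFC K) (hc : K.Countable) {w P I L N G : V}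
    (h : Pkg K w P I L N) (hP : P ∈ K)
    (hI : I ∈ K) (hL : L ∈ K) (hN : N ∈ K) (hG : Generic K P G) : Kurepa (Ext K G) :=
  (genExt hK hc h.po hP hG).kurepa h hI hL hN

/-- A countable transitive model of ZFC with the package. -/
theorem exists_ctm_pkg {w P I L N : V} (h : Pkg Set.univ w P I L N) :
    ∃ (K : Set V) (w P I L N : V), K.Countable ∧ ZFC K ∧ P ∈ K ∧ I ∈ K ∧ L ∈ K ∧ N ∈ K ∧
      Pkg K w P I L N := by
  obtain ⟨X, hT, -, hc, hX, -⟩ := exists_hull Set.univ {w, P, I, L, N} (Set.subset_univ _)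
    ⟨w, by simp⟩ ℵ₀ le_rfl (le_aleph0_iff_set_countable.2 (Set.toFinite _).countable)
    fun _ _ _ => True
  obtain ⟨π, hπ⟩ := exists_col X
  obtain ⟨ht, -, he⟩ := col_emb (fun _ _ _ _ => trivial) hX hπ
  have hw : w ∈ X := hT (by simp)
  have hP : P ∈ X := hT (by simp)
  have hI : I ∈ X := hT (by simp)
  have hL : L ∈ X := hT (by simp)
  have hN : N ∈ X := hT (by simp)
  have hZ := he.zfc ht ⟨_, w, hw, rfl⟩ zfc_univ
  exact ⟨π '' X, π w, π P, π I, π L, π N, (le_aleph0_iff_set_countable.1 hc).image π, hZ,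
    ⟨P, hP, rfl⟩, ⟨I, hI, rfl⟩, ⟨L, hL, rfl⟩, ⟨N, hN, rfl⟩,
    (pkg_transfer he.pe hZ.1.1 zfc_univ.1.1 he.dom ⟨hw, rfl⟩ ⟨hP, rfl⟩ ⟨hI, rfl⟩ ⟨hL, rfl⟩
      ⟨hN, rfl⟩).2 h⟩

theorem exists_coe_eq {S : Set V} (h : S.Countable) : ∃ W : V, (W : Set V) = S :=
  have := h.to_subtype
  ⟨range fun x : S => x.1, Set.ext fun x => by simp⟩

theorem final_of (h : ∃ P I L N, Pkg Set.univ w1 P I L N)
    (scfa : ∀ {K : Set V}, ZFC K → K.Countable → ∀ {w P I L N G : V}, Pkg K w P I L N → P ∈ K →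
      Generic K P G → SCFA (Ext K G)) :
    ∃ W : V, (W : Set V).Countable ∧ ZFC W ∧ SCFA W ∧ Kurepa W := by
  obtain ⟨_, _, _, _, h⟩ := h
  obtain ⟨K, w, P, I, L, N, hc, hK, hP, hI, hL, hN, h⟩ := exists_ctm_pkg h
  obtain ⟨p, hp⟩ : ∃ p, pair p p ∈ P := by
    obtain ⟨z, hz⟩ := (eq_empty_or_nonempty P).resolve_left h.po.1
    obtain ⟨p, _, -, hp, -⟩ := h.po.2.1 z hz
    exact ⟨p, hp⟩
  obtain ⟨G, hG, -⟩ := exists_generic hc h.po hp
  obtain ⟨W, hW⟩ := exists_coe_eq (S := Ext K G) (hc.image _)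
  refine ⟨W, ?_⟩
  rw [hW]
  exact ⟨hc.image _, ext_zfc hK.1.1 hP h.po hG hK, scfa hK hc h hP hG,
    h.kurepa hK hc hP hI hL hN hG⟩

end Pool.Agent.Lib.MP_329f2d_lc
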