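import Pool.Agent.Lib.MP_329f2d_lc.H38T
import Pool.Agent.Lib.MP_329f2d_lc.H58Fin

/-! From the package in the universe to the model. -/

namespace Pool.Agent.Lib.MP_329f2d_lc

theorem final_of_pkg (h : ∃ P I L N, Pkg Set.univ w1 P I L N) :
    ∃ W : V, (W : Set V).Countable ∧ ZFC W ∧ SCFA W ∧ Kurepa W :=
  final_of h fun hK hc _ _ _ _ _ _ h hP hG => h.scfa_of hK hc hP hG (h.om1 hK hc hP hG)

end Pool.Agent.Lib.MP_329f2d_lc
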