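import Pool.Agent.Lib.MP_329f2d_lc.H58Rec
import Pool.Agent.Lib.MP_329f2d_lc.H59Defs2

/-!
The forcing relation: atomic formulas, all formulas, and uniform definability.
-/

open ZFSet

set_option synthInstance.maxSize 4000

namespace Pool.Agent.Lib.MP_329f2d_lc

theorem Po.left {P p q : V} (h : Po P) (hp : pair p q ∈ P) : pair p p ∈ P := by
  obtain ⟨a, b, e, ha, -⟩ := h.2.1 _ hp
  rwa [(pair_inj.1 e).1]

theorem Po.right {P p q : V} (h : Po P) (hp : pair p q ∈ P) : pair q q ∈ P := by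
  obtain ⟨a, b, e, -, hb⟩ := h.2.1 _ hp
  rwa [(pair_inj.1 e).2]

theorem Po.trans {P p q r : V} (h : Po P) (h1 : pair p q ∈ P) (h2 : pair q r ∈ P) :
    pair p r ∈ P := h.2.2 _ _ _ h1 h2

/-- One step of the definition of forcing an equation. -/
def FStep (P : V) (X : V → V → V → Prop) (p σ τ : V) : Prop :=
  (∀ π s, pair π s ∈ σ → ∀ q, pair q p ∈ P → pair q s ∈ P →
    ∃ r ρ t, pair r q ∈ P ∧ pair ρ t ∈ τ ∧ pair r t ∈ P ∧ X r π ρ) ∧
  (∀ ρ t, pair ρ t ∈ τ → ∀ q, pair q p ∈ P → pair q t ∈ P →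
    ∃ r π s, pair r q ∈ P ∧ pair π s ∈ σ ∧ pair r s ∈ P ∧ X r π ρ)

/-- Auxiliary recursion. -/
def FE0 (P : V) : V → V → V → Prop :=
  name_wf.fix fun σ ih p τ =>
    FStep P (fun r π ρ => ∃ h : π ∈ (⋃₀ (⋃₀ σ) : V), ih π h r ρ) p σ τ

/-- `p` forces `σ = τ`. -/
def FE (P p σ τ : V) : Prop := FE0 P σ p τ

/-- `p` forces `σ ∈ τ`. -/
def FM (P p σ τ : V) : Prop :=
  ∀ q, pair q p ∈ P → ∃ r ρ t, pair r q ∈ P ∧ pair ρ t ∈ τ ∧ pair r t ∈ P ∧ FE P r σ ρ

theorem FStep.mono' {P : V} {X Y : V → V → V → Prop} {p σ τ : V} (h : FStep P X p σ τ)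
    (H : ∀ r π s ρ t, pair r r ∈ P ∨ (∃ q, pair r q ∈ P) → pair π s ∈ σ → pair ρ t ∈ τ →
      X r π ρ → Y r π ρ) : FStep P Y p σ τ := by
  refine ⟨fun π s h1 q h2 h3 => ?_, fun ρ t h1 q h2 h3 => ?_⟩
  · obtain ⟨r, ρ, t, a, b, c, d⟩ := h.1 π s h1 q h2 h3
    exact ⟨r, ρ, t, a, b, c, H r π s ρ t (.inr ⟨q, a⟩) h1 b d⟩
  · obtain ⟨r, π, s, a, b, c, d⟩ := h.2 ρ t h1 q h2 h3
    exact ⟨r, π, s, a, b, c, H r π s ρ t (.inr ⟨q, a⟩) b h1 d⟩

theorem FE_iff {P p σ τ : V} : FE P p σ τ ↔ FStep P (FE P) p σ τ := by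
  unfold FE
  rw [FE0, WellFounded.fix_eq]
  exact ⟨fun h => h.mono' fun _ _ _ _ _ _ _ _ H => H.2,
    fun h => h.mono' fun _ _ _ _ _ _ h1 _ H => ⟨left_mem_sUnion h1, H⟩⟩

theorem FE.mono {P p q σ τ : V} (hP : Po P) (h : FE P p σ τ) (hq : pair q p ∈ P) :
    FE P q σ τ := by
  rw [FE_iff] at h ⊢
  exact ⟨fun π s h1 r h2 h3 => h.1 π s h1 r (hP.trans h2 hq) h3,
    fun π s h1 r h2 h3 => h.2 π s h1 r (hP.trans h2 hq) h3⟩

theorem FM.mono {P p q σ τ : V} (hP : Po P) (h : FM P p σ τ) (hq : pair q p ∈ P) :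
    FM P q σ τ := fun r hr => h r (hP.trans hr hq)

theorem FE.reg {P p σ τ : V} (hP : Po P)
    (h : ∀ q, pair q p ∈ P → ∃ r, pair r q ∈ P ∧ FE P r σ τ) : FE P p σ τ := by
  rw [FE_iff]
  refine ⟨fun π s h1 q h2 h3 => ?_, fun π s h1 q h2 h3 => ?_⟩
  · obtain ⟨q', a, b⟩ := h q h2
    obtain ⟨r, ρ, t, c, d⟩ := (FE_iff.1 b).1 π s h1 q' (hP.left a) (hP.trans a h3)
    exact ⟨r, ρ, t, hP.trans c a, d⟩
  · obtain ⟨q', a, b⟩ := h q h2
    obtain ⟨r, ρ, t, c, d⟩ := (FE_iff.1 b).2 π s h1 q' (hP.left a) (hP.trans a h3)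
    exact ⟨r, ρ, t, hP.trans c a, d⟩

theorem FM.reg {P p σ τ : V} (hP : Po P)
    (h : ∀ q, pair q p ∈ P → ∃ r, pair r q ∈ P ∧ FM P r σ τ) : FM P p σ τ := by
  intro q hq
  obtain ⟨q', a, b⟩ := h q hq
  obtain ⟨r, ρ, t, c, d⟩ := b q' (hP.left a)
  exact ⟨r, ρ, t, hP.trans c a, d⟩

theorem FE.refl {P : V} (hP : Po P) (σ : V) : ∀ p, FE P p σ σ := by
  induction σ using name_wf.induction with
  | _ σ ih =>
    intro p
    rw [FE_iff]
    exact ⟨fun π s h1 q h2 h3 => ⟨q, π, s, hP.left h2, h1, h3, ih π (left_mem_sUnion h1) q⟩,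
      fun π s h1 q h2 h3 => ⟨q, π, s, hP.left h2, h1, h3, ih π (left_mem_sUnion h1) q⟩⟩

theorem FM.of_mem {P p σ s τ : V} (hP : Po P) (h : pair σ s ∈ τ) (hp : pair p s ∈ P) :
    FM P p σ τ := fun q hq => ⟨q, σ, s, hP.left hq, h, hP.trans hq hp, FE.refl hP _ _⟩

/-- A set of triples closed under the clauses of `FE`. -/
def FPost (P R : V) : Prop :=
  ∀ p σ τ, pair p (pair σ τ) ∈ R → FStep P (fun r π ρ => pair r (pair π ρ) ∈ R) p σ τ

theorem FPost.fe {P R : V} (h : FPost P R) (σ : V) :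
    ∀ p τ, pair p (pair σ τ) ∈ R → FE P p σ τ := by
  induction σ using name_wf.induction with
  | _ σ ih =>
    intro p τ hm
    rw [FE_iff]
    exact (h p σ τ hm).mono' fun r π s ρ t _ h1 _ H => ih π (left_mem_sUnion h1) r ρ H

section

variable {K : Set V → Prop} [hK : Cl K] {Γ : Type} [Countable Γ]

instance df_FPost (s t : Set V → (Γ → V) → V) [Tm K s] [Tm K t] :
    Df K fun W v => FPost (s W v) (t W v) := by
  unfold FPost FStep; dsimp only; infer_instance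

theorem FE.post {W : Set V} (hW : ZF W) {P : V} (hP : P ∈ W) (σ : V) :
    σ ∈ W → ∀ p ∈ W, ∀ τ ∈ W, FE P p σ τ → ∃ R ∈ W, FPost P R ∧ pair p (pair σ τ) ∈ R := by
  induction σ using name_wf.induction with
  | _ σ ih =>
    intro hσ p hp τ hτ h
    have ha : prod (⋃₀ ⋃₀ P) (prod (⋃₀ ⋃₀ σ) (⋃₀ ⋃₀ τ)) ∈ W :=
      tm3 (K := ZF) (t := fun _ P σ τ => prod (⋃₀ ⋃₀ P) (prod (⋃₀ ⋃₀ σ) (⋃₀ ⋃₀ τ))) hW hP hσ hτ
    obtain ⟨b, hb, hb'⟩ := Df.coll (K := ZF) (Γ := Unit) (fun W v z R => FPost (v ()) R ∧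
      ((∃ R' ∈ W, FPost (v ()) R' ∧ z ∈ R') → z ∈ R)) hW (v := fun _ => P) (fun _ => hP) ha
      fun z _ => by
        by_cases hz : ∃ R' ∈ W, FPost P R' ∧ z ∈ R'
        · obtain ⟨R, h1, h2, h3⟩ := hz
          exact ⟨R, h1, h2, fun _ => h3⟩
        · exact ⟨∅, hW.empty, fun _ _ _ h => absurd h (notMem_empty _), fun h => absurd h hz⟩
    have hU : (⋃₀ ZFSet.sep (FPost P) b : V) ∈ W :=
      tm2 (K := ZF) (t := fun _ P b => ⋃₀ ZFSet.sep (FPost P) b) hW hP hb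
    refine ⟨insert (pair p (pair σ τ)) (⋃₀ ZFSet.sep (FPost P) b),
      hW.insert (hW.opair hp (hW.opair hσ hτ)) hU, fun p' σ' τ' hm => ?_, mem_insert _ _⟩
    rcases mem_insert_iff.1 hm with e | hm
    · obtain ⟨e1, e2⟩ := pair_inj.1 e
      obtain ⟨e3, e4⟩ := pair_inj.1 e2
      rw [e1, e3, e4]
      refine (FE_iff.1 h).mono' fun r π s ρ t hr h1 h2 H => mem_insert_of_mem _ ?_
      have hr' : r ∈ (⋃₀ ⋃₀ P : V) := hr.elim left_mem_sUnion fun ⟨_, h⟩ => left_mem_sUnion h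
      have hπ := left_mem_sUnion h1
      have hρ := left_mem_sUnion h2
      obtain ⟨R, hR, h3, h4⟩ := hb' (pair r (pair π ρ)) (pair_mem_prod.2 ⟨hr', pair_mem_prod.2 ⟨hπ, hρ⟩⟩)
      refine mem_sUnion.2 ⟨R, mem_sep.2 ⟨hR, h3⟩, h4 (ih π hπ ?_ r ?_ ρ ?_ H)⟩
      · exact mem_of_pair_left hW.trans (hW.mem h1 hσ)
      · exact hW.mem hr' (hW.union _ (hW.union _ hP))
      · exact mem_of_pair_left hW.trans (hW.mem h2 hτ)
    · obtain ⟨R, hR, hm⟩ := mem_sUnion.1 hm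
      exact ((mem_sep.1 hR).2 _ _ _ hm).mono' fun r π s ρ t _ _ _ H =>
        mem_insert_of_mem _ (mem_sUnion.2 ⟨R, hR, H⟩)

instance df_FE (a b c d : Set V → (Γ → V) → V) [ha : Tm K a] [hb : Tm K b] [hc : Tm K c]
    [hd : Tm K d] : Df K fun W v => FE (a W v) (b W v) (c W v) (d W v) :=
  Df.of_iff (Q := fun W v => ∃ R ∈ W, FPost (a W v) R ∧ pair (b W v) (pair (c W v) (d W v)) ∈ R)
    fun W hW v hv => ⟨FE.post (hK.zf W hW) (ha.mem W hW v hv) _ (hc.mem W hW v hv) _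
      (hb.mem W hW v hv) _ (hd.mem W hW v hv), fun ⟨_, _, h, h'⟩ => h.fe _ _ _ h'⟩

instance df_FM (a b c d : Set V → (Γ → V) → V) [Tm K a] [Tm K b] [Tm K c] [Tm K d] :
    Df K fun W v => FM (a W v) (b W v) (c W v) (d W v) := by
  unfold FM; infer_instance

end

/-- The forcing relation over the class `K` of names. -/
def Frc (K : Set V) (P : V) : Fml → V → (ℕ → V) → Prop
  | .mem i j, p, v => FM P p (v i) (v j)
  | .eq i j, p, v => FE P p (v i) (v j)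
  | .pred _, p, _ => ∀ q, pair q p ∉ P
  | .neg φ, p, v => ∀ q, pair q p ∈ P → ¬ Frc K P φ q v
  | .and φ ψ, p, v => Frc K P φ p v ∧ Frc K P ψ p v
  | .ex φ, p, v => ∀ q, pair q p ∈ P → ∃ r, pair r q ∈ P ∧ ∃ σ ∈ K, Frc K P φ r (cons σ v)

theorem Frc.mono {K : Set V} {P : V} (hP : Po P) {φ : Fml} :
    ∀ {p q : V} {v : ℕ → V}, Frc K P φ p v → pair q p ∈ P → Frc K P φ q v := by
  induction φ with
  | mem i j => exact fun h hq => FM.mono hP h hq
  | eq i j => exact fun h hq => FE.mono hP h hq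
  | pred i => exact fun h hq r hr => h r (hP.trans hr hq)
  | neg φ _ => exact fun h hq r hr => h r (hP.trans hr hq)
  | and φ ψ ih ih' => exact fun h hq => ⟨ih h.1 hq, ih' h.2 hq⟩
  | ex φ _ => exact fun h hq r hr => h r (hP.trans hr hq)

theorem Frc.reg {K : Set V} {P : V} (hP : Po P) {φ : Fml} :
    ∀ {p : V} {v : ℕ → V}, (∀ q, pair q p ∈ P → ∃ r, pair r q ∈ P ∧ Frc K P φ r v) →
      Frc K P φ p v := by
  induction φ with
  | mem i j => exact fun h => FM.reg hP h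
  | eq i j => exact fun h => FE.reg hP h
  | pred i =>
    intro p v h q hq
    obtain ⟨r, a, b⟩ := h q hq
    exact b r (hP.left a)
  | neg φ _ =>
    intro p v h q hq hf
    obtain ⟨r, a, b⟩ := h q hq
    exact b r (hP.left a) (hf.mono hP a)
  | and φ ψ ih ih' =>
    exact fun h => ⟨ih fun q hq => (h q hq).imp fun _ a => ⟨a.1, a.2.1⟩,
      ih' fun q hq => (h q hq).imp fun _ a => ⟨a.1, a.2.2⟩⟩
  | ex φ _ =>
    intro p v h q hq
    obtain ⟨r, a, b⟩ := h q hq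
    obtain ⟨r', c, d⟩ := b r (hP.left a)
    exact ⟨r', hP.trans c a, d⟩

instance df_Frc {K : Set V → Prop} [Cl K] (φ : Fml) : ∀ {Γ : Type} [Countable Γ]
    (C : Set V → (Γ → V) → Set V) [Dc K C] (P p : Set V → (Γ → V) → V) [Tm K P] [Tm K p]
    (E : Set V → (Γ → V) → ℕ → V) [Env K E],
    Df K fun W v => Frc (C W v) (P W v) φ (p W v) (E W v) := by
  induction φ with
  | mem i j =>
    intro Γ _ C _ P p _ _ E h
    have := h.tm i; have := h.tm j
    exact df_FM P p (fun W v => E W v i) fun W v => E W v j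
  | eq i j =>
    intro Γ _ C _ P p _ _ E h
    have := h.tm i; have := h.tm j
    exact df_FE P p (fun W v => E W v i) fun W v => E W v j
  | pred i => intro Γ _ C _ P p _ _ E h; unfold Frc; infer_instance
  | neg φ ih =>
    intro Γ _ C _ P p _ _ E h
    unfold Frc
    have := ih (fun W (v : Option Γ → V) => C W fun i => v (some i))
      (fun W v => P W fun i => v (some i)) (fun _ v => v none) fun W v => E W fun i => v (some i)
    infer_instance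
  | and φ ψ ih ih' =>
    intro Γ _ C _ P p _ _ E h
    unfold Frc
    have := ih C P p E; have := ih' C P p E
    infer_instance
  | ex φ ih =>
    intro Γ _ C _ P p _ _ E h
    unfold Frc
    have := ih (fun W (v : Option (Option (Option Γ)) → V) => C W fun i => v (some (some (some i))))
      (fun W v => P W fun i => v (some (some (some i)))) (fun _ v => v (some none))
      fun W v => cons (v none) (E W fun i => v (some (some (some i))))
    infer_instance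

end Pool.Agent.Lib.MP_329f2d_lc
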