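import Pool.Agent.Lib.MP_329f2d_lc.H38G1
import Pool.Agent.Lib.MP_329f2d_lc.H58Nat

/-!
Canonical names, generic filters and the truth lemma.
-/

open ZFSet

set_option synthInstance.maxSize 4000

namespace Pool.Agent.Lib.MP_329f2d_lc

/-- The name of an unordered pair. -/
noncomputable def upn (P σ τ : V) : V := prod {σ, τ} (⋃₀ ⋃₀ P)

/-- The name of an ordered pair. -/
noncomputable def opn (P σ τ : V) : V := upn P (upn P σ σ) (upn P σ τ)

/-- The canonical name of a set. -/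
noncomputable def chk (P : V) : V → V :=
  mem_wf.fix fun x ih => prod (range fun y : x => ih y.1 y.2) (⋃₀ ⋃₀ P)

/-- The canonical name of the generic filter. -/
noncomputable def nmG (P : V) : V := img (fun p => pair (chk P p) p) (⋃₀ ⋃₀ P)

theorem chk_eq (P x : V) : chk P x = prod (img (chk P) x) (⋃₀ ⋃₀ P) := by
  rw [chk, WellFounded.fix_eq]; rfl

section
variable {K : Set V → Prop} [Cl K] {Γ : Type} [Countable Γ]

instance tm_upn (r s t : Set V → (Γ → V) → V) [Tm K r] [Tm K s] [Tm K t] :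
    Tm K fun W v => upn (r W v) (s W v) (t W v) := by
  unfold upn; infer_instance

instance tm_opn (r s t : Set V → (Γ → V) → V) [Tm K r] [Tm K s] [Tm K t] :
    Tm K fun W v => opn (r W v) (s W v) (t W v) := by
  unfold opn; infer_instance

instance tm_chk (s t : Set V → (Γ → V) → V) [Tm K s] [Tm K t] :
    Tm K fun W v => chk (s W v) (t W v) :=
  Tm.app2 (F := fun _ P x => chk P x)
    (Tm.recur (K := K) (Γ := Unit) (fun _ v x => chk (v ()) x) (fun _ _ x => x)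
      (fun _ v _ g => prod (ran g) (⋃₀ ⋃₀ v ()))
      (fun _ _ _ _ => Subrelation.wf (fun h => h.2) mem_wf)
      fun _ _ v _ x _ => by rw [ran_graph, ← chk_eq]) s t

instance tm_nmG (s : Set V → (Γ → V) → V) [Tm K s] : Tm K fun W v => nmG (s W v) := by
  unfold nmG; infer_instance

end

theorem Filt.exists_mem {P G : V} (hG : Filt P G) : ∃ p ∈ G, p ∈ (⋃₀ ⋃₀ P : V) := by
  obtain ⟨p, hp⟩ := (eq_empty_or_nonempty G).resolve_left hG.1
  exact ⟨p, hp, left_mem_sUnion (hG.2.1 p hp)⟩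

theorem val_prod {P G : V} (hG : Filt P G) (a : V) :
    val G (prod a (⋃₀ ⋃₀ P)) = img (val G) a := by
  obtain ⟨p, hp, hp'⟩ := hG.exists_mem
  ext x
  rw [mem_val, mem_img]
  exact ⟨fun ⟨σ, q, _, h, e⟩ => ⟨σ, (pair_mem_prod.1 h).1, e.symm⟩,
    fun ⟨σ, h, e⟩ => ⟨σ, p, hp, pair_mem_prod.2 ⟨h, hp'⟩, e.symm⟩⟩

theorem val_upn {P G : V} (hG : Filt P G) (σ τ : V) :
    val G (upn P σ τ) = {val G σ, val G τ} := by
  rw [upn, val_prod hG]
  ext x
  simp [eq_comm]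

theorem val_opn {P G : V} (hG : Filt P G) (σ τ : V) :
    val G (opn P σ τ) = pair (val G σ) (val G τ) := by
  rw [opn, val_upn hG, val_upn hG, val_upn hG]
  simp [pair]

theorem val_chk {P G : V} (hG : Filt P G) (x : V) : val G (chk P x) = x := by
  induction x using mem_wf.induction with
  | _ x ih =>
    rw [chk_eq, val_prod hG]
    ext y
    simp only [mem_img]
    constructor
    · rintro ⟨_, ⟨z, hz, rfl⟩, rfl⟩
      rwa [ih z hz]
    · exact fun hy => ⟨_, ⟨y, hy, rfl⟩, ih y hy⟩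

theorem val_nmG {P G : V} (hG : Filt P G) : val G (nmG P) = G := by
  ext x
  rw [mem_val]
  constructor
  · rintro ⟨σ, p, hp, h, rfl⟩
    obtain ⟨q, -, e⟩ := mem_img.1 h
    obtain ⟨rfl, rfl⟩ := pair_inj.1 e
    rwa [val_chk hG]
  · intro hx
    exact ⟨chk P x, x, hx, mem_img.2 ⟨x, left_mem_sUnion (hG.2.1 x hx), rfl⟩, (val_chk hG x).symm⟩

theorem exists_generic {K : Set V} (hK : K.Countable) {P p : V} (hP : Po P) (hp : pair p p ∈ P) :
    ∃ G, Generic K P G ∧ p ∈ G := by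
  obtain ⟨e, he⟩ : ∃ e : ℕ → V, ∀ D ∈ K, ∃ n, e n = D := by
    obtain ⟨e, he⟩ := (hK.insert ∅).exists_eq_range (Set.insert_nonempty _ _)
    exact ⟨e, fun D hD => (he ▸ Set.mem_insert_of_mem _ hD : D ∈ Set.range e)⟩
  have step : ∀ (n : ℕ) (q : V), ∃ r, pair q q ∈ P → pair r q ∈ P ∧ (Dense P (e n) → r ∈ e n) := by
    intro n q
    by_cases hq : pair q q ∈ P
    · by_cases hd : Dense P (e n)
      · obtain ⟨r, h1, h2⟩ := hd.2 q hq
        exact ⟨r, fun _ => ⟨h2, fun _ => h1⟩⟩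
      · exact ⟨q, fun h => ⟨h, fun h' => absurd h' hd⟩⟩
    · exact ⟨q, fun h => absurd h hq⟩
  choose f hf using step
  let s : ℕ → V := fun n => Nat.rec p (fun n q => f n q) n
  have h1 : ∀ n, pair (s n) (s n) ∈ P := by
    intro n
    induction n with
    | zero => exact hp
    | succ n ih => exact hP.left (hf n _ ih).1
  have h2 : ∀ m n, m ≤ n → pair (s n) (s m) ∈ P := by
    intro m n h
    induction h with
    | refl => exact h1 m
    | step _ ih => exact hP.trans (hf _ _ (h1 _)).1 ih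
  have hm : ∀ q, q ∈ ZFSet.sep (fun q => ∃ n, pair (s n) q ∈ P) (⋃₀ ⋃₀ P) ↔
      ∃ n, pair (s n) q ∈ P := fun q =>
    mem_sep.trans ⟨fun h => h.2, fun ⟨n, h⟩ => ⟨right_mem_sUnion h, n, h⟩⟩
  refine ⟨ZFSet.sep (fun q => ∃ n, pair (s n) q ∈ P) (⋃₀ ⋃₀ P), ⟨⟨fun h => ?_, fun q hq => ?_,
    fun q hq r hr => ?_, fun q hq r hr => ?_⟩, fun D hD hd => ?_⟩, (hm p).2 ⟨0, hp⟩⟩
  · exact notMem_empty p (h ▸ (hm p).2 ⟨0, hp⟩)
  · obtain ⟨n, hn⟩ := (hm q).1 hq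
    exact hP.right hn
  · obtain ⟨n, hn⟩ := (hm q).1 hq
    exact (hm r).2 ⟨n, hP.trans hn hr⟩
  · obtain ⟨n, hn⟩ := (hm q).1 hq
    obtain ⟨m, hm'⟩ := (hm r).1 hr
    exact ⟨s (max n m), (hm _).2 ⟨_, h1 _⟩, hP.trans (h2 _ _ (le_max_left _ _)) hn,
      hP.trans (h2 _ _ (le_max_right _ _)) hm'⟩
  · obtain ⟨n, rfl⟩ := he D hD
    exact ⟨s (n + 1), (hm _).2 ⟨n + 1, h1 (n + 1)⟩, (hf n _ (h1 n)).2 hd⟩

theorem Filt.meet {P G p q : V} (hG : Filt P G) (hp : p ∈ G) (hq : q ∈ G) :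
    ∃ r ∈ G, pair r p ∈ P ∧ pair r q ∈ P := hG.2.2.2 p hp q hq

theorem Filt.up {P G p q : V} (hG : Filt P G) (hp : p ∈ G) (h : pair p q ∈ P) : q ∈ G :=
  hG.2.2.1 p hp q h

theorem Filt.cond {P G p : V} (hG : Filt P G) (hp : p ∈ G) : pair p p ∈ P := hG.2.1 p hp

theorem ZFm.fld {K A : Set V} (hK : ZFm K A) {P : V} (hP : P ∈ K) : (⋃₀ ⋃₀ P : V) ∈ K :=
  hK.union _ (hK.union _ hP)

theorem ZFm.left {K A : Set V} (hK : ZFm K A) {R x y : V} (hR : R ∈ K)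
    (h : ZFSet.pair x y ∈ R) :
    x ∈ K := mem_of_pair_left hK.trans (hK.mem h hR)

theorem ZFm.right {K A : Set V} (hK : ZFm K A) {R x y : V} (hR : R ∈ K)
    (h : ZFSet.pair x y ∈ R) :
    y ∈ K := mem_of_pair_right hK.trans (hK.mem h hR)

theorem Generic.mono {K K' : Set V} {P G : V} (hG : Generic K P G) (h : K' ⊆ K) :
    Generic K' P G := ⟨hG.1, fun D hD => hG.2 D (h hD)⟩

section

variable {K : Set V} {P G : V} (hK : ZFm K ∅) (hP : P ∈ K) (hPo : Po P) (hG : Generic K P G)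
include hK hP hG

theorem Generic.mem {p : V} (hp : p ∈ G) : p ∈ K := hK.left hP (hG.1.cond hp)

include hPo

theorem Generic.meet {S : V → Prop} (hS : Cls K S) {p : V} (hp : p ∈ G)
    (hd : ∀ q, pair q p ∈ P → ∃ r, pair r q ∈ P ∧ S r) : ∃ r ∈ G, pair r p ∈ P ∧ S r := by
  have h1 := hS.sep hK (hK.fld hP)
  have h2 := (cls3 (K := ZF) (S := fun _ P s p r => pair r r ∈ P ∧ ((r ∈ s ∧ pair r p ∈ P) ∨
    ∀ q, pair q r ∈ P → pair q p ∉ P)) hK hP h1 (Generic.mem hK hP hG hp)).sep hK (hK.fld hP)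
  obtain ⟨r, hr, h3⟩ := hG.2 _ h2 ⟨fun r hr => (mem_sep.1 hr).2.1, fun q hq => by
    by_cases hc : ∃ q', pair q' q ∈ P ∧ pair q' p ∈ P
    · obtain ⟨q', a, b⟩ := hc
      obtain ⟨r, c, d⟩ := hd q' b
      exact ⟨r, mem_sep.2 ⟨left_mem_sUnion c, hPo.left c,
        .inl ⟨mem_sep.2 ⟨left_mem_sUnion c, d⟩, hPo.trans c b⟩⟩, hPo.trans c a⟩
    · exact ⟨q, mem_sep.2 ⟨left_mem_sUnion hq, hq, .inr fun q' a b => hc ⟨q', a, b⟩⟩, hq⟩⟩
  rcases (mem_sep.1 h3).2.2 with h4 | h4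
  · exact ⟨r, hr, h4.2, (mem_sep.1 h4.1).2⟩
  · obtain ⟨q, -, a, b⟩ := hG.1.meet hr hp
    exact absurd b (h4 q a)

theorem Generic.meet' {S : V → Prop} (hS : Cls K S)
    (hd : ∀ q, pair q q ∈ P → ∃ r, pair r q ∈ P ∧ S r) : ∃ r ∈ G, S r := by
  obtain ⟨p, hp, -⟩ := hG.1.exists_mem
  obtain ⟨r, h1, -, h2⟩ := Generic.meet hK hP hPo hG hS hp fun q hq => hd q (hPo.left hq)
  exact ⟨r, h1, h2⟩

theorem val_eq_iff {σ τ : V} (hσ : σ ∈ K) (hτ : τ ∈ K) :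
    val G σ = val G τ ↔ ∃ p ∈ G, FE P p σ τ := by
  induction σ using name_wf.induction generalizing τ with
  | _ σ ih =>
    have ih' : ∀ {π s ρ t}, pair π s ∈ σ → pair ρ t ∈ τ →
        (val G π = val G ρ ↔ ∃ p ∈ G, FE P p π ρ) := fun h1 h2 =>
      ih _ (left_mem_sUnion h1) (hK.left hσ h1) (hK.left hτ h2)
    constructor
    · intro e
      obtain ⟨p, hp, h⟩ := Generic.meet' hK hP hPo hG (cls3 (K := ZF) (S := fun _ P σ τ p =>
        FE P p σ τ ∨ (∃ π s, pair π s ∈ σ ∧ pair p s ∈ P ∧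
          ∀ r ρ t, pair r p ∈ P → pair ρ t ∈ τ → pair r t ∈ P → ¬ FE P r π ρ) ∨
        (∃ ρ t, pair ρ t ∈ τ ∧ pair p t ∈ P ∧
          ∀ r π s, pair r p ∈ P → pair π s ∈ σ → pair r s ∈ P → ¬ FE P r π ρ)) hK hP hσ hτ)
        fun q hq => by
          by_cases hf : FE P q σ τ
          · exact ⟨q, hq, .inl hf⟩
          · rw [FE_iff, FStep, not_and_or] at hf
            rcases hf with hf | hf
            · push Not at hf
              obtain ⟨π, s, a, r, b, c, d⟩ := hf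
              exact ⟨r, b, .inr (.inl ⟨π, s, a, c, d⟩)⟩
            · push Not at hf
              obtain ⟨π, s, a, r, b, c, d⟩ := hf
              exact ⟨r, b, .inr (.inr ⟨π, s, a, c, d⟩)⟩
      rcases h with h | ⟨π, s, a, b, c⟩ | ⟨ρ, t, a, b, c⟩
      · exact ⟨p, hp, h⟩
      · obtain ⟨ρ, t, ht, d, e'⟩ := (mem_val _ _ _).1
          (e ▸ (mem_val G σ _).2 ⟨π, s, hG.1.up hp b, a, rfl⟩)
        obtain ⟨q, hq, hf⟩ := (ih' a d).1 e'
        obtain ⟨r, hr, h1, h2⟩ := hG.1.meet hp hq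
        obtain ⟨r', -, h3, h4⟩ := hG.1.meet hr ht
        exact absurd (hf.mono hPo (hPo.trans h3 h2)) (c r' ρ t (hPo.trans h3 h1) d h4)
      · obtain ⟨π, s, ht, d, e'⟩ := (mem_val _ _ _).1
          (e ▸ (mem_val G τ _).2 ⟨ρ, t, hG.1.up hp b, a, rfl⟩)
        obtain ⟨q, hq, hf⟩ := (ih' d a).1 e'.symm
        obtain ⟨r, hr, h1, h2⟩ := hG.1.meet hp hq
        obtain ⟨r', -, h3, h4⟩ := hG.1.meet hr ht
        exact absurd (hf.mono hPo (hPo.trans h3 h2)) (c r' π s (hPo.trans h3 h1) d h4)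
    · rintro ⟨p, hp, h⟩
      rw [FE_iff] at h
      ext x
      rw [mem_val, mem_val]
      constructor
      · rintro ⟨π, s, hs, a, rfl⟩
        obtain ⟨q, hq, h1, h2⟩ := hG.1.meet hp hs
        obtain ⟨r, hr, -, ρ, t, b, c, d⟩ := Generic.meet hK hP hPo hG (cls3 (K := ZF)
          (S := fun _ P π τ r => ∃ ρ t, pair ρ t ∈ τ ∧ pair r t ∈ P ∧ FE P r π ρ) hK hP
          (hK.left hσ a) hτ) hq fun q' hq' => by
            obtain ⟨r, ρ, t, h3, h4⟩ := h.1 π s a q' (hPo.trans hq' h1) (hPo.trans hq' h2)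
            exact ⟨r, h3, ρ, t, h4⟩
        exact ⟨ρ, t, hG.1.up hr c, b, (ih' a b).2 ⟨r, hr, d⟩⟩
      · rintro ⟨ρ, t, hs, a, rfl⟩
        obtain ⟨q, hq, h1, h2⟩ := hG.1.meet hp hs
        obtain ⟨r, hr, -, π, s, b, c, d⟩ := Generic.meet hK hP hPo hG (cls3 (K := ZF)
          (S := fun _ P ρ σ r => ∃ π s, pair π s ∈ σ ∧ pair r s ∈ P ∧ FE P r π ρ) hK hP
          (hK.left hτ a) hσ) hq fun q' hq' => by
            obtain ⟨r, π, s, h3, h4⟩ := h.2 ρ t a q' (hPo.trans hq' h1) (hPo.trans hq' h2)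
            exact ⟨r, h3, π, s, h4⟩
        exact ⟨π, s, hG.1.up hr c, b, ((ih' b a).2 ⟨r, hr, d⟩).symm⟩

theorem val_mem_iff {σ τ : V} (hσ : σ ∈ K) (hτ : τ ∈ K) :
    val G σ ∈ val G τ ↔ ∃ p ∈ G, FM P p σ τ := by
  constructor
  · intro h
    obtain ⟨ρ, t, ht, a, e⟩ := (mem_val _ _ _).1 h
    obtain ⟨q, hq, hf⟩ := (val_eq_iff hK hP hPo hG hσ (hK.left hτ a)).1 e
    obtain ⟨r, hr, h1, h2⟩ := hG.1.meet hq ht
    exact ⟨r, hr, fun r' h3 => ⟨r', ρ, t, hPo.left h3, a, hPo.trans h3 h2,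
      hf.mono hPo (hPo.trans h3 h1)⟩⟩
  · rintro ⟨p, hp, h⟩
    obtain ⟨r, hr, -, ρ, t, b, c, d⟩ := Generic.meet hK hP hPo hG (cls3 (K := ZF)
      (S := fun _ P σ τ r => ∃ ρ t, pair ρ t ∈ τ ∧ pair r t ∈ P ∧ FE P r σ ρ) hK hP hσ hτ) hp
      fun q hq => by
        obtain ⟨r, ρ, t, h3, h4⟩ := h q hq
        exact ⟨r, h3, ρ, t, h4⟩
    exact (mem_val _ _ _).2 ⟨ρ, t, hG.1.up hr c, b,
      (val_eq_iff hK hP hPo hG hσ (hK.left hτ b)).2 ⟨r, hr, d⟩⟩

omit hPo hG in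
theorem cls_Frc (φ : Fml) {v : ℕ → V} (hv : ∀ i, v i ∈ K) : Cls K fun p => Frc K P φ p v :=
  Df.cls (K := ZF) (Γ := Option ℕ) (fun W v p => Frc W (v none) φ p fun i => v (some i)) hK
    hK.empty (v := fun o => o.elim P v) (by rintro (_ | i); exacts [hP, hv i])

omit hK hP hPo hG in
theorem val_cons (σ : V) (v : ℕ → V) :
    (fun i => val G (cons σ v i)) = cons (val G σ) fun i => val G (v i) := by
  funext i; cases i <;> rfl

/-- The truth lemma. -/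
theorem truth (φ : Fml) : ∀ {v : ℕ → V}, (∀ i, v i ∈ K) →
    (Sat (Ext K G) ∅ φ (fun i => val G (v i)) ↔ ∃ p ∈ G, Frc K P φ p v) := by
  induction φ with
  | mem i j => exact fun hv => val_mem_iff hK hP hPo hG (hv i) (hv j)
  | eq i j => exact fun hv => val_eq_iff hK hP hPo hG (hv i) (hv j)
  | pred i => exact fun _ => ⟨fun h => h.elim, fun ⟨p, hp, h⟩ => h p (hG.1.cond hp)⟩
  | neg φ ih =>
    intro v hv
    rw [Sat, ih hv]
    constructor
    · intro h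
      obtain ⟨p, hp, h'⟩ := Generic.meet' hK hP hPo hG (Df.cls (K := ZF) (Γ := Option ℕ)
        (fun W v p => Frc W (v none) φ p (fun i => v (some i)) ∨
          Frc W (v none) (.neg φ) p fun i => v (some i)) hK
        hK.empty (v := fun o => o.elim P v) (by rintro (_ | i); exacts [hP, hv i])) fun q hq => by
          by_cases hf : Frc K P (.neg φ) q v
          · exact ⟨q, hq, .inr hf⟩
          · simp only [Frc] at hf
            push Not at hf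
            exact hf.imp fun r hr => ⟨hr.1, .inl hr.2⟩
      exact ⟨p, hp, h'.resolve_left fun h'' => h ⟨p, hp, h''⟩⟩
    · rintro ⟨p, hp, h⟩ ⟨q, hq, h'⟩
      obtain ⟨r, -, a, b⟩ := hG.1.meet hp hq
      exact h r a (h'.mono hPo b)
  | and φ ψ ih ih' =>
    intro v hv
    rw [Sat, ih hv, ih' hv]
    constructor
    · rintro ⟨⟨p, hp, h⟩, q, hq, h'⟩
      obtain ⟨r, hr, a, b⟩ := hG.1.meet hp hq
      exact ⟨r, hr, h.mono hPo a, h'.mono hPo b⟩
    · exact fun ⟨p, hp, h⟩ => ⟨⟨p, hp, h.1⟩, p, hp, h.2⟩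
  | ex φ ih =>
    intro v hv
    rw [Sat]
    constructor
    · rintro ⟨_, ⟨σ, hσ, rfl⟩, h⟩
      rw [← val_cons, ih (cons_mem hσ hv)] at h
      obtain ⟨p, hp, h⟩ := h
      exact ⟨p, hp, fun q hq => ⟨q, hPo.left hq, σ, hσ, h.mono hPo hq⟩⟩
    · rintro ⟨p, hp, h⟩
      obtain ⟨r, hr, -, σ, hσ, h'⟩ := Generic.meet hK hP hPo hG (Df.cls (K := ZF) (Γ := Option ℕ)
        (fun W v p => ∃ σ ∈ W, Frc W (v none) φ p (cons σ fun i => v (some i))) hK
        hK.empty (v := fun o => o.elim P v) (by rintro (_ | i); exacts [hP, hv i])) hp h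
      refine ⟨_, ⟨σ, hσ, rfl⟩, ?_⟩
      rw [← val_cons, ih (cons_mem hσ hv)]
      exact ⟨r, hr, h'⟩

end

theorem frc_of_sem {K : Set V} (hc : K.Countable) (hK : ZFm K ∅) {P p : V} (hP : P ∈ K)
    (hPo : Po P) {φ : Fml} {v : ℕ → V} (hv : ∀ i, v i ∈ K)
    (h : ∀ G, Generic K P G → p ∈ G → Sat (Ext K G) ∅ φ fun i => val G (v i)) :
    Frc K P φ p v := by
  refine Frc.reg hPo fun q hq => ?_
  obtain ⟨G, hG, hq'⟩ := exists_generic hc hPo (hPo.left hq)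
  obtain ⟨r, hr, hf⟩ := (truth hK hP hPo hG φ hv).1 (h G hG (hG.1.up hq' hq))
  obtain ⟨r', -, a, b⟩ := hG.1.meet hq' hr
  exact ⟨r', a, hf.mono hPo b⟩

theorem fm_of_sem {K : Set V} (hc : K.Countable) (hK : ZFm K ∅) {P p σ τ : V} (hP : P ∈ K)
    (hPo : Po P) (hσ : σ ∈ K) (hτ : τ ∈ K)
    (h : ∀ G, Generic K P G → p ∈ G → val G σ ∈ val G τ) : FM P p σ τ :=
  frc_of_sem hc hK hP hPo (φ := .mem 0 1) (v := cons σ fun _ => τ) (cons_mem hσ fun _ => hτ) h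

theorem fe_of_sem {K : Set V} (hc : K.Countable) (hK : ZFm K ∅) {P p σ τ : V} (hP : P ∈ K)
    (hPo : Po P) (hσ : σ ∈ K) (hτ : τ ∈ K)
    (h : ∀ G, Generic K P G → p ∈ G → val G σ = val G τ) : FE P p σ τ :=
  frc_of_sem hc hK hP hPo (φ := .eq 0 1) (v := cons σ fun _ => τ) (cons_mem hσ fun _ => hτ) h

end Pool.Agent.Lib.MP_329f2d_lc
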