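import Pool.Agent.Lib.MP_329f2d_lc.H42Den
import Pool.Agent.Lib.MP_329f2d_lc.H35N
import Pool.Agent.Lib.MP_329f2d_lc.H42Card
import Pool.Agent.Lib.MP_329f2d_lc.H58Set
import Pool.Agent.Lib.MP_329f2d_lc.H35E
import Pool.Agent.Lib.MP_329f2d_lc.H55Mod

/-!
SCFA holds in the generic extension.
-/

open ZFSet

set_option synthInstance.maxSize 100000

namespace Pool.Agent.Lib.MP_329f2d_lc

theorem Full.mono {W W' : Set V} {N : V} (h : Full W N) (hW : W ⊆ W') : Full W' N :=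
  ⟨h.1, h.2.imp fun _ a => ⟨hW a.1, a.2⟩⟩

theorem Ctbl.mono {W W' : Set V} {x : V} (h : Ctbl W x) (hW : W ⊆ W') : Ctbl W' x :=
  h.imp_right fun ⟨f, a, b⟩ => ⟨f, hW a, b⟩

theorem Emb.unpair {M N : Set V} {m : V → V → Prop} (h : Emb M N m) (hM : ZFm M ∅) (hN : ZFm N ∅)
    {a b a' b' : V} (h1 : m (pair a b) (pair a' b')) : m a a' ∧ m b b' :=
  ⟨by simpa using emb1 (K := ZF) (fun _ x => fst x) h hM hN h1,
    by simpa using emb1 (K := ZF) (fun _ x => snd x) h hM hN h1⟩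

theorem Emb.opair {M N : Set V} {m : V → V → Prop} (h : Emb M N m) (hM : ZFm M ∅) (hN : ZFm N ∅)
    {a b a' b' : V} (h1 : m a a') (h2 : m b b') : m (pair a b) (pair a' b') :=
  emb2 (K := ZF) (fun _ x y => pair x y) h hM hN h1 h2

/-- Jensen's condition in the extension yields every instance of the relative condition whose
condition lies in the generic filter. -/
theorem relSub_inst {K : Set V} (hK : ZFm K ∅) (hc : K.Countable)
    {w P G b Q T θ Z h N A M P' E' H' H c R u' A' s' s : V} (hP : P ∈ K) (hG : Generic K P G)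
    (hw : w ∈ K) (hQ : Q ∈ K) (hT : T ∈ K) (ok : TwoOK P b Q T)
    (hsub : SubAt (Ext K G) (val G Q) θ) (hZ : ∀ x, InH (Ext K G) θ x → x ∈ val G Z) (hZh : Z ∈ h)
    (hN : N ∈ K) (hhN : h ⊆ N) (hA : LA N A) (hM : M ∈ K) (hMc : Ctbl K M) (hMz : ZFCm M ∅)
    (hP' : P' ∈ M) (hH' : H' ∈ K) (hH : H ∈ K) (gen : Generic M E' H') (proj : Proj P' H' H)
    (full : Full w (ExtV M H)) (hc0 : ∃ s₀, pair (pair c s₀) (pair c s₀) ∈ Two P b Q T)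
    (hcG : c ∈ G) (hR : R ∈ K) (nm : Nm P c (In3 R) M N H) (r1 : In3 R c P' P)
    (r2 : In3 R c E' (Two P b Q T)) (r3 : In3 R c u' (pair b (pair Q (pair T θ))))
    (r4 : In3 R c A' A) (r5 : In3 R c s' s) :
    ∃ p t, pair (pair p t) (pair p t) ∈ Two P b Q T ∧ pair p c ∈ P ∧ ∃ R' ∈ K,
      (∀ z ∈ R', ∃ r x y, z = pair r (pair x y)) ∧ Nm (Two P b Q T) (pair p t) (In3 R') M N H' ∧
      In3 R' (pair p t) s' s := by
  have hPo := ok.1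
  have hW := ext_zfm hK hP hPo hG
  have hKW := subset_ext hK hP hPo hG
  have hGW := self_mem_ext hK hP hPo hG
  obtain ⟨hm, hmG⟩ := Nm.emb hK hP hPo hG hcG hR hM hN nm
  set m : V → V → Prop := fun x y => ∃ r ∈ G, In3 R r x y with hmd
  have zM := hMz.1
  have zN := hA.1.1
  have mP : m P' P := ⟨c, hcG, r1⟩
  have mE : m E' (Two P b Q T) := ⟨c, hcG, r2⟩
  have mu : m u' (pair b (pair Q (pair T θ))) := ⟨c, hcG, r3⟩
  have mA : m A' A := ⟨c, hcG, r4⟩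
  have ms : m s' s := ⟨c, hcG, r5⟩
  have mb : m (fst u') b := by simpa using emb1 (K := ZF) (fun _ x => fst x) hm zM zN mu
  have mQ : m (fst (snd u')) Q := by
    simpa using emb1 (K := ZF) (fun _ x => fst (snd x)) hm zM zN mu
  have mT : m (fst (snd (snd u'))) T := by
    simpa using emb1 (K := ZF) (fun _ x => fst (snd (snd x))) hm zM zN mu
  have mθ : m (snd (snd (snd u'))) θ := by
    simpa using emb1 (K := ZF) (fun _ x => snd (snd (snd x))) hm zM zN mu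
  generalize fst u' = b' at mb
  generalize fst (snd u') = Q' at mQ
  generalize fst (snd (snd u')) = T' at mT
  generalize snd (snd (snd u')) = θ' at mθ
  obtain rfl : E' = Two P' b' Q' T' :=
    (hm.pe.uniq mE (emb4 (K := ZF) (fun _ a b c d => Two a b c d) hm zM zN mP mb mQ mT)).2 rfl
  have ok' : TwoOK P' b' Q' T' :=
    (pe4 (K := ZF) (fun _ a b c d => TwoOK a b c d) hm.pe zM zN hm.dom mP mb mQ mT).2 ok
  obtain ⟨-, genJ', hJ'⟩ := TwoOK.quo zM hP' (hm.dom _ _ mQ).1 (hm.dom _ _ mT).1 ok' gen proj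
  have genH : Generic M P' H := ok'.2.2.1.generic_proj zM hP' (hm.dom _ _ mE).1 ok'.1 gen proj
  have genN : Generic N P G := hG.mono fun y hy => hK.mem hy hN
  have PN := (hm.dom _ _ mP).2
  have hl := lift_emb zN PN hPo genN zM ok'.1 genH hm mP hmG
  set l : V → V → Prop := fun x y => ∃ σ τ, m σ τ ∧ x = val H σ ∧ y = val G τ with hld
  have lm : ∀ x y, m x y → l x y := fun x y a =>
    ⟨_, _, emb2 (K := ZF) (fun _ a b => chk a b) hm zM zN mP a, (val_chk genH.1 x).symm,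
      (val_chk hG.1 y).symm⟩
  have lG : l H G := ⟨_, _, emb1 (K := ZF) (fun _ a => nmG a) hm zM zN mP, (val_nmG genH.1).symm,
    (val_nmG hG.1).symm⟩
  have laM : LA M A' := (la_transfer hm.pe hMz hA.1 hm.dom mA).2 hA
  obtain ⟨B', hB'⟩ := laM.ext hP' ok'.1 genH
  obtain ⟨B, lB⟩ := hl.total B' hB'.2.1
  have zN1 := ext_zfcm zN PN hPo genN hA.1
  have hB : LA (Ext N G) B := (la_transfer hl.pe hB'.1 zN1 hl.dom lB).1 hB'
  have o1 := ext_ord zM hP' ok'.1 genH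
  have o2 := ext_ord zN PN hPo genN
  have s1 := subset_ext zM hP' ok'.1 genH
  have s2 := subset_ext zN PN hPo genN
  rw [← coe_ExtV] at hl hB' hB zN1 o1 o2 s1 s2 genJ'
  rw [← coe_ExtV] at hl
  have hM1 : ExtV M H ∈ Ext K G := tm2 (K := ZF) (t := fun _ a b => ExtV a b) hW (hKW hM) (hKW hH)
  have hN1 : ExtV N G ∈ Ext K G := tm2 (K := ZF) (t := fun _ a b => ExtV a b) hW (hKW hN) hGW
  obtain ⟨τ, hτW, hτo, hτ⟩ := exists_ords hW hN1 fun x hx y hy => zN1.1.trans x hx y hy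
  have hσ := (cls5 (K := ZF) (S := fun _ M N R G H z => ∃ σ ∈ M, ∃ τ ∈ N,
    (∃ r ∈ G, In3 R r σ τ) ∧ fst z = val H σ ∧ snd z = val G τ) hW (hKW hM) (hKW hN) (hKW hR) hGW
    (hKW hH)).sep hW (tm2 (K := ZF) (t := fun _ a b => prod a b) hW hM1 hN1)
  set σ := ZFSet.sep _ (prod (ExtV M H) (ExtV N G)) with hσd
  have hσl : ∀ x y, pair x y ∈ σ ↔ l x y := by
    intro x y
    simp only [hσd, mem_sep, pair_mem_prod, fst_pair, snd_pair]
    exact ⟨fun ⟨_, a, _, b, _, c⟩ => ⟨a, b, c⟩, fun h' => ⟨hl.dom _ _ h', by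
      obtain ⟨a, b, c⟩ := h'
      exact ⟨a, (hm.dom _ _ c.1).1, b, (hm.dom _ _ c.1).2, c⟩⟩⟩
  have hel : Elem σ (ExtV M H) B' (ExtV N G) B := by
    refine elem_of_emb ?_ (fun z hz => ?_) ((hσl _ _).2 lB)
    · simpa only [hσl] using hl
    · obtain ⟨x, -, y, -, e⟩ := mem_prod.1 (mem_sep.1 hz).1
      exact ⟨x, y, e⟩
  have z1 := hB'.1.1
  have z2 := zN1.1
  obtain ⟨q, hq, hq'⟩ := hsub B (hW.mem hB.2.1 hN1) τ hτW _ hτo (hB.eq_Lh hτ) hB.2.1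
    (zfcm_pred zN1 hB.2.1) (fun x hx => z2.mem (hZ x hx) (mem_ExtV.2 ⟨Z, hhN hZh, rfl⟩))
    _ hM1 B' (hW.mem hB'.2.1 hM1) σ hσ (Ctbl.extV hW (hKW hM) (hKW hH) (hMc.mono hKW))
    (full.mono fun x hx => hKW (hK.mem hx hw)) hel θ' (val H Q')
    (pair A' (pair H (pair s' (Two P' b' Q' T')))) (pair A (pair G (pair s (Two P b Q T))))
    ((hσl _ _).2 (lm _ _ mθ)) ((hσl _ _).2 ⟨_, _, mQ, rfl, rfl⟩)
    ((hσl _ _).2 (hl.opair z1 z2 (lm _ _ mA) (hl.opair z1 z2 lG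
      (hl.opair z1 z2 (lm _ _ ms) (lm _ _ mE))))) _
    (tm3 (K := ZF) (t := fun _ Q H H' => Quo (val H Q) H H') hW
      (hKW (hK.mem (hm.dom _ _ mQ).1 hM)) (hKW hH) (hKW hH')) genJ'
  obtain ⟨s₀, hs₀⟩ := hc0
  have hbG : b ∈ G := hG.1.up hcG ((mem_Two hPo).1 hs₀).2.2.2.1
  have hQo : Po (val G Q) := H42.po_val hK hP hQ hT ok hG hbG (H42.ne_of_mem hq)
  obtain ⟨J, genJ, hqJ⟩ := exists_generic (K := Ext K G) (hc.image _) hQo hq
  obtain ⟨σ', hσ', el', -, -, hpar, hJ, -⟩ := hq' J genJ hqJ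
  obtain ⟨genS, hS1, hS2⟩ := TwoOK.star hK hP hQ hT ok hG hbG genJ
  have e' := el'.emb
  obtain ⟨a1, a⟩ := e'.unpair z1 z2 hpar
  obtain ⟨a2, a⟩ := e'.unpair z1 z2 a
  obtain ⟨a3, a4⟩ := e'.unpair z1 z2 a
  obtain ⟨p₁, t₁, b1, b2⟩ := hS1 c hcG
  have hX := ok.2.2.1
  obtain ⟨e, he, R', c1, c2, c3, c4⟩ := exists_Nm hc hK
    (tm4 (K := ZF) (t := fun _ P b Q T => Two P b Q T) hK hP (hK.left hP ok.2.1) hQ hT) hX.po genS
    (hS2 hσ') hM hN hH' (e'.restrict_L z1 z2 laM hA s1 s2 o1 o2 a1) (fun x hx y hy => by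
      have hx' := gen.1.cond hx
      obtain ⟨p', t', rfl, hp'⟩ := ok'.2.2.1.fst _ hx'
      have hxM := (e'.dom _ _ hy).1
      obtain ⟨p, d1⟩ := e'.total p' (mem_of_pair_left z1.trans hxM)
      obtain ⟨t, d2⟩ := e'.total t' (mem_of_pair_right z1.trans hxM)
      obtain rfl : y = pair p t := (e'.pe.uniq hy (e'.opair z1 z2 d1 d2)).1 rfl
      refine (H42.mem_Star hX.po).2 ⟨(e'.pe.mem_iff (e'.opair z1 z2 hy hy) a4).1 hx', p, t, rfl,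
        (e'.pe.mem_iff d1 a2).1 ((proj p').2 ⟨p', t', hx, hp'⟩), hJ _ (hJ' p' t' hx) _ ?_⟩
      exact emb2 (K := ZF) (fun _ a b => val a b) e' z1 z2 a2 d2) a3 (hm.dom _ _ ms).1 b1
  obtain ⟨p, t, rfl, -⟩ := hX.fst e (hX.po.left he)
  exact ⟨p, t, hX.po.left he, hPo.trans (hX.le _ _ _ _ he) b2, R', c1, c2, c3, c4⟩

/-- The condition `c` belongs to an instance that refutes `RelSub`. -/
def BadAt (K : Set V) (w P E h u ρ c : V) : Prop :=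
  ∃ N ∈ K, rk N ∈ ρ ∧ h ⊆ N ∧ ∃ A, LA N A ∧ ∃ M ∈ K, Ctbl K M ∧ ZFCm M ∅ ∧ ∃ P' ∈ M, ∃ E' ∈ M,
    ∃ H' ∈ K, ∃ H ∈ K, Generic M E' H' ∧ Proj P' H' H ∧ Full w (ExtV M H) ∧
    (∃ s₀, pair (pair c s₀) (pair c s₀) ∈ E) ∧ ∃ R ∈ K,
    (∀ z ∈ R, ∃ r x y, z = pair r (pair x y)) ∧ Nm P c (In3 R) M N H ∧
    ∃ u' A' s' s, In3 R c P' P ∧ In3 R c E' E ∧ In3 R c u' u ∧ In3 R c A' A ∧ In3 R c s' s ∧
    ¬ ∃ p t, pair (pair p t) (pair p t) ∈ E ∧ pair p c ∈ P ∧ ∃ R' ∈ K,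
      (∀ z ∈ R', ∃ r x y, z = pair r (pair x y)) ∧ Nm E (pair p t) (In3 R') M N H' ∧
      In3 R' (pair p t) s' s

instance df_BadAt {K : Set V → Prop} [Cl K] {Γ : Type} [Countable Γ]
    (C : Set V → (Γ → V) → Set V) [Dc K C] (a b c d e f g : Set V → (Γ → V) → V) [Tm K a] [Tm K b]
    [Tm K c] [Tm K d] [Tm K e] [Tm K f] [Tm K g] :
    Df K fun W v => BadAt (C W v) (a W v) (b W v) (c W v) (d W v) (e W v) (f W v) (g W v) := by
  unfold BadAt; infer_instance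

theorem exists_badAt {K : Set V} {w P E h u ρ : V} (H : ¬ RelSub K w P E h u ρ) :
    ∃ c, BadAt K w P E h u ρ c := by
  by_contra hn
  refine H fun N a1 a2 a3 A a4 M a5 a6 a7 P' a8 E' a9 H' a10 H a11 a12 a13 a14 c a15 R a16 a17 a18
    u' A' s' s a19 a20 a21 a22 a23 => by_contra fun a24 => hn ?_
  exact ⟨c, N, a1, a2, a3, A, a4, M, a5, a6, a7, P', a8, E', a9, H', a10, H, a11, a12, a13, a14,
    a15, R, a16, a17, a18, u', A', s', s, a19, a20, a21, a22, a23, a24⟩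

theorem Pkg.scfa_of {K : Set V} (hK : ZFC K) (hc : K.Countable) {w P I L N G : V}
    (h : Pkg K w P I L N) (hP : P ∈ K) (hG : Generic K P G) (hom : Om1 (Ext K G) w) :
    SCFA (Ext K G) := by
  have zK := hK.1.1
  have hPo := h.po
  have hw := h.om.1
  have hWz := ext_zfc zK hP hPo hG hK
  have hW := hWz.1.1
  rintro _ ⟨Q, hQ, rfl⟩ hQo ⟨θ₀, hθ₀, ho, hsub⟩ w' hw' S hS _ ⟨f, hf, rfl⟩ hfo hD
  obtain rfl := Om1.unique hW hom hw'
  by_contra hno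
  obtain ⟨θ, hθ, h1, h2⟩ := hWz.exists_inH hθ₀ ho (⟨Q, hQ, rfl⟩ : val G Q ∈ Ext K G)
  have hθK := ext_ord zK hP hPo hG θ hθ.1 hθ.2.1
  obtain ⟨_, ⟨Z, hZ, rfl⟩, hZ'⟩ := hWz.inH_bound hθ
  obtain ⟨F, hF, hF'⟩ : (⋃₀ ⋃₀ val G Q : V) ∈ Ext K G := hW.fld ⟨Q, hQ, rfl⟩
  have hT := zK.fld hF
  set T : V := ⋃₀ ⋃₀ F with hTd
  obtain ⟨b₀, hb₀, hs⟩ := Df.forced_of_true (fun W (v : ℕ → V) =>
    (Po (v 1) ∧ ∀ q, pair q q ∈ v 1 → ∃ s ∈ v 3, val (v 0) s = q) ∧ Fn (v 2) ∧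
      (∀ i ∈ v 4, ∃ D, pair i D ∈ v 2) ∧ (∀ i D, pair i D ∈ v 2 → Dense (v 1) D) ∧
      ¬ ∃ F ∈ W, Filt (v 1) F ∧ ∀ i ∈ v 4, ∀ D, pair i D ∈ v 2 → ∃ p ∈ F, p ∈ D) zK hP hPo hG
    (v := cons (nmG P) (cons Q (cons f (cons (chk P T) fun _ => chk P w))))
    (cons_mem (nmG_mem zK hP) (cons_mem hQ (cons_mem hf (cons_mem (chk_mem zK hP hT)
      fun _ => chk_mem zK hP hw)))) (by
      show (Po (val G Q) ∧ ∀ q, pair q q ∈ val G Q → ∃ s ∈ val G (chk P T),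
        val (val G (nmG P)) s = q) ∧ Fn (val G f) ∧
        (∀ i ∈ val G (chk P w), ∃ D, pair i D ∈ val G f) ∧
        (∀ i D, pair i D ∈ val G f → Dense (val G Q) D) ∧
        ¬ ∃ F ∈ Ext K G, Filt (val G Q) F ∧ ∀ i ∈ val G (chk P w), ∀ D, pair i D ∈ val G f →
          ∃ p ∈ F, p ∈ D
      rw [val_chk hG.1, val_chk hG.1, val_nmG hG.1]
      refine ⟨⟨hQo, fun q hq => ?_⟩, hfo.fn, fun i hi => ⟨_, (isFunc_ap hfo.1 hi).1⟩,
        fun i D a => hD D (pair_mem_prod.1 (hfo.1.1 a)).2, fun ⟨F', a1, a2, a3⟩ =>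
          hno ⟨F', a1, a2, fun D a4 => ?_⟩⟩
      · obtain ⟨σ, p, -, a, e⟩ := (mem_val _ _ _).1 (hF' ▸ left_mem_sUnion hq : q ∈ val G F)
        exact ⟨σ, left_mem_sUnion a, e.symm⟩
      · obtain ⟨i, hi, a5⟩ := hfo.2 D a4
        exact a3 i hi D a5)
  have hs' : ∀ G', Generic K P G' → b₀ ∈ G' → (Po (val G' Q) ∧ ∀ q, pair q q ∈ val G' Q →
      ∃ s ∈ T, val G' s = q) ∧ Fn (val G' f) ∧ (∀ i ∈ w, ∃ D, pair i D ∈ val G' f) ∧
      (∀ i D, pair i D ∈ val G' f → Dense (val G' Q) D) ∧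
      ¬ ∃ F ∈ Ext K G', Filt (val G' Q) F ∧ ∀ i ∈ w, ∀ D, pair i D ∈ val G' f →
        ∃ p ∈ F, p ∈ D := fun G' a b => by
    have : (Po (val G' Q) ∧ ∀ q, pair q q ∈ val G' Q → ∃ s ∈ val G' (chk P T),
        val (val G' (nmG P)) s = q) ∧ Fn (val G' f) ∧
        (∀ i ∈ val G' (chk P w), ∃ D, pair i D ∈ val G' f) ∧
        (∀ i D, pair i D ∈ val G' f → Dense (val G' Q) D) ∧
        ¬ ∃ F ∈ Ext K G', Filt (val G' Q) F ∧ ∀ i ∈ val G' (chk P w), ∀ D, pair i D ∈ val G' f →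
          ∃ p ∈ F, p ∈ D := hs G' a b
    rwa [val_chk a.1, val_chk a.1, val_nmG a.1] at this
  have ok : ∀ b, pair b b₀ ∈ P → TwoOK P b Q T := fun b hb =>
    twoOK_of_sem hc zK hP hQ hT hPo (hPo.left hb) fun G' a a' => (hs' G' a (a.1.up a' hb)).1
  let t : V := tc (({omega, P, Z} : V) ∪ (img (fun b => Two P b Q T) (⋃₀ ⋃₀ P) ∪
    img (fun b => pair b (pair Q (pair T θ))) (⋃₀ ⋃₀ P)))
  have ht : t ∈ K := tm5 (K := ZF) (t := fun _ P Z Q T θ => tc (({omega, P, Z} : V) ∪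
    (img (fun b => Two P b Q T) (⋃₀ ⋃₀ P) ∪ img (fun b => pair b (pair Q (pair T θ))) (⋃₀ ⋃₀ P))))
    zK hP hZ hQ hT hθK
  obtain ⟨ρ, hρ, r1, r2, r3⟩ := hK.hartogs ht
  have bad : ∀ b, pair b b₀ ∈ P →
      ¬ RelSub K w P (Two P b Q T) t (pair b (pair Q (pair T θ))) ρ := by
    intro b hb hR
    have hbK := zK.left hP hb
    obtain ⟨D, d1, d2, d3, d4⟩ := two_dense hc zK hw (fun e => h.om.2.2.1 (.inl e)) hP hQ hT hf
      (ok b hb) fun G' a a' => (hs' G' a (a.1.up a' hb)).2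
    refine h.nocx _ ?_ ⟨_, D, t, _, ρ, rfl, (ok b hb).2.2.1, d2, d3, tc_trans _,
      subset_tc _ (by simp), subset_tc _ (by simp), subset_tc _ ?_, subset_tc _ ?_, r1, r2, r3,
      hR, d4⟩
    · exact zK.opair (tm4 (K := ZF) (t := fun _ P b Q T => Two P b Q T) zK hP hbK hQ hT)
        (zK.opair d1 (zK.opair ht (zK.opair (zK.opair hbK (zK.opair hQ (zK.opair hT hθK))) hρ)))
    · exact mem_union.2 (.inr (mem_union.2 (.inl (mem_img.2 ⟨b, left_mem_sUnion hb, rfl⟩))))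
    · exact mem_union.2 (.inr (mem_union.2 (.inr (mem_img.2 ⟨b, left_mem_sUnion hb, rfl⟩))))
  obtain ⟨c, hcG, -, b, hb, N', a1, -, a3, A, a4, M, a5, a6, a7, P', a8, E', -, H', a10, H, a11,
    a12, a13, a14, a15, R, a16, -, a18, u', A', s', s, a19, a20, a21, a22, a23, a24⟩ :=
    Generic.meet zK hP hPo hG (cls8 (K := ZF) (S := fun W w P Q T θ t ρ b₀ c => ∃ b,
      pair b b₀ ∈ P ∧ BadAt W w P (Two P b Q T) t (pair b (pair Q (pair T θ))) ρ c) zK hw hP hQ hT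
      hθK ht hρ (Generic.mem zK hP hG hb₀)) hb₀ fun b hb => by
        obtain ⟨c, hc'⟩ := exists_badAt (bad b hb)
        have hc'' := hc'
        obtain ⟨-, -, -, -, -, -, -, -, -, -, -, -, -, -, -, -, -, -, -, -, -, ⟨s₀, hs₀⟩, -⟩ := hc''
        exact ⟨c, ((mem_Two hPo).1 hs₀).2.2.2.1, b, hb, hc'⟩
  exact a24 (relSub_inst zK hc hP hG hw hQ hT (ok b hb) (hsub θ hθ h1 h2) hZ'
    (subset_tc _ (by simp)) a1 a3 a4 a5 a6 a7 a8 a10 a11 a12 a13 a14 a15 hcG a16 a18 a19 a20 a21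
    a22 a23)

end Pool.Agent.Lib.MP_329f2d_lc
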