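import Pool.Agent.Lib.MP_329f2d_lc.H42Two

/-! Dense subsets of a two-step iteration given by a name for a family of dense sets. -/

open ZFSet

set_option synthInstance.maxSize 4000

namespace Pool.Agent.Lib.MP_329f2d_lc

open H42

theorem two_dense {K : Set V} (hc : K.Countable) (hK : ZFm K ∅) {w P b Q T f : V} (hw : w ∈ K)
    (hw0 : w ≠ ∅) (hP : P ∈ K) (hQ : Q ∈ K) (hT : T ∈ K) (hf : f ∈ K) (h : TwoOK P b Q T)
    (hs : ∀ G, Generic K P G → b ∈ G → Fn (val G f) ∧ (∀ i ∈ w, ∃ D, pair i D ∈ val G f) ∧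
      (∀ i D, pair i D ∈ val G f → Dense (val G Q) D) ∧
      ¬ ∃ F ∈ Ext K G, Filt (val G Q) F ∧ ∀ i ∈ w, ∀ D, pair i D ∈ val G f → ∃ p ∈ F, p ∈ D) :
    ∃ D ∈ K, (∀ i ∈ w, ∃ d, pair i d ∈ D) ∧ (∀ i d, pair i d ∈ D → Dense (Two P b Q T) d) ∧
      ¬ ∃ H ∈ K, ∃ p₀ s₀, pair (pair p₀ s₀) (pair p₀ s₀) ∈ Two P b Q T ∧
        FiltNm w P (Two P b Q T) D H p₀ := by
  have hX := h.2.2.1
  have hE : Two P b Q T ∈ K := tm4 (K := ZF) (t := fun _ P b Q T => Two P b Q T) hK hP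
    (mem_of_pair_left hK.trans (hK.mem h.2.1 hP)) hQ hT
  have hi : ∀ i ∈ w, chk P i ∈ K := fun i hi =>
    tm2 (K := ZF) (t := fun _ P i => chk P i) hK hP (hK.mem hi hw)
  have hb : ∀ {G p s}, Generic K P G → p ∈ G → pair (pair p s) (pair p s) ∈ Two P b Q T → b ∈ G :=
    fun hG hp he => hG.1.up hp ((mem_Two h.1).1 he).2.2.2.1
  set d : V → V := fun i => ZFSet.sep (fun e => ∃ δ ∈ K, FM P (fst e) (opn P (chk P i) δ) f ∧
    FM P (fst e) (snd e) δ) (⋃₀ ⋃₀ Two P b Q T) with hd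
  have hD : graph d w ∈ K := tm4 (K := ZF) (t := fun W P f E w => graph (fun i => ZFSet.sep
    (fun e => ∃ δ ∈ W, FM P (fst e) (opn P (chk P i) δ) f ∧ FM P (fst e) (snd e) δ) (⋃₀ ⋃₀ E)) w)
    hK hP hf hE hw
  refine ⟨graph d w, hD, fun i hi => ⟨_, pair_mem_graph.2 ⟨hi, rfl⟩⟩, fun i d' hd' => ?_, ?_⟩
  · obtain ⟨hiw, rfl⟩ := pair_mem_graph.1 hd'
    refine ⟨fun e he => (field hX.po).1 (mem_sep.1 he).1, fun e he => ?_⟩
    obtain ⟨p, s, rfl, hp⟩ := hX.fst e he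
    obtain ⟨G, hG, hpG⟩ := exists_generic hc h.1 hp
    have hbG := hb hG hpG he
    obtain ⟨-, h2, h3, -⟩ := hs G hG hbG
    obtain ⟨D, hD'⟩ := h2 i hiw
    obtain ⟨δ, hδ, rfl⟩ : D ∈ Ext K G := (ext_zfm hK hP h.1 hG).right ⟨f, hf, rfl⟩ hD'
    obtain ⟨q, a1, a2⟩ := (h3 i _ hD').2 _ (sound' hK hP hQ hT h hG hpG he)
    have a3 := (h3 i _ hD').1 q a1
    obtain ⟨t, ht, rfl⟩ := cover' hK hP hQ hT h hG hbG a3
    obtain ⟨r, -, ⟨b1, b2⟩, b3⟩ := (((ev_two hK hP hQ hT h hG hbG hpG he ht a3 a2).and h.1 hG.1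
      (ev_fm hK hP h.1 hG (opn_mem hK hP (hi i hiw) hδ) hf
        (by rwa [val_opn hG.1, val_chk hG.1]))).and h.1 hG.1
      (ev_fm hK hP h.1 hG (hK.mem ht hT) hδ a1)).ex hG.1
    exact ⟨_, mem_sep.2 ⟨left_mem_sUnion b1, δ, hδ, by simpa using b2, by simpa using b3⟩, b1⟩
  · rintro ⟨H, hH, p₀, s₀, he₀, hN⟩
    obtain ⟨G, hG, hp₀⟩ := exists_generic hc h.1 (hX.le _ _ _ _ he₀)
    have hbG := hb hG hp₀ he₀
    obtain ⟨h1, -, -, h4⟩ := hs G hG hbG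
    have hZ := ext_zfm hK hP h.1 hG
    have hQo := po_val hK hP hQ hT h hG hbG (ne_of_mem (sound' hK hP hQ hT h hG hp₀ he₀))
    set H' := ZFSet.sep (fun e => ∃ r ∈ G, pair r e ∈ H) (ran H) with hH'
    have m1 : ∀ e, e ∈ H' ↔ ∃ r ∈ G, pair r e ∈ H := fun e =>
      mem_sep.trans (and_iff_right_of_imp fun ⟨r, _, a⟩ => mem_ran.2 ⟨r, a⟩)
    have m2 : ∀ e ∈ H', ∃ p s, e = pair p s ∧ pair e e ∈ Two P b Q T ∧ p ∈ G ∧
        val G s ∈ Quo (val G Q) G H' := fun e he => by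
      obtain ⟨r, hr, a⟩ := (m1 e).1 he
      obtain ⟨_, p, s, a1, a2, a3⟩ := hN.dom _ a
      obtain ⟨rfl, rfl⟩ := pair_inj.1 a1
      exact ⟨p, s, rfl, a2, hG.1.up hr a3,
        mem_Quo.2 ⟨p, s, he, sound' hK hP hQ hT h hG (hG.1.up hr a3) a2⟩⟩
    have m3 : ∀ i ∈ w, ∃ δ, pair i δ ∈ val G f ∧ ∃ q ∈ Quo (val G Q) G H', q ∈ δ := fun i hiw => by
      obtain ⟨r, hr, -, d', e, a1, a2, a3⟩ := hG.meet hK hP h.1
        (cls3 (K := ZF) (S := fun _ i D H r => ∃ d e, pair i d ∈ D ∧ e ∈ d ∧ pair r e ∈ H) hK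
          (hK.mem hiw hw) hD hH) hp₀ fun q hq => by
          obtain ⟨r', d', e, a⟩ := hN.meets i hiw q hq
          exact ⟨r', a.1, d', e, a.2⟩
      obtain ⟨p, s, rfl, a4, a5, a6⟩ := m2 e ((m1 e).2 ⟨r, hr, a3⟩)
      obtain ⟨-, rfl⟩ := pair_mem_graph.1 a1
      obtain ⟨δ, hδ, a7, a8⟩ := (mem_sep.1 a2).2
      rw [fst_pair] at a7
      rw [fst_pair, snd_pair] at a8
      have a9 := (pair_mem_val_iff hK hP h.1 hG (hi i hiw) hδ hf).2 ⟨p, a5, a7⟩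
      rw [val_chk hG.1] at a9
      exact ⟨_, a9, _, a6,
        (val_mem_iff hK hP h.1 hG (hK.mem ((mem_Two h.1).1 a4).1 hT) hδ).2 ⟨p, a5, a8⟩⟩
    refine h4 ⟨Quo (val G Q) G H', tm3 (K := ZF) (t := fun _ Q G H => Quo Q G
      (ZFSet.sep (fun e => ∃ r ∈ G, pair r e ∈ H) (ran H))) hZ ⟨Q, hQ, rfl⟩
      (self_mem_ext hK hP h.1 hG) (subset_ext hK hP h.1 hG hH),
      ⟨?_, fun q hq => ?_, fun q hq q' hq' => ?_, fun q hq q' hq' => ?_⟩, fun i hiw D hD' => ?_⟩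
    · obtain ⟨i, hiw⟩ : ∃ i, i ∈ w := by
        by_contra hn
        exact hw0 ((eq_empty _).2 fun y hy => hn ⟨y, hy⟩)
      obtain ⟨_, -, q, hq, -⟩ := m3 i hiw
      exact ne_of_mem hq
    · obtain ⟨p, s, -, a⟩ := mem_Quo.1 hq
      exact hQo.right a
    · obtain ⟨p, s, a, a'⟩ := mem_Quo.1 hq
      exact mem_Quo.2 ⟨p, s, a, hQo.trans a' hq'⟩
    · obtain ⟨p, s, a1, a2⟩ := mem_Quo.1 hq
      obtain ⟨p', s', a3, a4⟩ := mem_Quo.1 hq'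
      obtain ⟨r, hr, a5⟩ := (m1 _).1 a1
      obtain ⟨r', hr', a6⟩ := (m1 _).1 a3
      obtain ⟨u, hu, a7, a8⟩ := hG.1.meet hr hr'
      obtain ⟨v, hv, -, e, b1, b2, b3⟩ := hG.meet hK hP h.1
        (cls4 (K := ZF) (S := fun _ H E e e' r => ∃ x, pair r x ∈ H ∧ pair x e ∈ E ∧ pair x e' ∈ E)
          hK hH hE (hK.right hH a5) (hK.right hH a6)) hu fun x hx => by
          obtain ⟨y, e, a⟩ := hN.dir x _ _ (hN.mono _ _ _ a5 (h.1.trans hx a7))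
            (hN.mono _ _ _ a6 (h.1.trans hx a8))
          exact ⟨y, a.1, e, a.2⟩
      obtain ⟨x, t, rfl, -, c1, c2⟩ := m2 e ((m1 e).2 ⟨v, hv, b1⟩)
      exact ⟨_, c2, hQo.trans (sound' hK hP hQ hT h hG c1 b2) a2,
        hQo.trans (sound' hK hP hQ hT h hG c1 b3) a4⟩
    · obtain ⟨δ, a1, a2⟩ := m3 i hiw
      rwa [h1 _ _ _ hD' a1]

end Pool.Agent.Lib.MP_329f2d_lc
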