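import Pool.Agent.Lib.MP_329f2d_lc.H38G3

/-! Two-step iterations. -/

open ZFSet

set_option synthInstance.maxSize 4000

namespace Pool.Agent.Lib.MP_329f2d_lc

theorem Ctbl.extV {W : Set V} (h : ZFm W ∅) {M H : V} (hM : M ∈ W) (hH : H ∈ W) (hc : Ctbl W M) :
    Ctbl W (ExtV M H) := by
  rcases hc with rfl | ⟨f, hf, hf'⟩
  · refine .inl ((eq_empty _).2 fun x hx => ?_)
    obtain ⟨τ, hτ, -⟩ := mem_ExtV.1 hx
    exact notMem_empty _ hτ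
  · refine .inr ⟨graph (fun n => val H (ap f n)) omega,
      tm2 (K := ZF) (t := fun _ f H => graph (fun n => val H (ap f n)) omega) h hf hH,
      onto_graph (fun n hn => mem_ExtV.2 ⟨_, (isFunc_ap hf'.1 hn).2, rfl⟩) fun y hy => ?_⟩
    obtain ⟨τ, hτ, rfl⟩ := mem_ExtV.1 hy
    obtain ⟨n, hn, rfl⟩ := hf'.ap hτ
    exact ⟨n, hn, rfl⟩

/-- The two-step iteration below `b` with names from `T`. -/
noncomputable def Two (P b Q T : V) : V :=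
  (prod (prod (⋃₀ ⋃₀ P) T) (prod (⋃₀ ⋃₀ P) T)).sep fun z => ∃ p s p' s',
    z = pair (pair p s) (pair p' s') ∧ pair p p' ∈ P ∧ pair p' b ∈ P ∧
    FM P p' (opn P s' s') Q ∧ FM P p (opn P s s) Q ∧ FM P p (opn P s s') Q

/-- `b` forces that `Q` is a preorder whose conditions have names in `T` (absolute form). -/
def TwoOK (P b Q T : V) : Prop :=
  Po P ∧ pair b b ∈ P ∧ ExtOf P (Two P b Q T) ∧
    ∀ π t, pair π t ∈ Q → ∀ p, pair p b ∈ P → pair p t ∈ P → ∃ r, pair r p ∈ P ∧ ∃ s ∈ T, ∃ s' ∈ T,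
      FE P r π (opn P s s') ∧ FM P r (opn P s s) Q ∧ FM P r (opn P s' s') Q

/-- The filter `G * J`. -/
noncomputable def Star (E G J : V) : V :=
  (⋃₀ ⋃₀ E).sep fun e => ∃ p s, e = pair p s ∧ p ∈ G ∧ val G s ∈ J

/-- The filter induced on the second step. -/
noncomputable def Quo (Q H H' : V) : V :=
  (⋃₀ ⋃₀ Q).sep fun q => ∃ p s, pair p s ∈ H' ∧ pair (val H s) q ∈ Q

section
variable {K : Set V → Prop} [Cl K] {Γ : Type} [Countable Γ]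
instance tm_Two (a b c d : Set V → (Γ → V) → V) [Tm K a] [Tm K b] [Tm K c] [Tm K d] :
    Tm K fun W v => Two (a W v) (b W v) (c W v) (d W v) := by unfold Two; infer_instance
instance df_TwoOK (a b c d : Set V → (Γ → V) → V) [Tm K a] [Tm K b] [Tm K c] [Tm K d] :
    Df K fun W v => TwoOK (a W v) (b W v) (c W v) (d W v) := by unfold TwoOK; infer_instance
instance tm_Star (a b c : Set V → (Γ → V) → V) [Tm K a] [Tm K b] [Tm K c] :
    Tm K fun W v => Star (a W v) (b W v) (c W v) := by unfold Star; infer_instance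
instance tm_Quo (a b c : Set V → (Γ → V) → V) [Tm K a] [Tm K b] [Tm K c] :
    Tm K fun W v => Quo (a W v) (b W v) (c W v) := by unfold Quo; infer_instance
end

theorem mem_Two {P b Q T p s p' s' : V} (hP : Po P) :
    pair (pair p s) (pair p' s') ∈ Two P b Q T ↔ s ∈ T ∧ s' ∈ T ∧ pair p p' ∈ P ∧ pair p' b ∈ P ∧
      FM P p' (opn P s' s') Q ∧ FM P p (opn P s s) Q ∧ FM P p (opn P s s') Q := by
  have _ := hP
  simp only [Two, mem_sep, pair_mem_prod, pair_inj]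
  constructor
  · rintro ⟨⟨⟨-, h1⟩, -, h2⟩, _, _, _, _, ⟨⟨rfl, rfl⟩, rfl, rfl⟩, h⟩
    exact ⟨h1, h2, h⟩
  · rintro ⟨h1, h2, h⟩
    exact ⟨⟨⟨left_mem_sUnion h.1, h1⟩, right_mem_sUnion h.1, h2⟩, p, s, p', s',
      ⟨⟨rfl, rfl⟩, rfl, rfl⟩, h⟩

namespace H42

theorem two_shape {P b Q T z : V} (h : z ∈ Two P b Q T) :
    ∃ p s p' s', z = pair (pair p s) (pair p' s') := by
  obtain ⟨p, s, p', s', e, -⟩ := (mem_sep.1 h).2
  exact ⟨p, s, p', s', e⟩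

theorem field {P e : V} (hP : Po P) : e ∈ (⋃₀ ⋃₀ P : V) ↔ pair e e ∈ P := by
  refine ⟨fun h => ?_, left_mem_sUnion⟩
  obtain ⟨y, hy, he⟩ := mem_sUnion.1 h
  obtain ⟨z, hz, hy⟩ := mem_sUnion.1 hy
  obtain ⟨p, q, rfl, hp, hq⟩ := hP.2.1 z hz
  simp only [pair, mem_insert_iff, mem_singleton] at hy
  rcases hy with rfl | rfl
  · rwa [mem_singleton.1 he]
  · rcases mem_insert_iff.1 he with rfl | he
    exacts [hp, by rwa [mem_singleton.1 he]]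

theorem mem_Quo {Q H H' q : V} :
    q ∈ Quo Q H H' ↔ ∃ p s, pair p s ∈ H' ∧ pair (val H s) q ∈ Q :=
  mem_sep.trans (and_iff_right_of_imp fun ⟨_, _, _, h⟩ => right_mem_sUnion h)

theorem mem_Star {E G J e : V} (hE : Po E) :
    e ∈ Star E G J ↔ pair e e ∈ E ∧ ∃ p s, e = pair p s ∧ p ∈ G ∧ val G s ∈ J :=
  mem_sep.trans (and_congr_left' (field hE))

theorem filt_ne {P G : V} (h : Filt P G) : ∃ p, p ∈ G := by
  by_contra hn
  exact h.1 ((eq_empty G).2 fun y hy => hn ⟨y, hy⟩)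

theorem ne_of_mem {x y : V} (h : x ∈ y) : y ≠ ∅ := fun e => notMem_empty x (e ▸ h)

/-- `A` holds below some member of the filter. -/
def Ev (P G : V) (A : V → Prop) : Prop := ∃ p ∈ G, ∀ q, pair q p ∈ P → A q

variable {P G : V} {A B : V → Prop}

theorem Ev.and (hP : Po P) (hG : Filt P G) (h : Ev P G A) (h' : Ev P G B) :
    Ev P G fun q => A q ∧ B q := by
  obtain ⟨p, hp, h⟩ := h
  obtain ⟨p', hp', h'⟩ := h'
  obtain ⟨r, hr, a, b⟩ := hG.2.2.2 p hp p' hp'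
  exact ⟨r, hr, fun q hq => ⟨h q (hP.trans hq a), h' q (hP.trans hq b)⟩⟩

theorem Ev.ex (hG : Filt P G) (h : Ev P G A) : ∃ p ∈ G, A p :=
  h.imp fun p hp => ⟨hp.1, hp.2 p (hG.2.1 p hp.1)⟩

theorem ev_le {p : V} (hp : p ∈ G) : Ev P G fun q => pair q p ∈ P := ⟨p, hp, fun _ h => h⟩

section
variable {K : Set V} (hK : ZFm K ∅) (hP : P ∈ K) (hPo : Po P) (hG : Generic K P G)
include hK hP hPo hG

theorem ev_fm {σ τ : V} (hσ : σ ∈ K) (hτ : τ ∈ K) (h : val G σ ∈ val G τ) :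
    Ev P G fun q => FM P q σ τ :=
  ((val_mem_iff hK hP hPo hG hσ hτ).1 h).imp fun _ hp => ⟨hp.1, fun _ hq => hp.2.mono hPo hq⟩

theorem ev_le' {Q T s s' : V} (hQ : Q ∈ K) (hT : T ∈ K) (hs : s ∈ T) (hs' : s' ∈ T)
    (h : pair (val G s) (val G s') ∈ val G Q) : Ev P G fun q => FM P q (opn P s s') Q :=
  ev_fm hK hP hPo hG (tm3 (K := ZF) (t := fun _ P s s' => opn P s s') hK hP (hK.mem hs hT)
    (hK.mem hs' hT)) hQ (by rwa [val_opn hG.1])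

theorem sound {Q T p s s' : V} (hQ : Q ∈ K) (hT : T ∈ K) (hs : s ∈ T) (hs' : s' ∈ T) (hp : p ∈ G)
    (h : FM P p (opn P s s') Q) : pair (val G s) (val G s') ∈ val G Q := by
  rw [← val_opn hG.1]
  exact (val_mem_iff hK hP hPo hG (tm3 (K := ZF) (t := fun _ P s s' => opn P s s') hK hP
    (hK.mem hs hT) (hK.mem hs' hT)) hQ).2 ⟨p, hp, h⟩

end

section
variable {K : Set V} (hK : ZFm K ∅) {b Q T : V} (hP : P ∈ K) (hQ : Q ∈ K) (hT : T ∈ K)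
  (h : TwoOK P b Q T) (hG : Generic K P G) (hb : b ∈ G)
include hK hP hQ hT h hG hb

theorem cover {z : V} (hz : z ∈ val G Q) : ∃ s ∈ T, ∃ s' ∈ T, z = pair (val G s) (val G s') ∧
    pair (val G s) (val G s) ∈ val G Q ∧ pair (val G s') (val G s') ∈ val G Q := by
  obtain ⟨π, t, ht, hπ, rfl⟩ := (mem_val _ _ _).1 hz
  have hπK : π ∈ K := mem_of_pair_left hK.trans (hK.mem hπ hQ)
  obtain ⟨p, hp, h1, h2⟩ := hG.1.2.2.2 b hb t ht
  obtain ⟨r, hr, -, s, hs, s', hs', h3, h4, h5⟩ := hG.meet hK hP h.1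
    (cls4 (K := ZF) (S := fun _ P Q T π r => ∃ s ∈ T, ∃ s' ∈ T, FE P r π (opn P s s') ∧
      FM P r (opn P s s) Q ∧ FM P r (opn P s' s') Q) hK hP hQ hT hπK) hp
    fun q hq => h.2.2.2 π t hπ q (h.1.trans hq h1) (h.1.trans hq h2)
  refine ⟨s, hs, s', hs', ?_, sound hK hP h.1 hG hQ hT hs hs hr h4,
    sound hK hP h.1 hG hQ hT hs' hs' hr h5⟩
  rw [← val_opn hG.1]
  exact (val_eq_iff hK hP h.1 hG hπK (tm3 (K := ZF) (t := fun _ P s s' => opn P s s') hK hP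
    (hK.mem hs hT) (hK.mem hs' hT))).2 ⟨r, hr, h3⟩

theorem cover' {q : V} (hq : pair q q ∈ val G Q) : ∃ s ∈ T, val G s = q := by
  obtain ⟨s, hs, _, -, e, -⟩ := cover hK hP hQ hT h hG hb hq
  exact ⟨s, hs, (pair_inj.1 e).1.symm⟩

/-- A true inequality below a condition is realised in the two-step iteration. -/
theorem ev_two {p s t : V} (hp : p ∈ G) (hs : pair (pair p s) (pair p s) ∈ Two P b Q T) (ht : t ∈ T)
    (h1 : pair (val G t) (val G t) ∈ val G Q) (h2 : pair (val G t) (val G s) ∈ val G Q) :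
    Ev P G fun r => pair (pair r t) (pair p s) ∈ Two P b Q T := by
  have _ := hb
  obtain ⟨a1, -, -, a2, a3, -⟩ := (mem_Two h.1).1 hs
  obtain ⟨r, hr, hr'⟩ := ((ev_le hp).and h.1 hG.1 (ev_le' hK hP h.1 hG hQ hT ht ht h1)).and h.1 hG.1
    (ev_le' hK hP h.1 hG hQ hT ht a1 h2)
  exact ⟨r, hr, fun q hq => (mem_Two h.1).2
    ⟨ht, a1, (hr' q hq).1.1, a2, a3, (hr' q hq).1.2, (hr' q hq).2⟩⟩

theorem ev_cond {t : V} (ht : t ∈ T) (h1 : pair (val G t) (val G t) ∈ val G Q) :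
    Ev P G fun r => pair (pair r t) (pair r t) ∈ Two P b Q T := by
  obtain ⟨r, hr, hr'⟩ := (ev_le hb).and h.1 hG.1 (ev_le' hK hP h.1 hG hQ hT ht ht h1)
  exact ⟨r, hr, fun q hq => (mem_Two h.1).2
    ⟨ht, ht, h.1.left hq, (hr' q hq).1, (hr' q hq).2, (hr' q hq).2, (hr' q hq).2⟩⟩

omit hb in
theorem sound' {p s p' s' : V} (hp : p ∈ G) (hs : pair (pair p s) (pair p' s') ∈ Two P b Q T) :
    pair (val G s) (val G s') ∈ val G Q :=
  have a := (mem_Two h.1).1 hs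
  sound hK hP h.1 hG hQ hT a.1 a.2.1 hp a.2.2.2.2.2.2

theorem po_val (h0 : val G Q ≠ ∅) : Po (val G Q) := by
  refine ⟨h0, fun z hz => ?_, fun x y z h1 h2 => ?_⟩
  · obtain ⟨s, -, s', -, e⟩ := cover hK hP hQ hT h hG hb hz
    exact ⟨_, _, e⟩
  · obtain ⟨s, hs, s', hs', e, a1, a2⟩ := cover hK hP hQ hT h hG hb h1
    obtain ⟨_, -, t, ht, e', -, a3⟩ := cover hK hP hQ hT h hG hb h2
    obtain ⟨rfl, rfl⟩ := pair_inj.1 e
    obtain rfl := (pair_inj.1 e').2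
    obtain ⟨p, hp, b1⟩ := (ev_cond hK hP hQ hT h hG hb ht a3).ex hG.1
    obtain ⟨q, hq, b2⟩ := (ev_two hK hP hQ hT h hG hb hp b1 hs' a2 h2).ex hG.1
    obtain ⟨r, hr, b3⟩ := (ev_two hK hP hQ hT h hG hb hq (h.2.2.1.po.left b2) hs a1 h1).ex hG.1
    exact sound' hK hP hQ hT h hG hr (h.2.2.1.po.trans b3 b2)

end

end H42

open H42

theorem twoOK_of_sem {K : Set V} (hc : K.Countable) (hK : ZFm K ∅) {P b Q T : V} (hP : P ∈ K)
    (hQ : Q ∈ K) (hT : T ∈ K) (hPo : Po P) (hb : pair b b ∈ P)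
    (h : ∀ G, Generic K P G → b ∈ G →
      Po (val G Q) ∧ ∀ q, pair q q ∈ val G Q → ∃ s ∈ T, val G s = q) : TwoOK P b Q T := by
  have ho : ∀ {s s' : V}, s ∈ T → s' ∈ T → opn P s s' ∈ K := fun hs hs' =>
    tm3 (K := ZF) (t := fun _ P s s' => opn P s s') hK hP (hK.mem hs hT) (hK.mem hs' hT)
  refine ⟨hPo, hb, ⟨⟨?_, fun z hz => ?_, fun x y z h1 h2 => ?_⟩, fun e he => ?_,
    fun p s p' s' h1 => ((mem_Two hPo).1 h1).2.2.1, fun p s r h1 h2 => ?_⟩,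
    fun π t hπ p h1 h2 => ?_⟩
  · obtain ⟨G, hG, hbG⟩ := exists_generic hc hPo hb
    obtain ⟨h1, h2⟩ := h G hG hbG
    obtain ⟨z, hz⟩ : ∃ z, z ∈ val G Q := by
      by_contra hn
      exact h1.1 ((eq_empty _).2 fun y hy => hn ⟨y, hy⟩)
    obtain ⟨q, _, -, hq, -⟩ := h1.2.1 z hz
    obtain ⟨s, hs, rfl⟩ := h2 q hq
    obtain ⟨r, hr, a1, a2⟩ := ((ev_le hbG).and hPo hG.1 (ev_le' hK hP hPo hG hQ hT hs hs hq)).ex hG.1
    exact ne_of_mem ((mem_Two hPo).2 ⟨hs, hs, hPo.left a1, a1, a2, a2, a2⟩)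
  · obtain ⟨p, s, p', s', rfl⟩ := two_shape hz
    obtain ⟨a1, a2, a3, a4, a5, a6, -⟩ := (mem_Two hPo).1 hz
    exact ⟨_, _, rfl, (mem_Two hPo).2 ⟨a1, a1, hPo.left a3, hPo.trans a3 a4, a6, a6, a6⟩,
      (mem_Two hPo).2 ⟨a2, a2, hPo.left a4, a4, a5, a5, a5⟩⟩
  · obtain ⟨p, s, p', s', e⟩ := two_shape h1
    obtain ⟨_, _, p'', s'', e'⟩ := two_shape h2
    obtain ⟨rfl, rfl⟩ := pair_inj.1 e
    obtain rfl := (pair_inj.1 e').2
    obtain ⟨a1, a2, a3, -, -, a6, a7⟩ := (mem_Two hPo).1 h1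
    obtain ⟨-, b2, b3, b4, b5, -, b7⟩ := (mem_Two hPo).1 h2
    refine (mem_Two hPo).2 ⟨a1, b2, hPo.trans a3 b3, b4, b5, a6,
      fm_of_sem hc hK hP hPo (ho a1 b2) hQ fun G hG hp => ?_⟩
    rw [val_opn hG.1]
    exact (h G hG (hG.1.2.2.1 p hp b (hPo.trans a3 (hPo.trans b3 b4)))).1.trans
      (sound hK hP hPo hG hQ hT a1 a2 hp a7) (sound hK hP hPo hG hQ hT a2 b2 hp (b7.mono hPo a3))
  · obtain ⟨p, s, _, _, e'⟩ := two_shape he
    obtain rfl := (pair_inj.1 e').1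
    exact ⟨p, s, rfl, ((mem_Two hPo).1 he).2.2.1⟩
  · obtain ⟨a1, -, -, a4, a5, -⟩ := (mem_Two hPo).1 h1
    exact (mem_Two hPo).2 ⟨a1, a1, h2, a4, a5, a5.mono hPo h2, a5.mono hPo h2⟩
  · obtain ⟨G, hG, hp⟩ := exists_generic hc hPo (hPo.left h1)
    obtain ⟨a1, a2⟩ := h G hG (hG.1.2.2.1 p hp b h1)
    obtain ⟨q, q', e, hq, hq'⟩ := a1.2.1 (val G π)
      ((mem_val _ _ _).2 ⟨π, t, hG.1.2.2.1 p hp t h2, hπ, rfl⟩)
    obtain ⟨s, hs, rfl⟩ := a2 q hq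
    obtain ⟨s', hs', rfl⟩ := a2 q' hq'
    rw [← val_opn hG.1] at e
    obtain ⟨r, hr, hr'⟩ := (val_eq_iff hK hP hPo hG (mem_of_pair_left hK.trans (hK.mem hπ hQ))
      (ho hs hs')).1 e
    obtain ⟨u, -, ⟨⟨c1, c2⟩, c3⟩, c4⟩ := ((((ev_le hp).and hPo hG.1 (ev_le hr)).and hPo hG.1
      (ev_le' hK hP hPo hG hQ hT hs hs hq)).and hPo hG.1
      (ev_le' hK hP hPo hG hQ hT hs' hs' hq')).ex hG.1
    exact ⟨u, c1, s, hs, s', hs', hr'.mono hPo c2, c3, c4⟩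

theorem ExtOf.generic_proj {M : Set V} (hM : ZFm M ∅) {P E H' H : V} (hP : P ∈ M) (hE : E ∈ M)
    (hPo : Po P) (h : ExtOf P E) (hH' : Generic M E H') (hH : Proj P H' H) : Generic M P H := by
  refine ⟨⟨?_, fun p hp => ?_, fun p hp q hq => ?_, fun p hp q hq => ?_⟩, fun D hD hd => ?_⟩
  · obtain ⟨e, he⟩ := filt_ne hH'.1
    obtain ⟨p, s, rfl, hp⟩ := h.fst e (hH'.1.2.1 e he)
    exact ne_of_mem ((hH p).2 ⟨p, s, he, hp⟩)
  · obtain ⟨p', s, -, h1⟩ := (hH p).1 hp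
    exact hPo.right h1
  · obtain ⟨p', s, h0, h1⟩ := (hH p).1 hp
    exact (hH q).2 ⟨p', s, h0, hPo.trans h1 hq⟩
  · obtain ⟨p', s, h0, h1⟩ := (hH p).1 hp
    obtain ⟨q', t, h2, h3⟩ := (hH q).1 hq
    obtain ⟨e, he, h4, h5⟩ := hH'.1.2.2.2 _ h0 _ h2
    obtain ⟨r, u, rfl, hr⟩ := h.fst e (hH'.1.2.1 e he)
    exact ⟨r, (hH r).2 ⟨r, u, he, hr⟩, hPo.trans (h.le _ _ _ _ h4) h1,
      hPo.trans (h.le _ _ _ _ h5) h3⟩
  · obtain ⟨e0, he0⟩ := filt_ne hH'.1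
    obtain ⟨e, he, -, h1⟩ := hH'.meet hM hE h.po
      (cls1 (K := ZF) (S := fun _ D e => MP_329f2d_lc.fst e ∈ D) hM hD) he0 fun q hq => by
        obtain ⟨p, s, rfl, hp⟩ := h.fst q (h.po.left hq)
        obtain ⟨d, h1, h2⟩ := hd.2 p hp
        exact ⟨pair d s, h.res p s d (h.po.left hq) h2, by simpa using h1⟩
    have _ := hP
    obtain ⟨p, s, rfl, hp⟩ := h.fst e (hH'.1.2.1 e he)
    exact ⟨p, (hH p).2 ⟨p, s, he, hp⟩, by simpa using h1⟩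

section
variable {K : Set V} (hK : ZFm K ∅) {P b Q T G : V} (hP : P ∈ K) (hQ : Q ∈ K) (hT : T ∈ K)
  (h : TwoOK P b Q T)
include hK hP hQ hT h

theorem TwoOK.quo {H' : V} (hH' : Generic K (Two P b Q T) H') (hH : Proj P H' G) :
    Po (val G Q) ∧ Generic (Ext K G) (val G Q) (Quo (val G Q) G H') ∧
      ∀ p s, pair p s ∈ H' → val G s ∈ Quo (val G Q) G H' := by
  have hX := h.2.2.1
  have hE : Two P b Q T ∈ K := tm4 (K := ZF) (t := fun _ P b Q T => Two P b Q T) hK hP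
    (mem_of_pair_left hK.trans (hK.mem h.2.1 hP)) hQ hT
  have hG := hX.generic_proj hK hP hE h.1 hH' hH
  have h1 : ∀ p s, pair p s ∈ H' → p ∈ G := fun p s he =>
    (hH p).2 ⟨p, s, he, hX.le _ _ _ _ (hH'.1.2.1 _ he)⟩
  have h2 : ∀ p s, pair p s ∈ H' → pair (val G s) (val G s) ∈ val G Q := fun p s he =>
    sound' hK hP hQ hT h hG (h1 p s he) (hH'.1.2.1 _ he)
  have h3 : ∀ p s, pair p s ∈ H' → val G s ∈ Quo (val G Q) G H' := fun p s he =>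
    mem_Quo.2 ⟨p, s, he, h2 p s he⟩
  obtain ⟨e0, he0⟩ := filt_ne hH'.1
  obtain ⟨p0, s0, rfl, -⟩ := hX.fst e0 (hH'.1.2.1 e0 he0)
  have hb : b ∈ G := hG.1.2.2.1 p0 (h1 _ _ he0) b ((mem_Two h.1).1 (hH'.1.2.1 _ he0)).2.2.2.1
  have hQo := po_val hK hP hQ hT h hG hb (ne_of_mem (h2 _ _ he0))
  refine ⟨hQo, ⟨⟨ne_of_mem (h3 _ _ he0), fun q hq => ?_, fun q hq q' hq' => ?_,
    fun q hq q' hq' => ?_⟩, ?_⟩, h3⟩
  · obtain ⟨p, s, -, a⟩ := mem_Quo.1 hq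
    exact hQo.right a
  · obtain ⟨p, s, a, a'⟩ := mem_Quo.1 hq
    exact mem_Quo.2 ⟨p, s, a, hQo.trans a' hq'⟩
  · obtain ⟨p, s, a1, a2⟩ := mem_Quo.1 hq
    obtain ⟨p', s', a3, a4⟩ := mem_Quo.1 hq'
    obtain ⟨e, he, a5, a6⟩ := hH'.1.2.2.2 _ a1 _ a3
    obtain ⟨r, t, rfl, -⟩ := hX.fst e (hH'.1.2.1 e he)
    exact ⟨_, h3 r t he, hQo.trans (sound' hK hP hQ hT h hG (h1 r t he) a5) a2,
      hQo.trans (sound' hK hP hQ hT h hG (h1 r t he) a6) a4⟩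
  · rintro _ ⟨D, hD, rfl⟩ hd
    obtain ⟨e, he, -, a⟩ := hH'.meet hK hE hX.po
      (cls3 (K := ZF) (S := fun _ P E D e => FM P (fst e) (snd e) D ∨
        ∀ e', pair e' e ∈ E → ¬ FM P (fst e') (snd e') D) hK hP hE hD) he0 fun q hq => by
        by_cases hc : ∃ e', pair e' q ∈ Two P b Q T ∧ FM P (fst e') (snd e') D
        · exact hc.imp fun _ a => ⟨a.1, .inl a.2⟩
        · exact ⟨q, hX.po.left hq, .inr fun e' a a' => hc ⟨e', a, a'⟩⟩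
    obtain ⟨p, s, rfl, -⟩ := hX.fst e (hH'.1.2.1 e he)
    have hs : s ∈ T := ((mem_Two h.1).1 (hH'.1.2.1 _ he)).1
    rcases a with a | a
    · rw [fst_pair, snd_pair] at a
      exact ⟨_, h3 p s he, (val_mem_iff hK hP h.1 hG (hK.mem hs hT) hD).2 ⟨p, h1 p s he, a⟩⟩
    · obtain ⟨d, hd1, hd2⟩ := hd.2 _ (h2 p s he)
      obtain ⟨t, ht, rfl⟩ := cover' hK hP hQ hT h hG hb (hQo.left hd2)
      obtain ⟨r, -, a1, a2⟩ := ((ev_two hK hP hQ hT h hG hb (h1 p s he) (hH'.1.2.1 _ he) ht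
        (hQo.left hd2) hd2).and h.1 hG.1 (ev_fm hK hP h.1 hG (hK.mem ht hT) hD hd1)).ex hG.1
      exact absurd (by simpa using a2) (a _ a1)

theorem TwoOK.star_of {J : V} (hG : Generic K P G) (hb : b ∈ G)
    (hJ : Generic (Ext K G) (val G Q) J)
    (hext : ∀ E ∈ K, Po E → ∀ S, Generic K E S → ZFm (Ext K S) ∅) :
    Generic K (Two P b Q T) (Star (Two P b Q T) G J) ∧
      (∀ c ∈ G, ∃ p s, pair p s ∈ Star (Two P b Q T) G J ∧ pair p c ∈ P) ∧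
      Ext (Ext K G) J ⊆ Ext K (Star (Two P b Q T) G J) := by
  have hX := h.2.2.1
  have hE : Two P b Q T ∈ K := tm4 (K := ZF) (t := fun _ P b Q T => Two P b Q T) hK hP
    (mem_of_pair_left hK.trans (hK.mem h.2.1 hP)) hQ hT
  have h1 : ∀ j ∈ J, ∃ s ∈ T, val G s = j ∧ ∀ c ∈ G, ∃ p,
      pair p s ∈ Star (Two P b Q T) G J ∧ pair p c ∈ P := fun j hj => by
    obtain ⟨s, hs, rfl⟩ := cover' hK hP hQ hT h hG hb (hJ.1.2.1 j hj)
    refine ⟨s, hs, rfl, fun c hc => ?_⟩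
    obtain ⟨p, hp, a1, a2⟩ := ((ev_cond hK hP hQ hT h hG hb hs (hJ.1.2.1 _ hj)).and h.1 hG.1
      (ev_le hc)).ex hG.1
    exact ⟨p, (mem_Star hX.po).2 ⟨a1, p, s, rfl, hp, hj⟩, a2⟩
  have h2 : ∀ c ∈ G, ∃ p s, pair p s ∈ Star (Two P b Q T) G J ∧ pair p c ∈ P := fun c hc => by
    obtain ⟨j, hj⟩ := filt_ne hJ.1
    obtain ⟨s, -, -, a⟩ := h1 j hj
    obtain ⟨p, a⟩ := a c hc
    exact ⟨p, s, a⟩
  have h3 : ∀ p s, pair p s ∈ Star (Two P b Q T) G J → p ∈ G ∧ val G s ∈ J := fun p s he => by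
    obtain ⟨-, _, _, e, a⟩ := (mem_Star hX.po).1 he
    obtain ⟨rfl, rfl⟩ := pair_inj.1 e
    exact a
  have hgen : Generic K (Two P b Q T) (Star (Two P b Q T) G J) := by
    refine ⟨⟨?_, fun e he => ((mem_Star hX.po).1 he).1, fun e he e' he' => ?_,
      fun e he e' he' => ?_⟩, fun D hD hd => ?_⟩
    · obtain ⟨p, s, a, -⟩ := h2 b hb
      exact ne_of_mem a
    · obtain ⟨-, p, s, rfl, a1, a2⟩ := (mem_Star hX.po).1 he
      obtain ⟨p', s', rfl, -⟩ := hX.fst e' (hX.po.right he')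
      exact (mem_Star hX.po).2 ⟨hX.po.right he', p', s', rfl,
        hG.1.2.2.1 p a1 p' (hX.le _ _ _ _ he'),
        hJ.1.2.2.1 _ a2 _ (sound' hK hP hQ hT h hG a1 he')⟩
    · obtain ⟨a0, p, s, rfl, a1, a2⟩ := (mem_Star hX.po).1 he
      obtain ⟨b0, p', s', rfl, b1, b2⟩ := (mem_Star hX.po).1 he'
      obtain ⟨j, hj, c1, c2⟩ := hJ.1.2.2.2 _ a2 _ b2
      obtain ⟨t, ht, rfl⟩ := cover' hK hP hQ hT h hG hb (hJ.1.2.1 j hj)
      obtain ⟨r, hr, d1, d2⟩ := ((ev_two hK hP hQ hT h hG hb a1 a0 ht (hJ.1.2.1 _ hj) c1).and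
        h.1 hG.1 (ev_two hK hP hQ hT h hG hb b1 b0 ht (hJ.1.2.1 _ hj) c2)).ex hG.1
      exact ⟨_, (mem_Star hX.po).2 ⟨hX.po.left d1, r, t, rfl, hr, hj⟩, d1, d2⟩
    · have hD' : img (fun e => pair (snd e) (fst e)) D ∈ K :=
        tm1 (K := ZF) (t := fun _ D => img (fun e => pair (snd e) (fst e)) D) hK hD
      have hm : ∀ q, q ∈ val G (img (fun e => pair (snd e) (fst e)) D) ↔
          ∃ p s, pair p s ∈ D ∧ p ∈ G ∧ q = val G s := fun q => by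
        rw [mem_val]
        constructor
        · rintro ⟨s, p, a1, a2, a3⟩
          obtain ⟨e, he, a4⟩ := mem_img.1 a2
          obtain ⟨p', s', rfl, -⟩ := hX.fst e (hd.1 e he)
          simp only [fst_pair, snd_pair, pair_inj] at a4
          obtain ⟨rfl, rfl⟩ := a4
          exact ⟨_, _, he, a1, a3⟩
        · rintro ⟨p, s, a1, a2, a3⟩
          exact ⟨s, p, a2, mem_img.2 ⟨_, a1, by simp⟩, a3⟩
      obtain ⟨j, hj, a⟩ := hJ.2 _ ⟨_, hD', rfl⟩ ⟨fun q hq => by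
          obtain ⟨p, s, a1, a2, rfl⟩ := (hm q).1 hq
          exact sound' hK hP hQ hT h hG a2 (hd.1 _ a1), fun q hq => by
          obtain ⟨t, ht, rfl⟩ := cover' hK hP hQ hT h hG hb hq
          obtain ⟨p, hp, a1⟩ := (ev_cond hK hP hQ hT h hG hb ht hq).ex hG.1
          obtain ⟨r, hr, -, s, a2, a3⟩ := hG.meet hK hP h.1
            (cls3 (K := ZF) (S := fun _ E D e r => ∃ s, pair r s ∈ D ∧ pair (pair r s) e ∈ E) hK hE
              hD (mem_of_pair_left hK.trans (hK.mem a1 hE))) hp fun r hr => by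
              have a2 := hX.res _ _ _ a1 hr
              obtain ⟨e, he, a3⟩ := hd.2 _ (hX.po.left a2)
              obtain ⟨r', s, rfl, -⟩ := hX.fst e (hd.1 e he)
              exact ⟨r', hX.le _ _ _ _ a3, s, he, hX.po.trans a3 a2⟩
          exact ⟨_, (hm _).2 ⟨r, s, a2, hr, rfl⟩, sound' hK hP hQ hT h hG hr a3⟩⟩
      obtain ⟨p, s, a1, a2, rfl⟩ := (hm j).1 a
      exact ⟨_, (mem_Star hX.po).2 ⟨hd.1 _ a1, p, s, rfl, a2, hj⟩, a1⟩
  refine ⟨hgen, h2, ?_⟩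
  have hZ := hext _ hE hX.po _ hgen
  have hs : K ⊆ Ext K (Star (Two P b Q T) G J) := fun x hx =>
    ⟨_, tm2 (K := ZF) (t := fun _ E x => chk E x) hK hE hx, val_chk hgen.1 x⟩
  have hm : Star (Two P b Q T) G J ∈ Ext K (Star (Two P b Q T) G J) :=
    ⟨_, tm1 (K := ZF) (t := fun _ E => nmG E) hK hE, val_nmG hgen.1⟩
  have hG' : G ∈ Ext K (Star (Two P b Q T) G J) := by
    have := tm2 (K := ZF) (t := fun _ P S => ZFSet.sep (fun c => ∃ p s, pair p s ∈ S ∧ pair p c ∈ P)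
      (⋃₀ ⋃₀ P)) hZ (hs hP) hm
    convert this using 1
    ext c
    rw [mem_sep]
    exact ⟨fun hc => ⟨left_mem_sUnion (hG.1.2.1 c hc), h2 c hc⟩,
      fun ⟨_, p, s, a1, a2⟩ => hG.1.2.2.1 p (h3 p s a1).1 c a2⟩
  have hsub : Ext K G ⊆ Ext K (Star (Two P b Q T) G J) := by
    rintro _ ⟨τ, hτ, rfl⟩
    exact val_mem hZ hG' (hs hτ)
  have hJ' : J ∈ Ext K (Star (Two P b Q T) G J) := by
    have := tm3 (K := ZF) (t := fun _ Q G S => Quo Q G S) hZ (hsub ⟨Q, hQ, rfl⟩) hG' hm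
    convert this using 1
    ext j
    rw [mem_Quo]
    refine ⟨fun hj => ?_, fun ⟨p, s, a1, a2⟩ => hJ.1.2.2.1 _ (h3 p s a1).2 j a2⟩
    obtain ⟨s, -, rfl, a⟩ := h1 j hj
    obtain ⟨p, a, -⟩ := a b hb
    exact ⟨p, s, a, hJ.1.2.1 _ hj⟩
  rintro _ ⟨τ, hτ, rfl⟩
  exact val_mem hZ hJ' (hsub hτ)

theorem TwoOK.star {J : V} (hG : Generic K P G) (hb : b ∈ G)
    (hJ : Generic (Ext K G) (val G Q) J) :
    Generic K (Two P b Q T) (Star (Two P b Q T) G J) ∧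
      (∀ c ∈ G, ∃ p s, pair p s ∈ Star (Two P b Q T) G J ∧ pair p c ∈ P) ∧
      Ext (Ext K G) J ⊆ Ext K (Star (Two P b Q T) G J) :=
  TwoOK.star_of hK hP hQ hT h hG hb hJ fun _ hE hPo _ hS => ext_zfm hK hE hPo hS

end

end Pool.Agent.Lib.MP_329f2d_lc
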