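import Pool.Agent.Lib.MP_329f2d_lc.H59Defs

/-! The forcing axiom for the class given by Jensen's clause without the condition on hulls. -/

namespace Pool.Agent.Lib.MP_329f2d_lc

open ZFSet

/-- Jensen's condition for `P` at `θ` without the clause on hulls, read in `W` and required only
of the models `N = L_τ[A]` with `A ∈ N`. -/
def InfAt (W : Set V) (P θ : V) : Prop :=
  ∀ A ∈ W, ∀ τ ∈ W, ∀ N, IsOrdinal τ → N = Lh ∅ A τ → A ∈ N → ZFCm N A →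
  (∀ x, InH W θ x → x ∈ N) →
  ∀ M ∈ W, ∀ B ∈ W, ∀ σ ∈ W, Ctbl W M → Full W M → Elem σ M B N A →
  ∀ θ' P' s' s, pair θ' θ ∈ σ → pair P' P ∈ σ → pair s' s ∈ σ →
  ∀ H ∈ W, Generic M P' H →
  ∃ p, pair p p ∈ P ∧ ∀ G, Generic W P G → p ∈ G →
    ∃ σ' ∈ Ext W G, Elem σ' M B N A ∧ pair θ' θ ∈ σ' ∧ pair P' P ∈ σ' ∧ pair s' s ∈ σ' ∧
      ∀ x ∈ H, ∀ y, pair x y ∈ σ' → y ∈ G

/-- `P` satisfies the condition at all large `θ`. -/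
def InfC (W : Set V) (P : V) : Prop :=
  ∃ θ₀ ∈ W, IsOrdinal θ₀ ∧ ∀ θ, Card W θ → θ₀ ∈ θ → InH W θ P → InfAt W P θ

/-- The forcing axiom for all such `P` holds in `W`. -/
def InfFA (W : Set V) : Prop :=
  ∀ P ∈ W, Po P → InfC W P → ∀ w, Om1 W w → ∀ S ∈ W, ∀ f ∈ W, Onto f w S →
    (∀ D ∈ S, Dense P D) → ∃ G ∈ W, Filt P G ∧ ∀ D ∈ S, ∃ p ∈ G, p ∈ D

end Pool.Agent.Lib.MP_329f2d_lc
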