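import Pool.Agent.Lib.MP_329f2d_lc.H38F
import Pool.Agent.Lib.MP_329f2d_lc.H43Defs

/-!
The forcing axiom without the clause on hulls holds in the generic extension.
-/

open ZFSet

set_option synthInstance.maxSize 100000

namespace Pool.Agent.Lib.MP_329f2d_lc

theorem InfFA.scfa {W : Set V} (h : InfFA W) : SCFA W := by
  rintro P hP hPo ⟨θ₀, h0, h1, h2⟩
  refine h P hP hPo ⟨θ₀, h0, h1, fun θ a1 a2 a3 A a4 τ a5 N a6 a7 a8 a9 a10 M b1 B b2 σ b3 b4 b5 b6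
    θ' P' s' s c1 c2 c3 H c4 c5 => ?_⟩
  obtain ⟨p, hp, hq⟩ := h2 θ a1 a2 a3 A a4 τ a5 N a6 a7 a8 a9 a10 M b1 B b2 σ b3 b4 b5 b6
    θ' P' s' s c1 c2 c3 H c4 c5
  refine ⟨p, hp, fun G g1 g2 => ?_⟩
  obtain ⟨σ', d1, d2, d3, d4, d5, d6, -⟩ := hq G g1 g2
  exact ⟨σ', d1, d2, d3, d4, d5, d6⟩

/-- Jensen's condition in the extension yields every instance of the relative condition whose
condition lies in the generic filter. -/
theorem relSub_inf {K : Set V} (hK : ZFm K ∅) (hc : K.Countable)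
    {w P G b Q T θ Z h N A M P' E' H' H c R u' A' s' s : V} (hP : P ∈ K) (hG : Generic K P G)
    (hw : w ∈ K) (hQ : Q ∈ K) (hT : T ∈ K) (ok : TwoOK P b Q T)
    (hsub : InfAt (Ext K G) (val G Q) θ) (hZ : ∀ x, InH (Ext K G) θ x → x ∈ val G Z) (hZh : Z ∈ h)
    (hN : N ∈ K) (hhN : h ⊆ N) (hA : LA N A) (hM : M ∈ K) (hMc : Ctbl K M) (hMz : ZFCm M ∅)
    (hP' : P' ∈ M) (hH' : H' ∈ K) (hH : H ∈ K) (gen : Generic M E' H') (proj : Proj P' H' H)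
    (full : Full w (ExtV M H)) (hc0 : ∃ s₀, pair (pair c s₀) (pair c s₀) ∈ Two P b Q T)
    (hcG : c ∈ G) (hR : R ∈ K) (nm : Nm P c (In3 R) M N H) (r1 : In3 R c P' P)
    (r2 : In3 R c E' (Two P b Q T)) (r3 : In3 R c u' (pair b (pair Q (pair T θ))))
    (r4 : In3 R c A' A) (r5 : In3 R c s' s) :
    ∃ p t, pair (pair p t) (pair p t) ∈ Two P b Q T ∧ pair p c ∈ P ∧ ∃ R' ∈ K,
      (∀ z ∈ R', ∃ r x y, z = pair r (pair x y)) ∧ Nm (Two P b Q T) (pair p t) (In3 R') M N H' ∧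
      In3 R' (pair p t) s' s := by
  have hPo := ok.1
  have hW := ext_zfm hK hP hPo hG
  have hKW := subset_ext hK hP hPo hG
  have hGW := self_mem_ext hK hP hPo hG
  obtain ⟨hm, hmG⟩ := Nm.emb hK hP hPo hG hcG hR hM hN nm
  set m : V → V → Prop := fun x y => ∃ r ∈ G, In3 R r x y with hmd
  have zM := hMz.1
  have zN := hA.1.1
  have mP : m P' P := ⟨c, hcG, r1⟩
  have mE : m E' (Two P b Q T) := ⟨c, hcG, r2⟩
  have mu : m u' (pair b (pair Q (pair T θ))) := ⟨c, hcG, r3⟩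
  have mA : m A' A := ⟨c, hcG, r4⟩
  have ms : m s' s := ⟨c, hcG, r5⟩
  have mb : m (fst u') b := by simpa using emb1 (K := ZF) (fun _ x => fst x) hm zM zN mu
  have mQ : m (fst (snd u')) Q := by
    simpa using emb1 (K := ZF) (fun _ x => fst (snd x)) hm zM zN mu
  have mT : m (fst (snd (snd u'))) T := by
    simpa using emb1 (K := ZF) (fun _ x => fst (snd (snd x))) hm zM zN mu
  have mθ : m (snd (snd (snd u'))) θ := by
    simpa using emb1 (K := ZF) (fun _ x => snd (snd (snd x))) hm zM zN mu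
  generalize fst u' = b' at mb
  generalize fst (snd u') = Q' at mQ
  generalize fst (snd (snd u')) = T' at mT
  generalize snd (snd (snd u')) = θ' at mθ
  obtain rfl : E' = Two P' b' Q' T' :=
    (hm.pe.uniq mE (emb4 (K := ZF) (fun _ a b c d => Two a b c d) hm zM zN mP mb mQ mT)).2 rfl
  have ok' : TwoOK P' b' Q' T' :=
    (pe4 (K := ZF) (fun _ a b c d => TwoOK a b c d) hm.pe zM zN hm.dom mP mb mQ mT).2 ok
  obtain ⟨-, genJ', hJ'⟩ := TwoOK.quo zM hP' (hm.dom _ _ mQ).1 (hm.dom _ _ mT).1 ok' gen proj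
  have genH : Generic M P' H := ok'.2.2.1.generic_proj zM hP' (hm.dom _ _ mE).1 ok'.1 gen proj
  have genN : Generic N P G := hG.mono fun y hy => hK.mem hy hN
  have PN := (hm.dom _ _ mP).2
  have hl := lift_emb zN PN hPo genN zM ok'.1 genH hm mP hmG
  set l : V → V → Prop := fun x y => ∃ σ τ, m σ τ ∧ x = val H σ ∧ y = val G τ with hld
  have lm : ∀ x y, m x y → l x y := fun x y a =>
    ⟨_, _, emb2 (K := ZF) (fun _ a b => chk a b) hm zM zN mP a, (val_chk genH.1 x).symm,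
      (val_chk hG.1 y).symm⟩
  have lG : l H G := ⟨_, _, emb1 (K := ZF) (fun _ a => nmG a) hm zM zN mP, (val_nmG genH.1).symm,
    (val_nmG hG.1).symm⟩
  have laM : LA M A' := (la_transfer hm.pe hMz hA.1 hm.dom mA).2 hA
  obtain ⟨B', hB'⟩ := laM.ext hP' ok'.1 genH
  obtain ⟨B, lB⟩ := hl.total B' hB'.2.1
  have zN1 := ext_zfcm zN PN hPo genN hA.1
  have hB : LA (Ext N G) B := (la_transfer hl.pe hB'.1 zN1 hl.dom lB).1 hB'
  have o1 := ext_ord zM hP' ok'.1 genH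
  have o2 := ext_ord zN PN hPo genN
  have s1 := subset_ext zM hP' ok'.1 genH
  have s2 := subset_ext zN PN hPo genN
  rw [← coe_ExtV] at hl hB' hB zN1 o1 o2 s1 s2 genJ'
  rw [← coe_ExtV] at hl
  have hM1 : ExtV M H ∈ Ext K G := tm2 (K := ZF) (t := fun _ a b => ExtV a b) hW (hKW hM) (hKW hH)
  have hN1 : ExtV N G ∈ Ext K G := tm2 (K := ZF) (t := fun _ a b => ExtV a b) hW (hKW hN) hGW
  obtain ⟨τ, hτW, hτo, hτ⟩ := exists_ords hW hN1 fun x hx y hy => zN1.1.trans x hx y hy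
  have hσ := (cls5 (K := ZF) (S := fun _ M N R G H z => ∃ σ ∈ M, ∃ τ ∈ N,
    (∃ r ∈ G, In3 R r σ τ) ∧ fst z = val H σ ∧ snd z = val G τ) hW (hKW hM) (hKW hN) (hKW hR) hGW
    (hKW hH)).sep hW (tm2 (K := ZF) (t := fun _ a b => prod a b) hW hM1 hN1)
  set σ := ZFSet.sep _ (prod (ExtV M H) (ExtV N G)) with hσd
  have hσl : ∀ x y, pair x y ∈ σ ↔ l x y := by
    intro x y
    simp only [hσd, mem_sep, pair_mem_prod, fst_pair, snd_pair]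
    exact ⟨fun ⟨_, a, _, b, _, c⟩ => ⟨a, b, c⟩, fun h' => ⟨hl.dom _ _ h', by
      obtain ⟨a, b, c⟩ := h'
      exact ⟨a, (hm.dom _ _ c.1).1, b, (hm.dom _ _ c.1).2, c⟩⟩⟩
  have hel : Elem σ (ExtV M H) B' (ExtV N G) B := by
    refine elem_of_emb ?_ (fun z hz => ?_) ((hσl _ _).2 lB)
    · simpa only [hσl] using hl
    · obtain ⟨x, -, y, -, e⟩ := mem_prod.1 (mem_sep.1 hz).1
      exact ⟨x, y, e⟩
  have z1 := hB'.1.1
  have z2 := zN1.1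
  obtain ⟨q, hq, hq'⟩ := hsub B (hW.mem hB.2.1 hN1) τ hτW _ hτo (hB.eq_Lh hτ) hB.2.1
    (zfcm_pred zN1 hB.2.1) (fun x hx => z2.mem (hZ x hx) (mem_ExtV.2 ⟨Z, hhN hZh, rfl⟩))
    _ hM1 B' (hW.mem hB'.2.1 hM1) σ hσ (Ctbl.extV hW (hKW hM) (hKW hH) (hMc.mono hKW))
    (full.mono fun x hx => hKW (hK.mem hx hw)) hel θ' (val H Q')
    (pair A' (pair H (pair s' (Two P' b' Q' T')))) (pair A (pair G (pair s (Two P b Q T))))
    ((hσl _ _).2 (lm _ _ mθ)) ((hσl _ _).2 ⟨_, _, mQ, rfl, rfl⟩)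
    ((hσl _ _).2 (hl.opair z1 z2 (lm _ _ mA) (hl.opair z1 z2 lG
      (hl.opair z1 z2 (lm _ _ ms) (lm _ _ mE))))) _
    (tm3 (K := ZF) (t := fun _ Q H H' => Quo (val H Q) H H') hW
      (hKW (hK.mem (hm.dom _ _ mQ).1 hM)) (hKW hH) (hKW hH')) genJ'
  obtain ⟨s₀, hs₀⟩ := hc0
  have hbG : b ∈ G := hG.1.up hcG ((mem_Two hPo).1 hs₀).2.2.2.1
  have hQo : Po (val G Q) := H42.po_val hK hP hQ hT ok hG hbG (H42.ne_of_mem hq)
  obtain ⟨J, genJ, hqJ⟩ := exists_generic (K := Ext K G) (hc.image _) hQo hq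
  obtain ⟨σ', hσ', el', -, -, hpar, hJ⟩ := hq' J genJ hqJ
  obtain ⟨genS, hS1, hS2⟩ := TwoOK.star hK hP hQ hT ok hG hbG genJ
  have e' := el'.emb
  obtain ⟨a1, a⟩ := e'.unpair z1 z2 hpar
  obtain ⟨a2, a⟩ := e'.unpair z1 z2 a
  obtain ⟨a3, a4⟩ := e'.unpair z1 z2 a
  obtain ⟨p₁, t₁, b1, b2⟩ := hS1 c hcG
  have hX := ok.2.2.1
  obtain ⟨e, he, R', c1, c2, c3, c4⟩ := exists_Nm hc hK
    (tm4 (K := ZF) (t := fun _ P b Q T => Two P b Q T) hK hP (hK.left hP ok.2.1) hQ hT) hX.po genS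
    (hS2 hσ') hM hN hH' (e'.restrict_L z1 z2 laM hA s1 s2 o1 o2 a1) (fun x hx y hy => by
      have hx' := gen.1.cond hx
      obtain ⟨p', t', rfl, hp'⟩ := ok'.2.2.1.fst _ hx'
      have hxM := (e'.dom _ _ hy).1
      obtain ⟨p, d1⟩ := e'.total p' (mem_of_pair_left z1.trans hxM)
      obtain ⟨t, d2⟩ := e'.total t' (mem_of_pair_right z1.trans hxM)
      obtain rfl : y = pair p t := (e'.pe.uniq hy (e'.opair z1 z2 d1 d2)).1 rfl
      refine (H42.mem_Star hX.po).2 ⟨(e'.pe.mem_iff (e'.opair z1 z2 hy hy) a4).1 hx', p, t, rfl,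
        (e'.pe.mem_iff d1 a2).1 ((proj p').2 ⟨p', t', hx, hp'⟩), hJ _ (hJ' p' t' hx) _ ?_⟩
      exact emb2 (K := ZF) (fun _ a b => val a b) e' z1 z2 a2 d2) a3 (hm.dom _ _ ms).1 b1
  obtain ⟨p, t, rfl, -⟩ := hX.fst e (hX.po.left he)
  exact ⟨p, t, hX.po.left he, hPo.trans (hX.le _ _ _ _ he) b2, R', c1, c2, c3, c4⟩

theorem Pkg.inf_of {K : Set V} (hK : ZFC K) (hc : K.Countable) {w P I L N G : V}
    (h : Pkg K w P I L N) (hP : P ∈ K) (hG : Generic K P G) (hom : Om1 (Ext K G) w) :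
    InfFA (Ext K G) := by
  have zK := hK.1.1
  have hPo := h.po
  have hw := h.om.1
  have hWz := ext_zfc zK hP hPo hG hK
  have hW := hWz.1.1
  rintro _ ⟨Q, hQ, rfl⟩ hQo ⟨θ₀, hθ₀, ho, hsub⟩ w' hw' S hS _ ⟨f, hf, rfl⟩ hfo hD
  obtain rfl := Om1.unique hW hom hw'
  by_contra hno
  obtain ⟨θ, hθ, h1, h2⟩ := hWz.exists_inH hθ₀ ho (⟨Q, hQ, rfl⟩ : val G Q ∈ Ext K G)
  have hθK := ext_ord zK hP hPo hG θ hθ.1 hθ.2.1
  obtain ⟨_, ⟨Z, hZ, rfl⟩, hZ'⟩ := hWz.inH_bound hθ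
  obtain ⟨F, hF, hF'⟩ : (⋃₀ ⋃₀ val G Q : V) ∈ Ext K G := hW.fld ⟨Q, hQ, rfl⟩
  have hT := zK.fld hF
  set T : V := ⋃₀ ⋃₀ F with hTd
  obtain ⟨b₀, hb₀, hs⟩ := Df.forced_of_true (fun W (v : ℕ → V) =>
    (Po (v 1) ∧ ∀ q, pair q q ∈ v 1 → ∃ s ∈ v 3, val (v 0) s = q) ∧ Fn (v 2) ∧
      (∀ i ∈ v 4, ∃ D, pair i D ∈ v 2) ∧ (∀ i D, pair i D ∈ v 2 → Dense (v 1) D) ∧
      ¬ ∃ F ∈ W, Filt (v 1) F ∧ ∀ i ∈ v 4, ∀ D, pair i D ∈ v 2 → ∃ p ∈ F, p ∈ D) zK hP hPo hG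
    (v := cons (nmG P) (cons Q (cons f (cons (chk P T) fun _ => chk P w))))
    (cons_mem (nmG_mem zK hP) (cons_mem hQ (cons_mem hf (cons_mem (chk_mem zK hP hT)
      fun _ => chk_mem zK hP hw)))) (by
      show (Po (val G Q) ∧ ∀ q, pair q q ∈ val G Q → ∃ s ∈ val G (chk P T),
        val (val G (nmG P)) s = q) ∧ Fn (val G f) ∧
        (∀ i ∈ val G (chk P w), ∃ D, pair i D ∈ val G f) ∧
        (∀ i D, pair i D ∈ val G f → Dense (val G Q) D) ∧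
        ¬ ∃ F ∈ Ext K G, Filt (val G Q) F ∧ ∀ i ∈ val G (chk P w), ∀ D, pair i D ∈ val G f →
          ∃ p ∈ F, p ∈ D
      rw [val_chk hG.1, val_chk hG.1, val_nmG hG.1]
      refine ⟨⟨hQo, fun q hq => ?_⟩, hfo.fn, fun i hi => ⟨_, (isFunc_ap hfo.1 hi).1⟩,
        fun i D a => hD D (pair_mem_prod.1 (hfo.1.1 a)).2, fun ⟨F', a1, a2, a3⟩ =>
          hno ⟨F', a1, a2, fun D a4 => ?_⟩⟩
      · obtain ⟨σ, p, -, a, e⟩ := (mem_val _ _ _).1 (hF' ▸ left_mem_sUnion hq : q ∈ val G F)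
        exact ⟨σ, left_mem_sUnion a, e.symm⟩
      · obtain ⟨i, hi, a5⟩ := hfo.2 D a4
        exact a3 i hi D a5)
  have hs' : ∀ G', Generic K P G' → b₀ ∈ G' → (Po (val G' Q) ∧ ∀ q, pair q q ∈ val G' Q →
      ∃ s ∈ T, val G' s = q) ∧ Fn (val G' f) ∧ (∀ i ∈ w, ∃ D, pair i D ∈ val G' f) ∧
      (∀ i D, pair i D ∈ val G' f → Dense (val G' Q) D) ∧
      ¬ ∃ F ∈ Ext K G', Filt (val G' Q) F ∧ ∀ i ∈ w, ∀ D, pair i D ∈ val G' f →
        ∃ p ∈ F, p ∈ D := fun G' a b => by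
    have : (Po (val G' Q) ∧ ∀ q, pair q q ∈ val G' Q → ∃ s ∈ val G' (chk P T),
        val (val G' (nmG P)) s = q) ∧ Fn (val G' f) ∧
        (∀ i ∈ val G' (chk P w), ∃ D, pair i D ∈ val G' f) ∧
        (∀ i D, pair i D ∈ val G' f → Dense (val G' Q) D) ∧
        ¬ ∃ F ∈ Ext K G', Filt (val G' Q) F ∧ ∀ i ∈ val G' (chk P w), ∀ D, pair i D ∈ val G' f →
          ∃ p ∈ F, p ∈ D := hs G' a b
    rwa [val_chk a.1, val_chk a.1, val_nmG a.1] at this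
  have ok : ∀ b, pair b b₀ ∈ P → TwoOK P b Q T := fun b hb =>
    twoOK_of_sem hc zK hP hQ hT hPo (hPo.left hb) fun G' a a' => (hs' G' a (a.1.up a' hb)).1
  let t : V := tc (({omega, P, Z} : V) ∪ (img (fun b => Two P b Q T) (⋃₀ ⋃₀ P) ∪
    img (fun b => pair b (pair Q (pair T θ))) (⋃₀ ⋃₀ P)))
  have ht : t ∈ K := tm5 (K := ZF) (t := fun _ P Z Q T θ => tc (({omega, P, Z} : V) ∪
    (img (fun b => Two P b Q T) (⋃₀ ⋃₀ P) ∪ img (fun b => pair b (pair Q (pair T θ))) (⋃₀ ⋃₀ P))))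
    zK hP hZ hQ hT hθK
  obtain ⟨ρ, hρ, r1, r2, r3⟩ := hK.hartogs ht
  have bad : ∀ b, pair b b₀ ∈ P →
      ¬ RelSub K w P (Two P b Q T) t (pair b (pair Q (pair T θ))) ρ := by
    intro b hb hR
    have hbK := zK.left hP hb
    obtain ⟨D, d1, d2, d3, d4⟩ := two_dense hc zK hw (fun e => h.om.2.2.1 (.inl e)) hP hQ hT hf
      (ok b hb) fun G' a a' => (hs' G' a (a.1.up a' hb)).2
    refine h.nocx _ ?_ ⟨_, D, t, _, ρ, rfl, (ok b hb).2.2.1, d2, d3, tc_trans _,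
      subset_tc _ (by simp), subset_tc _ (by simp), subset_tc _ ?_, subset_tc _ ?_, r1, r2, r3,
      hR, d4⟩
    · exact zK.opair (tm4 (K := ZF) (t := fun _ P b Q T => Two P b Q T) zK hP hbK hQ hT)
        (zK.opair d1 (zK.opair ht (zK.opair (zK.opair hbK (zK.opair hQ (zK.opair hT hθK))) hρ)))
    · exact mem_union.2 (.inr (mem_union.2 (.inl (mem_img.2 ⟨b, left_mem_sUnion hb, rfl⟩))))
    · exact mem_union.2 (.inr (mem_union.2 (.inr (mem_img.2 ⟨b, left_mem_sUnion hb, rfl⟩))))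
  obtain ⟨c, hcG, -, b, hb, N', a1, -, a3, A, a4, M, a5, a6, a7, P', a8, E', -, H', a10, H, a11,
    a12, a13, a14, a15, R, a16, -, a18, u', A', s', s, a19, a20, a21, a22, a23, a24⟩ :=
    Generic.meet zK hP hPo hG (cls8 (K := ZF) (S := fun W w P Q T θ t ρ b₀ c => ∃ b,
      pair b b₀ ∈ P ∧ BadAt W w P (Two P b Q T) t (pair b (pair Q (pair T θ))) ρ c) zK hw hP hQ hT
      hθK ht hρ (Generic.mem zK hP hG hb₀)) hb₀ fun b hb => by
        obtain ⟨c, hc'⟩ := exists_badAt (bad b hb)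
        have hc'' := hc'
        obtain ⟨-, -, -, -, -, -, -, -, -, -, -, -, -, -, -, -, -, -, -, -, -, ⟨s₀, hs₀⟩, -⟩ := hc''
        exact ⟨c, ((mem_Two hPo).1 hs₀).2.2.2.1, b, hb, hc'⟩
  exact a24 (relSub_inf zK hc hP hG hw hQ hT (ok b hb) (hsub θ hθ h1 h2) hZ'
    (subset_tc _ (by simp)) a1 a3 a4 a5 a6 a7 a8 a10 a11 a12 a13 a14 a15 hcG a16 a18 a19 a20 a21
    a22 a23)

theorem final_inf (h : ∃ P I L N, Pkg Set.univ w1 P I L N) :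
    ∃ W : V, (W : Set V).Countable ∧ ZFC W ∧ InfFA W ∧ Kurepa W := by
  obtain ⟨_, _, _, _, h⟩ := h
  obtain ⟨K, w, P, I, L, N, hc, hK, hP, hI, hL, hN, h⟩ := exists_ctm_pkg h
  obtain ⟨p, hp⟩ : ∃ p, pair p p ∈ P := by
    obtain ⟨z, hz⟩ := (eq_empty_or_nonempty P).resolve_left h.po.1
    obtain ⟨p, _, -, hp, -⟩ := h.po.2.1 z hz
    exact ⟨p, hp⟩
  obtain ⟨G, hG, -⟩ := exists_generic hc h.po hp
  obtain ⟨W, hW⟩ := exists_coe_eq (S := Ext K G) (hc.image _)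
  refine ⟨W, ?_⟩
  rw [hW]
  exact ⟨hc.image _, ext_zfc hK.1.1 hP h.po hG hK, h.inf_of hK hc hP hG (h.om1 hK hc hP hG),
    h.kurepa hK hc hP hI hL hN hG⟩

end Pool.Agent.Lib.MP_329f2d_lc
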