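import Pool.Agent.Lib.MP_329f2d_lc.H59Defs2

/-! Localisation of relative subcompleteness: the argument, from a small collapsed hull. -/

namespace Pool.Agent.Lib.MP_329f2d_lc

open ZFSet Cardinal

theorem loc_left {h x y : V} (ht : IsTransitive h) (hxy : pair x y ∈ h) : x ∈ h :=
  ht ({x} : V) (ht _ hxy (by simp [pair])) (by simp)

theorem loc_right {h x y : V} (ht : IsTransitive h) (hxy : pair x y ∈ h) : y ∈ h :=
  ht ({x, y} : V) (ht _ hxy (by simp [pair])) (by simp)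

theorem loc_nat_mem_omega (n : ℕ) : (n : Ordinal.{0}).toZFSet ∈ omega := by
  induction n with
  | zero => simp
  | succ n ih =>
    rw [Nat.cast_succ, Ordinal.toZFSet_add_one]
    exact omega_succ ih

theorem loc_omega_infinite : ((omega : V) : Set V).Infinite :=
  Set.infinite_of_injective_forall_mem (f := fun n : ℕ => (n : Ordinal.{0}).toZFSet)
    (fun _ _ hab => by exact_mod_cast Ordinal.toZFSet_injective hab) loc_nat_mem_omega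

theorem loc_mk_le_of_onto {f a b : V} (hf : Onto f a b) : #(b : Set V) ≤ #(a : Set V) := by
  choose g hg hg' using hf.2
  refine mk_le_of_injective (f := fun y : (b : Set V) => (⟨g y.1 y.2, hg y.1 y.2⟩ : (a : Set V))) ?_
  intro y y' e
  have e' : g y.1 y.2 = g y'.1 y'.2 := congrArg Subtype.val e
  have h1 := hg' y.1 y.2
  have h2 := hg' y'.1 y'.2
  rw [← e'] at h2
  exact Subtype.ext ((hf.1.2 _ (hg y.1 y.2)).unique h1 h2)

theorem loc_exists_rank {t : V} (ht : ∀ x ∈ t, ∀ y ∈ x, y ∈ t) (β : Ordinal.{0}) :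
    ∀ y : V, y ∈ t → β ≤ rank y → ∃ z ∈ t, rank z = β := by
  intro y
  induction y using ZFSet.inductionOn with
  | _ y ih =>
    intro hy hβ
    rcases hβ.eq_or_lt with e | hlt
    · exact ⟨y, hy, e.symm⟩
    · obtain ⟨z, hz, hβz⟩ := lt_rank_iff.1 hlt
      exact ih z hz (ht y hy z hz) hβz

/-- A transitive set that is not larger than `h` has rank below every `ρ` that is not an image of
`h`. -/
theorem loc_rk_mem {h t ρ : V} (ht : ∀ x ∈ t, ∀ y ∈ x, y ∈ t) (hne : (t : Set V).Nonempty)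
    (hc : #(t : Set V) ≤ #(h : Set V)) (hρ : IsOrdinal ρ) (h0 : ρ ≠ ∅) (hb : ¬ ∃ f, Onto f h ρ) :
    rk t ∈ ρ := by
  classical
  have hiff : ∀ β : Ordinal.{0}, β.toZFSet ∈ ρ ↔ β < rank ρ := fun β => by
    rw [← Ordinal.toZFSet_mem_toZFSet_iff, hρ.toZFSet_rank_eq]
  refine (hiff _).2 (lt_of_not_ge fun hle => hb ?_)
  have hz : (∅ : V) ∈ ρ := by
    rw [← Ordinal.toZFSet_zero, hiff]
    obtain ⟨y, hy⟩ := (ZFSet.eq_empty_or_nonempty ρ).resolve_left h0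
    exact lt_of_le_of_lt (zero_le) (rank_lt_of_mem hy)
  obtain ⟨i⟩ := (Cardinal.le_def _ _).1 hc
  have : Nonempty (t : Set V) := hne.to_subtype
  let g : ↥(h : Set V) → ↥(t : Set V) := Function.invFun i
  have hg : Function.Surjective g := Function.invFun_surjective i.injective
  let k : V → V := fun x =>
    if hx : x ∈ h then (if rk (g ⟨x, hx⟩).1 ∈ ρ then rk (g ⟨x, hx⟩).1 else ∅) else ∅
  have hk : ∀ x, k x ∈ ρ := fun x => by
    simp only [k]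
    split_ifs with h1 h2
    exacts [h2, hz, hz]
  refine ⟨(prod h ρ).sep fun z => ∃ x, z = pair x (k x), ⟨fun z hz => (mem_sep.1 hz).1, ?_⟩, ?_⟩
  · intro x hx
    refine ⟨k x, mem_sep.2 ⟨pair_mem_prod.2 ⟨hx, hk x⟩, x, rfl⟩, ?_⟩
    intro y hy
    obtain ⟨x', e⟩ := (mem_sep.1 hy).2
    obtain ⟨rfl, rfl⟩ := pair_inj.1 e
    rfl
  · intro y hy
    have hy' : rank y < rank t := (rank_lt_of_mem hy).trans_le hle
    obtain ⟨z, hz, hle'⟩ := lt_rank_iff.1 hy'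
    obtain ⟨z', hz', e⟩ := loc_exists_rank ht _ z hz hle'
    obtain ⟨x, hx⟩ := hg ⟨z', hz'⟩
    have e2 : rk (g x).1 = y := by
      rw [hx]
      simp only [rk, e]
      exact (hρ.mem hy).toZFSet_rank_eq
    have e3 : k x.1 = y := by
      have hx' : x.1 ∈ h := x.2
      simp only [k, hx', dif_pos]
      rw [show (⟨x.1, hx'⟩ : (h : Set V)) = x from rfl, e2, if_pos hy]
    exact ⟨x.1, x.2, mem_sep.2 ⟨pair_mem_prod.2 ⟨x.2, hy⟩, x.1, by rw [e3]⟩⟩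

theorem PE.loc_unique {M N : Set V} {m : V → V → Prop} (h : PE M N m) {x y y' : V} (h1 : m x y)
    (h2 : m x y') : y = y' := by
  refine (h (.eq 0 1) (fun _ => x) (cons y fun _ => y') ?_).1 rfl
  rintro (_ | i)
  exacts [h1, h2]

/-- Small collapsed hulls of models of `V = L[A]`. -/
def SmallHulls : Prop :=
  ∀ (N A h : V) (T : Set V), LA N A → A ∈ T → T ⊆ N → (h : Set V) ⊆ T → IsTransitive h →
    ℵ₀ ≤ #(h : Set V) → #T ≤ #(h : Set V) →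
    ∃ (X : Set V) (π : V → V), T ⊆ X ∧ X ⊆ N ∧ #X ≤ #(h : Set V) ∧
      (∀ x ∈ π '' X, ∀ y ∈ x, y ∈ π '' X) ∧ Set.InjOn π X ∧
      (PE (π '' X) N fun a y => y ∈ X ∧ a = π y) ∧ (∀ x ∈ h, π x = x) ∧ LA (π '' X) (π A)

theorem RelSub.all_of (small : SmallHulls) {P E h u ρ : V} (H : RelSub Set.univ w1 P E h u ρ)
    (ht : IsTransitive h) (ho : omega ∈ h) (hP : P ∈ h) (hE : E ∈ h) (hu : u ∈ h)
    (hρ : IsOrdinal ρ) (h0 : ρ ≠ ∅) (hb : ¬ ∃ f, Onto f h ρ) (hPo : Po P) (ρ' : V) :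
    RelSub Set.univ w1 P E h u ρ' := by
  classical
  intro N _ _ hN A hA M _ hM hMz P' hP' E' hE' F' _ F _ hgen hproj hfull c hc R _ _ hR
    u' A' s' s rP rE ru rA rs
  have hcc : pair c c ∈ P := (hR.dom _ _ _ rP).1
  let S : Set V := {y | ∃ r x, pair r c ∈ P ∧ In3 R r x y}
  have hωh : #((omega : V) : Set V) ≤ #(h : Set V) := mk_le_mk_of_subset fun x hx => ht _ ho hx
  have hinf : ℵ₀ ≤ #(h : Set V) :=
    (Cardinal.infinite_iff.1 loc_omega_infinite.to_subtype).trans hωh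
  have hMh : #(M : Set V) ≤ #(h : Set V) := by
    rcases hM with e | ⟨f, -, hf⟩
    · have := hMz.1.omega
      rw [e] at this
      exact absurd this (notMem_empty _)
    · exact (loc_mk_le_of_onto hf).trans hωh
  have hS : #S ≤ #(h : Set V) := by
    have : ∀ y : S, ∃ z : ↥(h : Set V) × ↥(M : Set V), pair z.1.1 c ∈ P ∧ In3 R z.1.1 z.2.1 y.1 := by
      rintro ⟨y, r, x, h1, h2⟩
      exact ⟨⟨⟨r, loc_left ht (ht _ hP h1)⟩, ⟨x, (hR.dom _ _ _ h2).2.1⟩⟩, h1, h2⟩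
    choose g hg hg' using this
    have hinj : Function.Injective g := fun y y' e => by
      have h2 := hg' y'
      rw [← e] at h2
      exact Subtype.ext ((hR.pe _ (hg y)).loc_unique (hg' y) h2)
    refine (mk_le_of_injective hinj).trans ?_
    rw [mk_prod, lift_id, lift_id]
    exact (mul_le_mul_right hMh _).trans (mul_eq_self hinf).le
  have hT : #((h : Set V) ∪ S : Set V) ≤ #(h : Set V) :=
    (mk_union_le _ _).trans ((add_le_add_right hS _).trans (add_eq_self hinf).le)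
  have hTN : (h : Set V) ∪ S ⊆ N := by
    rintro y (hy | ⟨r, x, -, hy⟩)
    exacts [hN hy, (hR.dom _ _ _ hy).2.2]
  obtain ⟨X, π, hTX, hXN, hXc, htr, hinj, hpe, hfix, hLA⟩ :=
    small N A h (h ∪ S) hA (Or.inr ⟨c, A', hcc, rA⟩) hTN Set.subset_union_left ht hinf hT
  have hhX : ∀ x ∈ h, x ∈ X := fun x hx => hTX (Or.inl hx)
  have hSX : ∀ r x y, pair r c ∈ P → In3 R r x y → y ∈ X := fun r x y h1 h2 =>
    hTX (Or.inr ⟨r, x, h1, h2⟩)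
  let N₁ : V := range fun y : (N.sep fun y => y ∈ X) => π y.1
  have hN₁ : (N₁ : Set V) = π '' X := by
    ext a
    simp only [N₁, SetLike.mem_coe, mem_range, Set.mem_image]
    constructor
    · rintro ⟨y, rfl⟩
      exact ⟨y.1, (mem_sep.1 y.2).2, rfl⟩
    · rintro ⟨y, hy, rfl⟩
      exact ⟨⟨y, mem_sep.2 ⟨hXN hy, hy⟩⟩, rfl⟩
  have mN₁ : ∀ a, a ∈ N₁ ↔ a ∈ π '' X := fun a => by rw [← hN₁]; rfl
  have hhN₁ : h ⊆ N₁ := fun x hx => (mN₁ x).2 ⟨x, hhX x hx, hfix x hx⟩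
  have hrk : rk N₁ ∈ ρ := by
    refine loc_rk_mem (h := h) (fun x hx y hy => (mN₁ y).2 (htr x ((mN₁ x).1 hx) y hy))
      ⟨omega, hhN₁ ho⟩ ?_ hρ h0 hb
    rw [hN₁]
    exact mk_image_le.trans hXc
  let R₁ : V := (prod h (prod M N₁)).sep fun z =>
    ∃ r x y, z = pair r (pair x (π y)) ∧ pair r c ∈ P ∧ In3 R r x y
  have mR₁ : ∀ r x a, In3 R₁ r x a ↔ ∃ y, a = π y ∧ pair r c ∈ P ∧ In3 R r x y := by
    intro r x a
    constructor
    · intro hz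
      obtain ⟨r', x', y, e, h1, h2⟩ := (mem_sep.1 hz).2
      obtain ⟨rfl, e'⟩ := pair_inj.1 e
      obtain ⟨rfl, rfl⟩ := pair_inj.1 e'
      exact ⟨y, rfl, h1, h2⟩
    · rintro ⟨y, rfl, h1, h2⟩
      exact mem_sep.2 ⟨pair_mem_prod.2 ⟨loc_left ht (ht _ hP h1), pair_mem_prod.2
        ⟨(hR.dom _ _ _ h2).2.1, (mN₁ _).2 ⟨y, hSX _ _ _ h1 h2, rfl⟩⟩⟩, r, x, y, rfl, h1, h2⟩
  have hR₁ : Nm P c (In3 R₁) M N₁ F := by
    refine ⟨?_, ?_, ?_, ?_, ?_⟩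
    · intro r r' x a h1 h2
      obtain ⟨y, e, h3, h4⟩ := (mR₁ _ _ _).1 h1
      exact (mR₁ _ _ _).2 ⟨y, e, hPo.2.2 _ _ _ h2 h3, hR.mono _ _ _ _ h4 h2⟩
    · intro r x a h1
      obtain ⟨y, rfl, h3, h4⟩ := (mR₁ _ _ _).1 h1
      exact ⟨(hR.dom _ _ _ h4).1, (hR.dom _ _ _ h4).2.1, (mN₁ _).2 ⟨y, hSX _ _ _ h3 h4, rfl⟩⟩
    · intro r h1 x hx
      obtain ⟨r', y, h2, h3⟩ := hR.total r h1 x hx
      exact ⟨r', π y, h2, (mR₁ _ _ _).2 ⟨y, rfl, hPo.2.2 _ _ _ h2 h1, h3⟩⟩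
    · intro r h1 φ v w hvw
      choose y e _ hy using fun i => (mR₁ _ _ _).1 (hvw i)
      rw [hN₁, hR.pe r h1 φ v y hy]
      exact (hpe φ w y fun i => ⟨hSX _ _ _ h1 (hy i), e i⟩).symm
    · intro r h1 x hx a h2 r₁ h3
      obtain ⟨y, rfl, -, h4⟩ := (mR₁ _ _ _).1 h2
      obtain ⟨r₂, h5, h6⟩ := hR.gen r h1 x hx y h4 r₁ h3
      exact ⟨r₂, h5, by rwa [hfix y (loc_right ht (ht _ hP h6))]⟩
  obtain ⟨p, t, h1, h2, Q, -, -, hQ, hs⟩ := H N₁ trivial hrk hhN₁ (π A) (by rwa [hN₁]) M trivial hM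
    hMz P' hP' E' hE' F' trivial F trivial hgen hproj hfull c hc R₁ trivial
    (fun z hz => by
      obtain ⟨r, x, y, e, -⟩ := (mem_sep.1 hz).2
      exact ⟨r, x, π y, e⟩)
    hR₁ u' A' s' (π s) ((mR₁ _ _ _).2 ⟨P, (hfix P hP).symm, hcc, rP⟩)
    ((mR₁ _ _ _).2 ⟨E, (hfix E hE).symm, hcc, rE⟩) ((mR₁ _ _ _).2 ⟨u, (hfix u hu).symm, hcc, ru⟩)
    ((mR₁ _ _ _).2 ⟨A, rfl, hcc, rA⟩) ((mR₁ _ _ _).2 ⟨s, rfl, hcc, rs⟩)
  let R' : V := (prod h (prod M N)).sep fun z =>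
    ∃ e x y, z = pair e (pair x y) ∧ y ∈ X ∧ In3 Q e x (π y)
  have mR' : ∀ e x y, In3 R' e x y ↔ y ∈ X ∧ In3 Q e x (π y) := by
    intro e x y
    constructor
    · intro hz
      obtain ⟨e', x', y', q, h3, h4⟩ := (mem_sep.1 hz).2
      obtain ⟨rfl, q'⟩ := pair_inj.1 q
      obtain ⟨rfl, rfl⟩ := pair_inj.1 q'
      exact ⟨h3, h4⟩
    · rintro ⟨h3, h4⟩
      exact mem_sep.2 ⟨pair_mem_prod.2 ⟨loc_left ht (ht _ hE (hQ.dom _ _ _ h4).1), pair_mem_prod.2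
        ⟨(hQ.dom _ _ _ h4).2.1, hXN h3⟩⟩, e, x, y, rfl, h3, h4⟩
  refine ⟨p, t, h1, h2, R', trivial, fun z hz => ?_, ⟨?_, ?_, ?_, ?_, ?_⟩,
    (mR' _ _ _).2 ⟨hSX _ _ _ hcc rs, hs⟩⟩
  · obtain ⟨e, x, y, q, -⟩ := (mem_sep.1 hz).2
    exact ⟨e, x, y, q⟩
  · intro e e' x y h3 h4
    obtain ⟨h5, h6⟩ := (mR' _ _ _).1 h3
    exact (mR' _ _ _).2 ⟨h5, hQ.mono _ _ _ _ h6 h4⟩
  · intro e x y h3
    obtain ⟨h5, h6⟩ := (mR' _ _ _).1 h3
    exact ⟨(hQ.dom _ _ _ h6).1, (hQ.dom _ _ _ h6).2.1, hXN h5⟩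
  · intro e h3 x hx
    obtain ⟨e', a, h4, h5⟩ := hQ.total e h3 x hx
    obtain ⟨y, hy, rfl⟩ := (mN₁ a).1 (hQ.dom _ _ _ h5).2.2
    exact ⟨e', y, h4, (mR' _ _ _).2 ⟨hy, h5⟩⟩
  · intro e h3 φ v w hvw
    have h4 := fun i => (mR' _ _ _).1 (hvw i)
    rw [hQ.pe e h3 φ v (fun i => π (w i)) fun i => (h4 i).2, hN₁]
    exact hpe φ _ w fun i => ⟨(h4 i).1, rfl⟩
  · intro e h3 x hx y h4 e₁ h5
    obtain ⟨h6, h7⟩ := (mR' _ _ _).1 h4
    obtain ⟨e₂, h8, h9⟩ := hQ.gen e h3 x hx _ h7 e₁ h5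
    have h10 : π y ∈ h := loc_right ht (ht _ hE h9)
    exact ⟨e₂, h8, by rwa [hinj (hhX _ h10) h6 (hfix _ h10)] at h9⟩

end Pool.Agent.Lib.MP_329f2d_lc
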