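import Pool.Agent.Lib.MP_329f2d_lc.H55Mod
import Pool.Agent.Lib.MP_329f2d_lc.H2L

/-! Localisation of relative subcompleteness. -/

namespace Pool.Agent.Lib.MP_329f2d_lc

open ZFSet Cardinal

theorem smallHulls : SmallHulls := by
  intro N A h T hA hAT hTN hhT ht hinf hT
  obtain ⟨X, hTX, hXN, hXc, hsub, -⟩ :=
    exists_hull N T hTN ⟨A, hAT⟩ _ hinf hT fun _ _ _ => True
  obtain ⟨π, hπ⟩ := exists_col X
  obtain ⟨htr, hinj, hemb⟩ := col_emb hA.1.1.trans hsub hπ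
  refine ⟨X, π, hTX, hXN, hXc, htr, hinj, hemb.pe, fun x hx => ?_, ?_⟩
  · exact col_fix (T := h) hπ (fun x hx y hy => ht x hx hy) (hhT.trans hTX) x
      fun y hy => ht x hx hy
  · exact (la_transfer hemb.pe (hemb.zfcm htr ⟨_, A, hTX hAT, rfl⟩ hA.1) hA.1 hemb.dom
      ⟨hTX hAT, rfl⟩).2 hA

/-- Localisation. -/
theorem RelSub.all {P E h u ρ : V} (H : RelSub Set.univ w1 P E h u ρ) (ht : IsTransitive h)
    (ho : omega ∈ h) (hP : P ∈ h) (hE : E ∈ h) (hu : u ∈ h) (hρ : IsOrdinal ρ) (h0 : ρ ≠ ∅)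
    (hb : ¬ ∃ f, Onto f h ρ) (hPo : Po P) (ρ' : V) : RelSub Set.univ w1 P E h u ρ' :=
  H.all_of smallHulls ht ho hP hE hu hρ h0 hb hPo ρ'

end Pool.Agent.Lib.MP_329f2d_lc
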