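import Pool.Agent.Lib.MP_329f2d_lc.H85Rk
import Pool.Agent.Lib.MP_329f2d_lc.H58Nat
import Pool.Agent.Lib.MP_329f2d_lc.H55Mod

/-! Reflection of the iteration along a small embedding. -/

namespace Pool.Agent.Lib.MP_329f2d_lc.It

open ZFSet Order

set_option synthInstance.maxSize 4000

variable {R : O → V} {κ : O}

theorem Pos.rank_le {r U : V} (h : Pos r U) : rank U ≤ rank r :=
  rank_le_iff.2 fun d hd => (rank_left_lt d d).trans (rank_lt_of_mem ((h.1 d).1 hd).1)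

theorem rank_pair_lt {ζ : O} (hζ : IsSuccLimit ζ) {x y : V} (hx : rank x < ζ) (hy : rank y < ζ) :
    rank (pair x y) < ζ := by
  simp only [pair, rank_pair, rank_singleton, max_lt_iff]
  exact ⟨hζ.succ_lt (hζ.succ_lt hx), hζ.succ_lt (max_lt (hζ.succ_lt hx) (hζ.succ_lt hy))⟩

/-- The condition `e` of level `b` is constant from stage `y` on. -/
def CFrom (R : O → V) (b : O) (e : V) (y : O) : Prop :=
  ∀ x, y ≤ x → x < b → co e x = up R y x (co e y)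

theorem CFrom.le {b y : O} (h : Sys R b) (hL : LimSpec R b) {e e' : V} (he : pair e e ∈ R b)
    (he' : pair e' e' ∈ R b) (hc : CFrom R b e' y) (H : ∀ x ≤ y, co e x ⊆ co e' x) :
    pair e e' ∈ R b := by
  refine hL.le_of he he' fun x hx => ?_
  rcases le_total x y with h1 | h1
  · exact H x h1
  · rw [hc x h1 hx]
    exact (hL.nice he).1.sub_up_of h h1 hx (H y le_rfl)

theorem Thr.eq_cnst {b c y : O} (h : Sys R b) {g : O → V} (hg : Thr R b g) (hy : y < b)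
    (hc : ∀ x, y ≤ x → x < c → g x = up R y x (g y)) (hcb : c ≤ b) :
    ∀ x < c, g x = cnst R y (g y) x := by
  intro x hx
  rcases le_total x y with h1 | h1
  · rw [cnst_le h1, ← hg.coh x y h1 hy]
  · rw [h.cnst_ge h1 (hx.trans_le hcb) (hg.pos y hy).1, ← hc x h1 hx]

theorem Iter.reflect {k : Cardinal.{0}} (hk : Supercompact k) (H : Iter k.ord R) (x₀ : V)
    (Ψ : ℕ → List V → V → Prop) :
    ∃ (K : V) (X : Set V) (π : V → V) (ζ : O), ZFm K ∅ ∧ Sup K ∧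
      (∀ y : V, rank y ≤ rank x₀ → y ∈ K) ∧ (∀ y : V, rank y ≤ k.ord → y ∈ K) ∧
      x₀ ∈ X ∧ vonNeumann (rank x₀) ∈ X ∧ PP (R k.ord) ∈ X ∧
      X ⊆ K ∧ Sub X K ∧ Sk K X Ψ ∧ Col X π ∧
      ζ < k.ord ∧ Inacc ζ ∧ (∀ y : V, rank y < ζ ↔ y ∈ X ∧ rank y < k.ord) ∧ Sup (π '' X) ∧
      (∀ y ∈ X, rank (π y) < k.ord) ∧
      (∀ y ∈ X, ∀ y' ∈ X, rank (π y) < rank (π y') ↔ rank y < rank y') ∧
      (∀ y ∈ X, vonNeumann (rank y) ∈ X → ∀ z : V, rank z < rank (π y) → z ∈ π '' X) ∧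
      (∀ y : V, rank y < ζ → π y = y) ∧ π (PP (R k.ord)) = PP (R ζ) ∧
      (∀ U ∈ X, Pos (R k.ord) U → Pos (R ζ) (π U) ∧ up R ζ k.ord (π U) ⊆ U) ∧
      (∀ U', Pos (R ζ) U' → ∃ U ∈ X, Pos (R k.ord) U ∧ π U = U') := by
  have hκ := hk.inacc
  have hV : ∀ {γ : O} {K : V}, ZFm K ∅ → vonNeumann γ ∈ K → ∀ y : V, rank y < γ → y ∈ K :=
    fun hK h y hy => hK.trans _ h y (mem_vonNeumann.2 hy)
  obtain ⟨K, hK0, hK, hS⟩ := exists_sup_model (vonNeumann (succ (max (max (rank x₀) k.ord)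
    (max (rank (R k.ord)) (rank (PP (R k.ord)))))))
  replace hK0 := fun y hy => hV hK hK0 y (lt_succ_iff.2 hy)
  have k1 : ∀ y : V, rank y ≤ rank x₀ → y ∈ K := fun y hy =>
    hK0 y (hy.trans ((le_max_left _ _).trans (le_max_left _ _)))
  have k2 : ∀ y : V, rank y ≤ k.ord → y ∈ K := fun y hy =>
    hK0 y (hy.trans ((le_max_right _ _).trans (le_max_left _ _)))
  have k3 : R k.ord ∈ K := hK0 _ ((le_max_left _ _).trans (le_max_right _ _))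
  have k4 : PP (R k.ord) ∈ K := hK0 _ ((le_max_right _ _).trans (le_max_right _ _))
  let Φ : ℕ → V → V → V → Prop := fun j a b y =>
    (j = 0 ∧ y = R (rank a)) ∨ (j = 1 ∧ rank y < k.ord ∧ CFrom R k.ord a (rank y)) ∨
      (j = 2 ∧ y = pair (thr k.ord (cnst R (rank a) b)) ∅)
  obtain ⟨X, π, ζ, hT, hXK, hsub, hsk, hπ, hζκ, hζ, hr, hsup, r1, r2, r3⟩ :=
    small_emb hk K hK hS (k2 _ (rank_vonNeumann _).le)
      {x₀, vonNeumann (rank x₀), R k.ord, PP (R k.ord)} (Set.toFinite _).countable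
      (by
        rintro y (rfl | rfl | rfl | rfl)
        exacts [k1 _ le_rfl, k1 _ (rank_vonNeumann _).le, k3, k4])
      fun n l y => (∃ j, n = 2 * j ∧ Ψ j l y) ∨ ∃ j a b, n = 2 * j + 1 ∧ l = [a, b] ∧ Φ j a b y
  have hΨ : Sk K X Ψ := by
    rintro j l hl ⟨y, y1, y2⟩
    obtain ⟨z, z1, ⟨i, z2, z3⟩ | ⟨i, a, b, z2, -⟩⟩ := hsk _ l hl ⟨y, y1, .inl ⟨j, rfl, y2⟩⟩
    · exact ⟨z, z1, (show i = j by omega) ▸ z3⟩
    · omega
  have hΦ : ∀ j, ∀ a ∈ X, ∀ b ∈ X, ∀ y ∈ K, Φ j a b y → ∃ y ∈ X, Φ j a b y := by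
    intro j a ha b hb y y1 y2
    obtain ⟨z, z1, ⟨i, z2, -⟩ | ⟨i, a', b', z2, z3, z4⟩⟩ := hsk _ [a, b] (by simp [ha, hb])
      ⟨y, y1, .inr ⟨j, a, b, rfl, rfl, y2⟩⟩
    · omega
    · obtain ⟨rfl, rfl⟩ : a = a' ∧ b = b' := by simpa using z3
      exact ⟨z, z1, (show i = j by omega) ▸ z4⟩
  dsimp only [Φ] at hΦ
  clear hsk
  clear_value Φ
  generalize k.ord = κ at *
  have hRX : R κ ∈ X := hT (by simp)
  have hPX : PP (R κ) ∈ X := hT (by simp)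
  have sκ := H.sys κ
  have sζ := H.sys ζ
  have lκ := H.limSpec hκ.lim
  have lζ := H.limSpec hζ.lim
  have pκ := (H.lev κ).po
  have pζ := (H.lev ζ).po
  have hfix : ∀ y : V, rank y < ζ → π y = y := fun y hy =>
    col_fix (T := {y | rank y < ζ}) hπ (fun x hx z hz => (rank_lt_of_mem hz).trans hx)
      (fun x hx => ((hr x).1 hx).1) y fun z hz => (rank_lt_of_mem hz).trans hy
  have hoX : ∀ x < ζ, x.toZFSet ∈ X := fun x hx => ((hr _).1 (by simpa using hx)).1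
  have hRζ : ∀ x < ζ, rank (R x) < ζ := fun x hx => by
    have h1 := H.rank_lt hκ x (hx.trans hζκ)
    obtain ⟨y, y1, y2⟩ := hΦ 0 _ (hoX x hx) _ (hoX x hx) (R x) (k2 _ h1.le)
      (.inl ⟨rfl, by simp⟩)
    simp only [Ordinal.rank_toZFSet, true_and, OfNat.zero_ne_ofNat, false_and, or_false,
      zero_ne_one] at y2
    exact (hr _).2 ⟨y2 ▸ y1, h1⟩
  obtain ⟨htr, -, hemb⟩ := col_emb hK.trans hsub hπ
  have hM : ZF (π '' X) := hemb.zfm htr ⟨_, _, hRX, rfl⟩ hK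
  have hK' : ZF K := hK
  have epair : ∀ a ∈ X, ∀ b ∈ X, pair a b ∈ X ∧ pair (π a) (π b) = π (pair a b) :=
    fun a ha b hb => emb2 (K := ZF) (fun _ a b => pair a b) hemb hM hK' ⟨ha, rfl⟩ ⟨hb, rfl⟩
  have epair' : ∀ a b, pair a b ∈ X → a ∈ X ∧ b ∈ X := fun a b h =>
    ⟨by simpa using (emb1 (K := ZF) (fun _ a => fst a) hemb hM hK' ⟨h, rfl⟩).1,
      by simpa using (emb1 (K := ZF) (fun _ a => snd a) hemb hM hK' ⟨h, rfl⟩).1⟩
  have h0 : rank (∅ : V) < ζ := by simpa using hζ.lim.bot_lt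
  have hconst : ∀ e ∈ X, pair e e ∈ R κ → ∃ y < ζ, CFrom R κ e y := fun e he h1 => by
    obtain ⟨y, y1, y2⟩ := (lκ.nice h1).const hκ sκ (H.rank_lt hκ)
    obtain ⟨z, z1, z2⟩ := hΦ 1 e he e he y.toZFSet (k2 _ (by simpa using y1.le))
      (.inr (.inl ⟨rfl, by simpa using y1, by rw [Ordinal.rank_toZFSet]; exact y2⟩))
    simp only [one_ne_zero, false_and, true_and, false_or, OfNat.one_ne_ofNat, or_false] at z2
    exact ⟨_, (hr z).2 ⟨z1, z2.1⟩, z2.2⟩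
  have hπe : ∀ e ∈ X, pair e e ∈ R κ → π e = pair (thr ζ (co e)) ∅ := fun e he h1 => by
    obtain ⟨⟨h2, h3⟩, -⟩ := lκ.le_iff.1 h1
    have h4 := epair' _ _ (h3 ▸ he)
    conv_lhs => rw [h3]
    rw [← (epair _ h4.1 _ h4.2).2, hfix _ h0]
    congr 1
    have h5 : ∀ x < ζ, rank (pair x.toZFSet (co e x)) < ζ := fun x hx =>
      rank_pair_lt hζ.lim (by simpa using hx)
        ((h2.1.pos x (hx.trans hζκ)).rank_le.trans_lt (hRζ x hx))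
    ext z
    rw [hπ, mem_thr]
    constructor
    · rintro ⟨w, w1, w2, rfl⟩
      obtain ⟨x, hx, rfl⟩ := mem_thr.1 w1
      have h6 : x < ζ := by simpa using (hr _).2 ⟨(epair' _ _ w2).1, by simpa using hx⟩
      exact ⟨x, h6, hfix _ (h5 x h6)⟩
    · rintro ⟨x, hx, rfl⟩
      exact ⟨_, mem_thr.2 ⟨x, hx.trans hζκ, rfl⟩, ((hr _).1 (h5 x hx)).1, (hfix _ (h5 x hx)).symm⟩
  have hco : ∀ e ∈ X, pair e e ∈ R κ → ∀ x < ζ, co (π e) x = co e x := fun e he h1 x hx => by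
    rw [hπe e he h1, co_thr _ _ hx]
  have hcond : ∀ e ∈ X, pair e e ∈ R κ → pair (π e) (π e) ∈ R ζ := fun e he h1 => by
    obtain ⟨y, y1, y2⟩ := hconst e he h1
    have h2 := (lκ.nice h1).1
    rw [hπe e he h1]
    exact lζ.cond ((sζ.nice_cnst y1 (h2.pos y (y1.trans hζκ))).congr fun x hx =>
      h2.eq_cnst sκ (y1.trans hζκ) y2 le_rfl x (hx.trans hζκ))
  have hsurj : ∀ d, pair d d ∈ R ζ → ∃ e ∈ X, pair e e ∈ R κ ∧ π e = d := fun d hd => by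
    obtain ⟨⟨h2, h3⟩, -⟩ := lζ.le_iff.1 hd
    obtain ⟨y, y1, y2⟩ := h2.const hζ sζ hRζ
    have h4 := h2.1.pos y y1
    have h5 := lκ.cond (sκ.nice_cnst (y1.trans hζκ) h4)
    obtain ⟨z, z1, z2⟩ := hΦ 2 _ (hoX y y1) _ ((hr _).1 (h4.rank_le.trans_lt (hRζ y y1))).1 _
      (mem_of_pair_left hK.trans (hK.trans _ k3 _ h5)) (.inr (.inr ⟨rfl, by simp⟩))
    simp only [Ordinal.rank_toZFSet, OfNat.ofNat_ne_zero, false_and, OfNat.ofNat_ne_one,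
      true_and, false_or] at z2
    subst z2
    refine ⟨_, z1, h5, ?_⟩
    rw [hπe _ z1 h5]
    conv_rhs => rw [h3]
    rw [thr_congr fun x hx => (co_thr _ _ (hx.trans hζκ)).trans
      (h2.1.eq_cnst sζ y1 y2 le_rfl x hx).symm]
  have hR : π (R κ) = R ζ := by
    ext z
    rw [hπ]
    constructor
    · rintro ⟨w, w1, w2, rfl⟩
      obtain ⟨e, e', rfl, h1, h2⟩ := pκ.2.1 w w1
      obtain ⟨h3, h4⟩ := epair' _ _ w2
      rw [← (epair _ h3 _ h4).2]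
      refine lζ.le_of (hcond e h3 h1) (hcond e' h4 h2) fun x hx => ?_
      rw [hco e h3 h1 x hx, hco e' h4 h2 x hx]
      exact (lκ.le_iff.1 w1).2.2 x (hx.trans hζκ)
    · intro hz
      obtain ⟨d, d', rfl, h1, h2⟩ := pζ.2.1 z hz
      obtain ⟨e, e1, e2, rfl⟩ := hsurj d h1
      obtain ⟨e', e3, e4, rfl⟩ := hsurj d' h2
      obtain ⟨y, y1, y2⟩ := hconst e' e3 e4
      refine ⟨pair e e', y2.le sκ lκ e2 e4 fun x hx => ?_, (epair _ e1 _ e3).1, (epair _ e1 _ e3).2⟩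
      rw [← hco e e1 e2 x (hx.trans_lt y1), ← hco e' e3 e4 x (hx.trans_lt y1)]
      exact (lζ.le_iff.1 hz).2.2 x (hx.trans_lt y1)
  have hpos : ∀ U ∈ X, Pos (R ζ) (π U) ↔ Pos (R κ) U := fun U hU =>
    pe2 (K := ZF) (fun _ r U => (∀ d, d ∈ U ↔ pair d d ∈ r ∧ ∀ e, pair e d ∈ r →
      ∃ e', pair e' e ∈ r ∧ e' ∈ U) ∧ ∃ d, d ∈ U) hemb.pe hM hK' hemb.dom ⟨hRX, hR.symm⟩ ⟨hU, rfl⟩
  have hss : ∀ U ∈ X, ∀ W ∈ X, π U ⊆ π W ↔ U ⊆ W := fun U hU W hW =>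
    pe2 (K := ZF) (fun _ U W => U ⊆ W) hemb.pe hM hK' hemb.dom ⟨hU, rfl⟩ ⟨hW, rfl⟩
  have hback : ∀ U', Pos (R ζ) U' → ∃ U ∈ X, Pos (R κ) U ∧ π U = U' := fun U' h1 => by
    obtain ⟨U, hU, rfl⟩ := hsup _ (hM.union _ (hM.union _ ⟨_, hRX, hR⟩)) U'
      fun d hd => left_mem_sUnion (h1.1.cond pζ hd)
    exact ⟨U, hU, (hpos U hU).1 h1, rfl⟩
  refine ⟨K, X, π, ζ, hK, hS, k1, k2, hT (by simp), hT (by simp), hPX, hXK, hsub, hΨ, hπ, hζκ, hζ,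
    hr, hsup, r1, r2, r3, hfix, ?_, fun U hU h1 => ⟨(hpos U hU).2 h1, fun e he => ?_⟩, hback⟩
  · ext z
    rw [hπ, mem_PP' pζ]
    constructor
    · rintro ⟨w, w1, w2, rfl⟩
      obtain ⟨U, W, rfl, h1, h2, h3⟩ := (mem_PP' pκ).1 w1
      obtain ⟨h4, h5⟩ := epair' _ _ w2
      exact ⟨_, _, (epair _ h4 _ h5).2.symm, (hpos U h4).2 h1, (hpos W h5).2 h2,
        (hss U h4 W h5).2 h3⟩
    · rintro ⟨U', W', rfl, h1, h2, h3⟩
      obtain ⟨U, u1, u2, rfl⟩ := hback U' h1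
      obtain ⟨W, w1, w2, rfl⟩ := hback W' h2
      exact ⟨_, (mem_PP pκ).2 ⟨u2, w2, (hss U u1 W w1).1 h3⟩, (epair _ u1 _ w1).1,
        (epair _ u1 _ w1).2⟩
  · rw [mem_up, rho_lt hζκ] at he
    refine (h1.1 e).2 ⟨he.1, fun e' h2 => ?_⟩
    have h3 := (H.lev κ).pos ζ hζκ e' (pκ.left h2)
    obtain ⟨d, hd⟩ := h3.2
    obtain ⟨d₀, d1, d2, rfl⟩ := (hπ U d).1 (he.2 ((H.lev κ).mono ζ hζκ e' e h2 hd))
    have d3 := h1.1.cond pκ d1
    have d4 := hcond d₀ d2 d3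
    obtain ⟨e'', h4, h5⟩ := (H.lev κ).amal ζ hζκ e' _ (pκ.left h2) (pos_cl pζ d4)
      (h3.1.cl_sub pζ hd)
    obtain ⟨y, y1, y2⟩ := hconst d₀ d2 d3
    refine ⟨e'', h4, h1.1.down pκ d1 (y2.le sκ lκ (pκ.left h4) d3 fun x hx => ?_)⟩
    have hx' := hx.trans_lt y1
    rw [(H.lev κ).coh x ζ hx' hζκ e'' (pκ.left h4), ← hco d₀ d2 d3 x hx', ← rho_lt (R := R) hx',
      ← sκ.pr_cl hx'.le hζκ d4]
    exact pr_mono h5

end Pool.Agent.Lib.MP_329f2d_lc.It
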