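import Pool.Agent.Lib.MP_329f2d_lc.H59Gen

/-! From a name at the last level to a countable bound. -/

namespace Pool.Agent.Lib.MP_329f2d_lc.It

open ZFSet Order

variable {κ : O} {R : O → V}

/-- The relations used at the last level. -/
def FP (κ : O) (R : O → V) (F : V) (i k : ℕ) : R6 := fun a _ _ _ _ y => match i with
  | 0 => (∃ ξ, In3 F (cl (R κ) y) (nat k) ξ) ∨ ¬ ∃ q ξ, q ⊆ cl (R κ) y ∧ In3 F q (nat k) ξ
  | 1 => In3 F a (nat k) y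
  | _ => ¬ ∃ q ξ, q ⊆ a ∧ In3 F q (nat k) ξ

namespace GC

variable {C : GC κ R} {τ a0 a c : V} {Rel : V → V → V → Prop} {l : List (V × V)}

theorem Good.bound {δ t F : V} (hT : C.TD δ t) (hP : ∀ i k, C.Tame (FP κ R F i k))
    (hF : FunNm (PP (R κ)) F omega w1) (h : C.Good τ a0 a c Rel l) (e : rank a0 = κ)
    {r n ξ : V} (hr : pair r c ∈ PP (R κ)) (H : In3 F r n ξ) : ξ ∈ δ := by
  have po := C.po κ
  have hd : ∀ {q x y}, In3 F q x y → Pos (R κ) q ∧ x ∈ omega ∧ y ∈ w1 := fun H => by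
    obtain ⟨_, _, h1, _, h2, e, h3⟩ := hF.dom _ H
    simp only [pair_inj] at e
    obtain ⟨rfl, rfl, rfl⟩ := e
    exact ⟨(cond_PP po).1 h3, h1, h2⟩
  obtain ⟨k, rfl⟩ := mem_omega.1 (hd H).2.1
  have ea : rank a = κ := h.tf (C.t0 18 0) h.s0 h.s0 h.s0 h.s0 h.s0 h.s0 e
  obtain ⟨y, -, -, y2, y3⟩ := (ga_fld h.ya h.le).dense h.ya h.le (hP 0 k) h.ya h.ya h.ya h.ya h.ya
    fun x hx => by
      rw [e] at hx ⊢
      by_cases hq : ∃ q ξ, q ⊆ cl (R κ) x ∧ In3 F q (nat k) ξ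
      · obtain ⟨q, ξ, h1, h2⟩ := hq
        obtain ⟨h3, d, h4⟩ := (hd h2).1
        obtain ⟨d', h5, h6⟩ := exists_le_of_mem_cl po (h1 h4)
        exact ⟨d', h6, .inl ⟨ξ, hF.mono _ _ _ _ h2 ((mem_PP po).2 ⟨pos_cl po (po.left h5),
          (hd h2).1, h3.cl_sub po (h3.down po h4 h5)⟩)⟩⟩
      · exact ⟨x, mem_fld.1 hx, .inr hq⟩
  obtain ⟨r1, -, r2⟩ := (mem_PP po).1 hr
  obtain ⟨r', p, a1, a2⟩ := (h.res (ea ▸ r1) r2).decide y3.1.x0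
  have hp : C.Y (cl (R κ) y) ∧ Rel r' (cl (R κ) y) p := by
    have := And.intro y3.1 (a2.dec List.mem_cons_self)
    rwa [e] at this
  have a3 := a2.gen a2.pos sub_rfl y3 (a2.dec List.mem_cons_self)
  have a4 := hF.mono _ _ _ _ H ((mem_PP po).2 ⟨ea ▸ a2.pos, r1, a1⟩)
  obtain y2 | y2 := y2
  · obtain ⟨η, b1, b2⟩ := C.sk (hP 1 k) hp.1 hp.1 hp.1 hp.1 hp.1 y2
    obtain ⟨r'', η', b3, b4⟩ := a2.decide (Ctx.Y.x0 b1)
    have b5 : Rel r'' η η' := b4.dec List.mem_cons_self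
    have hp' : C.Y (cl (R κ) y) ∧ Rel r'' (cl (R κ) y) p := ⟨hp.1, h.mono hp.2 b4.pos b3⟩
    have b6 : In3 F p (nat k) η' := b4.tf (hP 1 k) hp' hp' hp' hp' hp' ⟨b1, b5⟩ b2
    rw [Good.fix (hc_of_mem_w1 (hd b2).2.2) b1 b4 b5] at b6
    rw [hF.uniq _ _ _ _ a4 (hF.mono _ _ _ _ b6 ((mem_PP po).2 ⟨(hd a4).1, (hd b6).1, a3⟩))]
    exact hT.d0 _ (hd b2).2.2 b1
  · exact absurd ⟨r', ξ, a3, a4⟩ (a2.tf (hP 2 k) hp hp hp hp hp hp y2)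

end GC

end Pool.Agent.Lib.MP_329f2d_lc.It
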