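import Pool.Agent.Lib.MP_329f2d_lc.H59Gen
import Pool.Agent.Lib.MP_329f2d_lc.H5Tree
import Pool.Agent.Lib.MP_329f2d_lc.H58Set

/-! The condition of the tree forcing above the countable model, and the tree step. -/

namespace Pool.Agent.Lib.MP_329f2d_lc.It

open ZFSet Order

variable {κ : O} {R : O → V}

/-- The relations used in this module. -/
def FB (κ : O) (R : O → V) (i _k : ℕ) : R6 := fun a b c _ _ y => match i with
  | 0 => True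
  | 1 => succ (rank a) = rank y
  | 2 => ∃ p α x, TN R (rank a) p (pair α x) ∧ b ⊆ α ∧ y = sk R (rank a) p (pair α x)
  | 3 => ∃ p α x t, y = pair p (pair α (pair x t)) ∧ Pos (R (rank a)) p ∧ x ∈ t ∧ TC α t ∧
      p ⊆ up R 0 (rank a) (cl Tr0 (pair α t)) ∧ b ⊆ α ∧ c = sk R (rank a) p (pair α x)
  | 4 => ∃ s p, rank s < κ ∧ ¬ IsSuccLimit (rank s) ∧ TN R (rank s) p a ∧
      cl (R κ) y ⊆ up R (succ (rank s)) κ (cl (R (succ (rank s))) (sk R (rank s) p a))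
  | 5 => ∃ s p, y = pair s p ∧ rank s < κ ∧ ¬ IsSuccLimit (rank s) ∧ TN R (rank s) p a ∧
      cl (R κ) b ⊆ up R (succ (rank s)) κ (cl (R (succ (rank s))) (sk R (rank s) p a))
  | 6 => ¬ IsSuccLimit (rank a)
  | 7 => TN R (rank a) b c
  | _ => y = sk R (rank a) b c

theorem HC.insert {x y : V} (h : HC x) (h' : HC y) : HC (insert x y) := by
  obtain ⟨_, h1, h2⟩ := h'
  refine ⟨_, by simpa using h1.insert x, fun z hz => ?_⟩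
  rcases mem_insert_iff.1 hz with rfl | hz
  exacts [h, h2 z hz]

theorem HC.singleton {x : V} (h : HC x) : HC {x} :=
  ⟨_, by simp, fun z hz => mem_singleton.1 hz ▸ h⟩

theorem HC.pair {x y : V} (h : HC x) (h' : HC y) : HC (pair x y) :=
  h.singleton.insert (h.insert h'.singleton).singleton

theorem stp_T {a : O} (h : ¬ IsSuccLimit a) : Stp R κ a = ET R a := if_neg h

namespace GC

variable {C : GC κ R} {a0 a c b0 b : V} {Rel : V → V → V → Prop} {l : List (V × V)}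

theorem y_cl0 {e : V} (h : C.Y e) : C.Y (cl Tr0 e) := by
  have := y_cl y_empty h
  rwa [rank_empty, C.it.zero] at this

theorem Ga.zero {o : O} {p e : V} (h : C.Ga o p) (ho : o ≤ κ) (he : C.Y e)
    (hs : p ⊆ It.up R 0 o (cl Tr0 e)) : C.Ga 0 (cl Tr0 e) := by
  have := h.of_up (q := cl Tr0 e) y_empty
  rw [rank_empty, C.it.zero] at this
  exact this bot_le ho (y_cl0 he) (ro_cl po_Tr0 e) hs

theorem exists_node (hB : ∀ i k, C.Tame (FB κ R i k)) {q α : V} (ha : C.Y a0) (hb : C.Y b0)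
    (e : succ (rank a0) = rank b0) (hk : rank b0 ≤ κ) (hn : ¬ IsSuccLimit (rank a0))
    (hq : C.Ga (rank b0) q) (hα : α ∈ w1) (hα' : C.Y α) :
    ∃ p β x t, C.Y β ∧ C.Y x ∧ x ∈ t ∧ TC β t ∧ α ⊆ β ∧ TN R (rank a0) p (pair β x) ∧
      cl (R (rank b0)) (sk R (rank a0) p (pair β x)) ⊆ q ∧
      C.Ga (rank b0) (cl (R (rank b0)) (sk R (rank a0) p (pair β x))) ∧ C.Ga (rank a0) p ∧
      C.Ga 0 (cl Tr0 (pair β t)) := by
  obtain ⟨y, y1, y2, y3, y4⟩ := hq.dense hb hk (hB 2 0) ha hα' ha ha ha fun x hx => by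
    obtain ⟨p, β, z, h1, h2, h3⟩ := C.it.node_ext hn hα (e ▸ hq.2.1.cond (C.po _) hx)
    exact ⟨_, e ▸ h3, p, β, z, h1, h2, rfl⟩
  obtain ⟨_, u1, p, β, x, t, rfl, u2, u3, u4, u5, u6, rfl⟩ := C.sk (hB 3 0) ha hα' y2 ha ha (by
    obtain ⟨p, β, x, ⟨h1, β', x', t, e', h2⟩, h3, rfl⟩ := y3
    obtain ⟨rfl, rfl⟩ := pair_inj.1 e'
    exact ⟨_, p, β, x, t, rfl, h1, h2.1, h2.2.1, h2.2.2, h3, rfl⟩)
  have hT : TN R (rank a0) p (pair β x) := ⟨u2, β, x, t, rfl, u3, u4, u5⟩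
  have u1 : C.Y _ := u1
  have hab : rank a0 ≤ rank b0 := e ▸ le_succ _
  have hp : C.Ga (rank a0) p := y4.of_up ha hab hk u1.left u2.1
    (e ▸ C.cl_sk_sub (by rw [stp_T hn]; exact cond_ET.2 hT))
  exact ⟨p, β, x, t, u1.right.left, u1.right.right.left, u3, u4, u6, hT,
    hq.2.1.cl_sub (C.po _) y1, y4, hp,
    hp.zero (hab.trans hk) (C.pair u1.right.left u1.right.right.right) u5⟩

variable (C)

/-- The node `(α, x)` lies on the generic branch added at stage `a0`. -/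
def On (a0 α x : V) : Prop := ∃ p, C.Y α ∧ TN R (rank a0) p (pair α x) ∧
  C.Ga (succ (rank a0)) (cl (R (succ (rank a0))) (sk R (rank a0) p (pair α x)))

/-- The height of the model. -/
noncomputable def ht : V := w1.sep fun α => α ∈ C.X

/-- The generic branch added at stage `a0`. -/
noncomputable def br (a0 : V) : V := C.ht.sep fun ξ => ∃ α x, C.On a0 α x ∧ ξ ∈ x

variable {C}

theorem mem_ht {α : V} : α ∈ C.ht ↔ α ∈ w1 ∧ C.Y α :=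
  mem_sep.trans (and_congr_right fun h =>
    ⟨fun h' => ⟨h', C.hB _ y_w1.2 _ (rank_lt_of_mem h).le⟩, fun h' => h'.1⟩)

theorem ht_trans : IsTransitive C.ht := fun _ h _ h' =>
  mem_ht.2 ⟨w1_ord.mem_trans h' (mem_ht.1 h).1,
    y_mem (mem_ht.1 h).2 (countable_of_mem_w1 (mem_ht.1 h).1) h'⟩

theorem ht_mem : C.ht ∈ w1 := by
  rw [← (isOrdinal_iff_forall_mem_isOrdinal.2 ⟨ht_trans, fun _ h =>
    w1_ord.mem (mem_ht.1 h).1⟩).rank_lt_iff_mem w1_ord, w1, Ordinal.rank_toZFSet]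
  exact rank_lt_omega1 ht_trans (C.cnt.mono fun _ h => (mem_ht.1 h).2.1)

theorem On.eq {α x : V} (h : C.On a0 α x) (hk : rank a0 < κ) (hn : ¬ IsSuccLimit (rank a0)) :
    x = C.br a0 ∩ α := by
  obtain ⟨p, h1, h2, h3⟩ := h
  refine ZFSet.ext fun ξ => ⟨fun hξ => ?_, fun hξ => ?_⟩
  · obtain ⟨-, _, _, t, e, h4, h5, -⟩ := id h2
    obtain ⟨rfl, rfl⟩ := pair_inj.1 e
    have := h5.2.2.2 _ h4 hξ
    exact mem_inter.2 ⟨mem_sep.2 ⟨ht_trans _ (mem_ht.2 ⟨h5.1, h1⟩) this, _, _, ⟨p, h1, h2, h3⟩, hξ⟩,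
      this⟩
  · obtain ⟨-, β, z, ⟨p', -, h4, h5⟩, h6⟩ := mem_sep.1 (mem_inter.1 hξ).1
    obtain ⟨y, rfl, rfl⟩ := C.it.node_coh hn h2 h4 (h3.meets h5 (succ_le_of_lt hk))
    exact mem_inter.2 ⟨(mem_inter.1 h6).1, (mem_inter.1 hξ).2⟩

theorem exists_td (C : GC κ R) (hκ : Inacc κ) (hB : ∀ i k, C.Tame (FB κ R i k)) :
    ∃ δ t, C.TD δ t := by
  let t := (powerset C.ht).sep fun y => ∃ a0, (C.Y a0 ∧ rank a0 < κ ∧ ¬ IsSuccLimit (rank a0)) ∧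
    C.br a0 = y
  have ht : ∀ {y}, y ∈ t ↔ ∃ a0, (C.Y a0 ∧ rank a0 < κ ∧ ¬ IsSuccLimit (rank a0)) ∧ C.br a0 = y :=
    mem_sep.trans (and_iff_right_of_imp fun ⟨_, _, e⟩ => e ▸ mem_powerset.2 sep_subset)
  have suc : ∀ {s}, C.Y s → ∃ s', C.Y s' ∧ succ (rank s) = rank s' := fun {s} h =>
    C.sk (hB 1 0) h h h h h ⟨{s}, (rank_singleton s).symm⟩
  have tc : TC C.ht t := by
    refine ⟨ht_mem, fun e => ?_,
      (C.cnt.image C.br).mono fun y hy => ?_, fun y hy => mem_powerset.1 (mem_sep.1 hy).1⟩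
    · have : C.br ∅ ∈ t := ht.2 ⟨∅, ⟨y_empty, by
        rw [rank_empty]; exact ⟨(Ordinal.omega_pos 1).trans hκ.om, not_isSuccLimit_bot⟩⟩, rfl⟩
      rw [e] at this
      exact notMem_empty _ this
    · obtain ⟨a0, h, e⟩ := ht.1 hy
      exact ⟨a0, h.1.1, e⟩
  refine ⟨C.ht, t, tc, fun α h h' => mem_ht.2 ⟨h, h'⟩, fun q hq => ?_, fun a0 h1 h2 h3 =>
    ⟨_, ht.2 ⟨a0, ⟨h1, h2, h3⟩, rfl⟩, fun p α x _ a1 _ a2 a3 => On.eq ⟨p, a1, a2, a3⟩ h2 h3⟩⟩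
  have y0 : C.Y ∅ := y_empty
  have := Ga.dense (C := C) (a := ∅) (q := q)
  rw [rank_empty, C.it.zero] at this
  have hr : RO Tr0 q := C.it.zero ▸ hq.2.1
  obtain ⟨y, y1, y2, -, y3⟩ := this hq y0 bot_le (hB 0 0) y0 y0 y0 y0 y0 fun x hx =>
    ⟨x, hr.cond po_Tr0 hx, trivial⟩
  obtain ⟨α, s, rfl, hs⟩ := cond_Tr0 (hr.cond po_Tr0 y1)
  refine sub_trans (cl_mono po_Tr0 (mem_Tr0.2 ⟨tc, hs, ht_trans _ (mem_ht.2 ⟨hs.1, y2.left⟩),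
    fun z => ⟨fun hz => ?_, ?_⟩⟩)) (hr.cl_sub po_Tr0 y1)
  · obtain ⟨k, k1, rfl⟩ := C.y_top
    have hn := C.pair y2.left (y_mem y2.right hs.2.2.1 hz)
    have h1 := Ga.up (C := C) (a := ∅) (b := k) (q := cl Tr0 (pair α s))
    rw [rank_empty] at h1
    replace h1 := h1 y3 y0 k1 bot_le le_rfl
    obtain ⟨e, -, e2, e3, e4⟩ := h1.dense k1 le_rfl (hB 4 0) hn y0 y0 y0 y0 fun x hx => by
      obtain ⟨o, o1, o2, p, r, o3, o4, o5, o6⟩ := C.it.fresh hκ hs hz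
        (pos_cl (C.po _) (h1.2.1.cond (C.po _) hx)) (h1.2.1.cl_sub (C.po _) hx)
      obtain ⟨d, hd⟩ := o4.2
      obtain ⟨d', d1, d2⟩ := exists_le_of_mem_cl (C.po _) (o5 hd)
      refine ⟨d', d2, o.toZFSet, p, ?_⟩
      rw [Ordinal.rank_toZFSet]
      exact ⟨o1, o2, o3, sub_trans (o4.1.cl_sub (C.po _) (o4.1.down (C.po _) hd d1)) o6⟩
    obtain ⟨_, u1, s0, p, rfl, u2, u3, u4, u5⟩ := C.sk (hB 5 0) hn e2 y0 y0 y0 (by
      obtain ⟨s0, p, h⟩ := e3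
      exact ⟨_, s0, p, rfl, h⟩)
    have u1 : C.Y _ := u1
    obtain ⟨s1, v1, v2⟩ := suc u1.left
    obtain ⟨_, v3, rfl⟩ := C.sk (hB 8 0) u1.left u1.right hn y0 y0 ⟨_, rfl⟩
    refine ⟨_, ht.2 ⟨s0, ⟨u1.left, u2, u3⟩, rfl⟩, On.eq ⟨p, y2.left, u4, ?_⟩ u2 u3⟩
    rw [v2] at u5 ⊢
    exact e4.of_up v1 (v2 ▸ succ_le_of_lt u2) le_rfl (y_cl v1 v3) (ro_cl (C.po _) _) u5
  · rintro ⟨_, hx, rfl⟩
    obtain ⟨a0, ⟨h1, h2, h3⟩, rfl⟩ := ht.1 hx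
    obtain ⟨b0, v1, v2⟩ := suc h1
    have hk : rank b0 ≤ κ := v2 ▸ succ_le_of_lt h2
    obtain ⟨p, β, x, t', w1, -, w2, w3, w4, w5, -, w6, -, w7⟩ :=
      exists_node hB h1 v1 v2 hk h3 (ga_fld v1 hk) hs.1 y2.left
    refine (tc_coh hs w3 w4 (y3.meets w7 bot_le) _).2 ⟨x, w2, ?_⟩
    rw [On.eq ⟨p, w1, w5, v2 ▸ w6⟩ h2 h3, inter_inter w4]

/-- The tree step. -/
theorem Good.step_T {δ t : V} (hT : C.TD δ t) (hB : ∀ i k, C.Tame (FB κ R i k))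
    (h : C.Good (pair δ t) a0 a c Rel l) (hb : C.Y b0) (hl : (b0, b) ∈ l)
    (e : succ (rank a0) = rank b0) (hk : rank b0 ≤ κ) (hn : ¬ IsSuccLimit (rank a0)) :
    ∃ c' Rel', C.Good (pair δ t) b0 b c' Rel' l ∧ c' ⊆ up R (rank a) (rank b) c := by
  have hn' : ¬ IsSuccLimit (rank a) := h.tf (hB 6 0) h.s0 h.s0 h.s0 h.s0 h.s0 h.s0 hn
  obtain ⟨y, y1, y2⟩ := hT.br a0 h.ya (succ_le_iff.1 (e ▸ hk)) hn
  refine h.lift (s := pair δ y) hb hl e hk ?_ fun q hq => ?_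
  · rw [stp_T hn']
    exact cond_ET.2 ⟨h.pos, δ, y, t, rfl, y1, hT.tc, h.tree⟩
  obtain ⟨p, β, x, t', w1, w2, w3, w4, -, w5, w6, w7, w8, -⟩ :=
    exists_node hB h.ya hb e hk hn hq empty_mem_w1 y_empty
  refine ⟨p, _, C.pair w1 w2, w8, w6, fun r p' s' g _ h2 p₁ s₁ h3 h4 => ?_⟩
  rw [stp_T hn'] at h3 ⊢
  have d : Rel r (pair β x) s' := g.dec (by simp)
  have h5 : TN R (rank a) p' s' := g.tf (hB 7 0) g.s0 ⟨w8.1, g.dec List.mem_cons_self⟩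
    ⟨C.pair w1 w2, d⟩ g.s0 g.s0 g.s0 w5
  obtain rfl := Good.fix ((hc_of_mem_w1 w4.1).pair ((hc_of_mem_w1 w4.1).sub (w4.2.2.2 x w3)))
    (C.pair w1 w2) g d
  exact mem_ET.2 ⟨(mem_ET.1 h3).1, h5, sub_trans h4 h2, (mem_ET.1 h3).2.2.2.trans (nle_iff.2
    ⟨(w1_ord.mem hT.tc.1).subset_of_mem (hT.d0 β w4.1 w1), y2 p β x w8.1 w1 w2 w5 (e ▸ w7)⟩)⟩

end GC

end Pool.Agent.Lib.MP_329f2d_lc.It
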