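import Pool.Agent.Lib.MP_329f2d_lc.H59Defs
import Pool.Agent.Lib.MP_329f2d_lc.SatEq

/-!
Uniform definability of predicates and terms over a class of transitive models.
-/

open ZFSet

namespace Pool.Agent.Lib.MP_329f2d_lc

@[simp] theorem cons_zero (x : V) (v : ℕ → V) : cons x v 0 = x := rfl
@[simp] theorem cons_succ (x : V) (v : ℕ → V) (n : ℕ) : cons x v (n + 1) = v n := rfl

theorem cons_mem {W : Set V} {x : V} {v : ℕ → V} (hx : x ∈ W) (hv : ∀ i, v i ∈ W) : ∀ i, cons x v i ∈ W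
  | 0 => hx
  | n + 1 => hv n

/-- Transitive classes. -/
def Trs (W : Set V) : Prop := ∀ x ∈ W, ∀ y ∈ x, y ∈ W

/-- A class of transitive classes. -/
class ClT (K : Set V → Prop) : Prop where
  tr : ∀ W, K W → Trs W

/-- A class of transitive models of ZF without power set. -/
class Cl (K : Set V → Prop) : Prop where
  zf : ∀ W, K W → ZFm W ∅

instance (K : Set V → Prop) [h : Cl K] : ClT K := ⟨fun W hW => (h.zf W hW).trans⟩

/-- Transitive models of ZF without power set. -/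
def ZF (W : Set V) : Prop := ZFm W ∅

instance : Cl ZF := ⟨fun _ h => h⟩

instance : ClT Trs := ⟨fun _ h => h⟩

/-- The predicate `P` is defined by one formula in all models of the class `K`. -/
class Df (K : Set V → Prop) {Γ : Type} (P : Set V → (Γ → V) → Prop) : Prop where
  ex : ∀ e : Γ → ℕ, ∃ φ : Fml, ∀ W, K W → ∀ v : ℕ → V, (∀ i, v i ∈ W) →
    (P W (fun i => v (e i)) ↔ Sat W ∅ φ v)

/-- The models of the class `K` are closed under the term `t`, whose graph is definable. -/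
class Tm (K : Set V → Prop) {Γ : Type} (t : Set V → (Γ → V) → V) : Prop where
  mem : ∀ W, K W → ∀ v : Γ → V, (∀ i, v i ∈ W) → t W v ∈ W
  df : Df K fun W (v : Option Γ → V) => v none = t W fun i => v (some i)

/-- Only members of the model satisfy `B`. -/
class Bd (K : Set V → Prop) {Γ : Type} (B : Set V → (Γ → V) → V → Prop) : Prop where
  bd : ∀ W, K W → ∀ v : Γ → V, (∀ i, v i ∈ W) → ∀ x, B W v x → x ∈ W

/-- All sets outside the model satisfy `B`. -/
class Va (K : Set V → Prop) {Γ : Type} (B : Set V → (Γ → V) → V → Prop) : Prop where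
  va : ∀ W, K W → ∀ v : Γ → V, (∀ i, v i ∈ W) → ∀ x, x ∉ W → B W v x

/-- `C` is a definable subclass of the model. -/
class Dc (K : Set V → Prop) {Γ : Type} (C : Set V → (Γ → V) → Set V) : Prop where
  sub : ∀ W, K W → ∀ v : Γ → V, (∀ i, v i ∈ W) → ∀ x ∈ C W v, x ∈ W
  df : Df K fun W (v : Option Γ → V) => v none ∈ C W fun i => v (some i)

variable {K : Set V → Prop} {Γ Δ : Type}

theorem Df.of_iff {P Q : Set V → (Γ → V) → Prop} [h : Df K Q]
    (e : ∀ W, K W → ∀ v : Γ → V, (∀ i, v i ∈ W) → (P W v ↔ Q W v)) : Df K P :=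
  ⟨fun f => (h.ex f).imp fun _ H W hW v hv => (e W hW _ fun _ => hv _).trans (H W hW v hv)⟩

theorem Df.mono {K' : Set V → Prop} {P : Set V → (Γ → V) → Prop} (h : Df K P) (hK : ∀ W, K' W → K W) :
    Df K' P := ⟨fun e => (h.ex e).imp fun _ H W hW => H W (hK W hW)⟩

theorem Tm.mono {K' : Set V → Prop} {t : Set V → (Γ → V) → V} (h : Tm K t) (hK : ∀ W, K' W → K W) :
    Tm K' t := ⟨fun W hW => h.mem W (hK W hW), h.df.mono hK⟩

theorem Df.ren {P : Set V → (Γ → V) → Prop} (h : Df K P) (f : Γ → Δ) :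
    Df K fun W (v : Δ → V) => P W fun i => v (f i) := ⟨fun e => h.ex fun i => e (f i)⟩

theorem Tm.of_eq {s t : Set V → (Γ → V) → V} [h : Tm K t]
    (e : ∀ W, K W → ∀ v : Γ → V, (∀ i, v i ∈ W) → s W v = t W v) : Tm K s :=
  ⟨fun W hW v hv => e W hW v hv ▸ h.mem W hW v hv,
    have := h.df
    Df.of_iff (Q := fun W (v : Option Γ → V) => v none = t W fun i => v (some i))
      fun W hW v hv => by rw [e W hW _ fun i => hv _]⟩

instance df_not (P : Set V → (Γ → V) → Prop) [h : Df K P] : Df K fun W v => ¬ P W v :=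
  ⟨fun e => by
    obtain ⟨φ, hφ⟩ := h.ex e
    exact ⟨.neg φ, fun W hW v hv => not_congr (hφ W hW v hv)⟩⟩

instance df_and (P Q : Set V → (Γ → V) → Prop) [h : Df K P] [h' : Df K Q] :
    Df K fun W v => P W v ∧ Q W v :=
  ⟨fun e => by
    obtain ⟨φ, hφ⟩ := h.ex e
    obtain ⟨ψ, hψ⟩ := h'.ex e
    exact ⟨.and φ ψ, fun W hW v hv => and_congr (hφ W hW v hv) (hψ W hW v hv)⟩⟩

instance df_or (P Q : Set V → (Γ → V) → Prop) [Df K P] [Df K Q] : Df K fun W v => P W v ∨ Q W v :=
  Df.of_iff (Q := fun W v => ¬ (¬ P W v ∧ ¬ Q W v)) fun _ _ _ _ => by tauto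

instance df_imp (P Q : Set V → (Γ → V) → Prop) [Df K P] [Df K Q] : Df K fun W v => P W v → Q W v :=
  Df.of_iff (Q := fun W v => ¬ (P W v ∧ ¬ Q W v)) fun _ _ _ _ => by tauto

instance df_iff (P Q : Set V → (Γ → V) → Prop) [Df K P] [Df K Q] : Df K fun W v => P W v ↔ Q W v :=
  Df.of_iff (Q := fun W v => (P W v → Q W v) ∧ (Q W v → P W v)) fun _ _ _ _ => iff_def

instance df_true : Df K fun _ (_ : Γ → V) => True :=
  ⟨fun _ => ⟨.eq 0 0, fun _ _ _ _ => by simp [Sat]⟩⟩

instance df_false : Df K fun _ (_ : Γ → V) => False :=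
  Df.of_iff (Q := fun _ _ => ¬ True) fun _ _ _ _ => by simp

theorem df_const (p : Prop) : Df K fun _ (_ : Γ → V) => p := by
  by_cases h : p
  · exact Df.of_iff (Q := fun _ _ => True) fun _ _ _ _ => by simp [h]
  · exact Df.of_iff (Q := fun _ _ => False) fun _ _ _ _ => by simp [h]

theorem df_exW (Q : Set V → (Γ → V) → V → Prop)
    [h : Df K fun W (v : Option Γ → V) => Q W (fun i => v (some i)) (v none)] :
    Df K fun W v => ∃ x ∈ W, Q W v x :=
  ⟨fun e => by
    obtain ⟨φ, hφ⟩ := h.ex fun o => o.elim 0 fun i => e i + 1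
    refine ⟨.ex φ, fun W hW v hv => exists_congr fun x => and_congr_right fun hx => ?_⟩
    exact hφ W hW (cons x v) (cons_mem hx hv)⟩

instance df_ex (Q : Set V → (Γ → V) → V → Prop) [h : Bd K Q]
    [Df K fun W (v : Option Γ → V) => Q W (fun i => v (some i)) (v none)] :
    Df K fun W v => ∃ x, Q W v x :=
  have := df_exW (K := K) Q
  Df.of_iff (Q := fun W v => ∃ x ∈ W, Q W v x) fun W hW v hv =>
    ⟨fun ⟨x, hx⟩ => ⟨x, h.bd W hW v hv x hx, hx⟩, fun ⟨x, hx⟩ => ⟨x, hx.2⟩⟩

instance df_all (Q : Set V → (Γ → V) → V → Prop) [h : Va K Q]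
    [Df K fun W (v : Option Γ → V) => Q W (fun i => v (some i)) (v none)] :
    Df K fun W v => ∀ x, Q W v x :=
  have := df_exW (K := K) fun W v x => ¬ Q W v x
  Df.of_iff (Q := fun W v => ¬ ∃ x ∈ W, ¬ Q W v x) fun W hW v hv => by
    push Not
    exact ⟨fun H x _ => H x, fun H x => (em (x ∈ W)).elim (H x) (h.va W hW v hv x)⟩

instance tm_var (i : Γ) : Tm K fun _ (v : Γ → V) => v i :=
  ⟨fun _ _ _ hv => hv i, ⟨fun e => ⟨.eq (e none) (e (some i)), fun _ _ _ _ => Iff.rfl⟩⟩⟩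

instance tm_ren (t : Set V → (Γ → V) → V) [h : Tm K t] (f : Γ → Δ) :
    Tm K fun W (v : Δ → V) => t W fun i => v (f i) :=
  ⟨fun W hW _ hv => h.mem W hW _ fun _ => hv _, h.df.ren (Option.map f)⟩

/-- Substitution of a term for a variable. -/
theorem Df.subst (Q : Set V → (Γ → V) → V → Prop)
    [h : Df K fun W (v : Option Γ → V) => Q W (fun i => v (some i)) (v none)]
    (t : Set V → (Γ → V) → V) [h' : Tm K t] : Df K fun W v => Q W v (t W v) := by
  have := h'.df
  have := df_exW (K := K) fun W v x => x = t W v ∧ Q W v x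
  exact Df.of_iff (Q := fun W v => ∃ x ∈ W, x = t W v ∧ Q W v x) fun W hW v hv =>
    ⟨fun H => ⟨_, h'.mem W hW v hv, rfl, H⟩, fun ⟨_, _, e, H⟩ => e ▸ H⟩

theorem Df.subst2 (Q : Set V → (Γ → V) → V → V → Prop)
    [h : Df K fun W (v : Option (Option Γ) → V) =>
      Q W (fun i => v (some (some i))) (v (some none)) (v none)]
    (s t : Set V → (Γ → V) → V) [Tm K s] [Tm K t] : Df K fun W v => Q W v (s W v) (t W v) := by
  have := Df.subst (K := K) (fun W (v : Option Γ → V) y => Q W (fun i => v (some i)) (v none) y)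
    fun W v => t W fun i => v (some i)
  exact Df.subst (fun W v x => Q W v x (t W v)) s

instance df_mem (s t : Set V → (Γ → V) → V) [Tm K s] [Tm K t] : Df K fun W v => s W v ∈ t W v :=
  have : Df K fun _ (v : Option (Option Γ) → V) => v (some none) ∈ v none :=
    ⟨fun e => ⟨.mem (e (some none)) (e none), fun _ _ _ _ => Iff.rfl⟩⟩
  Df.subst2 (fun _ _ x y => x ∈ y) s t

instance df_eq (s t : Set V → (Γ → V) → V) [Tm K s] [Tm K t] : Df K fun W v => s W v = t W v :=
  have : Df K fun _ (v : Option (Option Γ) → V) => v (some none) = v none :=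
    ⟨fun e => ⟨.eq (e (some none)) (e none), fun _ _ _ _ => Iff.rfl⟩⟩
  Df.subst2 (fun _ _ x y => x = y) s t

instance df_ne (s t : Set V → (Γ → V) → V) [Tm K s] [Tm K t] : Df K fun W v => s W v ≠ t W v :=
  df_not _

instance dc_W : Dc K fun W (_ : Γ → V) => W :=
  ⟨fun _ _ _ _ _ h => h, Df.of_iff (Q := fun _ _ => True) fun _ _ _ hv => iff_true_intro (hv _)⟩

instance dc_empty : Dc K fun _ (_ : Γ → V) => (∅ : Set V) :=
  ⟨fun _ _ _ _ _ h => h.elim, Df.of_iff (Q := fun _ _ => False) fun _ _ _ _ => Iff.rfl⟩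

instance dc_ren (C : Set V → (Γ → V) → Set V) [h : Dc K C] (f : Γ → Δ) :
    Dc K fun W (v : Δ → V) => C W fun i => v (f i) :=
  ⟨fun W hW _ hv => h.sub W hW _ fun _ => hv _, h.df.ren (Option.map f)⟩

instance df_memC (s : Set V → (Γ → V) → V) [Tm K s] (C : Set V → (Γ → V) → Set V) [h : Dc K C] :
    Df K fun W v => s W v ∈ C W v :=
  have := h.df
  Df.subst (fun W v x => x ∈ C W v) s

instance bd_C (C : Set V → (Γ → V) → Set V) [h : Dc K C] : Bd K fun W v x => x ∈ C W v :=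
  ⟨h.sub⟩

instance dc_setOf (B : Set V → (Γ → V) → V → Prop) [h : Bd K B]
    [h' : Df K fun W (v : Option Γ → V) => B W (fun i => v (some i)) (v none)] :
    Dc K fun W v => {x | B W v x} := ⟨h.bd, h'⟩

instance bd_eq (t : Set V → (Γ → V) → V) [h : Tm K t] : Bd K fun W v x => x = t W v :=
  ⟨fun W hW v hv _ e => e ▸ h.mem W hW v hv⟩

instance bd_eq' (t : Set V → (Γ → V) → V) [h : Tm K t] : Bd K fun W v x => t W v = x :=
  ⟨fun W hW v hv _ e => e ▸ h.mem W hW v hv⟩

instance bd_and_right (B C : Set V → (Γ → V) → V → Prop) [h : Bd K C] :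
    Bd K fun W v x => B W v x ∧ C W v x := ⟨fun W hW v hv x H => h.bd W hW v hv x H.2⟩

instance bd_and_left (B C : Set V → (Γ → V) → V → Prop) [h : Bd K B] :
    Bd K fun W v x => B W v x ∧ C W v x := ⟨fun W hW v hv x H => h.bd W hW v hv x H.1⟩

instance bd_or (B C : Set V → (Γ → V) → V → Prop) [h : Bd K B] [h' : Bd K C] :
    Bd K fun W v x => B W v x ∨ C W v x :=
  ⟨fun W hW v hv x H => H.elim (h.bd W hW v hv x) (h'.bd W hW v hv x)⟩

instance bd_ex (B : Set V → (Γ → V) → V → V → Prop) [h : ∀ y, Bd K fun W v x => B W v x y] :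
    Bd K fun W v x => ∃ y, B W v x y := ⟨fun W hW v hv x ⟨y, H⟩ => (h y).bd W hW v hv x H⟩

instance va_imp_right (B C : Set V → (Γ → V) → V → Prop) [h : Va K C] :
    Va K fun W v x => B W v x → C W v x := ⟨fun W hW v hv x H _ => h.va W hW v hv x H⟩

instance va_imp_left (B C : Set V → (Γ → V) → V → Prop) [h : Bd K B] :
    Va K fun W v x => B W v x → C W v x :=
  ⟨fun W hW v hv x H H' => absurd (h.bd W hW v hv x H') H⟩

instance va_not (B : Set V → (Γ → V) → V → Prop) [h : Bd K B] : Va K fun W v x => ¬ B W v x :=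
  ⟨fun W hW v hv x H H' => absurd (h.bd W hW v hv x H') H⟩

instance va_iff (B C : Set V → (Γ → V) → V → Prop) [h : Bd K B] [h' : Bd K C] :
    Va K fun W v x => B W v x ↔ C W v x :=
  ⟨fun W hW v hv x H => iff_of_false (fun H' => H (h.bd W hW v hv x H'))
    fun H' => H (h'.bd W hW v hv x H')⟩

instance va_all (B : Set V → (Γ → V) → V → V → Prop) [h : ∀ y, Va K fun W v x => B W v x y] :
    Va K fun W v x => ∀ y, B W v x y := ⟨fun W hW v hv x H y => (h y).va W hW v hv x H⟩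

variable [hK : ClT K]

instance bd_mem (t : Set V → (Γ → V) → V) [h : Tm K t] : Bd K fun W v x => x ∈ t W v :=
  ⟨fun W hW v hv _ hx => hK.tr W hW _ (h.mem W hW v hv) _ hx⟩

instance dc_coe (t : Set V → (Γ → V) → V) [h : Tm K t] : Dc K fun W v => (t W v : Set V) :=
  ⟨fun W hW v hv _ hx => hK.tr W hW _ (h.mem W hW v hv) _ hx,
    inferInstanceAs (Df K fun W (v : Option Γ → V) => v none ∈ t W fun i => v (some i))⟩

omit hK in
theorem mem_of_pair_left {W : Set V} {x y : V} (hW : Trs W) (h : pair x y ∈ W) : x ∈ W :=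
  hW _ (hW _ h _ (show ({x} : V) ∈ pair x y by simp [pair])) _ (by simp)

omit hK in
theorem mem_of_pair_right {W : Set V} {x y : V} (hW : Trs W) (h : pair x y ∈ W) : y ∈ W :=
  hW _ (hW _ h _ (show ({x, y} : V) ∈ pair x y by simp [pair])) _ (by simp)

/-- The value `u` lies in the model only if `x` does. -/
class Oc (u : Set V → (Γ → V) → V → V) : Prop where
  oc : ∀ W : Set V, Trs W → ∀ v x, u W v x ∈ W → x ∈ W

instance oc_pair_right (a u : Set V → (Γ → V) → V → V) [h : Oc u] :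
    Oc fun W v x => pair (a W v x) (u W v x) :=
  ⟨fun W hW v x H => h.oc W hW v x (mem_of_pair_right hW H)⟩

instance oc_pair_left (a u : Set V → (Γ → V) → V → V) [h : Oc u] :
    Oc fun W v x => pair (u W v x) (a W v x) :=
  ⟨fun W hW v x H => h.oc W hW v x (mem_of_pair_left hW H)⟩

instance oc_id : Oc fun _ (_ : Γ → V) x => x := ⟨fun _ _ _ _ h => h⟩

instance bd_pair_mem (a b : Set V → (Γ → V) → V → V) [h' : Oc fun W v x => pair (a W v x) (b W v x)]
    (t : Set V → (Γ → V) → V) [h : Tm K t] : Bd K fun W v x => pair (a W v x) (b W v x) ∈ t W v :=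
  ⟨fun W hW v hv x hx => h'.oc W (hK.tr W hW) v x (hK.tr W hW _ (h.mem W hW v hv) _ hx)⟩

instance bd_pair_memC (a b : Set V → (Γ → V) → V → V)
    [h' : Oc fun W v x => pair (a W v x) (b W v x)] (C : Set V → (Γ → V) → Set V) [h : Dc K C] :
    Bd K fun W v x => pair (a W v x) (b W v x) ∈ C W v :=
  ⟨fun W hW v hv x hx => h'.oc W (hK.tr W hW) v x (h.sub W hW v hv _ hx)⟩

instance bd_eq_pair (a b : Set V → (Γ → V) → V → V) [h' : Oc fun W v x => pair (a W v x) (b W v x)]
    (t : Set V → (Γ → V) → V) [h : Tm K t] : Bd K fun W v x => t W v = pair (a W v x) (b W v x) :=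
  ⟨fun W hW v hv x hx => h'.oc W (hK.tr W hW) v x (hx ▸ h.mem W hW v hv)⟩

instance bd_pair_eq (a b : Set V → (Γ → V) → V → V) [h' : Oc fun W v x => pair (a W v x) (b W v x)]
    (t : Set V → (Γ → V) → V) [h : Tm K t] : Bd K fun W v x => pair (a W v x) (b W v x) = t W v :=
  ⟨fun W hW v hv x hx => h'.oc W (hK.tr W hW) v x (hx ▸ h.mem W hW v hv)⟩

instance df_subset (s t : Set V → (Γ → V) → V) [Tm K s] [Tm K t] : Df K fun W v => s W v ⊆ t W v :=
  Df.of_iff (Q := fun W v => ∀ x ∈ s W v, x ∈ t W v) fun _ _ _ _ => Iff.rfl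

instance df_trans (s : Set V → (Γ → V) → V) [Tm K s] : Df K fun W v => (s W v).IsTransitive := by
  unfold IsTransitive; infer_instance

instance df_ord (s : Set V → (Γ → V) → V) [Tm K s] : Df K fun W v => (s W v).IsOrdinal :=
  Df.of_iff (Q := fun W v => (s W v).IsTransitive ∧ ∀ x ∈ s W v, x.IsTransitive)
    fun _ _ _ _ => isOrdinal_iff_forall_mem_isTransitive

/-- A term is definable if membership in it is. -/
theorem Tm.of_mem (t : Set V → (Γ → V) → V) (B : Set V → (Γ → V) → V → Prop)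
    [Df K fun W (v : Option Γ → V) => B W (fun i => v (some i)) (v none)]
    (h : ∀ W, K W → ∀ v : Γ → V, (∀ i, v i ∈ W) → t W v ∈ W)
    (hB : ∀ W, K W → ∀ v : Γ → V, (∀ i, v i ∈ W) → ∀ x ∈ W, x ∈ t W v ↔ B W v x) : Tm K t := by
  refine ⟨h, ?_⟩
  have : Df K fun W (v : Option (Option Γ) → V) => B W (fun i => v (some (some i))) (v none) :=
    (‹Df K fun W (v : Option Γ → V) => B W (fun i => v (some i)) (v none)›).ren
      (Option.map some)
  refine Df.of_iff (Q := fun W (v : Option Γ → V) => ∀ x ∈ W,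
    x ∈ v none ↔ B W (fun i => v (some i)) x) fun W hW v hv => ⟨fun e x hx => ?_, fun H => ?_⟩
  · rw [e, hB W hW _ (fun _ => hv _) x hx]
  · have h1 := h W hW _ fun i => hv (some i)
    ext x
    exact ⟨fun hx => (hB W hW _ (fun _ => hv _) x (hK.tr W hW _ (hv _) _ hx)).2
      ((H x (hK.tr W hW _ (hv _) _ hx)).1 hx), fun hx => (H x (hK.tr W hW _ h1 _ hx)).2
        ((hB W hW _ (fun _ => hv _) x (hK.tr W hW _ h1 _ hx)).1 hx)⟩

end Pool.Agent.Lib.MP_329f2d_lc
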