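import Pool.Agent.Lib.MP_329f2d_lc.H58Df

/-!
Classes with parameters, separation and collection for them, and the basic definable terms.
-/

open ZFSet

namespace Pool.Agent.Lib.MP_329f2d_lc

variable {K : Set V → Prop} {Γ Δ : Type} {W A : Set V}

theorem ZFm.empty (h : ZFm W A) : (∅ : V) ∈ W := h.trans _ h.omega _ omega_zero

theorem ZFm.mem (h : ZFm W A) {x y : V} (hx : x ∈ y) (hy : y ∈ W) : x ∈ W := h.trans _ hy _ hx

/-- `S` is a class of `W`: definable with parameters. -/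
def Cls (W : Set V) (S : V → Prop) : Prop :=
  ∃ (φ : Fml) (p : ℕ → V), (∀ i, p i ∈ W) ∧ ∀ x ∈ W, S x ↔ Sat W ∅ φ (cons x p)

theorem exists_env [Countable Γ] (h0 : (∅ : V) ∈ W) (v : Γ → V) (hv : ∀ i, v i ∈ W) :
    ∃ (e : Γ → ℕ) (p : ℕ → V), (∀ i, p i ∈ W) ∧ v = fun i => p (e i) := by
  obtain ⟨e, he⟩ := exists_injective_nat Γ
  refine ⟨e, Function.extend e v fun _ => ∅, fun n => ?_, funext fun i => (he.extend_apply _ _ i).symm⟩
  by_cases hn : ∃ i, e i = n
  · obtain ⟨i, rfl⟩ := hn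
    rw [he.extend_apply]; exact hv i
  · rw [Function.extend_apply' _ _ _ hn]; exact h0

theorem Df.cls [Countable Γ] (S : Set V → (Γ → V) → V → Prop)
    [h : Df K fun W (v : Option Γ → V) => S W (fun i => v (some i)) (v none)] (hW : K W)
    (h0 : (∅ : V) ∈ W) {v : Γ → V} (hv : ∀ i, v i ∈ W) : Cls W (S W v) := by
  obtain ⟨e, p, hp, rfl⟩ := exists_env h0 v hv
  obtain ⟨φ, hφ⟩ := h.ex fun o => o.elim 0 fun i => e i + 1
  exact ⟨φ, p, hp, fun x hx => hφ W hW (cons x p) (cons_mem hx hp)⟩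

theorem Cls.sep (hW : ZF W) {S : V → Prop} (h : Cls W S) {a : V} (ha : a ∈ W) :
    ZFSet.sep S a ∈ W := by
  obtain ⟨φ, p, hp, h⟩ := h
  obtain ⟨b, hb, hb'⟩ := hW.sep φ p hp a ha
  convert hb using 1
  ext x
  simp only [mem_sep, hb']
  exact and_congr_right fun hx => h x (hW.mem hx ha)

theorem Df.coll [Countable Γ] [hK : Cl K] (R : Set V → (Γ → V) → V → V → Prop)
    [h : Df K fun W (v : Option (Option Γ) → V) =>
      R W (fun i => v (some (some i))) (v (some none)) (v none)] (hW : K W)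
    {v : Γ → V} (hv : ∀ i, v i ∈ W) {a : V} (ha : a ∈ W) (H : ∀ x ∈ a, ∃ y ∈ W, R W v x y) :
    ∃ b ∈ W, ∀ x ∈ a, ∃ y ∈ b, R W v x y := by
  have hz := hK.zf W hW
  obtain ⟨e, p, hp, rfl⟩ := exists_env hz.empty v hv
  obtain ⟨φ, hφ⟩ := h.ex fun o => o.elim 0 fun o => o.elim 1 fun i => e i + 2
  have key : ∀ x ∈ a, ∀ y ∈ W, R W (fun i => p (e i)) x y ↔ Sat W ∅ φ (cons y (cons x p)) :=
    fun x hx y hy => hφ W hW (cons y (cons x p)) (cons_mem hy (cons_mem (hz.mem hx ha) hp))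
  obtain ⟨b, hb, hb'⟩ := hz.coll φ p hp a ha fun x hx =>
    (H x hx).imp fun y hy => ⟨hy.1, (key x hx y hy.1).1 hy.2⟩
  exact ⟨b, hb, fun x hx => (hb' x hx).imp fun y hy =>
    ⟨hy.1, (key x hx y (hz.mem hy.1 hb)).2 hy.2⟩⟩

theorem ZFm.singleton (h : ZFm W A) {x : V} (hx : x ∈ W) : ({x} : V) ∈ W := by
  simpa using h.pair x hx x hx

theorem ZFm.union2 (h : ZFm W A) {x y : V} (hx : x ∈ W) (hy : y ∈ W) : x ∪ y ∈ W :=
  h.union _ (h.pair x hx y hy)

theorem ZFm.insert (h : ZFm W A) {x y : V} (hx : x ∈ W) (hy : y ∈ W) : insert x y ∈ W := by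
  rw [insert_eq]; exact h.union2 (h.singleton hx) hy

theorem ZFm.opair (h : ZFm W A) {x y : V} (hx : x ∈ W) (hy : y ∈ W) : ZFSet.pair x y ∈ W :=
  h.pair _ (h.singleton hx) _ (h.pair x hx y hy)

/-- The image of a set under a function. -/
noncomputable def img (f : V → V) (a : V) : V := ZFSet.range fun x : a => f x

@[simp] theorem mem_img {f : V → V} {a y : V} : y ∈ img f a ↔ ∃ x ∈ a, f x = y := by
  simp [img]

theorem img_congr {f g : V → V} {a : V} (h : ∀ x ∈ a, f x = g x) : img f a = img g a := by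
  ext y
  simp only [mem_img]
  exact exists_congr fun x => and_congr_right fun hx => by rw [h x hx]

variable [hK : Cl K]

section Terms

variable (s t : Set V → (Γ → V) → V) [hs : Tm K s] [ht : Tm K t]

instance tm_empty : Tm K fun _ (_ : Γ → V) => (∅ : V) :=
  Tm.of_mem _ (fun _ _ _ => False) (fun W hW _ _ => (hK.zf W hW).empty) fun _ _ _ _ _ _ => by simp

instance tm_singleton : Tm K fun W v => ({s W v} : V) :=
  Tm.of_mem _ (fun W v x => x = s W v)
    (fun W hW v hv => (hK.zf W hW).singleton (hs.mem W hW v hv)) fun _ _ _ _ _ _ => by simp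

instance tm_insert : Tm K fun W v => insert (s W v) (t W v) :=
  Tm.of_mem _ (fun W v x => x = s W v ∨ x ∈ t W v)
    (fun W hW v hv => (hK.zf W hW).insert (hs.mem W hW v hv) (ht.mem W hW v hv))
    fun _ _ _ _ _ _ => by simp

instance tm_union : Tm K fun W v => s W v ∪ t W v :=
  Tm.of_mem _ (fun W v x => x ∈ s W v ∨ x ∈ t W v)
    (fun W hW v hv => (hK.zf W hW).union2 (hs.mem W hW v hv) (ht.mem W hW v hv))
    fun _ _ _ _ _ _ => by simp

instance tm_sUnion : Tm K fun W v => ⋃₀ (s W v) :=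
  Tm.of_mem _ (fun W v x => ∃ y ∈ s W v, x ∈ y)
    (fun W hW v hv => (hK.zf W hW).union _ (hs.mem W hW v hv)) fun _ _ _ _ _ _ => by simp

instance tm_pair : Tm K fun W v => pair (s W v) (t W v) := by
  unfold pair; infer_instance

variable [Countable Γ]

instance tm_sep (S : Set V → (Γ → V) → V → Prop)
    [Df K fun W (v : Option Γ → V) => S W (fun i => v (some i)) (v none)] :
    Tm K fun W v => ZFSet.sep (S W v) (t W v) :=
  Tm.of_mem _ (fun W v x => x ∈ t W v ∧ S W v x)
    (fun W hW v hv => (Df.cls S hW (hK.zf W hW).empty hv).sep (hK.zf W hW) (ht.mem W hW v hv))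
    fun _ _ _ _ _ _ => mem_sep

instance tm_inter : Tm K fun W v => s W v ∩ t W v :=
  inferInstanceAs (Tm K fun W v => ZFSet.sep (fun x => x ∈ t W v) (s W v))

instance tm_diff : Tm K fun W v => s W v \ t W v :=
  inferInstanceAs (Tm K fun W v => ZFSet.sep (fun x => x ∉ t W v) (s W v))

instance tm_img (f : Set V → (Γ → V) → V → V)
    [hf : Tm K fun W (v : Option Γ → V) => f W (fun i => v (some i)) (v none)] :
    Tm K fun W v => img (f W v) (t W v) := by
  have h1 : Tm K fun W (v : Option (Option Γ) → V) => f W (fun i => v (some (some i))) (v none) :=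
    tm_ren (fun W (v : Option Γ → V) => f W (fun i => v (some i)) (v none)) (Option.map some)
  have h2 : Tm K fun W (v : Option (Option Γ) → V) =>
      f W (fun i => v (some (some i))) (v (some none)) :=
    tm_ren (fun W (v : Option Γ → V) => f W (fun i => v (some i)) (v none)) some
  refine Tm.of_mem _ (fun W v y => ∃ x ∈ t W v, f W v x = y) (fun W hW v hv => ?_)
    fun _ _ _ _ _ _ => mem_img
  have hz := hK.zf W hW
  have ha := ht.mem W hW v hv
  obtain ⟨b, hb, hb'⟩ := Df.coll (K := K) (fun W v x y => f W v x = y) hW hv ha fun x hx =>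
    ⟨_, hf.mem W hW (fun o => o.elim x v) (by rintro (_ | i); exacts [hz.mem hx ha, hv i]), rfl⟩
  have := (Df.cls (K := K) (fun W v y => ∃ x ∈ t W v, f W v x = y) hW hz.empty hv).sep hz hb
  convert this using 1
  ext y
  simp only [mem_img, mem_sep]
  exact ⟨fun ⟨x, hx, e⟩ => ⟨by obtain ⟨z, hz, e'⟩ := hb' x hx; rwa [← e, e'], x, hx, e⟩,
    fun h => h.2⟩

instance tm_prod : Tm K fun W v => prod (s W v) (t W v) :=
  Tm.of_eq (t := fun W v => ⋃₀ img (fun x => img (fun y => pair x y) (t W v)) (s W v))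
    fun _ _ _ _ => by
      ext z
      simp only [mem_prod, mem_sUnion, mem_img]
      exact ⟨fun ⟨a, ha, b, hb, e⟩ => ⟨_, ⟨a, ha, rfl⟩, mem_img.2 ⟨b, hb, e.symm⟩⟩,
        fun ⟨_, ⟨a, ha, rfl⟩, h⟩ => by
          obtain ⟨b, hb, e⟩ := mem_img.1 h
          exact ⟨a, ha, b, hb, e.symm⟩⟩

open Classical in
instance tm_ite (c : Set V → (Γ → V) → Prop) [hc : Df K c] :
    Tm K fun W v => if c W v then s W v else t W v :=
  have : Df K fun W (v : Option Γ → V) => c W fun i => v (some i) := hc.ren some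
  Tm.of_mem _ (fun W v x => (c W v ∧ x ∈ s W v) ∨ (¬ c W v ∧ x ∈ t W v))
    (fun W hW v hv => by split_ifs; exacts [hs.mem W hW v hv, ht.mem W hW v hv])
    fun W _ v _ x _ => by split_ifs <;> simp [*]

end Terms

/-- The first coordinate of a pair. -/
noncomputable def fst (p : V) : V := ⋃₀ ZFSet.sep (fun x => ∃ y, p = pair x y) (⋃₀ p)

/-- The second coordinate of a pair. -/
noncomputable def snd (p : V) : V := ⋃₀ ZFSet.sep (fun y => ∃ x, p = pair x y) (⋃₀ p)

@[simp] theorem fst_pair (x y : V) : fst (pair x y) = x := by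
  have : ZFSet.sep (fun z => ∃ w, pair x y = pair z w) (⋃₀ pair x y) = {x} := by
    ext z
    simp only [mem_sep, pair_inj, mem_singleton]
    exact ⟨fun ⟨_, _, h, _⟩ => h.symm, fun h => ⟨by simp [pair, h], y, h.symm, rfl⟩⟩
  rw [fst, this, sUnion_singleton]

@[simp] theorem snd_pair (x y : V) : snd (pair x y) = y := by
  have : ZFSet.sep (fun z => ∃ w, pair x y = pair w z) (⋃₀ pair x y) = {y} := by
    ext z
    simp only [mem_sep, pair_inj, mem_singleton]
    exact ⟨fun ⟨_, _, _, h⟩ => h.symm, fun h => ⟨by simp [pair, h], x, rfl, h.symm⟩⟩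
  rw [snd, this, sUnion_singleton]

/-- The value of a function. -/
noncomputable def ap (f x : V) : V := ⋃₀ ZFSet.sep (fun y => pair x y ∈ f) (⋃₀ ⋃₀ f)

/-- The domain of a relation. -/
noncomputable def dom (f : V) : V := ZFSet.sep (fun x => ∃ y, pair x y ∈ f) (⋃₀ ⋃₀ f)

/-- The range of a relation. -/
noncomputable def ran (f : V) : V := ZFSet.sep (fun y => ∃ x, pair x y ∈ f) (⋃₀ ⋃₀ f)

/-- The graph of a function on a set. -/
noncomputable def graph (f : V → V) (a : V) : V := img (fun x => pair x (f x)) a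

/-- `f` is single-valued. -/
def Fn (f : V) : Prop := ∀ x y z, pair x y ∈ f → pair x z ∈ f → y = z

theorem left_mem_sUnion {f x y : V} (h : pair x y ∈ f) : x ∈ (⋃₀ ⋃₀ f : V) :=
  mem_sUnion.2 ⟨{x}, mem_sUnion.2 ⟨_, h, by simp [pair]⟩, by simp⟩

theorem right_mem_sUnion {f x y : V} (h : pair x y ∈ f) : y ∈ (⋃₀ ⋃₀ f : V) :=
  mem_sUnion.2 ⟨{x, y}, mem_sUnion.2 ⟨_, h, by simp [pair]⟩, by simp⟩

@[simp] theorem mem_dom {f x : V} : x ∈ dom f ↔ ∃ y, pair x y ∈ f :=
  mem_sep.trans ⟨fun h => h.2, fun ⟨y, h⟩ => ⟨left_mem_sUnion h, y, h⟩⟩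

@[simp] theorem mem_ran {f y : V} : y ∈ ran f ↔ ∃ x, pair x y ∈ f :=
  mem_sep.trans ⟨fun h => h.2, fun ⟨x, h⟩ => ⟨right_mem_sUnion h, x, h⟩⟩

theorem ap_eq {f x y : V} (h : pair x y ∈ f) (hu : ∀ z, pair x z ∈ f → z = y) : ap f x = y := by
  have : ZFSet.sep (fun y => pair x y ∈ f) (⋃₀ ⋃₀ f) = {y} := by
    ext z
    simp only [mem_sep, mem_singleton]
    exact ⟨fun h' => hu z h'.2, fun e => e ▸ ⟨right_mem_sUnion h, h⟩⟩
  rw [ap, this, sUnion_singleton]

theorem Fn.ap_eq {f x y : V} (hf : Fn f) (h : pair x y ∈ f) : ap f x = y :=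
  MP_329f2d_lc.ap_eq h fun _ hz => hf _ _ _ hz h

theorem Fn.pair_ap {f x : V} (hf : Fn f) (h : x ∈ dom f) : pair x (ap f x) ∈ f := by
  obtain ⟨y, hy⟩ := mem_dom.1 h
  rwa [hf.ap_eq hy]

theorem mem_graph {f : V → V} {a z : V} : z ∈ graph f a ↔ ∃ x ∈ a, pair x (f x) = z := mem_img

@[simp] theorem pair_mem_graph {f : V → V} {a x y : V} :
    pair x y ∈ graph f a ↔ x ∈ a ∧ f x = y := by
  simp only [mem_graph, pair_inj]
  exact ⟨fun ⟨_, h, e, e'⟩ => e ▸ ⟨h, e'⟩, fun h => ⟨x, h.1, rfl, h.2⟩⟩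

theorem fn_graph (f : V → V) (a : V) : Fn (graph f a) := fun _ _ _ h h' =>
  (pair_mem_graph.1 h).2.symm.trans (pair_mem_graph.1 h').2

@[simp] theorem dom_graph (f : V → V) (a : V) : dom (graph f a) = a := by
  ext x; simp

theorem ran_graph (f : V → V) (a : V) : ran (graph f a) = img f a := by
  ext x; simp

theorem ap_graph {f : V → V} {a x : V} (h : x ∈ a) : ap (graph f a) x = f x :=
  (fn_graph f a).ap_eq (pair_mem_graph.2 ⟨h, rfl⟩)

theorem graph_congr {f g : V → V} {a : V} (h : ∀ x ∈ a, f x = g x) : graph f a = graph g a :=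
  img_congr fun x hx => by rw [h x hx]

section Terms2

variable [Countable Γ] (r s t : Set V → (Γ → V) → V) [Tm K r] [Tm K s] [Tm K t]

instance tm_fst : Tm K fun W v => fst (s W v) := by unfold fst; infer_instance
instance tm_snd : Tm K fun W v => snd (s W v) := by unfold snd; infer_instance
instance tm_ap : Tm K fun W v => ap (s W v) (t W v) := by unfold ap; infer_instance
instance tm_dom : Tm K fun W v => dom (s W v) := by unfold dom; infer_instance
instance tm_ran : Tm K fun W v => ran (s W v) := by unfold ran; infer_instance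
instance tm_graph (f : Set V → (Γ → V) → V → V)
    [Tm K fun W (v : Option Γ → V) => f W (fun i => v (some i)) (v none)] :
    Tm K fun W v => graph (f W v) (t W v) := by unfold graph; infer_instance
instance df_Fn : Df K fun W v => Fn (s W v) := by unfold Fn; infer_instance
instance df_IsFunc : Df K fun W v => IsFunc (r W v) (s W v) (t W v) := by
  unfold IsFunc ExistsUnique
  exact Df.of_iff (Q := fun W v => t W v ⊆ prod (r W v) (s W v) ∧ ∀ z ∈ r W v,
    ∃ w, pair z w ∈ t W v ∧ ∀ y, pair z y ∈ t W v → y = w) fun _ _ _ _ => Iff.rfl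
instance df_Onto : Df K fun W v => Onto (r W v) (s W v) (t W v) := by
  unfold Onto; infer_instance

end Terms2

end Pool.Agent.Lib.MP_329f2d_lc
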