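import Pool.Agent.Lib.MP_329f2d_lc.H59Gen

/-! From a name for a second step of the lottery to a name at the next level. -/

namespace Pool.Agent.Lib.MP_329f2d_lc.It

open ZFSet Order

set_option linter.unusedSectionVars false

variable {κ : O} {R : O → V}

/-- The condition of the next level given by a condition of the second step `x`. -/
noncomputable def io (R : O → V) (a : O) (x e : V) : V := sk R a (fst e) (pair x (snd e))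

section
variable (H : Iter κ R) {a : O} (hn : IsSuccLimit a) {x : V} (hx : x ∈ CxSet κ (PP (R a)))
include H hn hx

theorem io_stp {e e' : V} (h : pair e e' ∈ fst x) :
    pair (pair (fst e) (pair x (snd e))) (pair (fst e') (pair x (snd e'))) ∈ Stp R κ a := by
  have hE := extOf_of_mem_CxSet hx
  obtain ⟨p, s, rfl, h1⟩ := hE.fst _ (hE.po.left h)
  obtain ⟨p', s', rfl, h2⟩ := hE.fst _ (hE.po.right h)
  simp only [fst_pair, snd_pair]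
  rw [Stp, if_pos hn, mem_EL]
  exact ⟨⟨h1, Or.inr ⟨x, hx, s, rfl, hE.po.left h⟩⟩, ⟨h2, Or.inr ⟨x, hx, s', rfl, hE.po.right h⟩⟩,
    hE.le _ _ _ _ h, Or.inr ⟨x, s, s', rfl, rfl, h⟩⟩

theorem io_le {e e' : V} (h : pair e e' ∈ fst x) : pair (io R a x e) (io R a x e') ∈ R (succ a) :=
  sk_le (H.sys _) (H.ext a) (H.sucSpec a) (io_stp H hn hx h)

theorem le_io {d e' : V} (h' : pair e' e' ∈ fst x) (h : pair d (io R a x e') ∈ R (succ a)) :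
    ∃ e, pair e e' ∈ fst x ∧ d = io R a x e := by
  obtain ⟨p, u, h1, rfl⟩ := le_sk' (H.sys _) (H.ext a) (H.sucSpec a)
    (ext_le (H.sys _) (H.ext a) (io_stp H hn hx h')).1 h
  rw [Stp, if_pos hn, mem_EL] at h1
  obtain e | ⟨_, s, s', rfl, e, h2⟩ := h1.2.2.2
  · exact absurd e (pair_ne_empty _ _)
  obtain ⟨rfl, rfl⟩ := pair_inj.1 e
  obtain ⟨p', s', rfl, -⟩ := (extOf_of_mem_CxSet hx).fst _ h'
  simp only [fst_pair, snd_pair] at h2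
  exact ⟨_, h2, by simp only [io, fst_pair, snd_pair]⟩

end

namespace GC

variable {C : GC κ R} {τ a0 a c b0 b : V} {Rel : V → V → V → Prop} {l : List (V × V)}

theorem Good.back (h : C.Good τ a0 a c Rel l) (hb : C.Y b0) (hl : (b0, b) ∈ l)
    (e : succ (rank a0) = rank b0) (hk : rank b0 ≤ κ) (hn : IsSuccLimit (rank a)) {x0 x v R' H' : V}
    (hx0 : C.Y x0) (hxl : (x0, x) ∈ l) (hx : x ∈ CxSet κ (PP (R (rank a))))
    (hT : C.Tame fun a b x v q _ => cl (R (rank b)) (sk R (rank a) (fst v) (pair x (snd v))) ⊆ q)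
    (hN : Nm (fst x) v (In3 R') C.M C.N H') (hv : pair v v ∈ fst x) (hp : fst v ⊆ c)
    (hH : ∀ q, C.Ga (rank b0) q → ∃ e' ∈ H', e' ∈ C.M ∧ C.Y (C.s e') ∧
      cl (R (rank b0)) (sk R (rank a0) (fst (C.s e')) (pair x0 (snd (C.s e')))) ⊆ q)
    (hf : ∀ z ∈ l, ∀ e₂, pair e₂ v ∈ fst x → ∀ a' ∈ C.M, ∀ y, C.s a' = z.1 → In3 R' e₂ a' y →
      y = z.2) :
    ∃ c' Rel', C.Good τ b0 b c' Rel' l ∧ c' ⊆ up R (rank a) (rank b) c := by
  have e' := h.tf_succ h.s0 ⟨hb, h.dec hl⟩ e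
  have hP := C.po (rank b)
  have hE := (extOf_of_mem_CxSet hx).po
  have i1 : ∀ {e e'}, pair e e' ∈ fst x → pair (io R (rank a) x e) (io R (rank a) x e') ∈ R (rank b) :=
    fun H => e' ▸ io_le C.it hn hx H
  have i2 : ∀ {d e}, pair e e ∈ fst x → pair d (io R (rank a) x e) ∈ R (rank b) →
      ∃ e₁, pair e₁ e ∈ fst x ∧ d = io R (rank a) x e₁ := fun H H' => le_io C.it hn hx H (e' ▸ H')
  have h0 : cl (R (rank b)) (io R (rank a) x v) ⊆ up R (rank a) (rank b) c :=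
    sub_trans (e' ▸ C.cl_sk_sub (io_stp C.it hn hx hv)) (up_mono hp)
  let Q : V → V → V → Prop := fun e z y => ∃ a' ∈ C.M, C.s a' = z ∧ In3 R' e a' y
  let Rel' : V → V → V → Prop := fun r z y => (C.X0 z ∧ y ∈ C.N) ∧ ∀ e, pair e v ∈ fst x →
    io R (rank a) x e ∈ r → ∃ e₂, pair e₂ e ∈ fst x ∧ Q e₂ z y
  have q1 : ∀ {e e₂ z y}, Q e z y → pair e₂ e ∈ fst x → Q e₂ z y :=
    fun ⟨a', a1, a2, a3⟩ H => ⟨a', a1, a2, hN.mono _ _ _ _ a3 H⟩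
  have q2 : ∀ {e z}, pair e v ∈ fst x → C.X0 z → ∃ e₂ y, pair e₂ e ∈ fst x ∧ y ∈ C.N ∧ Q e₂ z y :=
    fun H hz => by
      obtain ⟨a', a1, rfl⟩ := C.Xs _ hz.1 hz.2
      obtain ⟨e₂, y, a2, a3⟩ := hN.total _ H a' a1
      exact ⟨e₂, y, a2, (hN.dom _ _ _ a3).2.2, a', a1, rfl, a3⟩
  have q3 : ∀ {r}, Pos (R (rank b)) r → r ⊆ cl (R (rank b)) (io R (rank a) x v) →
      ∃ e, pair e v ∈ fst x ∧ io R (rank a) x e ∈ r := fun ⟨a1, d, a2⟩ a3 => by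
    obtain ⟨d', a4, a5⟩ := exists_le_of_mem_cl hP (a3 a2)
    obtain ⟨e, a6, rfl⟩ := i2 hv a5
    exact ⟨e, a6, a1.down hP a2 a4⟩
  have nn : C.NN (R (rank b)) (cl (R (rank b)) (io R (rank a) x v)) Rel' := by
    refine ⟨pos_cl hP (i1 hv), fun a1 _ a3 => ⟨a1.1, fun e b1 b2 => a1.2 e b1 (a3 b2)⟩,
      fun a1 => a1.1, fun {r z} a1 a2 a3 => ?_, fun {r} a1 a2 => pe_fin fun L hL => ?_⟩
    · obtain ⟨e₁, b1, b2⟩ := q3 a1 a2
      obtain ⟨e₂, y, b3, b4, b5⟩ := q2 b1 a3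
      refine ⟨_, y, pos_cl hP (i1 (hE.left b3)), a1.1.cl_sub hP (a1.1.down hP b2 (i1 b3)), ⟨a3, b4⟩,
        fun e₃ c1 c2 => ?_⟩
      obtain ⟨d, c3, c4⟩ := exists_le_of_mem_cl hP c2
      obtain ⟨e₄, c5, rfl⟩ := i2 (hE.left b3) c4
      obtain ⟨e₅, c6, c7⟩ := i2 (hE.left c1) c3
      have S := C.sys (rank a)
      have c8 := fun {e e'} (H : pair e e' ∈ fst x) =>
        (ext_le S (C.it.ext _) (io_stp C.it hn hx H)).1
      obtain ⟨c9, c10⟩ := sk_inj S (c8 c5) (c8 c6) c7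
      obtain ⟨p, s, rfl, -⟩ := (extOf_of_mem_CxSet hx).fst _ (hE.left c5)
      obtain ⟨p', s', rfl, -⟩ := (extOf_of_mem_CxSet hx).fst _ (hE.left c6)
      simp only [fst_pair, snd_pair, pair_inj, true_and] at c9 c10
      subst c9 c10
      exact ⟨_, c6, q1 b5 c5⟩
    · have : ∃ e, pair e v ∈ fst x ∧ io R (rank a) x e ∈ r ∧ ∀ z ∈ L, Q e z.1 z.2 := by
        induction L with
        | nil => obtain ⟨e, b1, b2⟩ := q3 a1 a2; exact ⟨e, b1, b2, by simp⟩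
        | cons z L ih =>
          obtain ⟨e, b1, b2, b3⟩ := ih fun z hz => hL z (List.mem_cons_of_mem _ hz)
          obtain ⟨e₂, b4, b5⟩ := (hL z List.mem_cons_self).2 e b1 b2
          exact ⟨e₂, hE.trans b4 b1, a1.1.down hP b2 (i1 b4), fun z' hz =>
            (List.mem_cons.1 hz).elim (fun e => e ▸ b5) fun hz => q1 (b3 z' hz) b4⟩
      obtain ⟨e, b1, -, b3⟩ := this
      refine ⟨Q e, fun φ u w huw => ?_, b3⟩
      choose u' c1 c2 c3 using huw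
      exact (C.emb.pe φ u' u fun i => ⟨c1 i, (c2 i).symm⟩).symm.trans (hN.pe e b1 φ u' w c3)
  have dec : ∀ {z y}, (z, y) ∈ l → Rel' (cl (R (rank b)) (io R (rank a) x v)) z y := fun {z y} H =>
    ⟨h.dom (h.dec H), fun e b1 _ => by
      obtain ⟨e₂, y', b2, -, a', b3, b4, b5⟩ := q2 b1 (h.dom (h.dec H)).1
      obtain rfl : y' = y := hf _ H e₂ (hE.trans b2 b1) a' b3 y' b4 b5
      exact ⟨e₂, b2, a', b3, b4, b5⟩⟩
  refine ⟨_, Rel', ⟨nn, hb, hk, h.hZ, h.hA, hl, dec, fun {r q y} a1 a2 a3 a4 => ?_,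
    h.tree_up (e' ▸ le_succ _) h0⟩, h0⟩
  have dm : ∀ r z y, Rel' r z y → z ∈ (C.N : Set V) ∧ y ∈ (C.N : Set V) :=
    fun _ _ _ H => ⟨H.1.1.2, H.1.2⟩
  have b0' : b0 ∈ C.B ∧ Rel' r b0 b := ⟨hb.2, nn.mono (dec hl) a1 a2⟩
  have hy : Pos (R (rank b)) y := C.tf (C.t0 6 0) (nn.pe a1 a2) (dm r) (nn.mono (dec h.hZ) a1 a2) b0'
    ⟨a3.1.2, a4⟩ b0' b0' b0' b0' (a3.pos hk)
  refine a1.1.sub_of_meets hP hy.1 fun Z hZ hz => ?_
  obtain ⟨e₀, b1, b2, b3, b4⟩ := hH q a3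
  obtain ⟨r₁, w, c1, c2, c3⟩ := nn.total hZ (sub_trans hz a2) b3.x0
  have c4 := sub_trans c2 (sub_trans hz a2)
  have c5 := C.tf hT (nn.pe c1 c4) (dm r₁) (nn.mono (dec h.hZ) c1 c4)
    ⟨h.ya.2, nn.mono (dec h.st) c1 c4⟩ ⟨hb.2, nn.mono (dec hl) c1 c4⟩
    ⟨hx0.2, nn.mono (dec hxl) c1 c4⟩ ⟨b3.2, c3⟩ ⟨a3.1.2, nn.mono a4 c1 (sub_trans c2 hz)⟩
    ⟨b3.2, c3⟩ b4
  obtain ⟨e₁, d1, d2⟩ := q3 c1 c4
  obtain ⟨e₂, d3, a', d4, d5, d6⟩ := c3.2 e₁ d1 d2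
  obtain rfl : a' = e₀ := (C.emb.pe.uniq ⟨d4, rfl⟩ ⟨b2, rfl⟩).2 d5
  obtain ⟨e₃, d7, d8⟩ := hN.gen e₂ (hE.trans d3 d1) a' b1 w d6 e₂ (hE.left d3)
  exact ⟨_, c2 (c1.1.down hP d2 (i1 (hE.trans d7 d3))), c5 (mem_cl_of_le hP (i1 d8))⟩

end GC

end Pool.Agent.Lib.MP_329f2d_lc.It
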