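import Pool.Agent.Lib.MP_329f2d_lc.H59Iter
import Pool.Agent.Lib.MP_329f2d_lc.H35U

/-! The countable model used in the main induction. -/

namespace Pool.Agent.Lib.MP_329f2d_lc.It

open ZFSet Order

set_option linter.unusedSectionVars false

/-- Relations with six places. -/
abbrev R6 : Type 1 := V → V → V → V → V → V → Prop

theorem exists_closed {ι : Type} (Φ : ι → R6) (x₀ : V) : ∃ μ : O, rank x₀ < μ ∧
    ∀ i a b c d e, rank a < μ → rank b < μ → rank c < μ → rank d < μ → rank e < μ →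
      (∃ y, Φ i a b c d e y) → ∃ y, rank y < μ ∧ Φ i a b c d e y := by
  let w : ι → V → V → V → V → V → V := fun i a b c d e => Classical.epsilon (Φ i a b c d e)
  let F : O → O := fun ν => max ν (rank (range fun t : ι × vonNeumann ν × vonNeumann ν ×
    vonNeumann ν × vonNeumann ν × vonNeumann ν =>
      w t.1 t.2.1 t.2.2.1 t.2.2.2.1 t.2.2.2.2.1 t.2.2.2.2.2))
  let μ : ℕ → O := fun n => F^[n] (succ (rank x₀))
  have hm : Monotone μ := monotone_nat_of_le_succ fun n => by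
    simp only [μ, Function.iterate_succ_apply']; exact le_max_left _ _
  refine ⟨⨆ n, μ n, Ordinal.lt_iSup_iff.2 ⟨0, lt_succ _⟩, fun i a b c d e ha hb hc hd he H => ?_⟩
  simp only [Ordinal.lt_iSup_iff] at *
  obtain ⟨n1, ha⟩ := ha
  obtain ⟨n2, hb⟩ := hb
  obtain ⟨n3, hc⟩ := hc
  obtain ⟨n4, hd⟩ := hd
  obtain ⟨n5, he⟩ := he
  have k : ∀ {x : V} {j : ℕ}, rank x < μ j → j ≤ n1 + n2 + n3 + n4 + n5 →
      x ∈ vonNeumann (μ (n1 + n2 + n3 + n4 + n5)) := fun h1 h2 =>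
    mem_vonNeumann.2 (h1.trans_le (hm h2))
  refine ⟨w i a b c d e, ⟨n1 + n2 + n3 + n4 + n5 + 1, ?_⟩, Classical.epsilon_spec H⟩
  simp only [μ, Function.iterate_succ_apply']
  exact lt_max_of_lt_right (rank_lt_of_mem (mem_range.2 ⟨⟨i, ⟨a, k ha (by omega)⟩, ⟨b, k hb (by omega)⟩,
    ⟨c, k hc (by omega)⟩, ⟨d, k hd (by omega)⟩, ⟨e, k he (by omega)⟩⟩, rfl⟩))

/-- A countable elementary submodel `X`, its collapse `M`, and a set `Z` that codes the tame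
relations on `B`. -/
structure Ctx where
  (B N A M Z : V)
  X : Set V
  s : V → V
  Tame : R6 → Prop
  hB : ∀ x ∈ B, ∀ y : V, rank y ≤ rank x → y ∈ B
  BN : B ⊆ N
  la : LA N A
  AX : A ∈ X
  ZX : Z ∈ X
  ZN : Z ∈ N
  cnt : X.Countable
  Mc : (M : Set V).Countable
  Mz : ZFCm M ∅
  emb : Emb M N fun a y => a ∈ M ∧ y = s a
  sX : ∀ a ∈ M, s a ∈ X
  Xs : ∀ y ∈ X, y ∈ N → ∃ a ∈ M, s a = y
  full : ∀ P ∈ M, Po (s P) → ∀ H, Filt P H → (∀ D ∈ X, Dense (s P) D → ∃ p ∈ H, s p ∈ D) →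
    Generic M P H ∧ Full w1 (ExtV M H)
  sk : ∀ {Φ}, Tame Φ → ∀ {a b c d e}, a ∈ X ∧ a ∈ B → b ∈ X ∧ b ∈ B → c ∈ X ∧ c ∈ B →
    d ∈ X ∧ d ∈ B → e ∈ X ∧ e ∈ B → (∃ y, Φ a b c d e y) → ∃ y, (y ∈ X ∧ y ∈ B) ∧ Φ a b c d e y
  sep : ∀ {Φ}, Tame Φ → ∀ {u a b c d e}, u ∈ X ∧ u ∈ B → a ∈ X ∧ a ∈ B → b ∈ X ∧ b ∈ B →
    c ∈ X ∧ c ∈ B → d ∈ X ∧ d ∈ B → e ∈ X ∧ e ∈ B →
    u.sep (Φ a b c d e) ∈ X ∧ u.sep (Φ a b c d e) ∈ B
  pair : ∀ {a b}, a ∈ X ∧ a ∈ B → b ∈ X ∧ b ∈ B → pair a b ∈ X ∧ pair a b ∈ B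
  fst : ∀ {a}, a ∈ X ∧ a ∈ B → fst a ∈ X ∧ fst a ∈ B
  snd : ∀ {a}, a ∈ X ∧ a ∈ B → snd a ∈ X ∧ snd a ∈ B
  tfB : ∀ {m : V → V → Prop}, PE N N m → (∀ x y, m x y → x ∈ (N : Set V) ∧ y ∈ (N : Set V)) →
    m Z Z → ∀ {a a'}, m a a' → a ∈ B → a' ∈ B
  tf : ∀ {Φ}, Tame Φ → ∀ {m : V → V → Prop}, PE N N m →
    (∀ x y, m x y → x ∈ (N : Set V) ∧ y ∈ (N : Set V)) → m Z Z →
    ∀ {a a' b b' c c' d d' e e' f f'}, a ∈ B ∧ m a a' → b ∈ B ∧ m b b' → c ∈ B ∧ m c c' →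
    d ∈ B ∧ m d d' → e ∈ B ∧ m e e' → f ∈ B ∧ m f f' → Φ a b c d e f → Φ a' b' c' d' e' f'

theorem exists_ctx (Φ : ℕ → R6) (T : Set V) (hT : T.Countable) :
    ∃ C : Ctx, (∀ i, C.Tame (Φ i)) ∧ ∀ x ∈ T, x ∈ C.X ∧ x ∈ C.B := by
  let Ψ : ℕ → R6 := fun n a b c d e y => match n with
    | 0 => y = pair a b
    | 1 => y = fst a
    | 2 => y = snd a
    | n + 3 => if n % 2 = 0 then Φ (n / 2) a b c d e y else y = (fst a).sep (Φ (n / 2) (snd a) b c d e)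
  have : Small.{0} T := by have := hT.to_subtype; infer_instance
  obtain ⟨μ, h0, hμ⟩ := exists_closed Ψ (range fun t : T => t.1)
  let B := vonNeumann μ
  let Z := pair B ((prod omega (prod B (prod B (prod B (prod B (prod B B)))))).sep fun z =>
    ∃ i a b c d e f, z = pair (nat i) (pair a (pair b (pair c (pair d (pair e f))))) ∧
      Φ i a b c d e f)
  have hTB : ∀ x ∈ T, x ∈ B := fun x hx =>
    mem_vonNeumann.2 ((rank_lt_of_mem (mem_range.2 ⟨⟨x, hx⟩, rfl⟩)).trans h0)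
  obtain ⟨N, A, M, X, s, h1, h2, h3, h4, h5, h6, -, h8, h9, h10, h11, h12, h13⟩ :=
    exists_setup (insert Z B) (insert Z T) (hT.insert _)
      (Set.insert_subset (mem_insert _ _) fun x hx => mem_insert_of_mem _ (hTB x hx))
      fun k l y => y ∈ B ∧ Ψ k (l.getD 0 ∅) (l.getD 1 ∅) (l.getD 2 ∅) (l.getD 3 ∅) (l.getD 4 ∅) y
  have sk : ∀ n {a b c d e}, a ∈ X ∧ a ∈ B → b ∈ X ∧ b ∈ B → c ∈ X ∧ c ∈ B →
      d ∈ X ∧ d ∈ B → e ∈ X ∧ e ∈ B → (∃ y, Ψ n a b c d e y) →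
      ∃ y, (y ∈ X ∧ y ∈ B) ∧ Ψ n a b c d e y := by
    intro n a b c d e ha hb hc hd he H
    obtain ⟨y, y1, y2⟩ := hμ n a b c d e (mem_vonNeumann.1 ha.2) (mem_vonNeumann.1 hb.2)
      (mem_vonNeumann.1 hc.2) (mem_vonNeumann.1 hd.2) (mem_vonNeumann.1 he.2) H
    obtain ⟨z, z1, z2, z3⟩ := h6 n [a, b, c, d, e] (by simp [ha.1, hb.1, hc.1, hd.1, he.1])
      ⟨y, mem_insert_of_mem _ (mem_vonNeumann.2 y1), mem_vonNeumann.2 y1, y2⟩
    exact ⟨z, ⟨z1, z2⟩, z3⟩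
  have hp : ∀ {a b}, a ∈ X ∧ a ∈ B → b ∈ X ∧ b ∈ B → pair a b ∈ X ∧ pair a b ∈ B := fun ha hb => by
    obtain ⟨y, hy, rfl⟩ := sk 0 ha hb ha ha ha ⟨_, rfl⟩
    exact hy
  have tfB : ∀ {m : V → V → Prop}, PE N N m → (∀ x y, m x y → x ∈ (N : Set V) ∧ y ∈ (N : Set V)) →
      m Z Z → ∀ {a a'}, m a a' → a ∈ B → a' ∈ B := fun hm hd hZ a a' ha => by
    have := pe2 (K := ZF) (fun _ z a => a ∈ fst z) hm h2.1.1 h2.1.1 hd hZ ha
    simp only [Z, fst_pair] at this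
    exact this.1
  refine ⟨⟨B, N, A, M, Z, X, s, fun φ => ∃ i, φ = Φ i, fun x hx y hy =>
    mem_vonNeumann.2 (hy.trans_lt (mem_vonNeumann.1 hx)), fun x hx => h1 (mem_insert_of_mem _ hx),
    h2, h3, h4 (Set.mem_insert _ _), h1 (mem_insert _ _), h5, h8, h9, h10, h11, h12, h13, ?_, ?_,
    hp, fun ha => ?_, fun ha => ?_, tfB, ?_⟩, fun i => ⟨i, rfl⟩,
    fun x hx => ⟨h4 (Set.mem_insert_of_mem _ hx), hTB x hx⟩⟩
  · rintro _ ⟨i, rfl⟩ a b c d e ha hb hc hd he H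
    have := sk (2 * i + 3) ha hb hc hd he
    simp only [Ψ, Nat.mul_mod_right, if_true, Nat.mul_div_cancel_left i two_pos] at this
    exact this H
  · rintro _ ⟨i, rfl⟩ u a b c d e hu ha hb hc hd he
    have := sk (2 * i + 1 + 3) (hp hu ha) hb hc hd he
    simp only [Ψ, show (2 * i + 1) % 2 ≠ 0 by omega, if_false, show (2 * i + 1) / 2 = i by omega,
      fst_pair, snd_pair] at this
    obtain ⟨y, hy, rfl⟩ := this ⟨_, rfl⟩
    exact hy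
  · obtain ⟨y, hy, rfl⟩ := sk 1 ha ha ha ha ha ⟨_, rfl⟩
    exact hy
  · obtain ⟨y, hy, rfl⟩ := sk 2 ha ha ha ha ha ⟨_, rfl⟩
    exact hy
  · rintro _ ⟨i, rfl⟩ m hm hD hZ a a' b b' c c' d d' e e' f f' ha hb hc hd he hf H
    have := (pe7 (K := ZF) (fun _ z a b c d e f =>
      pair (nat i) (pair a (pair b (pair c (pair d (pair e f))))) ∈ snd z) hm h2.1.1 h2.1.1 hD hZ
      ha.2 hb.2 hc.2 hd.2 he.2 hf.2).1
    simp only [Z, snd_pair, mem_sep, pair_mem_prod, nat_mem_omega, ha.1, hb.1, hc.1, hd.1, he.1,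
      hf.1, true_and] at this
    obtain ⟨-, j, _, _, _, _, _, _, e, H'⟩ := this ⟨i, a, b, c, d, e, f, rfl, H⟩
    simp only [pair_inj, nat_inj] at e
    obtain ⟨rfl, rfl, rfl, rfl, rfl, rfl, rfl⟩ := e
    exact H'

/-- Elementarity depends on finitely many values only. -/
theorem pe_fin {M N : Set V} {m : V → V → Prop}
    (H : ∀ l : List (V × V), (∀ z ∈ l, m z.1 z.2) → ∃ m', PE M N m' ∧ ∀ z ∈ l, m' z.1 z.2) :
    PE M N m := by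
  intro φ v w hvw
  obtain ⟨n, hn⟩ := Sat_bound φ
  obtain ⟨m', h1, h2⟩ := H ((List.range (n + 1)).map fun i => (v i, w i)) (by
    simp only [List.mem_map]; rintro _ ⟨i, -, rfl⟩; exact hvw i)
  rw [hn M ∅ v (fun i => v (min i n)) fun i hi => by rw [min_eq_left hi.le],
    hn N ∅ w (fun i => w (min i n)) fun i hi => by rw [min_eq_left hi.le]]
  exact h1 φ _ _ fun i => h2 (v (min i n), w (min i n))
    (List.mem_map.2 ⟨_, List.mem_range.2 (by omega), rfl⟩)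

end Pool.Agent.Lib.MP_329f2d_lc.It
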