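import Mathlib

/-!
The subcomplete forcing axiom and Kurepa trees, read in a transitive class `W` of sets.
Functions, embeddings and forcing notions are sets of Kuratowski pairs.  Notions that are absolute
for transitive models are used as they are; all other quantifiers are restricted to `W`.
-/

namespace Pool.Agent.Lib.MP_329f2d_lc

open ZFSet Cardinal

/-- Sets. -/
abbrev V : Type 1 := ZFSet.{0}

/-- First-order formulas with `∈`, `=` and one unary predicate, with de Bruijn variables. -/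
inductive Fml : Type
  | mem (i j : ℕ) : Fml
  | eq (i j : ℕ) : Fml
  | pred (i : ℕ) : Fml
  | neg (φ : Fml) : Fml
  | and (φ ψ : Fml) : Fml
  | ex (φ : Fml) : Fml

/-- The assignment giving `x` to variable `0` and `v n` to variable `n + 1`. -/
def cons (x : V) (v : ℕ → V) : ℕ → V
  | 0 => x
  | n + 1 => v n

/-- Satisfaction in the structure `(K, ∈, A)`. -/
def Sat (K A : Set V) : Fml → (ℕ → V) → Prop
  | .mem i j, v => v i ∈ v j
  | .eq i j, v => v i = v j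
  | .pred i, v => v i ∈ A
  | .neg φ, v => ¬ Sat K A φ v
  | .and φ ψ, v => Sat K A φ v ∧ Sat K A ψ v
  | .ex φ, v => ∃ x ∈ K, Sat K A φ (cons x v)

/-- `f` is a function from `a` onto `b`. -/
def Onto (f a b : V) : Prop := IsFunc a b f ∧ ∀ y ∈ b, ∃ x ∈ a, pair x y ∈ f

/-- `(K, ∈, A)` is a transitive model of ZF without Power Set (with Collection), containing `ω`.
Extensionality and Foundation hold in every transitive class. -/
structure ZFm (K A : Set V) : Prop where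
  trans : ∀ x ∈ K, ∀ y ∈ x, y ∈ K
  omega : omega ∈ K
  pair : ∀ x ∈ K, ∀ y ∈ K, ({x, y} : V) ∈ K
  union : ∀ x ∈ K, (⋃₀ x : V) ∈ K
  sep : ∀ (φ : Fml) (v : ℕ → V), (∀ i, v i ∈ K) → ∀ a ∈ K,
    ∃ b ∈ K, ∀ x, x ∈ b ↔ x ∈ a ∧ Sat K A φ (cons x v)
  coll : ∀ (φ : Fml) (v : ℕ → V), (∀ i, v i ∈ K) → ∀ a ∈ K,
    (∀ x ∈ a, ∃ y ∈ K, Sat K A φ (cons y (cons x v))) →
    ∃ b ∈ K, ∀ x ∈ a, ∃ y ∈ b, Sat K A φ (cons y (cons x v))

/-- `(K, ∈, A)` is a transitive model of ZFC without Power Set: every set can be enumerated by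
an ordinal. -/
def ZFCm (K A : Set V) : Prop :=
  ZFm K A ∧ ∀ a ∈ K, ∃ α ∈ K, IsOrdinal α ∧ ∃ f ∈ K, Onto f α a

/-- `W` is a transitive model of ZFC. -/
def ZFC (W : Set V) : Prop :=
  ZFCm W ∅ ∧ ∀ a ∈ W, ∃ p ∈ W, ∀ z ∈ W, z ⊆ a → z ∈ p

/-- The subsets of `X` that are definable with parameters in `(X, ∈, A)`. -/
noncomputable def Def (A X : V) : V :=
  (powerset X).sep fun y => ∃ (φ : Fml) (v : ℕ → V), (∀ i, v i ∈ X ∨ v i = ∅) ∧
    ∀ z ∈ X, z ∈ y ↔ Sat X A φ (cons z v)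

/-- The constructible hierarchy that starts with `x` and uses the predicate `A`:
`Lh x A α = x ∪ ⋃ β ∈ α, Def A (Lh x A β)`.  So `L_τ[A] = Lh ∅ A τ` and
`L_γ(N) = Lh (N ∪ {N}) ∅ γ`. -/
noncomputable def Lh (x A : V) : V → V :=
  mem_wf.fix fun α ih => x ∪ ZFSet.iUnion fun β : α => Def A (ih β.1 β.2)

/-- `σ` is an elementary embedding of `(M, ∈, B)` into `(N, ∈, A)`. -/
def Elem (σ M B N A : V) : Prop :=
  IsFunc M N σ ∧ ∀ (φ : Fml) (v w : ℕ → V), (∀ i, pair (v i) (w i) ∈ σ) →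
    (Sat M B φ v ↔ Sat N A φ w)

/-- The elements of `N` definable in `(N, ∈, A)` from parameters in `d ∪ ran σ`. -/
def Hull (N A d σ : V) : Set V :=
  {y | y ∈ N ∧ ∃ (φ : Fml) (v : ℕ → V), (∀ i, v i ∈ d ∨ ∃ x, pair x (v i) ∈ σ) ∧
    ∀ z ∈ N, Sat N A φ (cons z v) ↔ z = y}

/-- `P` is a forcing notion: a nonempty preorder, given as the set of pairs `(p, q)` with `p ≤ q`.
The conditions are the `p` with `(p, p) ∈ P`. -/
def Po (P : V) : Prop :=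
  P ≠ ∅ ∧ (∀ z ∈ P, ∃ p q, z = pair p q ∧ pair p p ∈ P ∧ pair q q ∈ P) ∧
    ∀ p q r, pair p q ∈ P → pair q r ∈ P → pair p r ∈ P

/-- `D` is a dense set of conditions. -/
def Dense (P D : V) : Prop :=
  (∀ p ∈ D, pair p p ∈ P) ∧ ∀ p, pair p p ∈ P → ∃ q ∈ D, pair q p ∈ P

/-- `G` is a filter on `P`. -/
def Filt (P G : V) : Prop :=
  G ≠ ∅ ∧ (∀ p ∈ G, pair p p ∈ P) ∧ (∀ p ∈ G, ∀ q, pair p q ∈ P → q ∈ G) ∧
    ∀ p ∈ G, ∀ q ∈ G, ∃ r ∈ G, pair r p ∈ P ∧ pair r q ∈ P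

/-- `G` is `P`-generic over `K`. -/
def Generic (K : Set V) (P G : V) : Prop :=
  Filt P G ∧ ∀ D ∈ K, Dense P D → ∃ p ∈ G, p ∈ D

theorem name_wf : WellFounded fun σ τ : V => σ ∈ (⋃₀ (⋃₀ τ) : V) := by
  refine Subrelation.wf (r := InvImage (· < ·) rank) ?_ (InvImage.wf _ Ordinal.lt_wf)
  intro σ τ h
  exact (rank_lt_of_mem h).trans_le ((rank_sUnion_le _).trans (rank_sUnion_le _))

/-- The value of a name: `val G τ = {val G σ | ∃ p ∈ G, (σ, p) ∈ τ}`. -/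
noncomputable def val (G : V) : V → V :=
  name_wf.fix fun τ ih =>
    range fun σ : {σ : (⋃₀ (⋃₀ τ) : V) // ∃ p ∈ G, pair σ.1 p ∈ τ} => ih σ.1.1 σ.1.2

/-- The generic extension `K[G]`. -/
def Ext (K : Set V) (G : V) : Set V := val G '' K

/-- `x` is countable in `W`. -/
def Ctbl (W : Set V) (x : V) : Prop := x = ∅ ∨ ∃ f ∈ W, Onto f omega x

/-- `w` is the `ω₁` of `W`. -/
def Om1 (W : Set V) (w : V) : Prop :=
  w ∈ W ∧ IsOrdinal w ∧ ¬ Ctbl W w ∧ ∀ α ∈ w, Ctbl W α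

/-- `θ` is a cardinal of `W`. -/
def Card (W : Set V) (θ : V) : Prop :=
  θ ∈ W ∧ IsOrdinal θ ∧ ∀ α ∈ θ, ¬ ∃ f ∈ W, Onto f α θ

/-- `x ∈ H_θ` in the sense of `W`. -/
def InH (W : Set V) (θ x : V) : Prop :=
  ∃ t ∈ W, IsTransitive t ∧ x ∈ t ∧ ∃ α ∈ θ, ∃ f ∈ W, Onto f α t

/-- `d = δ(P)` in `W`: the least size of a dense subset of `P`. -/
def Delta (W : Set V) (P d : V) : Prop :=
  IsOrdinal d ∧ (∃ D ∈ W, Dense P D ∧ ∃ f ∈ W, Onto f d D) ∧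
    ∀ e ∈ d, ¬ ∃ D ∈ W, Dense P D ∧ ∃ f ∈ W, Onto f e D

/-- `N` is full (in `W`). -/
def Full (W : Set V) (N : V) : Prop :=
  ZFCm N ∅ ∧ ∃ γ ∈ W, IsOrdinal γ ∧ ZFCm (Lh (insert N N) ∅ γ) ∅ ∧
    ∀ x ∈ N, ∀ f ∈ Lh (insert N N) ∅ γ, IsFunc x N f → ∃ r ∈ N, Onto f x r

/-- Jensen's condition for `P` at `θ`, read in `W` and required only of the models `N = L_τ[A]`
with `A ∈ N`.  Then `B ∩ M ∈ M` by elementarity, so the set `M` is full if and only if the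
structure `(M, ∈, B)` is full, and a map that sends `B ∩ M` to `A` respects the predicates.  So
every subcomplete forcing has this property, whether the models are read with or without the
predicate. -/
def SubAt (W : Set V) (P θ : V) : Prop :=
  ∀ A ∈ W, ∀ τ ∈ W, ∀ N, IsOrdinal τ → N = Lh ∅ A τ → A ∈ N → ZFCm N A →
  (∀ x, InH W θ x → x ∈ N) →
  ∀ M ∈ W, ∀ B ∈ W, ∀ σ ∈ W, Ctbl W M → Full W M → Elem σ M B N A →
  ∀ θ' P' s' s, pair θ' θ ∈ σ → pair P' P ∈ σ → pair s' s ∈ σ →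
  ∀ H ∈ W, Generic M P' H →
  ∃ p, pair p p ∈ P ∧ ∀ G, Generic W P G → p ∈ G →
    ∃ σ' ∈ Ext W G, Elem σ' M B N A ∧ pair θ' θ ∈ σ' ∧ pair P' P ∈ σ' ∧ pair s' s ∈ σ' ∧
      (∀ x ∈ H, ∀ y, pair x y ∈ σ' → y ∈ G) ∧
      ∀ d, Delta W P d → Hull N A d σ' = Hull N A d σ

/-- `P` satisfies the condition at all large `θ`; every subcomplete forcing of `W` does. -/
def SubC (W : Set V) (P : V) : Prop :=
  ∃ θ₀ ∈ W, IsOrdinal θ₀ ∧ ∀ θ, Card W θ → θ₀ ∈ θ → InH W θ P → SubAt W P θ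

/-- The subcomplete forcing axiom holds in `W`. -/
def SCFA (W : Set V) : Prop :=
  ∀ P ∈ W, Po P → SubC W P → ∀ w, Om1 W w → ∀ S ∈ W, ∀ f ∈ W, Onto f w S →
    (∀ D ∈ S, Dense P D) → ∃ G ∈ W, Filt P G ∧ ∀ D ∈ S, ∃ p ∈ G, p ∈ D

/-- `W` has a Kurepa tree `T`.  Its nodes are pairs `(α, s)` with `s ⊆ α < ω₁`, the predecessors
of `(α, s)` are the `(β, s ∩ β)` with `β < α`, and `b ⊆ ω₁` gives the cofinal branch of all
`(α, b ∩ α)`.  The nonempty set `S` of such `b` has more than `ℵ₁` members in `W`. -/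
def Kurepa (W : Set V) : Prop :=
  ∃ w, Om1 W w ∧ ∃ T ∈ W, (∀ z ∈ T, ∃ α ∈ w, ∃ s, s ⊆ α ∧ z = pair α s) ∧
    (∀ α s, pair α s ∈ T → ∀ β ∈ α, pair β (s ∩ β) ∈ T) ∧
    (∀ α ∈ w, ∃ t ∈ W, t ≠ ∅ ∧ Ctbl W t ∧ ∀ s, s ∈ t ↔ pair α s ∈ T) ∧
    ∃ S ∈ W, S ≠ ∅ ∧ (∀ b ∈ S, b ⊆ w ∧ ∀ α ∈ w, pair α (b ∩ α) ∈ T) ∧ ¬ ∃ f ∈ W, Onto f w S

/-- `k` is supercompact: for every set `a` there is a `k`-complete, fine, normal ultrafilter on
the subsets of `a` of size less than `k`. -/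
def Supercompact (k : Cardinal.{0}) : Prop :=
  ℵ₀ < k ∧ ∀ a : Type, ∃ U : Ultrafilter (Set a), {X : Set a | #X < k} ∈ U ∧
    CardinalInterFilter (U : Filter (Set a)) k ∧ (∀ x : a, {X : Set a | x ∈ X} ∈ U) ∧
    ∀ f : Set a → a, {X | f X ∈ X} ∈ U → ∃ x, {X | f X = x} ∈ U

end Pool.Agent.Lib.MP_329f2d_lc
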