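import Pool.Agent.Lib.MP_329f2d_lc.H59Back
import Pool.Agent.Lib.MP_329f2d_lc.H55Loc2
import Pool.Agent.Lib.MP_329f2d_lc.H5Tree

/-! The lottery step when the generic filter chooses a counterexample. -/

namespace Pool.Agent.Lib.MP_329f2d_lc.It

open ZFSet Order

set_option linter.unusedSectionVars false

variable {κ : O} {R : O → V}

/-- The relations used in this step. -/
def FT (κ : O) (R : O → V) (i _k : ℕ) : R6 := fun a b c d e y => match i with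
  | 0 => cl (R (rank b)) (sk R (rank a) (fst d) (pair c (snd d))) ⊆ e
  | 1 => y = PP (R (rank a))
  | 2 => b ∈ CxSet κ (PP (R (rank a)))
  | 3 => y = fst a
  | 4 => y = fst (snd (snd (snd a)))
  | 5 => pair b b ∈ fst a
  | 6 => ∃ q ∈ a, y ∈ q
  | 7 => y ∈ a ∧ b ∈ y
  | 8 => y = io R (rank a) b c
  | 9 => ∃ e ∈ d, y = io R (rank a) b e ∧ pair e (fst c) ∈ fst b ∧ pair e (snd c) ∈ fst b
  | 10 => y ∈ d ∧ e = io R (rank a) b y ∧ pair y (fst c) ∈ fst b ∧ pair y (snd c) ∈ fst b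
  | 11 => y = fld a
  | 12 => ∃ p u, y = sk R (rank a) p u ∧ pair (pair p u) (pair p u) ∈ Stp R κ (rank a) ∧
      (u ≠ ∅ ∨ ∀ p' u', pair (pair p' u') (pair p u) ∈ Stp R κ (rank a) → u' = ∅)
  | 13 => b = sk R (rank a) (fst y) (snd y) ∧ pair (pair (fst y) (snd y)) (pair (fst y) (snd y)) ∈
      Stp R κ (rank a) ∧ (snd y ≠ ∅ ∨ ∀ p' u', pair (pair p' u') (pair (fst y) (snd y)) ∈
        Stp R κ (rank a) → u' = ∅)
  | _ => y = ∅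

theorem io_inj (H : Iter κ R) {a : O} (hn : IsSuccLimit a) {x : V} (hx : x ∈ CxSet κ (PP (R a)))
    {e e' : V} (h : pair e e ∈ fst x) (h' : pair e' e' ∈ fst x) (H' : io R a x e = io R a x e') :
    e = e' := by
  have c8 := fun {e e'} (h : pair e e' ∈ fst x) =>
    (ext_le (H.sys _) (H.ext _) (io_stp H hn hx h)).1
  obtain ⟨c9, c10⟩ := sk_inj (H.sys _) (c8 h) (c8 h') H'
  obtain ⟨p, s, rfl, -⟩ := (extOf_of_mem_CxSet hx).fst _ h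
  obtain ⟨p', s', rfl, -⟩ := (extOf_of_mem_CxSet hx).fst _ h'
  simp only [fst_pair, snd_pair, pair_inj, true_and] at c9 c10
  rw [c9, c10]

/-- A list as a set. -/
noncomputable def code (l : List (V × V)) : V := l.foldr (fun z u => pair z.1 u) ∅

theorem exists_nth {l : List (V × V)} {z : V × V} (h : z ∈ l) : ∃ k, z.1 = fst (snd^[k] (code l)) := by
  induction l with
  | nil => simp at h
  | cons z' l ih =>
    rcases List.mem_cons.1 h with rfl | h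
    · exact ⟨0, (fst_pair _ _).symm⟩
    · obtain ⟨k, hk⟩ := ih h
      exact ⟨k + 1, by rw [Function.iterate_succ_apply, code, List.foldr_cons, snd_pair]; exact hk⟩

theorem tm_iter (k : ℕ) (i : ℕ) : Tm ZF fun _ (v : ℕ → V) => snd^[k] (v i) := by
  induction k with
  | zero => exact tm_var i
  | succ k ih => simp only [Function.iterate_succ_apply']; infer_instance

theorem pe_nth {M N : Set V} {m : V → V → Prop} (hm : PE M N m) (hM : ZF M) (hN : ZF N)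
    (hD : ∀ x y, m x y → x ∈ M ∧ y ∈ N) {z z' y y' : V} (hz : m z z') (hy : m y y') (k : ℕ) :
    y = fst (snd^[k] z) ↔ y' = fst (snd^[k] z') :=
  have := tm_iter k 0
  pe2 (K := ZF) (fun _ z y => y = fst (snd^[k] z)) hm hM hN hD hz hy

namespace Ctx

variable (C : Ctx)

theorem s_x0 {a : V} (h : a ∈ C.M) : C.X0 (C.s a) := ⟨C.sX a h, (C.emb.dom a _ ⟨h, rfl⟩).2⟩

theorem s_pair {a b : V} (ha : a ∈ C.M) (hb : b ∈ C.M) :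
    C.s (ZFSet.pair a b) = ZFSet.pair (C.s a) (C.s b) :=
  (emb2 (K := ZF) (fun _ a b => ZFSet.pair a b) C.emb C.Mz.1 C.la.1.1 ⟨ha, rfl⟩ ⟨hb, rfl⟩).2.symm

theorem s_le {a b P : V} (ha : a ∈ C.M) (hb : b ∈ C.M) (hP : P ∈ C.M) :
    ZFSet.pair a b ∈ P ↔ ZFSet.pair (C.s a) (C.s b) ∈ C.s P := by
  rw [← C.s_pair ha hb]
  exact C.emb.pe.mem_iff ⟨C.Mz.1.opair ha hb, rfl⟩ ⟨hP, rfl⟩

theorem x0_code (h0 : C.X0 ∅) {l : List (V × V)} (h : ∀ z ∈ l, C.X0 z.1) : C.X0 (code l) := by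
  induction l with
  | nil => exact h0
  | cons z l ih =>
    obtain ⟨a, a1, a2⟩ := C.Xs _ (h z List.mem_cons_self).1 (h z List.mem_cons_self).2
    have := ih fun z hz => h z (List.mem_cons_of_mem _ hz)
    obtain ⟨b, b1, b2⟩ := C.Xs _ this.1 this.2
    have e : code (z :: l) = C.s (ZFSet.pair a b) := by rw [C.s_pair a1 b1, a2, b2]; rfl
    exact e ▸ C.s_x0 (C.Mz.1.opair a1 b1)

/-- Pulling a generic filter back to the collapse. -/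
theorem pull {Q : V} (hQ : Q ∈ C.M) (hB : C.s Q ∈ C.B) (hP : Po (C.s Q)) {Γ : V → Prop}
    (h1 : ∀ p, Γ p → C.Y p ∧ ZFSet.pair p p ∈ C.s Q)
    (h2 : ∀ p q, Γ p → C.Y q → ZFSet.pair p q ∈ C.s Q → Γ q)
    (h3 : ∀ p q, Γ p → Γ q → ∃ r, Γ r ∧ ZFSet.pair r p ∈ C.s Q ∧ ZFSet.pair r q ∈ C.s Q)
    (h4 : ∀ D, C.Y D → Dense (C.s Q) D → ∃ p ∈ D, Γ p) (h0 : ∃ p, Γ p) :
    Generic C.M Q (C.M.sep fun p => Γ (C.s p)) ∧ Full w1 (ExtV C.M (C.M.sep fun p => Γ (C.s p))) := by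
  have k : ∀ p, Γ p → ∃ a ∈ C.M.sep fun p => Γ (C.s p), C.s a = p := fun p hp => by
    obtain ⟨a, a1, rfl⟩ := C.Xs p (h1 p hp).1.1 (h1 p hp).1.x0.2
    exact ⟨a, mem_sep.2 ⟨a1, hp⟩, rfl⟩
  refine C.full Q hQ hP _ ⟨fun e => ?_, fun p hp => ?_, fun p hp q hq => ?_, fun p hp q hq => ?_⟩
    fun D a1 a2 => ?_
  · obtain ⟨p, hp⟩ := h0
    obtain ⟨a, ha, -⟩ := k p hp
    exact notMem_empty _ (e ▸ ha)
  · rw [mem_sep] at hp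
    exact (C.s_le hp.1 hp.1 hQ).2 (h1 _ hp.2).2
  · rw [mem_sep] at hp
    have hqM := mem_of_pair_right C.Mz.1.trans (C.Mz.1.mem hq hQ)
    have := (C.s_le hp.1 hqM hQ).1 hq
    exact mem_sep.2 ⟨hqM, h2 _ _ hp.2 ⟨C.sX q hqM, C.hB _ hB _
      ((rank_right_lt _ _).trans (rank_lt_of_mem this)).le⟩ this⟩
  · rw [mem_sep] at hp hq
    obtain ⟨r, a1, a2, a3⟩ := h3 _ _ hp.2 hq.2
    obtain ⟨a, ha, rfl⟩ := k r a1
    exact ⟨a, ha, (C.s_le (mem_sep.1 ha).1 hp.1 hQ).2 a2, (C.s_le (mem_sep.1 ha).1 hq.1 hQ).2 a3⟩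
  · obtain ⟨p, b1, b2⟩ := h4 D ⟨a1, C.hB _ hB _ ((rank_mono fun p hp => mem_fld.2 (a2.1 p hp)).trans
      (rank_fld_le _))⟩ a2
    obtain ⟨a, ha, rfl⟩ := k p b2
    exact ⟨a, ha, b1⟩

end Ctx

namespace GC

variable {C : GC κ R} {τ a0 a c b0 b : V} {Rel : V → V → V → Prop} {l : List (V × V)}

theorem Good.tag (hT : ∀ i k, C.Tame (FT κ R i k)) (h : C.Good τ a0 a c Rel l) (hb : C.Y b0)
    (hl : (b0, b) ∈ l) (e : succ (rank a0) = rank b0) (hk : rank b0 ≤ κ)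
    (hn : IsSuccLimit (rank a0)) {x0 v0 : V} (hx0 : C.Y x0) (hv0 : C.Y v0)
    (hx : x0 ∈ CxSet κ (PP (R (rank a0)))) (hv : pair v0 v0 ∈ fst x0)
    (hG : C.Ga (rank b0) (cl (R (rank b0)) (io R (rank a0) x0 v0))) :
    ∃ c' Rel', C.Good τ b0 b c' Rel' l ∧ c' ⊆ up R (rank a) (rank b) c := by
  have ha := h.ya
  have hab : rank a0 ≤ rank b0 := e ▸ le_succ _
  have hE0 := extOf_of_mem_CxSet hx
  have hP0 := C.po (rank b0)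
  have i1 : ∀ {e e'}, pair e e' ∈ fst x0 →
      pair (io R (rank a0) x0 e) (io R (rank a0) x0 e') ∈ R (rank b0) :=
    fun H => e ▸ io_le C.it hn hx H
  have i2 : ∀ {d e}, pair e e ∈ fst x0 → pair d (io R (rank a0) x0 e) ∈ R (rank b0) →
      ∃ e₁, pair e₁ e ∈ fst x0 ∧ d = io R (rank a0) x0 e₁ := fun H H' => le_io C.it hn hx H (e ▸ H')
  let Γ : V → Prop := fun v => C.Y v ∧ pair v v ∈ fst x0 ∧
    C.Ga (rank b0) (cl (R (rank b0)) (io R (rank a0) x0 v))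
  have g1 : ∀ {v}, Γ v → C.Ga (rank a0) (fst v) := fun {v} H =>
    have := io_stp C.it hn hx H.2.1
    H.2.2.of_up ha hab hk (C.fst H.1) (ext_le (C.sys _) (C.it.ext _) this).1.1 (e ▸ C.cl_sk_sub this)
  have DD : ∀ q, C.Ga (rank b0) q → ∀ v v', Γ v → Γ v' → ∀ D, C.Y D → Dense (fst x0) D →
      ∃ w ∈ D, Γ w ∧ pair w v ∈ fst x0 ∧ pair w v' ∈ fst x0 ∧ io R (rank a0) x0 w ∈ q := by
    intro q hq v v' h1 h2 D h3 h4
    obtain ⟨y, a1, a2, a3, a4⟩ := (hq.inter (h1.2.2.inter h2.2.2)).dense hb hk (hT 9 0) ha hx0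
      (C.pair h1.1 h2.1) h3 ha fun d hd => by
        obtain ⟨b1, b2⟩ := mem_inter.1 (mem_inter.1 hd).2
        obtain ⟨d₁, b3, b4⟩ := exists_le_of_mem_cl hP0 b1
        obtain ⟨d₂, b5, b6⟩ := exists_le_of_mem_cl hP0 ((ro_cl hP0 _).down hP0 b2 b3)
        obtain ⟨e₁, b7, rfl⟩ := i2 h1.2.1 (hP0.trans b5 b4)
        obtain ⟨e₂, b8, b9⟩ := i2 h2.2.1 b6
        obtain rfl := io_inj C.it hn hx (hE0.po.left b7) (hE0.po.left b8) b9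
        obtain ⟨w, c1, c2⟩ := h4.2 e₁ (hE0.po.left b7)
        exact ⟨_, hP0.trans (i1 c2) (hP0.trans b5 b3), w, c1, rfl, by
          rw [fst_pair]; exact hE0.po.trans c2 b7, by rw [snd_pair]; exact hE0.po.trans c2 b8⟩
    obtain ⟨w, b1, b2, rfl, b3, b4⟩ := C.sk (hT 10 0) ha hx0 (C.pair h1.1 h2.1) h3 a2 a3
    rw [fst_pair] at b3
    rw [snd_pair] at b4
    exact ⟨w, b2, ⟨b1, hE0.po.left b3, a4⟩, b3, b4, (mem_inter.1 a1).1⟩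
  obtain ⟨_, yF, rfl⟩ := C.sk (hT 11 0) (C.fst hx0) ha ha ha ha ⟨_, rfl⟩
  have dF : Dense (fst x0) (fld (fst x0)) :=
    ⟨fun _ => mem_fld.1, fun p hp => ⟨p, mem_fld.2 hp, hp⟩⟩
  have Γ0 : Γ v0 := ⟨hv0, hv, hG⟩
  obtain ⟨_, yP, rfl⟩ := C.sk (hT 1 0) ha ha ha ha ha ⟨_, rfl⟩
  have yu := C.fst (C.snd (C.snd (C.snd hx0)))
  obtain ⟨P', P1, P2⟩ := C.Xs _ yP.1 (C.BN yP.2)
  obtain ⟨E', E1, E2⟩ := C.Xs _ (C.fst hx0).1 (C.BN (C.fst hx0).2)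
  obtain ⟨u', u1, u2⟩ := C.Xs _ yu.1 (C.BN yu.2)
  obtain ⟨A', A1, A2⟩ := C.Xs _ C.AX C.la.2.1
  have hp0 := C.po (rank a0)
  obtain ⟨H1, H2⟩ := C.pull P1 (P2 ▸ yP.2) (P2 ▸ po_PP hp0) (Γ := C.Ga (rank a0))
    (fun p hp => ⟨hp.1, P2 ▸ (cond_PP hp0).2 (hp.pos h.le)⟩)
    (fun p q hp hq H => by
      rw [P2, mem_PP hp0] at H; exact hp.mono ha h.le hq H.2.1.1 H.2.2)
    (fun p q hp hq => ⟨_, hp.inter hq, by
      rw [P2, mem_PP hp0, mem_PP hp0]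
      exact ⟨⟨(hp.inter hq).pos h.le, hp.pos h.le, inter_sub_left _ _⟩,
        (hp.inter hq).pos h.le, hq.pos h.le, inter_sub_right _ _⟩⟩)
    (fun D h1 h2 => by
      rw [P2] at h2
      obtain ⟨y, -, a2, a3, a4⟩ := (ga_fld ha h.le).dense ha h.le (hT 6 0) h1 ha ha ha ha
        fun d hd => by
          obtain ⟨q, b1, b2⟩ := h2.2 _ ((cond_PP hp0).2 (pos_cl hp0 (mem_fld.1 hd)))
          obtain ⟨⟨b3, y₁, b4⟩, -, b5⟩ := (mem_PP hp0).1 b2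
          obtain ⟨y₂, b6, b7⟩ := exists_le_of_mem_cl hp0 (b5 b4)
          exact ⟨y₂, b7, q, b1, b3.down hp0 b4 b6⟩
      obtain ⟨q, b1, b2, b3⟩ := C.sk (hT 7 0) h1 a2 ha ha ha a3
      have b4 := ((cond_PP hp0).1 (h2.1 q b2)).1
      exact ⟨q, b2, a4.mono ha h.le b1 b4 (b4.cl_sub hp0 b3)⟩) ⟨_, ga_fld ha h.le⟩
  obtain ⟨H3, -⟩ := C.pull E1 (E2 ▸ (C.fst hx0).2) (E2 ▸ hE0.po) (Γ := Γ)
    (fun p hp => ⟨hp.1, E2 ▸ hp.2.1⟩)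
    (fun p q hp hq H => by
      rw [E2] at H
      obtain ⟨_, a1, rfl⟩ := C.sk (hT 8 0) ha hx0 hq ha ha ⟨_, rfl⟩
      exact ⟨hq, hE0.po.right H, hp.2.2.mono hb hk (y_cl hb a1) (ro_cl hP0 _) (cl_mono hP0 (i1 H))⟩)
    (fun p q hp hq => by
      obtain ⟨w, -, a1, a2, a3, -⟩ := DD _ hG p q hp hq _ yF dF
      exact ⟨w, a1, E2 ▸ a2, E2 ▸ a3⟩)
    (fun D h1 h2 => by
      obtain ⟨w, a0, a1, -⟩ := DD _ hG _ _ Γ0 Γ0 D h1 (E2 ▸ h2)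
      exact ⟨w, a0, a1⟩) ⟨_, Γ0⟩
  have H4 : Proj P' (C.M.sep fun p => Γ (C.s p)) (C.M.sep fun p => C.Ga (rank a0) (C.s p)) := by
    intro p
    constructor
    · intro hp
      rw [mem_sep] at hp
      obtain ⟨w, -, a1, -, -, a4⟩ := DD _ (hp.2.up ha hb hab hk) _ _ Γ0 Γ0 _ yF dF
      obtain ⟨p₁, t₁, rfl, a5⟩ := hE0.fst _ a1.2.1
      obtain ⟨p', b1, rfl⟩ := C.Xs _ a1.1.left.1 a1.1.left.x0.2
      obtain ⟨t', b2, rfl⟩ := C.Xs _ a1.1.right.1 a1.1.right.x0.2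
      rw [cond_PP hp0] at a5
      have a6 := (mem_up.1 a4).2
      rw [rho_lt (e ▸ lt_succ _), io, fst_pair, co_sk_self (C.sys _) a5] at a6
      exact ⟨p', t', mem_sep.2 ⟨C.Mz.1.opair b1 b2, by rwa [C.s_pair b1 b2]⟩, (C.s_le b1 hp.1 P1).2
        (P2 ▸ (mem_PP hp0).2 ⟨a5, hp.2.pos h.le, a6⟩)⟩
    · rintro ⟨p', t', a1, a2⟩
      rw [mem_sep] at a1
      have b1 := mem_of_pair_left C.Mz.1.trans a1.1
      have b2 := g1 a1.2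
      rw [C.s_pair b1 (mem_of_pair_right C.Mz.1.trans a1.1), fst_pair] at b2
      exact H1.1.2.2.1 p' (mem_sep.2 ⟨b1, b2⟩) p a2
  obtain ⟨r₁, x, r1, k1⟩ := h.decide hx0.x0
  have yz := C.x0_code y_empty.x0 fun z hz => (k1.dom (k1.dec (x := z.1) (y := z.2) hz)).1
  obtain ⟨z', z1, z2⟩ := C.Xs _ yz.1 yz.2
  obtain ⟨r₂, z, r2, k2⟩ := k1.decide yz
  obtain ⟨r₃, v, r3, k3⟩ := k2.decide hv0.x0
  obtain ⟨r₄, P, r4, k4⟩ := k3.decide (Ctx.Y.x0 yP)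
  obtain ⟨r₅, E, r5, k5⟩ := k4.decide (Ctx.Y.x0 (C.fst hx0))
  obtain ⟨r, u, r6, k⟩ := k5.decide (Ctx.Y.x0 yu)
  have s0 := k.s0
  have dx : C.Y x0 ∧ Rel r x0 x := ⟨hx0, k.dec (by simp)⟩
  have dv : C.Y v0 ∧ Rel r v0 v := ⟨hv0, k.dec (by simp)⟩
  have dP : Rel r (PP (R (rank a0))) P := k.dec (by simp)
  have dE : Rel r (fst x0) E := k.dec (by simp)
  have du : Rel r (fst (snd (snd (snd x0)))) u := k.dec (by simp)
  have dz : Rel r (code ((x0, x) :: l)) z := k.dec (by simp)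
  have hx' : x ∈ CxSet κ (PP (R (rank a))) := k.tf (hT 2 0) s0 dx s0 s0 s0 s0 hx
  obtain rfl : P = PP (R (rank a)) := k.tf (hT 1 0) s0 s0 s0 s0 s0 ⟨yP, dP⟩ rfl
  obtain rfl : E = fst x := k.tf (hT 3 0) dx s0 s0 s0 s0 ⟨C.fst hx0, dE⟩ rfl
  obtain rfl : u = fst (snd (snd (snd x))) := k.tf (hT 4 0) dx s0 s0 s0 s0 ⟨yu, du⟩ rfl
  have hv' : pair v v ∈ fst x := k.tf (hT 5 0) dx dv s0 s0 s0 s0 hv
  have hE := extOf_of_mem_CxSet hx'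
  have hp := C.po (rank a)
  obtain ⟨p₁, s₁, rfl, t1⟩ := hE.fst _ hv'
  rw [cond_PP hp] at t1
  have t2 : r ⊆ p₁ := k.sub_of (g1 Γ0) t1.1 fun r' y' b1 b2 => by
    rw [show y' = fst (pair p₁ s₁) from b2.tf (hT 3 0) ⟨hv0, h.mono dv.2 b2.pos b1⟩ b2.s0 b2.s0
      b2.s0 b2.s0 ⟨(g1 Γ0).1, b2.dec List.mem_cons_self⟩ rfl, fst_pair]
  have xB := k.memB hx0 dx.2
  obtain ⟨E, D, h', u, ρ, rfl, -, -, -, c1, c2, c3, c4, c5, c6, c7, c8, c9, -⟩ :=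
    (mem_CxSet.1 hx').2.1
  simp only [fst_pair, snd_pair] at hv' hE dE du
  let R₁ := (prod (fld (PP (R (rank a)))) (prod C.M C.N)).sep fun z =>
    ∃ r a' y, z = pair r (pair a' y) ∧ Rel r (C.s a') y
  have m1 : ∀ r a' y, In3 R₁ r a' y ↔ (Pos (R (rank a)) r ∧ a' ∈ C.M) ∧ Rel r (C.s a') y := by
    intro r a' y
    rw [In3, mem_sep, pair_mem_prod, pair_mem_prod, mem_fld, cond_PP hp]
    constructor
    · rintro ⟨⟨b1, b2, -⟩, _, _, _, e, b3⟩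
      simp only [pair_inj] at e
      obtain ⟨rfl, rfl, rfl⟩ := e
      exact ⟨⟨b1, b2⟩, b3⟩
    · exact fun ⟨⟨b1, b2⟩, b3⟩ => ⟨⟨b1, b2, (h.dom b3).2⟩, _, _, _, rfl, b3⟩
  obtain ⟨p, t, f1, f2, R', -, -, f3, f4⟩ := c9.all c1 c2 c3 c4 c5 c6 c7
    (fun ⟨f, hf⟩ => c8 ⟨f, trivial, hf⟩) (po_PP hp) (insert (rk C.N) (rk C.N)) C.N trivial
    (mem_insert _ _) (fun y hy => C.BN (C.hB _ xB _ ((rank_lt_of_mem hy).trans ((rank_left_lt _ _).trans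
      ((rank_right_lt _ _).trans (rank_right_lt _ _)))).le)) C.A C.la C.M trivial (ctbl_univ C.Mc)
    C.Mz P' P1 E' E1 _ trivial _ trivial H3 H4 H2 r
    ⟨s₁, hE.po.left (hE.res _ _ _ hv' ((mem_PP hp).2 ⟨k.pos, t1, t2⟩))⟩ R₁ trivial
    (fun z hz => let ⟨r, a', y, e, _⟩ := (mem_sep.1 hz).2; ⟨r, a', y, e⟩)
    ⟨fun r r' a' y b1 b2 => by
      rw [m1] at *; rw [mem_PP hp] at b2; exact ⟨⟨b2.1, b1.1.2⟩, h.mono b1.2 b2.1 b2.2.2⟩,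
    fun r a' y b1 => by
      rw [m1] at b1; exact ⟨(cond_PP hp).2 b1.1.1, b1.1.2, (h.dom b1.2).2⟩,
    fun r' b1 a' b2 => by
      rw [mem_PP hp] at b1
      obtain ⟨r'', y, b3, b4, b5⟩ := k.total b1.1 b1.2.2 (C.s_x0 b2)
      exact ⟨r'', y, (mem_PP hp).2 ⟨b3, b1.1, b4⟩, (m1 _ _ _).2 ⟨⟨b3, b2⟩, b5⟩⟩,
    fun r' b1 φ v w b2 => by
      rw [mem_PP hp] at b1
      simp only [m1] at b2
      exact (C.emb.pe φ v (fun i => C.s (v i)) fun i => ⟨(b2 i).1.2, rfl⟩).trans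
        (k.pe b1.1 b1.2.2 φ _ w fun i => (b2 i).2),
    fun r' b1 a' b2 y b3 r₁ b4 => by
      rw [mem_PP hp] at b1 b4
      rw [m1] at b3
      have b5 := (mem_sep.1 b2).2
      have k' := k.res b1.1 b1.2.2
      exact ⟨r₁, (cond_PP hp).2 b4.1, (mem_PP hp).2 ⟨b4.1, k'.tf_pos k'.s0 ⟨b5.1, b3.2⟩
        (b5.pos h.le), sub_trans b4.2.2 (k.gen b1.1 b1.2.2 b5 b3.2)⟩⟩⟩ u' A' z' z
    ((m1 _ _ _).2 ⟨⟨k.pos, P1⟩, P2 ▸ dP⟩) ((m1 _ _ _).2 ⟨⟨k.pos, E1⟩, E2 ▸ dE⟩)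
    ((m1 _ _ _).2 ⟨⟨k.pos, u1⟩, u2 ▸ du⟩) ((m1 _ _ _).2 ⟨⟨k.pos, A1⟩, by rw [A2]; exact k.dec k.hA⟩)
    ((m1 _ _ _).2 ⟨⟨k.pos, z1⟩, z2 ▸ dz⟩)
  have r7 := sub_trans r6 (sub_trans r5 (sub_trans r4 (sub_trans r3 r2)))
  have k' := k1.res k.pos r7
  obtain ⟨c', Rel', f5, f6⟩ := k'.back hb (List.mem_cons_of_mem _ hl) e hk (k.tf_lim s0 hn) hx0
    List.mem_cons_self hx' (hT 0 0) (v := pair p t) (by rw [fst_pair]; exact f3)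
    (by rwa [fst_pair]) (by rw [fst_pair]; exact ((mem_PP hp).1 f2).2.2) (fun q hq => by
      obtain ⟨w, -, a1, -, -, a4⟩ := DD q hq _ _ Γ0 Γ0 _ yF dF
      obtain ⟨w', b1, rfl⟩ := C.Xs _ a1.1.1 a1.1.x0.2
      exact ⟨w', mem_sep.2 ⟨b1, a1⟩, b1, a1.1, hq.2.1.cl_sub hP0 a4⟩) fun y hy e₂ b1 a' b2 y' b3 b4 => by
      rw [fst_pair] at b1
      obtain ⟨n, hn⟩ := exists_nth hy
      rw [(pe_nth (k.pe k.pos sub_rfl) C.la.1.1 C.la.1.1 (k.domN r) dz (k'.dec hy) n).1 hn]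
      refine (pe_nth (f3.pe e₂ b1) C.Mz.1 C.la.1.1 (fun _ _ H => (f3.dom _ _ _ H).2)
        (f3.mono _ _ _ _ f4 b1) b4 n).1 ((pe_nth C.emb.pe C.Mz.1 C.la.1.1 C.emb.dom ⟨z1, rfl⟩
          ⟨b2, rfl⟩ n).2 ?_)
      rw [b3, z2]
      exact hn
  exact ⟨c', Rel', f5.cut (List.subset_cons_self _ _) h.hZ h.hA hl,
    sub_trans f6 (up_mono (sub_trans r7 r1))⟩

/-- The lottery step. -/
theorem Good.step_lot (hT : ∀ i k, C.Tame (FT κ R i k)) (h : C.Good τ a0 a c Rel l) (hb : C.Y b0)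
    (hl : (b0, b) ∈ l) (e : succ (rank a0) = rank b0) (hk : rank b0 ≤ κ)
    (hn : IsSuccLimit (rank a0)) :
    ∃ c' Rel', C.Good τ b0 b c' Rel' l ∧ c' ⊆ up R (rank a) (rank b) c := by
  have ha := h.ya
  have S := C.sys (rank a0)
  have hE := C.it.ext (rank a0)
  have hS := C.it.sucSpec (rank a0)
  have key : ∀ q, C.Ga (rank b0) q → ∃ p u, C.Y p ∧ C.Y u ∧ sk R (rank a0) p u ∈ q ∧
      C.Ga (rank b0) (cl (R (rank b0)) (sk R (rank a0) p u)) ∧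
      pair (pair p u) (pair p u) ∈ Stp R κ (rank a0) ∧
      (u ≠ ∅ ∨ ∀ p' u', pair (pair p' u') (pair p u) ∈ Stp R κ (rank a0) → u' = ∅) := by
    intro q hq
    obtain ⟨y, a1, a2, a3, a4⟩ := hq.dense hb hk (hT 12 0) ha ha ha ha ha fun d hd => by
      obtain ⟨p, u, b1, rfl⟩ := cond_sk S hE hS (e ▸ hq.2.1.cond (C.po _) hd)
      by_cases H : ∀ p' u', pair (pair p' u') (pair p u) ∈ Stp R κ (rank a0) → u' = ∅
      · exact ⟨_, e ▸ sk_le S hE hS b1, p, u, rfl, b1, Or.inr H⟩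
      · push Not at H
        obtain ⟨p', u', b2, b3⟩ := H
        exact ⟨_, e ▸ sk_le S hE hS b2, p', u', rfl, hE.po.left b2, Or.inl b3⟩
    obtain ⟨z, b1, rfl, b2⟩ := C.sk (hT 13 0) ha a2 ha ha ha (let ⟨p, u, H⟩ := a3
      ⟨pair p u, by show _ ∧ _; rw [fst_pair, snd_pair]; exact H⟩)
    exact ⟨_, _, C.fst b1, C.snd b1, a1, a4, b2⟩
  by_cases hc : ∃ p u, C.Y p ∧ C.Y u ∧ C.Ga (rank b0) (cl (R (rank b0)) (sk R (rank a0) p u)) ∧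
      pair (pair p u) (pair p u) ∈ Stp R κ (rank a0) ∧ u ≠ ∅
  · obtain ⟨p, u, a1, a2, a3, a4, a5⟩ := hc
    rw [Stp, if_pos hn, mem_EL] at a4
    obtain e' | ⟨x, b1, s, rfl, b2⟩ := a4.1.2
    · exact absurd e' a5
    exact h.tag hT hb hl e hk hn a2.left (C.pair a1 a2.right) b1 b2
      (by rwa [io, fst_pair, snd_pair])
  have hn' := h.tf_lim h.s0 hn
  have hp := C.po (rank a)
  refine h.lift (s := ∅) hb hl e hk (by
    rw [Stp, if_pos hn', mem_EL]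
    exact LC.refl ⟨(cond_PP hp).2 h.pos, Or.inl rfl⟩) fun q hq => ?_
  obtain ⟨p, u, a1, a2, a3, a4, a5, -⟩ := key q hq
  obtain rfl : u = ∅ := by_contra fun H => hc ⟨p, u, a1, a2, a4, a5, H⟩
  have a6 := a4.of_up ha (e ▸ le_succ _) hk a1 (ext_le S hE a5).1.1 (e ▸ C.cl_sk_sub a5)
  refine ⟨p, ∅, a2, a6, hq.2.1.cl_sub (C.po _) a3, fun r p' s' k _ b2 p₁ s₁ b3 b4 => ?_⟩
  obtain rfl : s' = ∅ := k.tf (hT 14 0) k.s0 k.s0 k.s0 k.s0 k.s0 ⟨a2, k.dec (by simp)⟩ rfl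
  have b5 := k.tf_pos k.s0 ⟨a1, k.dec List.mem_cons_self⟩ (a6.pos h.le)
  rw [Stp, if_pos hn', mem_EL] at b3 ⊢
  exact ⟨b3.1, ⟨(cond_PP hp).2 b5, Or.inl rfl⟩,
    (mem_PP hp).2 ⟨(cond_PP hp).1 b3.1.1, b5, sub_trans b4 b2⟩, Or.inl rfl⟩

end GC

end Pool.Agent.Lib.MP_329f2d_lc.It
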