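import Pool.Agent.Lib.MP_329f2d_lc.H59Step
import Pool.Agent.Lib.MP_329f2d_lc.H59Tag
import Pool.Agent.Lib.MP_329f2d_lc.H58Base
import Pool.Agent.Lib.MP_329f2d_lc.H55Top
import Pool.Agent.Lib.MP_329f2d_lc.H35Nx

/-! The final forcing satisfies the package of properties. -/

namespace Pool.Agent.Lib.MP_329f2d_lc.It

open ZFSet Order

variable {κ : O} {R : O → V}

/-- The last level of the iteration preserves the first uncountable ordinal. -/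
theorem Iter.pres (H : Iter κ R) (hκ : Inacc κ) (F : V) (hF : FunNm (PP (R κ)) F omega w1)
    (c : V) (hc : pair c c ∈ PP (R κ)) : ∃ c', pair c' c ∈ PP (R κ) ∧ ∃ δ ∈ w1,
      ∀ r n ξ, pair r c' ∈ PP (R κ) → In3 F r n ξ → ξ ∈ δ := by
  let Φ : ℕ → ℕ → ℕ → R6 := fun j => match j with
    | 0 => F0 κ R
    | 1 => FB κ R
    | 2 => FT κ R
    | 3 => FP κ R F
    | _ => FM R
  obtain ⟨C₀, h1, h2⟩ := exists_ctx (fun n => Φ n.unpair.1 n.unpair.2.unpair.1 n.unpair.2.unpair.2)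
    {c} (Set.countable_singleton c)
  have h3 : ∀ j i k, C₀.Tame (Φ j i k) := fun j i k => by
    simpa only [Nat.unpair_pair] using h1 (Nat.pair j (Nat.pair i k))
  rw [cond_PP (H.po κ)] at hc
  have hy : C₀.Y c := h2 c rfl
  obtain ⟨C, rfl, h4⟩ := exists_gc C₀ H (h3 0) hy hc
  obtain ⟨δ, t, hT⟩ := C.exists_td hκ (h3 1)
  obtain ⟨k, k1, k2⟩ := GC.y_top (C := C)
  have h5 := GC.good_base (l := [(C.Z, C.Z), (C.A, C.A), (∅, ∅), (k, k), (c, c)]) hT (by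
    simp only [List.mem_cons, List.not_mem_nil, or_false]
    rintro _ (rfl | rfl | rfl | rfl | rfl)
    exacts [⟨⟨C.ZX, C.ZN⟩, rfl⟩, ⟨⟨C.AX, C.la.2.1⟩, rfl⟩, ⟨GC.y_empty.x0, rfl⟩, ⟨k1.x0, rfl⟩,
      ⟨hy.x0, rfl⟩]) (by simp) (by simp) (by simp)
  obtain ⟨c', Rel', h6, -⟩ := GC.main (h3 4) (fun {a0 _ _ _ _ _ _} h hb hl e hk => by
    by_cases hn : IsSuccLimit (rank a0)
    exacts [h.step_lot (h3 2) hb hl e hk hn, h.step_T hT (h3 1) hb hl e hk hn]) κ k k1 k2 le_rfl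
    _ _ _ _ _ k h5 (by rw [rank_empty]; exact bot_le) (by simp)
  have h7 : Pos (R κ) c' := k2 ▸ h6.pos
  refine ⟨c', (mem_PP (H.po κ)).2 ⟨h7, hc, h6.gen (x := c) h6.pos sub_rfl ?_ (h6.dec (by simp))⟩, δ, hT.tc.1,
    fun r n ξ => h6.bound hT (h3 3) hF k2⟩
  rw [k2]
  exact ⟨hy, hc.1, by rwa [(C.sys κ).up_self (lt_succ κ) hc.1]⟩

theorem pkg_univ {k : Cardinal.{0}} (hk : Supercompact k) :
    ∃ P I L N, Pkg Set.univ w1 P I L N := by
  obtain ⟨R, H⟩ := exists_iter k.ord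
  obtain ⟨L, N, h⟩ := H.pkg hk.inacc (H.pres hk.inacc) (H.bdd hk) (H.nocx hk)
  exact ⟨_, _, L, N, h⟩

end Pool.Agent.Lib.MP_329f2d_lc.It
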