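import Pool.Agent.Lib.MP_329f2d_lc.H59Lim

/-! The fusion lemma for nice limits. -/

namespace Pool.Agent.Lib.MP_329f2d_lc.It

open ZFSet

set_option linter.unusedSectionVars false

variable {R : O → V} {b : O} {ν : Type 1}

/-- Nested antichains: `X μ` is the stage, `C μ` the condition and `Y μ` the stage of the parent. -/
structure NA (R : O → V) (b : O) (T : ℕ → Set ν) (X Y : ν → O) (C : ν → V) : Prop where
  dom : ∀ k, ∀ μ ∈ T k, X μ < b ∧ Y μ ≤ X μ ∧ Pos (R (X μ)) (C μ)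
  next : ∀ k, ∀ μ ∈ T k, ∀ r, Pos (R (X μ)) r → r ⊆ C μ → ∃ μ' ∈ T (k + 1), Y μ' = X μ ∧
    C μ' ⊆ up R (X μ) (X μ') (C μ) ∧ Meets (up R (X μ) (X μ') r) (C μ')
  par : ∀ k, ∀ μ' ∈ T (k + 1), ∃ μ ∈ T k, X μ ≤ X μ' ∧ C μ' ⊆ up R (X μ) (X μ') (C μ)
  dis : ∀ k, ∀ μ ∈ T k, ∀ μ' ∈ T k, μ ≠ μ' → ∃ x, x ≤ Y μ ∧ x ≤ Y μ' ∧
    ¬ Meets (pr R x (X μ) (C μ)) (pr R x (X μ') (C μ'))

/-- The fusion of a nested antichain. -/
noncomputable def fus (R : O → V) (T : ℕ → Set ν) (X : ν → O) (C : ν → V) (y : O) : V :=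
  (fld (R y)).sep fun e => ∀ k, e ∈ reg (R y) fun d => ∃ μ ∈ T k, d ∈ cnst R (X μ) (C μ) y

namespace NA

variable {T : ℕ → Set ν} {X Y : ν → O} {C : ν → V} (h : Sys R b) (H : NA R b T X Y C)
include h H

theorem thr {k : ℕ} {μ : ν} (hμ : μ ∈ T k) : Thr R b (cnst R (X μ) (C μ)) :=
  h.thr_cnst (H.dom k μ hμ).1 (H.dom k μ hμ).2.2

theorem fus_ro {y : O} (hy : y < b) : RO (R y) (fus R T X C y) := by
  intro d
  have hp := h.po hy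
  rw [fus, mem_sep, mem_fld]
  refine and_congr_right fun hd => ⟨fun H1 e he => ⟨e, hp.left he, mem_sep.2
    ⟨mem_fld.2 (hp.left he), fun k => (ro_reg hp _).down hp (H1 k) he⟩⟩, fun H1 k => ?_⟩
  exact (ro_reg hp _ d).2 ⟨hd, fun e he =>
    let ⟨e', a1, a2⟩ := H1 e he; ⟨e', a1, (mem_sep.1 a2).2 k⟩⟩

theorem sub_fus {y : O} (hy : y < b) {r : V} (hr : RO (R y) r) : r ⊆ fus R T X C y ↔
    ∀ k Z, Pos (R y) Z → Z ⊆ r → ∃ μ ∈ T k, Meets Z (cnst R (X μ) (C μ) y) := by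
  have hp := h.po hy
  have key : ∀ k, r ⊆ (reg (R y) fun d => ∃ μ ∈ T k, d ∈ cnst R (X μ) (C μ) y) ↔
      ∀ Z, Pos (R y) Z → Z ⊆ r → ∃ μ ∈ T k, Meets Z (cnst R (X μ) (C μ) y) := fun k => by
    rw [sub_reg_iff hp hr fun d e ⟨μ, a1, a2⟩ he => ⟨μ, a1, ((H.thr h a1).pos y hy).1.down hp a2 he⟩]
    exact forall₃_congr fun Z _ _ => ⟨fun ⟨d, a1, μ, a2, a3⟩ => ⟨μ, a2, d, a1, a3⟩,
      fun ⟨μ, a2, d, a1, a3⟩ => ⟨d, a1, μ, a2, a3⟩⟩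
  simp only [← key]
  exact ⟨fun H1 k e he => (mem_sep.1 (H1 he)).2 k,
    fun H1 e he => mem_sep.2 ⟨hr.sub_fld hp he, fun k => H1 k he⟩⟩

theorem anc {j k : ℕ} (hj : j ≤ k) : ∀ μ ∈ T k, ∃ μ' ∈ T j, X μ' ≤ X μ ∧
    C μ ⊆ up R (X μ') (X μ) (C μ') := by
  induction k, hj using Nat.le_induction with
  | base => exact fun μ hμ => ⟨μ, hμ, le_rfl, by
      rw [h.up_self (H.dom _ μ hμ).1 (H.dom _ μ hμ).2.2.1]⟩
  | succ k _ ih =>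
    intro μ hμ
    obtain ⟨μ₁, a1, a2, a3⟩ := H.par k μ hμ
    obtain ⟨μ₂, b1, b2, b3⟩ := ih μ₁ a1
    refine ⟨μ₂, b1, b2.trans a2, sub_trans a3 ?_⟩
    rw [← h.up_up a2 (H.dom _ μ hμ).1 b2 (H.dom _ _ b1).2.2.1]
    exact up_mono b3

theorem anc_cnst {j k : ℕ} (hj : j ≤ k) {μ : ν} (hμ : μ ∈ T k) :
    ∃ μ' ∈ T j, ∀ y < b, cnst R (X μ) (C μ) y ⊆ cnst R (X μ') (C μ') y := by
  obtain ⟨μ', a1, a2, a3⟩ := H.anc h hj μ hμ
  exact ⟨μ', a1, fun y hy =>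
    h.cnst_mono a2 (H.dom _ μ hμ).1 (H.dom _ _ a1).2.2 (H.dom _ μ hμ).2.2 a3 hy⟩

theorem desc {j k : ℕ} (hj : j ≤ k) {μ : ν} (hμ : μ ∈ T j) {r : V} (hr : Pos (R (X μ)) r)
    (hs : r ⊆ C μ) : ∃ μ' ∈ T k, X μ ≤ X μ' ∧ Meets (up R (X μ) (X μ') r) (C μ') := by
  induction k, hj using Nat.le_induction with
  | base => exact ⟨μ, hμ, le_rfl, by rw [h.up_self (H.dom _ μ hμ).1 hr.1]; exact hr.meets hs⟩
  | succ k _ ih =>
    obtain ⟨μ₁, a1, a2, a3⟩ := ih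
    obtain ⟨b1, -, b2⟩ := H.dom _ _ a1
    obtain ⟨μ₂, c1, c2, -, c3⟩ := H.next k μ₁ a1 _ (a3.pos (h.po b1) (h.up_ro a2 b1 hr.1) b2.1)
      (inter_sub_right _ _)
    obtain ⟨d1, d2, -⟩ := H.dom _ _ c1
    rw [c2] at d2
    refine ⟨μ₂, c1, a2.trans d2, c3.mono ?_ sub_rfl⟩
    rw [← h.up_up d2 d1 a2 hr.1]
    exact up_mono (inter_sub_left _ _)

theorem pr_sub_fus {k : ℕ} {μ : ν} (hμ : μ ∈ T k) {y : O} (hy : y ≤ X μ) :
    pr R y (X μ) (C μ) ⊆ fus R T X C y := by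
  obtain ⟨b1, -, b2⟩ := H.dom _ _ hμ
  have hy' := hy.trans_lt b1
  refine (H.sub_fus h hy' (h.pr_ro hy b1 _)).2 fun j Z hZ hs => ?_
  rcases le_total j k with hj | hj
  · obtain ⟨μ', a1, a2⟩ := H.anc_cnst h hj hμ
    exact ⟨μ', a1, hZ.meets (sub_trans hs (by rw [← cnst_le hy]; exact a2 y hy'))⟩
  · have h1 := (h.meets_iff hy b1 b2.1 hZ.1).1 (hZ.meets hs)
    obtain ⟨μ', a1, a2, a3⟩ := H.desc h hj hμ (h1.pos (h.po b1) (h.up_ro hy b1 hZ.1) b2.1)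
      (inter_sub_right _ _)
    obtain ⟨c1, -, c2⟩ := H.dom _ _ a1
    refine ⟨μ', a1, ?_⟩
    rw [cnst_le (hy.trans a2), h.meets_iff (hy.trans a2) c1 c2.1 hZ.1, ← h.up_up a2 c1 hy hZ.1]
    exact a3.mono (up_mono (inter_sub_left _ _)) sub_rfl

theorem self_sub_fus {k : ℕ} {μ : ν} (hμ : μ ∈ T k) : C μ ⊆ fus R T X C (X μ) := by
  have := H.pr_sub_fus h hμ le_rfl
  rwa [h.pr_self (H.dom _ _ hμ).1 (H.dom _ _ hμ).2.2.1] at this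

theorem pr_fus_sub {y y' : O} (hy : y ≤ y') (hy' : y' < b) :
    pr R y y' (fus R T X C y') ⊆ fus R T X C y := by
  refine (H.sub_fus h (hy.trans_lt hy') (h.pr_ro hy hy' _)).2 fun j Z hZ hs => ?_
  have h1 := (h.meets_iff hy hy' (H.fus_ro h hy') hZ.1).1 (hZ.meets hs)
  obtain ⟨μ, a1, a2⟩ := (H.sub_fus h hy' (H.fus_ro h hy')).1 sub_rfl j _
    (h1.pos (h.po hy') (h.up_ro hy hy' hZ.1) (H.fus_ro h hy')) (inter_sub_right _ _)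
  exact ⟨μ, a1, h.meets_of_up hy hy'
    (a2.mono (inter_sub_left _ _) ((H.thr h a1).sub_up h hy hy'))⟩

theorem fus_inter_sub {k : ℕ} {μ : ν} (hμ : μ ∈ T k) :
    fus R T X C (X μ) ∩ up R (Y μ) (X μ) (pr R (Y μ) (X μ) (C μ)) ⊆ C μ := by
  obtain ⟨b1, b2, b3⟩ := H.dom _ _ hμ
  have h1 := (H.fus_ro h b1).inter (h.po b1) (h.up_ro b2 b1 (h.pr_ro b2 b1 (C μ)))
  refine h1.sub_of_meets (h.po b1) b3.1 fun Z hZ hs => ?_
  obtain ⟨μ', a1, a2⟩ := (H.sub_fus h b1 h1).1 (inter_sub_left _ _) k Z hZ hs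
  by_cases e : μ' = μ
  · subst e
    rwa [h.cnst_self b1 b3.1] at a2
  obtain ⟨x, c1, c2, c3⟩ := H.dis k μ' a1 μ hμ e
  have c4 := c2.trans b2
  refine absurd (h.meets_of_up c4 b1 (a2.symm.mono ?_ (sub_trans hs (sub_trans
    (inter_sub_right _ _) ?_)))) c3
  · rw [← cnst_le (c1.trans (H.dom _ _ a1).2.1)]
    exact (H.thr h a1).sub_up h c4 b1
  · rw [← h.pr_pr b2 b1 c2 b3.1, ← h.up_up b2 b1 c2 (h.pr_ro c2 (b2.trans_lt b1) _)]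
    exact up_mono (h.sub_up_pr c2 (b2.trans_lt b1) (h.pr_ro b2 b1 _))

theorem up_sub_fus {y y' : O} (hy : y ≤ y') (hy' : y' < b) {r : V} (hr : RO (R y) r)
    (hs : r ⊆ fus R T X C y)
    (hn : ∀ j, ∀ μ ∈ T j, y < X μ → ¬ Meets r (pr R y (X μ) (C μ))) :
    up R y y' r ⊆ fus R T X C y' := by
  refine (H.sub_fus h hy' (h.up_ro hy hy' hr)).2 fun j Z hZ hz => ?_
  have h1 := (h.gc hy hy' hZ.1 hr).2 hz
  obtain ⟨μ, a1, a2⟩ := (H.sub_fus h (hy.trans_lt hy') hr).1 hs j _ (h.pr_pos hy hy' hZ) h1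
  obtain ⟨b1, -, b3⟩ := H.dom _ _ a1
  rcases le_or_gt (X μ) y with hx | hx
  · refine ⟨μ, a1, ?_⟩
    rw [h.cnst_ge (hx.trans hy) hy' b3.1, ← h.up_up hy hy' hx b3.1,
      ← h.cnst_ge hx (hy.trans_lt hy') b3.1]
    exact ((h.meets_iff hy hy' hZ.1 ((H.thr h a1).pos y (hy.trans_lt hy')).1).1 a2.symm).symm
  · rw [cnst_le hx.le] at a2
    exact absurd (a2.mono h1 sub_rfl) (hn j μ a1 hx)

/-- The statement proved by induction on the stage. -/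
def St (R : O → V) (T : ℕ → Set ν) (X : ν → O) (C : ν → V) (y : O) : Prop :=
  ∀ k, ∀ μ ∈ T k, X μ ≤ y → ∀ r, Pos (R (X μ)) r → r ⊆ C μ →
    Meets (fus R T X C y) (up R (X μ) y r)

theorem fus_coh {y y' : O} (hy : y ≤ y') (hy' : y' < b) (hS : St R T X C y') :
    fus R T X C y = pr R y y' (fus R T X C y') := by
  refine sub_antisymm ((H.fus_ro h (hy.trans_lt hy')).sub_of_meets (h.po' hy hy')
    (h.pr_ro hy hy' _) fun Z hZ hs => ?_) (H.pr_fus_sub h hy hy')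
  rw [h.meets_iff hy hy' (H.fus_ro h hy') hZ.1]
  by_cases hc : ∃ j, ∃ μ ∈ T j, y < X μ ∧ Meets Z (pr R y (X μ) (C μ))
  · obtain ⟨j, μ, a1, a2, a3⟩ := hc
    obtain ⟨b1, -, b3⟩ := H.dom _ _ a1
    rcases le_total (X μ) y' with hx | hx
    · have h1 := (h.meets_iff a2.le b1 b3.1 hZ.1).1 a3
      refine (hS j μ a1 hx _ (h1.pos (h.po b1) (h.up_ro a2.le b1 hZ.1) b3.1)
        (inter_sub_right _ _)).symm.mono ?_ sub_rfl
      rw [← h.up_up hx hy' a2.le hZ.1]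
      exact up_mono (inter_sub_left _ _)
    · rw [← h.pr_pr hx b1 hy b3.1, h.meets_iff hy hy' (h.pr_ro hx b1 _) hZ.1] at a3
      exact a3.mono sub_rfl (H.pr_sub_fus h a1 hx)
  · exact (h.up_pos hy hy' hZ).meets (H.up_sub_fus h hy hy' hZ.1 hs
      fun j μ a1 a2 a3 => hc ⟨j, μ, a1, a2, a3⟩)

theorem fus_thr {y : O} (hy : y ≤ b) (hS : ∀ x < y, St R T X C x) {k : ℕ} {μ : ν} (hμ : μ ∈ T k) :
    Thr R y (fus R T X C) := by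
  obtain ⟨b1, -, b3⟩ := H.dom _ _ hμ
  refine ⟨fun x hx => ⟨H.fus_ro h (hx.trans_le hy), ?_⟩,
    fun x x' h1 h2 => H.fus_coh h h1 (h2.trans_le hy) (hS x' h2)⟩
  rcases le_total (X μ) x with hl | hl
  · obtain ⟨e, he, -⟩ := hS x hx k μ hμ hl _ b3 sub_rfl
    exact ⟨e, he⟩
  · obtain ⟨e, he⟩ := (h.pr_pos hl b1 b3).2
    exact ⟨e, H.pr_sub_fus h hμ hl he⟩

theorem fus_lad {y : O} (hy : y ≤ b) (hS : ∀ x < y, St R T X C x) {k : ℕ} {μ : ν} (hμ : μ ∈ T k)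
    (hx : X μ < y) {r : V} (hr : Pos (R (X μ)) r) (hs : r ⊆ C μ)
    (hH : ∀ j, ∀ μ' ∈ T j, X μ ≤ X μ' → Meets (up R (X μ) (X μ') r) (C μ') → X μ' < y) :
    Thr R y (fun w => fus R T X C w ∩ cnst R (X μ) r w) ∧
    Lad R y (fun w => fus R T X C w ∩ cnst R (X μ) r w) fun j x e => ∃ μ' ∈ T (k + j), x = X μ' ∧
      X μ ≤ x ∧ Pos (R x) e ∧ e ⊆ C μ' ∩ up R (X μ) x r := by
  have h' : Sys R y := fun x hx => h x (hx.trans_le hy)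
  have hs' := sub_trans hs (H.self_sub_fus h hμ)
  have h1 := h'.thr_amal (H.fus_thr h hy hS hμ) hx hr hs'
  have dom : ∀ j x e, (∃ μ' ∈ T (k + j), x = X μ' ∧ X μ ≤ x ∧ Pos (R x) e ∧
      e ⊆ C μ' ∩ up R (X μ) x r) →
      x < y ∧ Pos (R x) e ∧ e ⊆ fus R T X C x ∩ cnst R (X μ) r x := by
    rintro j x e ⟨μ', a1, rfl, a2, a3, a4⟩
    refine ⟨hH _ μ' a1 a2 ((a3.meets (sub_trans a4 (inter_sub_right _ _))).symm.mono sub_rfl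
      (sub_trans a4 (inter_sub_left _ _))), a3, ?_⟩
    rw [h.cnst_ge a2 (H.dom _ _ a1).1 hr.1]
    exact sub_inter (sub_trans a4 (sub_trans (inter_sub_left _ _) (H.self_sub_fus h a1)))
      (sub_trans a4 (inter_sub_right _ _))
  refine ⟨h1, dom, ⟨X μ, μ, hμ, rfl, le_rfl, ?_⟩, ?_, ?_⟩
  · rw [h'.amal_self hx hr hs', h'.up_self hx hr.1]
    exact ⟨hr, sub_inter hs sub_rfl⟩
  · intro j x e hS r₁ b1 b2
    obtain ⟨d1, -, d2⟩ := dom j x e hS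
    obtain ⟨μ', a1, rfl, a2, a3, a4⟩ := hS
    obtain ⟨μ₂, c1, c2, -, c4⟩ := H.next _ μ' a1 r₁ b1
      (sub_trans b2 (sub_trans a4 (inter_sub_left _ _)))
    obtain ⟨e1, e2, e3⟩ := H.dom _ _ c1
    have e4 := H.fus_inter_sub h c1
    rw [c2] at e2 e4
    have e5 : Pos (R (X μ')) (r₁ ∩ pr R (X μ') (X μ₂) (C μ₂)) :=
      ((h.meets_iff e2 e1 e3.1 b1.1).2 c4).pos (h'.po d1) b1.1 (h.pr_ro e2 e1 _)
    have e6 : up R (X μ') (X μ₂) r₁ ⊆ up R (X μ) (X μ₂) r := by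
      rw [← h.up_up e2 e1 a2 hr.1]
      exact up_mono (sub_trans b2 (sub_trans a4 (inter_sub_right _ _)))
    have e7 := hH _ μ₂ c1 (a2.trans e2) (c4.mono e6 sub_rfl)
    refine ⟨X μ₂, _, e2, e5, inter_sub_left _ _, μ₂, c1, rfl, a2.trans e2,
      h'.inter_up_pos h1 e2 e7 e5 (sub_trans (inter_sub_left _ _) (sub_trans b2 d2)),
      sub_inter (sub_trans ?_ e4) (sub_trans (inter_sub_right _ _)
        (sub_trans (up_mono (inter_sub_left _ _)) e6))⟩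
    exact sub_inter (sub_trans (inter_sub_left _ _) (inter_sub_left _ _))
      (sub_trans (inter_sub_right _ _) (up_mono (inter_sub_right _ _)))
  · intro w hw r₁ b1 b2
    have hw' := hw.trans_le hy
    refine sub_inter ((H.sub_fus h hw' b1.1).2 fun j Z hZ hz => ?_) ?_
    · obtain ⟨x, e, c1, ⟨μ', a1, rfl, -, -, a4⟩, c2⟩ := b2 j Z hZ hz
      obtain ⟨μ₂, d1, d2⟩ := H.anc_cnst h (Nat.le_add_left j k) a1
      refine ⟨μ₂, d1, c2.mono sub_rfl (sub_trans ?_ (d2 w hw'))⟩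
      rw [h.cnst_ge c1 hw' (H.dom _ _ a1).2.2.1]
      exact up_mono (sub_trans a4 (inter_sub_left _ _))
    · refine b1.1.sub_of_meets (h.po hw') ((h'.thr_cnst hx hr).pos w hw).1 fun Z hZ hz => ?_
      obtain ⟨x, e, c1, ⟨μ', -, rfl, a2, -, a4⟩, c2⟩ := b2 0 Z hZ hz
      refine c2.mono sub_rfl ?_
      rw [h.cnst_ge (a2.trans c1) hw' hr.1, ← h.up_up c1 hw' a2 hr.1]
      exact up_mono (sub_trans a4 (inter_sub_right _ _))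

theorem st (hL : ∀ y < b, Order.IsSuccLimit y → LimSpec R y) : ∀ y < b, St R T X C y := by
  intro y
  induction y using WellFoundedLT.induction with
  | ind y ih =>
  intro hy k μ hμ hx r hr hs
  have hS : ∀ x < y, St R T X C x := fun x hx => ih x hx (hx.trans hy)
  rcases hx.eq_or_lt with e | hx'
  · subst e
    rw [h.up_self hy hr.1]
    exact (hr.meets (sub_trans hs (H.self_sub_fus h hμ))).symm
  by_cases hH : ∀ j, ∀ μ' ∈ T j, X μ ≤ X μ' → Meets (up R (X μ) (X μ') r) (C μ') → X μ' < y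
  swap
  · push Not at hH
    obtain ⟨j, μ', a1, -, a3, a4⟩ := hH
    obtain ⟨b1, -, b3⟩ := H.dom _ _ a1
    rw [← h.up_up a4 b1 hx hr.1, ← h.meets_iff a4 b1 b3.1 (h.up_ro hx hy hr.1)] at a3
    exact a3.symm.mono (H.pr_sub_fus h a1 a4) sub_rfl
  rcases Ordinal.zero_or_succ_or_isSuccLimit y with rfl | ⟨z, rfl⟩ | hl
  · exact absurd hx' (not_lt_bot)
  · have hz := Order.lt_succ z
    have hx2 := Order.lt_succ_iff.1 hx'
    have hz' := hz.trans hy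
    have h1 := (hS z hz k μ hμ hx2 r hr hs).pos (h.po hz') (H.fus_ro h hz') (h.up_ro hx2 hz' hr.1)
    refine ((h.up_pos hz.le hy h1).meets (H.up_sub_fus h hz.le hy h1.1 (inter_sub_left _ _)
      fun j μ' a1 a2 a3 => ?_)).symm.mono sub_rfl ?_
    · obtain ⟨b1, -, b3⟩ := H.dom _ _ a1
      have := (h.meets_iff a2.le b1 b3.1 (h.up_ro hx2 hz' hr.1)).1
        (a3.mono (inter_sub_right _ _) sub_rfl)
      rw [h.up_up a2.le b1 hx2 hr.1] at this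
      exact a2.not_ge (Order.lt_succ_iff.1 (hH j μ' a1 (hx2.trans a2.le) this))
    · rw [← h.up_up hz.le hy hx2 hr.1]
      exact up_mono (inter_sub_right _ _)
  · have hLy := hL y hy hl
    have h' : Sys R y := fun x hx => h x (hx.trans hy)
    obtain ⟨t1, t2⟩ := H.fus_lad h hy.le hS hμ hx' hr hs hH
    have he := hLy.cond ⟨t1, _, t2⟩
    refine ⟨_, (H.sub_fus h hy (ro_cl (h.po hy) _)).2 (fun j Z hZ hz => ?_)
      (mem_cl_of_le (h.po hy) he), mem_up.2 ⟨he, ?_⟩⟩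
    · obtain ⟨d, hd⟩ := hZ.2
      obtain ⟨d', c1, c2⟩ := exists_le_of_mem_cl (h.po hy) (hz hd)
      have c3 := (h.po hy).left c1
      obtain ⟨x, e, ⟨μ', a1, rfl, a2, a3, a4⟩, c4⟩ := h'.lad_meets t2 (hLy.nice c3).1 (fun x hx => by
        have := (hLy.le_iff.1 c2).2.2 x hx
        rwa [co_thr _ _ hx] at this) j
      have a5 := (t2.dom j _ e ⟨μ', a1, rfl, a2, a3, a4⟩).1
      obtain ⟨b1, -, b3⟩ := H.dom _ _ a1
      obtain ⟨d'', c5, c6⟩ := h.rho_amal' a5.le hy c3 b3.1 (by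
        rw [rho_lt a5]; exact c4.mono sub_rfl (sub_trans a4 (inter_sub_left _ _)))
      obtain ⟨μ₂, d1, d2⟩ := H.anc_cnst h (Nat.le_add_left j k) a1
      exact ⟨μ₂, d1, d'', hZ.1.down (h.po hy) hd ((h.po hy).trans c5 c1),
        d2 y hy (by rwa [h.cnst_ge a5.le hy b3.1])⟩
    · rw [rho_lt hx', co_thr _ _ hx', h.cnst_self (H.dom _ _ hμ).1 hr.1]
      exact inter_sub_right _ _

end NA

/-- The fusion lemma. -/
theorem fusion {δ : Type 1} (h : Sys R b) (hL : ∀ y < b, Order.IsSuccLimit y → LimSpec R y)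
    (X : δ → O) (C : δ → V) (Good : ℕ → δ → Prop) (Ex : δ → δ → Prop) (hr : ∀ d, Ex d d)
    (ht : ∀ d d' d'', Ex d d' → Ex d' d'' → Ex d d'')
    (hG : ∀ k d, Good k d → X d < b ∧ Pos (R (X d)) (C d))
    (hs : ∀ k d, Good k d → ∀ r, Pos (R (X d)) r → r ⊆ C d →
      ∃ d', Good (k + 1) d' ∧ Ex d d' ∧ X d ≤ X d' ∧ C d' ⊆ up R (X d) (X d') r)
    {d₀ : δ} (h0 : Good 0 d₀) :
    ∃ (T : ℕ → Set δ) (g : O → V), Nice R b g ∧ d₀ ∈ T 0 ∧ g (X d₀) ⊆ C d₀ ∧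
      (∀ k, ∀ d ∈ T k, Good k d) ∧
      (∀ k f, Thr R b f → (∀ x < b, f x ⊆ g x) → ∃ d ∈ T k, Meets (f (X d)) (C d)) ∧
      ∀ k k', k ≤ k' → ∀ d ∈ T k, ∀ d' ∈ T k', ∀ f, Thr R b f → f (X d) ⊆ C d →
        f (X d') ⊆ C d' → Ex d d' := by
  let Dis : δ × O → δ × O → Prop := fun μ μ' => ∃ x, x ≤ μ.2 ∧ x ≤ μ'.2 ∧
    ¬ Meets (pr R x (X μ.1) (C μ.1)) (pr R x (X μ'.1) (C μ'.1))
  let Inv : ℕ → Set (δ × O) → Prop := fun k A =>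
    (∀ μ ∈ A, Good k μ.1 ∧ μ.2 ≤ X μ.1) ∧ A.Pairwise Dis
  let Ch : δ × O → δ × O → Prop := fun μ μ' => μ'.2 = X μ.1 ∧ Ex μ.1 μ'.1 ∧
    C μ'.1 ⊆ up R (X μ.1) (X μ'.1) (C μ.1)
  have step : ∀ k A, Inv k A → ∃ A', Inv (k + 1) A' ∧ (∀ μ' ∈ A', ∃ μ ∈ A, Ch μ μ') ∧
      ∀ μ ∈ A, ∀ r, Pos (R (X μ.1)) r → r ⊆ C μ.1 → ∃ μ' ∈ A', Ch μ μ' ∧
        Meets (up R (X μ.1) (X μ'.1) r) (C μ'.1) := by
    intro k A hA
    obtain ⟨A', hm⟩ := zorn_subset {A' | Inv (k + 1) A' ∧ ∀ μ' ∈ A', ∃ μ ∈ A, Ch μ μ'}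
      fun c hc hch => ⟨⋃₀ c, ⟨⟨fun μ ⟨s, a1, a2⟩ => (hc a1).1.1 μ a2,
        (Set.pairwise_sUnion hch.directedOn).2 fun s a1 => (hc a1).1.2⟩,
        fun μ ⟨s, a1, a2⟩ => (hc a1).2 μ a2⟩, fun s a1 => Set.subset_sUnion_of_mem a1⟩
    refine ⟨A', hm.prop.1, hm.prop.2, fun μ hμ r h1 h2 => ?_⟩
    by_contra hc
    obtain ⟨d', a1, a2, a3, a4⟩ := hs k μ.1 (hA.1 μ hμ).1 r h1 h2
    obtain ⟨a5, a6⟩ := hG _ _ a1
    have hch : Ch μ (d', X μ.1) := ⟨rfl, a2, sub_trans a4 (up_mono h2)⟩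
    have key : ∀ μ' ∈ A', Dis (d', X μ.1) μ' := by
      intro μ' hμ'
      obtain ⟨μ₂, b1, b2⟩ := hm.prop.2 μ' hμ'
      obtain ⟨b3, b4⟩ := hm.prop.1.1 μ' hμ'
      obtain ⟨b5, b6⟩ := hG _ _ b3
      by_cases e : μ = μ₂
      · subst e
        refine ⟨X μ.1, le_rfl, b2.1.ge, fun hM => hc ⟨μ', hμ', b2, ?_⟩⟩
        rw [b2.1] at b4
        exact (h.meets_iff b4 b5 b6.1 h1.1).1 (hM.mono ((h.gc a3 a5 a6.1 h1.1).2 a4) sub_rfl)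
      · obtain ⟨x, c1, c2, c3⟩ := hA.2 hμ b1 e
        have c4 := c1.trans (hA.1 μ hμ).2
        have c5 := c2.trans (hA.1 μ₂ b1).2
        refine ⟨x, c4, c5.trans b2.1.ge, fun hM => c3 (hM.mono ?_ ?_)⟩
        · rw [← h.pr_pr a3 a5 c4 a6.1]
          exact pr_mono ((h.gc a3 a5 a6.1 (hG _ _ (hA.1 μ hμ).1).2.1).2 hch.2.2)
        · rw [b2.1] at b4
          rw [← h.pr_pr b4 b5 c5 b6.1]
          exact pr_mono ((h.gc b4 b5 b6.1 (hG _ _ (hA.1 μ₂ b1).1).2.1).2 b2.2.2)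
    have hin : (d', X μ.1) ∈ A' := by
      refine hm.le_of_ge (y := insert (d', X μ.1) A') ⟨⟨?_, ?_⟩, ?_⟩ (Set.subset_insert _ _)
        (Set.mem_insert _ _)
      · rintro μ' (rfl | hμ')
        exacts [⟨a1, a3⟩, hm.prop.1.1 μ' hμ']
      · refine hm.prop.1.2.insert fun μ' hμ' _ => ⟨key μ' hμ', ?_⟩
        obtain ⟨x, c1, c2, c3⟩ := key μ' hμ'
        exact ⟨x, c2, c1, fun hM => c3 hM.symm⟩
      · rintro μ' (rfl | hμ')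
        exacts [⟨μ, hμ, hch⟩, hm.prop.2 μ' hμ']
    exact hc ⟨_, hin, hch, (a6.meets a4).symm⟩
  choose! nx hnx using step
  let T : ℕ → Set (δ × O) := fun k => Nat.rec {(d₀, X d₀)} (fun k A => nx k A) k
  have hT : ∀ k, Inv k (T k) := fun k => by
    induction k with
    | zero => exact ⟨by rintro μ rfl; exact ⟨h0, le_rfl⟩, Set.pairwise_singleton _ _⟩
    | succ k ih => exact (hnx k _ ih).1
  have hpar : ∀ k, ∀ μ' ∈ T (k + 1), ∃ μ ∈ T k, Ch μ μ' := fun k => (hnx k _ (hT k)).2.1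
  have H : NA R b T (fun μ => X μ.1) (fun μ => μ.2) fun μ => C μ.1 := by
    refine ⟨fun k μ hμ => ?_, fun k μ hμ r h1 h2 => ?_, fun k μ' hμ' => ?_,
      fun k μ hμ μ' hμ' e => (hT k).2 hμ hμ' e⟩
    · obtain ⟨a1, a2⟩ := (hT k).1 μ hμ
      exact ⟨(hG _ _ a1).1, a2, (hG _ _ a1).2⟩
    · obtain ⟨μ', a1, a2, a3⟩ := (hnx k _ (hT k)).2.2 μ hμ r h1 h2
      exact ⟨μ', a1, a2.1, a2.2.2, a3⟩
    · obtain ⟨μ, a1, a2⟩ := hpar k μ' hμ'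
      exact ⟨μ, a1, a2.1 ▸ ((hT (k + 1)).1 μ' hμ').2, a2.2.2⟩
  have hroot : (d₀, X d₀) ∈ T 0 := rfl
  obtain ⟨t1, t2⟩ := H.fus_lad h le_rfl (H.st h hL) (k := 0) (μ := (d₀, X d₀)) hroot (hG _ _ h0).1
    (hG _ _ h0).2 sub_rfl fun j μ' a1 _ _ => (H.dom j μ' a1).1
  refine ⟨fun k => Prod.fst '' T k, _, ⟨t1, _, t2⟩, ⟨_, hroot, rfl⟩, ?_, ?_,
    fun k f hf hle => ?_, ?_⟩
  · rw [h.cnst_self (hG _ _ h0).1 (hG _ _ h0).2.1]
    exact inter_sub_right _ _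
  · rintro k d ⟨μ, hμ, rfl⟩
    exact ((hT k).1 μ hμ).1
  · obtain ⟨x, e, ⟨μ, a1, rfl, -, -, a4⟩, c⟩ := h.lad_meets t2 hf hle k
    rw [Nat.zero_add] at a1
    exact ⟨μ.1, ⟨μ, a1, rfl⟩, c.mono sub_rfl (sub_trans a4 (inter_sub_left _ _))⟩
  · rintro k k' hk _ ⟨μ, hμ, rfl⟩ _ ⟨μ', hμ', rfl⟩ f hf h1 h2
    induction k', hk using Nat.le_induction generalizing μ' with
    | base =>
      by_cases e : μ = μ'
      · subst e; exact hr _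
      · obtain ⟨x, c1, c2, c3⟩ := (hT k).2 hμ hμ' e
        obtain ⟨a1, a2, -⟩ := H.dom _ _ hμ
        obtain ⟨b1, b2, -⟩ := H.dom _ _ hμ'
        refine absurd (((hf.pos x ((c1.trans a2).trans_lt a1)).meets ?_).mono ?_ sub_rfl) c3
        · rw [hf.coh x _ (c2.trans b2) b1]; exact pr_mono h2
        · rw [hf.coh x _ (c1.trans a2) a1]; exact pr_mono h1
    | succ k' _ ih =>
      obtain ⟨μ₂, a1, a2⟩ := hpar k' μ' hμ'
      obtain ⟨b1, b2, -⟩ := H.dom (k' + 1) _ hμ'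
      exact ht _ _ _ (ih μ₂ a1 (hf.sub_of_up h (a2.1 ▸ b2) b1 (H.dom _ _ a1).2.2.1
        (sub_trans h2 a2.2.2))) a2.2.1

end Pool.Agent.Lib.MP_329f2d_lc.It
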