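import Pool.Agent.Lib.MP_329f2d_lc.H59Ctx

/-! The generic filter over the countable model, and names for embeddings. -/

namespace Pool.Agent.Lib.MP_329f2d_lc.It

open ZFSet Order

set_option linter.unusedSectionVars false

/-- The dense set given by a set `W` that is dense below `q` at level `a`. -/
noncomputable def DS (κ : O) (R : O → V) (a : O) (q W : V) : V :=
  (powerset (fld (R κ))).sep fun r => Pos (R κ) r ∧
    ((∃ e ∈ W, r ⊆ up R a κ (cl (R a) e)) ∨ ¬ Meets r (up R a κ q))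

/-- The basic relations. -/
def F0 (κ : O) (R : O → V) (i k : ℕ) : R6 := fun a b c d e y => match i with
  | 0 => y = up R (rank a) (rank b) c
  | 1 => y = up R (rank a) κ b
  | 2 => y = cl (R (rank a)) b
  | 3 => y = a ∩ b
  | 4 => y = DS κ R (rank a) b c
  | 5 => y ∈ c ∧ b ⊆ up R (rank a) κ (cl (R (rank a)) y)
  | 6 => Pos (R (rank a)) b
  | 7 => ∀ ξ ∈ a, ∃ k, ξ = ap y (nat k)
  | 8 => y = ap a (nat k)
  | 9 => y ∈ a ∧ y ⊆ b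
  | 10 => rank a ≤ rank b
  | 11 => succ (rank y) = rank a
  | 12 => rank a < rank b
  | 13 => y = fld (R (rank a))
  | 14 => IsSuccLimit (rank a)
  | 15 => y = pr R (rank a) (rank b) c
  | 16 => y = ∅
  | 17 => y = w1
  | 18 => rank y = κ
  | _ => cl (R (rank b)) (sk R (rank a) c d) ⊆ e

/-- Small members of the countable model. -/
abbrev Ctx.Y (C : Ctx) (x : V) : Prop := x ∈ C.X ∧ x ∈ C.B

/-- Members of the countable model. -/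
abbrev Ctx.X0 (C : Ctx) (x : V) : Prop := x ∈ C.X ∧ x ∈ C.N

theorem Ctx.Y.x0 {C : Ctx} {x : V} (h : C.Y x) : C.X0 x := ⟨h.1, C.BN h.2⟩

theorem Ctx.Y.left {C : Ctx} {x y : V} (h : C.Y (ZFSet.pair x y)) : C.Y x := by
  simpa only [fst_pair] using C.fst h

theorem Ctx.Y.right {C : Ctx} {x y : V} (h : C.Y (ZFSet.pair x y)) : C.Y y := by
  simpa only [snd_pair] using C.snd h

/-- The model together with a generic filter. -/
structure GC (κ : O) (R : O → V) extends Ctx where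
  it : Iter κ R
  t0 : ∀ i k, Tame (F0 κ R i k)
  ne : ∃ x, x ∈ X ∧ x ∈ B
  G : V → Prop
  G_Y : ∀ {p}, G p → toCtx.Y p ∧ Pos (R κ) p
  G_up : ∀ {p q}, G p → toCtx.Y q → RO (R κ) q → p ⊆ q → G q
  G_inter : ∀ {p q}, G p → G q → G (p ∩ q)
  G_gen : ∀ {D}, toCtx.Y D → Dense (PP (R κ)) D → ∃ p ∈ D, G p

variable {κ : O} {R : O → V}

theorem Iter.po (H : Iter κ R) (a : O) : Po (R a) := (H.lev a).po

theorem exists_gc (C : Ctx) (H : Iter κ R) (t0 : ∀ i k, C.Tame (F0 κ R i k)) {c : V} (hc : C.Y c)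
    (hp : Pos (R κ) c) : ∃ D : GC κ R, D.toCtx = C ∧ D.G c := by
  have h0 := H.po κ
  let P := (PP (R κ)).sep fun z => ∃ p q, z = pair p q ∧ C.Y p ∧ C.Y q
  have hP : ∀ p q, pair p q ∈ P ↔ (Pos (R κ) p ∧ Pos (R κ) q ∧ p ⊆ q) ∧ C.Y p ∧ C.Y q := by
    intro p q
    rw [mem_sep, mem_PP h0]
    refine and_congr_right fun _ => ⟨?_, fun h => ⟨p, q, rfl, h⟩⟩
    rintro ⟨_, _, e, h⟩
    obtain ⟨rfl, rfl⟩ := pair_inj.1 e
    exact h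
  have hcP := (hP c c).2 ⟨⟨hp, hp, sub_rfl⟩, hc, hc⟩
  have hPo : Po P := by
    refine ⟨fun e => notMem_empty _ (e ▸ hcP), fun z hz => ?_, fun p q r h1 h2 => ?_⟩
    · obtain ⟨-, p, q, rfl, -⟩ := mem_sep.1 hz
      obtain ⟨⟨a1, a2, -⟩, a3, a4⟩ := (hP p q).1 hz
      exact ⟨p, q, rfl, (hP _ _).2 ⟨⟨a1, a1, sub_rfl⟩, a3, a3⟩, (hP _ _).2 ⟨⟨a2, a2, sub_rfl⟩, a4, a4⟩⟩
    · rw [hP] at *
      exact ⟨⟨h1.1.1, h2.1.2.1, sub_trans h1.1.2.2 h2.1.2.2⟩, h1.2.1, h2.2.2⟩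
  obtain ⟨G, ⟨⟨-, g1, g2, g3⟩, g4⟩, g5⟩ :=
    exists_generic (C.cnt.image fun D : V => D.sep C.Y) hPo hcP
  have gY : ∀ {p}, p ∈ G → C.Y p ∧ Pos (R κ) p := fun hp =>
    ⟨((hP _ _).1 (g1 _ hp)).2.1, ((hP _ _).1 (g1 _ hp)).1.1⟩
  have gu : ∀ {p q}, p ∈ G → C.Y q → RO (R κ) q → p ⊆ q → q ∈ G := fun hp hq hr hs =>
    g2 _ hp _ ((hP _ _).2 ⟨⟨(gY hp).2, ⟨hr, (gY hp).2.2.imp fun _ h => hs h⟩, hs⟩, (gY hp).1, hq⟩)
  refine ⟨⟨C, H, t0, ⟨c, hc⟩, (· ∈ G), gY, gu, fun {p q} h1 h2 => ?_, fun {D} h1 h2 => ?_⟩, rfl, g5⟩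
  · obtain ⟨r, a1, a2, a3⟩ := g3 p h1 q h2
    obtain ⟨y, hy, rfl⟩ := C.sk (t0 3 0) (gY h1).1 (gY h2).1 hc hc hc ⟨_, rfl⟩
    exact gu a1 hy ((gY h1).2.1.inter h0 (gY h2).2.1)
      (sub_inter ((hP _ _).1 a2).1.2.2 ((hP _ _).1 a3).1.2.2)
  · have hD : ∀ p ∈ D, Pos (R κ) p := fun p hp => (cond_PP h0).1 (h2.1 p hp)
    obtain ⟨p, a1, a2⟩ := g4 _ ⟨D, h1.1, rfl⟩ ⟨fun p hp => (hP _ _).2 ⟨⟨hD p (mem_sep.1 hp).1,
      hD p (mem_sep.1 hp).1, sub_rfl⟩, (mem_sep.1 hp).2, (mem_sep.1 hp).2⟩, fun p hp => by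
        obtain ⟨⟨b1, -⟩, b2, -⟩ := (hP _ _).1 hp
        obtain ⟨q, b3, b4⟩ := h2.2 p ((cond_PP h0).2 b1)
        obtain ⟨y, hy, b5, b6⟩ := C.sk (t0 9 0) h1 b2 hc hc hc ⟨q, b3, ((mem_PP h0).1 b4).2.2⟩
        exact ⟨y, mem_sep.2 ⟨b5, hy⟩, (hP _ _).2 ⟨⟨hD y b5, b1, b6⟩, hy, b2⟩⟩⟩
    exact ⟨p, (mem_sep.1 a2).1, a1⟩

/-- Hereditarily countable sets. -/
inductive HC : V → Prop
  | mk (x : V) : (x : Set V).Countable → (∀ y ∈ x, HC y) → HC x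

theorem countable_of_mem_w1 {α : V} (h : α ∈ w1) : (α : Set V).Countable := by
  obtain ⟨a, ha, rfl⟩ := Ordinal.mem_toZFSet_iff.1 h
  have : (a.toZFSet : Set V) = Ordinal.toZFSet '' Set.Iio a :=
    Set.ext fun _ => Ordinal.mem_toZFSet_iff
  rw [this]
  refine Set.Countable.image ?_ _
  rw [← Cardinal.le_aleph0_iff_set_countable, Cardinal.mk_Iio_ordinal, Cardinal.lift_le_aleph0,
    ← Cardinal.lt_aleph_one_iff, ← Cardinal.lt_ord, Cardinal.ord_aleph]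
  exact ha

theorem hc_of_mem_w1 {α : V} : α ∈ w1 → HC α :=
  inductionOn α fun α ih h => ⟨α, countable_of_mem_w1 h, fun y hy => ih y hy (w1_ord.mem_trans hy h)⟩

theorem HC.sub {x y : V} (h : HC x) (hs : y ⊆ x) : HC y := by
  obtain ⟨_, h1, h2⟩ := h
  exact ⟨y, h1.mono hs, fun z hz => h2 z (hs hz)⟩

namespace GC

variable (C : GC κ R)

theorem sys (C : GC κ R) (a : O) : Sys R (succ a) := C.it.sys _

theorem po (C : GC κ R) (a : O) : Po (R a) := C.it.po a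

/-- The generic filter at level `a`. -/
def Ga (a : O) (q : V) : Prop := C.Y q ∧ RO (R a) q ∧ C.G (up R a κ q)

variable {C}

theorem y_up {a b c : V} (ha : C.Y a) (hb : C.Y b) (hc : C.Y c) : C.Y (up R (rank a) (rank b) c) := by
  obtain ⟨y, hy, rfl⟩ := C.sk (C.t0 0 0) ha hb hc ha ha ⟨_, rfl⟩
  exact hy

theorem y_pr {a b c : V} (ha : C.Y a) (hb : C.Y b) (hc : C.Y c) : C.Y (pr R (rank a) (rank b) c) := by
  obtain ⟨y, hy, rfl⟩ := C.sk (C.t0 15 0) ha hb hc ha ha ⟨_, rfl⟩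
  exact hy

theorem y_upk {a b : V} (ha : C.Y a) (hb : C.Y b) : C.Y (up R (rank a) κ b) := by
  obtain ⟨y, hy, rfl⟩ := C.sk (C.t0 1 0) ha hb ha ha ha ⟨_, rfl⟩
  exact hy

theorem y_cl {a b : V} (ha : C.Y a) (hb : C.Y b) : C.Y (cl (R (rank a)) b) := by
  obtain ⟨y, hy, rfl⟩ := C.sk (C.t0 2 0) ha hb ha ha ha ⟨_, rfl⟩
  exact hy

theorem y_inter {a b : V} (ha : C.Y a) (hb : C.Y b) : C.Y (a ∩ b) := by
  obtain ⟨y, hy, rfl⟩ := C.sk (C.t0 3 0) ha hb ha ha ha ⟨_, rfl⟩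
  exact hy

theorem y_fld {a : V} (ha : C.Y a) : C.Y (fld (R (rank a))) := by
  obtain ⟨y, hy, rfl⟩ := C.sk (C.t0 13 0) ha ha ha ha ha ⟨_, rfl⟩
  exact hy

theorem y_empty : C.Y ∅ := by
  obtain ⟨a, ha⟩ := C.ne
  obtain ⟨y, hy, rfl⟩ := C.sk (C.t0 16 0) ha ha ha ha ha ⟨_, rfl⟩
  exact hy

theorem y_w1 : C.Y w1 := by
  obtain ⟨a, ha⟩ := C.ne
  obtain ⟨y, hy, rfl⟩ := C.sk (C.t0 17 0) ha ha ha ha ha ⟨_, rfl⟩
  exact hy

theorem y_top : ∃ a, C.Y a ∧ rank a = κ :=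
  C.sk (C.t0 18 0) y_empty y_empty y_empty y_empty y_empty ⟨_, Ordinal.rank_toZFSet κ⟩

theorem y_enum {x : V} (hx : C.Y x) (h : (x : Set V).Countable) :
    ∃ f, C.Y f ∧ ∀ ξ ∈ x, ∃ k, ξ = ap f (nat k) := by
  refine C.sk (C.t0 7 0) hx hx hx hx hx ?_
  obtain ⟨g, hg⟩ := (h.insert ∅).exists_eq_range (Set.insert_nonempty _ _)
  refine ⟨range fun k => pair (nat k) (g k), fun ξ hξ => ?_⟩
  obtain ⟨k, rfl⟩ : ξ ∈ Set.range g := hg ▸ Set.mem_insert_of_mem _ hξ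
  refine ⟨k, (ap_eq (mem_range.2 ⟨k, rfl⟩) fun z hz => ?_).symm⟩
  obtain ⟨j, e⟩ := mem_range.1 hz
  simp only [pair_inj, nat_inj] at e
  rw [← e.2, e.1]

theorem y_ap {f : V} (hf : C.Y f) (k : ℕ) : C.Y (ap f (nat k)) := by
  obtain ⟨y, hy, rfl⟩ := C.sk (C.t0 8 k) hf hf hf hf hf ⟨_, rfl⟩
  exact hy

theorem y_mem {x y : V} (hx : C.Y x) (h : (x : Set V).Countable) (hy : y ∈ x) : C.Y y := by
  obtain ⟨f, h1, h2⟩ := y_enum hx h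
  obtain ⟨k, rfl⟩ := h2 y hy
  exact y_ap h1 k

theorem Ga.pos {a : O} {q : V} (h : C.Ga a q) (ha : a ≤ κ) : Pos (R a) q := by
  obtain ⟨e, he⟩ := (C.G_Y h.2.2).2.2
  obtain ⟨d, hd⟩ := ((C.sys κ).rho_pos ha (lt_succ κ) (mem_up.1 he).1).2
  exact ⟨h.2.1, d, (mem_up.1 he).2 hd⟩

theorem Ga.inter {a : O} {p q : V} (h : C.Ga a p) (h' : C.Ga a q) : C.Ga a (p ∩ q) :=
  ⟨y_inter h.1 h'.1, h.2.1.inter (C.po a) h'.2.1, up_inter ▸ C.G_inter h.2.2 h'.2.2⟩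

theorem Ga.meets {a : O} {p q : V} (h : C.Ga a p) (h' : C.Ga a q) (ha : a ≤ κ) : Meets p q :=
  let ⟨d, hd⟩ := ((h.inter h').pos ha).2; ⟨d, mem_inter.1 hd⟩

theorem ga_of {a q p : V} (ha : C.Y a) (hk : rank a ≤ κ) (hq : C.Y q) (hr : RO (R (rank a)) q)
    (hp : C.G p) (hs : p ⊆ up R (rank a) κ q) : C.Ga (rank a) q :=
  ⟨hq, hr, C.G_up hp (y_upk ha hq) ((C.sys κ).up_ro hk (lt_succ κ) hr) hs⟩

theorem Ga.of_up {a q p : V} {b : O} (h : C.Ga b p) (ha : C.Y a) (hab : rank a ≤ b) (hb : b ≤ κ)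
    (hq : C.Y q) (hr : RO (R (rank a)) q) (hs : p ⊆ up R (rank a) b q) : C.Ga (rank a) q :=
  ga_of ha (hab.trans hb) hq hr h.2.2 (by
    rw [← (C.sys κ).up_up hb (lt_succ κ) hab hr]; exact up_mono hs)

theorem Ga.mono {a q p : V} (h : C.Ga (rank a) p) (ha : C.Y a) (hk : rank a ≤ κ) (hq : C.Y q)
    (hr : RO (R (rank a)) q) (hs : p ⊆ q) : C.Ga (rank a) q :=
  ga_of ha hk hq hr h.2.2 (up_mono hs)

theorem Ga.up {a b q : V} (h : C.Ga (rank a) q) (ha : C.Y a) (hb : C.Y b) (hab : rank a ≤ rank b)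
    (hk : rank b ≤ κ) : C.Ga (rank b) (up R (rank a) (rank b) q) :=
  ⟨y_up ha hb h.1, (C.sys _).up_ro hab (lt_succ _) h.2.1, by
    rw [(C.sys κ).up_up hk (lt_succ κ) hab h.2.1]; exact h.2.2⟩

theorem dense_DS (C : GC κ R) {a : O} (ha : a ≤ κ) {q W : V} (hq : RO (R a) q)
    (H : ∀ x ∈ q, ∃ y ∈ W, pair y x ∈ R a) : Dense (PP (R κ)) (DS κ R a q W) := by
  have h := C.sys κ
  refine ⟨fun p hp => (cond_PP (C.po κ)).2 (mem_sep.1 hp).2.1, fun p hp => ?_⟩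
  rw [cond_PP (C.po κ)] at hp
  by_cases hm : Meets p (up R a κ q)
  · obtain ⟨x, h1, h2⟩ := (h.meets_iff ha (lt_succ κ) hp.1 hq).2 hm.symm
    obtain ⟨y, h3, h4⟩ := H x h1
    have h5 := ((h.meets_iff ha (lt_succ κ) hp.1 (ro_cl (C.po a) y)).1 ⟨y, mem_cl_of_le (C.po a)
      ((C.po a).left h4), (h.pr_ro ha (lt_succ κ) p).down (C.po a) h2 h4⟩).symm.pos (C.po κ) hp.1
      (h.up_ro ha (lt_succ κ) (ro_cl (C.po a) y))
    exact ⟨_, mem_sep.2 ⟨h5.mem_pow, h5, Or.inl ⟨y, h3, inter_sub_right _ _⟩⟩,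
      (mem_PP (C.po κ)).2 ⟨h5, hp, inter_sub_left _ _⟩⟩
  · exact ⟨p, mem_sep.2 ⟨hp.mem_pow, hp, Or.inr hm⟩, (cond_PP (C.po κ)).2 hp⟩

/-- Genericity for tame relations. -/
theorem Ga.dense {a q : V} (hq : C.Ga (rank a) q) (ha : C.Y a) (hk : rank a ≤ κ) {Φ : R6}
    (hΦ : C.Tame Φ) {b c d e f : V} (hb : C.Y b) (hc : C.Y c) (hd : C.Y d) (he : C.Y e)
    (hf : C.Y f) (H : ∀ x ∈ q, ∃ y, pair y x ∈ R (rank a) ∧ Φ b c d e f y) :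
    ∃ y ∈ q, C.Y y ∧ Φ b c d e f y ∧ C.Ga (rank a) (cl (R (rank a)) y) := by
  have hW := C.sep hΦ hq.1 hb hc hd he hf
  obtain ⟨D, hD, rfl⟩ := C.sk (C.t0 4 0) ha hq.1 hW ha ha ⟨_, rfl⟩
  obtain ⟨p, h1, h2⟩ := C.G_gen hD (C.dense_DS hk hq.2.1 fun x hx =>
    let ⟨y, h1, h2⟩ := H x hx; ⟨y, mem_sep.2 ⟨hq.2.1.down (C.po _) hx h1, h2⟩, h1⟩)
  obtain h3 | h3 := (mem_sep.1 h1).2.2
  · obtain ⟨y, h4, h5, h6⟩ := C.sk (C.t0 5 0) ha (C.G_Y h2).1 hW ha ha h3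
    exact ⟨y, (mem_sep.1 h5).1, h4, (mem_sep.1 h5).2,
      ga_of ha hk (y_cl ha h4) (ro_cl (C.po _) _) h2 h6⟩
  · obtain ⟨d, hd⟩ := (C.G_Y (C.G_inter h2 hq.2.2)).2.2
    exact absurd ⟨d, mem_inter.1 hd⟩ h3

theorem ga_fld {a : V} (ha : C.Y a) (hk : rank a ≤ κ) : C.Ga (rank a) (fld (R (rank a))) := by
  obtain ⟨D, hD, rfl⟩ := C.sk (C.t0 4 0) ha (y_fld ha) (y_fld ha) ha ha ⟨_, rfl⟩
  obtain ⟨p, -, h2⟩ := C.G_gen hD (C.dense_DS hk (pos_fld (C.po _)).1 fun x hx =>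
    ⟨x, hx, mem_fld.1 hx⟩)
  refine ga_of ha hk (y_fld ha) (pos_fld (C.po _)).1 h2 fun e he => ?_
  have h3 := (C.G_Y h2).2.1.cond (C.po κ) he
  exact mem_up.2 ⟨h3, ((C.sys κ).rho_pos hk (lt_succ κ) h3).1.sub_fld (C.po _)⟩

variable (C)

/-- Below `c`, `Rel` is a name for an elementary embedding. -/
structure NN (P c : V) (Rel : V → V → V → Prop) : Prop where
  pos : Pos P c
  mono : ∀ {r r' x y}, Rel r x y → Pos P r' → r' ⊆ r → Rel r' x y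
  dom : ∀ {r x y}, Rel r x y → C.X0 x ∧ y ∈ C.N
  total : ∀ {r x}, Pos P r → r ⊆ c → C.X0 x → ∃ r' y, Pos P r' ∧ r' ⊆ r ∧ Rel r' x y
  pe : ∀ {r}, Pos P r → r ⊆ c → PE C.N C.N (Rel r)

/-- The data carried through the induction.  The condition `τ` of the tree forcing is fixed. -/
structure Good (τ a0 a c : V) (Rel : V → V → V → Prop) (l : List (V × V)) : Prop
    extends C.NN (R (rank a)) c Rel where
  ya : C.Y a0
  le : rank a0 ≤ κ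
  hZ : (C.Z, C.Z) ∈ l
  hA : (C.A, C.A) ∈ l
  st : (a0, a) ∈ l
  dec : ∀ {x y}, (x, y) ∈ l → Rel c x y
  gen : ∀ {r x y}, Pos (R (rank a)) r → r ⊆ c → C.Ga (rank a0) x → Rel r x y → r ⊆ y
  tree : c ⊆ up R 0 (rank a) (cl Tr0 τ)

variable {C}

namespace Good

variable {τ a0 a c : V} {Rel : V → V → V → Prop} {l : List (V × V)} (h : C.Good τ a0 a c Rel l)
include h

theorem res {r : V} (hr : Pos (R (rank a)) r) (hs : r ⊆ c) : C.Good τ a0 a r Rel l where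
  pos := hr
  mono := h.mono
  dom := h.dom
  total h1 h2 := h.total h1 (sub_trans h2 hs)
  pe h1 h2 := h.pe h1 (sub_trans h2 hs)
  ya := h.ya
  le := h.le
  hZ := h.hZ
  hA := h.hA
  st := h.st
  dec H := h.mono (h.dec H) hr hs
  gen h1 h2 := h.gen h1 (sub_trans h2 hs)
  tree := sub_trans hs h.tree

theorem add {x y : V} (H : Rel c x y) : C.Good τ a0 a c Rel ((x, y) :: l) :=
  { h with
    hZ := List.mem_cons_of_mem _ h.hZ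
    hA := List.mem_cons_of_mem _ h.hA
    st := List.mem_cons_of_mem _ h.st
    dec := fun H' => (List.mem_cons.1 H').elim (fun e => by cases e; exact H) h.dec }

theorem cut {l' : List (V × V)} (H : l' ⊆ l) (hZ : (C.Z, C.Z) ∈ l') (hA : (C.A, C.A) ∈ l')
    (st : (a0, a) ∈ l') : C.Good τ a0 a c Rel l' :=
  { h with hZ := hZ, hA := hA, st := st, dec := fun H' => h.dec (H H') }

/-- One more value is decided. -/
theorem decide {x : V} (hx : C.X0 x) :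
    ∃ r y, r ⊆ c ∧ C.Good τ a0 a r Rel ((x, y) :: l) := by
  obtain ⟨r, y, h1, h2, h3⟩ := h.total h.pos sub_rfl hx
  exact ⟨r, y, h2, (h.res h1 h2).add h3⟩

theorem domN (r x y : V) (H : Rel r x y) : x ∈ (C.N : Set V) ∧ y ∈ (C.N : Set V) :=
  ⟨(h.dom H).1.2, (h.dom H).2⟩

/-- Transfer of tame relations. -/
theorem tf {Φ : R6} (hΦ : C.Tame Φ) {x x' b b' u u' d d' e e' f f' : V}
    (h1 : C.Y x ∧ Rel c x x') (h2 : C.Y b ∧ Rel c b b') (h3 : C.Y u ∧ Rel c u u')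
    (h4 : C.Y d ∧ Rel c d d') (h5 : C.Y e ∧ Rel c e e') (h6 : C.Y f ∧ Rel c f f')
    (H : Φ x b u d e f) : Φ x' b' u' d' e' f' :=
  C.tf hΦ (h.pe h.pos sub_rfl) (h.domN c) (h.dec h.hZ) ⟨h1.1.2, h1.2⟩ ⟨h2.1.2, h2.2⟩
    ⟨h3.1.2, h3.2⟩ ⟨h4.1.2, h4.2⟩ ⟨h5.1.2, h5.2⟩ ⟨h6.1.2, h6.2⟩ H

theorem memB {x y : V} (hx : C.Y x) (H : Rel c x y) : y ∈ C.B :=
  C.tfB (h.pe h.pos sub_rfl) (h.domN c) (h.dec h.hZ) H hx.2

theorem s0 : C.Y a0 ∧ Rel c a0 a := ⟨h.ya, h.dec h.st⟩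

theorem uniq {x y y' : V} (H : Rel c x y) (H' : Rel c x y') : y = y' :=
  ((h.pe h.pos sub_rfl).uniq H H').1 rfl

theorem tf_pos {b0 b x y : V} (hb : C.Y b0 ∧ Rel c b0 b) (hx : C.Y x ∧ Rel c x y)
    (H : Pos (R (rank b0)) x) : Pos (R (rank b)) y := h.tf (C.t0 6 0) hb hx hb hb hb hb H

theorem tf_le {x y x' y' : V} (hx : C.Y x ∧ Rel c x y) (hx' : C.Y x' ∧ Rel c x' y')
    (H : rank x ≤ rank x') : rank y ≤ rank y' := h.tf (C.t0 10 0) hx hx' hx hx hx hx H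

theorem tf_lt {x y x' y' : V} (hx : C.Y x ∧ Rel c x y) (hx' : C.Y x' ∧ Rel c x' y')
    (H : rank x < rank x') : rank y < rank y' := h.tf (C.t0 12 0) hx hx' hx hx hx hx H

theorem tf_succ {x y x' y' : V} (hx : C.Y x ∧ Rel c x y) (hx' : C.Y x' ∧ Rel c x' y')
    (H : succ (rank x) = rank x') : succ (rank y) = rank y' :=
  h.tf (C.t0 11 0) hx' hx hx hx hx hx H

theorem tf_lim {x y : V} (hx : C.Y x ∧ Rel c x y) (H : IsSuccLimit (rank x)) :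
    IsSuccLimit (rank y) := h.tf (C.t0 14 0) hx hx hx hx hx hx H

theorem tree_up {b : O} (hab : rank a ≤ b) {c' : V} (H : c' ⊆ up R (rank a) b c) :
    c' ⊆ up R 0 b (cl Tr0 τ) := by
  rw [← (C.sys b).up_up (x := 0) hab (lt_succ b) bot_le (C.it.zero ▸ ro_cl po_Tr0 τ)]
  exact sub_trans H (up_mono h.tree)

/-- A forced value of a member of the generic filter is above `c`. -/
theorem sub_of {x y : V} (hx : C.Ga (rank a0) x) (hy : RO (R (rank a)) y)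
    (H : ∀ r y', r ⊆ c → C.Good τ a0 a r Rel ((x, y') :: l) → y' ⊆ y) : c ⊆ y :=
  h.pos.1.sub_of_meets (C.po _) hy fun Z hZ hs => by
    obtain ⟨r, y', h1, h2⟩ := (h.res hZ hs).decide hx.1.x0
    exact (h2.pos.meets (sub_trans (h2.gen h2.pos sub_rfl hx (h2.dec List.mem_cons_self))
      (H r y' (sub_trans h1 hs) h2))).mono h1 sub_rfl

end Good

/-- Hereditarily countable sets are fixed. -/
theorem Good.fix {τ a0 a x : V} {Rel : V → V → V → Prop} (hx : HC x) : C.Y x →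
    ∀ {c y l}, C.Good τ a0 a c Rel l → Rel c x y → y = x := by
  induction hx with
  | mk x h1 _ ih =>
  intro hx c y l h H
  obtain ⟨f, f1, f2⟩ := y_enum hx h1
  obtain ⟨r, g, r1, r2⟩ := h.decide f1.x0
  have hf : C.Y f ∧ Rel r f g := ⟨f1, r2.dec List.mem_cons_self⟩
  have hy : C.Y x ∧ Rel r x y := ⟨hx, h.mono H r2.pos r1⟩
  have key : ∀ ξ, C.Y ξ → ∃ r' η, r' ⊆ r ∧ C.Good τ a0 a r' Rel ((ξ, η) :: (f, g) :: l) ∧
      (ξ ∈ x ↔ η ∈ y) := fun ξ hξ => by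
    obtain ⟨r', η, a1, a2⟩ := r2.decide hξ.x0
    exact ⟨r', η, a1, a2, (a2.pe a2.pos sub_rfl).mem_iff (a2.dec List.mem_cons_self)
      (h.mono hy.2 a2.pos a1)⟩
  refine ZFSet.ext fun η => ⟨fun hη => ?_, fun hη => ?_⟩
  · obtain ⟨k, rfl⟩ := r2.tf (C.t0 7 0) hy hy hy hy hy hf f2 η hη
    obtain ⟨r', η, a1, a2, a3⟩ := key _ (y_ap f1 k)
    have hf' : C.Y f ∧ Rel r' f g := ⟨f1, h.mono hf.2 a2.pos a1⟩
    have e : η = ap g (nat k) :=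
      a2.tf (C.t0 8 k) hf' hf' hf' hf' hf' ⟨y_ap f1 k, a2.dec List.mem_cons_self⟩ rfl
    have h2 := a3.2 (e ▸ hη)
    rw [← e, ih _ h2 (y_ap f1 k) a2 (a2.dec List.mem_cons_self)]
    exact h2
  · obtain ⟨r', η', -, a2, a3⟩ := key η (y_mem hx h1 hη)
    exact ih _ hη (y_mem hx h1 hη) a2 (a2.dec List.mem_cons_self) ▸ a3.1 hη

/-- The properties of the fixed condition of the tree forcing. -/
structure TD (C : GC κ R) (δ t : V) : Prop where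
  tc : TC δ t
  d0 : ∀ α ∈ w1, C.Y α → α ∈ δ
  base : ∀ q, C.Ga 0 q → cl Tr0 (pair δ t) ⊆ q
  br : ∀ a0, C.Y a0 → rank a0 < κ → ¬ IsSuccLimit (rank a0) → ∃ y ∈ t, ∀ p α x, C.Y p → C.Y α →
    C.Y x → TN R (rank a0) p (pair α x) → C.Ga (succ (rank a0))
      (cl (R (succ (rank a0))) (sk R (rank a0) p (pair α x))) → x = y ∩ α

theorem cl_sk_sub (C : GC κ R) {a : O} {c s : V} (hs : pair (pair c s) (pair c s) ∈ Stp R κ a) :
    cl (R (succ a)) (sk R a c s) ⊆ up R a (succ a) c := by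
  have h1 := ext_le (C.sys a) (C.it.ext a) hs
  refine ((C.sys _).up_ro (le_succ a) (lt_succ _) h1.1.1).cl_sub (C.po _)
    (mem_up.2 ⟨sk_le (C.sys a) (C.it.ext a) (C.it.sucSpec a) hs, ?_⟩)
  rw [rho_lt (lt_succ a), co_sk_self (C.sys a) h1.1]

theorem pr_cl_sk (C : GC κ R) {a : O} {c s : V} (hs : pair (pair c s) (pair c s) ∈ Stp R κ a) :
    pr R a (succ a) (cl (R (succ a)) (sk R a c s)) = c := by
  rw [(C.sys _).pr_cl (le_succ a) (lt_succ _) (sk_le (C.sys a) (C.it.ext a) (C.it.sucSpec a) hs),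
    rho_lt (lt_succ a), co_sk_self (C.sys a) (ext_le (C.sys a) (C.it.ext a) hs).1]

/-- Lifting a name to the next level. -/
theorem Good.lift {τ a0 a c : V} {Rel : V → V → V → Prop} {l : List (V × V)}
    (h : C.Good τ a0 a c Rel l) {b0 b s : V} (hb : C.Y b0) (hl : (b0, b) ∈ l)
    (e : succ (rank a0) = rank b0) (hk : rank b0 ≤ κ)
    (hs : pair (pair c s) (pair c s) ∈ Stp R κ (rank a))
    (H : ∀ q, C.Ga (rank b0) q → ∃ p0 s0, C.Y s0 ∧ C.Ga (rank a0) p0 ∧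
      cl (R (rank b0)) (sk R (rank a0) p0 s0) ⊆ q ∧ ∀ r p' s',
      C.Good τ a0 a r Rel ((p0, p') :: (s0, s') :: l) → r ⊆ c → r ⊆ p' → ∀ p₁ s₁,
      pair (pair p₁ s₁) (pair c s) ∈ Stp R κ (rank a) → p₁ ⊆ r →
      pair (pair p₁ s₁) (pair p' s') ∈ Stp R κ (rank a)) :
    ∃ c' Rel', C.Good τ b0 b c' Rel' l ∧ c' ⊆ up R (rank a) (rank b) c := by
  have e' := h.tf_succ h.s0 ⟨hb, h.dec hl⟩ e
  have S := C.sys (rank b)
  have hab : rank a ≤ rank b := e' ▸ le_succ _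
  have hb' := lt_succ (rank b)
  have h1 : cl (R (rank b)) (sk R (rank a) c s) ⊆ up R (rank a) (rank b) c := e' ▸ C.cl_sk_sub hs
  have h2 : pr R (rank a) (rank b) (cl (R (rank b)) (sk R (rank a) c s)) = c := e' ▸ C.pr_cl_sk hs
  have h3 : ∀ {r}, r ⊆ cl (R (rank b)) (sk R (rank a) c s) → pr R (rank a) (rank b) r ⊆ c :=
    fun H => h2 ▸ pr_mono H
  have h4 : ∀ {p s p' s'}, pair (pair p s) (pair p' s') ∈ Stp R κ (rank a) →
      pair (sk R (rank a) p s) (sk R (rank a) p' s') ∈ R (rank b) :=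
    fun H => e' ▸ sk_le (C.sys _) (C.it.ext _) (C.it.sucSpec _) H
  refine ⟨_, fun r => Rel (pr R (rank a) (rank b) r), ⟨⟨pos_cl (C.po _) (h4 hs),
    fun a1 a2 a3 => h.mono a1 (S.pr_pos hab hb' a2) (pr_mono a3), h.dom,
    fun {r x} a1 a2 a3 => ?_, fun a1 a2 => h.pe (S.pr_pos hab hb' a1) (h3 a2)⟩, hb, hk, h.hZ, h.hA,
    hl, fun H => by rw [h2]; exact h.dec H, fun {r q y} a1 a2 a3 a4 => ?_, h.tree_up hab h1⟩, h1⟩
  · obtain ⟨r', y, b1, b2, b3⟩ := h.total (S.pr_pos hab hb' a1) (h3 a2) a3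
    refine ⟨r ∩ up R (rank a) (rank b) r', y, ((S.meets_iff hab hb' a1.1 b1.1).1
      (b1.meets b2)).symm.pos (C.po _) a1.1 (S.up_ro hab hb' b1.1), inter_sub_left _ _, ?_⟩
    rw [S.pr_inter_up hab hb' a1.1 b1.1, sub_antisymm (inter_sub_right _ r') (sub_inter b2 sub_rfl)]
    exact b3
  · have g := h.res (S.pr_pos hab hb' a1) (h3 a2)
    refine a1.1.sub_of_meets (C.po _) (g.tf_pos ⟨hb, g.dec hl⟩ ⟨a3.1, a4⟩ (a3.pos hk)).1
      fun Z hZ hz => ?_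
    obtain ⟨p0, s0, b1, b2, b3, b4⟩ := H q a3
    obtain ⟨r₁, s', c1, c2⟩ := (h.res (S.pr_pos hab hb' hZ) (h3 (sub_trans hz a2))).decide b1.x0
    obtain ⟨r₂, p', c3, c4⟩ := c2.decide b2.1.x0
    have c5 := sub_trans c3 c1
    have d1 : Rel r₂ p0 p' := c4.dec List.mem_cons_self
    obtain ⟨d, d2, d3⟩ := (S.meets_iff hab hb' hZ.1 c4.pos.1).1 (c4.pos.meets c5)
    obtain ⟨d', d4, d5⟩ := exists_le_of_mem_cl (C.po _) (a2 (hz d3))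
    obtain ⟨p₁, s₁, d6, rfl⟩ := le_sk' (C.sys _) (C.it.ext _) (C.it.sucSpec _) h.pos (e' ▸ d5)
    have d7 := (mem_up.1 ((S.up_ro hab hb' c4.pos.1).down (C.po _) d2 d4)).2
    rw [rho_lt (e' ▸ lt_succ _), co_sk_self (C.sys _) (ext_le (C.sys _) (C.it.ext _) d6).1] at d7
    refine ⟨_, hZ.1.down (C.po _) d3 d4, c4.tf (C.t0 19 0) c4.s0 ⟨hb, c4.dec (by simp [hl])⟩
      ⟨b2.1, d1⟩ ⟨b1, c4.dec (by simp)⟩ ⟨a3.1, h.mono a4 c4.pos (sub_trans c5 (pr_mono hz))⟩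
      c4.s0 b3 (mem_cl_of_le (C.po _) (h4 (b4 r₂ p' s' c4 (sub_trans c5 (h3 (sub_trans hz a2)))
        (c4.gen c4.pos sub_rfl b2 d1) p₁ s₁ d6 d7)))⟩

end GC

end Pool.Agent.Lib.MP_329f2d_lc.It
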