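import Pool.Agent.Lib.MP_329f2d_lc.H59Defs2

/-! Inaccessibility of supercompact cardinals, and the models `H_c`. -/

namespace Pool.Agent.Lib.MP_329f2d_lc

open ZFSet Cardinal

namespace H85

/-- An enumeration of a set by a small type. -/
noncomputable def el (a : V) (i : Shrink a) : V := ((equivShrink a).symm i).1

theorem el_mem (a : V) (i : Shrink a) : el a i ∈ a := ((equivShrink a).symm i).2

theorem exists_el {a x : V} (h : x ∈ a) : ∃ i, el a i = x :=
  ⟨equivShrink a ⟨x, h⟩, by simp [el]⟩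

theorem el_inj (a : V) : Function.Injective (el a) :=
  Subtype.val_injective.comp (equivShrink a).symm.injective

theorem card_le {ι : Type} (f : ι → V) {x : V} (h : ∀ y ∈ x, ∃ i, f i = y) : card x ≤ #ι :=
  (card_mono fun y hy => mem_range.2 (h y hy)).trans (by simpa using lift_card_range_le (f := f))

theorem exists_bound {c : Cardinal.{0}} (hc : c.IsRegular) {x : V} (h1 : card x < c)
    {f : V → Ordinal.{0}} (h2 : ∀ y ∈ x, f y < c.ord) : ∃ β < c.ord, ∀ y ∈ x, f y < β := by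
  have hl := isSuccLimit_ord hc.aleph0_le
  refine ⟨_, hl.succ_lt (Ordinal.iSup_lt_of_lt_cof (f := fun i => f (el x i))
    (by rwa [hc.cof_ord]) fun i => h2 _ (el_mem x i)), fun y hy => ?_⟩
  obtain ⟨i, rfl⟩ := exists_el hy
  exact Order.lt_succ_of_le (Ordinal.le_iSup (fun i => f (el x i)) i)

theorem rank_lt_ord {c : Cardinal.{0}} (hc : c.IsRegular) {x : V} (h1 : card x < c)
    (h2 : ∀ y ∈ x, rank y < c.ord) : rank x < c.ord := by
  obtain ⟨β, h3, h4⟩ := exists_bound hc h1 h2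
  exact (rank_le_iff.2 h4).trans_lt h3

theorem mem_omega {x : V} : x ∈ omega ↔ ∃ n : ℕ, ZFSet.mk (PSet.ofNat n) = x :=
  Quotient.inductionOn x fun _ => ⟨fun ⟨n, h⟩ => ⟨n.down, (ZFSet.sound h).symm⟩,
    fun ⟨n, h⟩ => ⟨⟨n⟩, (ZFSet.exact h).symm⟩⟩

/-- Hereditarily of size less than `c`. -/
def Hc (c : Cardinal.{0}) (x : V) : Prop := ∃ t, IsTransitive t ∧ x ∈ t ∧ card t < c

variable {c : Cardinal.{0}} (hc : c.IsRegular)
include hc

theorem card_iUnion_lt {ι : Type} (hι : #ι < c) {t : ι → V} (h : ∀ i, card (t i) < c) :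
    card (ZFSet.iUnion t) < c :=
  lt_of_le_of_lt (by simpa using lift_card_iUnion_le_sum_card (f := t))
    (sum_lt_of_isRegular hc hι h)

theorem insert_lt {x y : V} (h : card y < c) : card (insert x y) < c :=
  card_insert_le.trans_lt (add_lt_of_lt hc.aleph0_le h (one_lt_aleph0.trans_le hc.aleph0_le))

theorem hc_iff {x : V} : Hc c x ↔ card x < c ∧ ∀ y ∈ x, Hc c y := by
  refine ⟨fun ⟨t, h1, h2, h3⟩ => ⟨(card_mono (h1 x h2)).trans_lt h3,
    fun y hy => ⟨t, h1, h1 x h2 hy, h3⟩⟩, fun ⟨h1, h2⟩ => ?_⟩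
  choose t t1 t2 t3 using fun i => h2 _ (el_mem x i)
  refine ⟨insert x (ZFSet.iUnion t), fun y hy z hz => mem_insert_of_mem _ ?_, mem_insert _ _,
    insert_lt hc (card_iUnion_lt hc h1 t3)⟩
  rcases mem_insert_iff.1 hy with rfl | hy
  · obtain ⟨i, rfl⟩ := exists_el hz
    exact mem_iUnion.2 ⟨i, t2 i⟩
  · exact IsTransitive.iUnion t1 y hy hz

theorem Hc.rank_lt {x : V} : Hc c x → rank x < c.ord :=
  inductionOn (p := fun x => Hc c x → rank x < c.ord) x fun _ ih h =>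
    rank_lt_ord hc ((hc_iff hc).1 h).1 fun y hy => ih y hy (((hc_iff hc).1 h).2 y hy)

theorem Hc.sub {x y : V} (h : Hc c x) (h' : y ⊆ x) : Hc c y :=
  (hc_iff hc).2 ⟨(card_mono h').trans_lt ((hc_iff hc).1 h).1,
    fun z hz => ((hc_iff hc).1 h).2 z (h' hz)⟩

theorem hc_empty : Hc c ∅ := (hc_iff hc).2 ⟨by simpa using hc.pos, by simp⟩

theorem Hc.insert {x y : V} (h : Hc c x) (h' : Hc c y) : Hc c (insert x y) :=
  (hc_iff hc).2 ⟨insert_lt hc ((hc_iff hc).1 h').1, fun z hz =>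
    (mem_insert_iff.1 hz).elim (fun e => e ▸ h) (((hc_iff hc).1 h').2 z)⟩

theorem Hc.single {x : V} (h : Hc c x) : Hc c {x} := by simpa using h.insert hc (hc_empty hc)

theorem hc_range {ι : Type} (hι : #ι < c) {f : ι → V} (h : ∀ i, Hc c (f i)) : Hc c (range f) :=
  (hc_iff hc).2 ⟨(card_le f fun _ => mem_range.1).trans_lt hι, fun y hy => by
    obtain ⟨i, rfl⟩ := mem_range.1 hy
    exact h i⟩

theorem hc_ord {o : Ordinal.{0}} (h : o.card < c) : Hc c o.toZFSet :=
  ⟨insert o.toZFSet o.toZFSet, (isOrdinal_succ (isOrdinal_toZFSet o)).isTransitive, mem_insert _ _,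
    insert_lt hc (by rwa [Ordinal.card_toZFSet])⟩

end H85

open H85

theorem Supercompact.isInaccessible {k : Cardinal.{0}} (hk : Supercompact k) :
    k.IsInaccessible := by
  refine ⟨hk.1, ?_, fun l hl => ?_⟩
  · rw [← Ordinal.cof_toType, Order.le_cof_iff]
    refine fun s hs => not_lt.1 fun h => ?_
    obtain ⟨U, h1, h2, h3, -⟩ := hk.2 k.ord.ToType
    have h4 : ∀ᶠ X in (U : Filter (Set k.ord.ToType)), ∀ i ∈ s, ∀ j ∈ insert i (Set.Iio i), j ∈ X :=
      (Filter.eventually_cardinal_ball h).2 fun i _ => (Filter.eventually_cardinal_ball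
        (mk_insert_le.trans_lt (add_lt_of_lt hk.1.le (mk_Iio_toType_ord_lt i)
          (one_lt_aleph0.trans hk.1)))).2 fun j _ => h3 j
    obtain ⟨X, x1, x2⟩ := (h4.and h1).exists
    rw [Set.eq_univ_of_forall (s := X) fun j => by
      obtain ⟨i, hi, hj⟩ := hs j
      exact x1 i hi j hj.eq_or_lt] at x2
    simp at x2
  · obtain ⟨U, h1, h2, h3, -⟩ := hk.2 (Set l.out)
    by_contra h
    have h4 : ∀ᶠ X in (U : Filter (Set (Set l.out))), ∃ y, y ∉ X := Filter.Eventually.mono h1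
      fun X hX => by
        by_contra! h'
        rw [Set.eq_univ_of_forall (s := X) h'] at hX
        exact h (by simpa using hX)
    obtain ⟨g, hg⟩ := h4.choice
    have h5 : ∀ᶠ X in (U : Filter _), ∀ i, i ∈ g X ↔ ∀ᶠ Y in (U : Filter _), i ∈ g Y :=
      (Filter.eventually_cardinal_forall (by simpa using hl)).2 fun i => by
        by_cases h : ∀ᶠ Y in (U : Filter _), i ∈ g Y
        · exact h.mono fun X hX => iff_of_true hX h
        · exact (Ultrafilter.eventually_not.2 h).mono fun X hX => iff_of_false hX h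
    obtain ⟨X, ⟨x1, x2⟩, x3⟩ := ((hg.and h5).and (h3 {i | ∀ᶠ Y in (U : Filter _), i ∈ g Y})).exists
    exact x1 ((Set.ext x2 : g X = {i | ∀ᶠ Y in (U : Filter _), i ∈ g Y}) ▸ x3)

theorem H85.card_lt_of_rank {k : Cardinal.{0}} (hk : k.IsInaccessible) {x : V}
    (h : rank x < k.ord) : card x < k :=
  (card_mono (subset_vonNeumann_self x)).trans_lt (by
    rw [card_vonNeumann]
    exact (preBeth_strictMono h).trans_eq hk.preBeth_ord)

theorem Supercompact.inacc {k : Cardinal.{0}} (hk : Supercompact k) : Inacc k.ord :=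
  have h := hk.isInaccessible
  ⟨by rw [← ord_aleph, ord_lt_ord, ← succ_aleph0]; exact h.isSuccLimit.succ_lt h.1,
    isSuccLimit_ord h.1.le, fun _ ha _ hf => exists_bound h.isRegular (card_lt_of_rank h ha) hf⟩

theorem zfcm_H {c : Cardinal.{0}} (hc : c.IsRegular) (h : ℵ₀ < c) :
    ∃ K : V, (∀ x, x ∈ K ↔ ∃ t, IsTransitive t ∧ x ∈ t ∧ card t < c) ∧ ZFCm K ∅ := by
  have hK : ∀ x, x ∈ (vonNeumann c.ord).sep (Hc c) ↔ Hc c x := fun x =>
    mem_sep.trans ⟨fun h => h.2, fun h => ⟨mem_vonNeumann.2 (h.rank_lt hc), h⟩⟩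
  refine ⟨_, hK, ⟨?_, ?_, ?_, ?_, ?_, ?_⟩, ?_⟩ <;> simp only [SetLike.mem_coe, hK]
  · exact fun x hx => ((hc_iff hc).1 hx).2
  · refine (hc_iff hc).2 ⟨(card_le _ fun _ => mem_omega.1).trans_lt (mk_nat ▸ h), fun y hy => ?_⟩
    obtain ⟨n, rfl⟩ := mem_omega.1 hy
    induction n with
    | zero => exact hc_empty hc
    | succ n ih => exact (ih (mem_omega.2 ⟨n, rfl⟩)).insert hc (ih (mem_omega.2 ⟨n, rfl⟩))
  · exact fun x hx y hy => hx.insert hc (hy.single hc)
  · intro x hx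
    have h1 := (hc_iff hc).1 hx
    refine (hc_iff hc).2 ⟨lt_of_le_of_lt (card_mono fun y hy => ?_) (card_iUnion_lt hc h1.1
      fun i => ((hc_iff hc).1 (h1.2 _ (el_mem x i))).1), fun y hy => ?_⟩ <;>
      obtain ⟨z, hz, hy⟩ := mem_sUnion.1 hy
    · obtain ⟨i, rfl⟩ := exists_el hz
      exact mem_iUnion.2 ⟨i, hy⟩
    · exact ((hc_iff hc).1 (h1.2 z hz)).2 y hy
  · exact fun φ v _ a ha => ⟨_, ha.sub hc fun _ h => (mem_sep.1 h).1, fun x => mem_sep⟩
  · intro φ v _ a ha H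
    choose y y1 y2 using fun i => H _ (el_mem a i)
    refine ⟨range y, hc_range hc ((hc_iff hc).1 ha).1 y1, fun x hx => ?_⟩
    obtain ⟨i, rfl⟩ := exists_el hx
    exact ⟨_, mem_range_self i, y2 i⟩
  · intro a ha
    have h1 := (hc_iff hc).1 ha
    have h2 : Hc c (card a).ord.toZFSet := hc_ord hc (by rw [card_ord]; exact h1.1)
    obtain ⟨e⟩ : Nonempty (Shrink (card a).ord.toZFSet ≃ Shrink a) :=
      Cardinal.eq.1 ((Ordinal.card_toZFSet _).trans (card_ord _))
    have h3 := fun i => ((hc_iff hc).1 h2).2 _ (el_mem _ i)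
    refine ⟨_, h2, isOrdinal_toZFSet _, range fun i => pair (el _ i) (el a (e i)),
      hc_range hc ((hc_iff hc).1 h2).1 fun i => ((h3 i).single hc).insert hc
        (((h3 i).insert hc ((h1.2 _ (el_mem a _)).single hc)).single hc), ⟨fun z hz => ?_,
      fun z hz => ?_⟩, fun y hy => ?_⟩
    · obtain ⟨i, rfl⟩ := mem_range.1 hz
      exact pair_mem_prod.2 ⟨el_mem _ _, el_mem _ _⟩
    · obtain ⟨i, rfl⟩ := exists_el hz
      refine ⟨_, mem_range_self i, fun y hy => ?_⟩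
      obtain ⟨j, hj⟩ := mem_range.1 hy
      rw [← (pair_inj.1 hj).2, el_inj _ (pair_inj.1 hj).1]
    · obtain ⟨i, rfl⟩ := exists_el hy
      exact ⟨_, el_mem _ (e.symm i), mem_range.2 ⟨e.symm i, by rw [e.apply_symm_apply]⟩⟩

/-- Every set lies in a set model of ZF without Power Set closed under subsets (some `H_λ`). -/
theorem exists_sup_model (x : V) : ∃ K : V, x ∈ K ∧ ZFm K ∅ ∧ Sup K := by
  have hc := isRegular_succ (le_max_left ℵ₀ (card (vonNeumann (Order.succ (rank x)))))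
  obtain ⟨K, h1, h2⟩ := zfcm_H hc (Order.lt_succ_of_le (le_max_left _ _))
  exact ⟨K, (h1 x).2 ⟨_, isTransitive_vonNeumann _, mem_vonNeumann_succ x,
    Order.lt_succ_of_le (le_max_right _ _)⟩, h2.1,
    fun a ha y hy => (h1 y).2 (Hc.sub hc ((h1 a).1 ha) hy)⟩

end Pool.Agent.Lib.MP_329f2d_lc
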