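import Pool.Agent.Lib.MP_329f2d_lc.H59Fus
import Pool.Agent.Lib.MP_329f2d_lc.H85Card

/-! The iteration: a generic tree, steps that add a branch, and lotteries of counterexamples. -/

namespace Pool.Agent.Lib.MP_329f2d_lc.It

open ZFSet Order

set_option linter.unusedSectionVars false

/-- `(α, t)` is a condition of the tree forcing: `t` is the top level. -/
def TC (α t : V) : Prop := α ∈ w1 ∧ t ≠ ∅ ∧ (t : Set V).Countable ∧ ∀ x ∈ t, x ⊆ α

theorem w1_ord : IsOrdinal w1 := isOrdinal_toZFSet _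

/-- The forcing that adds the tree. -/
noncomputable def Tr0 : V :=
  pairSep (fun e e' => ∃ α t α' t', e = pair α t ∧ e' = pair α' t' ∧ TC α t ∧ TC α' t' ∧ α' ⊆ α ∧
    ∀ s, s ∈ t' ↔ ∃ x ∈ t, s = x ∩ α') (prod w1 (powerset (powerset w1)))
    (prod w1 (powerset (powerset w1)))

theorem TC.mem {α t : V} (h : TC α t) : pair α t ∈ prod w1 (powerset (powerset w1)) :=
  pair_mem_prod.2 ⟨h.1, mem_powerset.2 fun x hx =>
    mem_powerset.2 (sub_trans (h.2.2.2 x hx) (w1_ord.subset_of_mem h.1))⟩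

theorem mem_Tr0' {z : V} : z ∈ Tr0 ↔ ∃ α t α' t', z = pair (pair α t) (pair α' t') ∧ TC α t ∧
    TC α' t' ∧ α' ⊆ α ∧ ∀ s, s ∈ t' ↔ ∃ x ∈ t, s = x ∩ α' := by
  rw [Tr0, mem_pairSep]
  constructor
  · rintro ⟨_, -, _, -, rfl, α, t, α', t', rfl, rfl, h⟩
    exact ⟨α, t, α', t', rfl, h⟩
  · rintro ⟨α, t, α', t', rfl, h⟩
    exact ⟨_, h.1.mem, _, h.2.1.mem, rfl, α, t, α', t', rfl, rfl, h⟩

theorem mem_Tr0 {α t α' t' : V} : pair (pair α t) (pair α' t') ∈ Tr0 ↔ TC α t ∧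
    TC α' t' ∧ α' ⊆ α ∧ ∀ s, s ∈ t' ↔ ∃ x ∈ t, s = x ∩ α' := by
  rw [mem_Tr0']
  constructor
  · rintro ⟨_, _, _, _, e, h⟩
    simp only [pair_inj] at e
    obtain ⟨⟨rfl, rfl⟩, rfl, rfl⟩ := e
    exact h
  · exact fun h => ⟨_, _, _, _, rfl, h⟩

theorem inter_of_sub {x α : V} (h : x ⊆ α) : x ∩ α = x :=
  sub_antisymm (inter_sub_left _ _) (sub_inter sub_rfl h)

theorem inter_inter {x α β : V} (h : β ⊆ α) : x ∩ α ∩ β = x ∩ β :=
  sub_antisymm (sub_inter (sub_trans (inter_sub_left _ _) (inter_sub_left _ _)) (inter_sub_right _ _))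
    (sub_inter (sub_inter (inter_sub_left _ _) (sub_trans (inter_sub_right _ _) h))
      (inter_sub_right _ _))

theorem TC.cond {α t : V} (h : TC α t) : pair (pair α t) (pair α t) ∈ Tr0 :=
  mem_Tr0.2 ⟨h, h, sub_rfl, fun s => ⟨fun hs => ⟨s, hs, (inter_of_sub (h.2.2.2 s hs)).symm⟩,
    fun ⟨x, hx, e⟩ => by rwa [e, inter_of_sub (h.2.2.2 x hx)]⟩⟩

theorem cond_Tr0 {e : V} (h : pair e e ∈ Tr0) : ∃ α t, e = pair α t ∧ TC α t := by
  obtain ⟨α, t, _, _, e, h1, -⟩ := mem_Tr0'.1 h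
  exact ⟨α, t, (pair_inj.1 e).1, h1⟩

theorem empty_mem_w1 : (∅ : V) ∈ w1 := by
  rw [w1, ← Ordinal.toZFSet_zero, Ordinal.toZFSet_mem_toZFSet_iff]
  exact Ordinal.omega_pos 1

theorem tc_empty : TC ∅ {∅} :=
  ⟨empty_mem_w1, fun h => by
    have : (∅ : V) ∈ ({∅} : V) := mem_singleton.2 rfl
    rw [h] at this
    exact notMem_empty _ this, by simp, by simp⟩

theorem po_Tr0 : Po Tr0 := by
  refine ⟨fun h => notMem_empty _ (h ▸ tc_empty.cond), fun z hz => ?_, fun p q r h1 h2 => ?_⟩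
  · obtain ⟨α, t, α', t', e, h1, h2, -⟩ := mem_Tr0'.1 hz
    exact ⟨_, _, e, h1.cond, h2.cond⟩
  · obtain ⟨α, t, α', t', e, a1, -, a3, a4⟩ := mem_Tr0'.1 h1
    obtain ⟨rfl, rfl⟩ := pair_inj.1 e
    obtain ⟨_, _, α'', t'', e, -, b2, b3, b4⟩ := mem_Tr0'.1 h2
    simp only [pair_inj] at e
    obtain ⟨⟨rfl, rfl⟩, rfl⟩ := e
    refine mem_Tr0.2 ⟨a1, b2, sub_trans b3 a3, fun s => ?_⟩
    rw [b4]
    constructor
    · rintro ⟨x, hx, rfl⟩
      obtain ⟨y, hy, rfl⟩ := (a4 x).1 hx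
      exact ⟨y, hy, inter_inter b3⟩
    · rintro ⟨y, hy, rfl⟩
      exact ⟨_, (a4 _).2 ⟨y, hy, rfl⟩, (inter_inter b3).symm⟩

variable (R : O → V)

/-- A condition of a successor level. -/
noncomputable def sk (a : O) (p s : V) : V := pair (thr (succ a) fun y => pr R y a p) s

/-- Level `a + 1` is given by the second step `E`. -/
def SucSpec (a : O) (E : V) : Prop :=
  ∀ z, z ∈ R (succ a) ↔ ∃ p s p' s', pair (pair p s) (pair p' s') ∈ E ∧
    z = pair (sk R a p s) (sk R a p' s')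

variable {R}

theorem co_sk {a y : O} (hy : y ≤ a) (p s : V) : co (sk R a p s) y = pr R y a p :=
  co_thr _ _ (lt_succ_iff.2 hy)

section
variable {a : O} {E : V} (h : Sys R (succ a))
include h

theorem co_sk_self {p : V} (hp : Pos (R a) p) (s : V) : co (sk R a p s) a = p := by
  rw [co_sk le_rfl, h.pr_self (lt_succ a) hp.1]

theorem sk_inj {p s p' s' : V} (hp : Pos (R a) p) (hp' : Pos (R a) p')
    (e : sk R a p s = sk R a p' s') : p = p' ∧ s = s' :=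
  ⟨by rw [← co_sk_self h hp s, e, co_sk_self h hp'], (pair_inj.1 e).2⟩

variable (hE : ExtOf (PP (R a)) E) (hS : SucSpec R a E)
include hE

theorem ext_le {p s p' s' : V} (H : pair (pair p s) (pair p' s') ∈ E) :
    Pos (R a) p ∧ Pos (R a) p' ∧ p ⊆ p' := (mem_PP (h.po (lt_succ a))).1 (hE.le _ _ _ _ H)

theorem ext_res {p s r : V} (H : pair (pair p s) (pair p s) ∈ E) (hr : Pos (R a) r) (hs : r ⊆ p) :
    pair (pair r s) (pair p s) ∈ E :=
  hE.res _ _ _ H ((mem_PP (h.po (lt_succ a))).2 ⟨hr, (ext_le h hE H).1, hs⟩)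

include hS

theorem sk_le {p s p' s' : V} (H : pair (pair p s) (pair p' s') ∈ E) :
    pair (sk R a p s) (sk R a p' s') ∈ R (succ a) := (hS _).2 ⟨_, _, _, _, H, rfl⟩

theorem le_sk {e e' : V} (H : pair e e' ∈ R (succ a)) : ∃ p s p' s',
    pair (pair p s) (pair p' s') ∈ E ∧ e = sk R a p s ∧ e' = sk R a p' s' := by
  obtain ⟨p, s, p', s', h1, h2⟩ := (hS _).1 H
  exact ⟨p, s, p', s', h1, pair_inj.1 h2⟩

theorem le_sk' {e p' s' : V} (hp : Pos (R a) p') (H : pair e (sk R a p' s') ∈ R (succ a)) :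
    ∃ p s, pair (pair p s) (pair p' s') ∈ E ∧ e = sk R a p s := by
  obtain ⟨p, s, p₁, s₁, h1, h2, h3⟩ := le_sk h hE hS H
  obtain ⟨rfl, rfl⟩ := sk_inj h hp (ext_le h hE h1).2.1 h3
  exact ⟨p, s, h1, h2⟩

theorem of_sk_le {p s p' s' : V} (hp : Pos (R a) p) (hp' : Pos (R a) p')
    (H : pair (sk R a p s) (sk R a p' s') ∈ R (succ a)) : pair (pair p s) (pair p' s') ∈ E := by
  obtain ⟨p₁, s₁, h1, h2⟩ := le_sk' h hE hS hp' H
  obtain ⟨rfl, rfl⟩ := sk_inj h hp (ext_le h hE h1).1 h2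
  exact h1

theorem cond_sk {e : V} (H : pair e e ∈ R (succ a)) :
    ∃ p s, pair (pair p s) (pair p s) ∈ E ∧ e = sk R a p s := by
  obtain ⟨p, s, _, _, h1, h2, -⟩ := le_sk h hE hS H
  exact ⟨p, s, hE.po.left h1, h2⟩

theorem lev_succ (hT : ∀ r, Pos (R a) r → ∃ p s, pair (pair p s) (pair p s) ∈ E ∧ p ⊆ r) :
    Lev R (succ a) where
  po := by
    refine ⟨fun e => ?_, fun z hz => ?_, fun p q r h1 h2 => ?_⟩
    · obtain ⟨p, s, h1, -⟩ := hT _ (pos_fld (h.po (lt_succ a)))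
      exact notMem_empty _ (e ▸ sk_le h hE hS h1)
    · obtain ⟨p, s, p', s', h1, h2⟩ := (hS _).1 hz
      exact ⟨_, _, h2, sk_le h hE hS (hE.po.left h1), sk_le h hE hS (hE.po.right h1)⟩
    · obtain ⟨p₂, s₂, p₃, s₃, a1, rfl, rfl⟩ := le_sk h hE hS h2
      obtain ⟨p₁, s₁, a2, rfl⟩ := le_sk' h hE hS (ext_le h hE a1).1 h1
      exact sk_le h hE hS (hE.po.trans a2 a1)
  pos y hy e he := by
    obtain ⟨p, s, h1, rfl⟩ := cond_sk h hE hS he
    rw [co_sk (lt_succ_iff.1 hy)]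
    exact h.pr_pos (lt_succ_iff.1 hy) (lt_succ a) (ext_le h hE h1).1
  coh y y' h1 h2 e he := by
    obtain ⟨p, s, h3, rfl⟩ := cond_sk h hE hS he
    have h4 := lt_succ_iff.1 h2
    rw [co_sk h4, co_sk (h1.le.trans h4), h.pr_pr h4 (lt_succ a) h1.le (ext_le h hE h3).1.1]
  mono y hy e e' he := by
    obtain ⟨p, s, p', s', h1, rfl, rfl⟩ := le_sk h hE hS he
    rw [co_sk (lt_succ_iff.1 hy), co_sk (lt_succ_iff.1 hy)]
    exact pr_mono (ext_le h hE h1).2.2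
  amal y hy e r he hr hs := by
    obtain ⟨p, s, h1, rfl⟩ := cond_sk h hE hS he
    have h2 := lt_succ_iff.1 hy
    have hp := (ext_le h hE h1).1
    rw [co_sk h2] at hs
    have h3 := ((h.meets_iff h2 (lt_succ a) hp.1 hr.1).1 (hr.meets hs)).symm.pos (h.po (lt_succ a))
      hp.1 (h.up_ro h2 (lt_succ a) hr.1)
    refine ⟨_, sk_le h hE hS (ext_res h hE h1 h3 (inter_sub_left _ _)), ?_⟩
    rw [co_sk h2, h.pr_inter_up h2 (lt_succ a) hp.1 hr.1]
    exact inter_sub_right _ _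
  surj y hy r hr := by
    have h2 := lt_succ_iff.1 hy
    obtain ⟨p, s, h1, h3⟩ := hT _ (h.up_pos h2 (lt_succ a) hr)
    refine ⟨_, sk_le h hE hS h1, ?_⟩
    rw [co_sk h2]
    exact (h.gc h2 (lt_succ a) (ext_le h hE h1).1.1 hr.1).2 h3

end

variable (R)

/-- `p` forces that `n` is a node of the generic tree. -/
def TN (a : O) (p n : V) : Prop :=
  Pos (R a) p ∧ ∃ α x t, n = pair α x ∧ x ∈ t ∧ TC α t ∧ p ⊆ up R 0 a (cl Tr0 (pair α t))

/-- The node `n` extends the node `n'`. -/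
def NLe (n n' : V) : Prop := ∃ α x α' x', n = pair α x ∧ n' = pair α' x' ∧ α' ⊆ α ∧ x' = x ∩ α'

/-- A set of pairs of pairs. -/
noncomputable def sep4 (Φ : V → V → V → V → Prop) (A B : V) : V :=
  pairSep (fun e e' => ∃ p s p' s', e = pair p s ∧ e' = pair p' s' ∧ Φ p s p' s') (prod A B)
    (prod A B)

theorem mem_sep4' {Φ : V → V → V → V → Prop} {A B : V}
    (h : ∀ p s p' s', Φ p s p' s' → p ∈ A ∧ s ∈ B ∧ p' ∈ A ∧ s' ∈ B) {z : V} :
    z ∈ sep4 Φ A B ↔ ∃ p s p' s', z = pair (pair p s) (pair p' s') ∧ Φ p s p' s' := by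
  rw [sep4, mem_pairSep]
  constructor
  · rintro ⟨_, -, _, -, rfl, p, s, p', s', rfl, rfl, h⟩
    exact ⟨p, s, p', s', rfl, h⟩
  · rintro ⟨p, s, p', s', rfl, H⟩
    obtain ⟨a1, a2, a3, a4⟩ := h _ _ _ _ H
    exact ⟨_, pair_mem_prod.2 ⟨a1, a2⟩, _, pair_mem_prod.2 ⟨a3, a4⟩, rfl, p, s, p', s', rfl, rfl, H⟩

theorem mem_sep4 {Φ : V → V → V → V → Prop} {A B : V}
    (h : ∀ p s p' s', Φ p s p' s' → p ∈ A ∧ s ∈ B ∧ p' ∈ A ∧ s' ∈ B) {p s p' s' : V} :
    pair (pair p s) (pair p' s') ∈ sep4 Φ A B ↔ Φ p s p' s' := by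
  rw [mem_sep4' h]
  constructor
  · rintro ⟨_, _, _, _, e, h⟩
    simp only [pair_inj] at e
    obtain ⟨⟨rfl, rfl⟩, rfl, rfl⟩ := e
    exact h
  · exact fun h => ⟨_, _, _, _, rfl, h⟩

theorem extOf_sep4 {Φ : V → V → V → V → Prop} {A B P : V}
    (h : ∀ p s p' s', Φ p s p' s' → p ∈ A ∧ s ∈ B ∧ p' ∈ A ∧ s' ∈ B) (hP : Po P)
    (h0 : ∃ p s, Φ p s p s) (h1 : ∀ p s p' s', Φ p s p' s' → Φ p s p s ∧ Φ p' s' p' s' ∧ pair p p' ∈ P)
    (h2 : ∀ p s p' s' p'' s'', Φ p s p' s' → Φ p' s' p'' s'' → Φ p s p'' s'')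
    (h3 : ∀ p s r, Φ p s p s → pair r p ∈ P → Φ r s p s) : ExtOf P (sep4 Φ A B) := by
  refine ⟨⟨fun e => ?_, fun z hz => ?_, fun p q r a1 a2 => ?_⟩, fun e he => ?_,
    fun p s p' s' H => (h1 _ _ _ _ ((mem_sep4 h).1 H)).2.2,
    fun p s r H hr => (mem_sep4 h).2 (h3 _ _ _ ((mem_sep4 h).1 H) hr)⟩
  · obtain ⟨p, s, H⟩ := h0
    exact notMem_empty _ (e ▸ (mem_sep4 h).2 H)
  · obtain ⟨p, s, p', s', e, H⟩ := (mem_sep4' h).1 hz
    exact ⟨_, _, e, (mem_sep4 h).2 (h1 _ _ _ _ H).1, (mem_sep4 h).2 (h1 _ _ _ _ H).2.1⟩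
  · obtain ⟨p₁, s₁, p₂, s₂, e, H⟩ := (mem_sep4' h).1 a1
    obtain ⟨rfl, rfl⟩ := pair_inj.1 e
    obtain ⟨_, _, p₃, s₃, e, H'⟩ := (mem_sep4' h).1 a2
    simp only [pair_inj] at e
    obtain ⟨⟨rfl, rfl⟩, rfl⟩ := e
    exact (mem_sep4 h).2 (h2 _ _ _ _ _ _ H H')
  · obtain ⟨p, s, p', s', e', H⟩ := (mem_sep4' h).1 he
    exact ⟨p, s, (pair_inj.1 e').1, hP.left (h1 _ _ _ _ H).2.2⟩

/-- Forcing with the generic tree. -/
noncomputable def ET (a : O) : V :=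
  sep4 (fun p n p' n' => TN R a p n ∧ TN R a p' n' ∧ p ⊆ p' ∧ NLe n n') (powerset (fld (R a)))
    (prod w1 (powerset w1))

variable {R}

theorem Pos.mem_pow {r p : V} (h : Pos r p) : p ∈ powerset (fld r) :=
  mem_powerset.2 fun d hd => mem_fld.2 ((h.1 d).1 hd).1

theorem TN.bd {a : O} {p n : V} (h : TN R a p n) :
    p ∈ powerset (fld (R a)) ∧ n ∈ prod w1 (powerset w1) := by
  obtain ⟨h1, α, x, t, rfl, h2, h3, -⟩ := h
  exact ⟨h1.mem_pow, pair_mem_prod.2 ⟨h3.1, mem_powerset.2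
    (sub_trans (h3.2.2.2 x h2) (w1_ord.subset_of_mem h3.1))⟩⟩

theorem ET_bd {a : O} (p n p' n' : V) (h : TN R a p n ∧ TN R a p' n' ∧ p ⊆ p' ∧ NLe n n') :
    p ∈ powerset (fld (R a)) ∧ n ∈ prod w1 (powerset w1) ∧ p' ∈ powerset (fld (R a)) ∧
      n' ∈ prod w1 (powerset w1) := ⟨h.1.bd.1, h.1.bd.2, h.2.1.bd.1, h.2.1.bd.2⟩

theorem mem_ET {a : O} {p n p' n' : V} : pair (pair p n) (pair p' n') ∈ ET R a ↔
    TN R a p n ∧ TN R a p' n' ∧ p ⊆ p' ∧ NLe n n' := mem_sep4 ET_bd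

theorem TN.nle {a : O} {p n : V} (h : TN R a p n) : NLe n n := by
  obtain ⟨-, α, x, t, rfl, h2, h3, -⟩ := h
  exact ⟨α, x, α, x, rfl, rfl, sub_rfl, (inter_of_sub (h3.2.2.2 x h2)).symm⟩

theorem TN.mono {a : O} {p n r : V} (h : TN R a p n) (hr : Pos (R a) r) (hs : r ⊆ p) :
    TN R a r n := by
  obtain ⟨-, α, x, t, e, h2, h3, h4⟩ := h
  exact ⟨hr, α, x, t, e, h2, h3, sub_trans hs h4⟩

theorem NLe.trans {n n' n'' : V} (h : NLe n n') (h' : NLe n' n'') : NLe n n'' := by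
  obtain ⟨α, x, α', x', rfl, rfl, a1, rfl⟩ := h
  obtain ⟨_, _, α'', x'', e, rfl, a2, rfl⟩ := h'
  obtain ⟨rfl, rfl⟩ := pair_inj.1 e
  exact ⟨_, _, _, _, rfl, rfl, sub_trans a2 a1, inter_inter a2⟩

theorem nle_iff {α x α' x' : V} : NLe (pair α x) (pair α' x') ↔ α' ⊆ α ∧ x' = x ∩ α' := by
  constructor
  · rintro ⟨_, _, _, _, e, e', h⟩
    obtain ⟨rfl, rfl⟩ := pair_inj.1 e
    obtain ⟨rfl, rfl⟩ := pair_inj.1 e'
    exact h
  · exact fun h => ⟨_, _, _, _, rfl, rfl, h⟩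

theorem cond_ET {a : O} {p n : V} : pair (pair p n) (pair p n) ∈ ET R a ↔ TN R a p n :=
  mem_ET.trans ⟨fun h => h.1, fun h => ⟨h, h, sub_rfl, h.nle⟩⟩

/-- Below any condition some level of the tree is decided. -/
theorem exists_level {β a : O} (h : Sys R β) (ha : a < β) (h0 : R 0 = Tr0) {r : V}
    (hr : Pos (R a) r) : ∃ p α t, Pos (R a) p ∧ p ⊆ r ∧ TC α t ∧
      p ⊆ up R 0 a (cl Tr0 (pair α t)) ∧ pair α t ∈ pr R 0 a r := by
  have h1 := h.pr_pos bot_le ha hr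
  obtain ⟨e, he⟩ := h1.2
  have h2 := h1.1.cond (h.po' bot_le ha) he
  have h3 := h1.1.cl_sub (h.po' bot_le ha) he
  have h4 := pos_cl (h.po' bot_le ha) h2
  have h5 := ((h.meets_iff bot_le ha hr.1 h4.1).1 (h4.meets h3)).symm.pos (h.po ha) hr.1
    (h.up_ro bot_le ha h4.1)
  change R ⊥ = Tr0 at h0
  rw [h0] at h2 h5
  obtain ⟨α, t, rfl, h6⟩ := cond_Tr0 h2
  exact ⟨_, α, t, h5, inter_sub_left _ _, h6, inter_sub_right _ _, he⟩

theorem ET_tot {β a : O} (h : Sys R β) (ha : a < β) (h0 : R 0 = Tr0) (r : V) (hr : Pos (R a) r) :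
    ∃ p s, pair (pair p s) (pair p s) ∈ ET R a ∧ p ⊆ r := by
  obtain ⟨p, α, t, h1, h2, h3, h4, -⟩ := exists_level h ha h0 hr
  obtain e | ⟨x, hx⟩ := eq_empty_or_nonempty t
  · exact absurd e h3.2.1
  · exact ⟨p, _, cond_ET.2 ⟨h1, α, x, t, rfl, hx, h3, h4⟩, h2⟩

theorem extOf_ET {β a : O} (h : Sys R β) (ha : a < β) (h0 : R 0 = Tr0) :
    ExtOf (PP (R a)) (ET R a) := by
  have hp := h.po ha
  refine extOf_sep4 ET_bd (po_PP hp) ?_ (fun p s p' s' H => ⟨⟨H.1, H.1, sub_rfl, H.1.nle⟩,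
    ⟨H.2.1, H.2.1, sub_rfl, H.2.1.nle⟩, (mem_PP hp).2 ⟨H.1.1, H.2.1.1, H.2.2.1⟩⟩)
    (fun p s p' s' p'' s'' H H' => ⟨H.1, H'.2.1, sub_trans H.2.2.1 H'.2.2.1, H.2.2.2.trans H'.2.2.2⟩)
    fun p s r H hr => ?_
  · obtain ⟨p, s, h1, -⟩ := ET_tot h ha h0 _ (pos_fld hp)
    exact ⟨p, s, mem_ET.1 h1⟩
  · rw [mem_PP hp] at hr
    exact ⟨H.1.mono hr.1 hr.2.2, H.1, hr.2.2, H.2.2.2⟩

/-- Conditions of the lottery. -/
def LC (P C p u : V) : Prop :=
  pair p p ∈ P ∧ (u = ∅ ∨ ∃ x ∈ C, ∃ s, u = pair x s ∧ pair (pair p s) (pair p s) ∈ fst x)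

/-- The order of the lottery. -/
def LL (P C p u p' u' : V) : Prop :=
  LC P C p u ∧ LC P C p' u' ∧ pair p p' ∈ P ∧ (u' = ∅ ∨ ∃ x s s', u = pair x s ∧ u' = pair x s' ∧
    pair (pair p s) (pair p' s') ∈ fst x)

/-- The lottery of the second steps in `C`. -/
noncomputable def EL (P C : V) : V :=
  sep4 (LL P C) (fld P) (insert ∅ (prod C (vonNeumann (rank C))))

theorem rank_left_lt (x y : V) : rank x < rank (pair x y) :=
  (rank_lt_of_mem (mem_singleton.2 rfl)).trans (rank_lt_of_mem (y := {x}) (by simp [pair]))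

theorem rank_right_lt (x y : V) : rank y < rank (pair x y) :=
  (rank_lt_of_mem (x := {x, y}) (by simp)).trans (rank_lt_of_mem (y := {x, y}) (by simp [pair]))

theorem rank_fst_le (x : V) : rank (fst x) ≤ rank x :=
  (rank_sUnion_le _).trans ((rank_mono sep_subset).trans (rank_sUnion_le _))

theorem LC.bd {P C p u : V} (h : LC P C p u) :
    p ∈ fld P ∧ u ∈ insert ∅ (prod C (vonNeumann (rank C))) := by
  refine ⟨mem_fld.2 h.1, mem_insert_iff.2 (h.2.imp_right ?_)⟩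
  rintro ⟨x, hx, s, rfl, H⟩
  exact pair_mem_prod.2 ⟨hx, mem_vonNeumann.2 ((rank_right_lt p s).trans ((rank_left_lt _ _).trans
    ((rank_lt_of_mem H).trans ((rank_fst_le x).trans_lt (rank_lt_of_mem hx)))))⟩

theorem EL_bd {P C : V} (p u p' u' : V) (h : LL P C p u p' u') :
    p ∈ fld P ∧ u ∈ insert ∅ (prod C (vonNeumann (rank C))) ∧ p' ∈ fld P ∧
      u' ∈ insert ∅ (prod C (vonNeumann (rank C))) := ⟨h.1.bd.1, h.1.bd.2, h.2.1.bd.1, h.2.1.bd.2⟩

theorem mem_EL {P C p u p' u' : V} : pair (pair p u) (pair p' u') ∈ EL P C ↔ LL P C p u p' u' :=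
  mem_sep4 EL_bd

theorem pair_ne_empty (x y : V) : pair x y ≠ ∅ := fun h =>
  notMem_empty {x} (h ▸ (by simp [pair] : ({x} : V) ∈ pair x y))

theorem LC.refl {P C p u : V} (h : LC P C p u) : LL P C p u p u :=
  ⟨h, h, h.1, h.2.imp_right fun ⟨x, _, s, e, H⟩ => ⟨x, s, s, e, e, H⟩⟩

theorem extOf_EL {P C : V} (hP : Po P) (hC : ∀ x ∈ C, ExtOf P (fst x)) : ExtOf P (EL P C) := by
  refine extOf_sep4 EL_bd hP ?_ (fun p s p' s' H => ⟨H.1.refl, H.2.1.refl, H.2.2.1⟩)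
    (fun p s p' s' p'' s'' H H' => ⟨H.1, H'.2.1, hP.trans H.2.2.1 H'.2.2.1, ?_⟩) fun p s r H hr => ?_
  · obtain ⟨p, hp⟩ := exists_cond hP
    exact ⟨p, ∅, LC.refl ⟨hp, Or.inl rfl⟩⟩
  · refine H'.2.2.2.imp_right ?_
    rintro ⟨x, s₁, s₂, rfl, rfl, a1⟩
    obtain e | ⟨_, s₀, _, rfl, e, a2⟩ := H.2.2.2
    · exact absurd e (pair_ne_empty _ _)
    obtain ⟨rfl, rfl⟩ := pair_inj.1 e
    obtain e | ⟨_, hx, _, e, -⟩ := H.1.2
    · exact absurd e (pair_ne_empty _ _)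
    obtain ⟨rfl, rfl⟩ := pair_inj.1 e
    exact ⟨_, _, _, rfl, rfl, (hC _ hx).po.trans a2 a1⟩
  · refine ⟨⟨hP.left hr, H.1.2.imp_right ?_⟩, H.1, hr, H.1.2.imp_right ?_⟩
    · rintro ⟨x, hx, s, e, a1⟩
      exact ⟨x, hx, s, e, (hC x hx).po.left ((hC x hx).res _ _ _ a1 hr)⟩
    · rintro ⟨x, hx, s, e, a1⟩
      exact ⟨x, s, s, e, e, (hC x hx).res _ _ _ a1 hr⟩

/-- The counterexamples of least rank, if that rank is below `κ`. -/
noncomputable def CxSet (κ : O) (P : V) : V :=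
  (vonNeumann κ).sep fun x => Cx Set.univ w1 P x ∧ ∀ x', Cx Set.univ w1 P x' → rank x ≤ rank x'

theorem mem_CxSet {κ : O} {P x : V} : x ∈ CxSet κ P ↔ rank x < κ ∧ Cx Set.univ w1 P x ∧
    ∀ x', Cx Set.univ w1 P x' → rank x ≤ rank x' := by
  rw [CxSet, mem_sep, mem_vonNeumann]

theorem extOf_of_mem_CxSet {κ : O} {P x : V} (h : x ∈ CxSet κ P) : ExtOf P (fst x) := by
  obtain ⟨E, D, h, u, ρ, rfl, H, -⟩ := (mem_CxSet.1 h).2.1
  rwa [fst_pair]

variable (R)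

open Classical in
/-- The second step used at stage `a`. -/
noncomputable def Stp (κ a : O) : V :=
  if IsSuccLimit a then EL (PP (R a)) (CxSet κ (PP (R a))) else ET R a

/-- The successor level. -/
noncomputable def sucR (a : O) (E : V) : V :=
  img (fun z => pair (sk R a (fst (fst z)) (snd (fst z))) (sk R a (fst (snd z)) (snd (snd z))))
    (E.sep fun z => ∃ p s p' s', z = pair (pair p s) (pair p' s'))

/-- A set that includes all threads. -/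
noncomputable def limU (b : O) : V :=
  prod (powerset (prod b.toZFSet (ZFSet.iUnion fun x : Set.Iio b => powerset (fld (R x.1))))) {∅}

/-- The limit level. -/
noncomputable def limR (b : O) : V :=
  (prod (limU R b) (limU R b)).sep fun z => ∃ g g', Nice R b g ∧ Nice R b g' ∧
    z = pair (pair (thr b g) ∅) (pair (thr b g') ∅) ∧ ∀ x < b, g x ⊆ g' x

variable {R}

theorem mem_sucR {a : O} {E z : V} : z ∈ sucR R a E ↔ ∃ p s p' s',
    pair (pair p s) (pair p' s') ∈ E ∧ z = pair (sk R a p s) (sk R a p' s') := by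
  rw [sucR, mem_img]
  constructor
  · rintro ⟨y, hy, rfl⟩
    obtain ⟨h1, p, s, p', s', rfl⟩ := mem_sep.1 hy
    exact ⟨p, s, p', s', h1, by simp only [fst_pair, snd_pair]⟩
  · rintro ⟨p, s, p', s', h1, rfl⟩
    exact ⟨_, mem_sep.2 ⟨h1, p, s, p', s', rfl⟩, by simp only [fst_pair, snd_pair]⟩

theorem Thr.mem_limU {b : O} {g : O → V} (h : Thr R b g) : pair (thr b g) ∅ ∈ limU R b := by
  refine pair_mem_prod.2 ⟨mem_powerset.2 fun z hz => ?_, mem_singleton.2 rfl⟩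
  obtain ⟨x, hx, rfl⟩ := mem_thr.1 hz
  exact pair_mem_prod.2 ⟨Ordinal.toZFSet_mem_toZFSet_iff.2 hx,
    mem_iUnion.2 ⟨⟨x, hx⟩, (h.pos x hx).mem_pow⟩⟩

theorem mem_limR {b : O} {z : V} : z ∈ limR R b ↔ ∃ g g', Nice R b g ∧ Nice R b g' ∧
    z = pair (pair (thr b g) ∅) (pair (thr b g') ∅) ∧ ∀ x < b, g x ⊆ g' x := by
  rw [limR, mem_sep]
  refine ⟨fun h => h.2, fun h => ⟨?_, h⟩⟩
  obtain ⟨g, g', h1, h2, rfl, -⟩ := h
  exact pair_mem_prod.2 ⟨h1.1.mem_limU, h2.1.mem_limU⟩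

section congr
variable {R' : O → V}

theorem rho_congr {a b : O} (h : R b = R' b) : rho R a b = rho R' a b := by
  funext e; rw [rho, rho, h]

theorem up_congr {a b : O} (h : R b = R' b) : up R a b = up R' a b := by
  funext e; rw [up, up, h, rho_congr h]

theorem pr_congr {a b : O} (h : R a = R' a) (h' : R b = R' b) : pr R a b = pr R' a b := by
  funext e; rw [pr, pr, h, rho_congr h']

theorem Nice.agree {b : O} {g : O → V} (hg : Nice R b g) (h : ∀ x < b, R' x = R x) :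
    Nice R' b g := by
  obtain ⟨hg, S, hS⟩ := hg
  refine ⟨⟨fun x hx => h x hx ▸ hg.pos x hx, fun x y hx hy => ?_⟩, S, fun k x c H => ?_, hS.root,
    fun k x c H r h1 h2 => ?_, fun y hy r h1 h2 => ?_⟩
  · rw [pr_congr (h x (hx.trans_lt hy)) (h y hy)]; exact hg.coh x y hx hy
  · rw [h x (hS.dom k x c H).1]; exact hS.dom k x c H
  · rw [h x (hS.dom k x c H).1] at h1 ⊢
    obtain ⟨x', r', a1, a2, a3, a4⟩ := hS.step k x c H r h1 h2
    exact ⟨x', r', a1, a2, a3, by rwa [up_congr (h x' (hS.dom _ _ _ a4).1)]⟩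
  · simp only [h y hy, up_congr (h y hy)] at h1 h2
    exact hS.lim y hy r h1 h2

theorem sk_congr {a : O} (h : ∀ x ≤ a, R x = R' x) : sk R a = sk R' a := by
  funext p s
  rw [sk, sk, thr_congr fun x hx => by rw [pr_congr (h x (lt_succ_iff.1 hx)) (h a le_rfl)]]

theorem stp_congr {κ a : O} (h : R a = R' a) : Stp R κ a = Stp R' κ a := by
  have : TN R a = TN R' a := by
    funext p n; rw [TN, TN, h, up_congr h]
  rw [Stp, Stp, ET, ET, h, this]

end congr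

/-- The defining properties of the iteration. -/
structure Iter (κ : O) (R : O → V) : Prop where
  zero : R 0 = Tr0
  suc : ∀ a, R (succ a) = sucR R a (Stp R κ a)
  lim : ∀ b, IsSuccLimit b → R b = limR R b

theorem exists_iter (κ : O) : ∃ R, Iter κ R := by
  classical
  let F : O → (O → V) → V := fun b R => if b = 0 then Tr0 else
    if IsSuccLimit b then limR R b else sucR R (Ordinal.pred b) (Stp R κ (Ordinal.pred b))
  let R : O → V := Ordinal.lt_wf.fix fun b ih => F b fun x => if h : x < b then ih x h else ∅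
  have hR : ∀ b, R b = F b fun x => if x < b then R x else ∅ := fun b => by
    rw [show R b = _ from Ordinal.lt_wf.fix_eq _ b]
    rfl
  refine ⟨R, by rw [hR]; exact if_pos rfl, fun a => ?_, fun b hb => ?_⟩
  · rw [hR]
    have h1 : ∀ x ≤ a, (fun x => if x < succ a then R x else ∅) x = R x := fun x hx =>
      if_pos (lt_succ_iff.2 hx)
    simp only [F, if_neg (not_isSuccLimit_succ a),
      show Ordinal.pred (succ a) = a from Ordinal.pred_add_one a]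
    rw [if_neg (show succ a ≠ 0 from succ_ne_bot a), stp_congr (h1 a le_rfl), sucR, sucR,
      sk_congr h1]
  · rw [hR]
    simp only [F, if_neg (show b ≠ 0 from hb.ne_bot), if_pos hb]
    refine ZFSet.ext fun z => ?_
    rw [mem_limR, mem_limR]
    have h1 : ∀ x < b, (fun x => if x < b then R x else ∅) x = R x := fun x hx => if_pos hx
    exact ⟨fun ⟨g, g', a1, a2, a3⟩ => ⟨g, g', a1.agree fun x hx => (h1 x hx).symm,
      a2.agree fun x hx => (h1 x hx).symm, a3⟩,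
      fun ⟨g, g', a1, a2, a3⟩ => ⟨g, g', a1.agree h1, a2.agree h1, a3⟩⟩

namespace Iter

variable {κ : O} (H : Iter κ R)
include H

theorem sucSpec (a : O) : SucSpec R a (Stp R κ a) := fun z => by rw [H.suc, mem_sucR]

theorem limSpec {b : O} (hb : IsSuccLimit b) : LimSpec R b := fun z => by rw [H.lim b hb, mem_limR]

theorem ext_of {a : O} (h : Sys R (succ a)) : ExtOf (PP (R a)) (Stp R κ a) := by
  rw [Stp]
  split_ifs
  · exact extOf_EL (po_PP (h.po (lt_succ a))) fun x hx => extOf_of_mem_CxSet hx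
  · exact extOf_ET h (lt_succ a) H.zero

theorem lev (b : O) : Lev R b := by
  induction b using WellFoundedLT.induction with
  | ind b ih =>
  rcases Ordinal.zero_or_succ_or_isSuccLimit b with rfl | ⟨a, rfl⟩ | hl
  · exact ⟨H.zero ▸ po_Tr0, fun _ h => absurd h not_lt_bot, fun _ _ _ h => absurd h not_lt_bot,
      fun _ h => absurd h not_lt_bot, fun _ h => absurd h not_lt_bot, fun _ h => absurd h not_lt_bot⟩
  · refine lev_succ ih (H.ext_of ih) (H.sucSpec a) fun r hr => ?_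
    rw [Stp]
    split_ifs
    · exact ⟨r, ∅, mem_EL.2 (LC.refl ⟨(cond_PP (Sys.po ih (lt_succ a))).2 hr, Or.inl rfl⟩), sub_rfl⟩
    · exact ET_tot ih (lt_succ a) H.zero r hr
  · exact (H.limSpec hl).lev ih hl.bot_lt

theorem sys (β : O) : Sys R β := fun b _ => H.lev b

theorem ext (a : O) : ExtOf (PP (R a)) (Stp R κ a) := H.ext_of (H.sys _)

end Iter

end Pool.Agent.Lib.MP_329f2d_lc.It
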