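import Pool.Agent.Lib.MP_329f2d_lc.H59RO

/-! Threads, ladders and nice limits. -/

namespace Pool.Agent.Lib.MP_329f2d_lc.It

open ZFSet

set_option linter.unusedSectionVars false

variable (R : O → V)

/-- Threads of length `b`. -/
structure Thr (b : O) (g : O → V) : Prop where
  pos : ∀ x < b, Pos (R x) (g x)
  coh : ∀ x y, x ≤ y → y < b → g x = pr R x y (g y)

/-- The constant thread given by `r` at level `a`. -/
noncomputable def cnst (a : O) (r : V) (x : O) : V := if x ≤ a then pr R x a r else up R a x r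

/-- `S` is a ladder for the thread `g`. -/
structure Lad (b : O) (g : O → V) (S : ℕ → O → V → Prop) : Prop where
  dom : ∀ k x c, S k x c → x < b ∧ Pos (R x) c ∧ c ⊆ g x
  root : ∃ x, S 0 x (g x)
  step : ∀ k x c, S k x c → ∀ r, Pos (R x) r → r ⊆ c →
    ∃ x' r', x ≤ x' ∧ Pos (R x) r' ∧ r' ⊆ r ∧ S (k + 1) x' (g x' ∩ up R x x' r')
  lim : ∀ y < b, ∀ r, Pos (R y) r → (∀ k r₁, Pos (R y) r₁ → r₁ ⊆ r →
    ∃ x c, x ≤ y ∧ S k x c ∧ Meets r₁ (up R x y c)) → r ⊆ g y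

/-- Nice threads. -/
def Nice (b : O) (g : O → V) : Prop := Thr R b g ∧ ∃ S, Lad R b g S

/-- Level `b` is the nice limit of the lower levels. -/
def LimSpec (b : O) : Prop :=
  ∀ z, z ∈ R b ↔ ∃ g g', Nice R b g ∧ Nice R b g' ∧
    z = pair (pair (thr b g) ∅) (pair (thr b g') ∅) ∧ ∀ x < b, g x ⊆ g' x

variable {R} {b : O}

theorem cnst_le {a x : O} (h : x ≤ a) (r : V) : cnst R a r x = pr R x a r := if_pos h

theorem Thr.sub_up {g : O → V} (h : Sys R b) (hg : Thr R b g) {x y : O} (hx : x ≤ y) (hy : y < b) :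
    g y ⊆ up R x y (g x) := by
  rw [hg.coh x y hx hy]
  exact h.sub_up_pr hx hy (hg.pos y hy).1

theorem Thr.sub_up_of {g : O → V} (h : Sys R b) (hg : Thr R b g) {x y : O} (hx : x ≤ y) (hy : y < b)
    {U : V} (hU : g x ⊆ U) : g y ⊆ up R x y U := sub_trans (hg.sub_up h hx hy) (up_mono hU)

theorem Thr.sub_of_up {g : O → V} (h : Sys R b) (hg : Thr R b g) {x y : O} (hx : x ≤ y) (hy : y < b)
    {U : V} (hU : RO (R x) U) (H : g y ⊆ up R x y U) : g x ⊆ U := by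
  rw [hg.coh x y hx hy]
  exact (h.gc hx hy (hg.pos y hy).1 hU).2 H

theorem Thr.congr {g g' : O → V} (hg : Thr R b g) (h : ∀ x < b, g' x = g x) : Thr R b g' :=
  ⟨fun x hx => h x hx ▸ hg.pos x hx, fun x y hx hy => by
    rw [h y hy, h x (hx.trans_lt hy)]; exact hg.coh x y hx hy⟩

theorem Lad.congr {g g' : O → V} {S : ℕ → O → V → Prop} (hg : Lad R b g S)
    (h : ∀ x < b, g' x = g x) : Lad R b g' S where
  dom k x c H := by rw [h x (hg.dom k x c H).1]; exact hg.dom k x c H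
  root := let ⟨x, hx⟩ := hg.root; ⟨x, by rwa [h x (hg.dom _ _ _ hx).1]⟩
  step k x c H r h1 h2 := by
    obtain ⟨x', r', a1, a2, a3, a4⟩ := hg.step k x c H r h1 h2
    exact ⟨x', r', a1, a2, a3, by rwa [h x' (hg.dom _ _ _ a4).1]⟩
  lim y hy r h1 h2 := by rw [h y hy]; exact hg.lim y hy r h1 h2

theorem Nice.congr {g g' : O → V} (hg : Nice R b g) (h : ∀ x < b, g' x = g x) : Nice R b g' :=
  ⟨hg.1.congr h, let ⟨S, hS⟩ := hg.2; ⟨S, hS.congr h⟩⟩

namespace Sys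

variable (h : Sys R b)
include h

theorem cnst_ge {a x : O} (hx : a ≤ x) (hb : x < b) {r : V} (hr : RO (R a) r) :
    cnst R a r x = up R a x r := by
  rcases hx.eq_or_lt with rfl | hl
  · rw [cnst_le le_rfl, h.pr_self hb hr, h.up_self hb hr]
  · exact if_neg hl.not_ge

theorem cnst_self {a : O} (ha : a < b) {r : V} (hr : RO (R a) r) : cnst R a r a = r := by
  rw [cnst_le le_rfl, h.pr_self ha hr]

theorem thr_cnst {a : O} (ha : a < b) {r : V} (hr : Pos (R a) r) : Thr R b (cnst R a r) := by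
  refine ⟨fun x hx => ?_, fun x y hx hy => ?_⟩
  · rcases le_total x a with H | H
    · rw [cnst_le H]; exact h.pr_pos H ha hr
    · rw [h.cnst_ge H hx hr.1]; exact h.up_pos H hx hr
  · rcases le_total y a with H | H
    · rw [cnst_le H, cnst_le (hx.trans H), h.pr_pr H ha hx hr.1]
    · rw [h.cnst_ge H hy hr.1]
      rcases le_total x a with H' | H'
      · rw [cnst_le H', ← h.pr_pr H hy H' (h.up_ro H hy hr.1), h.pr_up H hy hr.1]
      · rw [h.cnst_ge H' (hx.trans_lt hy) hr.1, ← h.up_up hx hy H' hr.1,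
          h.pr_up hx hy (h.up_ro H' (hx.trans_lt hy) hr.1)]

theorem cnst_sub {g : O → V} (hg : Thr R b g) {a : O} {r : V} (hs : r ⊆ g a) {x : O} (ha : a < b)
    (hx : x ≤ a) : cnst R a r x ⊆ g x := by
  rw [cnst_le hx, hg.coh x a hx ha]
  exact pr_mono hs

theorem cnst_mono {a a' : O} (hl : a ≤ a') (ha : a' < b) {r r' : V} (hr : Pos (R a) r)
    (hr' : Pos (R a') r') (hs : r' ⊆ up R a a' r) {y : O} (hy : y < b) :
    cnst R a' r' y ⊆ cnst R a r y := by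
  have h1 := h.thr_cnst (hl.trans_lt ha) hr
  rcases le_total y a' with H | H
  · exact h.cnst_sub h1 (by rwa [h.cnst_ge hl ha hr.1]) ha H
  · rw [h.cnst_ge H hy hr'.1, h.cnst_ge (hl.trans H) hy hr.1, ← h.up_up H hy hl hr.1]
    exact up_mono hs

/-- Amalgamation of a thread with a smaller condition. -/
theorem thr_amal {g : O → V} (hg : Thr R b g) {a : O} (ha : a < b) {r : V} (hr : Pos (R a) r)
    (hs : r ⊆ g a) : Thr R b fun x => g x ∩ cnst R a r x := by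
  have h1 := h.thr_cnst ha hr
  have e1 : ∀ x ≤ a, g x ∩ cnst R a r x = cnst R a r x := fun x hx =>
    sub_antisymm (inter_sub_right _ _) (sub_inter (h.cnst_sub hg hs ha hx) sub_rfl)
  have e2 : ∀ x y, a ≤ x → x ≤ y → y < b →
      g x ∩ cnst R a r x = pr R x y (g y ∩ cnst R a r y) := fun x y hx hxy hy => by
    rw [h.cnst_ge (hx.trans hxy) hy hr.1, ← h.up_up hxy hy hx hr.1,
      h.pr_inter_up hxy hy (hg.pos y hy).1 (h.up_ro hx (hxy.trans_lt hy) hr.1),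
      ← hg.coh x y hxy hy, h.cnst_ge hx (hxy.trans_lt hy) hr.1]
  have ro : ∀ x < b, RO (R x) (g x ∩ cnst R a r x) := fun x hx =>
    (hg.pos x hx).1.inter (h.po hx) (h1.pos x hx).1
  refine ⟨fun x hx => ?_, fun x y hx hy => ?_⟩
  · rcases le_total x a with H | H
    · rw [e1 x H]; exact h1.pos x hx
    · refine ⟨ro x hx, ?_⟩
      have h2 : Meets r (pr R a x (g x)) := by rw [← hg.coh a x H hx]; exact hr.meets hs
      obtain ⟨e, c1, c2⟩ := (h.meets_iff H hx (hg.pos x hx).1 hr.1).1 h2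
      exact ⟨e, mem_inter.2 ⟨c2, by rwa [h.cnst_ge H hx hr.1]⟩⟩
  · rcases le_total y a with H | H
    · rw [e1 y H, e1 x (hx.trans H)]; exact h1.coh x y hx hy
    rcases le_total x a with H' | H'
    · rw [← h.pr_pr H hy H' (ro y hy), ← e2 a y le_rfl H hy, e1 x H', e1 a le_rfl]
      exact h1.coh x a H' ha
    · exact e2 x y H' hx hy

theorem amal_self {g : O → V} {a : O} (ha : a < b) {r : V} (hr : Pos (R a) r) (hs : r ⊆ g a) :
    g a ∩ cnst R a r a = r := by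
  rw [h.cnst_self ha hr.1]
  exact sub_antisymm (inter_sub_right _ _) (sub_inter hs sub_rfl)

theorem inter_up_pos {g : O → V} (hg : Thr R b g) {x y : O} (hx : x ≤ y) (hy : y < b) {r : V}
    (hr : Pos (R x) r) (hs : r ⊆ g x) : Pos (R y) (g y ∩ up R x y r) := by
  rw [← h.cnst_ge hx hy hr.1]
  exact (h.thr_amal hg (hx.trans_lt hy) hr hs).pos y hy

/-- Every level of a ladder is predense below the thread. -/
theorem lad_meets {g d : O → V} {S : ℕ → O → V → Prop} (hS : Lad R b g S) (hd : Thr R b d)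
    (hs : ∀ x < b, d x ⊆ g x) (k : ℕ) : ∃ x c, S k x c ∧ Meets (d x) c := by
  induction k with
  | zero =>
    obtain ⟨x, hx⟩ := hS.root
    have := (hS.dom _ _ _ hx).1
    exact ⟨x, _, hx, (hd.pos x this).meets (hs x this)⟩
  | succ k ih =>
    obtain ⟨x, c, h1, h2⟩ := ih
    obtain ⟨hx, hc, -⟩ := hS.dom _ _ _ h1
    obtain ⟨x', r', a1, a2, a3, a4⟩ := hS.step k x c h1 _ (h2.pos (h.po hx) (hd.pos x hx).1 hc.1)
      (inter_sub_right _ _)
    have hx' := (hS.dom _ _ _ a4).1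
    obtain ⟨e, he⟩ := (h.inter_up_pos hd a1 hx' a2 (sub_trans a3 (inter_sub_left _ _))).2
    rw [mem_inter] at he
    exact ⟨x', _, a4, e, he.1, mem_inter.2 ⟨hs x' hx' he.1, he.2⟩⟩

theorem nice_cnst {a : O} (ha : a < b) {r : V} (hr : Pos (R a) r) : Nice R b (cnst R a r) := by
  refine ⟨h.thr_cnst ha hr, fun _ x c => x = a ∧ Pos (R a) c ∧ c ⊆ r, ?_, ?_, ?_, ?_⟩
  · rintro k x c ⟨rfl, h1, h2⟩
    exact ⟨ha, h1, by rwa [h.cnst_self ha hr.1]⟩
  · exact ⟨a, rfl, by rw [h.cnst_self ha hr.1]; exact ⟨hr, sub_rfl⟩⟩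
  · rintro k x c ⟨rfl, h1, h2⟩ r₁ h3 h4
    refine ⟨x, r₁, le_rfl, h3, sub_rfl, rfl, ?_⟩
    rw [h.cnst_self ha hr.1, h.up_self ha h3.1,
      sub_antisymm (inter_sub_right r r₁) (sub_inter (sub_trans h4 h2) sub_rfl)]
    exact ⟨h3, sub_trans h4 h2⟩
  · intro y hy r₁ h1 h2
    refine h1.1.sub_of_meets (h.po hy) ((h.thr_cnst ha hr).pos y hy).1 fun Z hZ hs => ?_
    obtain ⟨x, c, a1, ⟨rfl, -, a2⟩, a3⟩ := h2 0 Z hZ hs
    rw [h.cnst_ge a1 hy hr.1]
    exact a3.mono sub_rfl (up_mono a2)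

theorem nice_amal {g : O → V} (hg : Nice R b g) {a : O} (ha : a < b) {r : V} (hr : Pos (R a) r)
    (hs : r ⊆ g a) : Nice R b fun x => g x ∩ cnst R a r x := by
  obtain ⟨hg, S, hS⟩ := hg
  have h1 := h.thr_amal hg ha hr hs
  refine ⟨h1, fun k x c => a ≤ x ∧ x < b ∧ Pos (R x) c ∧ c ⊆ g x ∩ cnst R a r x ∧
    ∃ x₁ c₁, x₁ ≤ x ∧ S k x₁ c₁ ∧ c ⊆ up R x₁ x c₁, ?_, ?_, ?_, ?_⟩
  · exact fun k x c H => ⟨H.2.1, H.2.2.1, H.2.2.2.1⟩
  · obtain ⟨x, hx⟩ := hS.root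
    have hm := max_lt ha (hS.dom _ _ _ hx).1
    exact ⟨max a x, le_max_left _ _, hm, h1.pos _ hm, sub_rfl, x, _, le_max_right _ _, hx,
      sub_trans (inter_sub_left _ _) (hg.sub_up h (le_max_right _ _) hm)⟩
  · rintro k x c ⟨a1, a2, a3, a4, x₁, c₁, a5, a6, a7⟩ r₁ b1 b2
    have hc₁ := (hS.dom _ _ _ a6).2.1
    obtain ⟨x₂, r₃, c1, c2, c3, c4⟩ := hS.step k x₁ c₁ a6 _ (h.pr_pos a5 a2 b1)
      ((h.gc a5 a2 b1.1 hc₁.1).2 (sub_trans b2 a7))
    have hx₂ := (hS.dom _ _ _ c4).1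
    have hm := max_lt a2 hx₂
    have d1 : Pos (R x) (r₁ ∩ up R x₁ x r₃) :=
      ((h.meets_iff a5 a2 b1.1 c2.1).1 (c2.meets c3)).symm.pos (h.po a2) b1.1 (h.up_ro a5 a2 c2.1)
    refine ⟨max x x₂, _, le_max_left _ _, d1, inter_sub_left _ _, a1.trans (le_max_left _ _), hm,
      h.inter_up_pos h1 (le_max_left _ _) hm d1 (sub_trans (inter_sub_left _ _) (sub_trans b2 a4)),
      inter_sub_left _ _, x₂, _, le_max_right _ _, c4, ?_⟩
    rw [up_inter (U := g x₂)]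
    refine sub_inter (sub_trans (inter_sub_left _ _) (sub_trans (inter_sub_left _ _)
      (hg.sub_up h (le_max_right _ _) hm))) (sub_trans (inter_sub_right _ _) ?_)
    rw [h.up_up (le_max_right _ _) hm c1 c2.1, ← h.up_up (le_max_left _ _) hm a5 c2.1]
    exact up_mono (inter_sub_right _ _)
  · intro y hy r₁ b1 b2
    refine sub_inter (hS.lim y hy r₁ b1 fun k r₂ b3 b4 => ?_) ?_
    · obtain ⟨x, c, a0, ⟨-, -, -, -, x₁, c₁, a5, a6, a7⟩, a8⟩ := b2 k r₂ b3 b4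
      refine ⟨x₁, c₁, a5.trans a0, a6, a8.mono sub_rfl ?_⟩
      rw [← h.up_up a0 hy a5 (hS.dom _ _ _ a6).2.1.1]
      exact up_mono a7
    · refine b1.1.sub_of_meets (h.po hy) ((h.thr_cnst ha hr).pos y hy).1 fun Z hZ hs => ?_
      obtain ⟨x, c, a0, ⟨a1, a2, -, a4, -⟩, a8⟩ := b2 0 Z hZ hs
      refine a8.mono sub_rfl ?_
      rw [h.cnst_ge (a1.trans a0) hy hr.1, ← h.up_up a0 hy a1 hr.1, ← h.cnst_ge a1 a2 hr.1]
      exact up_mono (sub_trans a4 (inter_sub_right _ _))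

end Sys

theorem LimSpec.le_iff (hL : LimSpec R b) {e e' : V} : pair e e' ∈ R b ↔
    (Nice R b (co e) ∧ e = pair (thr b (co e)) ∅) ∧ (Nice R b (co e') ∧ e' = pair (thr b (co e')) ∅)
      ∧ ∀ x < b, co e x ⊆ co e' x := by
  rw [hL]
  constructor
  · rintro ⟨g, g', h1, h2, e, h3⟩
    obtain ⟨rfl, rfl⟩ := pair_inj.1 e
    refine ⟨⟨h1.congr fun x hx => co_thr _ _ hx, ?_⟩, ⟨h2.congr fun x hx => co_thr _ _ hx, ?_⟩,
      fun x hx => ?_⟩
    · rw [thr_congr fun x hx => co_thr _ _ hx]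
    · rw [thr_congr fun x hx => co_thr _ _ hx]
    · rw [co_thr _ _ hx, co_thr _ _ hx]; exact h3 x hx
  · rintro ⟨⟨h1, h2⟩, ⟨h3, h4⟩, h5⟩
    exact ⟨_, _, h1, h3, by rw [← h2, ← h4], h5⟩

theorem LimSpec.nice (hL : LimSpec R b) {e : V} (he : pair e e ∈ R b) : Nice R b (co e) :=
  (hL.le_iff.1 he).1.1

theorem LimSpec.cond (hL : LimSpec R b) {g : O → V} (hg : Nice R b g) :
    pair (pair (thr b g) ∅) (pair (thr b g) ∅) ∈ R b :=
  (hL _).2 ⟨g, g, hg, hg, rfl, fun _ _ => sub_rfl⟩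

theorem LimSpec.le_of (hL : LimSpec R b) {e e' : V} (he : pair e e ∈ R b) (he' : pair e' e' ∈ R b)
    (H : ∀ x < b, co e x ⊆ co e' x) : pair e e' ∈ R b :=
  hL.le_iff.2 ⟨(hL.le_iff.1 he).1, (hL.le_iff.1 he').1, H⟩

theorem LimSpec.lev (hL : LimSpec R b) (h : Sys R b) (h0 : 0 < b) : Lev R b where
  po := by
    refine ⟨fun e => ?_, fun z hz => ?_, fun p q r h1 h2 => ?_⟩
    · have := hL.cond (h.nice_cnst h0 (pos_fld (h.po h0)))
      rw [e] at this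
      exact notMem_empty _ this
    · obtain ⟨g, g', h1, h2, e, -⟩ := (hL z).1 hz
      exact ⟨_, _, e, hL.cond h1, hL.cond h2⟩
    · rw [hL.le_iff] at *
      exact ⟨h1.1, h2.2.1, fun x hx => sub_trans (h1.2.2 x hx) (h2.2.2 x hx)⟩
  pos a ha e he := (hL.nice he).1.pos a ha
  coh a a' h1 h2 e he := (hL.nice he).1.coh a a' h1.le h2
  mono a ha e e' he := (hL.le_iff.1 he).2.2 a ha
  amal a ha e r he hr hs := by
    have h1 := hL.cond (h.nice_amal (hL.nice he) ha hr hs)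
    refine ⟨_, hL.le_of h1 he fun x hx => ?_, ?_⟩
    · rw [co_thr _ _ hx]; exact inter_sub_left _ _
    · rw [co_thr _ _ ha, h.amal_self ha hr hs]
  surj a ha r hr := ⟨_, hL.cond (h.nice_cnst ha hr), by rw [co_thr _ _ ha, h.cnst_self ha hr.1]⟩

end Pool.Agent.Lib.MP_329f2d_lc.It
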