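import Pool.Agent.Lib.MP_329f2d_lc.H38G1

/-! Regular open subsets of a preorder, and systems of preorders with projections. -/

namespace Pool.Agent.Lib.MP_329f2d_lc.It

open ZFSet

set_option linter.unusedSectionVars false

/-- Ordinals. -/
abbrev O : Type 1 := Ordinal.{0}

theorem exists_cond {P : V} (h : Po P) : ∃ p, pair p p ∈ P := by
  obtain h1 | ⟨z, hz⟩ := eq_empty_or_nonempty P
  · exact absurd h1 h.1
  · obtain ⟨a, b, -, h1, -⟩ := h.2.1 _ hz
    exact ⟨a, h1⟩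

/-- The set of conditions. -/
noncomputable def fld (r : V) : V := (⋃₀ (⋃₀ r) : V).sep fun p => pair p p ∈ r

theorem mem_fld {r p : V} : p ∈ fld r ↔ pair p p ∈ r := by
  rw [fld, mem_sep]
  exact ⟨fun h => h.2, fun h => ⟨left_mem_sUnion h, h⟩⟩

/-- Regularisation. -/
noncomputable def reg (r : V) (U : V → Prop) : V :=
  (fld r).sep fun d => ∀ e, pair e d ∈ r → ∃ e', pair e' e ∈ r ∧ U e'

theorem mem_reg {r d : V} {U : V → Prop} :
    d ∈ reg r U ↔ pair d d ∈ r ∧ ∀ e, pair e d ∈ r → ∃ e', pair e' e ∈ r ∧ U e' := by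
  rw [reg, mem_sep, mem_fld]

/-- Regular open sets. -/
def RO (r U : V) : Prop :=
  ∀ d, d ∈ U ↔ pair d d ∈ r ∧ ∀ e, pair e d ∈ r → ∃ e', pair e' e ∈ r ∧ e' ∈ U

/-- Nonempty regular open sets. -/
def Pos (r U : V) : Prop := RO r U ∧ ∃ d, d ∈ U

/-- Two sets meet. -/
def Meets (U W : V) : Prop := ∃ d, d ∈ U ∧ d ∈ W

theorem Meets.symm {U W : V} (h : Meets U W) : Meets W U := let ⟨d, a, b⟩ := h; ⟨d, b, a⟩

theorem Meets.mono {U W U' W' : V} (h : Meets U W) (h1 : U ⊆ U') (h2 : W ⊆ W') : Meets U' W' :=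
  let ⟨d, a, b⟩ := h; ⟨d, h1 a, h2 b⟩

theorem inter_sub_left (U W : V) : U ∩ W ⊆ U := fun _ h => (mem_inter.1 h).1

theorem inter_sub_right (U W : V) : U ∩ W ⊆ W := fun _ h => (mem_inter.1 h).2

theorem sub_inter {Z U W : V} (h1 : Z ⊆ U) (h2 : Z ⊆ W) : Z ⊆ U ∩ W :=
  fun _ h => mem_inter.2 ⟨h1 h, h2 h⟩

theorem sub_antisymm {U W : V} (h1 : U ⊆ W) (h2 : W ⊆ U) : U = W :=
  ZFSet.ext fun _ => ⟨fun h => h1 h, fun h => h2 h⟩

theorem sub_trans {U W Z : V} (h1 : U ⊆ W) (h2 : W ⊆ Z) : U ⊆ Z := fun _ h => h2 (h1 h)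

theorem sub_rfl {U : V} : U ⊆ U := fun _ h => h

theorem Pos.meets {r U W : V} (h : Pos r U) (hs : U ⊆ W) : Meets U W :=
  let ⟨d, hd⟩ := h.2; ⟨d, hd, hs hd⟩

section
variable {r : V} (hr : Po r)
include hr

theorem RO.cond {U d : V} (h : RO r U) (hd : d ∈ U) : pair d d ∈ r := ((h d).1 hd).1

theorem RO.down {U d e : V} (h : RO r U) (hd : d ∈ U) (he : pair e d ∈ r) : e ∈ U :=
  (h e).2 ⟨hr.left he, fun e' h' => ((h d).1 hd).2 e' (hr.trans h' he)⟩

theorem ro_reg (U : V → Prop) : RO r (reg r U) := by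
  intro d
  constructor
  · intro hd
    have h := mem_reg.1 hd
    exact ⟨h.1, fun e he => ⟨e, hr.left he, mem_reg.2 ⟨hr.left he, fun e' h' =>
      h.2 e' (hr.trans h' he)⟩⟩⟩
  · rintro ⟨h1, h2⟩
    refine mem_reg.2 ⟨h1, fun e he => ?_⟩
    obtain ⟨e', a, b⟩ := h2 e he
    obtain ⟨e'', c, d⟩ := (mem_reg.1 b).2 e' (hr.left a)
    exact ⟨e'', hr.trans c a, d⟩

theorem RO.inter {U W : V} (h : RO r U) (h' : RO r W) : RO r (U ∩ W) := by
  intro d
  rw [mem_inter]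
  constructor
  · rintro ⟨a, b⟩
    exact ⟨h.cond hr a, fun e he => ⟨e, hr.left he, mem_inter.2 ⟨h.down hr a he, h'.down hr b he⟩⟩⟩
  · rintro ⟨a, b⟩
    exact ⟨(h d).2 ⟨a, fun e he => let ⟨e', c, d⟩ := b e he; ⟨e', c, (mem_inter.1 d).1⟩⟩,
      (h' d).2 ⟨a, fun e he => let ⟨e', c, d⟩ := b e he; ⟨e', c, (mem_inter.1 d).2⟩⟩⟩

theorem Meets.pos {U W : V} (hm : Meets U W) (h : RO r U) (h' : RO r W) : Pos r (U ∩ W) :=
  ⟨h.inter hr h', let ⟨d, a, b⟩ := hm; ⟨d, mem_inter.2 ⟨a, b⟩⟩⟩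

theorem RO.sub_of_dense {U W : V} (h : RO r U) (h' : RO r W)
    (H : ∀ d ∈ U, ∃ e, pair e d ∈ r ∧ e ∈ W) : U ⊆ W := fun d hd =>
  (h' d).2 ⟨h.cond hr hd, fun e he => H e (h.down hr hd he)⟩

end

/-- The regular open set generated by a condition. -/
noncomputable def cl (r e : V) : V := reg r fun e' => pair e' e ∈ r

section
variable {r : V} (hr : Po r)
include hr

theorem ro_cl (e : V) : RO r (cl r e) := ro_reg hr _

theorem mem_cl_of_le {d e : V} (h : pair d e ∈ r) : d ∈ cl r e :=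
  mem_reg.2 ⟨hr.left h, fun e' h' => ⟨e', hr.left h', hr.trans h' h⟩⟩

theorem pos_cl {e : V} (h : pair e e ∈ r) : Pos r (cl r e) := ⟨ro_cl hr e, e, mem_cl_of_le hr h⟩

theorem exists_le_of_mem_cl {d e : V} (h : d ∈ cl r e) : ∃ d', pair d' d ∈ r ∧ pair d' e ∈ r :=
  (mem_reg.1 h).2 d (mem_reg.1 h).1

theorem RO.cl_sub {U e : V} (h : RO r U) (he : e ∈ U) : cl r e ⊆ U :=
  (ro_cl hr e).sub_of_dense hr h fun _ hd =>
    let ⟨d', a, b⟩ := exists_le_of_mem_cl hr hd; ⟨d', a, h.down hr he b⟩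

theorem cl_mono {d e : V} (h : pair d e ∈ r) : cl r d ⊆ cl r e :=
  (ro_cl hr e).cl_sub hr (mem_cl_of_le hr h)

theorem RO.sub_of_meets {U W : V} (h : RO r U) (h' : RO r W)
    (H : ∀ Z, Pos r Z → Z ⊆ U → Meets Z W) : U ⊆ W :=
  h.sub_of_dense hr h' fun d hd => by
    obtain ⟨e, a, b⟩ := H _ (pos_cl hr (h.cond hr hd)) (h.cl_sub hr hd)
    obtain ⟨e', c, c'⟩ := exists_le_of_mem_cl hr a
    exact ⟨e', c', h'.down hr b c⟩

theorem RO.exists_disj {U W : V} (h : RO r U) (h' : RO r W) (H : ¬ U ⊆ W) :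
    ∃ Z, Pos r Z ∧ Z ⊆ U ∧ ¬ Meets Z W := by
  by_contra hc
  push Not at hc
  exact H (h.sub_of_meets hr h' hc)

theorem sub_reg_iff {U : V} (h : RO r U) {Φ : V → Prop}
    (hΦ : ∀ d e, Φ d → pair e d ∈ r → Φ e) :
    U ⊆ reg r Φ ↔ ∀ Z, Pos r Z → Z ⊆ U → ∃ d ∈ Z, Φ d := by
  constructor
  · rintro H Z ⟨hZ, d, hd⟩ hs
    obtain ⟨e, a, b⟩ := (mem_reg.1 (H (hs hd))).2 d (hZ.cond hr hd)
    exact ⟨e, hZ.down hr hd a, b⟩
  · intro H d hd
    refine mem_reg.2 ⟨h.cond hr hd, fun e he => ?_⟩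
    obtain ⟨e', a, b⟩ := H _ (pos_cl hr (hr.left he)) (h.cl_sub hr (h.down hr hd he))
    obtain ⟨e'', c, c'⟩ := exists_le_of_mem_cl hr a
    exact ⟨e'', c', hΦ _ _ b c⟩

theorem pos_fld : Pos r (fld r) :=
  ⟨fun _ => ⟨fun h => ⟨mem_fld.1 h, fun e he => ⟨e, hr.left he, mem_fld.2 (hr.left he)⟩⟩,
    fun h => mem_fld.2 h.1⟩, let ⟨p, hp⟩ := exists_cond hr; ⟨p, mem_fld.2 hp⟩⟩

theorem RO.sub_fld {U : V} (h : RO r U) : U ⊆ fld r := fun _ hd => mem_fld.2 (h.cond hr hd)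

end

/-- The forcing notion of nonempty regular open sets. -/
noncomputable def PP (r : V) : V :=
  pairSep (fun U W => Pos r U ∧ Pos r W ∧ U ⊆ W) (powerset (fld r)) (powerset (fld r))

theorem mem_PP' {r z : V} (hr : Po r) :
    z ∈ PP r ↔ ∃ U W, z = pair U W ∧ Pos r U ∧ Pos r W ∧ U ⊆ W := by
  rw [PP, mem_pairSep]
  constructor
  · rintro ⟨U, -, W, -, h⟩
    exact ⟨U, W, h⟩
  · rintro ⟨U, W, h1, h2, h3, h4⟩
    exact ⟨U, mem_powerset.2 (h2.1.sub_fld hr), W, mem_powerset.2 (h3.1.sub_fld hr), h1, h2, h3, h4⟩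

theorem mem_PP {r U W : V} (hr : Po r) : pair U W ∈ PP r ↔ Pos r U ∧ Pos r W ∧ U ⊆ W := by
  rw [mem_PP' hr]
  constructor
  · rintro ⟨U', W', e, h⟩
    obtain ⟨rfl, rfl⟩ := pair_inj.1 e
    exact h
  · exact fun h => ⟨U, W, rfl, h⟩

theorem cond_PP {r U : V} (hr : Po r) : pair U U ∈ PP r ↔ Pos r U := by
  rw [mem_PP hr]
  exact ⟨fun h => h.1, fun h => ⟨h, h, sub_rfl⟩⟩

theorem po_PP {r : V} (hr : Po r) : Po (PP r) := by
  refine ⟨fun h => ?_, fun z hz => ?_, fun p q s h1 h2 => ?_⟩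
  · have := (cond_PP hr).2 (pos_fld hr)
    rw [h] at this
    exact notMem_empty _ this
  · obtain ⟨U, W, e, a, b, -⟩ := (mem_PP' hr).1 hz
    exact ⟨U, W, e, (cond_PP hr).2 a, (cond_PP hr).2 b⟩
  · rw [mem_PP hr] at *
    exact ⟨h1.1, h2.2.1, sub_trans h1.2.2 h2.2.2⟩

/-- A sequence of length `b`, as a set. -/
noncomputable def thr (b : O) (g : O → V) : V := range fun x : Set.Iio b => pair x.1.toZFSet (g x.1)

theorem mem_thr {b : O} {g : O → V} {z : V} : z ∈ thr b g ↔ ∃ x < b, z = pair x.toZFSet (g x) := by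
  rw [thr, mem_range]
  exact ⟨fun ⟨x, h⟩ => ⟨x.1, x.2, h.symm⟩, fun ⟨x, h, e⟩ => ⟨⟨x, h⟩, e.symm⟩⟩

theorem thr_congr {b : O} {g g' : O → V} (h : ∀ x < b, g x = g' x) : thr b g = thr b g' :=
  ZFSet.ext fun z => by
    rw [mem_thr, mem_thr]
    exact exists_congr fun x => and_congr_right fun hx => by rw [h x hx]

/-- The `x`-th coordinate of the first component. -/
noncomputable def co (e : V) (x : O) : V := Classical.epsilon fun u => pair x.toZFSet u ∈ fst e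

theorem co_thr {b x : O} (g : O → V) (s : V) (hx : x < b) : co (pair (thr b g) s) x = g x := by
  have : pair x.toZFSet (co (pair (thr b g) s) x) ∈ fst (pair (thr b g) s) :=
    Classical.epsilon_spec (p := fun u => pair x.toZFSet u ∈ fst (pair (thr b g) s))
      ⟨g x, by rw [fst_pair]; exact mem_thr.2 ⟨x, hx, rfl⟩⟩
  rw [fst_pair] at this
  obtain ⟨y, -, e⟩ := mem_thr.1 this
  obtain ⟨e1, e2⟩ := pair_inj.1 e
  rw [e2, Ordinal.toZFSet_injective e1]

variable (R : O → V)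

/-- The projection of a condition of level `b` to level `a`. -/
noncomputable def rho (a b : O) (e : V) : V := if a < b then co e a else cl (R b) e

/-- The embedding of the algebra of level `a` into that of level `b`. -/
noncomputable def up (a b : O) (U : V) : V := (fld (R b)).sep fun e => rho R a b e ⊆ U

/-- The projection of the algebra of level `b` to that of level `a`. -/
noncomputable def pr (a b : O) (U : V) : V := reg (R a) fun d => ∃ e ∈ U, d ∈ rho R a b e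

/-- Level `b` is a good extension of the lower levels. -/
structure Lev (b : O) : Prop where
  po : Po (R b)
  pos : ∀ a < b, ∀ e, pair e e ∈ R b → Pos (R a) (co e a)
  coh : ∀ a a', a < a' → a' < b → ∀ e, pair e e ∈ R b → co e a = pr R a a' (co e a')
  mono : ∀ a < b, ∀ e e', pair e e' ∈ R b → co e a ⊆ co e' a
  amal : ∀ a < b, ∀ e r, pair e e ∈ R b → Pos (R a) r → r ⊆ co e a →
    ∃ e', pair e' e ∈ R b ∧ co e' a ⊆ r
  surj : ∀ a < b, ∀ r, Pos (R a) r → ∃ e, pair e e ∈ R b ∧ co e a ⊆ r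

/-- All levels below `β` are good. -/
def Sys (β : O) : Prop := ∀ b < β, Lev R b

variable {R}

theorem mem_up {a b : O} {U e : V} : e ∈ up R a b U ↔ pair e e ∈ R b ∧ rho R a b e ⊆ U := by
  rw [up, mem_sep, mem_fld]

theorem up_mono {a b : O} {U W : V} (h : U ⊆ W) : up R a b U ⊆ up R a b W := fun _ he =>
  mem_up.2 ⟨(mem_up.1 he).1, sub_trans (mem_up.1 he).2 h⟩

theorem up_inter {a b : O} {U W : V} : up R a b (U ∩ W) = up R a b U ∩ up R a b W :=
  sub_antisymm (sub_inter (up_mono (inter_sub_left _ _)) (up_mono (inter_sub_right _ _)))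
    fun _ he => mem_up.2 ⟨(mem_up.1 (mem_inter.1 he).1).1,
      sub_inter (mem_up.1 (mem_inter.1 he).1).2 (mem_up.1 (mem_inter.1 he).2).2⟩

theorem pr_mono {a b : O} {U W : V} (h : U ⊆ W) : pr R a b U ⊆ pr R a b W := fun _ hd =>
  mem_reg.2 ⟨(mem_reg.1 hd).1, fun e he =>
    let ⟨e', c, e'', c', c''⟩ := (mem_reg.1 hd).2 e he; ⟨e', c, e'', h c', c''⟩⟩

theorem rho_lt {a b : O} (h : a < b) (e : V) : rho R a b e = co e a := if_pos h

theorem rho_self (b : O) (e : V) : rho R b b e = cl (R b) e := if_neg (lt_irrefl b)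

namespace Sys

variable {β a b : O} (h : Sys R β) (hab : a ≤ b) (hb : b < β)
include h hb

theorem po : Po (R b) := (h b hb).po

include hab

theorem po' : Po (R a) := (h a (hab.trans_lt hb)).po

theorem rho_pos {e : V} (he : pair e e ∈ R b) : Pos (R a) (rho R a b e) := by
  rcases hab.eq_or_lt with rfl | hl
  · rw [rho_self]; exact pos_cl (h.po hb) he
  · rw [rho_lt hl]; exact (h b hb).pos a hl e he

theorem rho_mono {e e' : V} (he : pair e e' ∈ R b) : rho R a b e ⊆ rho R a b e' := by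
  rcases hab.eq_or_lt with rfl | hl
  · rw [rho_self, rho_self]; exact cl_mono (h.po hb) he
  · rw [rho_lt hl, rho_lt hl]; exact (h b hb).mono a hl e e' he

theorem rho_amal {e r : V} (he : pair e e ∈ R b) (hr : Pos (R a) r) (hs : r ⊆ rho R a b e) :
    ∃ e', pair e' e ∈ R b ∧ rho R a b e' ⊆ r := by
  rcases hab.eq_or_lt with rfl | hl
  · rw [rho_self] at hs
    obtain ⟨d, hd⟩ := hr.2
    obtain ⟨d', c, c'⟩ := exists_le_of_mem_cl (h.po hb) (hs hd)
    refine ⟨d', c', ?_⟩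
    rw [rho_self]
    exact hr.1.cl_sub (h.po hb) (hr.1.down (h.po hb) hd c)
  · rw [rho_lt hl] at hs
    simpa only [rho_lt hl] using (h b hb).amal a hl e r he hr hs

theorem rho_amal' {e W : V} (he : pair e e ∈ R b) (hW : RO (R a) W) (hs : Meets (rho R a b e) W) :
    ∃ e', pair e' e ∈ R b ∧ e' ∈ up R a b W := by
  obtain ⟨e', c, c'⟩ := h.rho_amal hab hb he
    (hs.pos (h.po' hab hb) (h.rho_pos hab hb he).1 hW) (inter_sub_left _ _)
  exact ⟨e', c, mem_up.2 ⟨(h.po hb).left c, sub_trans c' (inter_sub_right _ _)⟩⟩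

theorem up_ne {r : V} (hr : Pos (R a) r) : ∃ e, e ∈ up R a b r := by
  rcases hab.eq_or_lt with rfl | hl
  · obtain ⟨d, hd⟩ := hr.2
    refine ⟨d, mem_up.2 ⟨hr.1.cond (h.po hb) hd, ?_⟩⟩
    rw [rho_self]
    exact hr.1.cl_sub (h.po hb) hd
  · obtain ⟨e, c, c'⟩ := (h b hb).surj a hl r hr
    exact ⟨e, mem_up.2 ⟨c, by rwa [rho_lt hl]⟩⟩

theorem up_ro {U : V} (hU : RO (R a) U) : RO (R b) (up R a b U) := by
  intro e
  constructor
  · intro he
    rw [mem_up] at he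
    exact ⟨he.1, fun e' h' => ⟨e', (h.po hb).left h',
      mem_up.2 ⟨(h.po hb).left h', sub_trans (h.rho_mono hab hb h') he.2⟩⟩⟩
  · rintro ⟨h1, h2⟩
    refine mem_up.2 ⟨h1, (h.rho_pos hab hb h1).1.sub_of_meets (h.po' hab hb) hU fun Z hZ hs => ?_⟩
    obtain ⟨e', c, c'⟩ := h.rho_amal hab hb h1 hZ hs
    obtain ⟨e'', d, d'⟩ := h2 e' c
    exact ((h.rho_pos hab hb ((h.po hb).left d)).meets (mem_up.1 d').2).mono
      (sub_trans (h.rho_mono hab hb d) c') sub_rfl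

theorem up_pos {U : V} (hU : Pos (R a) U) : Pos (R b) (up R a b U) :=
  ⟨h.up_ro hab hb hU.1, h.up_ne hab hb hU⟩

theorem pr_ro (U : V) : RO (R a) (pr R a b U) := ro_reg (h.po' hab hb) _

theorem rho_sub_pr {U e : V} (hU : RO (R b) U) (he : e ∈ U) : rho R a b e ⊆ pr R a b U :=
  fun _ hd => have hp := h.rho_pos hab hb (hU.cond (h.po hb) he)
    mem_reg.2 ⟨hp.1.cond (h.po' hab hb) hd, fun d' h' =>
      ⟨d', (h.po' hab hb).left h', e, he, hp.1.down (h.po' hab hb) hd h'⟩⟩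

theorem pr_pos {U : V} (hU : Pos (R b) U) : Pos (R a) (pr R a b U) := by
  obtain ⟨e, he⟩ := hU.2
  obtain ⟨d, hd⟩ := (h.rho_pos hab hb (hU.1.cond (h.po hb) he)).2
  exact ⟨h.pr_ro hab hb U, d, h.rho_sub_pr hab hb hU.1 he hd⟩

theorem gc {c U : V} (hc : RO (R b) c) (hU : RO (R a) U) : pr R a b c ⊆ U ↔ c ⊆ up R a b U := by
  constructor
  · exact fun H e he => mem_up.2 ⟨hc.cond (h.po hb) he, sub_trans (h.rho_sub_pr hab hb hc he) H⟩
  · intro H
    refine (h.pr_ro hab hb c).sub_of_dense (h.po' hab hb) hU fun d hd => ?_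
    obtain ⟨d', c1, e, c2, c3⟩ := (mem_reg.1 hd).2 d (mem_reg.1 hd).1
    exact ⟨d', c1, (mem_up.1 (H c2)).2 c3⟩

theorem sub_up_pr {c : V} (hc : RO (R b) c) : c ⊆ up R a b (pr R a b c) :=
  (h.gc hab hb hc (h.pr_ro hab hb c)).1 sub_rfl

theorem meets_iff {c r : V} (hc : RO (R b) c) (hr : RO (R a) r) :
    Meets r (pr R a b c) ↔ Meets (up R a b r) c := by
  constructor
  · rintro ⟨d, h1, h2⟩
    obtain ⟨d', c1, e, c2, c3⟩ := (mem_reg.1 h2).2 d (mem_reg.1 h2).1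
    obtain ⟨e', c4, c5⟩ := h.rho_amal' hab hb (hc.cond (h.po hb) c2) hr
      ⟨d', c3, hr.down (h.po' hab hb) h1 c1⟩
    exact ⟨e', c5, hc.down (h.po hb) c2 c4⟩
  · rintro ⟨e, h1, h2⟩
    exact ((h.rho_pos hab hb (mem_up.1 h1).1).meets (h.rho_sub_pr hab hb hc h2)).mono
      (mem_up.1 h1).2 sub_rfl

theorem meets_of_up {U W : V} (H : Meets (up R a b U) (up R a b W)) : Meets U W := by
  obtain ⟨e, h1, h2⟩ := H
  exact ((h.rho_pos hab hb (mem_up.1 h1).1).meets (mem_up.1 h2).2).mono (mem_up.1 h1).2 sub_rfl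

theorem pr_inter_up {c r : V} (hc : RO (R b) c) (hr : RO (R a) r) :
    pr R a b (c ∩ up R a b r) = pr R a b c ∩ r := by
  have h1 := hc.inter (h.po hb) (h.up_ro hab hb hr)
  refine sub_antisymm (sub_inter (pr_mono (inter_sub_left _ _))
    ((h.gc hab hb h1 hr).2 (inter_sub_right _ _))) ?_
  refine ((h.pr_ro hab hb c).inter (h.po' hab hb) hr).sub_of_meets (h.po' hab hb)
    (h.pr_ro hab hb _) fun Z hZ hs => ?_
  obtain ⟨e, c1, c2⟩ := (h.meets_iff hab hb hc hZ.1).1 (hZ.meets (sub_trans hs (inter_sub_left _ _)))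
  exact (h.meets_iff hab hb h1 hZ.1).2
    ⟨e, c1, mem_inter.2 ⟨c2, up_mono (sub_trans hs (inter_sub_right _ _)) c1⟩⟩

theorem pr_up {r : V} (hr : RO (R a) r) : pr R a b (up R a b r) = r := by
  have h1 := h.up_ro hab hb hr
  refine sub_antisymm ((h.gc hab hb h1 hr).2 sub_rfl)
    (hr.sub_of_meets (h.po' hab hb) (h.pr_ro hab hb _) fun Z hZ hs => ?_)
  exact (h.meets_iff hab hb h1 hZ.1).2 ((h.up_pos hab hb hZ).meets (up_mono hs))

theorem sub_of_up_sub {U W : V} (hU : RO (R a) U) (hW : RO (R a) W)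
    (H : up R a b U ⊆ up R a b W) : U ⊆ W := by
  rw [← h.pr_up hab hb hU, ← h.pr_up hab hb hW]
  exact pr_mono H

theorem pr_cl {e : V} (he : pair e e ∈ R b) : pr R a b (cl (R b) e) = rho R a b e :=
  sub_antisymm ((h.gc hab hb (ro_cl (h.po hb) e) (h.rho_pos hab hb he).1).2
    ((h.up_ro hab hb (h.rho_pos hab hb he).1).cl_sub (h.po hb) (mem_up.2 ⟨he, sub_rfl⟩)))
    (h.rho_sub_pr hab hb (ro_cl (h.po hb) e) (mem_cl_of_le (h.po hb) he))

omit hab in
theorem up_self {U : V} (hU : RO (R b) U) : up R b b U = U :=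
  ZFSet.ext fun e => by
    rw [mem_up, rho_self]
    exact ⟨fun H => H.2 (mem_cl_of_le (h.po hb) H.1),
      fun H => ⟨hU.cond (h.po hb) H, hU.cl_sub (h.po hb) H⟩⟩

omit hab in
theorem pr_self {U : V} (hU : RO (R b) U) : pr R b b U = U := by
  conv_lhs => rw [← h.up_self hb hU]
  exact h.pr_up le_rfl hb hU

theorem rho_coh {x : O} (hx : x ≤ a) {e : V} (he : pair e e ∈ R b) :
    rho R x b e = pr R x a (rho R a b e) := by
  rcases hx.eq_or_lt with rfl | hx'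
  · rw [h.pr_self (hab.trans_lt hb) (h.rho_pos hab hb he).1]
  rcases hab.eq_or_lt with rfl | hl
  · rw [rho_self, h.pr_cl hx hb he]
  · rw [rho_lt hl, rho_lt (hx'.trans hl)]
    exact (h b hb).coh x a hx' hl e he

theorem up_up {x : O} (hx : x ≤ a) {U : V} (hU : RO (R x) U) :
    up R a b (up R x a U) = up R x b U :=
  ZFSet.ext fun e => by
    rw [mem_up, mem_up]
    refine and_congr_right fun he => ?_
    rw [h.rho_coh hab hb hx he, h.gc hx (hab.trans_lt hb) (h.rho_pos hab hb he).1 hU]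

theorem pr_pr {x : O} (hx : x ≤ a) {c : V} (hc : RO (R b) c) :
    pr R x a (pr R a b c) = pr R x b c := by
  have ha := hab.trans_lt hb
  have key : ∀ U, RO (R x) U → (pr R x a (pr R a b c) ⊆ U ↔ pr R x b c ⊆ U) := fun U hU => by
    rw [h.gc hx ha (h.pr_ro hab hb c) hU, h.gc hab hb hc (h.up_ro hx ha hU), h.up_up hab hb hx hU,
      h.gc (hx.trans hab) hb hc hU]
  exact sub_antisymm ((key _ (h.pr_ro (hx.trans hab) hb c)).2 sub_rfl)
    ((key _ (h.pr_ro hx ha _)).1 sub_rfl)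

end Sys

end Pool.Agent.Lib.MP_329f2d_lc.It
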