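import Pool.Agent.Lib.MP_329f2d_lc.H59Gen

/-! The limit step of the main induction. -/

namespace Pool.Agent.Lib.MP_329f2d_lc.It

open ZFSet Order

set_option linter.unusedSectionVars false

variable {κ : O} {R : O → V}

/-- A ladder coded by a set. -/
def LS (S : V) (k : ℕ) (x : O) (c : V) : Prop := pair (nat k) (pair x.toZFSet c) ∈ S

theorem Lad.coded {b : O} {g : O → V} {S : ℕ → O → V → Prop} (h : Lad R b g S) :
    ∃ S', Lad R b g (LS S') := by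
  refine ⟨(prod omega (prod b.toZFSet (ZFSet.iUnion fun x : Set.Iio b => powerset (fld (R x.1))))).sep
    fun z => ∃ k x c, z = pair (nat k) (pair x.toZFSet c) ∧ S k x c, ?_⟩
  convert h using 1
  funext k x c
  rw [LS, mem_sep, eq_iff_iff]
  constructor
  · rintro ⟨-, k', x', c', e, H⟩
    simp only [pair_inj, nat_inj] at e
    obtain ⟨rfl, e, rfl⟩ := e
    rwa [Ordinal.toZFSet_injective e]
  · intro H
    obtain ⟨h1, h2, -⟩ := h.dom _ _ _ H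
    exact ⟨pair_mem_prod.2 ⟨nat_mem_omega k, pair_mem_prod.2 ⟨Ordinal.toZFSet_mem_toZFSet_iff.2 h1,
      mem_iUnion.2 ⟨⟨x, h1⟩, h2.mem_pow⟩⟩⟩, k, x, c, rfl, H⟩

/-- The relations used in the limit step. -/
def FM (R : O → V) (i k : ℕ) : R6 := fun a b c _ _ y => match i with
  | 0 => True
  | 1 => Lad R (rank a) (co b) (LS y)
  | 2 => y = co b (rank a)
  | 3 => ∃ x c, LS b k x c ∧ y ∈ up R x (rank a) c
  | 4 => LS b k (rank (fst y)) (snd y) ∧ c ∈ up R (rank (fst y)) (rank a) (snd y)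
  | _ => LS a k (rank b) c

/-- The data of one node of the fusion. -/
structure Dt where
  (a0 a c : V)
  Rel : V → V → V → Prop
  l : List (V × V)

namespace GC

variable {C : GC κ R} {τ a0 a c b0 b : V} {Rel : V → V → V → Prop} {l : List (V × V)}

theorem Good.step_lim (hM : ∀ i k, C.Tame (FM R i k)) (h : C.Good τ a0 a c Rel l) (hb : C.Y b0)
    (hl : (b0, b) ∈ l) (hlt : rank a0 < rank b0) (hk : rank b0 ≤ κ) (hn : IsSuccLimit (rank b0))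
    (ih : ∀ e0, C.Y e0 → rank e0 < rank b0 → ∀ a0 a c Rel l e, C.Good τ a0 a c Rel l →
      rank a0 ≤ rank e0 → (e0, e) ∈ l →
      ∃ c' Rel', C.Good τ e0 e c' Rel' l ∧ c' ⊆ up R (rank a) (rank e) c) :
    ∃ c' Rel', C.Good τ b0 b c' Rel' l ∧ c' ⊆ up R (rank a) (rank b) c := by
  obtain ⟨xs, hxs⟩ := (C.cnt.mono (s₁ := {x | C.X0 x}) fun x hx => hx.1).exists_eq_range
    ⟨_, h.ya.x0⟩
  have hx1 : ∀ k, C.X0 (xs k) := fun k => (hxs ▸ Set.mem_range_self k : xs k ∈ {x | C.X0 x})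
  have hx2 : ∀ {x}, C.X0 x → ∃ k, xs k = x := fun {x} hx => (hxs ▸ hx : x ∈ Set.range xs)
  have hL := C.it.limSpec (h.tf_lim ⟨hb, h.dec hl⟩ hn)
  have hL0 := C.it.limSpec hn
  have S := C.sys (rank b)
  have S0 := C.sys (rank b0)
  have hb' := lt_succ (rank b)
  have hb0' := lt_succ (rank b0)
  have hp := C.po (rank b)
  let Gd : ℕ → Dt → Prop := fun k d => C.Good τ d.a0 d.a d.c d.Rel d.l ∧ rank d.a0 < rank b0 ∧
    (b0, b) ∈ d.l ∧ ∀ j < k, (∃ y, (xs j, y) ∈ d.l) ∧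
      (C.Y (xs j) → rank (xs j) < rank b0 → rank (xs j) ≤ rank d.a0)
  have hG : ∀ k d, Gd k d → rank d.a < rank b := fun k d H =>
    H.1.tf_lt H.1.s0 ⟨hb, H.1.dec H.2.2.1⟩ H.2.1
  obtain ⟨T, g, g1, g2, g3, g4, g5, g6⟩ := fusion (C.it.sys (rank b)) (fun y _ => C.it.limSpec)
    (fun d : Dt => rank d.a) Dt.c Gd (fun d d' => d.l ⊆ d'.l) (fun _ => List.Subset.refl _)
    (fun _ _ _ => List.Subset.trans) (fun k d H => ⟨hG k d H, H.1.pos⟩) (fun k d H r h1 h2 => by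
      obtain ⟨r₁, y, a1, a2⟩ := (H.1.res h1 h2).decide (hx1 k)
      have key : ∀ e0 : V, rank d.a0 ≤ rank e0 → (C.Y (xs k) → rank (xs k) < rank b0 →
          rank (xs k) ≤ rank e0) → ∀ j < k + 1, (∃ y', (xs j, y') ∈ (xs k, y) :: d.l) ∧
          (C.Y (xs j) → rank (xs j) < rank b0 → rank (xs j) ≤ rank e0) := fun e0 b1 b2 j hj => by
        rcases (Nat.lt_succ_iff.1 hj).eq_or_lt with rfl | hj
        · exact ⟨⟨y, List.mem_cons_self⟩, b2⟩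
        · obtain ⟨⟨y', b3⟩, b4⟩ := H.2.2.2 j hj
          exact ⟨⟨y', List.mem_cons_of_mem _ b3⟩, fun c1 c2 => (b4 c1 c2).trans b1⟩
      by_cases hc : C.Y (xs k) ∧ rank (xs k) < rank b0 ∧ rank d.a0 ≤ rank (xs k)
      · obtain ⟨c', Rel', b1, b2⟩ := ih _ hc.1 hc.2.1 _ _ _ _ _ y a2 hc.2.2 List.mem_cons_self
        exact ⟨⟨xs k, y, c', Rel', _⟩, ⟨b1, hc.2.1, List.mem_cons_of_mem _ H.2.2.1,
          key _ hc.2.2 fun _ _ => le_rfl⟩, List.subset_cons_self _ _,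
          a2.tf_le a2.s0 ⟨hc.1, a2.dec List.mem_cons_self⟩ hc.2.2, sub_trans b2 (up_mono a1)⟩
      · refine ⟨⟨d.a0, d.a, r₁, d.Rel, _⟩, ⟨a2, H.2.1, List.mem_cons_of_mem _ H.2.2.1,
          key _ le_rfl fun c1 c2 => le_of_not_ge fun c3 => hc ⟨c1, c2, c3⟩⟩,
          List.subset_cons_self _ _, le_rfl, ?_⟩
        rw [(C.sys _).up_self (lt_succ _) h1.1]
        exact a1)
    (d₀ := ⟨a0, a, c, Rel, l⟩) ⟨h, hlt, hl, fun _ hj => absurd hj (Nat.not_lt_zero _)⟩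
  have he := hL.cond g1
  generalize hE : pair (thr (rank b) g) ∅ = e at he
  have hco : ∀ x < rank b, co e x = g x := fun x hx => hE ▸ co_thr _ _ hx
  have hlt' : ∀ {k d}, d ∈ T k → rank d.a < rank b := fun H => hG _ _ (g4 _ _ H)
  have K1 : ∀ r, Pos (R (rank b)) r → r ⊆ cl (R (rank b)) e → ∀ k, ∃ d ∈ T k, ∃ r',
      Pos (R (rank b)) r' ∧ r' ⊆ r ∧ r' ⊆ up R (rank d.a) (rank b) d.c := by
    intro r ⟨h1, e₁, h2⟩ h3 k
    obtain ⟨e₂, a1, a2⟩ := exists_le_of_mem_cl hp (h3 h2)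
    obtain ⟨d, a3, a4⟩ := g5 k _ (hL.nice (hp.left a1)).1 fun x hx =>
      hco x hx ▸ (hL.le_iff.1 a2).2.2 x hx
    have a5 := (g4 _ _ a3).1.pos.1
    obtain ⟨e₃, a6, a7⟩ := S.rho_amal' (hlt' a3).le hb' (hp.left a1) a5 (by rwa [rho_lt (hlt' a3)])
    exact ⟨d, a3, _, pos_cl hp (hp.left a6), h1.cl_sub hp (h1.down hp h2 (hp.trans a6 a1)),
      (S.up_ro (hlt' a3).le hb' a5).cl_sub hp a7⟩
  have K2 : ∀ {r k k' d d'}, Pos (R (rank b)) r → k ≤ k' → d ∈ T k → d' ∈ T k' →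
      r ⊆ up R (rank d.a) (rank b) d.c → r ⊆ up R (rank d'.a) (rank b) d'.c → d.l ⊆ d'.l := by
    intro r k k' d d' ⟨h1, e₁, h2⟩ h3 h4 h5 h6 h7
    refine g6 k k' h3 d h4 d' h5 _ (hL.nice (h1.cond hp h2)).1 ?_ ?_
    · exact rho_lt (R := R) (hlt' h4) e₁ ▸ (mem_up.1 (h6 h2)).2
    · exact rho_lt (R := R) (hlt' h5) e₁ ▸ (mem_up.1 (h7 h2)).2
  have h0 : cl (R (rank b)) e ⊆ up R (rank a) (rank b) c :=
    (S.up_ro (hlt' g2).le hb' h.pos.1).cl_sub hp (mem_up.2 ⟨he, by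
      rw [rho_lt (hlt' g2), hco _ (hlt' g2)]; exact g3⟩)
  refine ⟨_, fun r x y => ∃ k, ∃ d ∈ T k, r ⊆ up R (rank d.a) (rank b) d.c ∧ (x, y) ∈ d.l,
    ⟨⟨pos_cl hp he, fun ⟨k, d, a1, a2, a3⟩ _ a4 => ⟨k, d, a1, sub_trans a4 a2, a3⟩,
    fun ⟨k, d, a1, _, a3⟩ => (g4 _ _ a1).1.dom ((g4 _ _ a1).1.dec a3), fun {r x} a1 a2 a3 => ?_,
    fun {r} a1 a2 => pe_fin fun L hL => ?_⟩, hb, hk, h.hZ, h.hA, hl,
    fun H => ⟨0, _, g2, h0, H⟩, ?_, h.tree_up (hlt' g2).le h0⟩, h0⟩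
  · obtain ⟨k, rfl⟩ := hx2 a3
    obtain ⟨d, b1, r', b2, b3, b4⟩ := K1 r a1 a2 (k + 1)
    obtain ⟨y, b5⟩ := ((g4 _ _ b1).2.2.2 k (Nat.lt_succ_self k)).1
    exact ⟨r', y, b2, b3, _, d, b1, b4, b5⟩
  · have : ∃ k, ∀ z ∈ L, ∃ j ≤ k, ∃ d ∈ T j, r ⊆ up R (rank d.a) (rank b) d.c ∧ z ∈ d.l := by
      induction L with
      | nil => exact ⟨0, by simp⟩
      | cons z L ih =>
        obtain ⟨k, b1⟩ := ih fun z hz => hL z (List.mem_cons_of_mem _ hz)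
        obtain ⟨k', b2⟩ := hL z List.mem_cons_self
        refine ⟨max k k', fun z' hz => ?_⟩
        rcases List.mem_cons.1 hz with rfl | hz
        · exact ⟨k', le_max_right _ _, b2⟩
        · obtain ⟨j, b3, b4⟩ := b1 z' hz
          exact ⟨j, b3.trans (le_max_left _ _), b4⟩
    obtain ⟨k, b0⟩ := this
    obtain ⟨d, b1, r', b2, b3, b4⟩ := K1 r a1 a2 k
    have b5 := (g4 _ _ b1).1
    refine ⟨_, b5.pe b5.pos sub_rfl, fun z hz => ?_⟩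
    obtain ⟨j, c1, d', c2, c3, c4⟩ := b0 z hz
    exact b5.dec (K2 b2 c1 c2 b1 (sub_trans b3 c3) b4 c4)
  rintro r q y hr hs hq ⟨k₀, d₀, a1, a2, a3⟩
  have a4 := g4 _ _ a1
  have hy := (a4.1.tf_pos ⟨hb, a4.1.dec a4.2.2.1⟩ ⟨hq.1, a4.1.dec a3⟩ (hq.pos hk)).1
  obtain ⟨e0, b1, b2, -, b3⟩ := hq.dense hb hk (hM 0 0) hb hb hb hb hb fun x hx =>
    ⟨x, hq.2.1.cond (C.po _) hx, trivial⟩
  have b4 := hq.2.1.cond (C.po _) b1
  obtain ⟨L0, b5, b6⟩ : ∃ L0, C.Y L0 ∧ Lad R (rank b0) (co e0) (LS L0) :=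
    C.sk (hM 1 0) hb b2 hb hb hb (let ⟨_, H⟩ := (hL0.nice b4).2; H.coded)
  obtain ⟨i, rfl⟩ := hx2 b2.x0
  obtain ⟨j, rfl⟩ := hx2 b5.x0
  refine hr.1.sub_of_meets hp hy fun Z hZ hz => ?_
  obtain ⟨d₁, c1, r₁, c2, c3, c4⟩ := K1 Z hZ (sub_trans hz hs) (k₀ + i + j + 1)
  obtain ⟨c5, -, c6, c7⟩ := g4 _ _ c1
  obtain ⟨e', c8⟩ := (c7 i (by omega)).1
  obtain ⟨L', c9⟩ := (c7 j (by omega)).1
  have d1 : e' ∈ y := ((c5.pe c5.pos sub_rfl).mem_iff (c5.dec c8)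
    (c5.dec (K2 c2 (by omega) a1 c1 (sub_trans c3 (sub_trans hz a2)) c4 a3))).1 b1
  have d2 := hy.cond hp d1
  have d3 : Lad R (rank b) (co e') (LS L') := c5.tf (hM 1 0) ⟨hb, c5.dec c6⟩ ⟨b2, c5.dec c8⟩
    c5.s0 c5.s0 c5.s0 ⟨b5, c5.dec c9⟩ b6
  obtain ⟨e₁, d4⟩ := c2.2
  have d5 := c2.1.cond hp d4
  refine ⟨e₁, c3 d4, hy.down hp d1 (hL.le_of d5 d2 fun w hw => ?_)⟩
  have t1 := (hL.nice d5).1
  have t2 := (hL.nice d2).1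
  have K3 : ∀ r₂, Pos (R w) r₂ → r₂ ⊆ co e₁ w → ∀ k, k₀ + i + j + 1 ≤ k → ∃ d ∈ T k, d₁.l ⊆ d.l ∧
      Meets (up R w (rank b) r₂) (up R (rank d.a) (rank b) d.c) := by
    intro r₂ f1 f2 k f3
    have f4 := ((S.meets_iff hw.le hb' c2.1 f1.1).1 (f1.meets (sub_trans f2
      (rho_lt (R := R) hw e₁ ▸ S.rho_sub_pr hw.le hb' c2.1 d4)))).pos hp (S.up_ro hw.le hb' f1.1) c2.1
    obtain ⟨d, f5, r', f6, f7, f8⟩ := K1 _ f4 (sub_trans (inter_sub_right _ _)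
      (sub_trans c3 (sub_trans hz hs))) k
    exact ⟨d, f5, K2 f6 f3 c1 f5 (sub_trans f7 (sub_trans (inter_sub_right _ _) c4)) f8,
      (f6.meets f8).mono (sub_trans f7 (inter_sub_left _ _)) sub_rfl⟩
  refine (t1.pos w hw).1.sub_of_meets (C.po _) (t2.pos w hw).1 fun r₂ f1 f2 => ?_
  by_cases hA : ∃ k, ∃ d ∈ T k, d₁.l ⊆ d.l ∧ w ≤ rank d.a ∧
      Meets (up R w (rank b) r₂) (up R (rank d.a) (rank b) d.c)
  · obtain ⟨k, d, f3, f4, f5, f6⟩ := hA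
    obtain ⟨f7, f8, -⟩ := g4 _ _ f3
    obtain ⟨_, f9, rfl⟩ := C.sk (hM 2 0) f7.ya b2 hb hb hb ⟨_, rfl⟩
    have f10 := ((hL0.nice b4).1.pos _ f8).1
    have f11 : d.c ⊆ co e' (rank d.a) := f7.sub_of (b3.of_up f7.ya f8.le hk f9 f10
      ((S0.up_ro f8.le hb0' f10).cl_sub (C.po _) (mem_up.2 ⟨b4, by rw [rho_lt f8]⟩)))
      (t2.pos _ (hlt' f3)).1 fun r y' _ H => by
        rw [show y' = co e' (rank d.a) from H.tf (hM 2 0) H.s0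
          ⟨b2, H.dec (List.mem_cons_of_mem _ (f4 c8))⟩ H.s0 H.s0 H.s0
          ⟨f9, H.dec List.mem_cons_self⟩ rfl]
    refine S.meets_of_up hw.le hb' (f6.mono sub_rfl ?_)
    rw [← S.up_up (hlt' f3).le hb' f5 (t2.pos w hw).1]
    exact up_mono (sub_trans f11 (t2.sub_up (C.it.sys _) f5 (hlt' f3)))
  refine f1.meets (d3.lim w hw r₂ f1 fun n r₃ f3 f4 => ?_)
  obtain ⟨y₀, -, f5, f6, f7⟩ := b3.dense hb hk (hM 3 n) hb b5 hb hb hb fun x hx => by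
    obtain ⟨y₁, u1, u2⟩ := exists_le_of_mem_cl (C.po _) hx
    have u3 := (C.po _).left u1
    obtain ⟨x', c', u4, u5⟩ := (C.it.sys _).lad_meets b6 (hL0.nice u3).1 (hL0.le_iff.1 u2).2.2 n
    obtain ⟨u6, u7, -⟩ := b6.dom _ _ _ u4
    obtain ⟨y₂, u8, u9⟩ := S0.rho_amal' u6.le hb0' u3 u7.1 (by rwa [rho_lt u6])
    exact ⟨y₂, (C.po _).trans u8 u1, x', c', u4, u9⟩
  obtain ⟨z, u1, u2, u3⟩ := C.sk (hM 4 n) hb b5 f5 hb hb (let ⟨x', c', u4, u9⟩ := f6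
    ⟨pair x'.toZFSet c', by
      show _ ∧ _
      rw [fst_pair, snd_pair, Ordinal.rank_toZFSet]; exact ⟨u4, u9⟩⟩)
  have u4 := C.fst u1
  have u5 := C.snd u1
  obtain ⟨u6, u7, -⟩ := b6.dom _ _ _ u2
  have u8 := f7.of_up u4 u6.le hk u5 u7.1 ((S0.up_ro u6.le hb0' u7.1).cl_sub (C.po _) u3)
  obtain ⟨i', v1⟩ := hx2 (Ctx.Y.x0 u4)
  obtain ⟨j', v2⟩ := hx2 (Ctx.Y.x0 u5)
  obtain ⟨d, v3, v4, v5⟩ := K3 r₃ f3 (sub_trans f4 f2) (k₀ + i + j + 1 + i' + j') (by omega)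
  obtain ⟨v6, -, -, v7⟩ := g4 _ _ v3
  obtain ⟨⟨x', v8⟩, v9⟩ := v7 i' (by omega)
  obtain ⟨c', v10⟩ := (v7 j' (by omega)).1
  rw [v1] at v8 v9
  rw [v2] at v10
  have w1 : rank d.a ≤ w := le_of_not_ge fun H =>
    hA ⟨_, d, v3, v4, H, v5.mono (up_mono f4) sub_rfl⟩
  have w2 := v6.tf_le ⟨u4, v6.dec v8⟩ v6.s0 (v9 u4 u6)
  have w3 : LS L' n (rank x') c' := v6.tf (hM 5 n) ⟨b5, v6.dec (v4 c9)⟩ ⟨u4, v6.dec v8⟩
    ⟨u5, v6.dec v10⟩ v6.s0 v6.s0 v6.s0 u2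
  have w4 := (d3.dom _ _ _ w3).2.1.1
  have w5 := u8.up u4 v6.ya (v9 u4 u6) v6.le
  have w6 : d.c ⊆ up R (rank x') (rank d.a) c' := v6.sub_of w5
    ((C.sys _).up_ro w2 (lt_succ _) w4) fun r y' _ H => by
      rw [show y' = up R (rank x') (rank d.a) c' from H.tf (C.t0 0 0)
        ⟨u4, H.dec (List.mem_cons_of_mem _ v8)⟩ H.s0 ⟨u5, H.dec (List.mem_cons_of_mem _ v10)⟩ H.s0 H.s0
        ⟨w5.1, H.dec List.mem_cons_self⟩ rfl]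
  refine ⟨_, _, w2.trans w1, w3, S.meets_of_up hw.le hb' (v5.mono sub_rfl ?_)⟩
  rw [S.up_up hw.le hb' (w2.trans w1) w4, ← S.up_up (hlt' v3).le hb' w2 w4]
  exact up_mono w6

theorem Good.same (h : C.Good τ a0 a c Rel l) (hb : C.Y b0) (hl : (b0, b) ∈ l)
    (e : rank a0 = rank b0) : rank a = rank b ∧ C.Good τ b0 b c Rel l := by
  have e' : rank a = rank b := le_antisymm (h.tf_le h.s0 ⟨hb, h.dec hl⟩ e.le)
    (h.tf_le ⟨hb, h.dec hl⟩ h.s0 e.ge)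
  exact ⟨e', e' ▸ h.toNN, hb, e ▸ h.le, h.hZ, h.hA, hl, h.dec, e' ▸ e ▸ h.gen, e' ▸ h.tree⟩

/-- The main induction. -/
theorem main (hM : ∀ i k, C.Tame (FM R i k))
    (hS : ∀ {a0 a c b0 b Rel l}, C.Good τ a0 a c Rel l → C.Y b0 → (b0, b) ∈ l →
      succ (rank a0) = rank b0 → rank b0 ≤ κ →
      ∃ c' Rel', C.Good τ b0 b c' Rel' l ∧ c' ⊆ up R (rank a) (rank b) c) (β : O) :
    ∀ b0, C.Y b0 → rank b0 = β → β ≤ κ → ∀ a0 a c Rel l b, C.Good τ a0 a c Rel l → rank a0 ≤ β →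
      (b0, b) ∈ l → ∃ c' Rel', C.Good τ b0 b c' Rel' l ∧ c' ⊆ up R (rank a) (rank b) c := by
  induction β using WellFoundedLT.induction with
  | ind β ih =>
  rintro b0 hb rfl hk a0 a c Rel l b h hle hl
  rcases hle.eq_or_lt with e | hlt
  · obtain ⟨e', h'⟩ := h.same hb hl e
    exact ⟨c, Rel, h', by rw [← e', (C.sys _).up_self (lt_succ _) h.pos.1]⟩
  rcases Ordinal.zero_or_succ_or_isSuccLimit (rank b0) with e | ⟨γ, e⟩ | hn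
  · exact absurd (e ▸ hlt) not_lt_bot
  · obtain ⟨e0, h1, h2⟩ : ∃ e0, C.Y e0 ∧ succ (rank e0) = rank b0 :=
      C.sk (C.t0 11 0) hb hb hb hb hb ⟨γ.toZFSet, by
        show succ _ = _
        rw [Ordinal.rank_toZFSet, e]⟩
    obtain ⟨r, e1, a1, a2⟩ := h.decide h1.x0
    have h3 : rank e0 < rank b0 := h2 ▸ lt_succ _
    have h4 : rank a0 ≤ rank e0 := lt_succ_iff.1 (h2 ▸ hlt)
    obtain ⟨c₁, Rel₁, a3, a4⟩ := ih _ h3 e0 h1 rfl (h3.le.trans hk) _ _ _ _ _ e1 a2 h4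
      List.mem_cons_self
    obtain ⟨c₂, Rel₂, a5, a6⟩ := hS a3 hb (List.mem_cons_of_mem _ hl) h2 hk
    refine ⟨c₂, Rel₂, a5.cut (List.subset_cons_self _ _) h.hZ h.hA hl, sub_trans a6 ?_⟩
    rw [← (C.sys _).up_up (a3.tf_le a3.s0 ⟨hb, a3.dec (List.mem_cons_of_mem _ hl)⟩ h3.le) (lt_succ _)
      (a2.tf_le a2.s0 ⟨h1, a2.dec List.mem_cons_self⟩ h4) h.pos.1]
    exact up_mono (sub_trans a4 (up_mono a1))
  · exact h.step_lim hM hb hl hlt hk hn fun e0 h1 h2 => ih _ h2 e0 h1 rfl (h2.le.trans hk)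

theorem good_base {δ t : V} (hT : C.TD δ t) (h1 : ∀ z ∈ l, C.X0 z.1 ∧ z.2 = z.1)
    (hZ : (C.Z, C.Z) ∈ l) (hA : (C.A, C.A) ∈ l) (h0 : (∅, ∅) ∈ l) :
    C.Good (pair δ t) ∅ ∅ (cl Tr0 (pair δ t)) (fun _ x y => C.X0 x ∧ y = x) l := by
  have hp : Pos (R (rank ∅)) (cl Tr0 (pair δ t)) := by
    rw [rank_empty, C.it.zero]; exact pos_cl po_Tr0 hT.tc.cond
  refine ⟨⟨hp, fun H _ _ => H, fun H => ⟨H.1, H.2 ▸ H.1.2⟩, fun {r x} a1 _ a3 =>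
    ⟨r, x, a1, sub_rfl, a3, rfl⟩, fun _ _ φ v w H => ?_⟩, y_empty, by rw [rank_empty]; exact bot_le,
    hZ, hA, h0, fun H => h1 _ H, fun _ a2 a3 a4 => ?_, ?_⟩
  · rw [show w = v from funext fun i => (H i).2]
  · rw [rank_empty] at a3
    exact a4.2 ▸ sub_trans a2 (hT.base _ a3)
  · rw [rank_empty] at *
    rw [(C.sys 0).up_self (lt_succ _) hp.1]

end GC

end Pool.Agent.Lib.MP_329f2d_lc.It
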