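import Pool.Agent.Lib.MP_329f2d_lc.H38G1

/-! From the package in the ground model to `ω₁` and the Kurepa tree of the extension. -/

namespace Pool.Agent.Lib.MP_329f2d_lc

open ZFSet

/-- What is used about the extension `W` of `K` by the generic filter `G`. -/
structure GenExt (K W : Set V) (P G : V) : Prop where
  zk : ZF K
  zw : ZF W
  mem : P ∈ K
  gen : Generic K P G
  sub : K ⊆ W
  self : G ∈ W
  nm : ∀ a ∈ K, ∀ b ∈ K, ∀ f ∈ W, (∀ x y y', pair x y ∈ f → pair x y' ∈ f → y = y') →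
    ∃ F ∈ K, FunNm P F a b ∧ ∀ x ∈ a, ∀ y ∈ b, pair x y ∈ f ↔ ∃ r ∈ G, In3 F r x y

namespace GenExt

variable {K W : Set V} {w P I L N G : V} (H : GenExt K W P G) (h : Pkg K w P I L N)
include H h

theorem meet {S : V → Prop} (hS : Cls K S) (hd : ∀ p, pair p p ∈ P → ∃ q, pair q p ∈ P ∧ S q) :
    ∃ q ∈ G, S q := by
  obtain ⟨q, h1, h2⟩ := H.gen.2 _ (hS.sep H.zk (tm1 (K := ZF) (t := fun _ p => dom p) H.zk H.mem))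
    ⟨fun p hp => (mem_dom.1 (mem_sep.1 hp).1).elim fun _ => h.po.left, fun p hp =>
      (hd p hp).imp fun q hq => ⟨mem_sep.2 ⟨mem_dom.2 ⟨p, hq.1⟩, hq.2⟩, hq.1⟩⟩
  exact ⟨q, h1, (mem_sep.1 h2).2⟩

omit h in
theorem ctbl {x : V} (hx : Ctbl K x) : Ctbl W x := hx.imp_right fun ⟨f, h1, h2⟩ => ⟨f, H.sub h1, h2⟩

omit H h in
theorem isFunc_uniq {a b f : V} (hf : IsFunc a b f) (x y y' : V) (h1 : pair x y ∈ f)
    (h2 : pair x y' ∈ f) : y = y' :=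
  (hf.2 x (pair_mem_prod.1 (hf.1 h1)).1).unique h1 h2

theorem om1 : Om1 W w := by
  refine ⟨H.sub h.om.1, h.om.2.1, ?_, fun α hα => H.ctbl (h.om.2.2.2 α hα)⟩
  rintro (e | ⟨f, hf, h1, h2⟩)
  · exact h.om.2.2.1 (.inl e)
  obtain ⟨F, f1, f2, f3⟩ := H.nm _ H.zk.omega _ h.om.1 f hf (isFunc_uniq h1)
  obtain ⟨c, c1, δ, c2, c3⟩ := H.meet h (cls3 (K := ZF) (S := fun _ w P F c => ∃ δ ∈ w,
    ∀ r n ξ, pair r c ∈ P → pair r (pair n ξ) ∈ F → ξ ∈ δ) H.zk h.om.1 H.mem f1) (h.pres F f1 f2)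
  obtain ⟨n, n1, n2⟩ := h2 δ c2
  obtain ⟨r, r1, r2⟩ := (f3 n n1 δ c2).1 n2
  obtain ⟨s, -, s1, s2⟩ := H.gen.1.2.2.2 r r1 c c1
  exact mem_irrefl δ (c3 s n δ s2 (f2.mono _ _ _ _ r2 s1))

theorem lv_coh {r r' α t α' t' : V} (hr : r ∈ G) (hr' : r' ∈ G) (h1 : In3 L r α t)
    (h2 : In3 L r' α' t') (h3 : α ⊆ α') (s : V) : s ∈ t ↔ ∃ x ∈ t', s = x ∩ α := by
  obtain ⟨q, -, q1, q2⟩ := H.gen.1.2.2.2 r hr r' hr'
  exact h.lv_coh q _ _ _ _ (h.lv_mono _ _ _ _ h1 q1) (h.lv_mono _ _ _ _ h2 q2) h3 s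

theorem nd_coh {r r' a α x α' x' : V} (hr : r ∈ G) (hr' : r' ∈ G) (h1 : In3 N r a (pair α x))
    (h2 : In3 N r' a (pair α' x')) (h3 : α ⊆ α') : x = x' ∩ α := by
  obtain ⟨q, -, q1, q2⟩ := H.gen.1.2.2.2 r hr r' hr'
  exact h.nd_coh q _ _ _ _ _ (h.nd_mono _ _ _ _ h1 q1) (h.nd_mono _ _ _ _ h2 q2) h3

theorem kurepa (hI : I ∈ K) (hL : L ∈ K) (hN : N ∈ K) : Kurepa W := by
  have hw := h.om.1
  obtain ⟨a₀, ha₀, -⟩ := h.bdd ∅ H.zk.empty ⟨by simp, by simp [In3], by simp [In3]⟩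
  have tot : ∀ a ∈ I, ∀ α ∈ w, ∃ r ∈ G, ∃ x t, In3 N r a (pair α x) ∧ In3 L r α t ∧ x ∈ t :=
    fun a ha α hα => H.meet h (cls4 (K := ZF) (S := fun _ N L a α r => ∃ x t,
      pair r (pair a (pair α x)) ∈ N ∧ pair r (pair α t) ∈ L ∧ x ∈ t) H.zk hN hL (H.zk.mem ha hI)
      (H.zk.mem hα hw)) fun r hr => by
        obtain ⟨r', x, t, h1, h2⟩ := h.nd_total a ha α hα r hr
        exact ⟨r', h1, x, t, h2⟩
  let T := ZFSet.sep (fun z => ∃ r ∈ G, ∃ t, pair r (pair (fst z) t) ∈ L ∧ snd z ∈ t)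
    (prod w (⋃₀ ran (ran L)))
  have hT : ∀ α s, pair α s ∈ T ↔ ∃ r ∈ G, ∃ t, In3 L r α t ∧ s ∈ t := fun α s => by
    simp only [T, mem_sep, fst_pair, snd_pair, pair_mem_prod]
    exact and_iff_right_of_imp fun ⟨r, _, t, h1, h2⟩ => ⟨(h.lv_dom r α t h1).2.1,
      mem_sUnion.2 ⟨t, mem_ran.2 ⟨α, mem_ran.2 ⟨r, h1⟩⟩, h2⟩⟩
  let b (a : V) : V := ⋃₀ ZFSet.sep (fun x => ∃ r ∈ G, ∃ α, pair r (pair a (pair α x)) ∈ N)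
    (ran (ran (ran N)))
  have hb : ∀ a y, y ∈ b a ↔ ∃ x, (∃ r ∈ G, ∃ α, In3 N r a (pair α x)) ∧ y ∈ x := fun a y => by
    simp only [b, mem_sUnion, mem_sep]
    exact exists_congr fun x => and_congr_left fun _ => and_iff_right_of_imp fun ⟨r, _, α, h1⟩ =>
      mem_ran.2 ⟨α, mem_ran.2 ⟨a, mem_ran.2 ⟨r, h1⟩⟩⟩
  have nd : ∀ r a α x, In3 N r a (pair α x) → α ∈ w ∧ x ⊆ α := fun r a α x h1 => by
    obtain ⟨-, β, h2, y, h3, e⟩ := h.nd_dom r a _ h1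
    obtain ⟨rfl, rfl⟩ := pair_inj.1 e
    exact ⟨h2, h3⟩
  have hb' : ∀ a, ∀ r ∈ G, ∀ α x, In3 N r a (pair α x) → b a ∩ α = x := fun a r hr α x h1 => by
    refine ZFSet.ext fun y => mem_inter.trans ⟨fun ⟨h2, h3⟩ => ?_,
      fun h2 => ⟨(hb a y).2 ⟨x, ⟨r, hr, α, h1⟩, h2⟩, (nd _ _ _ _ h1).2 h2⟩⟩
    obtain ⟨x', ⟨r', hr', α', h4⟩, h5⟩ := (hb a y).1 h2
    rcases (h.om.2.1.mem (nd _ _ _ _ h1).1).subset_total (h.om.2.1.mem (nd _ _ _ _ h4).1) with e | e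
    · exact H.nd_coh h hr hr' h1 h4 e ▸ mem_inter.2 ⟨h5, h3⟩
    · exact (mem_inter.1 (H.nd_coh h hr' hr h4 h1 e ▸ h5 : y ∈ x ∩ α')).1
  have inj : ∀ a ∈ I, ∀ a' ∈ I, b a = b a' → a = a' := fun a ha a' ha' e => by_contra fun h0 => by
    obtain ⟨r, hr, α, x, x', h1, h2, h3⟩ := H.meet h (cls3 (K := ZF) (S := fun _ N a a' r =>
      ∃ α x x', pair r (pair a (pair α x)) ∈ N ∧ pair r (pair a' (pair α x')) ∈ N ∧ x ≠ x') H.zk hN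
      (H.zk.mem ha hI) (H.zk.mem ha' hI)) fun r hr => by
        obtain ⟨r', α, x, x', h1, h2⟩ := h.nd_ne a ha a' ha' h0 r hr
        exact ⟨r', h1, α, x, x', h2⟩
    exact h3 (by rw [← hb' a r hr α x h1, e, hb' a' r hr α x' h2])
  refine ⟨w, H.om1 h, T, tm3 (K := ZF) (t := fun _ G L w => ZFSet.sep (fun z => ∃ r ∈ G, ∃ t,
    pair r (pair (fst z) t) ∈ L ∧ snd z ∈ t) (prod w (⋃₀ ran (ran L)))) H.zw H.self (H.sub hL)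
    (H.sub hw), fun z hz => ?_, fun α s h1 β hβ => ?_, fun α hα => ?_, img b I,
    tm3 (K := ZF) (t := fun _ G N I => img (fun a => ⋃₀ ZFSet.sep (fun x => ∃ r ∈ G, ∃ α,
      pair r (pair a (pair α x)) ∈ N) (ran (ran (ran N)))) I) H.zw H.self (H.sub hN) (H.sub hI),
    fun e => notMem_empty _ (e ▸ mem_img.2 ⟨a₀, ha₀, rfl⟩), fun c hc => ?_, ?_⟩
  · obtain ⟨α, h1, s, -, rfl⟩ := mem_prod.1 (mem_sep.1 hz).1
    obtain ⟨r, -, t, h2, h3⟩ := (hT α s).1 hz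
    exact ⟨α, h1, s, (h.lv_dom r α t h2).2.2.2.2 s h3, rfl⟩
  · obtain ⟨r, hr, t, h2, h3⟩ := (hT α s).1 h1
    have h4 := (h.lv_dom r α t h2).2.1
    obtain ⟨r', hr', -, t', -, h5, -⟩ := tot a₀ ha₀ β (h.om.2.1.mem_trans hβ h4)
    exact (hT _ _).2 ⟨r', hr', t', h5, (H.lv_coh h hr' hr h5 h2
      ((h.om.2.1.mem h4).subset_of_mem hβ) _).2 ⟨s, h3, rfl⟩⟩
  · obtain ⟨r, hr, -, t, -, h1, -⟩ := tot a₀ ha₀ α hα
    have h2 := h.lv_dom r α t h1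
    refine ⟨t, H.sub (mem_of_pair_right H.zk.trans (mem_of_pair_right H.zk.trans (H.zk.mem h1 hL))),
      h2.2.2.1, H.ctbl h2.2.2.2.1, fun s => ⟨fun hs => (hT _ _).2 ⟨r, hr, t, h1, hs⟩, fun hs => ?_⟩⟩
    obtain ⟨r', hr', t', h3, h4⟩ := (hT α s).1 hs
    exact (H.lv_coh h hr hr' h1 h3 (fun _ h => h) s).2
      ⟨s, h4, (inter_eq_left_of_subset ((h.lv_dom r' α t' h3).2.2.2.2 s h4)).symm⟩
  · obtain ⟨a, ha, rfl⟩ := mem_img.1 hc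
    refine ⟨fun y hy => ?_, fun α hα => ?_⟩
    · obtain ⟨x, ⟨r, -, α, h1⟩, h2⟩ := (hb a y).1 hy
      exact h.om.2.1.mem_trans ((nd _ _ _ _ h1).2 h2) (nd _ _ _ _ h1).1
    · obtain ⟨r, hr, x, t, h1, h2, h3⟩ := tot a ha α hα
      exact hb' a r hr α x h1 ▸ (hT _ _).2 ⟨r, hr, t, h2, h3⟩
  · rintro ⟨f, hf, h1, h2⟩
    have hg : ∀ ξ a, pair ξ a ∈ ZFSet.sep (fun z => pair (fst z) (b (snd z)) ∈ f) (prod w I) ↔
        (ξ ∈ w ∧ a ∈ I) ∧ pair ξ (b a) ∈ f := fun ξ a => by simp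
    obtain ⟨F, f1, f2, f3⟩ := H.nm w hw I hI _ (tm5 (K := ZF) (t := fun _ G N I w f => ZFSet.sep
      (fun z => pair (fst z) (⋃₀ ZFSet.sep (fun x => ∃ r ∈ G, ∃ α,
        pair r (pair (snd z) (pair α x)) ∈ N) (ran (ran (ran N)))) ∈ f) (prod w I)) H.zw H.self
      (H.sub hN) (H.sub hI) (H.sub hw) hf) fun ξ a a' k k' => inj a ((hg ξ a).1 k).1.2 a'
        ((hg ξ a').1 k').1.2 (isFunc_uniq h1 ξ _ _ ((hg ξ a).1 k).2 ((hg ξ a').1 k').2)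
    obtain ⟨a, ha, h3⟩ := h.bdd F f1 f2
    obtain ⟨ξ, h4, h5⟩ := h2 (b a) (mem_img.2 ⟨a, ha, rfl⟩)
    obtain ⟨r, -, h6⟩ := (f3 ξ h4 a ha).1 ((hg ξ a).2 ⟨⟨h4, ha⟩, h5⟩)
    exact h3 r ξ h6

end GenExt

end Pool.Agent.Lib.MP_329f2d_lc
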