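import Pool.Agent.Lib.MP_329f2d_lc.H59Iter

/-! Ranks of the levels of the iteration, and direct limits at inaccessible stages. -/

set_option linter.unusedSectionVars false

namespace Pool.Agent.Lib.MP_329f2d_lc

open ZFSet Order It

namespace Inacc

variable {κ : O} (hκ : Inacc κ) {x y : V}
include hκ

theorem pair (hx : rank x < κ) (hy : rank y < κ) : rank (pair x y) < κ := by
  simp only [ZFSet.pair, rank_insert, rank_singleton, max_lt_iff, hκ.lim.succ_lt_iff]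
  tauto

theorem pow (hx : rank x < κ) : rank (powerset x) < κ := by
  rw [rank_powerset]; exact hκ.lim.succ_lt hx

theorem pairSep (p : V → V → Prop) (hx : rank x < κ) (hy : rank y < κ) :
    rank (pairSep p x y) < κ :=
  (rank_mono sep_subset).trans_lt (hκ.pow (hκ.pow (by rw [rank_union]; exact max_lt hx hy)))

theorem prod (hx : rank x < κ) (hy : rank y < κ) : rank (prod x y) < κ := hκ.pairSep _ hx hy

theorem ord {b : O} (hb : b < κ) : rank b.toZFSet < κ := by rwa [Ordinal.rank_toZFSet]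

theorem w1 : rank w1 < κ := hκ.ord hκ.om

theorem bd {b : O} (hb : b < κ) (f : O → O) (hf : ∀ a < b, f a < κ) :
    ∃ β < κ, ∀ a < b, f a < β := by
  obtain ⟨β, h1, h2⟩ := hκ.im _ (hκ.ord hb) (fun z => (f (rank z)).toZFSet) fun z hz =>
    hκ.ord (hf _ (by simpa using rank_lt_of_mem hz))
  exact ⟨β, h1, fun a ha => by simpa using h2 _ (Ordinal.toZFSet_mem_toZFSet_iff.2 ha)⟩

theorem bd_nat (f : ℕ → O) (hf : ∀ k, f k < κ) : ∃ β < κ, ∀ k, f k < β := by
  obtain ⟨β, h1, h2⟩ := hκ.bd ((Ordinal.omega0_lt_omega_one).trans hκ.om)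
    (fun a => f (Function.invFun Nat.cast a)) fun _ _ => hf _
  exact ⟨β, h1, fun k => by
    simpa [Function.leftInverse_invFun Nat.cast_injective k] using h2 k (Ordinal.natCast_lt_omega0 k)⟩

theorem thr {b : O} (hb : b < κ) {g : O → V} (hg : ∀ a < b, rank (g a) < κ) :
    rank (thr b g) < κ := by
  obtain ⟨β, h1, h2⟩ := hκ.bd hb _ fun a ha => hκ.pair (hκ.ord (ha.trans hb)) (hg a ha)
  refine (rank_le_iff.2 fun z hz => ?_).trans_lt h1
  obtain ⟨a, ha, rfl⟩ := mem_thr.1 hz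
  exact h2 a ha

theorem sep4 (Φ : V → V → V → V → Prop) (hx : rank x < κ) (hy : rank y < κ) :
    rank (sep4 Φ x y) < κ := hκ.pairSep _ (hκ.prod hx hy) (hκ.prod hx hy)

theorem cxSet (P : V) : rank (CxSet κ P) < κ := by
  obtain h | ⟨x, hx⟩ := eq_empty_or_nonempty (CxSet κ P)
  · rw [h, rank_empty]; exact hκ.lim.bot_lt
  · exact (rank_le_iff.2 fun z hz => lt_succ_iff.2 ((mem_CxSet.1 hz).2.2 x
      (mem_CxSet.1 hx).2.1)).trans_lt (hκ.lim.succ_lt (mem_CxSet.1 hx).1)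

end Inacc

namespace It

variable {R : O → V} {κ : O}

theorem rank_fld_le (r : V) : rank (fld r) ≤ rank r :=
  (rank_mono sep_subset).trans ((rank_sUnion_le _).trans (rank_sUnion_le _))

theorem Pos.rk_le {r p : V} (h : Pos r p) : rank p ≤ rank r :=
  (rank_mono (mem_powerset.1 h.mem_pow)).trans (rank_fld_le r)

theorem Iter.rank_lt (H : Iter κ R) (hκ : Inacc κ) : ∀ b < κ, rank (R b) < κ := by
  intro b
  induction b using WellFoundedLT.induction with
  | ind b ih =>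
  intro hb
  have h1 : ∀ a < b, rank (fld (R a)) < κ := fun a ha =>
    (rank_fld_le _).trans_lt (ih a ha (ha.trans hb))
  rcases Ordinal.zero_or_succ_or_isSuccLimit b with rfl | ⟨a, rfl⟩ | hl
  · have := hκ.prod hκ.w1 (hκ.pow (hκ.pow hκ.w1))
    exact H.zero ▸ hκ.pairSep _ this this
  · have h2 := hκ.pow (h1 a (lt_succ a))
    have h3 : rank (Stp R κ a) < κ := by
      rw [Stp]
      split_ifs
      · refine hκ.sep4 _ ((rank_fld_le _).trans_lt (hκ.pairSep _ h2 h2)) ?_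
        rw [rank_insert, rank_empty]
        exact max_lt (hκ.lim.succ_lt hκ.lim.bot_lt)
          (hκ.prod (hκ.cxSet _) (by rw [rank_vonNeumann]; exact hκ.cxSet _))
      · exact hκ.sep4 _ h2 (hκ.prod hκ.w1 (hκ.pow hκ.w1))
    have h4 : ∀ p s, rank s < κ → rank (sk R a p s) < κ := fun p s hs =>
      hκ.pair (hκ.thr hb fun y hy => lt_of_le_of_lt (rank_mono fun _ h =>
        mem_fld.2 (mem_reg.1 h).1) (h1 y hy)) hs
    obtain ⟨β, h5, h6⟩ := hκ.im _ ((rank_mono sep_subset).trans_lt h3)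
      (fun z => pair (sk R a (fst (fst z)) (snd (fst z))) (sk R a (fst (snd z)) (snd (snd z))))
      fun z (hz : z ∈ (Stp R κ a).sep fun z => ∃ p s p' s', z = pair (pair p s) (pair p' s')) => by
        obtain ⟨h7, p, s, p', s', rfl⟩ := mem_sep.1 hz
        have h8 := (rank_lt_of_mem h7).trans h3
        simp only [fst_pair, snd_pair]
        exact hκ.pair (h4 _ _ ((rank_right_lt p s).trans ((rank_left_lt _ _).trans h8)))
          (h4 _ _ ((rank_right_lt p' s').trans ((rank_right_lt _ _).trans h8)))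
    rw [H.suc]
    refine (rank_le_iff.2 fun z hz => ?_).trans_lt h5
    obtain ⟨y, hy, rfl⟩ := mem_img.1 hz
    exact h6 y hy
  · obtain ⟨β, h2, h3⟩ := hκ.bd hb _ fun a ha => hκ.pow (h1 a ha)
    have h4 : rank (limU R b) < κ := hκ.prod (hκ.pow (hκ.prod (hκ.ord hb)
      ((rank_le_iff.2 fun z hz => by
        obtain ⟨x, hx⟩ := mem_iUnion.1 hz
        exact (rank_lt_of_mem hx).trans (h3 _ x.2)).trans_lt h2)))
      (by rw [rank_singleton, rank_empty]; exact hκ.lim.succ_lt hκ.lim.bot_lt)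
    rw [H.lim b hl]
    exact (rank_mono sep_subset).trans_lt (hκ.prod h4 h4)

/-- The levels of a ladder are predense at bounded stages. -/
theorem Lad.bound {ζ : O} (hζ : Inacc ζ) (h : Sys R ζ) (hr : ∀ b < ζ, rank (R b) < ζ)
    {g : O → V} {S : ℕ → O → V → Prop} (hS : Lad R ζ g S) (k : ℕ) :
    ∃ β < ζ, ∀ d, Thr R ζ d → (∀ x ≤ β, d x ⊆ g x) → ∃ x ≤ β, ∃ c, S k x c ∧ Meets (d x) c := by
  induction k with
  | zero =>
    obtain ⟨x, hx⟩ := hS.root
    have := (hS.dom _ _ _ hx).1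
    exact ⟨x, this, fun d hd hs => ⟨x, le_rfl, _, hx, (hd.pos x this).meets (hs x le_rfl)⟩⟩
  | succ k ih =>
    obtain ⟨β, h1, ih⟩ := ih
    choose! x' r' a using hS.step k
    have h2 := hζ.lim.succ_lt h1
    obtain ⟨γ, h3, h4⟩ := hζ.bd h2 _ fun a ha => hr a (ha.trans h2)
    have h5 : rank (vonNeumann γ) < ζ := by rwa [rank_vonNeumann]
    obtain ⟨β', h6, h7⟩ := hζ.im _ ((rank_mono (sep_subset (p := fun t => ∃ x c r,
        t = pair x.toZFSet (pair c r) ∧ S k x c ∧ Pos (R x) r ∧ r ⊆ c))).trans_lt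
      (hζ.prod (hζ.ord h2) (hζ.prod h5 h5)))
      (fun t => (x' (rank (fst t)) (fst (snd t)) (snd (snd t))).toZFSet) fun t ht => by
        obtain ⟨-, x, c, r, rfl, b1, b2, b3⟩ := mem_sep.1 ht
        simpa using (hS.dom _ _ _ (a x c b1 r b2 b3).2.2.2).1
    refine ⟨max β β', max_lt h1 h6, fun d hd hs => ?_⟩
    obtain ⟨x, hx, c, b1, b2⟩ := ih d hd fun x hx => hs x (le_max_of_le_left hx)
    obtain ⟨b3, hc, -⟩ := hS.dom _ _ _ b1
    have b4 := b2.pos (h.po b3) (hd.pos x b3).1 hc.1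
    obtain ⟨a1, a2, a3, a4⟩ := a x c b1 _ b4 (inter_sub_right _ _)
    have b5 := h4 x (lt_succ_iff.2 hx)
    have b6 : x' x c (d x ∩ c) ≤ max β β' := le_max_of_le_right (le_of_lt (by
      simpa using h7 _ (mem_sep.2 ⟨pair_mem_prod.2 ⟨Ordinal.toZFSet_mem_toZFSet_iff.2
        (lt_succ_iff.2 hx), pair_mem_prod.2 ⟨mem_vonNeumann.2 (hc.rk_le.trans_lt b5),
        mem_vonNeumann.2 (b4.rk_le.trans_lt b5)⟩⟩, x, c, _, rfl, b1, b4, inter_sub_right _ _⟩)))
    obtain ⟨e, he⟩ := (h.inter_up_pos hd a1 (hS.dom _ _ _ a4).1 a2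
      (sub_trans a3 (inter_sub_left _ _))).2
    rw [mem_inter] at he
    exact ⟨_, b6, _, a4, e, he.1, mem_inter.2 ⟨hs _ b6 he.1, he.2⟩⟩

/-- L4: at an inaccessible stage nice threads are eventually constant. -/
theorem Nice.const {ζ : O} (hζ : Inacc ζ) (h : Sys R ζ) (hr : ∀ b < ζ, rank (R b) < ζ)
    {g : O → V} (hg : Nice R ζ g) : ∃ y < ζ, ∀ x, y ≤ x → x < ζ → g x = up R y x (g y) := by
  obtain ⟨hg, S, hS⟩ := hg
  choose β h1 h2 using hS.bound hζ h hr
  obtain ⟨y, hy, h3⟩ := hζ.bd_nat β h1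
  refine ⟨y, hy, fun x hx hx' => sub_antisymm (hg.sub_up h hx hx')
    (hS.lim x hx' _ (h.up_pos hx hx' (hg.pos y hy)) fun k r h4 h5 => ?_)⟩
  obtain ⟨z, hz, c, h6, h7⟩ := h2 k _ (h.thr_cnst hx' h4) fun z hz => by
    have h6 := hz.trans (h3 k).le
    rw [cnst_le (h6.trans hx), hg.coh z y h6 hy, ← h.pr_pr hx hx' h6 h4.1,
      ← h.pr_up hx hx' (hg.pos y hy).1]
    exact pr_mono (pr_mono h5)
  have h8 := (hz.trans (h3 k).le).trans hx
  rw [cnst_le h8] at h7
  exact ⟨z, c, h8, h6, ((h.meets_iff h8 hx' h4.1 (hS.dom _ _ _ h6).2.1.1).1 h7.symm).symm⟩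

/-- Conditions of the last level come from lower levels. -/
theorem Iter.exists_up (H : Iter κ R) (hκ : Inacc κ) {r : V} (hr : Pos (R κ) r) (y₀ : O)
    (hy : y₀ < κ) : ∃ y q, y₀ ≤ y ∧ y < κ ∧ Pos (R y) q ∧ up R y κ q ⊆ r := by
  obtain ⟨e, he⟩ := hr.2
  have hL := H.limSpec hκ.lim
  have hp := (H.lev κ).po
  have h1 := hr.1.cond hp he
  have hg := hL.nice h1
  obtain ⟨y, h2, h3⟩ := hg.const hκ (H.sys κ) (H.rank_lt hκ)
  have h4 := max_lt hy h2
  refine ⟨_, _, le_max_left _ _, h4, hg.1.pos _ h4, fun e' he' => ?_⟩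
  obtain ⟨h5, h6⟩ := mem_up.1 he'
  rw [rho_lt h4] at h6
  have h7 := (hL.nice h5).1
  refine hr.1.down hp he (hL.le_of h5 h1 fun x hx => ?_)
  rcases le_total x (max y₀ y) with h8 | h8
  · rw [h7.coh x _ h8 h4, hg.1.coh x _ h8 h4]
    exact pr_mono h6
  · rw [h3 x ((le_max_right _ _).trans h8) hx, ← (H.sys κ).up_up h8 hx (le_max_right _ _)
      (hg.1.pos y h2).1, ← h3 _ (le_max_right _ _) h4]
    exact h7.sub_up_of (H.sys κ) h8 hx h6

end It

end Pool.Agent.Lib.MP_329f2d_lc
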