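import Pool.Agent.Lib.MP_329f2d_lc.H59Defs

/-!
Jensen's clause read with the predicate (`SubAtJ`, fullness of the structure) and read without
it (`SubAtF`) both imply `SubAt`.
-/

namespace Pool.Agent.Lib.MP_329f2d_lc.Read

open ZFSet

/-- With `A ∈ N` the pulled back predicate is a member of `M`. -/
theorem pred_mem {σ M B N A : V} (hM : ZFm (M : Set V) ∅) (hA : A ∈ N)
    (h : Elem σ M B N A) : ∃ b ∈ M, ∀ x ∈ M, x ∈ b ↔ x ∈ B := by
  obtain ⟨w, hw, -⟩ := h.1.2 omega hM.omega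
  let φ : Fml := .ex (.neg (.ex (.neg (.and (.neg (.and (.mem 0 1) (.neg (.pred 0))))
    (.neg (.and (.pred 0) (.neg (.mem 0 1))))))))
  have := (h.2 φ (fun _ => omega) (fun _ => w) (fun _ => hw)).2 (by
    refine ⟨A, hA, ?_⟩
    simp [Sat, cons])
  obtain ⟨b, hb, hb'⟩ := this
  refine ⟨b, hb, fun x hx => ?_⟩
  simp only [Sat, cons, not_exists, not_and, not_not, SetLike.mem_coe] at hb'
  have := hb' x hx
  tauto


/-- Jensen's reading: the STRUCTURE (M, B) is full, i.e. the hierarchy starts from M, {M} and B ∩ M. -/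
def FullS (W : Set V) (M B : V) : Prop :=
  ZFCm M ∅ ∧ ∃ γ ∈ W, IsOrdinal γ ∧ ZFCm (Lh (insert (B ∩ M) (insert M M)) ∅ γ) ∅ ∧
    ∀ x ∈ M, ∀ f ∈ Lh (insert (B ∩ M) (insert M M)) ∅ γ, IsFunc x M f → ∃ r ∈ M, Onto f x r

/-- Jensen's clause for ALL predicates A, with fullness of the structure. -/
def SubAtJ (W : Set V) (P θ : V) : Prop :=
  ∀ A ∈ W, ∀ τ ∈ W, ∀ N, IsOrdinal τ → N = Lh ∅ A τ → ZFCm N A →
  (∀ x, InH W θ x → x ∈ N) →
  ∀ M ∈ W, ∀ B ∈ W, ∀ σ ∈ W, Ctbl W M → FullS W M B → Elem σ M B N A →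
  ∀ θ' P' s' s, pair θ' θ ∈ σ → pair P' P ∈ σ → pair s' s ∈ σ →
  ∀ H ∈ W, Generic M P' H →
  ∃ p, pair p p ∈ P ∧ ∀ G, Generic W P G → p ∈ G →
    ∃ σ' ∈ Ext W G, Elem σ' M B N A ∧ pair θ' θ ∈ σ' ∧ pair P' P ∈ σ' ∧ pair s' s ∈ σ' ∧
      (∀ x ∈ H, ∀ y, pair x y ∈ σ' → y ∈ G) ∧
      ∀ d, Delta W P d → Hull N A d σ' = Hull N A d σ

theorem subAt_of_J {W : Set V} {P θ : V} (h : SubAtJ W P θ) : SubAt W P θ := by
  intro A hA τ hτ N ho e hAN hz hH M hM B hB σ hσ hc hf hel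
  refine h A hA τ hτ N ho e hz hH M hM B hB σ hσ hc ?_ hel
  obtain ⟨b, hb, hb'⟩ := pred_mem hf.1.1 hAN hel
  have e1 : B ∩ M = b := by
    ext x; simp only [mem_inter]
    exact ⟨fun ⟨h1, h2⟩ => (hb' x h2).2 h1, fun h1 =>
      have := hf.1.1.trans b hb x h1
      ⟨(hb' x this).1 h1, this⟩⟩
  have e2 : (insert (B ∩ M) (insert M M) : V) = insert M M := by
    rw [e1]; ext x; simp only [mem_insert_iff]
    exact ⟨fun h => h.elim (fun e => Or.inr (e ▸ hb)) id, Or.inr⟩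
  unfold FullS; rw [e2]; exact hf


def sh (k i : ℕ) : ℕ := if i < k then i else i + 1

def tr : ℕ → Fml → Fml
  | k, .mem i j => .mem (sh k i) (sh k j)
  | k, .eq i j => .eq (sh k i) (sh k j)
  | k, .pred i => .mem (sh k i) k
  | k, .neg φ => .neg (tr k φ)
  | k, .and φ ψ => .and (tr k φ) (tr k ψ)
  | k, .ex φ => .ex (tr (k + 1) φ)

def ins (k : ℕ) (b : V) (v : ℕ → V) : ℕ → V := fun i => if i < k then v i else if i = k then b else v (i - 1)

theorem ins_sh (k b v i) : ins k b v (sh k i) = v i := by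
  unfold ins sh; split_ifs <;> first | rfl | omega

theorem ins_self (k b v) : ins k b v k = b := by simp [ins]

theorem ins_cons (k b v x) : ins (k + 1) b (cons x v) = cons x (ins k b v) := by
  funext i
  rcases i with _ | i
  · simp [ins, cons]
  · simp only [ins, cons, Nat.add_lt_add_iff_right, Nat.add_right_cancel_iff, Nat.add_sub_cancel]
    split_ifs with h1 h2
    · rfl
    · rfl
    · obtain ⟨j, rfl⟩ : ∃ j, i = j + 1 := ⟨i - 1, by omega⟩
      simp [cons]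

theorem sat_tr {K B C : Set V} {b : V} (hb : ∀ x ∈ K, x ∈ b ↔ x ∈ B) (φ : Fml) :
    ∀ k v, (∀ i, v i ∈ K) → (Sat K C (tr k φ) (ins k b v) ↔ Sat K B φ v) := by
  induction φ with
  | mem i j => intro k v _; simp [tr, Sat, ins_sh]
  | eq i j => intro k v _; simp [tr, Sat, ins_sh]
  | pred i => intro k v hv; simp only [tr, Sat, ins_sh, ins_self]; exact hb _ (hv i)
  | neg φ ih => intro k v hv; simp only [tr, Sat, ih k v hv]
  | and φ ψ ih1 ih2 => intro k v hv; simp only [tr, Sat, ih1 k v hv, ih2 k v hv]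
  | ex φ ih =>
    intro k v hv; simp only [tr, Sat]
    refine exists_congr fun x => and_congr_right fun hx => ?_
    rw [← ins_cons]
    exact ih _ _ fun i => by cases i <;> simp [cons, hx, hv]

/-- a predicate-free elementary map that sends b to A respects the predicates -/
theorem elem_pred {σ M B N A b : V} (h : Elem σ M ∅ N ∅) (hb : ∀ x ∈ M, x ∈ b ↔ x ∈ B)
    (hσ : pair b A ∈ σ) : Elem σ M B N A := by
  refine ⟨h.1, fun φ v w hvw => ?_⟩
  have hv : ∀ i, v i ∈ (M : Set V) := fun i => (pair_mem_prod.1 (h.1.1 (hvw i))).1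
  have hw : ∀ i, w i ∈ (N : Set V) := fun i => (pair_mem_prod.1 (h.1.1 (hvw i))).2
  rw [← sat_tr (C := ((∅ : V) : Set V)) (b := b) (K := (M : Set V)) (B := (B : Set V)) hb φ 0 v hv,
    ← sat_tr (C := ((∅ : V) : Set V)) (b := A) (K := (N : Set V)) (B := (A : Set V)) (fun _ _ => Iff.rfl) φ 0 w hw]
  refine h.2 _ _ _ fun i => ?_
  unfold ins; split_ifs
  · exact hvw _
  · exact hσ
  · exact hvw _


def nop : Fml → Fml
  | .mem i j => .mem i j
  | .eq i j => .eq i j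
  | .pred i => .neg (.eq i i)
  | .neg φ => .neg (nop φ)
  | .and φ ψ => .and (nop φ) (nop ψ)
  | .ex φ => .ex (nop φ)

theorem sat_nop {K A E : Set V} (hE : ∀ x, x ∉ E) (φ : Fml) : ∀ v, Sat K A (nop φ) v ↔ Sat K E φ v := by
  induction φ with
  | mem i j => intro v; simp [nop, Sat]
  | eq i j => intro v; simp [nop, Sat]
  | pred i => intro v; simp [nop, Sat, hE]
  | neg φ ih => intro v; simp only [nop, Sat, ih v]
  | and φ ψ ih1 ih2 => intro v; simp only [nop, Sat, ih1 v, ih2 v]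
  | ex φ ih => intro v; simp only [nop, Sat, ih]

theorem sat_tr' {K C : Set V} {A : V} (φ : Fml) :
    ∀ k v, (Sat K C (tr k φ) (ins k A v) ↔ Sat K (A : Set V) φ v) := by
  induction φ with
  | mem i j => intro k v; simp [tr, Sat, ins_sh]
  | eq i j => intro k v; simp [tr, Sat, ins_sh]
  | pred i => intro k v; simp only [tr, Sat, ins_sh, ins_self]; rfl
  | neg φ ih => intro k v; simp only [tr, Sat, ih k v]
  | and φ ψ ih1 ih2 => intro k v; simp only [tr, Sat, ih1 k v, ih2 k v]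
  | ex φ ih =>
    intro k v; simp only [tr, Sat]
    refine exists_congr fun x => and_congr_right fun hx => ?_
    rw [← ins_cons]; exact ih _ _

theorem e0 : ∀ x : V, x ∉ ((∅ : V) : Set V) := by simp

theorem hull_eq {N A d σ b : V} (h : pair b A ∈ σ) : Hull N A d σ = Hull N ∅ d σ := by
  ext y; simp only [Hull, Set.mem_ofPred_eq]
  refine and_congr_right fun _ => ⟨fun ⟨φ, v, hv, hφ⟩ => ⟨tr 1 φ, ins 0 A v, fun i => ?_, fun z hz => ?_⟩,
    fun ⟨φ, v, hv, hφ⟩ => ⟨nop φ, v, hv, fun z hz => ?_⟩⟩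
  · unfold ins; split_ifs
    · exact hv _
    · exact Or.inr ⟨b, h⟩
    · exact hv _
  · rw [← ins_cons, sat_tr']; exact hφ z hz
  · rw [sat_nop e0]; exact hφ z hz

/-- predicate-free reading (two parameters s, t instead of one) -/
def SubAtF (W : Set V) (P θ : V) : Prop :=
  ∀ A ∈ W, ∀ τ ∈ W, ∀ N, IsOrdinal τ → N = Lh ∅ A τ → ZFCm N ∅ →
  (∀ x, InH W θ x → x ∈ N) →
  ∀ M ∈ W, ∀ σ ∈ W, Ctbl W M → Full W M → Elem σ M ∅ N ∅ →
  ∀ θ' P' s' s t' t, pair θ' θ ∈ σ → pair P' P ∈ σ → pair s' s ∈ σ → pair t' t ∈ σ →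
  ∀ H ∈ W, Generic M P' H →
  ∃ p, pair p p ∈ P ∧ ∀ G, Generic W P G → p ∈ G →
    ∃ σ' ∈ Ext W G, Elem σ' M ∅ N ∅ ∧ pair θ' θ ∈ σ' ∧ pair P' P ∈ σ' ∧ pair s' s ∈ σ' ∧
      pair t' t ∈ σ' ∧ (∀ x ∈ H, ∀ y, pair x y ∈ σ' → y ∈ G) ∧
      ∀ d, Delta W P d → Hull N ∅ d σ' = Hull N ∅ d σ

theorem subAt_of_F {W : Set V} {P θ : V} (h : SubAtF W P θ) : SubAt W P θ := by
  intro A hA τ hτ N ho e hAN hz hH M hM B hB σ hσ hc hf hel θ' P' s' s h1 h2 h3 H hH' hg
  obtain ⟨b, hb, hb'⟩ := pred_mem hf.1.1 hAN hel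
  obtain ⟨a, ha, -⟩ := hel.1.2 b hb
  have haN : a ∈ N := (pair_mem_prod.1 (hel.1.1 ha)).2
  have eA : a = A := by
    let φ : Fml := .neg (.ex (.neg (.and (.neg (.and (.mem 0 1) (.neg (.pred 0))))
      (.neg (.and (.pred 0) (.neg (.mem 0 1)))))))
    have := (hel.2 φ (fun _ => b) (fun _ => a) (fun _ => ha)).1 (by
      simp only [φ, Sat, cons, not_exists, not_and, not_not, SetLike.mem_coe]
      intro x hx; have := hb' x hx; tauto)
    simp only [φ, Sat, cons, not_exists, not_and, not_not, SetLike.mem_coe] at this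
    ext x
    constructor
    · intro hx; have := this x (hz.1.trans a haN x hx); tauto
    · intro hx; have := this x (hz.1.trans A hAN x hx); tauto
  subst eA
  have z0 : ZFCm (N : Set V) ∅ := by
    refine ⟨⟨hz.1.trans, hz.1.omega, hz.1.pair, hz.1.union, fun φ v hv c hc => ?_,
      fun φ v hv c hc hh => ?_⟩, hz.2⟩
    · simpa only [sat_nop (E := ∅) (by simp)] using hz.1.sep (nop φ) v hv c hc
    · have := hz.1.coll (nop φ) v hv c hc (by simpa only [sat_nop (E := ∅) (by simp)] using hh)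
      simpa only [sat_nop (E := ∅) (by simp)] using this
  have el0 : Elem σ M ∅ N ∅ := ⟨hel.1, fun φ v w hvw => by
    rw [← sat_nop (A := (B : Set V)) e0, ← sat_nop (A := (a : Set V)) e0]; exact hel.2 _ v w hvw⟩
  obtain ⟨p, hp, hp'⟩ := h a hA τ hτ N ho e z0 hH M hM σ hσ hc hf el0 θ' P' s' s b a h1 h2 h3 ha H hH' hg
  refine ⟨p, hp, fun G hG hpG => ?_⟩
  obtain ⟨σ', m, e', k1, k2, k3, k4, k5, k6⟩ := hp' G hG hpG
  refine ⟨σ', m, elem_pred e' hb' k4, k1, k2, k3, k5, fun d hd => ?_⟩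
  rw [hull_eq k4, hull_eq ha, k6 d hd]

end Pool.Agent.Lib.MP_329f2d_lc.Read
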